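import Pool.Agent.Helper657_nd.PowD

set_option autoImplicit false

/-!
# Automorphism groups of free groups: preliminaries
-/

namespace Pool.Agent.Helper657_nd.AutF

open FreeGroup hiding map_mul map_inv map_one

section
variable {α : Type} [DecidableEq α]

/-- the subgroup generated by the generators different from `c` -/
def P (c : α) : Subgroup (FreeGroup α) := Subgroup.closure {z | ∃ x, x ≠ c ∧ z = of x}

theorem of_mem {c x : α} (h : x ≠ c) : of x ∈ P c := Subgroup.subset_closure ⟨x, h, rfl⟩

/-- the endomorphism that maps `c` to `w` and fixes all other generators -/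
def ext (c : α) (w : FreeGroup α) : FreeGroup α →* FreeGroup α :=
  lift (fun x => if x = c then w else of x)

theorem ext_self (c : α) (w : FreeGroup α) : ext c w (of c) = w := by simp [ext]

theorem ext_of {c x : α} (h : x ≠ c) (w : FreeGroup α) : ext c w (of x) = of x := by
  simp [ext, h]

/-- homomorphisms that agree on the generators different from `c` agree on `P c` -/
theorem eq_on_P {H : Type} [Group H] {c : α} {f g : FreeGroup α →* H}
    (h : ∀ x, x ≠ c → f (of x) = g (of x)) : ∀ p ∈ P c, f p = g p := by
  have : P c ≤ f.eqLocus g := by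
    rw [P, Subgroup.closure_le]
    rintro z ⟨x, hx, rfl⟩
    exact h x hx
  exact fun p hp => this hp

theorem ext_P {c : α} (w : FreeGroup α) : ∀ p ∈ P c, ext c w p = p :=
  eq_on_P (g := MonoidHom.id _) fun _ hx => ext_of hx w

/-- an automorphism from a pair of mutually inverse substitutions -/
def mk2 (c : α) (w w' : FreeGroup α) (h1 : ext c w' w = of c) (h2 : ext c w w' = of c) :
    MulAut (FreeGroup α) :=
  MonoidHom.toMulEquiv (ext c w) (ext c w')
    (by
      apply FreeGroup.ext_hom
      intro x
      by_cases hx : x = c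
      · subst hx
        simp only [MonoidHom.comp_apply, MonoidHom.id_apply, ext_self, h1]
      · simp only [MonoidHom.comp_apply, MonoidHom.id_apply, ext_of hx])
    (by
      apply FreeGroup.ext_hom
      intro x
      by_cases hx : x = c
      · subst hx
        simp only [MonoidHom.comp_apply, MonoidHom.id_apply, ext_self, h2]
      · simp only [MonoidHom.comp_apply, MonoidHom.id_apply, ext_of hx])

theorem mk2_apply (c : α) (w w' : FreeGroup α) (h1 : ext c w' w = of c) (h2 : ext c w w' = of c)
    (z : FreeGroup α) : mk2 c w w' h1 h2 z = ext c w z := rfl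

/-- the transvection `c ↦ u c` -/
def lam (c : α) (u : FreeGroup α) (hu : u ∈ P c) : MulAut (FreeGroup α) :=
  mk2 c (u * of c) (u⁻¹ * of c)
    (by rw [map_mul, ext_P _ u hu, ext_self, mul_inv_cancel_left])
    (by rw [map_mul, map_inv, ext_P _ u hu, ext_self, inv_mul_cancel_left])

/-- the inversion of `c` -/
def iota (c : α) : MulAut (FreeGroup α) :=
  mk2 c (of c)⁻¹ (of c)⁻¹ (by rw [map_inv, ext_self, inv_inv])
    (by rw [map_inv, ext_self, inv_inv])

theorem lam_self (c : α) (u : FreeGroup α) (hu : u ∈ P c) : lam c u hu (of c) = u * of c :=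
  ext_self c _

theorem lam_P (c : α) (u : FreeGroup α) (hu : u ∈ P c) : ∀ p ∈ P c, lam c u hu p = p :=
  ext_P _

theorem iota_P (c : α) : ∀ p ∈ P c, iota c p = p := ext_P _

/-- the letters `c` and `c⁻¹` are exchanged -/
def flip (c : α) (p : α × Bool) : α × Bool := if p.1 = c then (p.1, !p.2) else p

theorem flip_fst (c : α) (p : α × Bool) : (flip c p).1 = p.1 := by
  unfold flip
  split_ifs <;> rfl

theorem iota_mk (c : α) (L : List (α × Bool)) :
    iota c (mk L) = mk (L.map (flip c)) := by
  show ext c (of c)⁻¹ (mk L) = _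
  induction L with
  | nil => exact map_one _
  | cons p L ih =>
    have h1 : mk (p :: L) = mk [p] * mk L := by rw [mul_mk]; rfl
    have h2 : mk ((p :: L).map (flip c)) = mk [flip c p] * mk (L.map (flip c)) := by
      rw [mul_mk]; rfl
    rw [h1, h2, map_mul, ih]
    congr 1
    rcases p with ⟨x, b⟩
    have hof : ∀ x : α, of x = mk [(x, true)] := fun _ => rfl
    have hinv : ∀ x : α, mk [(x, false)] = (of x)⁻¹ := fun x => by
      rw [hof, inv_mk]; rfl
    by_cases hx : x = c
    · subst hx
      cases b
      · rw [hinv, map_inv, ext_self, inv_inv]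
        simp [flip, hof]
      · rw [← hof, ext_self, ← hinv]
        simp [flip]
    · cases b
      · rw [hinv, map_inv, ext_of hx]
        simp [flip, hx, hinv]
      · rw [← hof, ext_of hx]
        simp [flip, hx, hof]

theorem mk_mem (c : α) (L : List (α × Bool)) (h : ∀ p ∈ L, p.1 ≠ c) : mk L ∈ P c := by
  induction L with
  | nil => exact (P c).one_mem
  | cons p L ih =>
    have h1 : mk (p :: L) = mk [p] * mk L := by rw [mul_mk]; rfl
    rw [h1]
    refine (P c).mul_mem ?_ (ih fun q hq => h q (List.mem_cons_of_mem _ hq))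
    have hp := h p List.mem_cons_self
    rcases p with ⟨x, b⟩
    cases b
    · have : mk [(x, false)] = (of x)⁻¹ := by
        show _ = (mk [(x, true)])⁻¹
        rw [inv_mk]; rfl
      rw [this]
      exact (P c).inv_mem (of_mem hp)
    · exact of_mem hp

/-- the fixed points of the inversion of `c` -/
theorem mem_P_of_fixed {c : α} {z : FreeGroup α} (h : iota c z = z) : z ∈ P c := by
  have h1 : iota c (mk z.toWord) = mk z.toWord := by rw [mk_toWord, h]
  rw [iota_mk] at h1
  have h2 : FreeGroup.IsReduced (z.toWord.map (flip c)) := by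
    have h3 : FreeGroup.IsReduced z.toWord := isReduced_toWord
    unfold FreeGroup.IsReduced at h3 ⊢
    rw [List.isChain_map]
    refine h3.imp ?_
    intro p q hpq h4
    rw [flip_fst, flip_fst] at h4
    have h5 := hpq h4
    unfold flip
    rw [← h4]
    split_ifs with h6
    · simp [h5]
    · exact h5
  have h4 : z.toWord.map (flip c) = z.toWord := by
    have h5 := congrArg toWord h1
    rw [toWord_mk, h2.reduce_eq, mk_toWord] at h5
    exact h5
  rw [← mk_toWord (x := z)]
  refine mk_mem c _ fun p hp hpc => ?_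
  have h6 : ∀ (L : List (α × Bool)), L.map (flip c) = L → ∀ p ∈ L, flip c p = p := by
    intro L
    induction L with
    | nil => intro _ p hp; exact absurd hp List.not_mem_nil
    | cons q L ih =>
      intro h p hp
      rw [List.map_cons, List.cons.injEq] at h
      rcases List.mem_cons.1 hp with rfl | hp
      · exact h.1
      · exact ih h.2 p hp
  have h7 := h6 _ h4 p hp
  rcases p with ⟨x, b⟩
  simp only at hpc
  subst hpc
  simp [flip] at h7

/-- exponent sums -/
def ex (a : α) : FreeGroup α →* Multiplicative ℤ :=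
  lift (fun x => if x = a then Multiplicative.ofAdd 1 else 1)

def E (a : α) (z : FreeGroup α) : ℤ := (ex a z).toAdd

theorem E_mul (a : α) (y z : FreeGroup α) : E a (y * z) = E a y + E a z := by
  unfold E
  rw [map_mul]
  rfl

theorem E_inv (a : α) (z : FreeGroup α) : E a z⁻¹ = - E a z := by
  unfold E
  rw [map_inv]
  rfl

theorem E_one (a : α) : E a (1 : FreeGroup α) = 0 := by
  unfold E
  rw [map_one]
  rfl

theorem E_self (a : α) : E a (of a) = 1 := by
  unfold E ex
  simp

theorem E_of {a x : α} (h : x ≠ a) : E a (of x) = 0 := by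
  unfold E ex
  simp [h]

theorem E_zpow (a : α) (z : FreeGroup α) (k : ℤ) : E a (z ^ k) = k * E a z := by
  unfold E
  rw [map_zpow, toAdd_zpow, smul_eq_mul]

/-- centralizers of generators -/
theorem cent_of (a : α) (y : FreeGroup α) (h : y * of a = of a * y) :
    ∃ k : ℤ, y = of a ^ k := by
  obtain ⟨z, hz⟩ := FreeL.centralizer_cyclic (of a) (of_ne_one a)
  obtain ⟨j, hj⟩ := hz (of a) rfl
  obtain ⟨k, hk⟩ := hz y h
  have h1 : (1 : ℤ) = j * E a z := by rw [← E_zpow, ← hj, E_self]
  rcases Int.isUnit_iff.1 (isUnit_iff_exists_inv.2 ⟨_, h1.symm⟩) with rfl | rfl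
  · rw [zpow_one] at hj
    exact ⟨k, by rw [hj]; exact hk⟩
  · refine ⟨-k, ?_⟩
    rw [hj, zpow_neg_one, inv_zpow', neg_neg]
    exact hk

theorem eq_one_of_comm {a b : α} (hab : a ≠ b) (y : FreeGroup α) (h : y * of a = of a * y)
    (h' : y * of b = of b * y) : y = 1 := by
  obtain ⟨k, hk⟩ := cent_of a y h
  obtain ⟨l, hl⟩ := cent_of b y h'
  have h1 : k = 0 := by
    have h2 := congrArg (E a) hk
    rw [hl, E_zpow, E_zpow, E_self, E_of hab.symm] at h2
    linarith
  rw [hk, h1, zpow_zero]

theorem conj_injective {a b : α} (hab : a ≠ b) {y z : FreeGroup α}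
    (h : MulAut.conj y = MulAut.conj z) : y = z := by
  have h1 : ∀ x : FreeGroup α, (z⁻¹ * y) * x = x * (z⁻¹ * y) := by
    intro x
    have h2 := DFunLike.congr_fun h x
    rw [MulAut.conj_apply, MulAut.conj_apply] at h2
    calc (z⁻¹ * y) * x = z⁻¹ * (y * x * y⁻¹) * y := by group
      _ = x * (z⁻¹ * y) := by rw [h2]; group
  have h3 := eq_one_of_comm hab (z⁻¹ * y) (h1 _) (h1 _)
  rw [inv_mul_eq_one] at h3
  exact h3.symm

theorem mul_conj (f : MulAut (FreeGroup α)) (g : FreeGroup α) :
    f * MulAut.conj g = MulAut.conj (f g) * f := by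
  ext1 x
  rw [MulAut.mul_apply, MulAut.mul_apply, MulAut.conj_apply, MulAut.conj_apply, map_mul, map_mul,
    map_inv]

/-- commutation with an inner automorphism -/
theorem comm_conj {a b : α} (hab : a ≠ b) (f : MulAut (FreeGroup α)) (g : FreeGroup α) :
    f * MulAut.conj g = MulAut.conj g * f ↔ f g = g := by
  rw [mul_conj]
  constructor
  · intro h
    exact conj_injective hab (mul_right_cancel h)
  · intro h
    rw [h]

end

end Pool.Agent.Helper657_nd.AutF
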