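import Pool.Agent.Helper657_nd.AutF

set_option autoImplicit false

/-!
# Automorphism groups of free groups of rank at least three
-/

namespace Pool.Agent.Helper657_nd.AutF

open FreeGroup hiding map_mul map_inv map_one

section
variable {α : Type} [DecidableEq α]

/-- the transvections `b ↦ a ^ r b` -/
def T {a b : α} (hab : a ≠ b) (r : ℤ) : MulAut (FreeGroup α) :=
  lam b (of a ^ r) ((P b).zpow_mem (of_mem hab) r)

variable {a b c : α} (hab : a ≠ b)

theorem T_b (r : ℤ) : T hab r (of b) = of a ^ r * of b := lam_self _ _ _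

theorem T_of (r : ℤ) {x : α} (hx : x ≠ b) : T hab r (of x) = of x := lam_P _ _ _ _ (of_mem hx)

theorem T_add (r s : ℤ) : T hab (r + s) = T hab r * T hab s := by
  apply MulEquiv.toMonoidHom_injective
  apply FreeGroup.ext_hom
  intro x
  show T hab (r + s) (of x) = T hab r (T hab s (of x))
  by_cases hx : x = b
  · subst hx
    rw [T_b, T_b, map_mul, map_zpow, T_of hab r hab, T_b, ← mul_assoc, ← zpow_add, add_comm s r]
  · rw [T_of hab _ hx, T_of hab _ hx, T_of hab _ hx]

theorem T_zero : T hab 0 = 1 := by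
  have h := T_add hab 0 0
  rw [add_zero] at h
  exact (mul_eq_left.1 h.symm)

theorem T_neg (r : ℤ) : T hab (-r) = (T hab r)⁻¹ := by
  rw [eq_inv_iff_mul_eq_one, ← T_add, neg_add_cancel, T_zero]

theorem T_pow (k : ℕ) : T hab 1 ^ k = T hab k := by
  induction k with
  | zero => rw [pow_zero, Nat.cast_zero, T_zero]
  | succ k ih => rw [pow_succ, ih, ← T_add, Nat.cast_succ]

theorem T_zpow (r : ℤ) : T hab 1 ^ r = T hab r := by
  rcases Int.eq_nat_or_neg r with ⟨n, rfl | rfl⟩
  · rw [zpow_natCast, T_pow]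
  · rw [zpow_neg, zpow_natCast, T_pow, T_neg]

theorem T_mem (hac : a ≠ c) (hbc : b ≠ c) (r : ℤ) : ∀ p ∈ P c, T hab r p ∈ P c := by
  have h : P c ≤ (P c).comap (T hab r).toMonoidHom := by
    conv_lhs => rw [P]
    rw [Subgroup.closure_le]
    rintro z ⟨x, hx, rfl⟩
    show T hab r (of x) ∈ P c
    by_cases hxb : x = b
    · subst hxb
      rw [T_b]
      exact (P c).mul_mem ((P c).zpow_mem (of_mem hac) r) (of_mem hbc)
    · rw [T_of hab r hxb]
      exact of_mem hx
  exact fun p hp => h hp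

theorem E_T_b (r : ℤ) (z : FreeGroup α) : E b (T hab r z) = E b z := by
  have h : (ex b).comp (T hab r).toMonoidHom = ex b := by
    apply FreeGroup.ext_hom
    intro x
    show ex b (T hab r (of x)) = ex b (of x)
    by_cases hx : x = b
    · subst hx
      have h1 := E_mul x (of a ^ r) (of x)
      rw [E_zpow, E_of hab, mul_zero, zero_add] at h1
      rw [T_b]
      exact h1
    · rw [T_of hab r hx]
  exact congrArg Multiplicative.toAdd (DFunLike.congr_fun h z)

theorem E_T_a (r : ℤ) (z : FreeGroup α) : E a (T hab r z) = E a z + r * E b z := by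
  have h : (ex a).comp (T hab r).toMonoidHom = ex a * (ex b) ^ r := by
    apply FreeGroup.ext_hom
    intro x
    show ex a (T hab r (of x)) = ex a (of x) * (ex b (of x)) ^ r
    apply Multiplicative.toAdd.injective
    rw [toAdd_mul, toAdd_zpow, smul_eq_mul]
    show E a (T hab r (of x)) = E a (of x) + r * E b (of x)
    by_cases hx : x = b
    · subst hx
      rw [T_b, E_mul, E_zpow, E_self, E_self, E_of hab.symm]
      ring
    · rw [T_of hab r hx, E_of hx]
      ring
  have h1 := congrArg Multiplicative.toAdd (DFunLike.congr_fun h z)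
  have h2 : (ex a * (ex b) ^ r) z = ex a z * (ex b z) ^ r := rfl
  rw [h2, toAdd_mul, toAdd_zpow, smul_eq_mul] at h1
  exact h1

variable (hac : a ≠ c) (hbc : b ≠ c)

/-- the automorphisms that act on `P c` as an element of `P c` times a transvection -/
def S : Subgroup (MulAut (FreeGroup α)) where
  carrier := {f | ∃ g ∈ P c, ∃ r : ℤ, ∀ p ∈ P c, f p = g * T hab r p * g⁻¹}
  one_mem' := ⟨1, (P c).one_mem, 0, fun p _ => by
    rw [T_zero, MulAut.one_apply, one_mul, inv_one, mul_one]⟩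
  mul_mem' := by
    rintro f f' ⟨g, hg, r, h⟩ ⟨g', hg', r', h'⟩
    refine ⟨g * T hab r g', (P c).mul_mem hg (T_mem hab hac hbc r _ hg'), r + r', fun p hp => ?_⟩
    have h1 : g' * T hab r' p * g'⁻¹ ∈ P c :=
      (P c).mul_mem ((P c).mul_mem hg' (T_mem hab hac hbc r' _ hp)) ((P c).inv_mem hg')
    rw [MulAut.mul_apply, h' p hp, h _ h1, map_mul, map_mul, map_inv, T_add, MulAut.mul_apply]
    group
  inv_mem' := by
    rintro f ⟨g, hg, r, h⟩
    refine ⟨T hab (-r) g⁻¹, T_mem hab hac hbc _ _ ((P c).inv_mem hg), -r, fun p hp => ?_⟩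
    have h0 : ∀ z, T hab r (T hab (-r) z) = z := fun z => by
      rw [← MulAut.mul_apply, ← T_add, add_neg_cancel, T_zero, MulAut.one_apply]
    have h1 : T hab (-r) (g⁻¹ * p * g) ∈ P c :=
      T_mem hab hac hbc _ _ ((P c).mul_mem ((P c).mul_mem ((P c).inv_mem hg) hp) hg)
    have h2 : f (T hab (-r) (g⁻¹ * p * g)) = p := by
      rw [h _ h1, h0]
      group
    have h3 : f⁻¹ p = T hab (-r) (g⁻¹ * p * g) := by
      conv_lhs => rw [← h2]
      exact MulAut.inv_apply_self _ f _
    rw [h3, map_mul, map_mul, map_inv, inv_inv]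

/-- the automorphisms that act on `P c` as an element of `P c` -/
def N (c : α) : Subgroup (MulAut (FreeGroup α)) where
  carrier := {f | ∃ g ∈ P c, ∀ p ∈ P c, f p = g * p * g⁻¹}
  one_mem' := ⟨1, (P c).one_mem, fun p _ => by
    rw [MulAut.one_apply, one_mul, inv_one, mul_one]⟩
  mul_mem' := by
    rintro f f' ⟨g, hg, h⟩ ⟨g', hg', h'⟩
    refine ⟨g * g', (P c).mul_mem hg hg', fun p hp => ?_⟩
    have h1 : g' * p * g'⁻¹ ∈ P c := (P c).mul_mem ((P c).mul_mem hg' hp) ((P c).inv_mem hg')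
    rw [MulAut.mul_apply, h' p hp, h _ h1]
    group
  inv_mem' := by
    rintro f ⟨g, hg, h⟩
    refine ⟨g⁻¹, (P c).inv_mem hg, fun p hp => ?_⟩
    have h1 : g⁻¹ * p * g ∈ P c := (P c).mul_mem ((P c).mul_mem ((P c).inv_mem hg) hp) hg
    have h2 : f (g⁻¹ * p * g) = p := by
      rw [h _ h1]
      group
    have h3 : f⁻¹ p = g⁻¹ * p * g := by
      conv_lhs => rw [← h2]
      exact MulAut.inv_apply_self _ f _
    rw [h3, inv_inv]

/-- the inner automorphisms given by elements of `P c` -/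
def I (c : α) : Set (MulAut (FreeGroup α)) := {f | ∃ g ∈ P c, f = MulAut.conj g}

include hab in
theorem mem_I (f : MulAut (FreeGroup α)) : f ∈ I c ↔
    (∃ h : MulAut (FreeGroup α), f = MulAut.conj (of c) * h * (MulAut.conj (of c))⁻¹ * h⁻¹) ∧
      iota c * f = f * iota c := by
  have key : ∀ h : MulAut (FreeGroup α),
      MulAut.conj (of c) * h * (MulAut.conj (of c))⁻¹ * h⁻¹ =
        MulAut.conj (of c * (h (of c))⁻¹) := by
    intro h
    rw [map_mul, map_inv, mul_assoc, mul_assoc]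
    congr 1
    rw [← mul_assoc, mul_inv_eq_iff_eq_mul, ← map_inv, mul_conj, map_inv, map_inv]
  constructor
  · rintro ⟨g, hg, rfl⟩
    refine ⟨⟨lam c g⁻¹ ((P c).inv_mem hg), ?_⟩, ?_⟩
    · rw [key, lam_self]
      congr 1
      group
    · rw [comm_conj hab]
      exact iota_P c g hg
  · rintro ⟨⟨h, rfl⟩, h2⟩
    rw [key] at h2 ⊢
    exact ⟨_, mem_P_of_fixed ((comm_conj hab _ _).1 h2), rfl⟩

include hab in
theorem def_I : DefinableSet (I c) := by
  apply Df.definableSet
  have h1 : Df fun s : ℕ → MulAut (FreeGroup α) =>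
      (∃ h : MulAut (FreeGroup α), s 0 = MulAut.conj (of c) * h * (MulAut.conj (of c))⁻¹ * h⁻¹) ∧
      iota c * s 0 = s 0 * iota c := by
    refine Df.and ?_ (Df.eq ((Tm.const _).mul (Tm.var 0)) ((Tm.var 0).mul (Tm.const _)))
    apply Df.exi (R := fun h s => s 0 = MulAut.conj (of c) * h * (MulAut.conj (of c))⁻¹ * h⁻¹)
    exact Df.eq (Tm.var 1) ((((Tm.const _).mul (Tm.var 0)).mul (Tm.const _)).mul (Tm.var 0).inv)
  exact h1.congr fun s => mem_I hab _

include hab in
theorem mem_N (f : MulAut (FreeGroup α)) : f ∈ N c ↔ ∃ i, i ∈ I c ∧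
    ∀ x : α, x ≠ c → i⁻¹ * f * MulAut.conj (of x) = MulAut.conj (of x) * (i⁻¹ * f) := by
  constructor
  · rintro ⟨g, hg, h⟩
    refine ⟨MulAut.conj g, ⟨g, hg, rfl⟩, fun x hx => ?_⟩
    rw [comm_conj hab, MulAut.mul_apply, h _ (of_mem hx), ← map_inv, MulAut.conj_apply]
    group
  · rintro ⟨i, ⟨g, hg, rfl⟩, h⟩
    have h1 : ∀ p ∈ P c, (((MulAut.conj g)⁻¹ * f : MulAut (FreeGroup α))).toMonoidHom p =
        MonoidHom.id _ p := eq_on_P fun x hx => (comm_conj hab _ _).1 (h x hx)
    refine ⟨g, hg, fun p hp => ?_⟩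
    have h2 : ((MulAut.conj g)⁻¹ * f : MulAut (FreeGroup α)) p = p := h1 p hp
    have h3 : f p = MulAut.conj g (((MulAut.conj g)⁻¹ * f : MulAut (FreeGroup α)) p) := by
      rw [← MulAut.mul_apply, mul_inv_cancel_left]
    rw [h3, h2, MulAut.conj_apply]

theorem mem_S (f : MulAut (FreeGroup α)) : f ∈ S hab hac hbc ↔ ∃ i, i ∈ I c ∧
    (∀ x : α, x ≠ c → x ≠ b →
      i⁻¹ * f * MulAut.conj (of x) = MulAut.conj (of x) * (i⁻¹ * f)) ∧
    (i⁻¹ * f) * MulAut.conj (of b) * (i⁻¹ * f)⁻¹ * (MulAut.conj (of b))⁻¹ * MulAut.conj (of a) =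
      MulAut.conj (of a) * ((i⁻¹ * f) * MulAut.conj (of b) * (i⁻¹ * f)⁻¹ *
        (MulAut.conj (of b))⁻¹) := by
  have key : ∀ h : MulAut (FreeGroup α),
      h * MulAut.conj (of b) * h⁻¹ * (MulAut.conj (of b))⁻¹ =
        MulAut.conj (h (of b) * (of b)⁻¹) := by
    intro h
    rw [mul_conj, mul_inv_cancel_right, map_mul, map_inv]
  constructor
  · rintro ⟨g, hg, r, h⟩
    have h0 : ∀ p ∈ P c, ((MulAut.conj g)⁻¹ * f : MulAut (FreeGroup α)) p = T hab r p := by
      intro p hp
      rw [MulAut.mul_apply, h p hp, ← map_inv, MulAut.conj_apply]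
      group
    refine ⟨MulAut.conj g, ⟨g, hg, rfl⟩, fun x hx hxb => ?_, ?_⟩
    · rw [comm_conj hab, h0 _ (of_mem hx), T_of hab r hxb]
    · rw [key, comm_conj hab, MulAut.conj_apply, h0 _ (of_mem hbc), T_b, mul_inv_cancel_right]
      group
  · rintro ⟨i, ⟨g, hg, rfl⟩, h, h'⟩
    rw [key, comm_conj hab, MulAut.conj_apply] at h'
    obtain ⟨r, hr⟩ := cent_of a (((MulAut.conj g)⁻¹ * f : MulAut (FreeGroup α)) (of b) *
      (of b)⁻¹) (by
        have := congrArg (fun z => z * (((MulAut.conj g)⁻¹ * f : MulAut (FreeGroup α)) (of b) *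
          (of b)⁻¹)) h'
        simp only [inv_mul_cancel_right] at this
        exact this)
    have h1 : ∀ p ∈ P c, (((MulAut.conj g)⁻¹ * f : MulAut (FreeGroup α))).toMonoidHom p =
        (T hab r).toMonoidHom p := by
      apply eq_on_P
      intro x hx
      show ((MulAut.conj g)⁻¹ * f : MulAut (FreeGroup α)) (of x) = T hab r (of x)
      by_cases hxb : x = b
      · subst hxb
        rw [T_b, ← hr, inv_mul_cancel_right]
      · rw [T_of hab r hxb]
        exact (comm_conj hab _ _).1 (h x hx hxb)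
    refine ⟨g, hg, r, fun p hp => ?_⟩
    have h2 : ((MulAut.conj g)⁻¹ * f : MulAut (FreeGroup α)) p = T hab r p := h1 p hp
    have h3 : f p = MulAut.conj g (((MulAut.conj g)⁻¹ * f : MulAut (FreeGroup α)) p) := by
      rw [← MulAut.mul_apply, mul_inv_cancel_left]
    rw [h3, h2, MulAut.conj_apply]

end

section
variable {α : Type} [DecidableEq α] [Fintype α] {a b c : α} (hab : a ≠ b)

include hab in
theorem def_N : DefinableSet ((N c : Subgroup (MulAut (FreeGroup α))) :
    Set (MulAut (FreeGroup α))) := by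
  apply Df.definableSet
  have h1 : Df fun s : ℕ → MulAut (FreeGroup α) => ∃ i, i ∈ I c ∧
      ∀ x ∈ (Finset.univ : Finset α).toList, x ≠ c →
        i⁻¹ * s 0 * MulAut.conj (of x) = MulAut.conj (of x) * (i⁻¹ * s 0) := by
    apply Df.exi (R := fun i s => i ∈ I c ∧
      ∀ x ∈ (Finset.univ : Finset α).toList, x ≠ c →
        i⁻¹ * s 0 * MulAut.conj (of x) = MulAut.conj (of x) * (i⁻¹ * s 0))
    refine (DefinableSet.df (def_I hab) (Tm.var 0)).and ?_
    refine Df.forallList _ fun x _ => (Df.const (x ≠ c)).imp ?_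
    exact Df.eq (((Tm.var 0).inv.mul (Tm.var 1)).mul (Tm.const _))
      ((Tm.const _).mul ((Tm.var 0).inv.mul (Tm.var 1)))
  refine h1.congr fun s => ?_
  rw [SetLike.mem_coe, mem_N hab]
  simp

theorem def_S (hac : a ≠ c) (hbc : b ≠ c) :
    DefinableSet ((S hab hac hbc : Subgroup (MulAut (FreeGroup α))) :
    Set (MulAut (FreeGroup α))) := by
  apply Df.definableSet
  have h1 : Df fun s : ℕ → MulAut (FreeGroup α) => ∃ i, i ∈ I c ∧
      (∀ x ∈ (Finset.univ : Finset α).toList, (x ≠ c ∧ x ≠ b) →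
        i⁻¹ * s 0 * MulAut.conj (of x) = MulAut.conj (of x) * (i⁻¹ * s 0)) ∧
      (i⁻¹ * s 0) * MulAut.conj (of b) * (i⁻¹ * s 0)⁻¹ * (MulAut.conj (of b))⁻¹ *
        MulAut.conj (of a) =
      MulAut.conj (of a) * ((i⁻¹ * s 0) * MulAut.conj (of b) * (i⁻¹ * s 0)⁻¹ *
        (MulAut.conj (of b))⁻¹) := by
    apply Df.exi (R := fun i s => i ∈ I c ∧
      (∀ x ∈ (Finset.univ : Finset α).toList, (x ≠ c ∧ x ≠ b) →
        i⁻¹ * s 0 * MulAut.conj (of x) = MulAut.conj (of x) * (i⁻¹ * s 0)) ∧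
      (i⁻¹ * s 0) * MulAut.conj (of b) * (i⁻¹ * s 0)⁻¹ * (MulAut.conj (of b))⁻¹ *
        MulAut.conj (of a) =
      MulAut.conj (of a) * ((i⁻¹ * s 0) * MulAut.conj (of b) * (i⁻¹ * s 0)⁻¹ *
        (MulAut.conj (of b))⁻¹))
    refine (DefinableSet.df (def_I hab) (Tm.var 0)).and ?_
    have tv : Tm fun s : ℕ → MulAut (FreeGroup α) => (s 0)⁻¹ * s 1 :=
      (Tm.var 0).inv.mul (Tm.var 1)
    have tw : Tm fun s : ℕ → MulAut (FreeGroup α) => ((s 0)⁻¹ * s 1) * MulAut.conj (of b) *
        ((s 0)⁻¹ * s 1)⁻¹ * (MulAut.conj (of b))⁻¹ :=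
      ((tv.mul (Tm.const _)).mul tv.inv).mul (Tm.const _)
    refine Df.and ?_ (Df.eq (tw.mul (Tm.const _)) ((Tm.const _).mul tw))
    refine Df.forallList _ fun x _ => (Df.const (x ≠ c ∧ x ≠ b)).imp ?_
    exact Df.eq (tv.mul (Tm.const _)) ((Tm.const _).mul tv)
  refine h1.congr fun s => ?_
  rw [SetLike.mem_coe, mem_S]
  simp

include hab in
theorem main (hac : a ≠ c) (hbc : b ≠ c) :
    Undec (MulAut (FreeGroup α)) := by
  refine PowD.main (S hab hac hbc) (N c) (def_S hab hac hbc) (def_N hab) ?_ ?_ (T hab 1) ?_ ?_ ?_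
  · rintro f ⟨g, hg, h⟩
    refine ⟨g, hg, 0, fun p hp => ?_⟩
    rw [T_zero, MulAut.one_apply]
    exact h p hp
  · rintro f hf f' ⟨g', hg', h'⟩
    obtain ⟨g, hg, r, h⟩ := hf
    obtain ⟨g1, hg1, r1, h1⟩ := (S hab hac hbc).inv_mem ⟨g, hg, r, h⟩
    have hf : ∀ p ∈ P c, f p ∈ P c := fun p hp => by
      rw [h p hp]
      exact (P c).mul_mem ((P c).mul_mem hg (T_mem hab hac hbc r _ hp)) ((P c).inv_mem hg)
    have hf' : ∀ p ∈ P c, f⁻¹ p ∈ P c := fun p hp => by
      rw [h1 p hp]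
      exact (P c).mul_mem ((P c).mul_mem hg1 (T_mem hab hac hbc r1 _ hp)) ((P c).inv_mem hg1)
    refine ⟨f g', hf g' hg', fun p hp => ?_⟩
    rw [MulAut.mul_apply, MulAut.mul_apply, h' _ (hf' p hp), map_mul, map_mul, map_inv,
      MulAut.apply_inv_self]
  · refine ⟨1, (P c).one_mem, 1, fun p _ => ?_⟩
    rw [one_mul, inv_one, mul_one]
  · rintro k hk ⟨g, hg, h⟩
    have h1 := h (of b) (of_mem hbc)
    rw [T_pow, T_b] at h1
    have h2 := congrArg (E a) h1
    rw [E_mul, E_mul, E_mul, E_zpow, E_self, E_inv] at h2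
    have : (k : ℤ) = 0 := by linarith
    omega
  · intro k hk
    refine ⟨MulAut.conj (of b) * T hab k, ?_, ?_⟩
    · rw [T_pow, mul_inv_cancel_right]
      exact ⟨of b, of_mem hbc, fun p _ => MulAut.conj_apply _ _⟩
    · rintro y ⟨v, hv, r, h⟩ hy
      have hz : v * T hab r (of b) = of b * T hab k v := by
        have h1 : ∀ p ∈ P c, ((of b * T hab k v)⁻¹ * (v * T hab r (of b))) * T hab (r + k) p =
            T hab (r + k) p * ((of b * T hab k v)⁻¹ * (v * T hab r (of b))) := by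
          intro p hp
          have h2 := DFunLike.congr_fun hy p
          have h3 : of b * T hab k p * (of b)⁻¹ ∈ P c :=
            (P c).mul_mem ((P c).mul_mem (of_mem hbc) (T_mem hab hac hbc _ _ hp))
              ((P c).inv_mem (of_mem hbc))
          rw [MulAut.mul_apply, MulAut.mul_apply, MulAut.mul_apply, MulAut.mul_apply,
            MulAut.conj_apply, MulAut.conj_apply, h _ h3, h p hp, map_mul, map_mul, map_mul,
            map_mul, map_inv, map_inv, ← MulAut.mul_apply, ← MulAut.mul_apply, ← T_add, ← T_add,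
            add_comm (k : ℤ) r] at h2
          calc ((of b * T hab k v)⁻¹ * (v * T hab r (of b))) * T hab (r + k) p
              = (of b * T hab k v)⁻¹ * (v * (T hab r (of b) * T hab (r + k) p *
                (T hab r (of b))⁻¹) * v⁻¹) * (v * T hab r (of b)) := by group
            _ = (of b * T hab k v)⁻¹ * (of b * (T hab k v * T hab (r + k) p *
                (T hab k v)⁻¹) * (of b)⁻¹) * (v * T hab r (of b)) := by rw [h2]
            _ = _ := by group
        have h4 : ∀ p ∈ P c, ((of b * T hab k v)⁻¹ * (v * T hab r (of b))) * p =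
            p * ((of b * T hab k v)⁻¹ * (v * T hab r (of b))) := by
          intro p hp
          have h5 := h1 (T hab (-(r + k)) p) (T_mem hab hac hbc _ _ hp)
          rw [← MulAut.mul_apply, ← T_add, add_neg_cancel, T_zero, MulAut.one_apply] at h5
          exact h5
        have h6 := eq_one_of_comm hab _ (h4 _ (of_mem hac)) (h4 _ (of_mem hbc))
        rw [inv_mul_eq_one] at h6
        exact h6.symm
      have h7 := congrArg (E a) hz
      rw [E_mul, E_mul, E_T_a, E_T_a, E_of hab.symm, E_self] at h7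
      refine ⟨E b v, v, hv, fun p hp => ?_⟩
      have hr : r = (k : ℤ) * E b v := by linarith
      rw [MulAut.mul_apply, T_zpow, ← hr, ← T_neg, h _ (T_mem hab hac hbc _ _ hp),
        ← MulAut.mul_apply, ← T_add, add_neg_cancel, T_zero, MulAut.one_apply]

end

end Pool.Agent.Helper657_nd.AutF
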