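import Pool.Agent.Helper657_nd.Defs

set_option autoImplicit false

/-!
# Definability calculus
-/

namespace Pool.Agent.Helper657_nd

section letters
variable {G P P' : Type} [Group G]

/-- Renaming of letters in a matrix. -/
def mapM (f : ℕ ⊕ P → ℕ ⊕ P') (M : QF P) : QF P' :=
  M.map fun c => c.map fun l => (l.1.map fun x => (f x.1, x.2), l.2)

theorem wordVal_map (ν : P → G) (ν' : P' → G) (s s' : ℕ → G) (f : ℕ ⊕ P → ℕ ⊕ P')
    (h : ∀ x, Sum.elim s' ν' (f x) = Sum.elim s ν x) (w : Word P) :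
    wordVal ν' s' (w.map fun x => (f x.1, x.2)) = wordVal ν s w := by
  unfold wordVal
  rw [List.map_map]
  congr 1
  apply List.map_congr_left
  intro x _
  simp [letterVal, h]

theorem qfHolds_map (ν : P → G) (ν' : P' → G) (s s' : ℕ → G) (f : ℕ ⊕ P → ℕ ⊕ P')
    (h : ∀ x, Sum.elim s' ν' (f x) = Sum.elim s ν x) (M : QF P) :
    QFHolds ν' (mapM f M) s' ↔ QFHolds ν M s := by
  unfold QFHolds mapM
  constructor
  · rintro ⟨c, hc, hl⟩
    rw [List.mem_map] at hc
    obtain ⟨c₀, hc₀, rfl⟩ := hc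
    refine ⟨c₀, hc₀, fun l hl₀ => ?_⟩
    have := hl _ (List.mem_map_of_mem hl₀)
    simpa [wordVal_map ν ν' s s' f h] using this
  · rintro ⟨c, hc, hl⟩
    refine ⟨_, List.mem_map_of_mem hc, fun l hl₀ => ?_⟩
    rw [List.mem_map] at hl₀
    obtain ⟨l₀, hl₁, rfl⟩ := hl₀
    simpa [wordVal_map ν ν' s s' f h] using hl _ hl₁

/-- Lift of a letter renaming under one quantifier. -/
def liftG (f : ℕ ⊕ P → ℕ ⊕ P') : ℕ ⊕ P → ℕ ⊕ P'
  | Sum.inl 0 => Sum.inl 0
  | Sum.inl (i + 1) => Sum.map Nat.succ id (f (Sum.inl i))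
  | Sum.inr a => Sum.map Nat.succ id (f (Sum.inr a))

/-- Lift of a letter renaming under `k` quantifiers. -/
def liftN (f : ℕ ⊕ P → ℕ ⊕ P') : ℕ → ℕ ⊕ P → ℕ ⊕ P'
  | 0 => f
  | k + 1 => liftN (liftG f) k

theorem elim_liftG (ν : P → G) (ν' : P' → G) (s s' : ℕ → G) (f : ℕ ⊕ P → ℕ ⊕ P')
    (h : ∀ x, Sum.elim s' ν' (f x) = Sum.elim s ν x) (g : G) (x : ℕ ⊕ P) :
    Sum.elim (cons g s') ν' (liftG f x) = Sum.elim (cons g s) ν x := by
  have key : ∀ y : ℕ ⊕ P', Sum.elim (cons g s') ν' (Sum.map Nat.succ id y) = Sum.elim s' ν' y := by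
    rintro (i | a) <;> rfl
  rcases x with (_ | i) | a
  · rfl
  · exact (key _).trans (h _)
  · exact (key _).trans (h _)

theorem sat_map (q : List Bool) : ∀ (ν : P → G) (ν' : P' → G) (s s' : ℕ → G)
    (f : ℕ ⊕ P → ℕ ⊕ P') (_ : ∀ x, Sum.elim s' ν' (f x) = Sum.elim s ν x) (M : QF P),
    Sat ν' (mapM (liftN f q.length) M) q s' ↔ Sat ν M q s := by
  induction q with
  | nil => intro ν ν' s s' f h M; exact qfHolds_map ν ν' s s' f h M
  | cons b q ih =>
    intro ν ν' s s' f h M
    cases b
    · exact forall_congr' fun g => ih ν ν' (cons g s) (cons g s') (liftG f)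
        (elim_liftG ν ν' s s' f h g) M
    · exact exists_congr fun g => ih ν ν' (cons g s) (cons g s') (liftG f)
        (elim_liftG ν ν' s s' f h g) M

end letters

section dnf
variable {G P : Type} [Group G]

/-- Conjunction of matrices. -/
def qfAnd (M N : QF P) : QF P := M.flatMap fun c => N.map fun d => c ++ d

/-- Negation of a matrix. -/
def qfNot (M : QF P) : QF P :=
  M.foldr (fun c N => qfAnd (c.map fun l => [(l.1, !l.2)]) N) [[]]

theorem qfHolds_and (ν : P → G) (M N : QF P) (s : ℕ → G) :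
    QFHolds ν (qfAnd M N) s ↔ QFHolds ν M s ∧ QFHolds ν N s := by
  unfold QFHolds qfAnd
  constructor
  · rintro ⟨c, hc, hl⟩
    rw [List.mem_flatMap] at hc
    obtain ⟨c₁, hc₁, hc⟩ := hc
    rw [List.mem_map] at hc
    obtain ⟨c₂, hc₂, rfl⟩ := hc
    exact ⟨⟨c₁, hc₁, fun l h => hl l (List.mem_append_left _ h)⟩,
      ⟨c₂, hc₂, fun l h => hl l (List.mem_append_right _ h)⟩⟩
  · rintro ⟨⟨c₁, hc₁, h₁⟩, ⟨c₂, hc₂, h₂⟩⟩
    refine ⟨c₁ ++ c₂, List.mem_flatMap.2 ⟨c₁, hc₁, List.mem_map_of_mem hc₂⟩, fun l h => ?_⟩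
    rcases List.mem_append.1 h with h | h
    · exact h₁ l h
    · exact h₂ l h

theorem qfHolds_not (ν : P → G) (M : QF P) (s : ℕ → G) :
    QFHolds ν (qfNot M) s ↔ ¬ QFHolds ν M s := by
  induction M with
  | nil => simp [QFHolds, qfNot]
  | cons c M ih =>
    have h1 : QFHolds ν (qfNot (c :: M)) s ↔
        QFHolds ν (c.map fun l => [(l.1, !l.2)]) s ∧ QFHolds ν (qfNot M) s :=
      qfHolds_and ν _ _ s
    have h2 : QFHolds ν (c.map fun l => [(l.1, !l.2)]) s ↔
        ¬ ∀ l ∈ c, (wordVal ν s l.1 = 1 ↔ l.2 = true) := by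
      unfold QFHolds
      rw [not_forall]
      constructor
      · rintro ⟨d, hd, h⟩
        rw [List.mem_map] at hd
        obtain ⟨l, hl, rfl⟩ := hd
        refine ⟨l, fun hh => ?_⟩
        have := h (l.1, !l.2) (by simp)
        have h' := hh hl
        simp only at this
        rw [h'] at this
        cases l.2 <;> simp at this
      · rintro ⟨l, hl⟩
        rw [Classical.not_imp] at hl
        obtain ⟨hl, h⟩ := hl
        refine ⟨_, List.mem_map_of_mem hl, ?_⟩
        intro l' hl'
        rw [List.mem_singleton] at hl'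
        subst hl'
        rcases l with ⟨w, b⟩
        simp only at h ⊢
        cases b <;> simpa using h
    have h3 : QFHolds ν (c :: M) s ↔
        (∀ l ∈ c, (wordVal ν s l.1 = 1 ↔ l.2 = true)) ∨ QFHolds ν M s := by
      simp [QFHolds]
    rw [h1, h2, h3, ih, not_or]

end dnf

section Df
variable {G : Type} [Group G]

/-- A relation on sequences (depending on finitely many entries) that is definable with
parameters. -/
def Df (R : (ℕ → G) → Prop) : Prop :=
  ∃ (q : List Bool) (M : QF G), ∀ s, R s ↔ Sat (fun g : G => g) M q s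

theorem Df.congr {R R' : (ℕ → G) → Prop} (h : Df R) (hh : ∀ s, R' s ↔ R s) : Df R' := by
  obtain ⟨q, M, hM⟩ := h
  exact ⟨q, M, fun s => (hh s).trans (hM s)⟩

theorem Df.ren {R : (ℕ → G) → Prop} (h : Df R) (f : ℕ → ℕ) : Df fun s => R (fun n => s (f n)) := by
  obtain ⟨q, M, hM⟩ := h
  refine ⟨q, mapM (liftN (Sum.map f id) q.length) M, fun s => ?_⟩
  beta_reduce
  rw [hM]
  refine (sat_map q _ _ _ _ _ ?_ M).symm
  rintro (i | a) <;> rfl

theorem Df.ex {R : (ℕ → G) → Prop} (h : Df R) : Df fun s => ∃ g, R (cons g s) := by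
  obtain ⟨q, M, hM⟩ := h
  exact ⟨true :: q, M, fun s => exists_congr fun g => hM _⟩

theorem Df.all {R : (ℕ → G) → Prop} (h : Df R) : Df fun s => ∀ g, R (cons g s) := by
  obtain ⟨q, M, hM⟩ := h
  exact ⟨false :: q, M, fun s => forall_congr' fun g => hM _⟩

theorem Df.qf (M : QF G) : Df fun s => QFHolds (fun g : G => g) M s := ⟨[], M, fun _ => Iff.rfl⟩

theorem Df.qf_and (q : List Bool) : ∀ (N M : QF G),
    Df fun s => QFHolds (fun g : G => g) N s ∧ Sat (fun g : G => g) M q s := by
  induction q with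
  | nil =>
    intro N M
    exact (Df.qf (qfAnd N M)).congr fun s => (qfHolds_and _ N M s).symm
  | cons b q ih =>
    intro N M
    have key : ∀ (s : ℕ → G) (g : G), QFHolds (fun g : G => g)
        (mapM (Sum.map Nat.succ id) N) (cons g s) ↔ QFHolds (fun g : G => g) N s := by
      intro s g
      apply qfHolds_map
      rintro (i | a) <;> rfl
    have h1 := ih (mapM (Sum.map Nat.succ id) N) M
    cases b
    · refine h1.all.congr fun s => ?_
      show QFHolds _ N s ∧ (∀ g, Sat _ M q (cons g s)) ↔ _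
      rw [forall_and]
      simp only [key, forall_const]
    · refine h1.ex.congr fun s => ?_
      show QFHolds _ N s ∧ (∃ g, Sat _ M q (cons g s)) ↔ _
      simp only [key, exists_and_left]

theorem Df.and {R R' : (ℕ → G) → Prop} (h : Df R) (h' : Df R') : Df fun s => R s ∧ R' s := by
  obtain ⟨q, M, hM⟩ := h
  suffices H : ∀ (q : List Bool) (M : QF G) (R' : (ℕ → G) → Prop), Df R' →
      Df fun s => Sat (fun g : G => g) M q s ∧ R' s from
    (H q M R' h').congr fun s => by rw [hM]
  clear hM h' q M R R'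
  intro q
  induction q with
  | nil =>
    intro M R' h'
    obtain ⟨q', M', hM'⟩ := h'
    refine (Df.qf_and q' M M').congr fun s => ?_
    rw [hM']
    rfl
  | cons b q ih =>
    intro M R' h'
    have h1 := ih M (fun s => R' (fun n => s (n + 1))) (h'.ren (fun n => n + 1))
    cases b
    · refine h1.all.congr fun s => ?_
      show (∀ g, Sat _ M q (cons g s)) ∧ R' s ↔ ∀ g, (Sat _ M q (cons g s) ∧ R' s)
      rw [forall_and, forall_const]
    · refine h1.ex.congr fun s => ?_
      show (∃ g, Sat _ M q (cons g s)) ∧ R' s ↔ ∃ g, (Sat _ M q (cons g s) ∧ R' s)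
      rw [exists_and_right]

theorem Df.not {R : (ℕ → G) → Prop} (h : Df R) : Df fun s => ¬ R s := by
  obtain ⟨q, M, hM⟩ := h
  suffices H : ∀ (q : List Bool) (M : QF G),
      Df fun s => ¬ Sat (fun g : G => g) M q s from
    (H q M).congr fun s => by rw [hM]
  clear hM q M R
  intro q
  induction q with
  | nil =>
    intro M
    exact (Df.qf (qfNot M)).congr fun s => (qfHolds_not _ M s).symm
  | cons b q ih =>
    intro M
    cases b
    · refine (ih M).ex.congr fun s => ?_
      show (¬ ∀ g, Sat _ M q (cons g s)) ↔ _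
      rw [not_forall]
    · refine (ih M).all.congr fun s => ?_
      show (¬ ∃ g, Sat _ M q (cons g s)) ↔ _
      rw [not_exists]

theorem Df.or {R R' : (ℕ → G) → Prop} (h : Df R) (h' : Df R') : Df fun s => R s ∨ R' s :=
  (h.not.and h'.not).not.congr fun s => by tauto

theorem Df.imp {R R' : (ℕ → G) → Prop} (h : Df R) (h' : Df R') : Df fun s => R s → R' s :=
  (h.and h'.not).not.congr fun s => by tauto

theorem Df.iff {R R' : (ℕ → G) → Prop} (h : Df R) (h' : Df R') : Df fun s => (R s ↔ R' s) :=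
  ((h.imp h').and (h'.imp h)).congr fun s => by tauto

/-- A map given by a term with parameters. -/
def Tm (f : (ℕ → G) → G) : Prop := ∃ w : Word G, ∀ s, f s = wordVal (fun g : G => g) s w

theorem Tm.var (i : ℕ) : Tm (G := G) fun s => s i :=
  ⟨[(Sum.inl i, true)], fun s => by simp [wordVal, letterVal]⟩

theorem Tm.const (a : G) : Tm fun _ => a :=
  ⟨[(Sum.inr a, true)], fun s => by simp [wordVal, letterVal]⟩

theorem Tm.mul {f g : (ℕ → G) → G} (hf : Tm f) (hg : Tm g) : Tm fun s => f s * g s := by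
  obtain ⟨v, hv⟩ := hf
  obtain ⟨w, hw⟩ := hg
  exact ⟨v ++ w, fun s => by simp [wordVal, hv, hw]⟩

theorem Tm.inv {f : (ℕ → G) → G} (hf : Tm f) : Tm fun s => (f s)⁻¹ := by
  obtain ⟨v, hv⟩ := hf
  refine ⟨(v.map fun l => (l.1, !l.2)).reverse, fun s => ?_⟩
  beta_reduce
  rw [hv]
  unfold wordVal
  rw [List.prod_inv_reverse, List.map_reverse, List.map_map, List.map_map]
  congr 2
  apply List.map_congr_left
  rintro ⟨x, b⟩ _
  cases b <;> simp [letterVal]

theorem Tm.ren {f : (ℕ → G) → G} (hf : Tm f) (r : ℕ → ℕ) : Tm fun s => f fun n => s (r n) := by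
  obtain ⟨w, hw⟩ := hf
  refine ⟨w.map fun x => (Sum.map r id x.1, x.2), fun s => ?_⟩
  beta_reduce
  rw [hw]
  refine (wordVal_map _ _ _ _ _ ?_ w).symm
  rintro (i | a) <;> rfl

theorem Df.eq {f g : (ℕ → G) → G} (hf : Tm f) (hg : Tm g) : Df fun s => f s = g s := by
  obtain ⟨w, hw⟩ := hf.mul hg.inv
  refine (Df.qf [[(w, true)]]).congr fun s => ?_
  simp only [QFHolds, List.mem_singleton, exists_eq_left, forall_eq, iff_true]
  rw [← hw s, mul_inv_eq_one]

theorem Df.const (p : Prop) : Df (G := G) fun _ => p := by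
  by_cases h : p
  · exact (Df.eq (Tm.var 0) (Tm.var 0)).congr fun s => by simp [h]
  · exact (Df.eq (Tm.var 0) (Tm.var 0)).not.congr fun s => by simp [h]

/-- Quantification over a variable. -/
theorem Df.exi {R : G → (ℕ → G) → Prop} (h : Df fun s => R (s 0) (fun n => s (n + 1))) :
    Df fun s => ∃ g, R g s := h.ex

theorem Df.uni {R : G → (ℕ → G) → Prop} (h : Df fun s => R (s 0) (fun n => s (n + 1))) :
    Df fun s => ∀ g, R g s := h.all

theorem Df.forallFin {m : ℕ} {R : Fin m → (ℕ → G) → Prop} (h : ∀ j, Df (R j)) :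
    Df fun s => ∀ j, R j s := by
  induction m with
  | zero => exact (Df.const True).congr fun s => by simp
  | succ m ih =>
    refine ((h 0).and (ih fun j => h j.succ)).congr fun s => ?_
    exact Fin.forall_fin_succ

theorem Df.existsFin {m : ℕ} {R : Fin m → (ℕ → G) → Prop} (h : ∀ j, Df (R j)) :
    Df fun s => ∃ j, R j s :=
  (Df.forallFin fun j => (h j).not).not.congr fun s => by
    rw [not_forall]
    simp only [not_not]

theorem Df.forallList {A : Type} (L : List A) {R : A → (ℕ → G) → Prop} (h : ∀ a ∈ L, Df (R a)) :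
    Df fun s => ∀ a ∈ L, R a s := by
  induction L with
  | nil => exact (Df.const True).congr fun s => by simp
  | cons a L ih =>
    refine ((h a (by simp)).and (ih fun b hb => h b (by simp [hb]))).congr fun s => ?_
    simp

/-- Quantification over a finite tuple: the entries become the variables `0, ..., m - 1`. -/
theorem Df.exiTuple {m : ℕ} {R : (Fin m → G) → (ℕ → G) → Prop}
    (h : Df fun s => R (fun i => s i) (fun n => s (n + m))) :
    Df fun s => ∃ p, R p s := by
  induction m with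
  | zero =>
    refine h.congr fun s => ?_
    constructor
    · rintro ⟨p, hp⟩
      have : p = fun i : Fin 0 => s i := Subsingleton.elim _ _
      rw [this] at hp
      exact hp
    · intro hp
      exact ⟨_, hp⟩
  | succ m ih =>
    have h1 : Df fun s => ∃ p : Fin m → G, ∃ g : G, R (Fin.snoc p g) s := by
      apply ih
      apply Df.exi
      refine (h.ren (fun n => if n < m then n + 1 else if n = m then 0 else n)).congr fun s => ?_
      refine iff_of_eq ?_
      congr 1
      · funext i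
        refine Fin.lastCases ?_ (fun j => ?_) i
        · simp
        · simp
      · funext n
        have e1 : ¬ (n + (m + 1) < m) := by omega
        have e2 : ¬ (n + (m + 1) = m) := by omega
        simp only [e1, e2, if_false]
        rw [add_assoc]
    refine h1.congr fun s => ?_
    constructor
    · rintro ⟨p, hp⟩
      refine ⟨Fin.init p, p (Fin.last m), ?_⟩
      rw [Fin.snoc_init_self]
      exact hp
    · rintro ⟨p, g, hp⟩
      exact ⟨_, hp⟩

theorem Df.uniTuple {m : ℕ} {R : (Fin m → G) → (ℕ → G) → Prop}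
    (h : Df fun s => R (fun i => s i) (fun n => s (n + m))) :
    Df fun s => ∀ p, R p s := by
  refine (Df.exiTuple (R := fun p s => ¬ R p s) h.not).not.congr fun s => ?_
  rw [not_exists]
  simp only [not_not]

end Df

/-- Every list of quantifiers has some number of blocks. -/
theorem exists_blocks (q : List Bool) : ∃ n, Blocks n true q := by
  suffices H : ∀ (q : List Bool), (∃ n, Blocks n true q) ∧ (∃ n, Blocks n false q) from (H q).1
  intro q
  induction q with
  | nil => exact ⟨⟨0, rfl⟩, ⟨0, rfl⟩⟩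
  | cons b q ih =>
    obtain ⟨⟨n, hn⟩, ⟨m, hm⟩⟩ := ih
    cases b
    · exact ⟨⟨n + 2, 0, false :: q, rfl, 1, q, rfl, hn⟩, ⟨n + 1, 1, q, rfl, hn⟩⟩
    · exact ⟨⟨m + 1, 1, q, rfl, hm⟩, ⟨m + 2, 0, true :: q, rfl, 1, q, rfl, hm⟩⟩

theorem Blocks.succ : ∀ (n : ℕ) (b : Bool) (q : List Bool), Blocks n b q → Blocks (n + 1) b q
  | 0, _, q, h => ⟨0, q, rfl, h⟩
  | n + 1, b, _, ⟨k, q', hq, h⟩ => ⟨k, q', hq, Blocks.succ n (!b) q' h⟩

theorem Blocks.mono {n m : ℕ} (hnm : n ≤ m) {b : Bool} {q : List Bool} (h : Blocks n b q) :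
    Blocks m b q := by
  induction hnm with
  | refl => exact h
  | step _ ih => exact Blocks.succ _ _ _ ih

section computability

theorem primrec_list_map {A B C : Type} [Primcodable A] [Primcodable C] (L : List B)
    (g : A → B → C) (h : ∀ x ∈ L, Primrec fun a => g a x) : Primrec fun a => L.map (g a) := by
  induction L with
  | nil => exact Primrec.const _
  | cons b L ih =>
    exact Primrec.list_cons.comp (h b (by simp)) (ih fun x hx => h x (by simp [hx]))

theorem primrec_liftG {P : Type} (F : ℕ → ℕ ⊕ P → ℕ ⊕ ℕ) (h : ∀ x, Primrec fun c => F c x)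
    (x : ℕ ⊕ P) : Primrec fun c => liftG (F c) x := by
  have key : Primrec fun y : ℕ ⊕ ℕ => Sum.map Nat.succ id y := by
    refine (Primrec.sumCasesOn (Primrec.id (α := ℕ ⊕ ℕ))
      (g := fun _ i => Sum.inl (Nat.succ i)) (h := fun _ i => Sum.inr i) ?_ ?_).of_eq ?_
    · exact Primrec.sumInl.comp (Primrec.succ.comp Primrec.snd)
    · exact Primrec.sumInr.comp Primrec.snd
    · rintro (i | i) <;> rfl
  rcases x with (_ | i) | a
  · exact Primrec.const _
  · exact key.comp (h (Sum.inl i))
  · exact key.comp (h (Sum.inr a))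

theorem primrec_liftN {P : Type} (k : ℕ) : ∀ (F : ℕ → ℕ ⊕ P → ℕ ⊕ ℕ)
    (_ : ∀ x, Primrec fun c => F c x) (x : ℕ ⊕ P), Primrec fun c => liftN (F c) k x := by
  induction k with
  | zero => intro F h x; exact h x
  | succ k ih => intro F h x; exact ih (fun c => liftG (F c)) (primrec_liftG F h) x

theorem primrec_mapM {P : Type} (F : ℕ → ℕ ⊕ P → ℕ ⊕ ℕ) (h : ∀ x, Primrec fun c => F c x)
    (M : QF P) : Primrec fun c => mapM (F c) M := by
  unfold mapM
  refine primrec_list_map M (fun c cl => cl.map fun l => (l.1.map fun x => (F c x.1, x.2), l.2))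
    fun cl _ => ?_
  refine primrec_list_map cl (fun c l => (l.1.map fun x => (F c x.1, x.2), l.2)) fun l _ => ?_
  refine Primrec.pair ?_ (Primrec.const _)
  refine primrec_list_map l.1 (fun c x => (F c x.1, x.2)) fun x _ => ?_
  exact Primrec.pair (h _) (Primrec.const _)

variable {G : Type} [Group G]

/-- The main link between definability and `Σ_n`-diagrams. -/
theorem Df.key {R : (ℕ → G) → Prop} (hR : Df R) : ∃ N, ∀ n ≥ N, ∀ e : ℕ ≃ G, SigmaDec n e →
    ∀ a : ℕ → G, (Computable fun k => e.symm (a k)) →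
      ComputablePred fun k => R (cons (a k) (fun _ => 1)) := by
  obtain ⟨q, M, hM⟩ := hR
  obtain ⟨N, hN⟩ := exists_blocks q
  refine ⟨N, fun n hNn e he a ha => ?_⟩
  have hn := hN.mono hNn
  let F : ℕ → ℕ ⊕ G → ℕ ⊕ ℕ := fun c x => match x with
    | Sum.inl 0 => Sum.inr c
    | Sum.inl (i + 1) => Sum.inl (i + 1)
    | Sum.inr g => Sum.inr (e.symm g)
  have hF : ∀ x, Primrec fun c => F c x := by
    rintro ((_ | i) | g)
    · exact Primrec.sumInr
    · exact Primrec.const _
    · exact Primrec.const _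
  have hF2 : ∀ c x, Sum.elim (fun _ : ℕ => (1 : G)) e (F c x) =
      Sum.elim (cons (e c) (fun _ => 1)) (fun g : G => g) x := by
    rintro c ((_ | i) | g)
    · rfl
    · rfl
    · exact e.apply_symm_apply g
  have h1 : ∀ k, R (cons (a k) (fun _ => 1)) ↔
      (Blocks n true q ∧ Holds e (q, mapM (liftN (F (e.symm (a k))) q.length) M)) := by
    intro k
    rw [and_iff_right hn, hM]
    have := sat_map q (fun g : G => g) e (cons (e (e.symm (a k))) (fun _ => 1))
      (fun _ => 1) (F (e.symm (a k))) (hF2 _) M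
    rw [e.apply_symm_apply] at this
    exact this.symm
  have h2 : Computable fun k => ((q, mapM (liftN (F (e.symm (a k))) q.length) M) : Fml) := by
    refine Computable.pair (Computable.const _) ?_
    exact (primrec_mapM _ (primrec_liftN _ _ hF) M).to_comp.comp ha
  obtain ⟨D, hD⟩ := he
  refine ⟨Classical.decPred _, ?_⟩
  have := hD.comp h2
  refine this.of_eq fun k => ?_
  simp only [decide_eq_decide]
  exact (h1 k).symm

theorem computable_pow {e : ℕ ≃ G} (he : IsCopy e) (t : G) :
    Computable fun k : ℕ => e.symm (t ^ k) := by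
  have h : Computable fun k : ℕ => (Nat.rec (e.symm 1)
      (fun _ y => e.symm (e y * e (e.symm t))) k : ℕ) := by
    have h0 : Computable fun p : ℕ × ℕ × ℕ => e.symm (e p.2.2 * e (e.symm t)) :=
      he.1.comp (Computable.snd.comp Computable.snd) (Computable.const (e.symm t))
    exact Computable.nat_rec (f := fun k : ℕ => k) (g := fun _ => e.symm 1)
      (h := fun _ p => e.symm (e p.2 * e (e.symm t))) Computable.id (Computable.const _) h0
  refine h.of_eq fun k => ?_
  induction k with
  | zero => simp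
  | succ k ih =>
    show e.symm (e _ * e (e.symm t)) = _
    rw [ih, e.apply_symm_apply, e.apply_symm_apply, pow_succ]

/-- Separation principle: if a definable property of the powers of `t` separates two computably
inseparable sets, then the group is not `n`-decidable for some `n`. -/
theorem not_nDecidable_of_sep {R : (ℕ → G) → Prop} (hR : Df R) (t : G) (A B : ℕ → Prop)
    (hAB : ¬ ∃ C : ℕ → Prop, ComputablePred C ∧ (∀ n, A n → C n) ∧ ∀ n, B n → ¬ C n)
    (hA : ∀ n, A n → R (cons (t ^ n) (fun _ => 1)))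
    (hB : ∀ n, B n → ¬ R (cons (t ^ n) (fun _ => 1))) : ∃ N, ∀ n ≥ N, ¬ NDecidable n G := by
  obtain ⟨N, hN⟩ := hR.key
  refine ⟨N, ?_⟩
  rintro n hn ⟨e, he, hs⟩
  exact hAB ⟨_, hN n hn e hs (fun k => t ^ k) (computable_pow he t), hA, hB⟩

end computability

theorem Df.definableSet {G : Type} [Group G] {K : Set G} (h : Df fun s : ℕ → G => s 0 ∈ K) :
    DefinableSet K := by
  obtain ⟨q, M, hM⟩ := h
  exact ⟨q, M, fun x => hM fun _ => x⟩

theorem DefinableSet.df {G : Type} [Group G] {K : Set G} (hK : DefinableSet K)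
    {f : (ℕ → G) → G} (hf : Tm f) : Df fun s => f s ∈ K := by
  obtain ⟨q, M, hM⟩ := hK
  have h1 : Df fun s : ℕ → G => s 0 ∈ K := by
    have h0 : Df fun s => Sat (fun g : G => g) M q s := ⟨q, M, fun s => Iff.rfl⟩
    exact (h0.ren (fun _ => 0)).congr fun s => hM _
  have h2 : Df fun s : ℕ → G => ∃ g, g = f s ∧ g ∈ K := by
    apply Df.exi
    exact Df.and (Df.eq (Tm.var 0) (hf.ren _)) h1
  refine h2.congr fun s => ?_
  simp

end Pool.Agent.Helper657_nd
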