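import Mathlib

set_option autoImplicit false

/-!
# Elements with many unit translates are algebraic
-/

namespace Pool.Agent.Helper657_nd.SegFT

open Polynomial nonZeroDivisors

/-- A monic polynomial over `K` with rational values at sufficiently many rational points has
rational coefficients. -/
theorem exists_rat_poly (K : Type) [Field K] [CharZero K] (P : K[X]) (r : ℕ) (hr : P.natDegree ≤ r)
    (c : ℕ) (hc : 0 < c) (q : ℕ → ℚ) (h : ∀ i ≤ r, P.eval ((c * i : ℕ) : K) = (q i : K)) :
    ∃ Q : ℚ[X], Q.map (algebraMap ℚ K) = P := by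
  classical
  let v : ℕ → ℚ := fun i => ((c * i : ℕ) : ℚ)
  have hv : Function.Injective v := by
    intro i j hij
    have h1 : ((c * i : ℕ) : ℚ) = ((c * j : ℕ) : ℚ) := hij
    have h2 : c * i = c * j := by exact_mod_cast h1
    exact Nat.eq_of_mul_eq_mul_left hc h2
  let I : Finset ℕ := Finset.range (r + 1)
  let Q : ℚ[X] := Lagrange.interpolate I v q
  refine ⟨Q, ?_⟩
  have hQ1 : Q.degree < ((r + 1 : ℕ) : WithBot ℕ) := by
    have := Lagrange.degree_interpolate_lt (s := I) (v := v) q hv.injOn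
    rwa [Finset.card_range] at this
  have hP1 : P.degree < ((r + 1 : ℕ) : WithBot ℕ) := by
    refine lt_of_le_of_lt P.degree_le_natDegree ?_
    exact_mod_cast Nat.lt_succ_of_le hr
  let J : Finset K := I.image fun i => ((c * i : ℕ) : K)
  have hinj : Function.Injective fun i : ℕ => ((c * i : ℕ) : K) := by
    intro i j hij
    have h1 : ((c * i : ℕ) : K) = ((c * j : ℕ) : K) := hij
    have h2 : c * i = c * j := by exact_mod_cast h1
    exact Nat.eq_of_mul_eq_mul_left hc h2
  have hJ : J.card = r + 1 := by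
    rw [Finset.card_image_of_injective _ hinj, Finset.card_range]
  apply Polynomial.eq_of_degrees_lt_of_eval_finset_eq J
  · rw [hJ, Polynomial.degree_map]
    exact hQ1
  · rw [hJ]
    exact hP1
  · intro x hx
    obtain ⟨i, hi, rfl⟩ := Finset.mem_image.1 hx
    rw [Finset.mem_range] at hi
    rw [h i (by omega)]
    have h1 : Q.eval (v i) = q i :=
      Lagrange.eval_interpolate_at_node q hv.injOn (Finset.mem_range.2 hi)
    have h2 : ((c * i : ℕ) : K) = algebraMap ℚ K (v i) := by simp [v]
    rw [h2, Polynomial.eval_map_algebraMap, Polynomial.aeval_algebraMap_apply, Polynomial.coe_aeval_eq_eval, h1]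
    simp

theorem bound_aux (n : ℕ) (A : Type) [CommRing A] [IsDomain A] [Algebra (MvPolynomial (Fin n) ℚ) A]
    [Module.Finite (MvPolynomial (Fin n) ℚ) A] [FaithfulSMul (MvPolynomial (Fin n) ℚ) A] :
    ∃ r : ℕ, ∀ c : ℕ, 0 < c → ∀ x : A, (∀ i ≤ r, IsUnit (x + ((c * i : ℕ) : A))) →
      ∃ Q : ℚ[X], Q ≠ 0 ∧
        Q.eval₂ ((algebraMap (MvPolynomial (Fin n) ℚ) A).comp MvPolynomial.C) x = 0 := by
  classical
  let Λ := MvPolynomial (Fin n) ℚ
  let K := FractionRing Λ
  let L := FractionRing A
  let i1 : Algebra K L := FractionRing.liftAlgebra Λ L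
  have i2 : IsScalarTower Λ K L := FractionRing.isScalarTower_liftAlgebra Λ L
  have i3 : Algebra.IsAlgebraic Λ A := Algebra.IsIntegral.isAlgebraic
  have i4 : IsLocalization (Algebra.algebraMapSubmonoid A Λ⁰) L := inferInstance
  have i5 : FiniteDimensional K L := Module.Finite.of_isLocalization Λ A Λ⁰
  have hAL : Function.Injective (algebraMap A L) := IsFractionRing.injective A L
  have hΛK : Function.Injective (algebraMap Λ K) := IsFractionRing.injective Λ K
  let b := Module.Free.chooseBasis K L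
  let μ : L →+* Matrix _ _ K := (Algebra.leftMulMatrix b).toRingHom
  have hμ : Function.Injective μ := Algebra.leftMulMatrix_injective b
  have hnorm : ∀ y : L, Algebra.norm K y = (μ y).det := fun y => Algebra.norm_eq_matrix_det b y
  have hint : ∀ a : A, ∃ l : Λ, Algebra.norm K (algebraMap A L a) = algebraMap Λ K l := by
    intro a
    have h1 : IsIntegral Λ (algebraMap A L a) := (Algebra.IsIntegral.isIntegral (R := Λ) a).algebraMap
    have h2 : IsIntegral Λ (Algebra.norm K (algebraMap A L a)) := Algebra.isIntegral_norm K h1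
    obtain ⟨l, hl⟩ := IsIntegrallyClosed.isIntegral_iff.1 h2
    exact ⟨l, hl.symm⟩
  have hunit : ∀ a : A, IsUnit a → ∃ q : ℚ, Algebra.norm K (algebraMap A L a) =
      algebraMap Λ K (MvPolynomial.C q) := by
    intro a ha
    obtain ⟨w, hw⟩ := ha.exists_right_inv
    obtain ⟨l, hl⟩ := hint a
    obtain ⟨l', hl'⟩ := hint w
    have h1 : l * l' = 1 := by
      apply hΛK
      rw [map_mul, ← hl, ← hl', ← map_mul, ← map_mul, hw, map_one, map_one, map_one]
    have h2 : IsUnit l := IsUnit.of_mul_eq_one l' h1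
    obtain ⟨q, _, hq⟩ := MvPolynomial.isUnit_iff_eq_C_of_isReduced.1 h2
    exact ⟨q, by rw [hl, hq]⟩
  have hcz : CharZero K := by
    have : CharZero Λ := inferInstance
    exact charZero_of_injective_algebraMap hΛK
  obtain ⟨r, hr⟩ : ∃ r, r = Fintype.card (Module.Free.ChooseBasisIndex K L) := ⟨_, rfl⟩
  refine ⟨r, fun c hc x hx => ?_⟩
  let P : K[X] := (μ (-(algebraMap A L x))).charpoly
  have hPmon : P.Monic := Matrix.charpoly_monic _
  have hPdeg : P.natDegree = r := by
    rw [hr]
    exact Matrix.charpoly_natDegree_eq_dim _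
  have hPe : ∀ i : ℕ, P.eval ((c * i : ℕ) : K) =
      Algebra.norm K (algebraMap A L (x + ((c * i : ℕ) : A))) := by
    intro i
    have h2 : μ (algebraMap A L (x + ((c * i : ℕ) : A))) = ((c * i : ℕ) : Matrix _ _ K) +
        μ (algebraMap A L x) := by
      rw [map_add, map_natCast, map_add, map_natCast, add_comm]
    rw [hnorm, Matrix.eval_charpoly, map_natCast, map_neg, sub_neg_eq_add, h2]
  have hq : ∀ i, ∃ q : ℚ, i ≤ r → P.eval ((c * i : ℕ) : K) = (q : K) := by
    intro i
    by_cases hi : i ≤ r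
    · obtain ⟨q, hq⟩ := hunit _ (hx i hi)
      refine ⟨q, fun _ => ?_⟩
      rw [hPe, hq]
      have h1 : ((algebraMap Λ K).comp MvPolynomial.C) q = (q : K) := by simp
      exact h1
    · exact ⟨0, fun h => absurd h hi⟩
  choose q hq using hq
  obtain ⟨Q, hQ⟩ := exists_rat_poly K P _ hPdeg.le c hc q (fun i hi => hq i hi)
  have hroot : Q.eval₂ ((algebraMap Λ A).comp MvPolynomial.C) (-x) = 0 := by
    apply hAL
    rw [map_zero, Polynomial.hom_eval₂, map_neg]
    apply hμ
    rw [map_zero, Polynomial.hom_eval₂]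
    have h1 := Matrix.aeval_self_charpoly (μ (-(algebraMap A L x)))
    rw [show (μ (-(algebraMap A L x))).charpoly = P from rfl, ← hQ, Polynomial.aeval_def,
      Polynomial.eval₂_map] at h1
    rw [← h1]
    congr 1
    exact RingHom.ext_rat _ _
  refine ⟨Q.comp (-X), ?_, ?_⟩
  · intro h0
    have h1 : (Q.comp (-X)).comp (-X) = Q := by
      rw [Polynomial.comp_assoc]
      simp
    rw [h0, Polynomial.zero_comp] at h1
    rw [← h1, Polynomial.map_zero] at hQ
    exact hPmon.ne_zero hQ.symm
  · rw [Polynomial.eval₂_comp, Polynomial.eval₂_neg, Polynomial.eval₂_X]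
    exact hroot

/-- Elements with many unit translates are algebraic. -/
theorem exists_bound (A : Type) [CommRing A] [IsDomain A] [Algebra ℚ A] [Algebra.FiniteType ℚ A] :
    ∃ r : ℕ, ∀ c : ℕ, 0 < c → ∀ x : A, (∀ i ≤ r, IsUnit (x + ((c * i : ℕ) : A))) →
      IsAlgebraic ℚ x := by
  obtain ⟨n, g, hg1, hg2⟩ := exists_finite_inj_algHom_of_fg ℚ A
  let i1 : Algebra (MvPolynomial (Fin n) ℚ) A := g.toRingHom.toAlgebra
  have i2 : Module.Finite (MvPolynomial (Fin n) ℚ) A := hg2
  have i3 : FaithfulSMul (MvPolynomial (Fin n) ℚ) A :=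
    (faithfulSMul_iff_algebraMap_injective _ _).2 hg1
  obtain ⟨r, hr⟩ := bound_aux n A
  refine ⟨r, fun c hc x hx => ?_⟩
  obtain ⟨Q, hQ0, hQ⟩ := hr c hc x hx
  refine ⟨Q, hQ0, ?_⟩
  rw [Polynomial.aeval_def, ← hQ]
  congr 1
  exact RingHom.ext_rat _ _

end Pool.Agent.Helper657_nd.SegFT
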