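import Pool.Agent.Helper657_nd.Crit

set_option autoImplicit false

/-!
# Semisimple case: algebra
-/

namespace Pool.Agent.Helper657_nd.Weyl

open Polynomial

theorem integral_factor {R : Type} [CommRing R] [Module.Finite ℤ R] (φ : R) :
    ∃ (k : ℕ) (n : ℤ) (s : R), n ≠ 0 ∧ φ ^ k * ((n : R) - φ * s) = 0 := by
  have hint : IsIntegral ℤ φ := (Algebra.IsIntegral.of_finite ℤ R).isIntegral φ
  obtain ⟨p, hp, hp0⟩ := hint
  obtain ⟨q, hq, hnd⟩ := Polynomial.exists_eq_pow_rootMultiplicity_mul_and_not_dvd p hp.ne_zero 0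
  rw [C_0, sub_zero] at hq hnd
  refine ⟨p.rootMultiplicity 0, q.coeff 0, - aeval φ q.divX, ?_, ?_⟩
  · intro h0
    exact hnd (X_dvd_iff.2 h0)
  · have h1 : aeval φ p = 0 := hp0
    rw [hq, map_mul, map_pow, aeval_X] at h1
    have h2 : aeval φ q = aeval φ q.divX * φ + ((q.coeff 0 : ℤ) : R) := by
      conv_lhs => rw [← Polynomial.divX_mul_X_add q]
      simp
    rw [h2] at h1
    linear_combination h1

theorem exists_pow {R : Type} [CommRing R] [Module.Finite ℤ R] (u : R) (hu : IsUnit u) (n : ℕ)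
    (hn : n ≠ 0) : ∃ k : ℕ, 0 < k ∧ ∃ r : R, u ^ k = 1 + n * r := by
  let I : Ideal R := Ideal.span {(n : R)}
  have hfin : Finite (R ⧸ I) := by
    apply Module.finite_of_fg_torsion
    intro x
    obtain ⟨y, rfl⟩ := Ideal.Quotient.mk_surjective x
    refine ⟨⟨(n : ℤ), mem_nonZeroDivisors_of_ne_zero (by exact_mod_cast hn)⟩, ?_⟩
    show (n : ℤ) • (Ideal.Quotient.mk I y) = 0
    rw [← map_zsmul, Ideal.Quotient.eq_zero_iff_mem]
    refine Ideal.mem_span_singleton.2 ⟨y, ?_⟩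
    simp
  obtain ⟨v, hv⟩ := hu.map (Ideal.Quotient.mk I)
  have hfo := isOfFinOrder_of_finite v
  rw [isOfFinOrder_iff_pow_eq_one] at hfo
  obtain ⟨k, hk, hvk⟩ := hfo
  refine ⟨k, hk, ?_⟩
  have h1 : Ideal.Quotient.mk I (u ^ k) = Ideal.Quotient.mk I 1 := by
    rw [map_pow, ← hv, map_one, ← Units.val_pow_eq_pow_val, hvk, Units.val_one]
  rw [Ideal.Quotient.eq, Ideal.mem_span_singleton] at h1
  obtain ⟨r, hr⟩ := h1
  exact ⟨r, by linear_combination hr⟩

theorem eq_zero_of_dvd {Q : Type} [AddCommGroup Q] [Module.Finite ℤ Q] [Module.IsTorsionFree ℤ Q]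
    (q : Q) (h : ∀ n : ℕ, n ≠ 0 → ∃ q', q = n • q') : q = 0 := by
  let b := Module.Free.chooseBasis ℤ Q
  rw [← b.repr.map_eq_zero_iff]
  ext i
  obtain ⟨q', hq'⟩ := h ((b.repr q i).natAbs + 1) (by omega)
  have h1 : b.repr q i = (((b.repr q i).natAbs + 1 : ℕ) : ℤ) * b.repr q' i := by
    conv_lhs => rw [hq', map_nsmul]
    simp
  have h2 : (((b.repr q i).natAbs + 1 : ℕ) : ℤ) ∣ b.repr q i := ⟨_, h1⟩
  have h3 : b.repr q i = 0 := by
    apply Int.eq_zero_of_abs_lt_dvd h2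
    rw [Int.abs_eq_natAbs]
    push_cast
    omega
  simpa using h3

theorem uniform {M : Type} [AddCommGroup M] [Module.Finite ℤ M] (N P : Submodule ℤ M)
    (h : ∀ y ∈ N, ∃ n : ℕ, n ≠ 0 ∧ n • y ∈ P) : ∃ c : ℕ, 0 < c ∧ ∀ y ∈ N, c • y ∈ P := by
  have hN : N.FG := IsNoetherian.noetherian N
  obtain ⟨S, hS⟩ := hN
  choose! f hf using h
  have hSN : ∀ y ∈ S, y ∈ N := fun y hy => by
    rw [← hS]
    exact Submodule.subset_span hy
  refine ⟨∏ y ∈ S, f y, ?_, ?_⟩
  · apply Finset.prod_pos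
    intro y hy
    exact Nat.pos_of_ne_zero (hf y (hSN y hy)).1
  · intro y hy
    rw [← hS] at hy
    induction hy using Submodule.span_induction with
    | mem x hx =>
      obtain ⟨k, hk⟩ := Finset.dvd_prod_of_mem f (Finset.mem_coe.1 hx)
      rw [hk, mul_comm, mul_smul]
      exact P.nsmul_mem (hf x (hSN x (Finset.mem_coe.1 hx))).2 k
    | zero => simp
    | add x y _ _ hx hy => rw [smul_add]; exact P.add_mem hx hy
    | smul a x _ hx => rw [smul_comm]; exact P.smul_mem a hx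

/-- Data in additive form. -/
structure DataM (O : Type) [CommRing O] {M : Type} [AddCommGroup M] (x₁ : M) (c : ℕ)
    (Dom : M → Prop) (Eq : M → M → Prop) (Mul : M → M → M → Prop) (V : M → O → Prop) :
    Prop where
  hc : 0 < c
  dom : ∀ x, Dom x → ∃ o, V x o
  eq : ∀ x y o o', Dom x → Dom y → V x o → V y o' → (Eq x y ↔ o = o')
  fn : ∀ x o o', Dom x → V x o → V x o' → o = o'
  dom_pow : ∀ k : ℕ, Dom (k • x₁)
  V_pow : ∀ k : ℕ, V (k • x₁) ((c * k : ℕ) : O)
  add : ∀ x y z a b d, Dom x → Dom y → Dom z → V x a → V y b → V z d → x + y = z → a + b = d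
  mul : ∀ x y z a b d, Dom x → Dom y → Dom z → V x a → V y b → V z d → Mul x y z →
    a * b = c * d
  mul_pow : ∀ i j : ℕ, Mul (i • x₁) (j • x₁) ((i * j) • x₁)

section CaseS

variable {R M : Type} [CommRing R] [Module.Finite ℤ R] [AddCommGroup M] [Module R M]

/-- the elements of `D` for which `δ - 1` is injective on `B` -/
def InjOn' (B : Submodule R M) (δ : R) : Prop := ∀ b ∈ B, δ • b = b → b = 0

/-- the set of approximate scalars -/
def DomS (D : Set R) (B : Submodule R M) (x₁ y : M) : Prop :=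
  y ∈ B ∧ ∀ δ ∈ D, InjOn' B δ → ∃ ε ∈ D, ∃ b ∈ B,
    (ε - 1) • x₁ = (δ - 1) • y + (δ - 1) • (δ - 1) • b

/-- the multiplication of approximate scalars -/
def MulS (D : Set R) (B : Submodule R M) (x₁ y z w : M) : Prop :=
  ∀ δ ∈ D, InjOn' B δ → ∃ ε ∈ D, ∃ b ∈ B, ∃ b' ∈ B,
    (ε - 1) • x₁ = (δ - 1) • y + (δ - 1) • (δ - 1) • b ∧
      (ε - 1) • z = (δ - 1) • w + (δ - 1) • (δ - 1) • b'

theorem pow_expand (δ : R) (i : ℕ) : ∃ r : R, δ ^ i - 1 = (δ - 1) * i + (δ - 1) * (δ - 1) * r := by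
  induction i with
  | zero => exact ⟨0, by simp⟩
  | succ i ih =>
    obtain ⟨r, hr⟩ := ih
    refine ⟨i + δ * r, ?_⟩
    have h1 : δ ^ (i + 1) - 1 = δ * (δ ^ i - 1) + (δ - 1) := by ring
    rw [h1, hr]
    push_cast
    ring

theorem caseS [Module.Finite ℤ M] [Module.IsTorsionFree ℤ M] (D : Set R)
    (hpow : ∀ δ ∈ D, ∀ i : ℕ, δ ^ i ∈ D) (B : Submodule R M) (hB : B ≠ ⊥)
    (α : R) (hα : α ∈ D) (hunit : IsUnit α) (hinj : ∀ k : ℕ, 0 < k → InjOn' B (α ^ k)) :
    ∃ (O : Type) (_ : CommRing O) (_ : IsDomain O) (_ : CharZero O) (_ : Module.Finite ℤ O)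
      (x₁ : M) (c : ℕ) (V : M → O → Prop), x₁ ∈ B ∧
      DataM O x₁ c (DomS D B x₁) (fun x y => x = y) (MulS D B x₁) V := by
  have hnoeth : IsNoetherianRing R := IsNoetherianRing.of_finite ℤ R
  have hnt : Nontrivial B := Submodule.nontrivial_iff_ne_bot.2 hB
  obtain ⟨P, hP⟩ := associatedPrimes.nonempty R B
  have hP' := (isAssociatedPrime_iff_exists_injective_linearMap P B).1 hP
  obtain ⟨hprime, f, hf⟩ := hP'
  let x₁ : M := (f 1 : B)
  have hx₁B : x₁ ∈ B := (f 1 : B).2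
  have hann : ∀ r : R, r • x₁ = 0 ↔ r ∈ P := by
    intro r
    have h1 : f (Ideal.Quotient.mk P r) = r • f 1 := by
      rw [← map_smul]
      congr 1
      rw [Algebra.smul_def, mul_one]
      rfl
    have h2 : r • x₁ = ((f (Ideal.Quotient.mk P r) : B) : M) := by
      rw [h1]
      rfl
    rw [h2, Submodule.coe_eq_zero, map_eq_zero_iff f hf, Ideal.Quotient.eq_zero_iff_mem]
  have hx₁0 : x₁ ≠ 0 := by
    intro h0
    apply hprime.ne_top
    rw [Ideal.eq_top_iff_one, ← hann, h0, smul_zero]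
  have hsm : ∀ (n : ℕ) (y : M), (n : R) • y = n • y := fun n y => Nat.cast_smul_eq_nsmul R n y
  have htf : ∀ (n : ℕ) (y : M), n ≠ 0 → n • y = 0 → y = 0 := by
    intro n y hn h
    rw [← natCast_zsmul] at h
    exact (smul_eq_zero.1 h).resolve_left (by exact_mod_cast hn)
  have hcz : CharZero (R ⧸ P) := by
    refine charZero_of_inj_zero fun n hn => ?_
    by_contra hne
    have h1 : (n : R) ∈ P := by
      rw [← Ideal.Quotient.eq_zero_iff_mem]
      simpa using hn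
    rw [← hann, hsm] at h1
    exact hx₁0 (htf n x₁ hne h1)
  -- the lattice of elements with a multiple in `R x₁`
  let N₁ : Submodule ℤ M :=
    { carrier := {y | ∃ n : ℕ, n ≠ 0 ∧ ∃ r : R, n • y = r • x₁}
      add_mem' := by
        rintro y z ⟨n, hn, r, hr⟩ ⟨m, hm, s, hs⟩
        refine ⟨n * m, mul_ne_zero hn hm, m * r + n * s, ?_⟩
        have h1 : ((m : R) * r + n * s) • x₁ = m • n • y + n • m • z := by
          rw [add_smul, mul_smul, mul_smul, ← hr, ← hs, hsm, hsm]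
        rw [h1, mul_smul, smul_add, smul_add, smul_comm n m y]
      zero_mem' := ⟨1, one_ne_zero, 0, by simp⟩
      smul_mem' := by
        rintro a y ⟨n, hn, r, hr⟩
        refine ⟨n, hn, a * r, ?_⟩
        rw [smul_comm, hr, mul_smul, Int.cast_smul_eq_zsmul] }
  let P₁ : Submodule ℤ M :=
    { carrier := {y | ∃ r : R, y = r • x₁}
      add_mem' := by
        rintro y z ⟨r, hr⟩ ⟨s, hs⟩
        exact ⟨r + s, by rw [add_smul, hr, hs]⟩
      zero_mem' := ⟨0, by simp⟩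
      smul_mem' := by
        rintro a y ⟨r, hr⟩
        exact ⟨a * r, by rw [hr, mul_smul, Int.cast_smul_eq_zsmul]⟩ }
  obtain ⟨c, hc, hcN⟩ := uniform N₁ P₁ (by
    rintro y ⟨n, hn, r, hr⟩
    exact ⟨n, hn, r, hr⟩)
  have hcN' : ∀ y ∈ N₁, ∃ r : R, c • y = r • x₁ := fun y hy => hcN y hy
  -- the key claim
  have hQ : Module.IsTorsionFree ℤ (M ⧸ N₁) := by
    rw [Module.isTorsionFree_iff_smul_eq_zero]
    intro a q haq
    by_cases ha : a = 0
    · exact Or.inl ha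
    right
    obtain ⟨y, rfl⟩ := N₁.mkQ_surjective q
    rw [← map_smul, Submodule.mkQ_apply, Submodule.Quotient.mk_eq_zero] at haq
    rw [Submodule.mkQ_apply, Submodule.Quotient.mk_eq_zero]
    obtain ⟨n, hn, r, hr⟩ := haq
    rcases Int.natAbs_eq a with h1 | h1
    · refine ⟨n * a.natAbs, mul_ne_zero hn (by simpa using ha), r, ?_⟩
      rw [← hr, mul_smul]
      congr 1
      conv_rhs => rw [h1]
      rw [natCast_zsmul]
    · refine ⟨n * a.natAbs, mul_ne_zero hn (by simpa using ha), -r, ?_⟩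
      rw [neg_smul, ← hr, mul_smul, ← smul_neg]
      congr 1
      conv_rhs => rw [h1]
      rw [neg_smul, neg_neg, natCast_zsmul]
  have hδinj : ∀ δ : R, InjOn' B δ → ∀ b ∈ B, (δ - 1) • b = 0 → b = 0 := by
    intro δ hδ b hb h0
    apply hδ b hb
    rw [sub_smul, one_smul, sub_eq_zero] at h0
    exact h0
  have hdiv : ∀ δ : R, InjOn' B δ → ∃ (n : ℕ) (s : R), n ≠ 0 ∧ n • x₁ = (δ - 1) • s • x₁ := by
    intro δ hδ
    obtain ⟨k, n, s, hn, hk⟩ := integral_factor (δ - 1)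
    have h1 : ∀ k : ℕ, ∀ b ∈ B, (δ - 1) ^ k • b = 0 → b = 0 := by
      intro k
      induction k with
      | zero => intro b _ h; simpa using h
      | succ k ih =>
        intro b hb h
        rw [pow_succ, mul_smul] at h
        exact hδinj δ hδ b hb (ih _ (B.smul_mem _ hb) h)
    have h2 : ((n : R) - (δ - 1) * s) • x₁ = 0 := by
      apply h1 k _ (B.smul_mem _ hx₁B)
      rw [← mul_smul, hk, zero_smul]
    rw [sub_smul, sub_eq_zero, Int.cast_smul_eq_zsmul, mul_smul] at h2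
    rcases Int.natAbs_eq n with h3 | h3
    · refine ⟨n.natAbs, s, by simpa using hn, ?_⟩
      rw [← h2]
      conv_rhs => rw [h3]
      rw [natCast_zsmul]
    · refine ⟨n.natAbs, -s, by simpa using hn, ?_⟩
      rw [neg_smul, smul_neg, ← h2]
      conv_rhs => rw [h3]
      rw [neg_smul, neg_neg, natCast_zsmul]
  have hpull : ∀ δ : R, InjOn' B δ → ∀ q ∈ B, (δ - 1) • q ∈ N₁ → q ∈ N₁ := by
    intro δ hδ q hq hmem
    obtain ⟨n, hn, r, hr⟩ := hmem
    obtain ⟨m, s, hm, hms⟩ := hdiv δ hδ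
    refine ⟨m * n, mul_ne_zero hm hn, r * s, ?_⟩
    have h1 : (δ - 1) • ((m * n) • q - (r * s) • x₁) = 0 := by
      rw [smul_sub, sub_eq_zero]
      have h2 : (δ - 1) • (m * n) • q = m • n • (δ - 1) • q := by
        rw [mul_smul, smul_comm (δ - 1) m, smul_comm (δ - 1) n]
      rw [h2, hr, smul_comm m r x₁, hms, mul_smul, smul_comm (δ - 1) r]
    have h3 := hδinj δ hδ _ (B.sub_mem (nsmul_mem hq _) (B.smul_mem _ hx₁B)) h1
    rwa [sub_eq_zero] at h3
  have hsmall : ∀ n : ℕ, n ≠ 0 → ∃ δ ∈ D, InjOn' B δ ∧ ∃ r : R, δ - 1 = n * r := by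
    intro n hn
    obtain ⟨k, hk, r, hr⟩ := exists_pow α hunit n hn
    exact ⟨α ^ k, hpow α hα k, hinj k hk, r, by rw [hr]; ring⟩
  have hDomN : ∀ y, DomS D B x₁ y → y ∈ N₁ := by
    rintro y ⟨hyB, hy⟩
    rw [← Submodule.Quotient.mk_eq_zero N₁]
    apply eq_zero_of_dvd
    intro n hn
    obtain ⟨δ, hδ, hδi, r, hr⟩ := hsmall n hn
    obtain ⟨ε, -, b, hb, hE⟩ := hy δ hδ hδi
    have h1 : (δ - 1) • (y + (δ - 1) • b) ∈ N₁ := by
      rw [smul_add, ← hE]
      exact ⟨1, one_ne_zero, ε - 1, by simp⟩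
    have h2 := hpull δ hδi _ (B.add_mem hyB (B.smul_mem _ hb)) h1
    refine ⟨Submodule.Quotient.mk (-(r • b)), ?_⟩
    rw [← Submodule.Quotient.mk_smul, Submodule.Quotient.eq]
    have h3 : y - n • -(r • b) = y + (δ - 1) • b := by
      rw [hr, mul_smul, hsm, smul_neg, sub_neg_eq_add]
    rwa [h3]
  have hO : ∀ r s : R, Ideal.Quotient.mk P r = Ideal.Quotient.mk P s ↔ r • x₁ = s • x₁ := by
    intro r s
    rw [Ideal.Quotient.eq, ← hann, sub_smul, sub_eq_zero]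
  refine ⟨R ⧸ P, inferInstance, Ideal.Quotient.isDomain P, hcz, inferInstance, x₁, c,
    fun y o => ∃ r : R, c • y = r • x₁ ∧ o = Ideal.Quotient.mk P r, hx₁B, ?_⟩
  have hctf : ∀ y z : M, c • y = c • z → y = z := by
    intro y z h
    have h1 : c • (y - z) = 0 := by rw [smul_sub, h, sub_self]
    have := htf c _ (by omega) h1
    rwa [sub_eq_zero] at this
  have hVeq : ∀ x y : M, ∀ o o' : R ⧸ P, (∃ r : R, c • x = r • x₁ ∧ o = Ideal.Quotient.mk P r) →
      (∃ r : R, c • y = r • x₁ ∧ o' = Ideal.Quotient.mk P r) → (x = y ↔ o = o') := by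
    rintro x y o o' ⟨r, hr, rfl⟩ ⟨s, hs, rfl⟩
    rw [hO, ← hr, ← hs]
    exact ⟨fun h => by rw [h], fun h => hctf _ _ h⟩
  refine { hc := hc, dom := ?_, eq := ?_, fn := ?_, dom_pow := ?_, V_pow := ?_, add := ?_,
           mul := ?_, mul_pow := ?_ }
  · intro y hy
    obtain ⟨r, hr⟩ := hcN' y (hDomN y hy)
    exact ⟨_, r, hr, rfl⟩
  · intro x y o o' _ _ hx hy
    exact hVeq x y o o' hx hy
  · intro x o o' _ hx hx'
    exact (hVeq x x o o' hx hx').1 rfl
  · intro k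
    refine ⟨nsmul_mem hx₁B k, fun δ hδ _ => ?_⟩
    obtain ⟨r, hr⟩ := pow_expand δ k
    refine ⟨δ ^ k, hpow δ hδ k, r • x₁, B.smul_mem _ hx₁B, ?_⟩
    rw [hr, add_smul, mul_smul, mul_smul, mul_smul, hsm]
  · intro k
    refine ⟨((c * k : ℕ) : R), ?_, by simp⟩
    rw [hsm, mul_smul]
  · rintro x y z _ _ _ _ _ _ ⟨r, hr, rfl⟩ ⟨s, hs, rfl⟩ ⟨u, hu, rfl⟩ rfl
    rw [← map_add, hO, add_smul, ← hr, ← hs, ← hu, smul_add]
  · rintro y z w _ _ _ hy hz hw ⟨ry, hry, rfl⟩ ⟨rz, hrz, rfl⟩ ⟨rw', hrw, rfl⟩ hmul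
    have h0 : ((c : ℕ) : R ⧸ P) * Ideal.Quotient.mk P rw' = Ideal.Quotient.mk P (c * rw') := by
      rw [map_mul]
      simp
    rw [h0, ← map_mul, hO]
    have key : c • w = rz • y := by
      rw [← sub_eq_zero]
      apply eq_zero_of_dvd
      intro n hn
      obtain ⟨δ, hδ, hδi, r, hr⟩ := hsmall n hn
      obtain ⟨ε, -, b, hb, b', hb', hE1, hE2⟩ := hmul δ hδ hδi
      have h1 : c • (ε - 1) • z = rz • (ε - 1) • x₁ := by
        rw [smul_comm c, hrz, smul_comm]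
      rw [hE1, hE2] at h1
      have h2 : (δ - 1) • ((c • w - rz • y) - (δ - 1) • (rz • b - c • b')) = 0 := by
        have h3 : (δ - 1) • ((c • w - rz • y) - (δ - 1) • (rz • b - c • b')) =
            c • ((δ - 1) • w + (δ - 1) • (δ - 1) • b') -
              rz • ((δ - 1) • y + (δ - 1) • (δ - 1) • b) := by
          simp only [smul_sub, smul_add]
          rw [smul_comm (δ - 1) c w, smul_comm (δ - 1) rz y]
          rw [smul_comm (δ - 1) rz b, smul_comm (δ - 1) c b', smul_comm (δ - 1) rz,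
            smul_comm (δ - 1) c]
          abel
        rw [h3, h1, sub_self]
      have h4 := hδinj δ hδi _ (B.sub_mem (B.sub_mem (nsmul_mem hw.1 _) (B.smul_mem _ hy.1))
        (B.smul_mem _ (B.sub_mem (B.smul_mem _ hb) (nsmul_mem hb' _)))) h2
      rw [sub_eq_zero] at h4
      refine ⟨r • (rz • b - c • b'), ?_⟩
      rw [h4, hr, mul_smul, hsm]
    rw [mul_smul ry rz, mul_smul (c : R) rw', ← hrw, hsm, key, smul_comm c rz, hry,
      smul_comm ry rz]
  · intro i j δ hδ _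
    obtain ⟨r, hr⟩ := pow_expand δ i
    refine ⟨δ ^ i, hpow δ hδ i, r • x₁, B.smul_mem _ hx₁B, r • j • x₁,
      B.smul_mem _ (nsmul_mem hx₁B j), ?_, ?_⟩
    · rw [hr, add_smul, mul_smul, mul_smul, mul_smul, hsm]
    · rw [hr, add_smul, mul_smul, mul_smul, mul_smul, hsm, mul_smul]

end CaseS

end Pool.Agent.Helper657_nd.Weyl
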