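import Mathlib

set_option autoImplicit false

/-!
# Krull intersection over rings of finite type over `ℤ`
-/

namespace Pool.Agent.Helper657_nd.Krull

open Ideal

instance isJacobsonRing_int : IsJacobsonRing ℤ := by
  rw [isJacobsonRing_iff_prime_eq]
  intro P hP
  by_cases hb : P = ⊥
  · subst hb
    rw [eq_bot_iff]
    intro x hx
    rw [Ideal.mem_jacobson_bot] at hx
    have h1 := hx x
    rw [Ideal.mem_bot]
    by_contra hne
    have h2 : 0 < x * x := mul_self_pos.2 hne
    rcases Int.isUnit_iff.1 h1 with h | h <;> omega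
  · have : P.IsMaximal := IsPrime.isMaximal hP hb
    exact Ideal.jacobson_eq_self_of_isMaximal

/-- a field of finite type over `ℤ` is finite -/
theorem finite_field (K : Type) [Field K] [Algebra.FiniteType ℤ K] : Finite K := by
  have hfin : Module.Finite ℤ K := finite_of_finite_type_of_isJacobsonRing ℤ K
  obtain ⟨p, hp⟩ := CharP.exists K
  rcases CharP.char_is_prime_or_zero K p with hpp | hp0
  · apply Module.finite_of_fg_torsion
    intro x
    refine ⟨⟨(p : ℤ), mem_nonZeroDivisors_of_ne_zero (by exact_mod_cast hpp.ne_zero)⟩, ?_⟩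
    show (p : ℤ) • x = 0
    rw [zsmul_eq_mul]
    push_cast
    rw [CharP.cast_eq_zero, zero_mul]
  · exfalso
    subst hp0
    have hcz : CharZero K := CharP.charP_to_charZero K
    have hint : IsIntegral ℤ ((2 : K)⁻¹) := (Algebra.IsIntegral.of_finite ℤ K).isIntegral _
    have h2 : IsIntegral ℤ (((2 : ℚ)⁻¹ : ℚ)) := by
      have : (2 : K)⁻¹ = algebraMap ℚ K ((2 : ℚ)⁻¹) := by simp
      rw [this] at hint
      exact (isIntegral_algebraMap_iff (algebraMap ℚ K).injective).1 hint
    obtain ⟨n, hn⟩ := IsIntegrallyClosed.isIntegral_iff.1 h2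
    have h3 : (n : ℚ) * 2 = 1 := by
      have : (n : ℚ) = 2⁻¹ := by simpa using hn
      rw [this]
      norm_num
    have h4 : n * 2 = 1 := by exact_mod_cast h3
    omega

section
variable {P : Type} [CommRing P] [Algebra.FiniteType ℤ P]

theorem finite_quot (m : Ideal P) [m.IsMaximal] (n : ℕ) : Finite (P ⧸ m ^ n) := by
  have hN : IsNoetherianRing P := Algebra.FiniteType.isNoetherianRing ℤ P
  have h1 : Finite (P ⧸ m) := by
    let i1 : Field (P ⧸ m) := Ideal.Quotient.field m
    have i2 : Algebra.FiniteType ℤ (P ⧸ m) :=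
      Algebra.FiniteType.of_surjective (Ideal.Quotient.mk m).toIntAlgHom
        Ideal.Quotient.mk_surjective
    exact @finite_field (P ⧸ m) i1 i2
  exact Ideal.finite_quotient_pow (IsNoetherian.noetherian m) n

theorem exists_pow_sub_one_mem (m : Ideal P) [m.IsMaximal] (a : P) (ha : IsUnit a) (n : ℕ) :
    ∃ k : ℕ, 0 < k ∧ a ^ k - 1 ∈ m ^ n := by
  have hfin := finite_quot m n
  obtain ⟨v, hv⟩ := ha.map (Ideal.Quotient.mk (m ^ n))
  have hfo := isOfFinOrder_of_finite v
  rw [isOfFinOrder_iff_pow_eq_one] at hfo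
  obtain ⟨k, hk, hvk⟩ := hfo
  refine ⟨k, hk, ?_⟩
  rw [← Ideal.Quotient.eq, map_pow, ← hv, map_one, ← Units.val_pow_eq_pow_val, hvk, Units.val_one]

/-- The basic separation property. -/
theorem eq_zero {T : Type} [AddCommGroup T] [Module P T] [Module.Finite P T] (a : P)
    (ha : IsUnit a) (ξ : T) (h : ∀ k : ℕ, 0 < k → ∃ ζ : T, ξ = (a ^ k - 1) • ζ) : ξ = 0 := by
  by_contra hξ
  have hN : IsNoetherianRing P := Algebra.FiniteType.isNoetherianRing ℤ P
  let J : Ideal P := LinearMap.ker (LinearMap.toSpanSingleton P T ξ)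
  have hJ : ∀ r, r ∈ J ↔ r • ξ = 0 := fun r => by
    simp [J, LinearMap.mem_ker]
  have hJ1 : J ≠ ⊤ := by
    intro h1
    apply hξ
    have := (hJ 1).1 (by rw [h1]; exact Submodule.mem_top)
    rwa [one_smul] at this
  obtain ⟨m, hm, hJm⟩ := Ideal.exists_le_maximal J hJ1
  have hmem : ξ ∈ (⨅ i : ℕ, m ^ i • ⊤ : Submodule P T) := by
    rw [Submodule.mem_iInf]
    intro i
    obtain ⟨k, hk, hk1⟩ := exists_pow_sub_one_mem m a ha i
    obtain ⟨ζ, hζ⟩ := h k hk
    rw [hζ]
    exact Submodule.smul_mem_smul hk1 Submodule.mem_top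
  obtain ⟨r, hr⟩ := (m.mem_iInf_smul_pow_eq_bot_iff ξ).1 hmem
  have h1 : (1 - (r : P)) ∈ J := by
    rw [hJ, sub_smul, one_smul, hr, sub_self]
  apply hm.ne_top
  rw [Ideal.eq_top_iff_one]
  have := m.add_mem (hJm h1) r.2
  simpa using this

end

end Pool.Agent.Helper657_nd.Krull
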