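import Pool.Agent.Helper657_nd.Seg2

set_option autoImplicit false

/-!
# Groups that are finitely generated up to powers of `s`
-/

namespace Pool.Agent.Helper657_nd.Seg

/-- every element has a nonzero multiple in a fixed finitely generated subgroup -/
def FR (M : Type) [AddCommGroup M] : Prop :=
  ∃ S : Finset M, ∀ y : M, ∃ n : ℕ, n ≠ 0 ∧ n • y ∈ AddSubgroup.closure (S : Set M)

section basic
variable {M K : Type} [AddCommGroup M] [AddCommGroup K] {s : ℕ}

theorem MM.fr (hs : 0 < s) (h : MM s M) : FR M := by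
  obtain ⟨S, hS⟩ := h
  refine ⟨S, fun y => ?_⟩
  obtain ⟨k, hk⟩ := hS y
  exact ⟨s ^ k, pow_ne_zero _ hs.ne', hk⟩

theorem mem_closure_iff_span {S : Set M} {y : M} :
    y ∈ AddSubgroup.closure S ↔ y ∈ Submodule.span ℤ S := by
  rw [← Submodule.span_int_eq_addSubgroupClosure]
  rfl

theorem fg_closure_finite (S : Finset M) : Module.Finite ℤ (Submodule.span ℤ (S : Set M)) :=
  Module.Finite.span_finset ℤ S

theorem MM.of_submodule {P : Submodule ℤ M} (hP : P.FG)
    (h : ∀ y : M, ∃ k : ℕ, s ^ k • y ∈ P) : MM s M := by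
  obtain ⟨S, hS⟩ := hP
  refine ⟨S, fun y => ?_⟩
  obtain ⟨k, hk⟩ := h y
  exact ⟨k, by rwa [mem_closure_iff_span, hS]⟩

theorem MM.exists_submodule (h : MM s M) :
    ∃ P : Submodule ℤ M, P.FG ∧ ∀ y : M, ∃ k : ℕ, s ^ k • y ∈ P := by
  obtain ⟨S, hS⟩ := h
  refine ⟨Submodule.span ℤ S, ⟨S, rfl⟩, fun y => ?_⟩
  obtain ⟨k, hk⟩ := hS y
  exact ⟨k, by rwa [← mem_closure_iff_span]⟩

theorem MM.of_injective (h : MM s M) (f : K →+ M) (hf : Function.Injective f) : MM s K := by
  obtain ⟨P, hP, hS⟩ := h.exists_submodule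
  let g : K →ₗ[ℤ] M := f.toIntLinearMap
  have hnoeth : IsNoetherian ℤ P := by
    have : Module.Finite ℤ P := Module.Finite.iff_fg.2 hP
    infer_instance
  refine MM.of_submodule (P := P.comap g) ?_ fun y => ?_
  · have h1 : Module.Finite ℤ (P.comap g) := by
      let e : (P.comap g) →ₗ[ℤ] P :=
        { toFun := fun y => ⟨g y, y.2⟩
          map_add' := fun x y => Subtype.ext (by simp)
          map_smul' := fun a x => Subtype.ext (by simp) }
      refine Module.Finite.of_injective e ?_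
      intro x y hxy
      exact Subtype.ext (hf (congrArg Subtype.val hxy))
    exact Module.Finite.iff_fg.1 h1
  · obtain ⟨k, hk⟩ := hS (f y)
    refine ⟨k, ?_⟩
    show f (s ^ k • y) ∈ P
    rwa [map_nsmul]

theorem MM.of_surjective (h : MM s M) (f : M →+ K) (hf : Function.Surjective f) : MM s K := by
  classical
  obtain ⟨S, hS⟩ := h
  refine ⟨S.image f, fun y => ?_⟩
  obtain ⟨x, rfl⟩ := hf y
  obtain ⟨k, hk⟩ := hS x
  refine ⟨k, ?_⟩
  have h1 : f (s ^ k • x) ∈ (AddSubgroup.closure (S : Set M)).map f := ⟨_, hk, rfl⟩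
  rw [map_nsmul, AddMonoidHom.map_closure] at h1
  rwa [Finset.coe_image]

theorem MM.of_finite [Module.Finite ℤ M] : MM s M := by
  refine MM.of_submodule (P := ⊤) Module.Finite.fg_top fun y => ⟨0, Submodule.mem_top⟩

theorem MM.pi {ι : Type} [Finite ι] (h : MM s M) : MM s (ι → M) := by
  classical
  have _ := Fintype.ofFinite ι
  obtain ⟨P, hP, hS⟩ := h.exists_submodule
  have h1 : Module.Finite ℤ P := Module.Finite.iff_fg.2 hP
  let g : (ι → P) →ₗ[ℤ] (ι → M) := LinearMap.pi fun i => P.subtype.comp (LinearMap.proj i)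
  refine MM.of_submodule (P := LinearMap.range g) ?_ fun y => ?_
  · exact Module.Finite.iff_fg.1 (Module.Finite.range g)
  · choose k hk using fun i => hS (y i)
    let kk := ∑ i, k i
    have hkk : ∀ i, k i ≤ kk := fun i =>
      Finset.single_le_sum (f := k) (fun _ _ => Nat.zero_le _) (Finset.mem_univ i)
    refine ⟨kk, fun i => ⟨s ^ kk • y i, ?_⟩, ?_⟩
    · have h2 : s ^ kk • y i = s ^ (kk - k i) • s ^ k i • y i := by
        rw [← mul_smul, ← pow_add]
        congr 2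
        have := hkk i
        omega
      rw [h2]
      exact P.smul_of_tower_mem _ (hk i)
    · ext i
      rfl

theorem MM.end_ (hs : 0 < s) (htf : ∀ (n : ℕ) (y : M), n ≠ 0 → n • y = 0 → y = 0)
    (h : MM s M) : MM s (Module.End ℤ M) := by
  obtain ⟨S, hS⟩ := h
  have h1 : MM s (S → M) := MM.pi ⟨S, hS⟩
  let f : Module.End ℤ M →+ (S → M) :=
    { toFun := fun φ m => φ m
      map_zero' := rfl
      map_add' := fun _ _ => rfl }
  refine h1.of_injective f ?_
  rw [injective_iff_map_eq_zero]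
  intro φ hφ
  have h2 : ∀ m ∈ AddSubgroup.closure (S : Set M), φ m = 0 := by
    intro m hm
    induction hm using AddSubgroup.closure_induction with
    | mem y hy => exact congrFun hφ ⟨y, hy⟩
    | zero => exact map_zero φ
    | add y z _ _ hy hz => rw [map_add, hy, hz, add_zero]
    | neg y _ hy => rw [map_neg, hy, neg_zero]
  ext1 y
  obtain ⟨k, hk⟩ := hS y
  have h3 := h2 _ hk
  rw [map_nsmul] at h3
  exact htf _ _ (pow_ne_zero _ hs.ne') h3

theorem MM.hom (hs : 0 < s) {W : Type} [AddCommGroup W]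
    (htf : ∀ (n : ℕ) (y : W), n ≠ 0 → n • y = 0 → y = 0)
    (h : MM s M) (hW : MM s W) : MM s (M →ₗ[ℤ] W) := by
  obtain ⟨S, hS⟩ := h
  have h1 : MM s (S → W) := MM.pi hW
  let f : (M →ₗ[ℤ] W) →+ (S → W) :=
    { toFun := fun φ m => φ m
      map_zero' := rfl
      map_add' := fun _ _ => rfl }
  refine h1.of_injective f ?_
  rw [injective_iff_map_eq_zero]
  intro φ hφ
  have h2 : ∀ m ∈ AddSubgroup.closure (S : Set M), φ m = 0 := by
    intro m hm
    induction hm using AddSubgroup.closure_induction with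
    | mem y hy => exact congrFun hφ ⟨y, hy⟩
    | zero => exact map_zero φ
    | add y z _ _ hy hz => rw [map_add, hy, hz, add_zero]
    | neg y _ hy => rw [map_neg, hy, neg_zero]
  ext1 y
  obtain ⟨k, hk⟩ := hS y
  have h3 := h2 _ hk
  rw [map_nsmul] at h3
  exact htf _ _ (pow_ne_zero _ hs.ne') h3

theorem MM.sub (h : MM s M) (P : Submodule ℤ M) : MM s P :=
  h.of_injective P.subtype.toAddMonoidHom P.injective_subtype

/-- maximal relatively divisible subgroups -/
theorem FR.exists_max (h : FR M) (F : Submodule ℤ M → Prop) (hne : ∃ P, F P)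
    (hpure : ∀ P, F P → ∀ (n : ℕ) (y : M), n ≠ 0 → n • y ∈ P → y ∈ P) :
    ∃ P, F P ∧ ∀ P', F P' → P ≤ P' → P' ≤ P := by
  classical
  obtain ⟨S, hS⟩ := h
  let M₀ : Submodule ℤ M := Submodule.span ℤ (S : Set M)
  have hfin : Module.Finite ℤ M₀ := fg_closure_finite S
  have hM₀ : ∀ y : M, ∃ n : ℕ, n ≠ 0 ∧ n • y ∈ M₀ := by
    intro y
    obtain ⟨n, hn, h⟩ := hS y
    exact ⟨n, hn, by rwa [← mem_closure_iff_span]⟩
  have hnoeth : IsNoetherian ℤ M₀ := inferInstance
  obtain ⟨P₁, hP₁⟩ := hne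
  obtain ⟨_, ⟨P, hP, rfl⟩, hmax⟩ :=
    (set_has_maximal_iff_noetherian (R := ℤ) (M := M₀)).2 inferInstance
      ((fun P : Submodule ℤ M => P.comap M₀.subtype) '' {P | F P}) ⟨_, P₁, hP₁, rfl⟩
  refine ⟨P, hP, fun P' hP' hle y hy => ?_⟩
  obtain ⟨n, hn, hny⟩ := hM₀ y
  apply hpure P hP n y hn
  have h1 : (⟨n • y, hny⟩ : M₀) ∈ P'.comap M₀.subtype := P'.smul_of_tower_mem n hy
  have h2 : P.comap M₀.subtype = P'.comap M₀.subtype := by
    by_contra hne
    exact hmax _ ⟨P', hP', rfl⟩ (lt_of_le_of_ne (Submodule.comap_mono hle) hne)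
  rw [← h2] at h1
  exact h1

/-- The intersection of the subgroups `p ^ l M` is trivial. -/
theorem MM.sep (hs : 0 < s) (htf : ∀ (n : ℕ) (y : M), n ≠ 0 → n • y = 0 → y = 0)
    (h : MM s M) (p : ℕ) (hp : 1 < p) (hps : Nat.Coprime p s) (m : M)
    (hm : ∀ l : ℕ, ∃ m' : M, m = (p ^ l) • m') : m = 0 := by
  obtain ⟨P, hP, hS⟩ := h.exists_submodule
  have hfin : Module.Finite ℤ P := Module.Finite.iff_fg.2 hP
  have htfP : Module.IsTorsionFree ℤ P := by
    rw [Module.isTorsionFree_iff_smul_eq_zero]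
    rintro a y hy
    by_cases ha : a = 0
    · exact Or.inl ha
    right
    apply Subtype.ext
    apply htf a.natAbs _ (by simpa using ha)
    have h1 : a • (y : M) = 0 := congrArg Subtype.val hy
    rcases Int.natAbs_eq a with h2 | h2
    · rw [h2, natCast_zsmul] at h1
      exact h1
    · rw [h2, neg_smul, natCast_zsmul, neg_eq_zero] at h1
      exact h1
  obtain ⟨k, hk⟩ := hS m
  apply htf (s ^ k) m (pow_ne_zero _ hs.ne')
  have key : (⟨s ^ k • m, hk⟩ : P) = 0 := by
    let b := Module.Free.chooseBasis ℤ P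
    rw [← b.repr.map_eq_zero_iff]
    ext i
    set x : P := ⟨s ^ k • m, hk⟩ with hx
    set a := b.repr x i with ha
    obtain ⟨m', hm'⟩ := hm a.natAbs
    obtain ⟨k', hk'⟩ := hS m'
    have h1 : s ^ k' • x = (p ^ a.natAbs) • (s ^ k • (⟨s ^ k' • m', hk'⟩ : P)) := by
      apply Subtype.ext
      show s ^ k' • (s ^ k • m) = p ^ a.natAbs • (s ^ k • (s ^ k' • m'))
      conv_lhs => rw [hm']
      rw [← mul_smul, ← mul_smul, ← mul_smul, ← mul_smul]
      congr 1
      ring
    have h2 := congrArg (fun z => b.repr z i) h1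
    simp only [map_nsmul, Finsupp.smul_apply, nsmul_eq_mul] at h2
    have h3 : ((p ^ a.natAbs : ℕ) : ℤ) ∣ ((s ^ k' : ℕ) : ℤ) * a := ⟨_, h2⟩
    have h4 : IsCoprime ((p ^ a.natAbs : ℕ) : ℤ) ((s ^ k' : ℕ) : ℤ) :=
      Nat.isCoprime_iff_coprime.2 (hps.pow _ _)
    have h5 : ((p ^ a.natAbs : ℕ) : ℤ) ∣ a := h4.dvd_of_dvd_mul_left h3
    have h6 : a = 0 := by
      apply Int.eq_zero_of_abs_lt_dvd h5
      rw [Int.abs_eq_natAbs]
      exact_mod_cast Nat.lt_pow_self hp
    simpa using h6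
  exact congrArg Subtype.val key

/-- Finiteness of quotients. -/
theorem MM.finite_quot (h : MM s M) (n : ℕ) (hn : n ≠ 0) (hns : Nat.Coprime n s)
    (P : Submodule ℤ M) (hP : ∀ y : M, n • y ∈ P) : Finite (M ⧸ P) := by
  classical
  obtain ⟨S, hS⟩ := h
  have htor : ∀ q : M ⧸ P, n • q = 0 := by
    intro q
    obtain ⟨y, rfl⟩ := Submodule.mkQ_surjective P q
    rw [← map_nsmul, Submodule.mkQ_apply, Submodule.Quotient.mk_eq_zero]
    exact hP y
  have hfin : Module.Finite ℤ (M ⧸ P) := by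
    refine ⟨⟨S.image P.mkQ, ?_⟩⟩
    rw [eq_top_iff]
    rintro q -
    obtain ⟨y, rfl⟩ := Submodule.mkQ_surjective P q
    obtain ⟨k, hk⟩ := hS y
    have h1 : P.mkQ (s ^ k • y) ∈ Submodule.span ℤ ((S.image P.mkQ : Finset (M ⧸ P)) : Set (M ⧸ P)) := by
      rw [mem_closure_iff_span] at hk
      have h2 : P.mkQ (s ^ k • y) ∈ (Submodule.span ℤ (S : Set M)).map P.mkQ := ⟨_, hk, rfl⟩
      rw [Submodule.map_span] at h2
      rwa [Finset.coe_image]
    have h3 : IsCoprime ((s ^ k : ℕ) : ℤ) (n : ℤ) :=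
      Nat.isCoprime_iff_coprime.2 (hns.symm.pow_left k)
    obtain ⟨a, b, hab⟩ := h3
    have h4 : P.mkQ y = a • P.mkQ (s ^ k • y) := by
      have h5 : P.mkQ y = (a * ((s ^ k : ℕ) : ℤ) + b * n) • P.mkQ y := by rw [hab, one_smul]
      rw [add_smul, mul_smul, mul_smul, natCast_zsmul, natCast_zsmul, htor, smul_zero, add_zero] at h5
      rw [map_nsmul]
      exact h5
    rw [h4]
    exact Submodule.smul_mem _ _ h1
  apply Module.finite_of_fg_torsion
  intro q
  refine ⟨⟨(n : ℤ), mem_nonZeroDivisors_of_ne_zero (by exact_mod_cast hn)⟩, ?_⟩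
  show (n : ℤ) • q = 0
  rw [natCast_zsmul, htor]

end basic

end Pool.Agent.Helper657_nd.Seg
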