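import Pool.Agent.Helper657_nd.Bound
import Pool.Agent.Helper657_nd.Krull
import Pool.Agent.Helper657_nd.MMB

set_option autoImplicit false

/-!
# Finite initial segments in domains of finite type over `ℤ`
-/

namespace Pool.Agent.Helper657_nd.SegFT

open Seg

theorem findim_of_alg (κ : Type) [Field κ] [CharZero κ] (inst : Algebra ℚ κ)
    (h : @Module.Finite ℚ κ _ _ inst.toModule) :
    @Module.Finite ℚ κ _ _ (DivisionRing.toRatAlgebra : Algebra ℚ κ).toModule := by
  have h1 : inst = DivisionRing.toRatAlgebra := Subsingleton.elim _ _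
  subst h1
  exact h

theorem exists_hom (A : Type) [CommRing A] [Nontrivial A] [Algebra ℚ A]
    [Algebra.FiniteType ℚ A] : ∃ (κ : Type) (_ : Field κ) (_ : CharZero κ)
      (_ : FiniteDimensional ℚ κ), Nonempty (A →+* κ) := by
  obtain ⟨m, hm⟩ := Ideal.exists_maximal A
  let i1 : Field (A ⧸ m) := Ideal.Quotient.field m
  have i2 : Algebra.FiniteType ℚ (A ⧸ m) :=
    Algebra.FiniteType.of_surjective (Ideal.Quotient.mkₐ ℚ m) (Ideal.Quotient.mkₐ_surjective ℚ m)
  have i4 : @CharZero (A ⧸ m) i1.toRing.toAddMonoidWithOne := algebraRat.charZero (A ⧸ m)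
  have i3 := @finite_of_finite_type_of_isJacobsonRing ℚ (A ⧸ m) _ i1
    (Ideal.instAlgebraQuotient ℚ m) _ i2
  exact ⟨A ⧸ m, i1, i4, @findim_of_alg (A ⧸ m) i1 i4 _ i3, ⟨Ideal.Quotient.mk m⟩⟩

/-- In a number field the image of a ring of finite type consists of elements with a multiple by
a power of a fixed `s` that is integral. -/
theorem exists_denom (Ω : Type) [CommRing Ω] [Algebra.FiniteType ℤ Ω] (κ : Type) [Field κ]
    [CharZero κ] [FiniteDimensional ℚ κ] (ψ : Ω →+* κ) :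
    ∃ s : ℕ, 0 < s ∧ ∀ x : Ω, ∃ k : ℕ, IsIntegral ℤ ((s : κ) ^ k * ψ x) := by
  classical
  obtain ⟨S, hS⟩ := (inferInstance : Algebra.FiniteType ℤ Ω).out
  obtain ⟨y, hy0, hy⟩ := exists_integral_multiples ℤ ℚ (S.image ψ : Finset κ)
  refine ⟨y.natAbs, Int.natAbs_pos.2 hy0, ?_⟩
  have hyn : ∀ z : κ, IsIntegral ℤ (y • z) → IsIntegral ℤ ((y.natAbs : κ) * z) := by
    intro z hz
    rcases Int.natAbs_eq y with h | h
    · have h1 : y • z = (y.natAbs : κ) * z := by
        conv_lhs => rw [h]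
        rw [natCast_zsmul, nsmul_eq_mul]
      rwa [← h1]
    · have h1 : y • z = -((y.natAbs : κ) * z) := by
        conv_lhs => rw [h]
        rw [neg_smul, natCast_zsmul, nsmul_eq_mul]
      rw [h1] at hz
      have := hz.neg
      rwa [neg_neg] at this
  intro x
  have hx : x ∈ Algebra.adjoin ℤ (S : Set Ω) := by rw [hS]; exact Algebra.mem_top
  have hsint : ∀ n : ℕ, IsIntegral ℤ ((n : ℕ) : κ) := fun n => by
    have := isIntegral_algebraMap (R := ℤ) (A := κ) (x := (n : ℤ))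
    simpa using this
  induction hx using Algebra.adjoin_induction with
  | mem z hz =>
    refine ⟨1, ?_⟩
    rw [pow_one]
    exact hyn _ (hy _ (Finset.mem_image_of_mem _ hz))
  | algebraMap r =>
    refine ⟨0, ?_⟩
    rw [pow_zero, one_mul]
    have := isIntegral_algebraMap (R := ℤ) (A := κ) (x := r)
    simpa using this
  | add a b _ _ ha hb =>
    obtain ⟨k, hk⟩ := ha
    obtain ⟨l, hl⟩ := hb
    refine ⟨k + l, ?_⟩
    have h1 : ((y.natAbs : ℕ) : κ) ^ (k + l) * ψ (a + b) = (y.natAbs : κ) ^ l * ((y.natAbs : κ) ^ k *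
        ψ a) + (y.natAbs : κ) ^ k * ((y.natAbs : κ) ^ l * ψ b) := by
      rw [map_add, pow_add]
      ring
    rw [h1]
    exact (((hsint _).pow l).mul hk).add (((hsint _).pow k).mul hl)
  | mul a b _ _ ha hb =>
    obtain ⟨k, hk⟩ := ha
    obtain ⟨l, hl⟩ := hb
    refine ⟨k + l, ?_⟩
    have h1 : ((y.natAbs : ℕ) : κ) ^ (k + l) * ψ (a * b) = ((y.natAbs : κ) ^ k * ψ a) *
        ((y.natAbs : κ) ^ l * ψ b) := by
      rw [map_mul, pow_add]
      ring
    rw [h1]
    exact hk.mul hl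

/-- The elements of a number field whose multiples by powers of `s` are eventually integral. -/
def sInt (s : ℕ) (κ : Type) [Field κ] : AddSubgroup κ where
  carrier := {x | ∃ k : ℕ, IsIntegral ℤ ((s : κ) ^ k * x)}
  zero_mem' := ⟨0, by simpa using (isIntegral_zero : IsIntegral ℤ (0 : κ))⟩
  add_mem' := by
    rintro a b ⟨k, hk⟩ ⟨l, hl⟩
    refine ⟨k + l, ?_⟩
    have hsint : IsIntegral ℤ ((s : ℕ) : κ) := by
      have := isIntegral_algebraMap (R := ℤ) (A := κ) (x := (s : ℤ))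
      simpa using this
    have h1 : (s : κ) ^ (k + l) * (a + b) = (s : κ) ^ l * ((s : κ) ^ k * a) +
        (s : κ) ^ k * ((s : κ) ^ l * b) := by
      rw [pow_add]
      ring
    rw [h1]
    exact ((hsint.pow l).mul hk).add ((hsint.pow k).mul hl)
  neg_mem' := by
    rintro a ⟨k, hk⟩
    exact ⟨k, by rw [mul_neg]; exact hk.neg⟩

theorem mem_sInt {s : ℕ} {κ : Type} [Field κ] {x : κ} :
    x ∈ sInt s κ ↔ ∃ k : ℕ, IsIntegral ℤ ((s : κ) ^ k * x) := Iff.rfl

theorem MM_sInt (s : ℕ) (κ : Type) [Field κ] [CharZero κ] [FiniteDimensional ℚ κ] :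
    MM s (sInt s κ) := by
  have hnf : NumberField κ := {}
  have hfin : Module.Finite ℤ (integralClosure ℤ κ) :=
    inferInstanceAs (Module.Finite ℤ (NumberField.RingOfIntegers κ))
  let f : (integralClosure ℤ κ) →ₗ[ℤ] (sInt s κ) :=
    { toFun := fun x => ⟨(x : κ), 0, by rw [pow_zero, one_mul]; exact x.2⟩
      map_add' := fun x y => rfl
      map_smul' := fun n x => by
        apply Subtype.ext
        simp }
  refine MM.of_submodule (P := LinearMap.range f) ?_ fun y => ?_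
  · exact (LinearMap.range_eq_map f) ▸ (Module.Finite.fg_top.map f)
  · obtain ⟨k, hk⟩ := y.2
    refine ⟨k, ⟨⟨(s : κ) ^ k * (y : κ), hk⟩, ?_⟩⟩
    apply Subtype.ext
    show (s : κ) ^ k * (y : κ) = ((s ^ k • y : sInt s κ) : κ)
    rw [AddSubgroup.coe_nsmul, nsmul_eq_mul]
    push_cast
    rfl

section main
variable (Ω : Type) [CommRing Ω] [IsDomain Ω] [CharZero Ω] [Algebra.FiniteType ℤ Ω]

theorem main_aux (F : Type) [Field F] [CharZero F] [Algebra Ω F]
    (hinj : Function.Injective (algebraMap Ω F)) : ∃ K, SegProp Ω K := by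
  classical
  obtain ⟨S, hS⟩ := (inferInstance : Algebra.FiniteType ℤ Ω).out
  let A : Subalgebra ℚ F := Algebra.adjoin ℚ ((S.image (algebraMap Ω F) : Finset F) : Set F)
  have hAft : Algebra.FiniteType ℚ A := A.fg_iff_finiteType.1 ⟨_, rfl⟩
  have hΩA : ∀ x : Ω, algebraMap Ω F x ∈ A := by
    intro x
    have hx : x ∈ Algebra.adjoin ℤ (S : Set Ω) := by rw [hS]; exact Algebra.mem_top
    induction hx using Algebra.adjoin_induction with
    | mem z hz =>
      apply Algebra.subset_adjoin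
      rw [Finset.coe_image]
      exact ⟨z, hz, rfl⟩
    | algebraMap r =>
      have : algebraMap Ω F (algebraMap ℤ Ω r) = ((r : ℤ) : F) := by simp
      rw [this]
      exact intCast_mem A r
    | add a b _ _ ha hb => rw [map_add]; exact A.add_mem ha hb
    | mul a b _ _ ha hb => rw [map_mul]; exact A.mul_mem ha hb
  let φ : Ω →+* A := (algebraMap Ω F).codRestrict A hΩA
  have hφ : ∀ x, ((φ x : A) : F) = algebraMap Ω F x := fun x => rfl
  obtain ⟨r, hr⟩ := exists_bound A
  -- a homomorphism to a number field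
  obtain ⟨κ, i1, i2, i3, ⟨ψ⟩⟩ := exists_hom A
  obtain ⟨s, hs, hden⟩ := exists_denom Ω κ (ψ.comp φ)
  -- the algebraic elements
  let Ω₀ : Subring Ω := ((integralClosure ℚ F).toSubring).comap (algebraMap Ω F)
  have hΩ₀ : ∀ x : Ω, x ∈ Ω₀ ↔ IsIntegral ℚ (algebraMap Ω F x) := fun x => Iff.rfl
  have hunit : ∀ a : A, IsIntegral ℚ a → a ≠ 0 → IsUnit a := by
    intro a ha ha0
    have halg : IsAlgebraic ℚ a := ha.isAlgebraic
    obtain ⟨q, hq0, hq⟩ := halg.exists_nonzero_dvd (mem_nonZeroDivisors_of_ne_zero ha0)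
    exact isUnit_of_dvd_unit hq ((isUnit_iff_ne_zero.2 hq0).map _)
  have hMM : MM s Ω₀ := by
    let τ : Ω₀ →+ sInt s κ :=
      { toFun := fun x => ⟨ψ (φ x), hden x⟩
        map_zero' := by
          apply Subtype.ext
          show ψ (φ ((0 : Ω₀) : Ω)) = 0
          simp
        map_add' := fun x y => by
          apply Subtype.ext
          show ψ (φ ((x + y : Ω₀) : Ω)) = ψ (φ x) + ψ (φ y)
          simp }
    refine (MM_sInt s κ).of_injective τ ?_
    rw [injective_iff_map_eq_zero]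
    intro x hx
    have h1 : ψ (φ x) = 0 := congrArg Subtype.val hx
    by_contra hne
    have h2 : (φ x) ≠ 0 := by
      intro h0
      apply hne
      apply Subtype.ext
      apply hinj
      rw [← hφ, h0]
      simp
    have h3 : IsIntegral ℚ (φ x) := by
      have h4 : IsIntegral ℚ ((φ x : A) : F) := (hΩ₀ _).1 x.2
      exact (isIntegral_algHom_iff A.val Subtype.val_injective).1 h4
    have h5 := (hunit _ h3 h2).map ψ
    rw [h1] at h5
    exact not_isUnit_zero h5
  have hcz : CharZero Ω₀ := by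
    refine charZero_of_inj_zero fun n hn => ?_
    have h1 := congrArg (Subtype.val) hn
    have h2 : ((n : ℕ) : Ω) = 0 := by simpa using h1
    exact_mod_cast h2
  obtain ⟨K₀, hK₀, hseg⟩ := segProp_ge Ω₀ s hs hMM
  let K := max K₀ (r + 1)
  refine ⟨K, lt_of_lt_of_le hK₀ (le_max_left _ _), fun c hc N => ?_⟩
  obtain ⟨h, f, g, hh, h1, h2⟩ := hseg K (le_max_left _ _) c hc N
  refine ⟨h, f, g, h1, fun x hx1 hx2 => ?_⟩
  have hne : ((c ^ 2 * h : ℕ) : Ω) ≠ 0 := by
    have : c ^ 2 * h ≠ 0 := by positivity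
    exact_mod_cast this
  have hnunit : ∀ n : ℕ, n ≠ 0 → IsUnit ((n : ℕ) : A) := by
    intro n hn
    have : ((n : ℕ) : A) = algebraMap ℚ A (n : ℚ) := by simp
    rw [this]
    exact (isUnit_iff_ne_zero.2 (by exact_mod_cast hn)).map _
  have hx : x ∈ Ω₀ := by
    have h3 : IsAlgebraic ℚ (φ x) := by
      refine hr c hc _ fun i hi => ?_
      obtain ⟨z, hz⟩ := hx1 i (lt_of_lt_of_le (Nat.lt_succ_of_le hi) (le_max_right _ _))
      have h4 : φ ((c ^ 2 * h : ℕ) : Ω) = (φ x + ((c * i : ℕ) : A)) * φ z := by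
        rw [hz, map_mul, map_add, map_natCast]
      rw [map_natCast] at h4
      have h5 : IsUnit ((c ^ 2 * h : ℕ) : A) := hnunit _ (by positivity)
      rw [h4] at h5
      exact isUnit_of_mul_isUnit_left h5
    rw [hΩ₀]
    have h6 : IsIntegral ℚ (φ x) := isAlgebraic_iff_isIntegral.1 h3
    exact h6.map A.val
  have hnat : ∀ n : ℕ, ((n : ℕ) : Ω) ∈ Ω₀ := fun n => natCast_mem _ n
  have hquot : ∀ a b z : Ω, a ∈ Ω₀ → b ∈ Ω₀ → b = a * z → ∃ z' ∈ Ω₀, b = a * z' := by
    intro a b z ha hb hz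
    by_cases ha0 : a = 0
    · refine ⟨0, Ω₀.zero_mem, ?_⟩
      rw [hz, ha0]
      simp
    · refine ⟨z, ?_, hz⟩
      rw [hΩ₀] at ha hb ⊢
      have h7 : algebraMap Ω F z = (algebraMap Ω F a)⁻¹ * algebraMap Ω F b := by
        rw [hz, map_mul, inv_mul_cancel_left₀]
        rw [Ne, map_eq_zero_iff _ hinj]
        exact ha0
      rw [h7]
      exact ha.inv.mul hb
  obtain ⟨j, hj1, hj2, hj3⟩ := h2 ⟨x, hx⟩ (fun i hi => by
    obtain ⟨z, hz⟩ := hx1 i hi
    obtain ⟨z', hz', e⟩ := hquot _ _ z (Ω₀.add_mem hx (hnat _)) (hnat _) hz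
    refine ⟨⟨z', hz'⟩, ?_⟩
    apply Subtype.ext
    push_cast at e ⊢
    exact e) (by
    obtain ⟨z, hz⟩ := hx2
    obtain ⟨z', hz', e⟩ := hquot _ _ z (Ω₀.add_mem (hnat c) (Ω₀.mul_mem (hnat f) hx)) (hnat _) hz
    refine ⟨⟨z', hz'⟩, ?_⟩
    apply Subtype.ext
    push_cast at e ⊢
    exact e)
  refine ⟨j, hj1, hj2, ?_⟩
  have := congrArg Subtype.val hj3
  simpa using this

/-- finite initial segments in domains of finite type over `ℤ` -/
theorem segProp_ft : ∃ K, SegProp Ω K := by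
  have hcz : CharZero (FractionRing Ω) :=
    charZero_of_injective_algebraMap (IsFractionRing.injective Ω (FractionRing Ω))
  exact main_aux Ω (FractionRing Ω) (IsFractionRing.injective Ω (FractionRing Ω))

end main

end Pool.Agent.Helper657_nd.SegFT
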