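import Pool.Agent.Helper657_nd.Tens
import Pool.Agent.Helper657_nd.SegFT
import Pool.Agent.Helper657_nd.CaseS

set_option autoImplicit false

/-!
# The semisimple case for submodules of Noetherian modules: algebra
-/

namespace Pool.Agent.Helper657_nd.Noeth

open nonZeroDivisors Seg Weyl

section defs
variable {R M : Type} [CommRing R] [AddCommGroup M] [Module R M]

def InjN (B : Submodule R M) (δ : R) : Prop := ∀ b ∈ B, δ • b = b → b = 0

/-- the set of approximate scalars -/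
def DomN (D : Set R) (B : Submodule R M) (x₁ y : M) : Prop :=
  y ∈ B ∧ ∀ δ ∈ D, InjN B δ → ∃ ε ∈ D, ∃ b ∈ B,
    (ε - 1) • x₁ = (δ - 1) • y + (δ - 1) • (δ - 1) • b

/-- the multiplication of approximate scalars -/
def MulN (D : Set R) (B : Submodule R M) (x₁ y z w : M) : Prop :=
  ∀ δ ∈ D, InjN B δ → ∃ ε ∈ D, ∃ b ∈ B, ∃ b' ∈ B,
    (ε - 1) • x₁ = (δ - 1) • y + (δ - 1) • (δ - 1) • b ∧
      (ε - 1) • z = (δ - 1) • w + (δ - 1) • (δ - 1) • b'

theorem pow_expandN (δ : R) (i : ℕ) :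
    ∃ r : R, δ ^ i - 1 = (δ - 1) * i + (δ - 1) * (δ - 1) * r := by
  induction i with
  | zero => exact ⟨0, by simp⟩
  | succ i ih =>
    obtain ⟨r, hr⟩ := ih
    refine ⟨i + δ * r, ?_⟩
    have h1 : δ ^ (i + 1) - 1 = δ * (δ ^ i - 1) + (δ - 1) := by ring
    rw [h1, hr]
    push_cast
    ring

end defs

section target

/-- a domain of finite type over `ℤ` in which the quotients live -/
theorem exists_target (R P M : Type) [CommRing R] [IsDomain R] [CharZero R] [CommRing P]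
    [Algebra R P] [AddCommGroup M] [Module R M] [Module P M] [IsScalarTower R P M]
    [Algebra.FiniteType ℤ P] [Module.Finite P M] (x₁ : M)
    (hx₁ : ∀ r : R, r • x₁ = 0 → r = 0) (N : Set M)
    (hN : ∀ y ∈ N, ∃ r s : R, r ≠ 0 ∧ r • y = s • x₁) :
    ∃ (O : Type) (_ : CommRing O) (_ : IsDomain O) (_ : CharZero O) (ρ : R →+* O),
      (∃ K, SegProp O K) ∧ Function.Injective ρ ∧
      ∀ y ∈ N, ∃ o : O, ∃ r s : R, r ≠ 0 ∧ r • y = s • x₁ ∧ ρ r * o = ρ s := by
  classical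
  have hnoeth : IsNoetherianRing P := Algebra.FiniteType.isNoetherianRing ℤ P
  -- uniform denominators
  obtain ⟨S, hSN, hS⟩ := (Submodule.fg_span_iff_fg_span_finset_subset (R := P) N).1
    (IsNoetherian.noetherian _)
  choose! rr ss hr0 hrs using hN
  let r₁ : R := ∏ y ∈ S, rr y
  have hr₁ : r₁ ≠ 0 := by
    show (∏ y ∈ S, rr y) ≠ 0
    rw [Finset.prod_ne_zero_iff]
    exact fun y hy => hr0 y (hSN hy)
  have hunif : ∀ y ∈ N, ∃ p : P, r₁ • y = p • x₁ := by
    intro y hy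
    have hy' : y ∈ Submodule.span P (S : Set M) := by
      rw [← hS]
      exact Submodule.subset_span hy
    clear hy
    induction hy' using Submodule.span_induction with
    | mem z hz =>
      obtain ⟨q, hq⟩ := Finset.dvd_prod_of_mem rr (Finset.mem_coe.1 hz)
      refine ⟨algebraMap R P (q * ss z), ?_⟩
      rw [algebraMap_smul]
      show (∏ y ∈ S, rr y) • z = _
      rw [hq, mul_comm, mul_smul, hrs z (hSN hz), mul_smul]
    | zero => exact ⟨0, by simp⟩
    | add a b _ _ ha hb =>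
      obtain ⟨p, hp⟩ := ha
      obtain ⟨q, hq⟩ := hb
      exact ⟨p + q, by rw [smul_add, hp, hq, add_smul]⟩
    | smul c a _ ha =>
      obtain ⟨p, hp⟩ := ha
      refine ⟨c * p, ?_⟩
      rw [mul_smul, ← hp, ← algebraMap_smul P r₁ (c • a), ← algebraMap_smul P r₁ a, ← mul_smul,
        ← mul_smul, mul_comm]
  -- a prime
  let J : Ideal P := LinearMap.ker (LinearMap.toSpanSingleton P M x₁)
  have hJ : ∀ r, r ∈ J ↔ r • x₁ = 0 := fun r => by simp [J, LinearMap.mem_ker]
  let Sm : Submonoid P := (R⁰).map (algebraMap R P)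
  have hdisj : Disjoint (J : Set P) Sm := by
    rw [Set.disjoint_left]
    rintro _ hp ⟨r, hr, rfl⟩
    rw [SetLike.mem_coe, hJ, algebraMap_smul] at hp
    exact nonZeroDivisors.ne_zero hr (hx₁ r hp)
  obtain ⟨Q, hQ, hJQ, hQdisj⟩ := Ideal.exists_le_prime_disjoint J Sm hdisj
  let Ω := P ⧸ Q
  have hΩ : IsDomain Ω := Ideal.Quotient.isDomain Q
  let ρ₀ : R →+* Ω := (Ideal.Quotient.mk Q).comp (algebraMap R P)
  have hρ₀ : ∀ r : R, ρ₀ r = 0 → r = 0 := by
    intro r hr
    by_contra hne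
    have h1 : algebraMap R P r ∈ Q := Ideal.Quotient.eq_zero_iff_mem.1 hr
    exact Set.disjoint_left.1 hQdisj h1 ⟨r, mem_nonZeroDivisors_of_ne_zero hne, rfl⟩
  have hΩft := ft_quot P inferInstance Q
  let a : Ω := ρ₀ r₁
  have ha : a ≠ 0 := fun h => hr₁ (hρ₀ _ h)
  let O := Localization.Away a
  have hpow : Submonoid.powers a ≤ Ω⁰ := by
    rintro _ ⟨n, rfl⟩
    exact mem_nonZeroDivisors_of_ne_zero (pow_ne_zero _ ha)
  have hinjO : Function.Injective (algebraMap Ω O) := IsLocalization.injective O hpow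
  have hOdom : IsDomain O := IsLocalization.isDomain_localization hpow
  have hOft : @Algebra.FiniteType ℤ O _ _ (Ring.toIntAlgebra O) := by
    have h1 : Algebra.FiniteType Ω O := IsLocalization.finiteType_of_monoid_fg (Submonoid.powers a) O
    exact ft_of_any _ _ (Algebra.FiniteType.trans (R := ℤ) (S := Ω) (A := O) hΩft h1)
  let ρ : R →+* O := (algebraMap Ω O).comp ρ₀
  have hρ : Function.Injective ρ := by
    rw [injective_iff_map_eq_zero]
    intro r hr
    exact hρ₀ r ((map_eq_zero_iff _ hinjO).1 hr)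
  have hOcz : CharZero O := charZero_of_injective_ringHom hρ
  refine ⟨O, inferInstance, hOdom, hOcz, ρ, SegFT.segProp_ft O, hρ, fun y hy => ?_⟩
  obtain ⟨p, hp⟩ := hunif y hy
  refine ⟨IsLocalization.mk' O (Ideal.Quotient.mk Q p) ⟨a, Submonoid.mem_powers a⟩, rr y, ss y,
    hr0 y hy, hrs y hy, ?_⟩
  have h1 : ρ r₁ * ρ (ss y) = ρ (rr y) * algebraMap Ω O (Ideal.Quotient.mk Q p) := by
    show algebraMap Ω O (ρ₀ r₁) * algebraMap Ω O (ρ₀ (ss y)) =
      algebraMap Ω O (ρ₀ (rr y)) * algebraMap Ω O (Ideal.Quotient.mk Q p)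
    rw [← map_mul (algebraMap Ω O), ← map_mul (algebraMap Ω O)]
    congr 1
    show Ideal.Quotient.mk Q (algebraMap R P r₁) * Ideal.Quotient.mk Q (algebraMap R P (ss y)) =
      Ideal.Quotient.mk Q (algebraMap R P (rr y)) * Ideal.Quotient.mk Q p
    rw [← map_mul (Ideal.Quotient.mk Q), ← map_mul (Ideal.Quotient.mk Q), Ideal.Quotient.eq]
    apply hJQ
    rw [hJ, sub_smul, sub_eq_zero, mul_smul, mul_smul, algebraMap_smul, algebraMap_smul,
      algebraMap_smul, ← hrs y hy, ← hp, smul_comm]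
  have h2 : ρ r₁ ≠ 0 := by
    rw [Ne, map_eq_zero_iff _ hρ]
    exact hr₁
  apply mul_left_cancel₀ h2
  rw [h1, mul_left_comm]
  congr 1
  have h3 := IsLocalization.mk'_spec' O (Ideal.Quotient.mk Q p)
    (⟨a, Submonoid.mem_powers a⟩ : Submonoid.powers a)
  exact h3

end target

section main
variable {R M : Type} [CommRing R] [IsDomain R] [CharZero R] [AddCommGroup M] [Module R M]

theorem caseN (P : Type) [CommRing P] [Algebra R P]
    [Module P M] [IsScalarTower R P M] [Algebra.FiniteType ℤ P] [Module.Finite P M]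
    (D : Set R) (hpow : ∀ δ ∈ D, ∀ i : ℕ, δ ^ i ∈ D) (B : Submodule R M)
    (htf : ∀ r : R, r ≠ 0 → ∀ b ∈ B, r • b = 0 → b = 0)
    (α : R) (hα : α ∈ D) (hunit : IsUnit α) (hα1 : ∀ k : ℕ, 0 < k → α ^ k - 1 ≠ 0)
    (x₁ : M) (hx₁B : x₁ ∈ B) (hx₁ : x₁ ≠ 0) :
    ∃ (O : Type) (_ : CommRing O) (_ : IsDomain O) (_ : CharZero O) (V : M → O → Prop),
      (∃ K, SegProp O K) ∧
      DataM O x₁ 1 (DomN D B x₁) (fun x y => x = y) (MulN D B x₁) V := by
  have hx₁' : ∀ r : R, r • x₁ = 0 → r = 0 := by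
    intro r hr
    by_contra hne
    exact hx₁ (htf r hne x₁ hx₁B hr)
  have hinj : ∀ k : ℕ, 0 < k → InjN B (α ^ k) := by
    intro k hk b hb h
    apply htf (α ^ k - 1) (hα1 k hk) b hb
    rw [sub_smul, one_smul, h, sub_self]
  have hDom1 : ∀ y, DomN D B x₁ y → ∃ r s : R, r ≠ 0 ∧ r • y = s • x₁ := by
    rintro y ⟨hyB, hy⟩
    refine dep_of_approx P B htf α hunit hα1 x₁ y hx₁B hyB hx₁ fun k hk => ?_
    obtain ⟨ε, -, b, hb, h⟩ := hy (α ^ k) (hpow α hα k) (hinj k hk)
    refine ⟨ε - 1, -b, B.neg_mem hb, ?_⟩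
    rw [h, smul_neg, smul_neg]
    abel
  obtain ⟨O, i1, i2, i3, ρ, hseg, hρ, hval⟩ := exists_target R P M x₁ hx₁' {y | DomN D B x₁ y} hDom1
  refine ⟨O, i1, i2, i3, fun y o => ∃ r s : R, r ≠ 0 ∧ r • y = s • x₁ ∧ ρ r * o = ρ s, hseg, ?_⟩
  have hρ0 : ∀ r : R, r ≠ 0 → ρ r ≠ 0 := fun r hr => by
    rw [Ne, map_eq_zero_iff _ hρ]
    exact hr
  have hcan : ∀ r : R, r ≠ 0 → ∀ y z, y ∈ B → z ∈ B → r • y = r • z → y = z := by
    intro r hr y z hy hz h
    rw [← sub_eq_zero]
    apply htf r hr _ (B.sub_mem hy hz)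
    rw [smul_sub, h, sub_self]
  have hVeq : ∀ x y : M, x ∈ B → y ∈ B → ∀ o o' : O,
      (∃ r s : R, r ≠ 0 ∧ r • x = s • x₁ ∧ ρ r * o = ρ s) →
      (∃ r s : R, r ≠ 0 ∧ r • y = s • x₁ ∧ ρ r * o' = ρ s) → (x = y ↔ o = o') := by
    rintro x y hx hy o o' ⟨r, s, hr, hrs, ho⟩ ⟨r', s', hr', hrs', ho'⟩
    constructor
    · rintro rfl
      have h1 : r' * s = r * s' := by
        rw [← sub_eq_zero]
        apply hx₁'
        rw [sub_smul, mul_smul, mul_smul, ← hrs, ← hrs', smul_comm, sub_self]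
      apply mul_left_cancel₀ (mul_ne_zero (hρ0 r hr) (hρ0 r' hr'))
      have h2 : ρ r' * ρ s = ρ r * ρ s' := by rw [← map_mul, h1, map_mul]
      linear_combination (ρ r') * ho - (ρ r) * ho' + h2
    · rintro rfl
      have h1 : r' * s = r * s' := by
        apply hρ
        rw [map_mul, map_mul, ← ho, ← ho']
        ring
      apply hcan (r * r') (mul_ne_zero hr hr') _ _ hx hy
      rw [mul_comm r r', mul_smul, hrs, mul_comm r' r, mul_smul, hrs', ← mul_smul, ← mul_smul, h1]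
  refine { hc := one_pos, dom := ?_, eq := ?_, fn := ?_, dom_pow := ?_, V_pow := ?_, add := ?_,
           mul := ?_, mul_pow := ?_ }
  · intro y hy
    exact hval y hy
  · intro x y o o' hx hy hxo hyo
    exact hVeq x y hx.1 hy.1 o o' hxo hyo
  · intro x o o' hx ho ho'
    exact (hVeq x x hx.1 hx.1 o o' ho ho').1 rfl
  · intro k
    refine ⟨nsmul_mem hx₁B k, fun δ hδ _ => ?_⟩
    obtain ⟨r, hr⟩ := pow_expandN δ k
    refine ⟨δ ^ k, hpow δ hδ k, r • x₁, B.smul_mem _ hx₁B, ?_⟩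
    rw [hr, add_smul, mul_smul, mul_smul, mul_smul, Nat.cast_smul_eq_nsmul]
  · intro k
    refine ⟨1, (k : R), one_ne_zero, ?_, ?_⟩
    · rw [one_smul, Nat.cast_smul_eq_nsmul]
    · rw [map_one, one_mul, map_natCast, one_mul]
  · rintro x y z a b d hx hy hz ⟨r, s, hr, hrs, hra⟩ ⟨r', s', hr', hrs', hrb⟩
      ⟨r'', s'', hr'', hrs'', hrd⟩ hxyz
    have h1 : r * r' * s'' = r'' * (r' * s + r * s') := by
      rw [← sub_eq_zero]
      apply hx₁'
      rw [sub_smul, mul_smul (r * r') s'', ← hrs'', mul_smul r'', add_smul, mul_smul r' s,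
        mul_smul r s', ← hrs, ← hrs', ← hxyz, ← mul_smul (r * r'), ← mul_smul r' r,
        ← mul_smul r r', smul_add, smul_add, ← mul_smul, ← mul_smul,
        show r'' * (r' * r) = r * r' * r'' by ring, show r'' * (r * r') = r * r' * r'' by ring,
        sub_self]
    have h2 := congrArg ρ h1
    simp only [map_mul, map_add] at h2
    apply mul_left_cancel₀ (mul_ne_zero (mul_ne_zero (hρ0 r hr) (hρ0 r' hr')) (hρ0 r'' hr''))
    linear_combination (ρ r' * ρ r'') * hra + (ρ r * ρ r'') * hrb - (ρ r * ρ r') * hrd - h2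
  · rintro y z w a b d hy hz hw ⟨r, s, hr, hrs, hra⟩ ⟨r', s', hr', hrs', hrb⟩
      ⟨r'', s'', hr'', hrs'', hrd⟩ hmul
    have key : r' • w = s' • y := by
      rw [← sub_eq_zero]
      refine Krull.eq_zero (P := P) (algebraMap R P α) (hunit.map _) _ fun k hk => ?_
      obtain ⟨ε, -, b, hb, b', hb', hE1, hE2⟩ := hmul (α ^ k) (hpow α hα k) (hinj k hk)
      refine ⟨s' • b - r' • b', ?_⟩
      have h0 : (algebraMap R P α) ^ k - 1 = algebraMap R P (α ^ k - 1) := by
        rw [map_sub, map_pow, map_one]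
      rw [h0, algebraMap_smul]
      have h1 : r' • (ε - 1) • z = s' • (ε - 1) • x₁ := by
        rw [smul_comm r', hrs', smul_comm]
      rw [hE1, hE2] at h1
      apply hcan (α ^ k - 1) (hα1 k hk)
      · exact B.sub_mem (B.smul_mem _ hw.1) (B.smul_mem _ hy.1)
      · exact B.smul_mem _ (B.sub_mem (B.smul_mem _ hb) (B.smul_mem _ hb'))
      · simp only [smul_add, smul_sub] at h1 ⊢
        rw [smul_comm (α ^ k - 1) r' w, smul_comm (α ^ k - 1) s' y, smul_comm (α ^ k - 1) s' b,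
          smul_comm (α ^ k - 1) s' ((α ^ k - 1) • b), smul_comm (α ^ k - 1) r' b',
          smul_comm (α ^ k - 1) r' ((α ^ k - 1) • b')]
        rw [sub_eq_sub_iff_add_eq_add]
        rw [h1]
        abel
    have h1 : r * r' * s'' = r'' * (s' * s) := by
      rw [← sub_eq_zero]
      apply hx₁'
      have h3 : (r * r' * r'') • w = (r'' * s' * r) • y := by
        have e1 : (r * r' * r'') • w = (r * r'') • r' • w := by
          rw [← mul_smul]
          congr 1
          ring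
        rw [e1, key, ← mul_smul]
        congr 1
        ring
      rw [sub_smul, mul_smul (r * r') s'', ← hrs'', ← mul_smul, h3, mul_smul _ r y, hrs, ← mul_smul,
        ← mul_assoc, sub_self]
    have h2 := congrArg ρ h1
    simp only [map_mul] at h2
    apply mul_left_cancel₀ (mul_ne_zero (mul_ne_zero (hρ0 r hr) (hρ0 r' hr')) (hρ0 r'' hr''))
    rw [Nat.cast_one, one_mul]
    linear_combination (ρ r' * ρ r'' * b) * hra + (ρ s * ρ r'') * hrb - (ρ r * ρ r') * hrd - h2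
  · intro i j δ hδ _
    obtain ⟨r, hr⟩ := pow_expandN δ i
    refine ⟨δ ^ i, hpow δ hδ i, r • x₁, B.smul_mem _ hx₁B, r • j • x₁,
      B.smul_mem _ (nsmul_mem hx₁B j), ?_, ?_⟩
    · rw [hr, add_smul, mul_smul, mul_smul, mul_smul, Nat.cast_smul_eq_nsmul]
    · rw [hr, add_smul, mul_smul, mul_smul, mul_smul, Nat.cast_smul_eq_nsmul, mul_smul]

end main

end Pool.Agent.Helper657_nd.Noeth
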