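import Pool.Agent.Helper657_nd.CaseS

set_option autoImplicit false

/-!
# Unipotent case: algebra
-/

namespace Pool.Agent.Helper657_nd.Weyl

section CaseU

variable {Y W : Type} [AddCommGroup Y] [AddCommGroup W]

/-- the kernel of `x` contains the kernel of `x₀` -/
def SubK (x₀ x : Y →ₗ[ℤ] W) : Prop := ∀ v, x₀ v = 0 → x v = 0

/-- the set of scalars -/
def K0U (X : Submodule ℤ (Y →ₗ[ℤ] W)) (x₀ : Y →ₗ[ℤ] W) (v₁ v : Y) : Prop :=
  ∀ x ∈ X, SubK x₀ x → ∃ x' ∈ X, SubK x₀ x' ∧ x v = x' v₁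

/-- the set of central scalars -/
def DomU (X : Submodule ℤ (Y →ₗ[ℤ] W)) (x₀ : Y →ₗ[ℤ] W) (v₁ v : Y) : Prop :=
  K0U X x₀ v₁ v ∧ ∀ v', K0U X x₀ v₁ v' → ∀ x ∈ X, SubK x₀ x → ∃ x₂ ∈ X, ∃ x₃ ∈ X,
    SubK x₀ x₂ ∧ SubK x₀ x₃ ∧ x v' = x₂ v₁ ∧ x v = x₃ v₁ ∧ x₂ v = x₃ v'

/-- multiplication of scalars -/
def MulU (X : Submodule ℤ (Y →ₗ[ℤ] W)) (x₀ : Y →ₗ[ℤ] W) (v₁ v v' v'' : Y) : Prop :=
  ∀ x ∈ X, SubK x₀ x → ∃ x₂ ∈ X, SubK x₀ x₂ ∧ x v' = x₂ v₁ ∧ x₂ v = x v''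

theorem caseU [Module.Finite ℤ Y] [Module.Finite ℤ W] [Module.IsTorsionFree ℤ W]
    (X : Submodule ℤ (Y →ₗ[ℤ] W)) (hX : X ≠ ⊥) :
    ∃ (O : Type) (_ : CommRing O) (_ : IsDomain O) (_ : CharZero O) (_ : Module.Finite ℤ O)
      (x₀ : Y →ₗ[ℤ] W) (_ : x₀ ∈ X) (v₁ : Y) (V : Y → O → Prop),
      DataM O v₁ 1 (DomU X x₀ v₁) (fun v v' => x₀ v = x₀ v') (MulU X x₀ v₁) V := by
  classical
  -- choose `x₀` with maximal kernel
  obtain ⟨y, hyX, hy0⟩ := (Submodule.ne_bot_iff X).1 hX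
  obtain ⟨K, ⟨x₀, ⟨hx₀X, hx₀0⟩, rfl⟩, hmax⟩ :=
    (set_has_maximal_iff_noetherian (R := ℤ) (M := Y)).2 inferInstance
      ((fun x : Y →ₗ[ℤ] W => LinearMap.ker x) '' {x | x ∈ X ∧ x ≠ 0}) ⟨_, y, ⟨hyX, hy0⟩, rfl⟩
  obtain ⟨v₁, hv₁⟩ : ∃ v₁, x₀ v₁ ≠ 0 := by
    by_contra hcon
    push Not at hcon
    exact hx₀0 (LinearMap.ext hcon)
  let X' : Submodule ℤ (Y →ₗ[ℤ] W) :=
    { carrier := {x | x ∈ X ∧ SubK x₀ x}
      add_mem' := by
        rintro x y ⟨hx, hx'⟩ ⟨hy, hy'⟩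
        exact ⟨X.add_mem hx hy, fun v hv => by rw [LinearMap.add_apply, hx' v hv, hy' v hv, add_zero]⟩
      zero_mem' := ⟨X.zero_mem, fun v _ => rfl⟩
      smul_mem' := by
        rintro a x ⟨hx, hx'⟩
        exact ⟨X.smul_mem a hx, fun v hv => by rw [LinearMap.smul_apply, hx' v hv, smul_zero]⟩ }
  have hker : ∀ x : Y →ₗ[ℤ] W, x ∈ X' → x ≠ 0 → ∀ v, x v = 0 → x₀ v = 0 := by
    rintro x ⟨hx, hx'⟩ h0 v hv
    by_contra hne
    apply hmax (LinearMap.ker x) ⟨x, ⟨hx, h0⟩, rfl⟩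
    refine lt_of_le_of_ne ?_ ?_
    · intro w hw
      exact hx' w hw
    · intro he
      have : v ∈ LinearMap.ker x₀ := by
        show v ∈ (fun x : Y →ₗ[ℤ] W => LinearMap.ker x) x₀
        rw [he]
        exact hv
      exact hne this
  have hinj : ∀ x ∈ X', ∀ y ∈ X', x v₁ = y v₁ → x = y := by
    intro x hx y hy hxy
    by_contra hne
    have h1 : x - y ∈ X' := X'.sub_mem hx hy
    exact hv₁ (hker _ h1 (sub_ne_zero.2 hne) v₁ (by rw [LinearMap.sub_apply, hxy, sub_self]))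
  have hx₀X' : x₀ ∈ X' := ⟨hx₀X, fun v hv => hv⟩
  -- the endomorphisms
  let T : Set (Module.End ℤ X') := {θ | ∃ v, K0U X x₀ v₁ v ∧ ∀ x : X', (θ x : Y →ₗ[ℤ] W) v₁ =
    (x : Y →ₗ[ℤ] W) v}
  have hθ : ∀ v, K0U X x₀ v₁ v → ∃ θ : Module.End ℤ X', ∀ x : X', (θ x : Y →ₗ[ℤ] W) v₁ =
      (x : Y →ₗ[ℤ] W) v := by
    intro v hv
    choose! F hF1 hF2 hF3 using hv
    refine ⟨{ toFun := fun x => ⟨F x, hF1 x x.2.1 x.2.2, hF2 x x.2.1 x.2.2⟩
              map_add' := ?_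
              map_smul' := ?_ }, ?_⟩
    · intro x y
      apply Subtype.ext
      apply hinj
      · exact ⟨hF1 _ (x + y).2.1 (x + y).2.2, hF2 _ (x + y).2.1 (x + y).2.2⟩
      · exact X'.add_mem ⟨hF1 x x.2.1 x.2.2, hF2 x x.2.1 x.2.2⟩ ⟨hF1 y y.2.1 y.2.2, hF2 y y.2.1 y.2.2⟩
      · rw [← hF3 _ (x + y).2.1 (x + y).2.2]
        show _ = (F x + F y) v₁
        rw [LinearMap.add_apply, ← hF3 x x.2.1 x.2.2, ← hF3 y y.2.1 y.2.2]
        rfl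
    · intro a x
      apply Subtype.ext
      apply hinj
      · exact ⟨hF1 _ (a • x).2.1 (a • x).2.2, hF2 _ (a • x).2.1 (a • x).2.2⟩
      · exact X'.smul_mem a ⟨hF1 x x.2.1 x.2.2, hF2 x x.2.1 x.2.2⟩
      · rw [← hF3 _ (a • x).2.1 (a • x).2.2]
        show _ = (a • F x) v₁
        rw [LinearMap.smul_apply, ← hF3 x x.2.1 x.2.2]
        rfl
    · intro x
      exact (hF3 x x.2.1 x.2.2).symm
  let S := Subring.closure T
  let R := Subring.center S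
  have hR : ∀ v, DomU X x₀ v₁ v → ∃ r : R, ∀ x : X', ((r • x : X') : Y →ₗ[ℤ] W) v₁ =
      (x : Y →ₗ[ℤ] W) v := by
    intro v hv
    obtain ⟨θ, hθv⟩ := hθ v hv.1
    have hθS : θ ∈ S := Subring.subset_closure ⟨v, hv.1, hθv⟩
    have hcomm : ∀ τ ∈ T, τ * θ = θ * τ := by
      rintro τ ⟨v', hv', hτ⟩
      ext1 x
      apply Subtype.ext
      apply hinj _ (Subtype.prop _) _ (Subtype.prop _)
      obtain ⟨x₂, hx₂, x₃, hx₃, hs₂, hs₃, e1, e2, e3⟩ := hv.2 v' hv' x x.2.1 x.2.2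
      have h1 : ((τ x : X') : Y →ₗ[ℤ] W) = x₂ :=
        hinj _ (Subtype.prop _) _ ⟨hx₂, hs₂⟩ ((hτ x).trans e1)
      have h2 : ((θ x : X') : Y →ₗ[ℤ] W) = x₃ :=
        hinj _ (Subtype.prop _) _ ⟨hx₃, hs₃⟩ ((hθv x).trans e2)
      show ((τ (θ x) : X') : Y →ₗ[ℤ] W) v₁ = ((θ (τ x) : X') : Y →ₗ[ℤ] W) v₁
      rw [hτ, hθv, h1, h2]
      exact e3.symm
    have hcen : (⟨θ, hθS⟩ : S) ∈ Subring.center S := by
      rw [Subring.mem_center_iff]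
      rintro ⟨σ, hσ⟩
      apply Subtype.ext
      show σ * θ = θ * σ
      have hle : S ≤ Subring.centralizer {θ} := by
        rw [Subring.closure_le]
        intro τ hτ
        rw [SetLike.mem_coe, Subring.mem_centralizer_iff]
        intro g hg
        rw [Set.mem_singleton_iff] at hg
        rw [hg]
        exact (hcomm τ hτ).symm
      have := Subring.mem_centralizer_iff.1 (hle hσ) θ rfl
      exact this.symm
    exact ⟨⟨⟨θ, hθS⟩, hcen⟩, fun x => hθv x⟩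
  -- module structure
  have hfinR : Module.Finite ℤ R := by
    let g : R →ₗ[ℤ] Module.End ℤ X' :=
      { toFun := fun r => ((r : S) : Module.End ℤ X')
        map_add' := fun _ _ => rfl
        map_smul' := fun a r => by simp }
    refine Module.Finite.of_injective g ?_
    intro a b hab
    exact Subtype.ext (Subtype.ext hab)
  have hnoeth : IsNoetherianRing R := IsNoetherianRing.of_finite ℤ R
  have hnt : Nontrivial X' := ⟨⟨⟨x₀, hx₀X'⟩, 0, fun h => hx₀0 (congrArg Subtype.val h)⟩⟩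
  obtain ⟨P, hP⟩ := associatedPrimes.nonempty R X'
  have hP' := (isAssociatedPrime_iff_exists_injective_linearMap P X').1 hP
  obtain ⟨hprime, f, hf⟩ := hP'
  let x₂ : X' := f 1
  have hann : ∀ r : R, r • x₂ = 0 ↔ r ∈ P := by
    intro r
    have h1 : f (Ideal.Quotient.mk P r) = r • f 1 := by
      rw [← map_smul]
      exact congrArg f (Algebra.algebraMap_eq_smul_one r)
    rw [show r • x₂ = f (Ideal.Quotient.mk P r) from h1.symm, map_eq_zero_iff f hf,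
      Ideal.Quotient.eq_zero_iff_mem]
  have hx₂0 : x₂ ≠ 0 := by
    intro h0
    apply hprime.ne_top
    rw [Ideal.eq_top_iff_one, ← hann, h0, smul_zero]
  have htfX : ∀ (n : ℕ) (x : X'), n ≠ 0 → n • x = 0 → x = 0 := by
    intro n x hn h
    apply Subtype.ext
    ext v
    have h1 : ((n • x : X') : Y →ₗ[ℤ] W) v = 0 := by rw [h]; rfl
    have h2 : (n : ℤ) • ((x : Y →ₗ[ℤ] W) v) = 0 := by
      rw [natCast_zsmul]
      exact h1
    exact (smul_eq_zero.1 h2).resolve_left (by exact_mod_cast hn)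
  have hcz : CharZero (R ⧸ P) := by
    refine charZero_of_inj_zero fun n hn => ?_
    by_contra hne
    have h1 : (n : R) ∈ P := by
      rw [← Ideal.Quotient.eq_zero_iff_mem]
      simpa using hn
    rw [← hann, Nat.cast_smul_eq_nsmul] at h1
    exact hx₂0 (htfX n x₂ hne h1)
  have hO : ∀ r s : R, Ideal.Quotient.mk P r = Ideal.Quotient.mk P s ↔
      ((r • x₂ : X') : Y →ₗ[ℤ] W) v₁ = ((s • x₂ : X') : Y →ₗ[ℤ] W) v₁ := by
    intro r s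
    rw [Ideal.Quotient.eq, ← hann, sub_smul, sub_eq_zero]
    constructor
    · intro h
      rw [h]
    · intro h
      exact Subtype.ext (hinj _ (Subtype.prop _) _ (Subtype.prop _) h)
  have hx₂ker : ∀ v, ((x₂ : X') : Y →ₗ[ℤ] W) v = 0 ↔ x₀ v = 0 := by
    intro v
    constructor
    · exact hker _ x₂.2 (fun h => hx₂0 (Subtype.ext h)) v
    · exact x₂.2.2 v
  have hVeq : ∀ v v' : Y, ∀ o o' : R ⧸ P,
      (∃ r : R, (∀ x : X', ((r • x : X') : Y →ₗ[ℤ] W) v₁ = (x : Y →ₗ[ℤ] W) v) ∧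
        o = Ideal.Quotient.mk P r) →
      (∃ r : R, (∀ x : X', ((r • x : X') : Y →ₗ[ℤ] W) v₁ = (x : Y →ₗ[ℤ] W) v') ∧
        o' = Ideal.Quotient.mk P r) → (x₀ v = x₀ v' ↔ o = o') := by
    rintro v v' o o' ⟨r, hr, rfl⟩ ⟨s, hs, rfl⟩
    rw [hO, hr, hs, ← sub_eq_zero, ← map_sub, ← hx₂ker, map_sub, sub_eq_zero]
  refine ⟨R ⧸ P, inferInstance, Ideal.Quotient.isDomain P, hcz, inferInstance, x₀, hx₀X, v₁,
    fun v o => ∃ r : R, (∀ x : X', ((r • x : X') : Y →ₗ[ℤ] W) v₁ = (x : Y →ₗ[ℤ] W) v) ∧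
        o = Ideal.Quotient.mk P r, ?_⟩
  refine { hc := one_pos, dom := ?_, eq := ?_, fn := ?_, dom_pow := ?_, V_pow := ?_, add := ?_,
           mul := ?_, mul_pow := ?_ }
  · intro v hv
    obtain ⟨r, hr⟩ := hR v hv
    exact ⟨_, r, hr, rfl⟩
  · intro x y o o' _ _ hx hy
    exact hVeq x y o o' hx hy
  · intro x o o' _ hx hx'
    exact (hVeq x x o o' hx hx').1 rfl
  · intro k
    have h0 : K0U X x₀ v₁ (k • v₁) := by
      intro x hx hxs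
      refine ⟨k • x, X.smul_of_tower_mem k hx, fun v hv => ?_, ?_⟩
      · rw [LinearMap.smul_apply, hxs v hv, smul_zero]
      · rw [map_nsmul, LinearMap.smul_apply]
    refine ⟨h0, fun v' hv' x hx hxs => ?_⟩
    obtain ⟨x', hx', hxs', e⟩ := hv' x hx hxs
    refine ⟨x', hx', k • x, X.smul_of_tower_mem k hx, hxs', fun v hv => ?_, e, ?_, ?_⟩
    · rw [LinearMap.smul_apply, hxs v hv, smul_zero]
    · rw [map_nsmul, LinearMap.smul_apply]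
    · rw [map_nsmul, LinearMap.smul_apply, e]
  · intro k
    refine ⟨(k : R), fun x => ?_, by simp⟩
    rw [Nat.cast_smul_eq_nsmul, map_nsmul]
    rfl
  · rintro x y z _ _ _ _ _ _ ⟨r, hr, rfl⟩ ⟨s, hs, rfl⟩ ⟨u, hu, rfl⟩ rfl
    rw [← map_add, hO, add_smul, hu]
    show ((r • x₂ : X') : Y →ₗ[ℤ] W) v₁ + ((s • x₂ : X') : Y →ₗ[ℤ] W) v₁ = _
    rw [hr, hs, map_add]
  · rintro y z w _ _ _ hy hz hw ⟨ry, hry, rfl⟩ ⟨rz, hrz, rfl⟩ ⟨rw', hrw, rfl⟩ hmul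
    rw [Nat.cast_one, one_mul, ← map_mul, hO, mul_smul, hry, hrw]
    obtain ⟨x₃, hx₃, hs₃, e1, e2⟩ := hmul x₂ x₂.2.1 x₂.2.2
    have h1 : ((rz • x₂ : X') : Y →ₗ[ℤ] W) = x₃ :=
      hinj _ (Subtype.prop _) _ ⟨hx₃, hs₃⟩ ((hrz x₂).trans e1)
    rw [h1, e2]
  · intro i j x hx hxs
    refine ⟨j • x, X.smul_of_tower_mem j hx, fun v hv => ?_, ?_, ?_⟩
    · rw [LinearMap.smul_apply, hxs v hv, smul_zero]
    · rw [map_nsmul, LinearMap.smul_apply]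
    · rw [map_nsmul, map_nsmul, LinearMap.smul_apply, ← mul_smul]

end CaseU

end Pool.Agent.Helper657_nd.Weyl
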