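import Pool.Agent.Helper657_nd.CaseU
import Pool.Agent.Helper657_nd.MMB

set_option autoImplicit false

/-!
# Unipotent case: algebra, minimax groups
-/

namespace Pool.Agent.Helper657_nd.Weyl

open Seg

/-- An element with prime annihilator. -/
theorem exists_prime_ann {R X : Type} [CommRing R] [AddCommGroup X] [Module R X] [Nontrivial X]
    (hR : FR R) (htfX : ∀ (n : ℕ) (x : X), n ≠ 0 → n • x = 0 → x = 0) :
    ∃ (x₂ : X) (P : Ideal R), x₂ ≠ 0 ∧ P.IsPrime ∧ ∀ r : R, r • x₂ = 0 ↔ r ∈ P := by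
  obtain ⟨x₂', hx₂'⟩ := exists_ne (0 : X)
  let annZ : X → Submodule ℤ R := fun x =>
    { carrier := {r | r • x = 0}
      add_mem' := fun {a b} ha hb => by
        show (a + b) • x = 0
        rw [add_smul, show a • x = 0 from ha, show b • x = 0 from hb, add_zero]
      zero_mem' := zero_smul R x
      smul_mem' := fun c a ha => by
        show (c • a) • x = 0
        rw [smul_assoc, show a • x = 0 from ha, smul_zero] }
  have hannZ : ∀ x r, r ∈ annZ x ↔ r • x = 0 := fun x r => Iff.rfl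
  obtain ⟨_, ⟨x₂, hx₂0, rfl⟩, hmax₂⟩ := hR.exists_max
    (fun P => ∃ x : X, x ≠ 0 ∧ P = annZ x) ⟨_, x₂', hx₂', rfl⟩ (by
      rintro _ ⟨x, _, rfl⟩ n r hn hr
      rw [hannZ, smul_assoc] at hr
      exact htfX n _ hn hr)
  let P : Ideal R :=
    { carrier := {r | r • x₂ = 0}
      add_mem' := fun {a b} ha hb => by
        show (a + b) • x₂ = 0
        rw [add_smul, show a • x₂ = 0 from ha, show b • x₂ = 0 from hb, add_zero]
      zero_mem' := zero_smul R x₂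
      smul_mem' := fun c a ha => by
        show (c * a) • x₂ = 0
        rw [mul_smul, show a • x₂ = 0 from ha, smul_zero] }
  have hann : ∀ r : R, r • x₂ = 0 ↔ r ∈ P := fun r => Iff.rfl
  have hprime : P.IsPrime := by
    refine ⟨fun h => hx₂0 ?_, fun {a b} hab => ?_⟩
    · have h1 : (1 : R) ∈ P := by rw [h]; exact Submodule.mem_top
      rw [← hann, one_smul] at h1
      exact h1
    · by_cases hb : b • x₂ = 0
      · exact Or.inr hb
      · left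
        have h1 := hmax₂ (annZ (b • x₂)) ⟨_, hb, rfl⟩ (by
          intro r hr
          rw [hannZ] at hr ⊢
          rw [smul_comm, hr, smul_zero])
        have h2 : a ∈ annZ (b • x₂) := by
          rw [hannZ, ← mul_smul]
          exact hab
        exact h1 h2
  exact ⟨x₂, P, hx₂0, hprime, hann⟩

section CaseU

variable {Y W : Type} [AddCommGroup Y] [AddCommGroup W]

theorem caseU2 {s : ℕ} (hs : 0 < s) (hY : MM s Y) (hW : MM s W)
    (htfW : ∀ (n : ℕ) (y : W), n ≠ 0 → n • y = 0 → y = 0)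
    (X : Submodule ℤ (Y →ₗ[ℤ] W)) (hX : X ≠ ⊥) :
    ∃ (O : Type) (_ : CommRing O) (_ : IsDomain O) (_ : CharZero O)
      (x₀ : Y →ₗ[ℤ] W) (_ : x₀ ∈ X) (v₁ : Y) (V : Y → O → Prop), MM s O ∧
      DataM O v₁ 1 (DomU X x₀ v₁) (fun v v' => x₀ v = x₀ v') (MulU X x₀ v₁) V := by
  classical
  -- choose `x₀` with maximal kernel
  obtain ⟨y, hyX, hy0⟩ := (Submodule.ne_bot_iff X).1 hX
  obtain ⟨_, ⟨x₀, hx₀X, hx₀0, rfl⟩, hmax⟩ := (hY.fr hs).exists_max
    (fun P => ∃ x : Y →ₗ[ℤ] W, x ∈ X ∧ x ≠ 0 ∧ P = LinearMap.ker x) ⟨_, y, hyX, hy0, rfl⟩ (by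
      rintro _ ⟨x, _, _, rfl⟩ n z hn hz
      rw [LinearMap.mem_ker, map_nsmul] at hz
      exact htfW n _ hn hz)
  obtain ⟨v₁, hv₁⟩ : ∃ v₁, x₀ v₁ ≠ 0 := by
    by_contra hcon
    push Not at hcon
    exact hx₀0 (LinearMap.ext hcon)
  let X' : Submodule ℤ (Y →ₗ[ℤ] W) :=
    { carrier := {x | x ∈ X ∧ SubK x₀ x}
      add_mem' := by
        rintro x y ⟨hx, hx'⟩ ⟨hy, hy'⟩
        exact ⟨X.add_mem hx hy, fun v hv => by rw [LinearMap.add_apply, hx' v hv, hy' v hv, add_zero]⟩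
      zero_mem' := ⟨X.zero_mem, fun v _ => rfl⟩
      smul_mem' := by
        rintro a x ⟨hx, hx'⟩
        exact ⟨X.smul_mem a hx, fun v hv => by rw [LinearMap.smul_apply, hx' v hv, smul_zero]⟩ }
  have hker : ∀ x : Y →ₗ[ℤ] W, x ∈ X' → x ≠ 0 → ∀ v, x v = 0 → x₀ v = 0 := by
    rintro x ⟨hx, hx'⟩ h0 v hv
    exact hmax (LinearMap.ker x) ⟨x, hx, h0, rfl⟩ (fun w hw => hx' w hw) hv
  have hinj : ∀ x ∈ X', ∀ y ∈ X', x v₁ = y v₁ → x = y := by
    intro x hx y hy hxy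
    by_contra hne
    have h1 : x - y ∈ X' := X'.sub_mem hx hy
    exact hv₁ (hker _ h1 (sub_ne_zero.2 hne) v₁ (by rw [LinearMap.sub_apply, hxy, sub_self]))
  have hx₀X' : x₀ ∈ X' := ⟨hx₀X, fun v hv => hv⟩
  -- the endomorphisms
  let T : Set (Module.End ℤ X') := {θ | ∃ v, K0U X x₀ v₁ v ∧ ∀ x : X', (θ x : Y →ₗ[ℤ] W) v₁ =
    (x : Y →ₗ[ℤ] W) v}
  have hθ : ∀ v, K0U X x₀ v₁ v → ∃ θ : Module.End ℤ X', ∀ x : X', (θ x : Y →ₗ[ℤ] W) v₁ =
      (x : Y →ₗ[ℤ] W) v := by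
    intro v hv
    choose! F hF1 hF2 hF3 using hv
    refine ⟨{ toFun := fun x => ⟨F x, hF1 x x.2.1 x.2.2, hF2 x x.2.1 x.2.2⟩
              map_add' := ?_
              map_smul' := ?_ }, ?_⟩
    · intro x y
      apply Subtype.ext
      apply hinj
      · exact ⟨hF1 _ (x + y).2.1 (x + y).2.2, hF2 _ (x + y).2.1 (x + y).2.2⟩
      · exact X'.add_mem ⟨hF1 x x.2.1 x.2.2, hF2 x x.2.1 x.2.2⟩ ⟨hF1 y y.2.1 y.2.2, hF2 y y.2.1 y.2.2⟩
      · rw [← hF3 _ (x + y).2.1 (x + y).2.2]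
        show _ = (F x + F y) v₁
        rw [LinearMap.add_apply, ← hF3 x x.2.1 x.2.2, ← hF3 y y.2.1 y.2.2]
        rfl
    · intro a x
      apply Subtype.ext
      apply hinj
      · exact ⟨hF1 _ (a • x).2.1 (a • x).2.2, hF2 _ (a • x).2.1 (a • x).2.2⟩
      · exact X'.smul_mem a ⟨hF1 x x.2.1 x.2.2, hF2 x x.2.1 x.2.2⟩
      · rw [← hF3 _ (a • x).2.1 (a • x).2.2]
        show _ = (a • F x) v₁
        rw [LinearMap.smul_apply, ← hF3 x x.2.1 x.2.2]
        rfl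
    · intro x
      exact (hF3 x x.2.1 x.2.2).symm
  let S := Subring.closure T
  let R := Subring.center S
  have hR : ∀ v, DomU X x₀ v₁ v → ∃ r : R, ∀ x : X', ((r • x : X') : Y →ₗ[ℤ] W) v₁ =
      (x : Y →ₗ[ℤ] W) v := by
    intro v hv
    obtain ⟨θ, hθv⟩ := hθ v hv.1
    have hθS : θ ∈ S := Subring.subset_closure ⟨v, hv.1, hθv⟩
    have hcomm : ∀ τ ∈ T, τ * θ = θ * τ := by
      rintro τ ⟨v', hv', hτ⟩
      ext1 x
      apply Subtype.ext
      apply hinj _ (Subtype.prop _) _ (Subtype.prop _)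
      obtain ⟨x₂, hx₂, x₃, hx₃, hs₂, hs₃, e1, e2, e3⟩ := hv.2 v' hv' x x.2.1 x.2.2
      have h1 : ((τ x : X') : Y →ₗ[ℤ] W) = x₂ :=
        hinj _ (Subtype.prop _) _ ⟨hx₂, hs₂⟩ ((hτ x).trans e1)
      have h2 : ((θ x : X') : Y →ₗ[ℤ] W) = x₃ :=
        hinj _ (Subtype.prop _) _ ⟨hx₃, hs₃⟩ ((hθv x).trans e2)
      show ((τ (θ x) : X') : Y →ₗ[ℤ] W) v₁ = ((θ (τ x) : X') : Y →ₗ[ℤ] W) v₁
      rw [hτ, hθv, h1, h2]
      exact e3.symm
    have hcen : (⟨θ, hθS⟩ : S) ∈ Subring.center S := by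
      rw [Subring.mem_center_iff]
      rintro ⟨σ, hσ⟩
      apply Subtype.ext
      show σ * θ = θ * σ
      have hle : S ≤ Subring.centralizer {θ} := by
        rw [Subring.closure_le]
        intro τ hτ
        rw [SetLike.mem_coe, Subring.mem_centralizer_iff]
        intro g hg
        rw [Set.mem_singleton_iff] at hg
        rw [hg]
        exact (hcomm τ hτ).symm
      have := Subring.mem_centralizer_iff.1 (hle hσ) θ rfl
      exact this.symm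
    exact ⟨⟨⟨θ, hθS⟩, hcen⟩, fun x => hθv x⟩
  -- module structure
  have htfX : ∀ (n : ℕ) (x : X'), n ≠ 0 → n • x = 0 → x = 0 := by
    intro n x hn h
    apply Subtype.ext
    ext v
    have h1 : ((n • x : X') : Y →ₗ[ℤ] W) v = 0 := by rw [h]; rfl
    exact htfW n _ hn h1
  have hMMX : MM s X' := (MM.hom hs htfW hY hW).sub X'
  have hMMR : MM s R := by
    let g : R →+ Module.End ℤ X' :=
      { toFun := fun r => ((r : S) : Module.End ℤ X')
        map_zero' := rfl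
        map_add' := fun _ _ => rfl }
    refine (MM.end_ hs htfX hMMX).of_injective g ?_
    intro a b hab
    exact Subtype.ext (Subtype.ext hab)
  have hnt : Nontrivial X' := ⟨⟨⟨x₀, hx₀X'⟩, 0, fun h => hx₀0 (congrArg Subtype.val h)⟩⟩
  obtain ⟨x₂, P, hx₂0, hprime, hann⟩ := exists_prime_ann (R := R) (X := X') (hMMR.fr hs) htfX
  have hcz : CharZero (R ⧸ P) := by
    refine charZero_of_inj_zero fun n hn => ?_
    by_contra hne
    have h1 : (n : R) ∈ P := by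
      rw [← Ideal.Quotient.eq_zero_iff_mem]
      simpa using hn
    rw [← hann, Nat.cast_smul_eq_nsmul] at h1
    exact hx₂0 (htfX n x₂ hne h1)
  have hO : ∀ r s : R, Ideal.Quotient.mk P r = Ideal.Quotient.mk P s ↔
      ((r • x₂ : X') : Y →ₗ[ℤ] W) v₁ = ((s • x₂ : X') : Y →ₗ[ℤ] W) v₁ := by
    intro r s
    rw [Ideal.Quotient.eq, ← hann, sub_smul, sub_eq_zero]
    constructor
    · intro h
      rw [h]
    · intro h
      exact Subtype.ext (hinj _ (Subtype.prop _) _ (Subtype.prop _) h)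
  have hx₂ker : ∀ v, ((x₂ : X') : Y →ₗ[ℤ] W) v = 0 ↔ x₀ v = 0 := by
    intro v
    constructor
    · exact hker _ x₂.2 (fun h => hx₂0 (Subtype.ext h)) v
    · exact x₂.2.2 v
  have hVeq : ∀ v v' : Y, ∀ o o' : R ⧸ P,
      (∃ r : R, (∀ x : X', ((r • x : X') : Y →ₗ[ℤ] W) v₁ = (x : Y →ₗ[ℤ] W) v) ∧
        o = Ideal.Quotient.mk P r) →
      (∃ r : R, (∀ x : X', ((r • x : X') : Y →ₗ[ℤ] W) v₁ = (x : Y →ₗ[ℤ] W) v') ∧
        o' = Ideal.Quotient.mk P r) → (x₀ v = x₀ v' ↔ o = o') := by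
    rintro v v' o o' ⟨r, hr, rfl⟩ ⟨s, hs, rfl⟩
    rw [hO, hr, hs, ← sub_eq_zero, ← map_sub, ← hx₂ker, map_sub, sub_eq_zero]
  refine ⟨R ⧸ P, inferInstance, Ideal.Quotient.isDomain P, hcz, x₀, hx₀X, v₁,
    fun v o => ∃ r : R, (∀ x : X', ((r • x : X') : Y →ₗ[ℤ] W) v₁ = (x : Y →ₗ[ℤ] W) v) ∧
        o = Ideal.Quotient.mk P r,
    hMMR.of_surjective (Ideal.Quotient.mk P).toAddMonoidHom Ideal.Quotient.mk_surjective, ?_⟩
  refine { hc := one_pos, dom := ?_, eq := ?_, fn := ?_, dom_pow := ?_, V_pow := ?_, add := ?_,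
           mul := ?_, mul_pow := ?_ }
  · intro v hv
    obtain ⟨r, hr⟩ := hR v hv
    exact ⟨_, r, hr, rfl⟩
  · intro x y o o' _ _ hx hy
    exact hVeq x y o o' hx hy
  · intro x o o' _ hx hx'
    exact (hVeq x x o o' hx hx').1 rfl
  · intro k
    have h0 : K0U X x₀ v₁ (k • v₁) := by
      intro x hx hxs
      refine ⟨k • x, X.smul_of_tower_mem k hx, fun v hv => ?_, ?_⟩
      · rw [LinearMap.smul_apply, hxs v hv, smul_zero]
      · rw [map_nsmul, LinearMap.smul_apply]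
    refine ⟨h0, fun v' hv' x hx hxs => ?_⟩
    obtain ⟨x', hx', hxs', e⟩ := hv' x hx hxs
    refine ⟨x', hx', k • x, X.smul_of_tower_mem k hx, hxs', fun v hv => ?_, e, ?_, ?_⟩
    · rw [LinearMap.smul_apply, hxs v hv, smul_zero]
    · rw [map_nsmul, LinearMap.smul_apply]
    · rw [map_nsmul, LinearMap.smul_apply, e]
  · intro k
    refine ⟨(k : R), fun x => ?_, by simp⟩
    rw [Nat.cast_smul_eq_nsmul, map_nsmul]
    rfl
  · rintro x y z _ _ _ _ _ _ ⟨r, hr, rfl⟩ ⟨s, hs, rfl⟩ ⟨u, hu, rfl⟩ rfl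
    rw [← map_add, hO, add_smul, hu]
    show ((r • x₂ : X') : Y →ₗ[ℤ] W) v₁ + ((s • x₂ : X') : Y →ₗ[ℤ] W) v₁ = _
    rw [hr, hs, map_add]
  · rintro y z w _ _ _ hy hz hw ⟨ry, hry, rfl⟩ ⟨rz, hrz, rfl⟩ ⟨rw', hrw, rfl⟩ hmul
    rw [Nat.cast_one, one_mul, ← map_mul, hO, mul_smul, hry, hrw]
    obtain ⟨x₃, hx₃, hs₃, e1, e2⟩ := hmul x₂ x₂.2.1 x₂.2.2
    have h1 : ((rz • x₂ : X') : Y →ₗ[ℤ] W) = x₃ :=
      hinj _ (Subtype.prop _) _ ⟨hx₃, hs₃⟩ ((hrz x₂).trans e1)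
    rw [h1, e2]
  · intro i j x hx hxs
    refine ⟨j • x, X.smul_of_tower_mem j hx, fun v hv => ?_, ?_, ?_⟩
    · rw [LinearMap.smul_apply, hxs v hv, smul_zero]
    · rw [map_nsmul, LinearMap.smul_apply]
    · rw [map_nsmul, map_nsmul, LinearMap.smul_apply, ← mul_smul]

end CaseU

end Pool.Agent.Helper657_nd.Weyl
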