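import Pool.Agent.Helper657_nd.Rings
import Pool.Agent.Helper657_nd.SegFT
import Pool.Agent.Helper657_nd.CaseS

set_option autoImplicit false

/-!
# The unipotent case for bilinear maps of Noetherian type: algebra
-/

namespace Pool.Agent.Helper657_nd.Noeth

open Seg Weyl

section defs
variable {Y L : Type} [AddCommGroup Y] [AddCommGroup L]

def SubKN (x₀ x : Y →+ L) : Prop := ∀ v, x₀ v = 0 → x v = 0

/-- the set of scalars -/
def K0N (X : AddSubgroup (Y →+ L)) (x₀ : Y →+ L) (v₁ v : Y) : Prop :=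
  ∀ x ∈ X, SubKN x₀ x → ∃ x' ∈ X, SubKN x₀ x' ∧ x' v₁ = x v

/-- the set of central scalars -/
def DomUN (X : AddSubgroup (Y →+ L)) (x₀ : Y →+ L) (v₁ v : Y) : Prop :=
  K0N X x₀ v₁ v ∧ ∀ v', K0N X x₀ v₁ v' → ∃ w, ∀ x ∈ X, SubKN x₀ x → ∃ x₂ ∈ X, ∃ x₃ ∈ X,
    SubKN x₀ x₂ ∧ SubKN x₀ x₃ ∧ x₂ v₁ = x v' ∧ x₃ v₁ = x v ∧ x₂ v = x w ∧ x₃ v' = x w

/-- multiplication of scalars -/
def MulUN (X : AddSubgroup (Y →+ L)) (x₀ : Y →+ L) (v₁ y z w : Y) : Prop :=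
  ∀ x ∈ X, SubKN x₀ x → ∃ x' ∈ X, SubKN x₀ x' ∧ x' v₁ = x z ∧ x' y = x w

end defs

section main
variable {Y L : Type} [AddCommGroup Y] [AddCommGroup L]

theorem caseUN (R₁ : Type) [CommRing R₁] [Algebra.FiniteType ℤ R₁] [Module R₁ L]
    (htfL : ∀ (n : ℕ) (x : L), n ≠ 0 → n • x = 0 → x = 0)
    (X : AddSubgroup (Y →+ L)) (x₀ : Y →+ L) (hx₀X : x₀ ∈ X) (v₁ : Y) (hx₀v₁ : x₀ v₁ ≠ 0)
    (hmax : ∀ x ∈ X, x ≠ 0 → SubKN x₀ x → ∀ v, x v = 0 → x₀ v = 0)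
    (Γ : Submodule R₁ ({x : Y →+ L // x ∈ X ∧ SubKN x₀ x} → L)) (hΓ : Γ.FG)
    (hΓmem : ∀ v, (fun x : {x : Y →+ L // x ∈ X ∧ SubKN x₀ x} => x.1 v) ∈ Γ) :
    ∃ (O : Type) (_ : CommRing O) (_ : IsDomain O) (_ : CharZero O) (V : Y → O → Prop),
      (∃ K, SegProp O K) ∧
      DataM O v₁ 1 (DomUN X x₀ v₁) (fun v v' => x₀ v = x₀ v') (MulUN X x₀ v₁) V := by
  classical
  have hnoeth : IsNoetherianRing R₁ := Algebra.FiniteType.isNoetherianRing ℤ R₁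
  let X' := {x : Y →+ L // x ∈ X ∧ SubKN x₀ x}
  have hadd : ∀ x y : X', x.1 + y.1 ∈ X ∧ SubKN x₀ (x.1 + y.1) := fun x y =>
    ⟨X.add_mem x.2.1 y.2.1, fun v hv => by
      rw [AddMonoidHom.add_apply, x.2.2 v hv, y.2.2 v hv, add_zero]⟩
  have hneg : ∀ x : X', -x.1 ∈ X ∧ SubKN x₀ (-x.1) := fun x =>
    ⟨X.neg_mem x.2.1, fun v hv => by rw [AddMonoidHom.neg_apply, x.2.2 v hv, neg_zero]⟩
  have hzero : (0 : Y →+ L) ∈ X ∧ SubKN x₀ 0 := ⟨X.zero_mem, fun v _ => rfl⟩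
  have hinj0 : ∀ x : X', x.1 v₁ = 0 → x.1 = 0 := by
    intro x hx
    by_contra hne
    exact hx₀v₁ (hmax x.1 x.2.1 hne x.2.2 v₁ hx)
  have hinj : ∀ x y : X', x.1 v₁ = y.1 v₁ → x = y := by
    intro x y h
    apply Subtype.ext
    have h1 := hinj0 ⟨x.1 + -y.1, hadd x ⟨-y.1, hneg y⟩⟩ (by
      show x.1 v₁ + -(y.1 v₁) = 0
      rw [h, add_neg_cancel])
    exact add_neg_eq_zero.1 h1
  let z : Y → X' → L := fun v x => x.1 v
  let Z : Submodule R₁ (X' → L) := Submodule.span R₁ {f | ∃ v, K0N X x₀ v₁ v ∧ f = z v}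
  have hZΓ : Z ≤ Γ := by
    rw [Submodule.span_le]
    rintro _ ⟨v, -, rfl⟩
    exact hΓmem v
  have hZfin : Module.Finite R₁ Z := by
    have h1 : IsNoetherian R₁ Γ := isNoetherian_of_fg_of_noetherian Γ hΓ
    have h2 : IsNoetherian R₁ Z := isNoetherian_of_le hZΓ
    infer_instance
  have hzZ : ∀ v, K0N X x₀ v₁ v → z v ∈ Z := fun v hv => Submodule.subset_span ⟨v, hv, rfl⟩
  have hZadd : ∀ f ∈ Z, (∀ x y w : X', w.1 = x.1 + y.1 → f w = f x + f y) ∧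
      (∀ x : X', x.1 = 0 → f x = 0) ∧ ∀ x y : X', y.1 = -x.1 → f y = -f x := by
    intro f hf
    induction hf using Submodule.span_induction with
    | mem f hf =>
      obtain ⟨v, -, rfl⟩ := hf
      refine ⟨fun x y w h => ?_, fun x h => ?_, fun x y h => ?_⟩
      · show w.1 v = _
        rw [h]
        rfl
      · show x.1 v = 0
        rw [h]
        rfl
      · show y.1 v = _
        rw [h]
        rfl
    | zero => exact ⟨fun _ _ _ _ => (add_zero _).symm, fun _ _ => rfl, fun _ _ _ => neg_zero.symm⟩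
    | add f g _ _ hf hg =>
      refine ⟨fun x y w h => ?_, fun x h => ?_, fun x y h => ?_⟩
      · show f w + g w = (f x + g x) + (f y + g y)
        rw [hf.1 x y w h, hg.1 x y w h]
        abel
      · show f x + g x = 0
        rw [hf.2.1 x h, hg.2.1 x h, add_zero]
      · show f y + g y = -(f x + g x)
        rw [hf.2.2 x y h, hg.2.2 x y h]
        abel
    | smul c f _ hf =>
      refine ⟨fun x y w h => ?_, fun x h => ?_, fun x y h => ?_⟩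
      · show c • f w = c • f x + c • f y
        rw [hf.1 x y w h, smul_add]
      · show c • f x = 0
        rw [hf.2.1 x h, smul_zero]
      · show c • f y = -(c • f x)
        rw [hf.2.2 x y h, smul_neg]
  have hK0v₁ : K0N X x₀ v₁ v₁ := fun x hx hx' => ⟨x, hx, hx', rfl⟩
  -- the action of the scalars
  have hθ : ∀ v, K0N X x₀ v₁ v → ∃ θ : X' → X', ∀ x, (θ x).1 v₁ = x.1 v := by
    intro v hv
    have h1 : ∀ x : X', ∃ y : X', y.1 v₁ = x.1 v := by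
      intro x
      obtain ⟨x', hx', hs, he⟩ := hv x.1 x.2.1 x.2.2
      exact ⟨⟨x', hx', hs⟩, he⟩
    choose θ hθ using h1
    exact ⟨θ, hθ⟩
  have hstab : ∀ v, DomUN X x₀ v₁ v → ∀ θ : X' → X', (∀ x, (θ x).1 v₁ = x.1 v) →
      ∀ f ∈ Z, (fun x => f (θ x)) ∈ Z := by
    intro v hv θ hθ f hf
    induction hf using Submodule.span_induction with
    | mem f hf =>
      obtain ⟨v', hv', rfl⟩ := hf
      obtain ⟨w, hw⟩ := hv.2 v' hv'
      have h1 : (fun x => z v' (θ x)) = z w := by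
        funext x
        obtain ⟨x₂, hx₂, x₃, hx₃, hs₂, hs₃, e1, e2, e3, e4⟩ := hw x.1 x.2.1 x.2.2
        have h2 : θ x = ⟨x₃, hx₃, hs₃⟩ := hinj _ _ (by rw [hθ, e2])
        show (θ x).1 v' = x.1 w
        rw [h2, e4]
      rw [h1]
      apply hzZ
      intro x hx hs
      obtain ⟨x₂, hx₂, x₃, hx₃, hs₂, hs₃, e1, e2, e3, e4⟩ := hw x hx hs
      obtain ⟨x', hx', hs', e'⟩ := hv.1 x₂ hx₂ hs₂
      exact ⟨x', hx', hs', by rw [e', e3]⟩
    | zero => exact Z.zero_mem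
    | add f g _ _ hf hg => exact Z.add_mem hf hg
    | smul c f _ hf => exact Z.smul_mem c hf
  let S : Set (Module.End R₁ Z) := {φ | ∃ v, DomUN X x₀ v₁ v ∧ ∃ θ : X' → X',
    (∀ x, (θ x).1 v₁ = x.1 v) ∧ ∀ (f : Z) (x : X'), (φ f : X' → L) x = (f : X' → L) (θ x)}
  have hSex : ∀ v, DomUN X x₀ v₁ v → ∃ φ ∈ S, ∀ x : X', (φ ⟨z v₁, hzZ _ hK0v₁⟩ : X' → L) x =
      x.1 v := by
    intro v hv
    obtain ⟨θ, hθ⟩ := hθ v hv.1
    let φ : Module.End R₁ Z := LinearMap.restrict (LinearMap.funLeft R₁ L θ)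
      (fun f hf => hstab v hv θ hθ f hf)
    exact ⟨φ, ⟨v, hv, θ, hθ, fun f x => rfl⟩, fun x => hθ x⟩
  have hScomm : ∀ a ∈ S, ∀ b ∈ S, a * b = b * a := by
    rintro φ ⟨v, hv, θ, hθ, hφ⟩ ψ ⟨v', hv', θ', hθ', hψ⟩
    apply LinearMap.ext
    intro f
    apply Subtype.ext
    funext x
    show (φ (ψ f) : X' → L) x = (ψ (φ f) : X' → L) x
    rw [hφ, hψ, hψ, hφ]
    refine congrArg _ (hinj _ _ ?_)
    rw [hθ', hθ]
    obtain ⟨w, hw⟩ := hv.2 v' hv'.1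
    obtain ⟨x₂, hx₂, x₃, hx₃, hs₂, hs₃, e1, e2, e3, e4⟩ := hw x.1 x.2.1 x.2.2
    have h2 : θ x = ⟨x₃, hx₃, hs₃⟩ := hinj _ _ (by rw [hθ, e2])
    have h3 : θ' x = ⟨x₂, hx₂, hs₂⟩ := hinj _ _ (by rw [hθ', e1])
    rw [h2, h3, e4, e3]
  obtain ⟨P, i1, i2, i3, i4, e, he, heinj, hSe⟩ := exists_P R₁ Z S hScomm
  have hPnoeth : IsNoetherianRing P := Algebra.FiniteType.isNoetherianRing ℤ P
  have hgood : ∀ φ ∈ Subring.closure S, ∃ θ : X' → X', ∀ (f : Z) (x : X'),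
      (φ f : X' → L) x = (f : X' → L) (θ x) := by
    intro φ hφ
    induction hφ using Subring.closure_induction with
    | mem φ hφ =>
      obtain ⟨v, hv, θ, hθ, hφ⟩ := hφ
      exact ⟨θ, hφ⟩
    | zero => exact ⟨fun _ => ⟨0, hzero⟩, fun f x => ((hZadd f f.2).2.1 _ rfl).symm⟩
    | one => exact ⟨fun x => x, fun f x => rfl⟩
    | add φ ψ _ _ h1 h2 =>
      obtain ⟨θ, hθ⟩ := h1
      obtain ⟨θ', hθ'⟩ := h2
      refine ⟨fun x => ⟨(θ x).1 + (θ' x).1, hadd _ _⟩, fun f x => ?_⟩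
      rw [(hZadd f f.2).1 (θ x) (θ' x) _ rfl, ← hθ, ← hθ']
      rfl
    | neg φ _ h1 =>
      obtain ⟨θ, hθ⟩ := h1
      refine ⟨fun x => ⟨-(θ x).1, hneg _⟩, fun f x => ?_⟩
      rw [(hZadd f f.2).2.2 (θ x) _ rfl, ← hθ]
      rfl
    | mul φ ψ _ _ h1 h2 =>
      obtain ⟨θ, hθ⟩ := h1
      obtain ⟨θ', hθ'⟩ := h2
      refine ⟨fun x => θ' (θ x), fun f x => ?_⟩
      rw [← hθ', ← hθ]
      rfl
  have hgoodP : ∀ p : P, e p ∈ Subring.closure S → ∃ θ : X' → X', ∀ (f : Z) (x : X'),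
      ((p • f : Z) : X' → L) x = (f : X' → L) (θ x) := by
    intro p hp
    obtain ⟨θ, hθ⟩ := hgood (e p) hp
    exact ⟨θ, fun f x => by rw [he, hθ]⟩
  -- annihilators
  let J : X' → Ideal P := fun x =>
    { carrier := {p | ∀ f : Z, ((p • f : Z) : X' → L) x = 0}
      add_mem' := by
        intro p q hp hq f
        rw [add_smul]
        show ((p • f : Z) : X' → L) x + ((q • f : Z) : X' → L) x = 0
        rw [hp f, hq f, add_zero]
      zero_mem' := by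
        intro f
        rw [zero_smul]
        rfl
      smul_mem' := by
        intro c p hp f
        rw [smul_eq_mul, mul_comm, mul_smul]
        exact hp _ }
  have hJ : ∀ x p, p ∈ J x ↔ ∀ f : Z, ((p • f : Z) : X' → L) x = 0 := fun x p => Iff.rfl
  have hx₀ne : x₀ ≠ 0 := by
    intro h
    rw [h] at hx₀v₁
    exact hx₀v₁ rfl
  obtain ⟨_, ⟨x₂, hx₂0, rfl⟩, hmax₂⟩ := set_has_maximal_iff_noetherian.2 hPnoeth
    {I | ∃ x : X', x.1 ≠ 0 ∧ I = J x} ⟨_, ⟨x₀, hx₀X, fun v h => h⟩, hx₀ne, rfl⟩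
  have hx₂v₁ : x₂.1 v₁ ≠ 0 := fun h => hx₂0 (hinj0 x₂ h)
  let z₁ : Z := ⟨z v₁, hzZ _ hK0v₁⟩
  have hJiff : ∀ p : P, e p ∈ Subring.closure S → ∀ x : X', (p ∈ J x ↔
      ((p • z₁ : Z) : X' → L) x = 0) := by
    intro p hp x
    obtain ⟨θ, hθ⟩ := hgoodP p hp
    constructor
    · intro h
      exact h z₁
    · intro h f
      rw [hθ] at h ⊢
      exact (hZadd f f.2).2.1 _ (hinj0 _ h)
  have hprime : ∀ r s : P, e r ∈ Subring.closure S → e s ∈ Subring.closure S → r ∉ J x₂ →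
      s ∉ J x₂ → r * s ∉ J x₂ := by
    intro r s hr hs hr' hs' hrs
    obtain ⟨θ, hθ⟩ := hgoodP s hs
    have h1 : (θ x₂).1 ≠ 0 := by
      intro h0
      apply hs'
      rw [hJiff s hs, hθ]
      show (θ x₂).1 v₁ = 0
      rw [h0]
      rfl
    have h2 : J x₂ ≤ J (θ x₂) := by
      intro p hp f
      rw [← hθ, ← mul_smul, mul_comm, mul_smul]
      exact hp _
    have h3 : J x₂ = J (θ x₂) := by
      by_contra hne
      exact hmax₂ _ ⟨_, h1, rfl⟩ (lt_of_le_of_ne h2 hne)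
    apply hr'
    rw [h3]
    intro f
    rw [← hθ, ← mul_smul, mul_comm]
    exact hrs f
  let Sm : Submonoid P :=
    { carrier := {p | e p ∈ Subring.closure S ∧ p ∉ J x₂}
      mul_mem' := by
        rintro r s ⟨hr, hr'⟩ ⟨hs, hs'⟩
        exact ⟨by rw [map_mul]; exact Subring.mul_mem _ hr hs, hprime r s hr hs hr' hs'⟩
      one_mem' := by
        refine ⟨by rw [map_one]; exact Subring.one_mem _, fun h => ?_⟩
        have h1 := h z₁
        rw [one_smul] at h1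
        exact hx₂v₁ h1 }
  have hdisj : Disjoint (J x₂ : Set P) Sm := by
    rw [Set.disjoint_left]
    intro p hp hp'
    exact hp'.2 hp
  obtain ⟨Q, hQ, hJQ, hQdisj⟩ := Ideal.exists_le_prime_disjoint (J x₂) Sm hdisj
  have hQJ : ∀ p, e p ∈ Subring.closure S → (p ∈ Q ↔ p ∈ J x₂) := by
    intro p hp
    constructor
    · intro h
      by_contra hne
      exact Set.disjoint_left.1 hQdisj h ⟨hp, hne⟩
    · intro h
      exact hJQ h
  have hOdom : IsDomain (P ⧸ Q) := Ideal.Quotient.isDomain Q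
  have hOft := ft_quot P inferInstance Q
  have hOcz : CharZero (P ⧸ Q) := by
    refine charZero_of_inj_zero fun n hn => ?_
    by_contra hne
    have h1 : (n : P) ∈ Q := by
      rw [← Ideal.Quotient.eq_zero_iff_mem]
      simpa using hn
    have h2 : e (n : P) ∈ Subring.closure S := by
      rw [map_natCast]
      exact natCast_mem _ n
    rw [hQJ _ h2, hJiff _ h2, Nat.cast_smul_eq_nsmul] at h1
    exact hx₂v₁ (htfL n _ hne h1)
  refine ⟨P ⧸ Q, inferInstance, hOdom, hOcz, fun v o => ∃ p : P, e p ∈ Subring.closure S ∧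
    (∀ x : X', ((p • z₁ : Z) : X' → L) x = x.1 v) ∧ o = Ideal.Quotient.mk Q p,
    SegFT.segProp_ft (P ⧸ Q), ?_⟩
  have hker : ∀ v, x₂.1 v = 0 ↔ x₀ v = 0 := fun v =>
    ⟨fun h => hmax x₂.1 x₂.2.1 hx₂0 x₂.2.2 v h, fun h => x₂.2.2 v h⟩
  have hVeq : ∀ (v v' : Y) (p p' : P), e p ∈ Subring.closure S → e p' ∈ Subring.closure S →
      (∀ x : X', ((p • z₁ : Z) : X' → L) x = x.1 v) →
      (∀ x : X', ((p' • z₁ : Z) : X' → L) x = x.1 v') →
      (x₀ v = x₀ v' ↔ Ideal.Quotient.mk Q p = Ideal.Quotient.mk Q p') := by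
    intro v v' p p' hp hp' hpv hpv'
    have h1 : e (p - p') ∈ Subring.closure S := by
      rw [map_sub]
      exact Subring.sub_mem _ hp hp'
    rw [Ideal.Quotient.eq, hQJ _ h1, hJiff _ h1, sub_smul]
    have h2 : (((p • z₁ - p' • z₁ : Z)) : X' → L) x₂ = x₂.1 (v - v') := by
      rw [map_sub, ← hpv x₂, ← hpv' x₂]
      rfl
    rw [h2, hker, map_sub, sub_eq_zero]
  refine { hc := one_pos, dom := ?_, eq := ?_, fn := ?_, dom_pow := ?_, V_pow := ?_, add := ?_,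
           mul := ?_, mul_pow := ?_ }
  · intro v hv
    obtain ⟨φ, hφS, hφ⟩ := hSex v hv
    obtain ⟨p, hp⟩ := hSe φ (Subring.subset_closure hφS)
    exact ⟨_, p, by rw [hp]; exact Subring.subset_closure hφS, fun x => by rw [he, hp, hφ], rfl⟩
  · rintro v v' o o' _ _ ⟨p, hp, hpv, rfl⟩ ⟨p', hp', hpv', rfl⟩
    exact hVeq v v' p p' hp hp' hpv hpv'
  · rintro v o o' _ ⟨p, hp, hpv, rfl⟩ ⟨p', hp', hpv', rfl⟩
    exact (hVeq v v p p' hp hp' hpv hpv').1 rfl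
  · intro k
    have hK : ∀ v, K0N X x₀ v₁ v → K0N X x₀ v₁ (k • v) := by
      intro v hv x hx hs
      obtain ⟨x', hx', hs', h⟩ := hv x hx hs
      refine ⟨k • x', X.nsmul_mem hx' k, fun v hv => ?_, ?_⟩
      · rw [AddMonoidHom.nsmul_apply, hs' v hv, smul_zero]
      · rw [AddMonoidHom.nsmul_apply, h, map_nsmul]
    refine ⟨hK _ hK0v₁, fun v' hv' => ⟨k • v', fun x hx hs => ?_⟩⟩
    obtain ⟨x', hx', hs', h⟩ := hv' x hx hs
    refine ⟨x', hx', k • x, X.nsmul_mem hx k, hs', fun v hv => ?_, h, ?_, ?_, ?_⟩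
    · rw [AddMonoidHom.nsmul_apply, hs v hv, smul_zero]
    · rw [AddMonoidHom.nsmul_apply, map_nsmul]
    · rw [map_nsmul, h, map_nsmul]
    · rw [AddMonoidHom.nsmul_apply, map_nsmul]
  · intro k
    refine ⟨(k : P), by rw [map_natCast]; exact natCast_mem _ k, fun x => ?_, by simp⟩
    rw [Nat.cast_smul_eq_nsmul, map_nsmul]
    rfl
  · rintro x y w _ _ _ _ _ _ ⟨p, hp, hpx, rfl⟩ ⟨q, hq, hqy, rfl⟩ ⟨r, hr, hrz, rfl⟩ rfl
    rw [← map_add, ← hVeq (x + y) (x + y) (p + q) r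
      (by rw [map_add]; exact Subring.add_mem _ hp hq) hr (fun x' => ?_) hrz]
    rw [add_smul, map_add, ← hpx, ← hqy]
    rfl
  · rintro y z' w _ _ _ _ _ _ ⟨p, hp, hpy, rfl⟩ ⟨q, hq, hqz, rfl⟩ ⟨r, hr, hrw, rfl⟩ hmul
    rw [Nat.cast_one, one_mul, ← map_mul, ← hVeq w w (p * q) r
      (by rw [map_mul]; exact Subring.mul_mem _ hp hq) hr (fun x => ?_) hrw]
    obtain ⟨θ, hθ⟩ := hgoodP q hq
    obtain ⟨x', hx', hs', e1, e2⟩ := hmul x.1 x.2.1 x.2.2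
    have h1 : θ x = ⟨x', hx', hs'⟩ := by
      apply hinj
      have h2 : ((q • z₁ : Z) : X' → L) x = (θ x).1 v₁ := hθ z₁ x
      rw [← h2, hqz, e1]
    rw [mul_comm, mul_smul, hθ, hpy, h1, e2]
  · intro i j x hx hs
    refine ⟨j • x, X.nsmul_mem hx j, fun v hv => ?_, ?_, ?_⟩
    · rw [AddMonoidHom.nsmul_apply, hs v hv, smul_zero]
    · rw [AddMonoidHom.nsmul_apply, map_nsmul]
    · rw [AddMonoidHom.nsmul_apply, map_nsmul, map_nsmul, ← mul_smul, mul_comm]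

end main

end Pool.Agent.Helper657_nd.Noeth
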