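import Pool.Agent.Helper657_nd.CommMain2

set_option autoImplicit false

/-!
# Commensurated subgroups of definable minimax abelian groups
-/

namespace Pool.Agent.Helper657_nd.Comm

open Crit Weyl Seg

variable {G : Type} [Group G]

/-- Reduction to a torsion-free group. -/
theorem exists_torsionfree2 (A : Subgroup G) (hc : ∀ a ∈ A, ∀ b ∈ A, a * b = b * a)
    {s : ℕ} (S : Finset G) (hSA : ∀ a ∈ S, a ∈ A)
    (hS : ∀ a ∈ A, ∃ k : ℕ, a ^ s ^ k ∈ Subgroup.closure (S : Set G)) (e : ℕ) (he : 0 < e)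
    (htor : ∀ a ∈ A, ∀ n : ℕ, 0 < n → a ^ n = 1 → a ^ e = 1) :
    ∃ (M : Type) (_ : AddCommGroup M) (ι : M → G),
      (∀ (n : ℕ) (y : M), n ≠ 0 → n • y = 0 → y = 0) ∧ MM s M ∧ Emb (powSub A hc e) ι := by
  classical
  let _ : CommGroup A := { (inferInstance : Group A) with
    mul_comm := fun a b => Subtype.ext (hc a a.2 b b.2) }
  let M₀ := Additive A
  let ι₀ : M₀ → G := fun x => ((Additive.toMul x : A) : G)
  have E₀ : Emb A ι₀ :=
    { inj := fun x y h => by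
        have : (Additive.toMul x : A) = Additive.toMul y := Subtype.ext h
        exact Additive.toMul.injective this
      add := fun x y => rfl
      mem := fun g => ⟨fun hg => ⟨Additive.ofMul ⟨g, hg⟩, rfl⟩, by rintro ⟨y, rfl⟩; exact (Additive.toMul y).2⟩ }
  have hMM₀ : MM s M₀ := by
    let S' : Finset M₀ := S.attach.image fun x : {a // a ∈ S} =>
      Additive.ofMul (⟨x.1, hSA x.1 x.2⟩ : A)
    refine ⟨S', fun y => ?_⟩
    obtain ⟨k, hk⟩ := hS (ι₀ y) (E₀.memι y)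
    refine ⟨k, ?_⟩
    let H : Subgroup G :=
      { carrier := {g | ∃ y ∈ AddSubgroup.closure (S' : Set M₀), ι₀ y = g}
        mul_mem' := by
          rintro _ _ ⟨a, ha, rfl⟩ ⟨b, hb, rfl⟩
          exact ⟨a + b, AddSubgroup.add_mem _ ha hb, E₀.add a b⟩
        one_mem' := ⟨0, AddSubgroup.zero_mem _, E₀.zero⟩
        inv_mem' := by
          rintro _ ⟨a, ha, rfl⟩
          exact ⟨-a, AddSubgroup.neg_mem _ ha, E₀.neg a⟩ }
    have h1 : Subgroup.closure (S : Set G) ≤ H := by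
      rw [Subgroup.closure_le]
      intro g hg
      refine ⟨Additive.ofMul (⟨g, hSA g hg⟩ : A), AddSubgroup.subset_closure ?_, rfl⟩
      exact Finset.mem_coe.2 (Finset.mem_image.2 ⟨⟨g, hg⟩, Finset.mem_attach _ _, rfl⟩)
    obtain ⟨y', hy', h2⟩ := h1 hk
    rw [← E₀.nsmul] at h2
    rwa [← E₀.inj h2]
  let L : M₀ →ₗ[ℤ] M₀ := (e : ℤ) • LinearMap.id
  let M := LinearMap.range L
  let ι : M → G := fun m => ι₀ m
  have E : Emb (powSub A hc e) ι :=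
    { inj := fun x y h => Subtype.ext (E₀.inj h)
      add := fun x y => by
        show ι₀ ((x + y : M) : M₀) = _
        rw [Submodule.coe_add, E₀.add]
      mem := fun g => by
        rw [mem_powSub]
        constructor
        · rintro ⟨a, ha, rfl⟩
          obtain ⟨y, rfl⟩ := (E₀.mem a).1 ha
          refine ⟨⟨L y, ⟨y, rfl⟩⟩, ?_⟩
          show ι₀ ((e : ℤ) • y) = _
          rw [natCast_zsmul, E₀.nsmul]
        · rintro ⟨⟨_, ⟨y, rfl⟩⟩, rfl⟩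
          refine ⟨ι₀ y, E₀.memι y, ?_⟩
          show _ = ι₀ ((e : ℤ) • y)
          rw [natCast_zsmul, E₀.nsmul] }
  refine ⟨M, inferInstance, ι, ?_, hMM₀.sub M, E⟩
  rintro n ⟨_, ⟨y, rfl⟩⟩ hn h
  apply Subtype.ext
  have h1 : n • ((e : ℤ) • y) = 0 := congrArg Subtype.val h
  show (e : ℤ) • y = 0
  rw [natCast_zsmul] at h1 ⊢
  rw [← mul_smul] at h1
  apply E₀.inj
  have h2 : ι₀ y ^ (n * e) = 1 := by rw [← E₀.nsmul, h1, E₀.zero]
  rw [E₀.nsmul, E₀.zero]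
  exact htor _ (E₀.memι y) _ (Nat.mul_pos (Nat.pos_of_ne_zero hn) he) h2

/-- Commensurated subgroups of definable minimax abelian groups. -/
theorem commE (E : Subgroup G) (hc : ∀ a ∈ E, ∀ b ∈ E, a * b = b * a)
    (hE : DefinableSet (E : Set G)) (s : ℕ) (hs : 0 < s) (S : Finset G) (hSE : ∀ a ∈ S, a ∈ E)
    (hS : ∀ a ∈ E, ∃ k : ℕ, a ^ s ^ k ∈ Subgroup.closure (S : Set G)) (e : ℕ) (he : 0 < e)
    (htor : ∀ a ∈ E, ∀ n : ℕ, 0 < n → a ^ n = 1 → a ^ e = 1)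
    (A : Subgroup G) (hAE : A ≤ E) (t : G) (N : ℕ) (hN : 0 < N)
    (ht : ∀ a ∈ A, t * a ^ N * t⁻¹ ∈ A)
    (hinf : ∀ k : ℕ, 0 < k → ∀ m : ℕ, 0 < m → ∃ a ∈ A, t ^ k * a ^ m * (t ^ k)⁻¹ ≠ a ^ m) :
    Undec G := by
  classical
  obtain ⟨M, i1, ι, htfM, hMM, E'⟩ := exists_torsionfree2 E hc S hSE hS e he htor
  have hE' := powSub_def hc e hE
  have hAM : ∀ a ∈ A, ∃ y : M, ι y = a ^ e := by
    intro a ha
    rw [← E'.mem, mem_powSub]
    exact ⟨a, hAE ha, rfl⟩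
  obtain ⟨K, ⟨hKd, m₁, hm₁, hKA⟩, hKmin⟩ := lemH hs htfM hMM
    (fun K => (Def1 fun g => ∃ y ∈ K, ι y = g) ∧ ∃ m : ℕ, 0 < m ∧ ∀ a ∈ A, ∃ y ∈ K, ι y = a ^ m)
    ⟨⊤, by
      have h1 : Df fun s : ℕ → G => s 0 ∈ ((powSub E hc e : Subgroup G) : Set G) :=
        DefinableSet.df hE' (Tm.var 0)
      refine h1.congr fun s => ?_
      rw [SetLike.mem_coe, E'.mem]
      simp, e, he, fun a ha => by
      obtain ⟨y, hy⟩ := hAM a ha
      exact ⟨y, Submodule.mem_top, hy⟩⟩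
  let K' : Submodule ℤ M :=
    { carrier := {y | y ∈ K ∧ ∃ y' ∈ K, ι y' = t * ι y * t⁻¹}
      add_mem' := by
        rintro a b ⟨ha, a', ha', h1⟩ ⟨hb, b', hb', h2⟩
        exact ⟨K.add_mem ha hb, a' + b', K.add_mem ha' hb', rel_add E' h1 h2⟩
      zero_mem' := ⟨K.zero_mem, 0, K.zero_mem, rel_zero E' t⟩
      smul_mem' := by
        rintro c z ⟨hz, z', hz', h⟩
        refine ⟨K.smul_mem c hz, ?_⟩
        rcases Int.natAbs_eq c with h1 | h1
        · refine ⟨c.natAbs • z', K.smul_of_tower_mem _ hz', ?_⟩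
          rw [h1, Int.natAbs_natCast, natCast_zsmul]
          exact smul_rel E' h _
        · refine ⟨-(c.natAbs • z'), K.neg_mem (K.smul_of_tower_mem _ hz'), ?_⟩
          rw [h1, Int.natAbs_neg, Int.natAbs_natCast, neg_smul, natCast_zsmul]
          exact rel_neg E' (smul_rel E' h _) }
  have hK'd : Def1 fun g => ∃ y ∈ K', ι y = g := by
    have h1 : Df fun s : ℕ → G => (∃ y ∈ K, ι y = s 0) ∧ ∃ y ∈ K, ι y = t * s 0 * t⁻¹ :=
      (Def1.sub hKd (Tm.var 0)).and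
        (Def1.sub hKd (((Tm.const t).mul (Tm.var 0)).mul (Tm.const t).inv))
    refine h1.congr fun s => ?_
    constructor
    · rintro ⟨y, ⟨hy, y', hy', h2⟩, h3⟩
      exact ⟨⟨y, hy, h3⟩, y', hy', by rw [h2, h3]⟩
    · rintro ⟨⟨y, hy, h3⟩, y', hy', h2⟩
      exact ⟨y, ⟨hy, y', hy', by rw [h2, h3]⟩, h3⟩
  obtain ⟨n, hn, hK'⟩ := hKmin K' ⟨hK'd, N * m₁, Nat.mul_pos hN hm₁, fun a ha => by
      obtain ⟨y, hy, h1⟩ := hKA _ (A.pow_mem ha N)
      obtain ⟨y', hy', h2⟩ := hKA _ (ht a ha)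
      refine ⟨y, ⟨hy, y', hy', ?_⟩, by rw [h1, pow_mul]⟩
      rw [h2, h1, conj_pow]⟩ (fun y hy => hy.1)
  have h1 : ∀ y : K, ∃ z : K, ι (z : M) = t * ι ((n • y : K) : M) * t⁻¹ := by
    intro y
    obtain ⟨_, y', hy', h2⟩ := hK' y y.2
    exact ⟨⟨y', hy'⟩, h2⟩
  choose f hf using h1
  have EK := emb_sub E' K
  let φ : Module.End ℤ K := (AddMonoidHom.toIntLinearMap
    { toFun := f
      map_zero' := by
        apply EK.inj
        show ι ((f 0 : K) : M) = _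
        rw [hf, smul_zero]
        exact (rel_zero EK t).symm
      map_add' := fun x y => by
        apply EK.inj
        show ι ((f (x + y) : K) : M) = _
        rw [hf, smul_add]
        exact (rel_add EK (hf x) (hf y)).symm })
  refine commM EK hs (htf_sub htfM K) (hMM.sub K) (sg_def E' K hKd) t n φ
    ⟨Nat.pos_of_ne_zero hn, hf⟩ ?_
  intro k hk m hm
  obtain ⟨a, ha, hne⟩ := hinf k hk (m₁ * m) (Nat.mul_pos hm₁ hm)
  obtain ⟨y, hy, h2⟩ := hKA a ha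
  refine ⟨⟨y, hy⟩, ?_⟩
  show t ^ k * ι ((m • (⟨y, hy⟩ : K) : K) : M) * (t ^ k)⁻¹ ≠ ι ((m • (⟨y, hy⟩ : K) : K) : M)
  rw [Submodule.coe_smul_of_tower, E'.nsmul]
  show t ^ k * ι y ^ m * (t ^ k)⁻¹ ≠ ι y ^ m
  rw [h2, ← pow_mul]
  exact hne

end Pool.Agent.Helper657_nd.Comm
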