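import Pool.Agent.Helper657_nd.WeylMain

set_option autoImplicit false

/-!
# Definable abelian subgroups: infinite index of the centralizer in the normalizer
-/

namespace Pool.Agent.Helper657_nd.Weyl

open Crit

theorem Tm.pow {G : Type} [Group G] {f : (ℕ → G) → G} (hf : Tm f) (k : ℕ) :
    Tm fun s => f s ^ k := by
  induction k with
  | zero => simpa using (Tm.const (1 : G))
  | succ k ih => simpa [pow_succ] using ih.mul hf

/-- the subgroup of `k`-th powers of a commutative subgroup -/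
def powSub {G : Type} [Group G] (A : Subgroup G) (hc : ∀ a ∈ A, ∀ b ∈ A, a * b = b * a) (k : ℕ) :
    Subgroup G where
  carrier := {g | ∃ a ∈ A, a ^ k = g}
  mul_mem' := by
    rintro _ _ ⟨a, ha, rfl⟩ ⟨b, hb, rfl⟩
    have : Commute a b := hc a ha b hb
    exact ⟨a * b, A.mul_mem ha hb, this.mul_pow k⟩
  one_mem' := ⟨1, A.one_mem, one_pow k⟩
  inv_mem' := by
    rintro _ ⟨a, ha, rfl⟩
    exact ⟨a⁻¹, A.inv_mem ha, inv_pow a k⟩

section
variable {G : Type} [Group G] {A : Subgroup G} (hc : ∀ a ∈ A, ∀ b ∈ A, a * b = b * a) (k : ℕ)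

theorem mem_powSub {g : G} : g ∈ powSub A hc k ↔ ∃ a ∈ A, a ^ k = g := Iff.rfl

theorem powSub_le : powSub A hc k ≤ A := by
  rintro _ ⟨a, ha, rfl⟩
  exact A.pow_mem ha k

theorem powSub_def (hA : DefinableSet (A : Set G)) :
    DefinableSet ((powSub A hc k : Subgroup G) : Set G) := by
  apply Df.definableSet
  have h1 : Df fun s : ℕ → G => ∃ a, a ∈ (A : Set G) ∧ a ^ k = s 0 := by
    apply Df.exi (R := fun a s => a ∈ (A : Set G) ∧ a ^ k = s 0)
    exact (DefinableSet.df hA (Tm.var 0)).and (Df.eq (Tm.pow (Tm.var 0) k) (Tm.var 1))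
  exact h1

theorem powSub_norm {d : G} (hd : d ∈ Subgroup.normalizer (A : Set G)) :
    d ∈ Subgroup.normalizer ((powSub A hc k : Subgroup G) : Set G) := by
  have key : ∀ d ∈ Subgroup.normalizer (A : Set G), ∀ g ∈ powSub A hc k,
      d * g * d⁻¹ ∈ powSub A hc k := by
    rintro d hd _ ⟨a, ha, rfl⟩
    refine ⟨d * a * d⁻¹, (Subgroup.mem_normalizer_iff.1 hd a).1 ha, ?_⟩
    exact conj_pow
  rw [Subgroup.mem_normalizer_iff]
  intro g
  refine ⟨key d hd g, fun h => ?_⟩
  have h1 := key d⁻¹ (Subgroup.inv_mem _ hd) _ h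
  have h2 : d⁻¹ * (d * g * d⁻¹) * d⁻¹⁻¹ = g := by group
  rwa [h2] at h1

end

theorem finite_index_step1 {G M : Type} [Group G] [AddCommGroup M] {N B : Subgroup G}
    {ι : M → G} (E : Emb B ι) [Module.Finite ℤ M] [Module.IsTorsionFree ℤ M]
    (hN : ∀ x ∈ N, x ∈ Subgroup.normalizer (B : Set G))
    (htor : ∀ x ∈ N, ∃ i : ℕ, 0 < i ∧ ∀ y : M, x ^ i * ι y * (x ^ i)⁻¹ = ι y) :
    (Subgroup.centralizer (B : Set G) ⊓ N).relIndex N ≠ 0 := by
  classical
  let n := Module.Free.ChooseBasisIndex ℤ M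
  let b := Module.Free.chooseBasis ℤ M
  let act' : N →* Module.End ℤ M :=
    { toFun := fun x => E.act (hN x x.2)
      map_one' := E.act_one
      map_mul' := fun x y => E.act_mul (hN x x.2) (hN y y.2) }
  let red : Matrix n n ℤ →* Matrix n n (ZMod 3) :=
    ((Int.castRingHom (ZMod 3)).mapMatrix : Matrix n n ℤ →+* Matrix n n (ZMod 3))
  let mat : Module.End ℤ M →* Matrix n n ℤ := (LinearMap.toMatrixAlgEquiv b).toAlgHom.toRingHom
  let φ : N →* (Matrix n n (ZMod 3))ˣ := MonoidHom.toHomUnits ((red.comp mat).comp act')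
  have hfin : φ.ker.FiniteIndex := inferInstance
  have hle : φ.ker ≤ (Subgroup.centralizer (B : Set G) ⊓ N).subgroupOf N := by
    intro x hx
    rw [MonoidHom.mem_ker] at hx
    have hx1 : red (mat (act' x)) = 1 := by
      have := congrArg Units.val hx
      exact this
    have hdvd : ∀ i j, (3 : ℤ) ∣ (mat (act' x) - 1) i j := by
      intro i j
      have h0 := ZMod.intCast_zmod_eq_zero_iff_dvd ((mat (act' x) - 1) i j) 3
      rw [Nat.cast_ofNat] at h0
      rw [← h0]
      have h1 := congrFun (congrFun hx1 i) j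
      have h2 : red (mat (act' x)) i j = ((mat (act' x) i j : ℤ) : ZMod 3) := rfl
      rw [h2] at h1
      rw [Matrix.sub_apply, Int.cast_sub, h1]
      by_cases hij : i = j
      · subst hij; simp
      · simp [hij]
    choose P hP using hdvd
    have hmat : mat (act' x) = 1 + (3 : ℤ) • (Matrix.of P) := by
      ext i j
      have := hP i j
      rw [Matrix.sub_apply] at this
      rw [Matrix.add_apply, Matrix.smul_apply, Matrix.of_apply, smul_eq_mul, ← this]
      ring
    obtain ⟨i, hi, hxi⟩ := htor x x.2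
    have hpow : (mat (act' x)) ^ i = 1 := by
      rw [← map_pow, ← map_pow]
      have : act' (x ^ i) = 1 := by
        ext1 y
        apply E.inj
        show ι (E.act (hN ((x ^ i : N) : G) (x ^ i).2) y) = ι y
        rw [E.act_spec]
        exact hxi y
      rw [this, map_one]
    rw [hmat] at hpow
    have hP0 := minkowski hi _ hpow
    rw [hP0, smul_zero, add_zero] at hmat
    have hact : act' x = 1 := by
      apply (LinearMap.toMatrixAlgEquiv b).injective
      rw [map_one]
      exact hmat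
    rw [Subgroup.mem_subgroupOf]
    refine ⟨?_, x.2⟩
    show (x : G) ∈ Subgroup.centralizer (B : Set G)
    rw [Subgroup.mem_centralizer_iff]
    intro g hg
    obtain ⟨y, rfl⟩ := (E.mem g).1 hg
    have h1 : ι (act' x y) = x * ι y * (x : G)⁻¹ := E.act_spec (hN x x.2) y
    rw [hact] at h1
    have h2 : ι y = x * ι y * (x : G)⁻¹ := h1
    rw [eq_mul_inv_iff_mul_eq] at h2
    exact h2
  have := Subgroup.finiteIndex_of_le hle
  exact this.index_ne_zero

theorem finite_index_step2 {G : Type} [Group G] {A N : Subgroup G}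
    (hfg : A.FG) (hc : ∀ a ∈ A, ∀ b ∈ A, a * b = b * a) (k : ℕ)
    (hT : {b : G | b ∈ A ∧ b ^ k = 1}.Finite)
    (hN : ∀ x ∈ N, x ∈ Subgroup.normalizer (A : Set G)) :
    (Subgroup.centralizer (A : Set G)).relIndex
      (Subgroup.centralizer ((powSub A hc k : Subgroup G) : Set G) ⊓ N) ≠ 0 := by
  obtain ⟨S, hS⟩ := hfg
  let Q := Subgroup.centralizer ((powSub A hc k : Subgroup G) : Set G) ⊓ N
  have hfinT : Finite {b : G | b ∈ A ∧ b ^ k = 1} := hT.to_subtype
  have hSA : ∀ s ∈ S, s ∈ A := fun s hs => by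
    rw [← hS]
    exact Subgroup.subset_closure hs
  have hmem : ∀ (x : Q) (s : S), (x : G) * s * (x : G)⁻¹ * (s : G)⁻¹ ∈
      {b : G | b ∈ A ∧ b ^ k = 1} := by
    intro x s
    have hsA := hSA s s.2
    have h1 : (x : G) * s * (x : G)⁻¹ ∈ A :=
      (Subgroup.mem_normalizer_iff.1 (hN x x.2.2) s).1 hsA
    refine ⟨A.mul_mem h1 (A.inv_mem hsA), ?_⟩
    have h2 : Commute ((x : G) * s * (x : G)⁻¹) (s : G)⁻¹ := hc _ h1 _ (A.inv_mem hsA)
    rw [h2.mul_pow, conj_pow, inv_pow]
    have h3 : (s : G) ^ k ∈ powSub A hc k := ⟨s, hsA, rfl⟩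
    have h4 := Subgroup.mem_centralizer_iff.1 x.2.1 _ h3
    rw [← h4]
    group
  let f : Q → (S → {b : G | b ∈ A ∧ b ^ k = 1}) := fun x s => ⟨_, hmem x s⟩
  have hf : ∀ x y : Q, f x = f y → (x⁻¹ * y : Q) ∈ (Subgroup.centralizer (A : Set G)).subgroupOf Q := by
    intro x y hxy
    rw [Subgroup.mem_subgroupOf]
    show ((x : G)⁻¹ * (y : G)) ∈ Subgroup.centralizer (A : Set G)
    have h1 : A ≤ Subgroup.centralizer {(x : G)⁻¹ * (y : G)} := by
      rw [← hS, Subgroup.closure_le]
      intro s hs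
      rw [SetLike.mem_coe, Subgroup.mem_centralizer_singleton_iff]
      have h2 := congrArg Subtype.val (congrFun hxy ⟨s, hs⟩)
      have h3 : (x : G) * s * (x : G)⁻¹ * (s : G)⁻¹ = (y : G) * s * (y : G)⁻¹ * (s : G)⁻¹ := h2
      have h4 : (x : G) * s * (x : G)⁻¹ = (y : G) * s * (y : G)⁻¹ := mul_right_cancel h3
      have h5 : s = (x : G)⁻¹ * ((x : G) * s * (x : G)⁻¹) * x := by group
      have h6 : s * ((x : G)⁻¹ * y) = (x : G)⁻¹ * ((x : G) * s * (x : G)⁻¹) * y := by group
      rw [h6, h4]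
      group
    rw [Subgroup.mem_centralizer_iff]
    intro g hg
    exact Subgroup.mem_centralizer_singleton_iff.1 (h1 hg)
  have hfinQ : Finite (Q ⧸ (Subgroup.centralizer (A : Set G)).subgroupOf Q) := by
    refine Finite.of_injective (fun q => f (Quotient.out q)) ?_
    intro q q' h
    have h1 := hf _ _ h
    rw [← QuotientGroup.eq] at h1
    simpa using h1
  exact Subgroup.index_ne_zero_of_finite

/-- Main theorem on definable finitely generated abelian subgroups. -/
theorem finiteWeyl {G : Type} [Group G] (A : Subgroup G) (hfg : A.FG)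
    (hc : ∀ a ∈ A, ∀ b ∈ A, a * b = b * a) (hA : DefinableSet (A : Set G))
    (hidx : (Subgroup.centralizer (A : Set G)).relIndex (Subgroup.normalizer (A : Set G)) = 0) :
    Undec G := by
  classical
  letI : CommGroup A := { (inferInstance : Group A) with
    mul_comm := fun a b => Subtype.ext (hc a a.2 b b.2) }
  let M₀ := Additive A
  let ι₀ : M₀ → G := fun x => ((Additive.toMul x : A) : G)
  have E₀ : Emb A ι₀ :=
    { inj := fun x y h => by
        have : (Additive.toMul x : A) = Additive.toMul y := Subtype.ext h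
        exact Additive.toMul.injective this
      add := fun x y => rfl
      mem := fun g => ⟨fun hg => ⟨Additive.ofMul ⟨g, hg⟩, rfl⟩, by rintro ⟨y, rfl⟩; exact (Additive.toMul y).2⟩ }
  have hfin : Module.Finite ℤ M₀ := by
    rw [Module.Finite.iff_addGroup_fg]
    have h1 : Group.FG A := (Group.fg_iff_subgroup_fg A).2 hfg
    exact GroupFG.iff_add_fg.1 h1
  -- the torsion exponent
  let T : Submodule ℤ M₀ :=
    { carrier := {y | ∃ n : ℕ, n ≠ 0 ∧ n • y = 0}
      add_mem' := by
        rintro y z ⟨n, hn, h⟩ ⟨m, hm, h'⟩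
        refine ⟨n * m, mul_ne_zero hn hm, ?_⟩
        rw [smul_add, mul_comm n m, mul_smul, h, smul_zero, mul_comm m n, mul_smul, h', smul_zero,
          add_zero]
      zero_mem' := ⟨1, one_ne_zero, smul_zero _⟩
      smul_mem' := by
        rintro a y ⟨n, hn, h⟩
        exact ⟨n, hn, by rw [smul_comm, h, smul_zero]⟩ }
  obtain ⟨k, hk, hkT⟩ := uniform T ⊥ (by
    rintro y ⟨n, hn, h⟩
    exact ⟨n, hn, h⟩)
  have hkT' : ∀ y ∈ T, k • y = 0 := fun y hy => hkT y hy
  let L : M₀ →ₗ[ℤ] M₀ := (k : ℤ) • LinearMap.id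
  let M := LinearMap.range L
  let ι : M → G := fun m => ι₀ m
  have E : Emb (powSub A hc k) ι :=
    { inj := fun x y h => Subtype.ext (E₀.inj h)
      add := fun x y => by
        show ι₀ ((x + y : M) : M₀) = _
        rw [Submodule.coe_add, E₀.add]
      mem := fun g => by
        rw [mem_powSub]
        constructor
        · rintro ⟨a, ha, rfl⟩
          obtain ⟨y, rfl⟩ := (E₀.mem a).1 ha
          refine ⟨⟨L y, ⟨y, rfl⟩⟩, ?_⟩
          show ι₀ ((k : ℤ) • y) = _
          rw [natCast_zsmul, E₀.nsmul]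
        · rintro ⟨⟨_, ⟨y, rfl⟩⟩, rfl⟩
          refine ⟨ι₀ y, E₀.memι y, ?_⟩
          show _ = ι₀ ((k : ℤ) • y)
          rw [natCast_zsmul, E₀.nsmul] }
  have htf : Module.IsTorsionFree ℤ M := by
    rw [Module.isTorsionFree_iff_smul_eq_zero]
    rintro a ⟨_, ⟨y, rfl⟩⟩ h
    by_cases ha : a = 0
    · exact Or.inl ha
    right
    apply Subtype.ext
    have h1 : a • ((k : ℤ) • y) = 0 := congrArg Subtype.val h
    have h2 : y ∈ T := by
      refine ⟨a.natAbs * k, mul_ne_zero (by simpa using ha) (by omega), ?_⟩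
      rw [mul_smul, ← natCast_zsmul _ k, ← natCast_zsmul]
      rcases Int.natAbs_eq a with h3 | h3
      · rw [← h3]
        exact h1
      · have h4 : ((a.natAbs : ℕ) : ℤ) = -a := by omega
        rw [h4, neg_smul, h1, neg_zero]
    show (k : ℤ) • y = 0
    rw [natCast_zsmul]
    exact hkT' y h2
  have hTfin : {b : G | b ∈ A ∧ b ^ k = 1}.Finite := by
    have h1 : Module.Finite ℤ T := inferInstance
    have h2 : Finite T := by
      apply Module.finite_of_fg_torsion
      rintro ⟨y, n, hn, h⟩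
      refine ⟨⟨(n : ℤ), mem_nonZeroDivisors_of_ne_zero (by exact_mod_cast hn)⟩, ?_⟩
      apply Subtype.ext
      show (n : ℤ) • y = 0
      rw [natCast_zsmul]
      exact h
    have h3 : (Set.range fun y : T => ι₀ (y : M₀)).Finite := Set.finite_range _
    refine h3.subset ?_
    rintro b ⟨hb, hbk⟩
    obtain ⟨y, rfl⟩ := (E₀.mem b).1 hb
    refine ⟨⟨y, k, by omega, ?_⟩, rfl⟩
    apply E₀.inj
    rw [E₀.nsmul, hbk, E₀.zero]
  have hnorm : ∀ x ∈ Subgroup.normalizer (A : Set G),
      x ∈ Subgroup.normalizer ((powSub A hc k : Subgroup G) : Set G) :=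
    fun x hx => powSub_norm hc k hx
  by_cases htor : ∀ x ∈ Subgroup.normalizer (A : Set G), ∃ i : ℕ, 0 < i ∧
      ∀ y : M, x ^ i * ι y * (x ^ i)⁻¹ = ι y
  · exfalso
    have h1 := finite_index_step1 E hnorm htor
    have h2 := finite_index_step2 (N := Subgroup.normalizer (A : Set G)) hfg hc k hTfin
      (fun x hx => hx)
    have h3 := Subgroup.relIndex_mul_relIndex (Subgroup.centralizer (A : Set G))
      (Subgroup.centralizer ((powSub A hc k : Subgroup G) : Set G) ⊓
        Subgroup.normalizer (A : Set G)) (Subgroup.normalizer (A : Set G)) ?_ inf_le_right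
    · rw [hidx] at h3
      exact mul_ne_zero h2 h1 h3
    · refine le_inf ?_ ?_
      · exact Subgroup.centralizer_le (powSub_le hc k)
      · intro x hx
        rw [Subgroup.mem_normalizer_iff]
        intro g
        constructor
        · intro hg
          have h4 := Subgroup.mem_centralizer_iff.1 hx g hg
          rw [← h4, mul_inv_cancel_right]
          exact hg
        · intro hg
          have h4 := Subgroup.mem_centralizer_iff.1 hx _ hg
          have h5 : g = x⁻¹ * ((x * g * x⁻¹) * x) := by group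
          rw [h5, h4]
          simpa using hg
  · push Not at htor
    obtain ⟨t, ht, htinf⟩ := htor
    exact core E (powSub_def hc k hA) t (hnorm t ht) htinf

end Pool.Agent.Helper657_nd.Weyl
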