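import Pool.Agent.Helper657_nd.CommS
import Pool.Agent.Helper657_nd.WeylFinal

set_option autoImplicit false

/-!
# Commensurated abelian subgroups: assembly
-/

namespace Pool.Agent.Helper657_nd.Comm

open Crit Weyl

theorem finrank_torsion {M : Type} [AddCommGroup M] [Module.Finite ℤ M] (K : Submodule ℤ M)
    (h : Module.finrank ℤ M ≤ Module.finrank ℤ K) (y : M) : ∃ n : ℕ, n ≠ 0 ∧ n • y ∈ K := by
  have h1 := Submodule.finrank_quotient_add_finrank (R := ℤ) K
  have h2 : Module.finrank ℤ (M ⧸ K) = 0 := by omega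
  rw [Module.finrank_eq_zero_iff] at h2
  obtain ⟨a, ha, h3⟩ := h2 (K.mkQ y)
  rw [← map_smul, Submodule.mkQ_apply, Submodule.Quotient.mk_eq_zero] at h3
  refine ⟨a.natAbs, by simpa using ha, ?_⟩
  rcases Int.natAbs_eq a with h4 | h4
  · rw [h4, natCast_zsmul] at h3
    exact h3
  · rw [h4, neg_smul, natCast_zsmul] at h3
    exact (Submodule.neg_mem_iff _).1 h3

theorem dichotomy2 {R M : Type} [CommRing R] [AddCommGroup M] [Module R M] [IsNoetherian R M]
    (α β : R) : ∃ e : ℕ, 0 < e ∧ ∃ j : ℕ, ∀ k : ℕ, 0 < k → ∀ y : M,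
      (α ^ k - β ^ k) • (α ^ e - β ^ e) ^ j • y = 0 → (α ^ e - β ^ e) ^ j • y = 0 := by
  let K : ℕ → ℕ → Submodule R M := fun k i =>
    LinearMap.ker (LinearMap.lsmul R M ((α ^ k - β ^ k) ^ i))
  have hK : ∀ k i y, y ∈ K k i ↔ (α ^ k - β ^ k) ^ i • y = 0 := by
    intro k i y
    simp [K]
  have hdvd : ∀ k l i j : ℕ, i ≤ j → (α ^ k - β ^ k) ^ i ∣ (α ^ (k * l) - β ^ (k * l)) ^ j := by
    intro k l i j hij
    have h1 : α ^ k - β ^ k ∣ α ^ (k * l) - β ^ (k * l) := by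
      rw [pow_mul, pow_mul]
      exact sub_dvd_pow_sub_pow (α ^ k) (β ^ k) l
    exact (pow_dvd_pow_of_dvd h1 i).trans (pow_dvd_pow _ hij)
  have hle : ∀ k l i j : ℕ, i ≤ j → K k i ≤ K (k * l) j := by
    intro k l i j hij y hy
    rw [hK] at hy ⊢
    obtain ⟨r, hr⟩ := hdvd k l i j hij
    rw [hr, mul_comm, mul_smul, hy, smul_zero]
  obtain ⟨K₀, ⟨⟨e, j⟩, he, rfl⟩, hmax⟩ :=
    (set_has_maximal_iff_noetherian (R := R) (M := M)).2 inferInstance
      ((fun p : ℕ × ℕ => K p.1 p.2) '' {p | 0 < p.1}) ⟨_, (1, 0), Nat.one_pos, rfl⟩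
  have he' : 0 < e := he
  refine ⟨e, he', j, fun k hk y hy => ?_⟩
  have h1 : y ∈ K (e * k) (j + 1) := by
    rw [hK, pow_succ']
    obtain ⟨r, hr⟩ := hdvd e k j j le_rfl
    obtain ⟨s, hs⟩ := hdvd k e 1 1 le_rfl
    rw [pow_one, pow_one, mul_comm k e] at hs
    rw [hr, hs]
    have : (α ^ k - β ^ k) * s * ((α ^ e - β ^ e) ^ j * r) =
        (s * r) * ((α ^ k - β ^ k) * (α ^ e - β ^ e) ^ j) := by
      ring
    rw [this, mul_smul, mul_smul (α ^ k - β ^ k), hy, smul_zero]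
  have h2 : K e j = K (e * k) (j + 1) := by
    by_contra hne
    exact hmax _ ⟨(e * k, j + 1), Nat.mul_pos he' hk, rfl⟩
      (lt_of_le_of_ne (hle e k j (j + 1) (by omega)) hne)
  rw [← h2, hK] at h1
  exact h1

section sub
variable {G M : Type} [Group G] [AddCommGroup M] {A : Subgroup G} {ι : M → G} (E : Emb A ι)
include E

/-- the subgroup of `G` corresponding to a submodule -/
def sg (K : Submodule ℤ M) : Subgroup G where
  carrier := {g | ∃ y ∈ K, ι y = g}
  mul_mem' := by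
    rintro _ _ ⟨y, hy, rfl⟩ ⟨z, hz, rfl⟩
    exact ⟨y + z, K.add_mem hy hz, E.add y z⟩
  one_mem' := ⟨0, K.zero_mem, E.zero⟩
  inv_mem' := by
    rintro _ ⟨y, hy, rfl⟩
    exact ⟨-y, K.neg_mem hy, E.neg y⟩

theorem mem_sg {K : Submodule ℤ M} {g : G} : g ∈ sg E K ↔ ∃ y ∈ K, ι y = g := Iff.rfl

theorem emb_sub (K : Submodule ℤ M) : Emb (sg E K) (fun y : K => ι (y : M)) where
  inj := fun x y h => Subtype.ext (E.inj h)
  add := fun x y => by
    show ι ((x + y : K) : M) = _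
    rw [Submodule.coe_add, E.add]
  mem := fun g => by
    rw [mem_sg]
    constructor
    · rintro ⟨y, hy, h⟩
      exact ⟨⟨y, hy⟩, h⟩
    · rintro ⟨y, h⟩
      exact ⟨y, y.2, h⟩

theorem sg_def (K : Submodule ℤ M) (h : Def1 fun g => ∃ y ∈ K, ι y = g) :
    DefinableSet ((sg E K : Subgroup G) : Set G) := by
  apply Df.definableSet
  exact h

/-- The semisimple case. -/
theorem commS' [Module.Finite ℤ M] [Module.IsTorsionFree ℤ M]
    (t : G) (N : ℕ) (φ : Module.End ℤ M) (hQ : QA ι t N φ) (W : Submodule ℤ M) (hW : W ≠ ⊥)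
    (hWd : Def1 fun g => ∃ y ∈ W, ι y = g) (hWφ : ∀ y ∈ W, φ y ∈ W)
    (hinj : ∀ k : ℕ, 0 < k → ∀ y ∈ W, (φ ^ k) y = (N ^ k) • y → y = 0) :
    Undec G := by
  classical
  let Pr : Submodule ℤ M → Prop := fun K =>
    K ≠ ⊥ ∧ K ≤ W ∧ (Def1 fun g => ∃ y ∈ K, ι y = g) ∧ ∀ y ∈ K, φ y ∈ K
  have hex : ∃ n, ∃ K, Pr K ∧ Module.finrank ℤ K = n := ⟨_, W, ⟨hW, le_rfl, hWd, hWφ⟩, rfl⟩
  obtain ⟨K, ⟨hK0, hKW, hKd, hKφ⟩, hKn⟩ := Nat.find_spec hex
  have hKmin : ∀ K', Pr K' → Module.finrank ℤ K ≤ Module.finrank ℤ K' := by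
    intro K' hK'
    rw [hKn]
    exact Nat.find_min' hex ⟨K', hK', rfl⟩
  let φK : Module.End ℤ K := φ.restrict hKφ
  have hφK : ∀ y : K, ((φK y : K) : M) = φ y := fun y => rfl
  have hφKpow : ∀ (k : ℕ) (y : K), (((φK ^ k) y : K) : M) = (φ ^ k) y := by
    intro k
    induction k with
    | zero => intro y; rfl
    | succ k ih =>
      intro y
      rw [pow_succ, pow_succ]
      show (((φK ^ k) (φK y) : K) : M) = (φ ^ k) (φ y)
      rw [ih, hφK]
  refine commS (emb_sub E K) (sg_def E K hKd) t N φK ⟨hQ.1, fun y => ?_⟩ ?_ ?_ ?_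
  · show ι (φ y) = t * ι ((N • y : K) : M) * t⁻¹
    rw [hQ.2, Submodule.coe_smul_of_tower]
  · intro k hk y hy
    apply Subtype.ext
    apply hinj k hk y (hKW y.2)
    rw [← hφKpow, hy, Submodule.coe_smul_of_tower]
  · obtain ⟨y, hy, hy0⟩ := (Submodule.ne_bot_iff K).1 hK0
    exact ⟨⟨y, hy⟩, fun h => hy0 (congrArg Subtype.val h)⟩
  · intro L hL hLd hLφ y
    have hmem : ∀ g : G, (∃ y ∈ L.map K.subtype, ι y = g) ↔ ∃ y ∈ L, ι ((y : K) : M) = g := by
      intro g
      constructor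
      · rintro ⟨_, ⟨z, hz, rfl⟩, h⟩
        exact ⟨z, hz, h⟩
      · rintro ⟨z, hz, h⟩
        exact ⟨_, ⟨z, hz, rfl⟩, h⟩
    have h1 := hKmin (L.map K.subtype) ⟨?_, ?_, ?_, ?_⟩
    · apply finrank_torsion L
      have h2 : Module.finrank ℤ (L.map K.subtype) = Module.finrank ℤ L :=
        (Submodule.equivMapOfInjective K.subtype K.injective_subtype L).finrank_eq.symm
      rwa [h2] at h1
    · intro h0
      apply hL
      rw [Submodule.eq_bot_iff]
      intro z hz
      apply Subtype.ext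
      have h2 : (z : M) ∈ L.map K.subtype := ⟨z, hz, rfl⟩
      rw [h0, Submodule.mem_bot] at h2
      exact h2
    · rintro _ ⟨z, _, rfl⟩
      exact hKW z.2
    · exact hLd.congr fun s => hmem (s 0)
    · rintro _ ⟨z, hz, rfl⟩
      exact ⟨φK z, hLφ z hz, rfl⟩

end sub

section unip
variable {G M : Type} [Group G] [AddCommGroup M]

/-- iterated sums of ranges -/
def Ms (g : ℕ → Module.End ℤ M) : ℕ → Submodule ℤ M
  | 0 => ⊥
  | n + 1 => Ms g n ⊔ LinearMap.range (g n)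

theorem range_le_Ms (g : ℕ → Module.End ℤ M) {i n : ℕ} (h : i < n) :
    LinearMap.range (g i) ≤ Ms g n := by
  induction n with
  | zero => omega
  | succ n ih =>
    rcases Nat.lt_succ_iff_lt_or_eq.1 h with h1 | h1
    · exact (ih h1).trans le_sup_left
    · rw [h1]
      exact le_sup_right

theorem Ms_le (g : ℕ → Module.End ℤ M) {n : ℕ} {P : Submodule ℤ M}
    (h : ∀ i < n, LinearMap.range (g i) ≤ P) : Ms g n ≤ P := by
  induction n with
  | zero => exact bot_le
  | succ n ih => exact sup_le (ih fun i hi => h i (by omega)) (h n (by omega))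

variable {A : Subgroup G} {ι : M → G} (E : Emb A ι)
include E

theorem Ms_def (hA : DefinableSet (A : Set G)) (g : ℕ → Module.End ℤ M)
    (hg : ∀ i, Rep ι (g i)) (n : ℕ) : Def1 fun x => ∃ y ∈ Ms g n, ι y = x := by
  induction n with
  | zero =>
    have h1 : Df fun s : ℕ → G => s 0 = 1 := Df.eq (Tm.var 0) (Tm.const 1)
    refine h1.congr fun s => ?_
    constructor
    · rintro ⟨y, hy, h⟩
      have hy' : y = 0 := hy
      rw [← h, hy', E.zero]
    · intro h
      exact ⟨0, Submodule.zero_mem _, by rw [E.zero, h]⟩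
  | succ n ih =>
    obtain ⟨f, hf1, hf2⟩ := hg n
    have h1 : Df fun s : ℕ → G => ∃ a, (∃ y ∈ Ms g n, ι y = a) ∧ ∃ b, b ∈ (A : Set G) ∧
        s 0 = a * f b := by
      apply Df.exi (R := fun a s => (∃ y ∈ Ms g n, ι y = a) ∧ ∃ b, b ∈ (A : Set G) ∧
        s 0 = a * f b)
      refine (Def1.sub ih (Tm.var 0)).and ?_
      apply Df.exi (R := fun b s => b ∈ (A : Set G) ∧ s 1 = s 0 * f b)
      exact (DefinableSet.df hA (Tm.var 0)).and
        (Df.eq (Tm.var 2) ((Tm.var 1).mul (hf1 _ (Tm.var 0))))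
    refine h1.congr fun s => ?_
    constructor
    · rintro ⟨y, hy, h⟩
      obtain ⟨a, ha, _, ⟨b, rfl⟩, rfl⟩ := Submodule.mem_sup.1 hy
      refine ⟨ι a, ⟨a, ha, rfl⟩, ι b, E.memι b, ?_⟩
      rw [← h, E.add, hf2]
    · rintro ⟨_, ⟨a, ha, rfl⟩, b, hb, h⟩
      obtain ⟨z, rfl⟩ := (E.mem b).1 hb
      refine ⟨a + g n z, Submodule.add_mem_sup ha ⟨z, rfl⟩, ?_⟩
      rw [h, E.add, hf2]

theorem Rep.pow {φ : Module.End ℤ M} (h : Rep ι φ) (n : ℕ) : Rep ι (φ ^ n) := by
  obtain ⟨f, hf1, hf2⟩ := h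
  refine ⟨fun z => f^[n] z, fun z hz => ?_, ?_⟩
  · induction n with
    | zero => exact hz
    | succ n ih =>
      have : (fun s => f^[n + 1] (z s)) = fun s => f (f^[n] (z s)) := by
        ext s
        rw [Function.iterate_succ_apply']
      rw [this]
      exact hf1 _ ih
  · induction n with
    | zero => intro y; rfl
    | succ n ih =>
      intro y
      show ι ((φ ^ (n + 1)) y) = f^[n + 1] (ι y)
      rw [pow_succ', Function.iterate_succ_apply']
      have h1 : ι ((φ ^ n) y) = f^[n] (ι y) := ih y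
      rw [← h1, ← hf2]
      rfl

theorem Rep.nsmul {φ : Module.End ℤ M} (h : Rep ι φ) (n : ℕ) : Rep ι (n • φ) := by
  obtain ⟨f, hf1, hf2⟩ := h
  refine ⟨fun z => f z ^ n, fun z hz => Tm.pow' (hf1 z hz) n, fun y => ?_⟩
  rw [LinearMap.smul_apply, E.nsmul, hf2]

theorem Rep.of_QA {d : G} {N : ℕ} {φ : Module.End ℤ M} (h : QA ι d N φ) : Rep ι φ :=
  ⟨fun z => d * z ^ N * d⁻¹, fun _ hz => ((Tm.const d).mul (Tm.pow' hz N)).mul (Tm.const d).inv,
    fun y => by rw [h.2, E.nsmul]⟩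

/-- The unipotent case. -/
theorem commU [Module.Finite ℤ M] [Module.IsTorsionFree ℤ M] (hA : DefinableSet (A : Set G))
    (T : G) (N : ℕ) (ψ : Module.End ℤ M) (hQ : QA ι T N ψ) (j : ℕ)
    (hnil : ∀ y : M, ((ψ - (N : Module.End ℤ M)) ^ (j + 1)) y = 0)
    (hinf : ∀ k : ℕ, 0 < k → ∀ m : ℕ, 0 < m → ∃ y : M, T ^ k * ι (m • y) * (T ^ k)⁻¹ ≠ ι (m • y)) :
    Undec G := by
  classical
  let J := j + 1
  let g : ℕ → Module.End ℤ M := fun i => (N ^ (J - i)) • ψ ^ i
  have hrep : ∀ i, Rep ι (g i) := fun i => Rep.nsmul E (Rep.pow E (Rep.of_QA E hQ) i) _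
  have hstep : ∀ i < J, ∀ y, ι (g (i + 1) y) = T * ι (g i y) * T⁻¹ := by
    intro i hi y
    have h1 : g i y = N • (N ^ (J - (i + 1)) • (ψ ^ i) y) := by
      show (N ^ (J - i)) • (ψ ^ i) y = _
      rw [← mul_smul, ← pow_succ']
      congr 2
      omega
    have h2 : g (i + 1) y = ψ (N ^ (J - (i + 1)) • (ψ ^ i) y) := by
      show (N ^ (J - (i + 1))) • (ψ ^ (i + 1)) y = _
      rw [map_nsmul, pow_succ']
      rfl
    rw [h1, h2, hQ.2]
  let c : ℕ → ℤ := fun i => (-1) ^ (J - i) * (J.choose i : ℤ)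
  have hsum : ∀ y : M, ∑ i ∈ Finset.range (J + 1), c i • g i y = 0 := by
    intro y
    have h1 : (ψ - (N : Module.End ℤ M)) ^ J = ∑ i ∈ Finset.range (J + 1), c i • g i := by
      have hcomm : Commute ψ (-(N : Module.End ℤ M)) := (Commute.neg_right (Nat.cast_commute N ψ).symm)
      rw [sub_eq_add_neg, hcomm.add_pow]
      refine Finset.sum_congr rfl fun i hi => ?_
      rw [neg_pow]
      show _ = ((-1) ^ (J - i) * (J.choose i : ℤ)) • ((N ^ (J - i)) • ψ ^ i)
      rw [nsmul_eq_mul, zsmul_eq_mul]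
      push_cast
      have h2 : Commute (ψ ^ i) ((-1) ^ (J - i) * (N : Module.End ℤ M) ^ (J - i)) := by
        apply Commute.mul_right
        · exact (Commute.neg_one_right _).pow_right _
        · exact ((Nat.cast_commute N (ψ ^ i)).symm).pow_right _
      rw [h2.eq, mul_assoc, mul_assoc, mul_assoc]
      congr 1
      rw [← mul_assoc, ← mul_assoc]
      have h3 : Commute ((N : Module.End ℤ M) ^ (J - i) * ψ ^ i) (J.choose i : Module.End ℤ M) :=
        (Nat.cast_commute _ _).symm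
      rw [h3.eq, mul_assoc]
    have h3 := hnil y
    rw [show j + 1 = J from rfl, h1] at h3
    simpa using h3
  let M' := Ms g J
  have hgM : ∀ i < J, ∀ y, g i y ∈ M' := fun i hi y => range_le_Ms g hi ⟨y, rfl⟩
  have hJ1 : J = j + 1 := rfl
  have hgJ : ∀ y, g J y ∈ M' := by
    intro y
    have h1 := hsum y
    rw [Finset.sum_range_succ] at h1
    have h2 : c J = 1 := by simp [c]
    rw [h2, one_smul] at h1
    rw [eq_neg_of_add_eq_zero_right h1]
    exact M'.neg_mem (M'.sum_mem fun i hi => M'.smul_mem _ (hgM i (Finset.mem_range.1 hi) y))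
  have hfwd : ∀ z ∈ M', ∃ z' ∈ M', ι z' = T * ι z * T⁻¹ := by
    let P : Submodule ℤ M :=
      { carrier := {z | ∃ z' ∈ M', ι z' = T * ι z * T⁻¹}
        add_mem' := by
          rintro a b ⟨a', ha', ha⟩ ⟨b', hb', hb⟩
          exact ⟨a' + b', M'.add_mem ha' hb', rel_add E ha hb⟩
        zero_mem' := ⟨0, M'.zero_mem, rel_zero E T⟩
        smul_mem' := by
          rintro c z ⟨z', hz', hz⟩
          rcases Int.natAbs_eq c with h1 | h1
          · refine ⟨c.natAbs • z', M'.smul_of_tower_mem _ hz', ?_⟩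
            rw [h1, Int.natAbs_natCast, natCast_zsmul]
            exact smul_rel E hz _
          · refine ⟨-(c.natAbs • z'), M'.neg_mem (M'.smul_of_tower_mem _ hz'), ?_⟩
            rw [h1, Int.natAbs_neg, Int.natAbs_natCast, neg_smul, natCast_zsmul]
            exact rel_neg E (smul_rel E hz _) }
    have hle : M' ≤ P := by
      apply Ms_le
      rintro i hi _ ⟨y, rfl⟩
      refine ⟨g (i + 1) y, ?_, hstep i hi y⟩
      rcases Nat.lt_or_ge (i + 1) J with h | h
      · exact hgM _ h y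
      · have : i + 1 = J := by omega
        rw [this]
        exact hgJ y
    exact fun z hz => hle hz
  have hrelinv : ∀ {x y : M}, ι y = T * ι x * T⁻¹ → ι x = T⁻¹ * ι y * T⁻¹⁻¹ := by
    intro x y h
    rw [h]
    group
  have hbwd : ∀ z ∈ M', ∃ z' ∈ M', ι z' = T⁻¹ * ι z * T⁻¹⁻¹ := by
    let P : Submodule ℤ M :=
      { carrier := {z | ∃ z' ∈ M', ι z' = T⁻¹ * ι z * T⁻¹⁻¹}
        add_mem' := by
          rintro a b ⟨a', ha', ha⟩ ⟨b', hb', hb⟩
          exact ⟨a' + b', M'.add_mem ha' hb', rel_add E ha hb⟩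
        zero_mem' := ⟨0, M'.zero_mem, rel_zero E T⁻¹⟩
        smul_mem' := by
          rintro c z ⟨z', hz', hz⟩
          rcases Int.natAbs_eq c with h1 | h1
          · refine ⟨c.natAbs • z', M'.smul_of_tower_mem _ hz', ?_⟩
            rw [h1, Int.natAbs_natCast, natCast_zsmul]
            exact smul_rel E hz _
          · refine ⟨-(c.natAbs • z'), M'.neg_mem (M'.smul_of_tower_mem _ hz'), ?_⟩
            rw [h1, Int.natAbs_neg, Int.natAbs_natCast, neg_smul, natCast_zsmul]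
            exact rel_neg E (smul_rel E hz _) }
    have hsucc : ∀ i, i < J → ∀ y, g (i + 1) y ∈ P := by
      intro i hi y
      exact ⟨g i y, hgM i hi y, hrelinv (hstep i hi y)⟩
    have hle : M' ≤ P := by
      apply Ms_le
      rintro i hi _ ⟨y, rfl⟩
      rcases Nat.eq_zero_or_pos i with h0 | hpos
      · rw [h0]
        have h1 := hsum y
        rw [Finset.sum_range_succ'] at h1
        have h2 : c 0 • g 0 y = -∑ i ∈ Finset.range J, c (i + 1) • g (i + 1) y :=
          eq_neg_of_add_eq_zero_right h1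
        have h3 : c 0 • g 0 y ∈ P := by
          rw [h2]
          exact P.neg_mem (P.sum_mem fun i hi => P.smul_mem _ (hsucc i (Finset.mem_range.1 hi) y))
        have h4 : c 0 * c 0 = 1 := by
          simp only [c, Nat.sub_zero, Nat.choose_zero_right, Nat.cast_one, mul_one]
          rw [← mul_pow]
          norm_num
        have h5 := P.smul_mem (c 0) h3
        rwa [← mul_smul, h4, one_smul] at h5
      · obtain ⟨i', rfl⟩ : ∃ i', i = i' + 1 := ⟨i - 1, by omega⟩
        exact hsucc i' (by omega) y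
    exact fun z hz => hle hz
  have hnorm : T ∈ Subgroup.normalizer ((sg E M' : Subgroup G) : Set G) := by
    rw [Subgroup.mem_normalizer_iff]
    intro x
    constructor
    · rintro ⟨z, hz, rfl⟩
      obtain ⟨z', hz', h⟩ := hfwd z hz
      exact ⟨z', hz', h⟩
    · rintro ⟨z, hz, h⟩
      obtain ⟨z', hz', h'⟩ := hbwd z hz
      refine ⟨z', hz', ?_⟩
      rw [h', h]
      group
  refine core (emb_sub E M') (sg_def E M' (Ms_def E hA g hrep J)) T hnorm ?_
  intro k hk
  obtain ⟨y, hy⟩ := hinf k hk (N ^ J) (pow_pos hQ.1 J)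
  refine ⟨⟨g 0 y, hgM 0 (by omega) y⟩, ?_⟩
  have h1 : g 0 y = (N ^ J) • y := rfl
  show T ^ k * ι (g 0 y) * (T ^ k)⁻¹ ≠ ι (g 0 y)
  rw [h1]
  exact hy

end unip

section final
variable {G : Type} [Group G]

/-- Reduction to a torsion-free group. -/
theorem exists_torsionfree (A : Subgroup G) (hfg : A.FG)
    (hc : ∀ a ∈ A, ∀ b ∈ A, a * b = b * a) : ∃ (k : ℕ) (M : Type) (_ : AddCommGroup M)
      (_ : Module.Finite ℤ M) (_ : Module.IsTorsionFree ℤ M) (ι : M → G),
      0 < k ∧ Emb (powSub A hc k) ι := by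
  classical
  let _ : CommGroup A := { (inferInstance : Group A) with
    mul_comm := fun a b => Subtype.ext (hc a a.2 b b.2) }
  let M₀ := Additive A
  let ι₀ : M₀ → G := fun x => ((Additive.toMul x : A) : G)
  have E₀ : Emb A ι₀ :=
    { inj := fun x y h => by
        have : (Additive.toMul x : A) = Additive.toMul y := Subtype.ext h
        exact Additive.toMul.injective this
      add := fun x y => rfl
      mem := fun g => ⟨fun hg => ⟨Additive.ofMul ⟨g, hg⟩, rfl⟩, by rintro ⟨y, rfl⟩; exact (Additive.toMul y).2⟩ }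
  have hfin : Module.Finite ℤ M₀ := by
    rw [Module.Finite.iff_addGroup_fg]
    have h1 : Group.FG A := (Group.fg_iff_subgroup_fg A).2 hfg
    exact GroupFG.iff_add_fg.1 h1
  let T : Submodule ℤ M₀ :=
    { carrier := {y | ∃ n : ℕ, n ≠ 0 ∧ n • y = 0}
      add_mem' := by
        rintro y z ⟨n, hn, h⟩ ⟨m, hm, h'⟩
        refine ⟨n * m, mul_ne_zero hn hm, ?_⟩
        rw [smul_add, mul_comm n m, mul_smul, h, smul_zero, mul_comm m n, mul_smul, h', smul_zero,
          add_zero]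
      zero_mem' := ⟨1, one_ne_zero, smul_zero _⟩
      smul_mem' := by
        rintro a y ⟨n, hn, h⟩
        exact ⟨n, hn, by rw [smul_comm, h, smul_zero]⟩ }
  obtain ⟨k, hk, hkT⟩ := uniform T ⊥ (by
    rintro y ⟨n, hn, h⟩
    exact ⟨n, hn, h⟩)
  have hkT' : ∀ y ∈ T, k • y = 0 := fun y hy => hkT y hy
  let L : M₀ →ₗ[ℤ] M₀ := (k : ℤ) • LinearMap.id
  let M := LinearMap.range L
  let ι : M → G := fun m => ι₀ m
  have E : Emb (powSub A hc k) ι :=
    { inj := fun x y h => Subtype.ext (E₀.inj h)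
      add := fun x y => by
        show ι₀ ((x + y : M) : M₀) = _
        rw [Submodule.coe_add, E₀.add]
      mem := fun g => by
        rw [mem_powSub]
        constructor
        · rintro ⟨a, ha, rfl⟩
          obtain ⟨y, rfl⟩ := (E₀.mem a).1 ha
          refine ⟨⟨L y, ⟨y, rfl⟩⟩, ?_⟩
          show ι₀ ((k : ℤ) • y) = _
          rw [natCast_zsmul, E₀.nsmul]
        · rintro ⟨⟨_, ⟨y, rfl⟩⟩, rfl⟩
          refine ⟨ι₀ y, E₀.memι y, ?_⟩
          show _ = ι₀ ((k : ℤ) • y)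
          rw [natCast_zsmul, E₀.nsmul] }
  have htf : Module.IsTorsionFree ℤ M := by
    rw [Module.isTorsionFree_iff_smul_eq_zero]
    rintro a ⟨_, ⟨y, rfl⟩⟩ h
    by_cases ha : a = 0
    · exact Or.inl ha
    right
    apply Subtype.ext
    have h1 : a • ((k : ℤ) • y) = 0 := congrArg Subtype.val h
    have h2 : y ∈ T := by
      refine ⟨a.natAbs * k, mul_ne_zero (by simpa using ha) (by omega), ?_⟩
      rw [mul_smul, ← natCast_zsmul _ k, ← natCast_zsmul]
      rcases Int.natAbs_eq a with h3 | h3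
      · rw [← h3]
        exact h1
      · have h4 : ((a.natAbs : ℕ) : ℤ) = -a := by omega
        rw [h4, neg_smul, h1, neg_zero]
    show (k : ℤ) • y = 0
    rw [natCast_zsmul]
    exact hkT' y h2
  exact ⟨k, M, inferInstance, inferInstance, htf, ι, hk, E⟩

/-- Commensurated abelian subgroups. -/
theorem commT (A : Subgroup G) (hfg : A.FG) (hc : ∀ a ∈ A, ∀ b ∈ A, a * b = b * a)
    (hA : DefinableSet (A : Set G)) (t : G) (N : ℕ) (hN : 0 < N)
    (ht : ∀ a ∈ A, t * a ^ N * t⁻¹ ∈ A)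
    (hinf : ∀ k : ℕ, 0 < k → ∀ m : ℕ, 0 < m → ∃ a ∈ A, t ^ k * a ^ m * (t ^ k)⁻¹ ≠ a ^ m) :
    Undec G := by
  classical
  obtain ⟨k₀, M, i1, i2, i3, ι, hk₀, E⟩ := exists_torsionfree A hfg hc
  have hA' := powSub_def hc k₀ hA
  have h1 : ∀ y : M, ∃ z : M, ι z = t * ι (N • y) * t⁻¹ := by
    intro y
    rw [← E.mem, mem_powSub]
    obtain ⟨a, ha, hay⟩ := (mem_powSub hc k₀).1 (E.memι y)
    refine ⟨t * a ^ N * t⁻¹, ht a ha, ?_⟩
    rw [conj_pow, E.nsmul, ← hay, ← pow_mul, ← pow_mul, mul_comm]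
  choose f hf using h1
  let φ : Module.End ℤ M := (AddMonoidHom.toIntLinearMap
    { toFun := f
      map_zero' := by
        apply E.inj
        rw [hf, smul_zero]
        exact (rel_zero E t).symm
      map_add' := fun x y => by
        apply E.inj
        rw [hf, smul_add]
        exact (rel_add E (hf x) (hf y)).symm })
  have hQ : QA ι t N φ := ⟨hN, hf⟩
  obtain ⟨R, j1, j2, j3, hR1, hR2, hR3, hR4⟩ := exists_ringQ E t
  obtain ⟨α, hα⟩ := hR1 t N φ (ZC.self t) hQ
  have hαpow : ∀ (i : ℕ) (z : M), α ^ i • z = (φ ^ i) z := by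
    intro i
    induction i with
    | zero => intro z; simp
    | succ i ih =>
      intro z
      rw [pow_succ, pow_succ, mul_smul, ih, hα]
      rfl
  have hcast : ∀ (n : ℕ) (y : M), (n : R) • y = n • y := fun n y => Nat.cast_smul_eq_nsmul R n y
  have hM : IsNoetherian R M := isNoetherian_of_tower ℤ inferInstance
  obtain ⟨e, he, j, hdich⟩ := dichotomy2 (M := M) α (N : R)
  by_cases hne : ∃ y : M, (α ^ e - (N : R) ^ e) ^ j • y ≠ 0
  · let δ : Module.End ℤ M := (φ ^ e - ((N ^ e : ℕ) : Module.End ℤ M)) ^ j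
    have hδ1 : ∀ y, (φ ^ e - ((N ^ e : ℕ) : Module.End ℤ M)) y = (α ^ e - (N : R) ^ e) • y := by
      intro y
      rw [LinearMap.sub_apply, sub_smul, hαpow, ← Nat.cast_pow, hcast]
      congr 1
    have hδ : ∀ y, δ y = (α ^ e - (N : R) ^ e) ^ j • y := by
      have : ∀ (i : ℕ) (y : M), ((φ ^ e - ((N ^ e : ℕ) : Module.End ℤ M)) ^ i) y =
          (α ^ e - (N : R) ^ e) ^ i • y := by
        intro i
        induction i with
        | zero => intro y; simp
        | succ i ih =>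
          intro y
          rw [pow_succ, pow_succ, mul_smul]
          show ((φ ^ e - ((N ^ e : ℕ) : Module.End ℤ M)) ^ i)
            ((φ ^ e - ((N ^ e : ℕ) : Module.End ℤ M)) y) = _
          rw [ih, hδ1]
      exact this j
    have hrep : Rep ι δ := by
      apply Rep.pow E
      obtain ⟨f₁, hf₁, hf₂⟩ := Rep.pow E (Rep.of_QA E hQ) e
      refine ⟨fun z => f₁ z * (z ^ (N ^ e))⁻¹, fun z hz => (hf₁ z hz).mul (Tm.pow' hz _).inv,
        fun y => ?_⟩
      show _ = f₁ (ι y) * (ι y ^ (N ^ e))⁻¹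
      rw [LinearMap.sub_apply, E.sub, hf₂, ← E.nsmul]
      rfl
    have hcommφ : ∀ y, φ (δ y) = δ (φ y) := by
      intro y
      rw [hδ, hδ, ← hα, ← hα, smul_comm]
    refine commS' E t N φ hQ (LinearMap.range δ) ?_ ?_ ?_ ?_
    · obtain ⟨y, hy⟩ := hne
      intro h0
      apply hy
      have h2 : δ y ∈ LinearMap.range δ := ⟨y, rfl⟩
      rw [h0, Submodule.mem_bot, hδ] at h2
      exact h2
    · obtain ⟨f₁, hf₁, hf₂⟩ := hrep
      have h2 : Df fun s : ℕ → G => ∃ a, a ∈ ((powSub A hc k₀ : Subgroup G) : Set G) ∧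
          s 0 = f₁ a := by
        apply Df.exi (R := fun a s => a ∈ ((powSub A hc k₀ : Subgroup G) : Set G) ∧ s 0 = f₁ a)
        exact (DefinableSet.df hA' (Tm.var 0)).and (Df.eq (Tm.var 1) (hf₁ _ (Tm.var 0)))
      refine h2.congr fun s => ?_
      constructor
      · rintro ⟨_, ⟨y, rfl⟩, h⟩
        exact ⟨ι y, E.memι y, by rw [← h, hf₂]⟩
      · rintro ⟨a, ha, h⟩
        obtain ⟨y, rfl⟩ := (E.mem a).1 ha
        exact ⟨δ y, ⟨y, rfl⟩, by rw [h, hf₂]⟩
    · rintro _ ⟨y, rfl⟩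
      exact ⟨φ y, (hcommφ y).symm⟩
    · rintro k hk _ ⟨y, rfl⟩ h
      rw [hδ]
      apply hdich k hk
      rw [sub_smul, ← hδ, hαpow, h, ← Nat.cast_pow, hcast, sub_self]
  · push Not at hne
    have hδ1 : ∀ y, (φ ^ e - ((N ^ e : ℕ) : Module.End ℤ M)) y = (α ^ e - (N : R) ^ e) • y := by
      intro y
      rw [LinearMap.sub_apply, sub_smul, hαpow, ← Nat.cast_pow, hcast]
      congr 1
    have hδ : ∀ (i : ℕ) (y : M), ((φ ^ e - ((N ^ e : ℕ) : Module.End ℤ M)) ^ i) y =
          (α ^ e - (N : R) ^ e) ^ i • y := by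
      intro i
      induction i with
      | zero => intro y; simp
      | succ i ih =>
        intro y
        rw [pow_succ, pow_succ, mul_smul]
        show ((φ ^ e - ((N ^ e : ℕ) : Module.End ℤ M)) ^ i)
          ((φ ^ e - ((N ^ e : ℕ) : Module.End ℤ M)) y) = _
        rw [ih, hδ1]
    refine commU E hA' (t ^ e) (N ^ e) (φ ^ e) (QA.pow E hQ e) j ?_ ?_
    · intro y
      rw [hδ, pow_succ', mul_smul, hne, smul_zero]
    · intro k hk m hm
      obtain ⟨a, ha, hne⟩ := hinf (e * k) (Nat.mul_pos he hk) (k₀ * m) (Nat.mul_pos hk₀ hm)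
      have h2 : a ^ k₀ ∈ powSub A hc k₀ := ⟨a, ha, rfl⟩
      obtain ⟨y, hy⟩ := (E.mem _).1 h2
      refine ⟨y, ?_⟩
      rw [E.nsmul, hy, ← pow_mul, ← pow_mul]
      exact hne

end final

end Pool.Agent.Helper657_nd.Comm
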