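import Pool.Agent.Helper657_nd.SegPoly

set_option autoImplicit false

/-!
# Finite initial segments in domains whose additive group is minimax
-/

namespace Pool.Agent.Helper657_nd.Seg

open Polynomial

/-- every element has a multiple by a power of `s` in a fixed finitely generated subgroup -/
def MM (s : ℕ) (M : Type) [AddCommGroup M] : Prop :=
  ∃ S : Finset M, ∀ y : M, ∃ k : ℕ, s ^ k • y ∈ AddSubgroup.closure (S : Set M)

theorem Zs.add {s : ℕ} {a b : ℚ} (ha : Zs s a) (hb : Zs s b) : Zs s (a + b) := by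
  obtain ⟨k, n, hn⟩ := ha
  obtain ⟨l, m, hm⟩ := hb
  refine ⟨k + l, n * s ^ l + m * s ^ k, ?_⟩
  push_cast
  rw [← hn, ← hm, pow_add]
  ring

theorem Zs.mul {s : ℕ} {a b : ℚ} (ha : Zs s a) (hb : Zs s b) : Zs s (a * b) := by
  obtain ⟨k, n, hn⟩ := ha
  obtain ⟨l, m, hm⟩ := hb
  refine ⟨k + l, n * m, ?_⟩
  push_cast
  rw [← hn, ← hm, pow_add]
  ring

theorem Zs.int (s : ℕ) (n : ℤ) : Zs s n := ⟨0, n, by simp⟩

theorem Zs.neg {s : ℕ} {a : ℚ} (ha : Zs s a) : Zs s (-a) := by
  obtain ⟨k, n, hn⟩ := ha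
  refine ⟨k, -n, ?_⟩
  push_cast
  rw [← hn]
  ring

/-- the subring `ℤ[1/s]` of `ℚ` -/
def ZsR (s : ℕ) : Subring ℚ where
  carrier := {q | Zs s q}
  mul_mem' := Zs.mul
  one_mem' := by simpa using Zs.int s 1
  add_mem' := Zs.add
  zero_mem' := by simpa using Zs.int s 0
  neg_mem' := Zs.neg

theorem mem_ZsR {s : ℕ} {q : ℚ} : q ∈ ZsR s ↔ Zs s q := Iff.rfl

section rep
variable (O F : Type) [CommRing O] [IsDomain O] [CharZero O] [Field F] [CharZero F] [Algebra O F]
  [IsFractionRing O F]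

theorem fracs (s : ℕ) (hs : 0 < s) (h : MM s O) : FiniteDimensional ℚ F ∧
    ∀ f : F, ∃ (n : ℕ) (x : O), n ≠ 0 ∧ (n : F) * f = algebraMap O F x := by
  classical
  obtain ⟨S, hS⟩ := h
  let E : Submodule ℚ F := Submodule.span ℚ ((S.image (algebraMap O F) : Finset F) : Set F)
  have hclos : ∀ x ∈ AddSubgroup.closure (S : Set O), algebraMap O F x ∈ E := by
    intro x hx
    induction hx using AddSubgroup.closure_induction with
    | mem y hy =>
      apply Submodule.subset_span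
      rw [Finset.coe_image]
      exact ⟨y, hy, rfl⟩
    | zero => rw [map_zero]; exact E.zero_mem
    | add y z _ _ hy hz => rw [map_add]; exact E.add_mem hy hz
    | neg y _ hy => rw [map_neg]; exact E.neg_mem hy
  have hsF : (s : F) ≠ 0 := by exact_mod_cast hs.ne'
  have hsmul : ∀ (q : ℚ) (f : F), q • f = (q : F) * f := fun q f => by
    rw [Algebra.smul_def]
    simp
  have hO : ∀ x : O, algebraMap O F x ∈ E := by
    intro x
    obtain ⟨k, hk⟩ := hS x
    have h1 := E.smul_mem (((s : ℚ) ^ k)⁻¹) (hclos _ hk)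
    rw [hsmul, map_nsmul, nsmul_eq_mul] at h1
    push_cast at h1
    rwa [inv_mul_cancel_left₀ (pow_ne_zero _ hsF)] at h1
  have hmul : ∀ (x : O) (f : F), f ∈ E → algebraMap O F x * f ∈ E := by
    intro x f hf
    induction hf using Submodule.span_induction with
    | mem y hy =>
      rw [Finset.coe_image] at hy
      obtain ⟨z, _, rfl⟩ := hy
      rw [← map_mul]
      exact hO _
    | zero => rw [mul_zero]; exact E.zero_mem
    | add y z _ _ hy hz => rw [mul_add]; exact E.add_mem hy hz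
    | smul q y _ hy => rw [mul_smul_comm]; exact E.smul_mem q hy
  have hinj := IsFractionRing.injective O F
  have hinv : ∀ x : O, x ≠ 0 → (algebraMap O F x)⁻¹ ∈ E := by
    intro x hx
    have hx' : algebraMap O F x ≠ 0 := fun h0 => hx (hinj (h0.trans (map_zero _).symm))
    let g : E →ₗ[ℚ] E := (LinearMap.mulLeft ℚ (algebraMap O F x)).restrict (fun f hf => hmul x f hf)
    have hg : Function.Injective g := by
      intro a b hab
      apply Subtype.ext
      have h1 : algebraMap O F x * a = algebraMap O F x * b := congrArg Subtype.val hab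
      exact mul_left_cancel₀ hx' h1
    obtain ⟨y, hy⟩ := (LinearMap.injective_iff_surjective.1 hg) ⟨1, by
      have := hO 1
      rwa [map_one] at this⟩
    have h1 : algebraMap O F x * y = 1 := congrArg Subtype.val hy
    rw [← eq_inv_of_mul_eq_one_right h1]
    exact y.2
  have htop : E = ⊤ := by
    rw [eq_top_iff]
    rintro f -
    obtain ⟨a, b, hb, rfl⟩ := IsFractionRing.div_surjective (A := O) f
    rw [div_eq_mul_inv]
    exact hmul a _ (hinv b (nonZeroDivisors.ne_zero hb))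
  refine ⟨⟨⟨_, htop⟩⟩, fun f => ?_⟩
  have hf : f ∈ E := by rw [htop]; exact Submodule.mem_top
  induction hf using Submodule.span_induction with
  | mem y hy =>
    rw [Finset.coe_image] at hy
    obtain ⟨z, _, rfl⟩ := hy
    exact ⟨1, z, one_ne_zero, by simp⟩
  | zero => exact ⟨1, 0, one_ne_zero, by simp⟩
  | add y z _ _ hy hz =>
    obtain ⟨n, a, hn, ha⟩ := hy
    obtain ⟨m, b, hm, hb⟩ := hz
    refine ⟨n * m, m * a + n * b, mul_ne_zero hn hm, ?_⟩
    rw [map_add, map_mul, map_mul, ← ha, ← hb]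
    simp
    ring
  | smul q y _ hy =>
    obtain ⟨n, a, hn, ha⟩ := hy
    refine ⟨n * q.den, q.num * a, mul_ne_zero hn q.den_ne_zero, ?_⟩
    rw [hsmul, map_mul, ← ha]
    have h1 : (q : F) * q.den = q.num := by
      have := Rat.mul_den_eq_num q
      exact_mod_cast this
    simp only [map_intCast]
    push_cast
    rw [← h1]
    ring

include F in
theorem exists_rep_aux (s : ℕ) (hs : 0 < s) (h : MM s O) :
    ∃ (ι : Type) (_ : Fintype ι) (_ : DecidableEq ι) (_ : Nonempty ι)
      (μ : O →+* Matrix ι ι ℚ), Function.Injective μ ∧ (∀ x i j, Zs s (μ x i j)) ∧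
      (∀ x, x ≠ 0 → (μ x).det ≠ 0) ∧
      ∀ x : O, x ≠ 0 → ∃ (n : ℕ) (x' : O), n ≠ 0 ∧ x * x' = n := by
  classical
  obtain ⟨hfd, hfrac⟩ := fracs O F s hs h
  obtain ⟨S, hS⟩ := h
  have hinj := IsFractionRing.injective O F
  let O₀ : Submodule ℤ O := Submodule.span ℤ (S : Set O)
  have hO₀ : ∀ x : O, ∃ k : ℕ, s ^ k • x ∈ O₀ := by
    intro x
    obtain ⟨k, hk⟩ := hS x
    refine ⟨k, ?_⟩
    have h1 : AddSubgroup.closure (S : Set O) ≤ O₀.toAddSubgroup := by
      rw [AddSubgroup.closure_le]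
      exact Submodule.subset_span
    exact h1 hk
  have hfin : Module.Finite ℤ O₀ := Module.Finite.span_finset ℤ S
  let b := Module.Free.chooseBasis ℤ O₀
  let v : Module.Free.ChooseBasisIndex ℤ O₀ → F := fun i => algebraMap O F (b i : O)
  have hvZ : LinearIndependent ℤ v := by
    have h1 : LinearIndependent ℤ (fun i => (b i : O)) :=
      b.linearIndependent.map' O₀.subtype (Submodule.ker_subtype _)
    have h2 : Function.Injective ((algebraMap O F).toIntAlgHom.toLinearMap) := hinj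
    exact h1.map' ((algebraMap O F).toIntAlgHom.toLinearMap) (LinearMap.ker_eq_bot.2 h2)
  have hvQ : LinearIndependent ℚ v := (LinearIndependent.iff_fractionRing ℤ ℚ).1 hvZ
  have hsF : (s : F) ≠ 0 := by exact_mod_cast hs.ne'
  have hsmul : ∀ (q : ℚ) (f : F), q • f = (q : F) * f := fun q f => by
    rw [Algebra.smul_def]
    simp
  have hspan : ⊤ ≤ Submodule.span ℚ (Set.range v) := by
    rintro f -
    obtain ⟨n, x, hn, hx⟩ := hfrac f
    obtain ⟨k, hk⟩ := hO₀ x
    have h1 : algebraMap O F (s ^ k • x) ∈ Submodule.span ℚ (Set.range v) := by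
      have h2 := b.sum_repr ⟨s ^ k • x, hk⟩
      have h3 : (s ^ k • x : O) = ∑ i, b.repr ⟨s ^ k • x, hk⟩ i • (b i : O) := by
        have := congrArg (fun z : O₀ => (z : O)) h2
        simp only [Submodule.coe_sum, Submodule.coe_smul_of_tower] at this
        exact this.symm
      rw [h3, map_sum]
      refine Submodule.sum_mem _ fun i _ => ?_
      rw [map_zsmul, ← Int.cast_smul_eq_zsmul ℚ]
      exact Submodule.smul_mem _ _ (Submodule.subset_span ⟨i, rfl⟩)
    have hn' : (n : F) ≠ 0 := by exact_mod_cast hn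
    have h4 := Submodule.smul_mem (Submodule.span ℚ (Set.range v)) ((n * (s : ℚ) ^ k)⁻¹) h1
    rw [hsmul, map_nsmul, nsmul_eq_mul, ← hx] at h4
    push_cast at h4
    have h5 : ((n : F) * (s : F) ^ k)⁻¹ * ((s : F) ^ k * ((n : F) * f)) = f := by
      field_simp
    rwa [h5] at h4
  let bF : Module.Basis (Module.Free.ChooseBasisIndex ℤ O₀) ℚ F := Module.Basis.mk hvQ hspan
  have hbF : ∀ i, bF i = algebraMap O F (b i : O) := fun i => by
    rw [Module.Basis.mk_apply]
  have hexists : ∀ x : O, x ≠ 0 → ∃ (n : ℕ) (x' : O), n ≠ 0 ∧ x * x' = n := by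
    intro x hx
    have hx' : algebraMap O F x ≠ 0 := fun h0 => hx (hinj (h0.trans (map_zero _).symm))
    obtain ⟨n, x', hn, h1⟩ := hfrac (algebraMap O F x)⁻¹
    refine ⟨n, x', hn, hinj ?_⟩
    rw [map_mul, ← h1, map_natCast]
    field_simp
  have hne : Nonempty (Module.Free.ChooseBasisIndex ℤ O₀) := by
    by_contra hcon
    rw [not_nonempty_iff] at hcon
    have h1 : (1 : F) = 0 := by
      rw [← bF.repr.map_eq_zero_iff]
      ext i
      exact hcon.elim i
    exact one_ne_zero h1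
  let μ : O →+* Matrix (Module.Free.ChooseBasisIndex ℤ O₀) (Module.Free.ChooseBasisIndex ℤ O₀) ℚ :=
    (Algebra.leftMulMatrix bF).toRingHom.comp (algebraMap O F)
  have hμ : Function.Injective μ := (Algebra.leftMulMatrix_injective bF).comp hinj
  refine ⟨_, inferInstance, inferInstance, hne, μ, hμ, ?_, ?_, hexists⟩
  · intro x i j
    show Zs s (Algebra.leftMulMatrix bF (algebraMap O F x) i j)
    rw [Algebra.leftMulMatrix_eq_repr_mul, hbF, ← map_mul]
    obtain ⟨k, hk⟩ := hO₀ (x * (b j : O))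
    refine ⟨k, b.repr ⟨_, hk⟩ i, ?_⟩
    have h2 := b.sum_repr ⟨_, hk⟩
    have h3 : (s ^ k • (x * (b j : O)) : O) = ∑ i, b.repr ⟨_, hk⟩ i • (b i : O) := by
      have := congrArg (fun z : O₀ => (z : O)) h2
      simp only [Submodule.coe_sum, Submodule.coe_smul_of_tower] at this
      exact this.symm
    have h4 : (s : ℚ) ^ k • algebraMap O F (x * (b j : O)) =
        ∑ i, ((b.repr ⟨_, hk⟩ i : ℤ) : ℚ) • bF i := by
      have h5 : (s : ℚ) ^ k • algebraMap O F (x * (b j : O)) =
          algebraMap O F (s ^ k • (x * (b j : O))) := by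
        rw [hsmul, map_nsmul, nsmul_eq_mul]
        push_cast
        rfl
      have h7 := congrArg (algebraMap O F) h3
      rw [h5]
      refine h7.trans ?_
      rw [map_sum]
      refine Finset.sum_congr rfl fun i _ => ?_
      rw [map_zsmul, hbF, Int.cast_smul_eq_zsmul]
    have h6 := congrArg (fun z => bF.repr z i) h4
    simp only [map_smul, Finsupp.smul_apply, map_sum, Module.Basis.repr_self, smul_eq_mul,
      Finsupp.coe_finsetSum, Finset.sum_apply, Finsupp.single_apply, mul_ite, mul_one, mul_zero,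
      Finset.sum_ite_eq, Finset.sum_ite_eq', Finset.mem_univ, if_true] at h6
    rw [mul_comm]
    exact h6
  · intro x hx h0
    obtain ⟨n, x', hn, h1⟩ := hexists x hx
    have h2 := congrArg (fun z => (μ z).det) h1
    simp only [map_mul, Matrix.det_mul, h0, zero_mul, map_natCast] at h2
    rw [eq_comm] at h2
    have h3 : ((n : Matrix (Module.Free.ChooseBasisIndex ℤ O₀)
        (Module.Free.ChooseBasisIndex ℤ O₀) ℚ)).det = (n : ℚ) ^
          Fintype.card (Module.Free.ChooseBasisIndex ℤ O₀) := by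
      have : ((n : Matrix (Module.Free.ChooseBasisIndex ℤ O₀)
        (Module.Free.ChooseBasisIndex ℤ O₀) ℚ)) = (n : ℚ) • 1 := by
        ext i j
        simp [Matrix.natCast_apply, Matrix.one_apply]
      rw [this, Matrix.det_smul, Matrix.det_one, mul_one]
    rw [h3] at h2
    exact pow_ne_zero _ (by exact_mod_cast hn) h2

end rep

theorem exists_rep (O : Type) [CommRing O] [IsDomain O] [CharZero O] (s : ℕ) (hs : 0 < s)
    (h : MM s O) :
    ∃ (ι : Type) (_ : Fintype ι) (_ : DecidableEq ι) (_ : Nonempty ι)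
      (μ : O →+* Matrix ι ι ℚ), Function.Injective μ ∧ (∀ x i j, Zs s (μ x i j)) ∧
      (∀ x, x ≠ 0 → (μ x).det ≠ 0) ∧
      ∀ x : O, x ≠ 0 → ∃ (n : ℕ) (x' : O), n ≠ 0 ∧ x * x' = n := by
  have hcz : CharZero (FractionRing O) :=
    charZero_of_injective_algebraMap (IsFractionRing.injective O (FractionRing O))
  exact exists_rep_aux O (FractionRing O) s hs h

/-- finite initial segments are given by divisibility conditions -/
def SegProp (O : Type) [CommRing O] (K : ℕ) : Prop :=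
  0 < K ∧ ∀ c : ℕ, 0 < c → ∀ N : ℕ, ∃ h f g : ℕ,
    (∀ j, 1 ≤ j → j ≤ N → (∀ i < K, (j + i) ∣ h) ∧ (1 + f * j) ∣ g) ∧
    ∀ x : O, (∀ i < K, x + ((c * i : ℕ) : O) ∣ ((c ^ 2 * h : ℕ) : O)) →
      ((c : O) + f * x ∣ ((c ^ 2 * g : ℕ) : O)) → ∃ j, 1 ≤ j ∧ j ≤ N ∧ x = ((c * j : ℕ) : O)

section seg
variable {O : Type} [CommRing O] {ι : Type} [Fintype ι] [DecidableEq ι]

theorem rep_coeff (s : ℕ) (M : Matrix ι ι ℚ) (h : ∀ i j, Zs s (M i j)) (n : ℕ) :
    Zs s (M.charpoly.coeff n) ∧ Zs s (M.charpolyRev.coeff n) := by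
  let M' : Matrix ι ι (ZsR s) := fun i j => ⟨M i j, h i j⟩
  have hM : M = M'.map (ZsR s).subtype := by
    ext i j
    rfl
  have h0 : ∀ n, Zs s (M.charpoly.coeff n) := by
    intro n
    rw [hM, Matrix.charpoly_map, coeff_map]
    exact (M'.charpoly.coeff n).2
  refine ⟨h0 n, ?_⟩
  rw [← Matrix.reverse_charpoly, coeff_reverse]
  exact h0 _

theorem rep_eval (μ : O →+* Matrix ι ι ℚ) (x : O) (n : ℤ) :
    (μ (-x)).charpoly.eval (n : ℚ) = (μ (x + n)).det := by
  rw [Matrix.eval_charpoly]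
  congr 1
  rw [map_add, map_neg, map_intCast]
  ext i j
  simp only [Matrix.sub_apply, Matrix.neg_apply, Matrix.add_apply]
  by_cases hij : i = j
  · subst hij
    simp [Matrix.intCast_apply]
    ring
  · simp [Matrix.intCast_apply, hij]

theorem rep_rev (μ : O →+* Matrix ι ι ℚ) (x : O) (f : ℕ) :
    (μ (-x)).charpolyRev.eval (f : ℚ) = (μ (1 + (f : O) * x)).det := by
  show Polynomial.eval _ (Matrix.det (1 - (X : ℚ[X]) • (μ (-x)).map C)) = _
  rw [← Polynomial.coe_evalRingHom, RingHom.map_det]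
  congr 1
  have h1 : μ (1 + (f : O) * x) = 1 + (f : ℚ) • μ x := by
    rw [map_add, map_mul, map_one, map_natCast, Nat.cast_smul_eq_nsmul, nsmul_eq_mul]
  rw [h1, map_neg]
  ext i j
  by_cases hij : i = j
  · subst hij
    simp [Matrix.add_apply]
    ring
  · simp [Matrix.add_apply, hij]
    ring

theorem rep_root (μ : O →+* Matrix ι ι ℚ) (hμ : Function.Injective μ) (P : ℤ[X]) (x : O)
    (h : aeval (μ x) (P.map (Int.castRingHom ℚ)) = 0) : aeval x P = 0 := by
  apply hμ
  rw [map_zero, ← h]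
  have h1 : μ (aeval x P) = aeval (μ x) P := by
    rw [aeval_def, aeval_def, hom_eval₂]
    congr 1
    exact RingHom.ext_int _ _
  rw [h1]
  have h2 : (Int.castRingHom ℚ) = algebraMap ℤ ℚ := rfl
  rw [h2, Polynomial.aeval_map_algebraMap]

end seg

theorem segProp_ge (O : Type) [CommRing O] [IsDomain O] [CharZero O] (s : ℕ) (hs : 0 < s)
    (h : MM s O) : ∃ K₀, 0 < K₀ ∧ ∀ K ≥ K₀, ∀ c : ℕ, 0 < c → ∀ N : ℕ, ∃ h f g : ℕ, h ≠ 0 ∧
    (∀ j, 1 ≤ j → j ≤ N → (∀ i < K, (j + i) ∣ h) ∧ (1 + f * j) ∣ g) ∧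
    ∀ x : O, (∀ i < K, x + ((c * i : ℕ) : O) ∣ ((c ^ 2 * h : ℕ) : O)) →
      ((c : O) + f * x ∣ ((c ^ 2 * g : ℕ) : O)) →
        ∃ j, 1 ≤ j ∧ j ≤ N ∧ x = ((c * j : ℕ) : O) := by
  classical
  obtain ⟨ι, i1, i2, i3, μ, hμ, hent, hdet, hexists⟩ := exists_rep O s hs h
  let d := Fintype.card ι
  have hd : 0 < d := Fintype.card_pos
  let K₁ := (s.primeFactors.card + 1) * d + 1
  have hsQ : (s : ℚ) ≠ 0 := by exact_mod_cast hs.ne'
  have hdetZ : ∀ x : O, Zs s (μ x).det := by
    intro x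
    let M' : Matrix ι ι (ZsR s) := fun i j => ⟨μ x i j, hent x i j⟩
    have hM : μ x = M'.map (ZsR s).subtype := by
      ext i j
      rfl
    rw [hM, ← RingHom.mapMatrix_apply, ← RingHom.map_det]
    exact M'.det.2
  have hdetnat : ∀ n : ℕ, (μ (n : O)).det = (n : ℚ) ^ d := by
    intro n
    rw [map_natCast]
    have : ((n : Matrix ι ι ℚ)) = (n : ℚ) • 1 := by
      ext i j
      simp [Matrix.natCast_apply, Matrix.one_apply]
    rw [this, Matrix.det_smul, Matrix.det_one, mul_one]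
  refine ⟨K₁, by omega, fun K hKK c hc N => ?_⟩
  have hK0' : 0 < K := lt_of_lt_of_le (Nat.succ_pos _) hKK
  let h := (N + K).factorial
  have hh : c ^ 2 * h ≠ 0 := by
    have := Nat.factorial_ne_zero (N + K)
    positivity
  let T : Set O := {x | ∀ i < K, x + ((c * i : ℕ) : O) ∣ ((c ^ 2 * h : ℕ) : O)}
  have hT : T.Finite := by
    let H : ℤ := ((c ^ 2 * h : ℕ) : ℤ) ^ d
    have hH : H ≠ 0 := pow_ne_zero _ (by exact_mod_cast hh)
    have hfin := finite_poly s d hs H hH c hc K hKK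
    refine Set.Finite.of_finite_fibers (fun x : O => (μ (-x)).charpoly) (hfin.subset ?_) ?_
    · rintro _ ⟨x, hx, rfl⟩
      refine ⟨Matrix.charpoly_monic _, Matrix.charpoly_natDegree_eq_dim _,
        fun n => (rep_coeff s _ (hent (-x)) n).1, fun i hi => ?_⟩
      obtain ⟨z, hz⟩ := hx i hi
      refine ⟨(μ z).det, hdetZ z, ?_⟩
      have h1 := rep_eval μ x ((c * i : ℕ) : ℤ)
      rw [Int.cast_natCast, Int.cast_natCast] at h1
      rw [h1, ← Matrix.det_mul, ← map_mul, ← hz, hdetnat]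
      simp [H]
    · rintro P ⟨x₀, -, hx₀⟩
      -- all such `x` are roots of one polynomial over `O`
      obtain ⟨k, P₁, hP₁⟩ : ∃ (k : ℕ) (P₁ : ℤ[X]), P₁.map (Int.castRingHom ℚ) =
          C ((s : ℚ) ^ k) * P := by
        have hco : ∀ i, Zs s (P.coeff i) := by
          intro i
          rw [← hx₀]
          exact (rep_coeff s _ (hent (-x₀)) i).1
        choose k n hkn using hco
        let kk := ∑ i ∈ Finset.range (P.natDegree + 1), k i
        have hkk : ∀ i, i ≤ P.natDegree → k i ≤ kk := fun i hi =>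
          Finset.single_le_sum (f := k) (fun _ _ => Nat.zero_le _) (Finset.mem_range.2 (by omega))
        refine ⟨kk, ?_⟩
        have h1 : C ((s : ℚ) ^ kk) * P ∈ Polynomial.lifts (Int.castRingHom ℚ) := by
          rw [Polynomial.lifts_iff_coeff_lifts]
          intro i
          rw [coeff_C_mul]
          by_cases hi : i ≤ P.natDegree
          · refine ⟨n i * s ^ (kk - k i), ?_⟩
            have h2 : (s : ℚ) ^ kk = (s : ℚ) ^ k i * (s : ℚ) ^ (kk - k i) := by
              rw [← pow_add]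
              congr 1
              have := hkk i hi
              omega
            rw [h2]
            simp only [eq_intCast, Int.cast_mul, Int.cast_pow, Int.cast_natCast]
            rw [← hkn i]
            ring
          · refine ⟨0, ?_⟩
            rw [coeff_eq_zero_of_natDegree_lt (by omega)]
            simp
        obtain ⟨Q, hQ⟩ := (Polynomial.mem_lifts _).1 h1
        exact ⟨Q, hQ⟩
      have hPmon : P.Monic := by
        rw [← hx₀]
        exact Matrix.charpoly_monic _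
      have hP₁0 : P₁ ≠ 0 := by
        intro h0
        rw [h0, Polynomial.map_zero] at hP₁
        exact mul_ne_zero (by rw [Ne, C_eq_zero]; exact pow_ne_zero _ hsQ) hPmon.ne_zero hP₁.symm
      have hne : P₁.map (algebraMap ℤ O) ≠ 0 := by
        rw [Polynomial.map_ne_zero_iff]
        · exact hP₁0
        · exact Int.cast_injective
      have hfin2 : {y : O | (P₁.map (algebraMap ℤ O)).IsRoot y}.Finite :=
        Polynomial.finite_setOfPred_isRoot hne
      refine (hfin2.preimage (neg_injective.injOn)).subset ?_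
      rintro x ⟨-, hx⟩
      show IsRoot _ (-x)
      rw [Polynomial.IsRoot, Polynomial.eval_map_algebraMap]
      apply rep_root μ hμ
      rw [hP₁, ← hx, map_mul, Matrix.aeval_self_charpoly, mul_zero]
  let Bad : Finset O := (hT.toFinset).filter fun x => ¬ ∃ j, 1 ≤ j ∧ j ≤ N ∧ x = ((c * j : ℕ) : O)
  have hBad : ∀ x, x ∈ Bad ↔ x ∈ T ∧ ¬ ∃ j, 1 ≤ j ∧ j ≤ N ∧ x = ((c * j : ℕ) : O) := by
    intro x
    simp [Bad]
  have hBad0 : ∀ x ∈ Bad, x ≠ 0 := by
    intro x hx h0
    have h1 := ((hBad x).1 hx).1 0 (by omega)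
    rw [h0] at h1
    simp only [mul_zero, Nat.cast_zero, add_zero, zero_dvd_iff] at h1
    exact hh (by exact_mod_cast h1)
  -- denominators
  have hint : ∀ x j, ∃ n : ℕ, (x ∈ Bad → 1 ≤ j → j ≤ N → n ≠ 0 ∧
      (((c * j : ℕ) : O) - x) ∣ (n : O)) := by
    intro x j
    by_cases hx : x ∈ Bad ∧ 1 ≤ j ∧ j ≤ N
    · obtain ⟨hx, h1, h2⟩ := hx
      have hne : ((c * j : ℕ) : O) - x ≠ 0 := by
        rw [sub_ne_zero]
        intro he
        exact ((hBad x).1 hx).2 ⟨j, h1, h2, he.symm⟩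
      obtain ⟨n, x', hn, he⟩ := hexists _ hne
      exact ⟨n, fun _ _ _ => ⟨hn, ⟨x', he.symm⟩⟩⟩
    · exact ⟨0, fun a b e => absurd ⟨a, b, e⟩ hx⟩
  choose den hden using hint
  have hexp : ∀ x : O, ∃ a : ℕ, ∀ f : ℕ, s ^ (a + 1) ∣ f → ∃ z : ℤ,
      (μ (1 + (f : O) * x)).det = 1 + s * z := by
    intro x
    let R := (μ (-x)).charpolyRev
    have hR0 : R.coeff 0 = 1 := by
      rw [coeff_zero_eq_eval_zero]
      exact Matrix.eval_charpolyRev
    have heval : ∀ f : ℕ, R.eval (f : ℚ) = (μ (1 + (f : O) * x)).det := fun f => rep_rev μ x f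
    have hco : ∀ i, Zs s (R.coeff i) := fun i => (rep_coeff s _ (hent (-x)) i).2
    choose k n hkn using hco
    let kk := ∑ i ∈ Finset.range (R.natDegree + 1), k i
    have hkk : ∀ i, i ≤ R.natDegree → k i ≤ kk := fun i hi =>
      Finset.single_le_sum (f := k) (fun _ _ => Nat.zero_le _) (Finset.mem_range.2 (by omega))
    refine ⟨kk, ?_⟩
    rintro f ⟨m, rfl⟩
    refine ⟨∑ i ∈ Finset.range R.natDegree, n (i + 1) * s ^ ((kk + 1) * (i + 1) - k (i + 1) - 1) *
      m ^ (i + 1), ?_⟩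
    rw [← heval, Polynomial.eval_eq_sum_range, Finset.sum_range_succ', hR0]
    simp only [pow_zero, mul_one]
    rw [add_comm]
    congr 1
    push_cast
    rw [Finset.mul_sum]
    refine Finset.sum_congr rfl fun i hi => ?_
    rw [Finset.mem_range] at hi
    rw [← hkn (i + 1), mul_pow, ← pow_mul]
    have h1 := hkk (i + 1) (by omega)
    have h2 : (kk + 1) * (i + 1) = k (i + 1) + (((kk + 1) * (i + 1) - k (i + 1) - 1) + 1) := by
      have : kk + 1 ≤ (kk + 1) * (i + 1) := Nat.le_mul_of_pos_right _ (by omega)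
      omega
    have h3 : (s : ℚ) ^ ((kk + 1) * (i + 1)) = (s : ℚ) ^ k (i + 1) *
        ((s : ℚ) ^ ((kk + 1) * (i + 1) - k (i + 1) - 1) * s) := by
      conv_lhs => rw [h2]
      rw [pow_add, pow_succ]
    rw [h3]
    ring
  choose ex hex using hexp
  let K₀ : ℕ := c * (∏ x ∈ Bad, ∏ j ∈ Finset.Icc 1 N, den x j) * ∏ x ∈ Bad, s ^ (ex x + 1)
  have hK0 : K₀ ≠ 0 := by
    refine mul_ne_zero (mul_ne_zero (by omega) ?_) ?_
    · rw [Finset.prod_ne_zero_iff]
      intro x hx
      rw [Finset.prod_ne_zero_iff]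
      intro j hj
      rw [Finset.mem_Icc] at hj
      exact (hden x j hx hj.1 hj.2).1
    · rw [Finset.prod_ne_zero_iff]
      intro x _
      exact pow_ne_zero _ hs.ne'
  have hKdvd : ∀ x ∈ Bad, ∀ j, 1 ≤ j → j ≤ N → (((c * j : ℕ) : O) - x) ∣ (K₀ : O) := by
    intro x hx j hj1 hj2
    refine (hden x j hx hj1 hj2).2.trans ?_
    have h2 : den x j ∣ K₀ := by
      refine Dvd.dvd.mul_right (Dvd.dvd.mul_left ?_ c) _
      refine (Finset.dvd_prod_of_mem (fun j : ℕ => den x j)
        (Finset.mem_Icc.2 ⟨hj1, hj2⟩)).trans ?_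
      exact Finset.dvd_prod_of_mem (fun x : O => ∏ j ∈ Finset.Icc 1 N, den x j) hx
    obtain ⟨q, hq⟩ := h2
    exact ⟨(q : O), by rw [hq]; push_cast; ring⟩
  -- units
  have hunit : ∀ x ∈ Bad, {k : ℕ | IsUnit (1 + ((K₀ * k : ℕ) : O) * x)}.Finite := by
    intro x hx
    have hx0 := hBad0 x hx
    let R := (μ (-x)).charpolyRev
    have h0 : (μ (-x)).charpoly.coeff 0 ≠ 0 := by
      rw [coeff_zero_eq_eval_zero]
      have := rep_eval μ x 0
      rw [Int.cast_zero, Int.cast_zero, add_zero] at this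
      rw [this]
      exact hdet x hx0
    have hdeg : R.natDegree = d := by
      show ((μ (-x)).charpolyRev).natDegree = _
      have h1 : (μ (-x)).charpoly.natTrailingDegree = 0 :=
        Polynomial.natTrailingDegree_eq_zero.2 (Or.inr h0)
      rw [← Matrix.reverse_charpoly, Polynomial.reverse_natDegree, h1,
        Matrix.charpoly_natDegree_eq_dim]
      rfl
    have heval : ∀ f : ℕ, R.eval (f : ℚ) = (μ (1 + (f : O) * x)).det := fun f => rep_rev μ x f
    have hfin : ∀ u : ℚ, {f : ℕ | R.eval (f : ℚ) = u}.Finite := by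
      intro u
      have hne : R - C u ≠ 0 := by
        intro h
        have h2 : R = C u := sub_eq_zero.1 h
        have h3 : R.natDegree = 0 := by rw [h2, natDegree_C]
        omega
      have h4 : {f : ℚ | (R - C u).IsRoot f}.Finite := Polynomial.finite_setOfPred_isRoot hne
      refine ((h4.preimage (Nat.cast_injective (R := ℚ)).injOn).subset ?_)
      intro f hf
      simp only [Set.mem_ofPred_eq] at hf
      simp [Polynomial.IsRoot, hf]
    have hinjK : Function.Injective fun k : ℕ => K₀ * k := fun a b hab =>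
      Nat.eq_of_mul_eq_mul_left (Nat.pos_of_ne_zero hK0) hab
    refine (((hfin 1).union (hfin (-1))).preimage hinjK.injOn).subset fun k hk => ?_
    have hk' : IsUnit (1 + ((K₀ * k : ℕ) : O) * x) := hk
    obtain ⟨z, hz⟩ := hex x (K₀ * k) (by
      refine Dvd.dvd.mul_right (Dvd.dvd.mul_left ?_ _) k
      exact Finset.dvd_prod_of_mem (fun x : O => s ^ (ex x + 1)) hx)
    obtain ⟨y, hy⟩ := hk'.exists_right_inv
    have h5 : (μ (1 + ((K₀ * k : ℕ) : O) * x)).det * (μ y).det = 1 := by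
      rw [← Matrix.det_mul, ← map_mul, hy, map_one, Matrix.det_one]
    obtain ⟨l, m, hm⟩ := hdetZ y
    have h6 : (1 + (s : ℤ) * z) * m = (s : ℤ) ^ l := by
      have : (((1 + (s : ℤ) * z) * m : ℤ) : ℚ) = (((s : ℤ) ^ l : ℤ) : ℚ) := by
        push_cast
        rw [← hm, ← hz, ← mul_assoc, h5, one_mul]
      exact_mod_cast this
    have h7 : IsCoprime (1 + (s : ℤ) * z) ((s : ℤ) ^ l) := by
      apply IsCoprime.pow_right
      exact ⟨1, -z, by ring⟩
    have h8 : IsUnit (1 + (s : ℤ) * z) := h7.isUnit_of_dvd' dvd_rfl ⟨m, h6.symm⟩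
    rw [Set.mem_preimage]
    rcases Int.isUnit_iff.1 h8 with h9 | h9
    · left
      show R.eval (((K₀ * k : ℕ)) : ℚ) = 1
      rw [heval, hz]
      exact_mod_cast h9
    · right
      show R.eval (((K₀ * k : ℕ)) : ℚ) = -1
      rw [heval, hz]
      exact_mod_cast h9
  have hUfin : {k : ℕ | ∃ x ∈ Bad, IsUnit (1 + ((K₀ * k : ℕ) : O) * x)}.Finite := by
    have : {k : ℕ | ∃ x ∈ Bad, IsUnit (1 + ((K₀ * k : ℕ) : O) * x)} =
        ⋃ x ∈ (Bad : Set O), {k : ℕ | IsUnit (1 + ((K₀ * k : ℕ) : O) * x)} := by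
      ext f
      simp
    rw [this]
    exact Set.Finite.biUnion (Finset.finite_toSet Bad) hunit
  obtain ⟨k, hk⟩ := hUfin.infinite_compl.nonempty
  let f' := K₀ * k
  refine ⟨h, c * f', ∏ j ∈ Finset.Icc 1 N, (1 + c * f' * j), Nat.factorial_ne_zero _, ?_, ?_⟩
  · intro j hj1 hj2
    refine ⟨fun i hi => Nat.dvd_factorial (by omega) (by omega), ?_⟩
    exact Finset.dvd_prod_of_mem (fun j : ℕ => 1 + c * f' * j) (Finset.mem_Icc.2 ⟨hj1, hj2⟩)
  · intro x hx1 hx2
    by_contra hcon
    have hxB : x ∈ Bad := (hBad x).2 ⟨hx1, hcon⟩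
    apply hk
    refine ⟨x, hxB, ?_⟩
    have hc0 : (c : O) ≠ 0 := by exact_mod_cast (by omega : c ≠ 0)
    have hdvd : (1 + (f' : O) * x) ∣ (c : O) * ∏ j ∈ Finset.Icc 1 N, (1 + (c : O) * f' * j) := by
      obtain ⟨z, hz⟩ := hx2
      refine ⟨z, ?_⟩
      apply mul_left_cancel₀ hc0
      push_cast at hz
      linear_combination hz
    have hcK : c ∣ f' := Dvd.dvd.mul_right (Dvd.dvd.mul_right (Dvd.intro _ rfl) _) k
    have hcop1 : IsCoprime (1 + (f' : O) * x) (c : O) := by
      obtain ⟨w, hw⟩ := hcK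
      refine ⟨1, -(w * x), ?_⟩
      rw [hw]
      push_cast
      ring
    have hcop2 : ∀ j ∈ Finset.Icc 1 N, IsCoprime (1 + (f' : O) * x) (1 + (c : O) * f' * j) := by
      intro j hj
      rw [Finset.mem_Icc] at hj
      obtain ⟨w, hw⟩ := hKdvd x hxB j hj.1 hj.2
      have hw' : (f' : O) = (((c * j : ℕ) : O) - x) * (w * k) := by
        show ((K₀ * k : ℕ) : O) = _
        rw [Nat.cast_mul, hw]
        ring
      refine ⟨1 - (w * k) * x * (c * j), (w * k) * x ^ 2, ?_⟩
      have h1 : (((c * j : ℕ) : O) - x) * (w * k) * x = f' * x := by rw [← hw']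
      push_cast at h1
      linear_combination (-1 : O) * h1
    have hcop : IsCoprime (1 + (f' : O) * x)
        ((c : O) * ∏ j ∈ Finset.Icc 1 N, (1 + (c : O) * f' * j)) :=
      IsCoprime.mul_right hcop1 (IsCoprime.prod_right hcop2)
    exact hcop.isUnit_of_dvd' dvd_rfl hdvd

theorem segProp (O : Type) [CommRing O] [IsDomain O] [CharZero O] (s : ℕ) (hs : 0 < s)
    (h : MM s O) : ∃ K, SegProp O K := by
  obtain ⟨K, hK0, hK⟩ := segProp_ge O s hs h
  refine ⟨K, hK0, fun c hc N => ?_⟩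
  obtain ⟨h, f, g, -, h1, h2⟩ := hK K le_rfl c hc N
  exact ⟨h, f, g, h1, h2⟩

end Pool.Agent.Helper657_nd.Seg
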