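import Pool.Agent.Helper657_nd.Crit
import Pool.Agent.Helper657_nd.Seg2

set_option autoImplicit false

/-!
# The criterion for rings in which finite initial segments are given by divisibility
-/

namespace Pool.Agent.Helper657_nd.Crit2

open Pool.Agent.Helper948.ProP (At)
open Seg
open Crit (Def1 Def2 Def3 Data Dv Seg Xs Ax ext Sol Theta Tms df_Theta)

variable {G : Type} [Group G]

section semantics
variable {O : Type} [CommRing O] [IsDomain O] [CharZero O]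
variable {t : G} {c : ℕ} {Dom : G → Prop} {Eq : G → G → Prop} {Add Mul : G → G → G → Prop}
  {V : G → O → Prop}

def VV (c : ℕ) (Dom : G → Prop) (V : G → O → Prop) (x : G) (n : ℕ) : Prop :=
  Dom x ∧ V x ((c * n : ℕ) : O)

section
variable (H : Data O t c Dom Eq Add Mul V)
include H

theorem VV_pow (n : ℕ) : VV c Dom V (t ^ n) n := ⟨H.dom_pow n, H.V_pow n⟩

theorem cast_inj {i j : ℕ} (h : ((c * i : ℕ) : O) = ((c * j : ℕ) : O)) : i = j :=
  Nat.eq_of_mul_eq_mul_left H.hc (by exact_mod_cast h)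

theorem VV_eq {x y : G} {i j : ℕ} (hx : VV c Dom V x i) (hy : VV c Dom V y j) :
    Eq x y ↔ i = j := by
  rw [H.eq x y _ _ hx.1 hy.1 hx.2 hy.2]
  exact ⟨fun h => cast_inj H h, fun h => by rw [h]⟩

theorem VV_unique {x : G} {i j : ℕ} (hx : VV c Dom V x i) (hy : VV c Dom V x j) : i = j :=
  cast_inj H (H.fn x _ _ hx.1 hx.2 hy.2)

theorem Xs_congr (rk : ℕ) (p : Fin 3 → G) {x y : G} (hx : Dom x) (hy : Dom y) (e : Eq x y) :
    Xs t rk Dom Eq Add Mul p x ↔ Xs t rk Dom Eq Add Mul p y := by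
  obtain ⟨a, ha⟩ := H.dom x hx
  obtain ⟨b, hb⟩ := H.dom y hy
  have hab : a = b := (H.eq x y a b hx hy ha hb).1 e
  subst hab
  have key : ∀ z, Dom z → (Eq x z ↔ Eq y z) := by
    intro z hz
    obtain ⟨d, hd⟩ := H.dom z hz
    rw [H.eq x z a d hx hz ha hd, H.eq y z a d hy hz hb hd]
  have h1 : Dom 1 := by simpa using H.dom_pow 0
  unfold Xs
  rw [and_iff_right hx, and_iff_right hy, key 1 h1]
  refine or_congr Iff.rfl (exists_congr fun z => ?_)
  constructor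
  · rintro ⟨h1, h2, h3⟩
    exact ⟨h1, (key z h1).1 h2, h3⟩
  · rintro ⟨h1, h2, h3⟩
    exact ⟨h1, (key z h1).2 h2, h3⟩

theorem Xs_VV (rk : ℕ) (p : Fin 3 → G) {x : G} {i : ℕ} (hx : VV c Dom V x i) :
    Xs t rk Dom Eq Add Mul p x ↔ Xs t rk Dom Eq Add Mul p (t ^ i) :=
  Xs_congr H rk p hx.1 (H.dom_pow i) ((VV_eq H hx (VV_pow H i)).2 rfl)

theorem Xs_one (rk : ℕ) (p : Fin 3 → G) : Xs t rk Dom Eq Add Mul p (t ^ 0) := by
  refine ⟨H.dom_pow 0, Or.inl ?_⟩
  have := (VV_eq H (VV_pow H 0) (VV_pow H 0)).2 rfl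
  simpa using this

/-- finite segments of every length occur -/
theorem exists_seg {K : ℕ} (hK : SegProp O K) (N : ℕ) : ∃ p : Fin 3 → G, (∀ i, Dom (p i)) ∧
    ∀ x, Xs t (K) Dom Eq Add Mul p x ↔ ∃ i ≤ N, VV c Dom V x i := by
  obtain ⟨h, f, g, h1, h2⟩ := hK.2 c H.hc N
  have hDom : ∀ i, Dom ((![t ^ h, t ^ f, t ^ g] : Fin 3 → G) i) := by
    intro i
    fin_cases i
    · exact H.dom_pow h
    · exact H.dom_pow f
    · exact H.dom_pow g
  refine ⟨![t ^ h, t ^ f, t ^ g], hDom, fun x => ?_⟩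
  have hcne : (c : O) ≠ 0 := by
    have := H.hc
    exact_mod_cast (by omega : c ≠ 0)
  constructor
  · rintro ⟨hx, hx1 | ⟨x', hx', e, hs⟩⟩
    · have h3 : VV c Dom V (t ^ 0) 0 := VV_pow H 0
      rw [pow_zero] at h3
      obtain ⟨o, ho⟩ := H.dom x hx
      have h4 := (H.eq x 1 o _ hx h3.1 ho h3.2).1 hx1
      refine ⟨0, by omega, hx, ?_⟩
      rwa [h4] at ho
    · obtain ⟨o, ho⟩ := H.dom x' hx'
      obtain ⟨hs1, hs2, w, hw0, hw1, hw2, hw3, z', hz', hw4⟩ := hs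
      have h3 : ∀ i < K, o + ((c * i : ℕ) : O) ∣ ((c ^ 2 * h : ℕ) : O) := by
        intro i hi
        obtain ⟨y, hy, hy1, z, hz, hy2⟩ := hs2 ⟨i, hi⟩
        obtain ⟨oy, hoy⟩ := H.dom y hy
        obtain ⟨oz, hoz⟩ := H.dom z hz
        have e1 := H.add _ _ _ _ _ _ hx' (H.dom_pow i) hy ho (H.V_pow i) hoy hy1
        have e2 := H.mul _ _ _ _ _ _ hy hz (H.dom_pow h) hoy hoz (H.V_pow h) hy2
        refine ⟨oz, ?_⟩
        rw [e1, e2]
        push_cast
        ring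
      obtain ⟨ou, hou⟩ := H.dom _ hw0
      obtain ⟨ov, hov⟩ := H.dom _ hw1
      obtain ⟨oz, hoz⟩ := H.dom _ hz'
      have e1 := H.mul _ _ _ _ _ _ (H.dom_pow f) hx' hw0 (H.V_pow f) ho hou hw2
      have ht : Dom t := by simpa using H.dom_pow 1
      have hVt : V t ((c * 1 : ℕ) : O) := by simpa using H.V_pow 1
      have e2 := H.add _ _ _ _ _ _ ht hw0 hw1 hVt hou hov hw3
      have e3 := H.mul _ _ _ _ _ _ hw1 hz' (H.dom_pow g) hov hoz (H.V_pow g) hw4
      have h4 : (c : O) + f * o ∣ ((c ^ 2 * g : ℕ) : O) := by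
        have e4 : (f : O) * o = ou := by
          apply mul_left_cancel₀ hcne
          push_cast at e1
          linear_combination e1
        refine ⟨oz, ?_⟩
        have e5 : (c : O) + f * o = ov := by
          rw [e4, ← e2]
          push_cast
          ring
        rw [e5, e3]
        push_cast
        ring
      obtain ⟨j, hj1, hj2, hj3⟩ := h2 o h3 h4
      refine ⟨j, hj2, hx, ?_⟩
      obtain ⟨a, ha⟩ := H.dom x hx
      have h5 := (H.eq x x' a o hx hx' ha ho).1 e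
      rwa [h5, hj3] at ha
  · rintro ⟨i, hi, hx⟩
    rw [Xs_VV H _ _ hx]
    rcases Nat.eq_zero_or_pos i with h0 | hpos
    · rw [h0]
      exact Xs_one H _ _
    · refine ⟨H.dom_pow i, Or.inr ⟨t ^ i, H.dom_pow i,
        (VV_eq H (VV_pow H i) (VV_pow H i)).2 rfl, H.dom_pow i, ?_, ?_⟩⟩
      · intro l
        obtain ⟨q, hq⟩ := (h1 i hpos hi).1 l l.2
        refine ⟨t ^ (i + (l : ℕ)), H.dom_pow _, H.add_pow i l, t ^ q, H.dom_pow q, ?_⟩
        show Mul (t ^ (i + (l : ℕ))) (t ^ q) (t ^ h)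
        rw [hq]
        exact H.mul_pow _ _
      · obtain ⟨q, hq⟩ := (h1 i hpos hi).2
        refine ⟨![t ^ (f * i), t ^ (1 + f * i)], H.dom_pow _, H.dom_pow _, H.mul_pow f i, ?_,
          t ^ q, H.dom_pow q, ?_⟩
        · have := H.add_pow 1 (f * i)
          rw [pow_one] at this
          exact this
        · show Mul (t ^ (1 + f * i)) (t ^ q) (t ^ g)
          rw [hq]
          exact H.mul_pow _ _

/-- the segment is finite of length `N` -/
def Fin' (t : G) (rk c : ℕ) (Dom : G → Prop) (Eq : G → G → Prop) (Add Mul : G → G → G → Prop)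
    (V : G → O → Prop) (p : Fin 3 → G) (N : ℕ) : Prop :=
  ∀ x, Xs t rk Dom Eq Add Mul p x ↔ ∃ i ≤ N, VV c Dom V x i

theorem ax_of_fin {rk : ℕ} {p : Fin 3 → G} {N : ℕ} (hp : ∀ i, Dom (p i))
    (hf : Fin' t rk c Dom Eq Add Mul V p N) : Ax t rk Dom Eq Add Mul p := by
  refine ⟨hp, fun r _ hcl x hx => ?_⟩
  obtain ⟨i, hi, hxi⟩ := (hf x).1 hx
  rw [Xs_VV H _ _ hxi]
  clear hxi hx x
  induction i with
  | zero => exact Xs_one H _ _
  | succ i ih =>
    have h1 := ih (by omega)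
    refine hcl ![t ^ i, t ^ (i + 1)] ?_ h1 (H.dom_pow _) ?_ ?_
    · exact (hf _).2 ⟨i, by omega, VV_pow H i⟩
    · have := H.add_pow i 1
      rw [pow_one] at this
      exact this
    · exact (hf _).2 ⟨i + 1, hi, VV_pow H (i + 1)⟩

theorem fin_or_inf {K : ℕ} (hK : SegProp O K) {p : Fin 3 → G} (hA : Ax t (K) Dom Eq Add Mul p) :
    (∀ i : ℕ, Xs t (K) Dom Eq Add Mul p (t ^ i)) ∨
      ∃ N, Fin' t (K) c Dom Eq Add Mul V p N := by
  by_cases hall : ∀ i : ℕ, Xs t (K) Dom Eq Add Mul p (t ^ i)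
  · exact Or.inl hall
  right
  push Not at hall
  classical
  have hex : ∃ i : ℕ, ¬ Xs t (K) Dom Eq Add Mul p (t ^ i) := hall
  let M := Nat.find hex
  have hM : ¬ Xs t (K) Dom Eq Add Mul p (t ^ M) := Nat.find_spec hex
  have hlt : ∀ i < M, Xs t (K) Dom Eq Add Mul p (t ^ i) := fun i hi => by
    have := Nat.find_min hex hi
    push Not at this
    exact this
  have hM0 : M ≠ 0 := by
    intro h0
    rw [h0] at hM
    exact hM (Xs_one H _ _)
  obtain ⟨N, hN⟩ : ∃ N, M = N + 1 := ⟨M - 1, by omega⟩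
  obtain ⟨r, hr1, hr2⟩ := exists_seg H hK N
  refine ⟨N, fun x => ⟨fun hx => ?_, ?_⟩⟩
  · rw [← hr2]
    refine hA.2 r hr1 ?_ x hx
    intro y hy0 hy0r hy1 hadd hy1p
    obtain ⟨i, hi, hyi⟩ := (hr2 _).1 hy0r
    rw [hr2]
    have ht : Dom t := by simpa using H.dom_pow 1
    have hVt : V t ((c * 1 : ℕ) : O) := by simpa using H.V_pow 1
    obtain ⟨o, ho⟩ := H.dom _ hy1
    have e1 := H.add _ _ _ _ _ _ hyi.1 ht hy1 hyi.2 hVt ho hadd
    have hV : VV c Dom V (y 1) (i + 1) := by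
      refine ⟨hy1, ?_⟩
      rw [← e1] at ho
      have : ((c * (i + 1) : ℕ) : O) = ((c * i : ℕ) : O) + ((c * 1 : ℕ) : O) := by
        push_cast
        ring
      rwa [this]
    refine ⟨i + 1, ?_, hV⟩
    by_contra hcon
    have : i + 1 = M := by omega
    rw [this] at hV
    exact hM ((Xs_VV H _ _ hV).1 hy1p)
  · rintro ⟨i, hi, hV⟩
    rw [Xs_VV H _ _ hV]
    exact hlt i (by omega)

theorem sol_pos {rk : ℕ} {p : Fin 3 → G} {N : ℕ}
    (hX : ∀ i ≤ N, Xs t rk Dom Eq Add Mul p (t ^ i)) {k : ℕ} (hk : 0 < k) {L : List At}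
    (hL : ∀ c ∈ L, AtLt k c) (x : ℕ → ℕ) (hx : ∀ c ∈ L, At.Holds x c)
    (hN : ∀ i < k, x i ≤ N) : Sol t rk Dom Eq Add Mul p k L (t ^ x 0) := by
  have hext : ∀ i < k, ext (fun i : Fin k => t ^ x i) i = t ^ x i := by
    intro i hi
    simp [ext, hi]
  refine ⟨fun i => t ^ x i, fun i => hX _ (hN i i.2), ?_, fun a ha => ?_⟩
  · rw [hext 0 hk]
    exact (VV_eq H (VV_pow H _) (VV_pow H _)).2 rfl
  · have h1 := hx a ha
    have h2 := hL a ha
    cases a with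
    | one i =>
      simp only [AtLt] at h2
      simp only [At.Holds] at h1
      simp only [AtG]
      rw [hext i h2, h1]
      have := (VV_eq H (VV_pow H 1) (VV_pow H 1)).2 rfl
      simpa using this
    | add i j l =>
      simp only [AtLt] at h2
      simp only [At.Holds] at h1
      simp only [AtG]
      rw [hext i h2.1, hext j h2.2.1, hext l h2.2.2, ← h1]
      exact H.add_pow _ _
    | mul i j l =>
      simp only [AtLt] at h2
      simp only [At.Holds] at h1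
      simp only [AtG]
      rw [hext i h2.1, hext j h2.2.1, hext l h2.2.2, ← h1]
      exact H.mul_pow _ _

theorem fin_Sol {rk : ℕ} {p : Fin 3 → G} {N : ℕ} (hf : Fin' t rk c Dom Eq Add Mul V p N)
    {k : ℕ} (hk : 0 < k) {L : List At} (hL : ∀ c ∈ L, AtLt k c) {n : ℕ}
    (hs : Sol t rk Dom Eq Add Mul p k L (t ^ n)) :
    ∃ x : ℕ → ℕ, x 0 = n ∧ ∀ c ∈ L, At.Holds x c := by
  obtain ⟨x, hx1, hx2, hx3⟩ := hs
  choose v hv1 hv2 using fun i => (hf (x i)).1 (hx1 i)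
  have hext : ∀ i < k, VV c Dom V (ext x i) (if hi : i < k then v ⟨i, hi⟩ else 0) := by
    intro i hi
    simp only [ext, hi, dif_pos]
    exact hv2 _
  have hcne : (c : O) ≠ 0 := by
    have := H.hc
    exact_mod_cast (by omega : c ≠ 0)
  refine ⟨fun i => if hi : i < k then v ⟨i, hi⟩ else 0, ?_, fun a ha => ?_⟩
  · exact (VV_eq H (hext 0 hk) (VV_pow H n)).1 hx2
  · have h1 := hx3 a ha
    have h2 := hL a ha
    have hVt : VV c Dom V t 1 := by simpa using VV_pow H 1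
    cases a with
    | one i =>
      simp only [AtLt] at h2
      exact (VV_eq H (hext i h2) hVt).1 h1
    | add i j l =>
      simp only [AtLt] at h2
      have e1 := H.add _ _ _ _ _ _ (hext i h2.1).1 (hext j h2.2.1).1 (hext l h2.2.2).1
        (hext i h2.1).2 (hext j h2.2.1).2 (hext l h2.2.2).2 h1
      simp only [At.Holds]
      apply cast_inj H
      rw [← e1]
      push_cast
      ring
    | mul i j l =>
      simp only [AtLt] at h2
      have e1 := H.mul _ _ _ _ _ _ (hext i h2.1).1 (hext j h2.2.1).1 (hext l h2.2.2).1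
        (hext i h2.1).2 (hext j h2.2.1).2 (hext l h2.2.2).2 h1
      simp only [At.Holds]
      apply cast_inj H
      apply mul_left_cancel₀ hcne
      rw [← e1]
      push_cast
      ring

theorem theta_pos {K : ℕ} (hK : SegProp O K) {A B : ℕ → Prop} {kA kB : ℕ} {LA LB : List At}
    (hkA : 0 < kA) (hkB : 0 < kB) (hLA : ∀ c ∈ LA, AtLt kA c) (hLB : ∀ c ∈ LB, AtLt kB c)
    (hA : ∀ n, A n ↔ ∃ x : ℕ → ℕ, x 0 = n ∧ ∀ c ∈ LA, At.Holds x c)
    (hB : ∀ n, B n ↔ ∃ x : ℕ → ℕ, x 0 = n ∧ ∀ c ∈ LB, At.Holds x c)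
    (hAB : ∀ n, A n → ¬ B n) (n : ℕ) (hn : A n) :
    Theta t (K) Dom Eq Add Mul kA LA kB LB (t ^ n) := by
  obtain ⟨x, hx0, hx⟩ := (hA n).1 hn
  let N := ∑ i ∈ Finset.range kA, x i
  have hN : ∀ i < kA, x i ≤ N := fun i hi =>
    Finset.single_le_sum (f := x) (fun _ _ => Nat.zero_le _) (Finset.mem_range.2 hi)
  obtain ⟨p, hp1, hp2⟩ := exists_seg H hK N
  refine ⟨p, ax_of_fin H hp1 hp2, ?_, ?_⟩
  · rw [← hx0]
    exact sol_pos H (fun i hi => (hp2 _).2 ⟨i, hi, VV_pow H i⟩) hkA hLA x hx hN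
  · intro hs
    exact hAB n hn ((hB n).2 (fin_Sol H hp2 hkB hLB hs))

theorem theta_neg {K : ℕ} (hK : SegProp O K) {A B : ℕ → Prop} {kA kB : ℕ} {LA LB : List At}
    (hkA : 0 < kA) (hkB : 0 < kB) (hLA : ∀ c ∈ LA, AtLt kA c) (hLB : ∀ c ∈ LB, AtLt kB c)
    (hA : ∀ n, A n ↔ ∃ x : ℕ → ℕ, x 0 = n ∧ ∀ c ∈ LA, At.Holds x c)
    (hB : ∀ n, B n ↔ ∃ x : ℕ → ℕ, x 0 = n ∧ ∀ c ∈ LB, At.Holds x c)
    (hAB : ∀ n, A n → ¬ B n) (n : ℕ) (hn : B n) :
    ¬ Theta t (K) Dom Eq Add Mul kA LA kB LB (t ^ n) := by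
  rintro ⟨p, hax, hsA, hsB⟩
  rcases fin_or_inf H hK hax with hinf | ⟨N, hfin⟩
  · apply hsB
    obtain ⟨x, hx0, hx⟩ := (hB n).1 hn
    rw [← hx0]
    let N := ∑ i ∈ Finset.range kB, x i
    have hN : ∀ i < kB, x i ≤ N := fun i hi =>
      Finset.single_le_sum (f := x) (fun _ _ => Nat.zero_le _) (Finset.mem_range.2 hi)
    exact sol_pos H (N := N) (fun i _ => hinf i) hkB hLB x hx hN
  · exact hAB n ((hA n).2 (fin_Sol H hfin hkA hLA hsA)) hn

end

end semantics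

/-- The criterion. -/
theorem main {O : Type} [CommRing O] [IsDomain O] [CharZero O] {K : ℕ} (hK : SegProp O K)
    {t : G} {c : ℕ} {Dom : G → Prop} {Eq : G → G → Prop} {Add Mul : G → G → G → Prop}
    {V : G → O → Prop} (H : Data O t c Dom Eq Add Mul V) (hDom : Def1 Dom) (hEq : Def2 Eq)
    (hAdd : Def3 Add) (hMul : Def3 Mul) : Undec G := by
  obtain ⟨A, B, hA, hB, hAB, hsep⟩ := exists_insep
  obtain ⟨kA, LA, hkA, hLA, hA'⟩ := exists_atoms_bdd hA
  obtain ⟨kB, LB, hkB, hLB, hB'⟩ := exists_atoms_bdd hB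
  refine Undec.of_sep (df_Theta (t := t) (K) hDom hEq hAdd hMul kA LA kB LB) t A B
    hsep ?_ ?_
  · exact fun n hn => theta_pos H hK hkA hkB hLA hLB hA' hB' hAB n hn
  · exact fun n hn => theta_neg H hK hkA hkB hLA hLB hA' hB' hAB n hn

end Pool.Agent.Helper657_nd.Crit2
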