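import Pool.Agent.Helper657_nd.Ded
import Pool.Agent.Helper657_nd.MMB

set_option autoImplicit false

/-!
# Fractions in domains with minimax additive group
-/

namespace Pool.Agent.Helper657_nd.Ded

open Seg

theorem exists_int_mul2 {R : Type} [CommRing R] [IsDomain R] [CharZero R] {s : ℕ} (hs : 0 < s)
    (h : MM s R) (x : R) (hx : x ≠ 0) : ∃ (n : ℕ) (x' : R), n ≠ 0 ∧ x * x' = n := by
  have hcz : CharZero (FractionRing R) :=
    charZero_of_injective_algebraMap (IsFractionRing.injective R (FractionRing R))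
  have hinj := IsFractionRing.injective R (FractionRing R)
  obtain ⟨_, hfrac⟩ := fracs R (FractionRing R) s hs h
  have hx' : algebraMap R (FractionRing R) x ≠ 0 := fun h0 => hx (hinj (h0.trans (map_zero _).symm))
  obtain ⟨n, x', hn, h1⟩ := hfrac (algebraMap R (FractionRing R) x)⁻¹
  refine ⟨n, x', hn, hinj ?_⟩
  rw [map_mul, ← h1, map_natCast]
  field_simp

theorem dedR2_aux (R F : Type) [CommRing R] [IsDomain R] [CharZero R]
    [Field F] [CharZero F] [Algebra R F] [IsFractionRing R F] (s : ℕ) (hs : 0 < s) (h : MM s R) :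
    ∃ c : ℕ, 0 < c ∧ ∀ (a : R) (N : ℕ), 0 < N → ∀ i : ℕ, ∃ γ ν : ℕ → R,
      (∀ j < i, (N : R) * γ (j + 1) = a * γ j ∧ (N : R) * ν (j + 1) = a * ν j) ∧
        (c : R) = γ 0 + ν i - ν 0 := by
  classical
  have hinj := IsFractionRing.injective R F
  obtain ⟨hfin, hfrac⟩ := fracs R F s hs h
  have hNF : NumberField F := ⟨⟩
  -- the conductor
  obtain ⟨c, hc, hcO⟩ : ∃ c : ℕ, 0 < c ∧ ∀ x : F, IsIntegral ℤ x → ∃ r : R,
      (c : F) * x = algebraMap R F r := by
    have hO : Module.Finite ℤ (NumberField.RingOfIntegers F) := inferInstance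
    obtain ⟨S, hS⟩ := hO.fg_top
    choose f g hf hg using hfrac
    refine ⟨∏ y ∈ S, f (y : F), ?_, ?_⟩
    · exact Finset.prod_pos fun y _ => Nat.pos_of_ne_zero (hf _)
    · intro x hx
      have h1 : ∀ y : NumberField.RingOfIntegers F, y ∈ Submodule.span ℤ (S : Set _) →
          ∃ r : R, ((∏ y ∈ S, f (y : F) : ℕ) : F) * (y : F) = algebraMap R F r := by
        intro y hy
        induction hy using Submodule.span_induction with
        | mem y hy =>
          obtain ⟨k, hk⟩ := Finset.dvd_prod_of_mem (fun y : NumberField.RingOfIntegers F => f (y : F))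
            (Finset.mem_coe.1 hy)
          refine ⟨k * g (y : F), ?_⟩
          rw [hk, Nat.cast_mul, map_mul, ← hg]
          simp
          ring
        | zero => exact ⟨0, by simp⟩
        | add y z _ _ hy hz =>
          obtain ⟨r, hr⟩ := hy
          obtain ⟨s, hs⟩ := hz
          refine ⟨r + s, ?_⟩
          rw [map_add, ← hr, ← hs]
          simp
          ring
        | smul b y _ hy =>
          obtain ⟨r, hr⟩ := hy
          refine ⟨b • r, ?_⟩
          rw [map_zsmul, ← hr]
          simp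
          ring
      exact h1 ⟨x, hx⟩ (by rw [hS]; exact Submodule.mem_top)
  refine ⟨c, hc, fun a N hN i => ?_⟩
  have hN0 : (N : F) ≠ 0 := by exact_mod_cast (by omega : N ≠ 0)
  obtain ⟨q, hq⟩ : ∃ q : F, q * N = algebraMap R F a := ⟨algebraMap R F a / N, by field_simp⟩
  obtain ⟨u, v, huv, hint⟩ := two_gen_pow F q i
  have h1 : ∀ j, ∃ r : R, j ≤ i → (c : F) * (q ^ j * (u + v)) = algebraMap R F r := by
    intro j
    by_cases hj : j ≤ i
    · obtain ⟨r, hr⟩ := hcO (q ^ j * (u + v)) (by
        rw [mul_add]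
        exact (hint j hj).1.add (hint j hj).2)
      exact ⟨r, fun _ => hr⟩
    · exact ⟨0, fun h => absurd h hj⟩
  have h2 : ∀ j, ∃ r : R, j ≤ i → (c : F) * (q ^ j * v) = algebraMap R F r := by
    intro j
    by_cases hj : j ≤ i
    · obtain ⟨r, hr⟩ := hcO (q ^ j * v) (hint j hj).2
      exact ⟨r, fun _ => hr⟩
    · exact ⟨0, fun h => absurd h hj⟩
  choose γ hγ using h1
  choose ν hν using h2
  refine ⟨γ, ν, fun j hj => ⟨?_, ?_⟩, ?_⟩
  · apply hinj
    rw [map_mul, map_mul, map_natCast, ← hγ (j + 1) (by omega), ← hγ j (by omega), pow_succ, ← hq]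
    ring
  · apply hinj
    rw [map_mul, map_mul, map_natCast, ← hν (j + 1) (by omega), ← hν j (by omega), pow_succ, ← hq]
    ring
  · apply hinj
    rw [map_sub, map_add, map_natCast, ← hγ 0 (by omega), ← hν 0 (by omega), ← hν i le_rfl]
    have : (c : F) = c * (u + q ^ i * v) := by rw [huv, mul_one]
    conv_lhs => rw [this]
    ring

theorem dedR2 (R : Type) [CommRing R] [IsDomain R] [CharZero R] (s : ℕ) (hs : 0 < s)
    (h : MM s R) :
    ∃ c : ℕ, 0 < c ∧ ∀ (a : R) (N : ℕ), 0 < N → ∀ i : ℕ, ∃ γ ν : ℕ → R,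
      (∀ j < i, (N : R) * γ (j + 1) = a * γ j ∧ (N : R) * ν (j + 1) = a * ν j) ∧
        (c : R) = γ 0 + ν i - ν 0 := by
  have hcz : CharZero (FractionRing R) :=
    charZero_of_injective_algebraMap (IsFractionRing.injective R (FractionRing R))
  exact dedR2_aux R (FractionRing R) s hs h

end Pool.Agent.Helper657_nd.Ded
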