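import Pool.Agent.Helper657_nd.MMB

set_option autoImplicit false

/-!
# Inverting `s`
-/

namespace Pool.Agent.Helper657_nd.Seg

open nonZeroDivisors

theorem exists_loc {R M : Type} [CommRing R] [IsDomain R] [CharZero R] [AddCommGroup M]
    [Module R M] {s : ℕ} (hs : 0 < s) (hR : MM s R) (hM : MM s M)
    (htf : ∀ (r : R) (y : M), r • y = 0 → r = 0 ∨ y = 0) :
    ∃ (O : Type) (_ : CommRing O) (_ : IsDomain O) (_ : CharZero O) (L : Type)
      (_ : AddCommGroup L) (_ : Module O L) (_ : Module.Finite O L) (i : R →+* O) (j : M →+ L),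
      Function.Injective i ∧ Function.Injective j ∧ (∀ r y, j (r • y) = i r • j y) ∧ MM s O ∧
      MM s L ∧ (∀ (o : O) (m : L), o • m = 0 → o = 0 ∨ m = 0) := by
  classical
  have hs0 : (s : R) ≠ 0 := by exact_mod_cast hs.ne'
  let P : Submonoid R := Submonoid.powers (s : R)
  have hP : P ≤ R⁰ := by
    rintro x ⟨n, rfl⟩
    exact mem_nonZeroDivisors_of_ne_zero (pow_ne_zero _ hs0)
  let O := Localization P
  let L := LocalizedModule P M
  have hiinj : Function.Injective (algebraMap R O) := IsLocalization.injective O hP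
  have hdom : IsDomain O := IsLocalization.isDomain_localization hP
  have hcz : CharZero O := charZero_of_injective_algebraMap hiinj
  have hunit : ∀ k : ℕ, IsUnit ((s : O) ^ k) := by
    intro k
    have h1 : IsUnit (algebraMap R O (s : R)) :=
      IsLocalization.map_units O (⟨(s : R), 1, pow_one _⟩ : P)
    rw [map_natCast] at h1
    exact h1.pow k
  let j : M →ₗ[R] L := LocalizedModule.mkLinearMap P M
  have hjinj : Function.Injective j := by
    rw [injective_iff_map_eq_zero]
    intro y hy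
    obtain ⟨c, hc⟩ := (IsLocalizedModule.eq_zero_iff P j).1 hy
    rcases htf (c : R) y hc with h | h
    · exact absurd h (nonZeroDivisors.ne_zero (hP c.2))
    · exact h
  have hOrep : ∀ o : O, ∃ (k : ℕ) (x : R), (s : O) ^ k * o = algebraMap R O x := by
    intro o
    obtain ⟨⟨x, ⟨_, k, rfl⟩⟩, h⟩ := IsLocalization.surj P o
    refine ⟨k, x, ?_⟩
    rw [← h, mul_comm]
    congr 1
    simp
  have hLrep : ∀ m : L, ∃ (k : ℕ) (y : M), (s ^ k : ℕ) • m = j y := by
    intro m
    obtain ⟨⟨y, ⟨_, k, rfl⟩⟩, h⟩ := IsLocalizedModule.surj P j m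
    refine ⟨k, y, ?_⟩
    rw [← h]
    show _ = ((s : R) ^ k) • m
    rw [← Nat.cast_pow, Nat.cast_smul_eq_nsmul]
  have hMO : MM s O := by
    obtain ⟨S, hS⟩ := hR
    refine ⟨S.image (algebraMap R O), fun o => ?_⟩
    obtain ⟨k, x, hx⟩ := hOrep o
    obtain ⟨l, hl⟩ := hS x
    refine ⟨l + k, ?_⟩
    have h1 : (algebraMap R O) (s ^ l • x) ∈
        (AddSubgroup.closure (S : Set R)).map (algebraMap R O).toAddMonoidHom := ⟨_, hl, rfl⟩
    rw [AddMonoidHom.map_closure] at h1
    rw [Finset.coe_image]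
    have h2 : s ^ (l + k) • o = (algebraMap R O) (s ^ l • x) := by
      rw [map_nsmul, ← hx, pow_add, mul_smul]
      congr 1
      rw [nsmul_eq_mul]
      push_cast
      rfl
    rw [h2]
    exact h1
  have hML : MM s L := by
    obtain ⟨S, hS⟩ := hM
    refine ⟨S.image j, fun m => ?_⟩
    obtain ⟨k, y, hy⟩ := hLrep m
    obtain ⟨l, hl⟩ := hS y
    refine ⟨l + k, ?_⟩
    have h1 : j (s ^ l • y) ∈ (AddSubgroup.closure (S : Set M)).map j.toAddMonoidHom :=
      ⟨_, hl, rfl⟩
    rw [AddMonoidHom.map_closure] at h1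
    rw [Finset.coe_image, pow_add, mul_smul, hy, ← map_nsmul]
    exact h1
  have hfin : Module.Finite O L := by
    obtain ⟨S, hS⟩ := hML
    refine ⟨⟨S, ?_⟩⟩
    rw [eq_top_iff]
    rintro m -
    obtain ⟨k, hk⟩ := hS m
    have h1 : AddSubgroup.closure (S : Set L) ≤ (Submodule.span O (S : Set L)).toAddSubgroup := by
      rw [AddSubgroup.closure_le]
      exact Submodule.subset_span
    have h2 : s ^ k • m ∈ Submodule.span O (S : Set L) := h1 hk
    obtain ⟨u, hu⟩ := hunit k
    have h3 : m = ((u⁻¹ : Oˣ) : O) • (s ^ k • m) := by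
      have h4 : s ^ k • m = (u : O) • m := by
        rw [hu, ← Nat.cast_pow, Nat.cast_smul_eq_nsmul]
      rw [h4, ← mul_smul, Units.inv_mul, one_smul]
    rw [h3]
    exact Submodule.smul_mem _ _ h2
  refine ⟨O, inferInstance, hdom, hcz, L, inferInstance, inferInstance, hfin, algebraMap R O,
    j.toAddMonoidHom, hiinj, hjinj, ?_, hMO, hML, ?_⟩
  · intro r y
    show j (r • y) = (algebraMap R O r) • j y
    rw [map_smul, algebraMap_smul]
  · intro o m h
    obtain ⟨k, x, hx⟩ := hOrep o
    obtain ⟨l, y, hy⟩ := hLrep m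
    have h1 : j (x • y) = 0 := by
      rw [map_smul, ← algebraMap_smul O, ← hx, ← hy, smul_comm, mul_smul, h, smul_zero]
      exact nsmul_zero _
    have h2 : x • y = 0 := hjinj (h1.trans (map_zero j).symm)
    rcases htf x y h2 with h3 | h3
    · left
      rw [h3, map_zero] at hx
      exact (mul_eq_zero.1 hx).resolve_left (hunit k).ne_zero
    · right
      rw [h3, map_zero] at hy
      obtain ⟨u, hu⟩ := hunit l
      have h4 : (u : O) • m = 0 := by
        rw [hu, ← Nat.cast_pow, Nat.cast_smul_eq_nsmul]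
        exact hy
      have h5 : m = ((u⁻¹ : Oˣ) : O) • ((u : O) • m) := by
        rw [← mul_smul, Units.inv_mul, one_smul]
      rw [h5, h4, smul_zero]

end Pool.Agent.Helper657_nd.Seg
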