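import Pool.Agent.Helper657_nd.WeylU
import Pool.Agent.Helper657_nd.CaseU2
import Pool.Agent.Helper657_nd.Crit2

set_option autoImplicit false

/-!
# Definable minimax abelian subgroups: unipotent case
-/

namespace Pool.Agent.Helper657_nd.Weyl

open Crit Seg

section main
variable {G M : Type} [Group G] [AddCommGroup M]

theorem weylU2 {A : Subgroup G} {ι : M → G} (E : Emb A ι) {s : ℕ} (hs : 0 < s)
    (htfM : ∀ (n : ℕ) (y : M), n ≠ 0 → n • y = 0 → y = 0) (hMM : MM s M) (hA : DefinableSet (A : Set G)) (s₀ : G)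
    (hs₀ : s₀ ∈ Subgroup.normalizer (A : Set G)) (ν : Module.End ℤ M)
    (hν : ∀ y, ι (ν y) = cm s₀ (ι y)) (j : ℕ) (hnil : ν ^ j = 0) (hne : ν ≠ 0) :
    Undec G := by
  have hc : ∀ a ∈ A, ∀ b ∈ A, a * b = b * a := fun a ha b hb => E.comm ha hb
  let V₁ : Submodule ℤ M := LinearMap.ker (ν * ν)
  let W₁ : Submodule ℤ M := LinearMap.ker ν
  have hV : ∀ y, VG A s₀ (ι y) ↔ y ∈ V₁ := by
    intro y
    unfold VG
    rw [← hν, ← hν, and_iff_right (E.memι y), ← E.zero, E.inj.eq_iff]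
    rfl
  have hW : ∀ y, WG A s₀ (ι y) ↔ y ∈ W₁ := by
    intro y
    unfold WG
    rw [← hν, and_iff_right (E.memι y), ← E.zero, E.inj.eq_iff]
    rfl
  let X₀ : AddSubgroup (V₁ →ₗ[ℤ] W₁) :=
    { carrier := {φ | ∃ u, UG A s₀ u ∧ ∀ v : V₁, ι (φ v : W₁) = cm u (ι v)}
      zero_mem' := ⟨1, UG.one, fun v => by
        rw [LinearMap.zero_apply, Submodule.coe_zero, E.zero]
        simp [cm]⟩
      add_mem' := by
        rintro φ ψ ⟨u, hu, hφ⟩ ⟨u', hu', hψ⟩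
        refine ⟨u * u', hu.mul hc hu', fun v => ?_⟩
        rw [UG.cm_mul hc hu hu' ((hV v).2 v.2), LinearMap.add_apply, Submodule.coe_add, E.add,
          hφ, hψ]
      neg_mem' := by
        rintro φ ⟨u, hu, hφ⟩
        refine ⟨u⁻¹, hu.inv, fun v => ?_⟩
        rw [UG.cm_inv hu ((hV v).2 v.2), LinearMap.neg_apply, Submodule.coe_neg, E.neg, hφ] }
  let X : Submodule ℤ (V₁ →ₗ[ℤ] W₁) := AddSubgroup.toIntSubmodule X₀
  have hXmem : ∀ φ, φ ∈ X ↔ ∃ u, UG A s₀ u ∧ ∀ v : V₁, ι (φ v : W₁) = cm u (ι v) :=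
    fun φ => Iff.rfl
  have hXex : ∀ u, UG A s₀ u → ∃ φ ∈ X, ∀ v : V₁, ι (φ v : W₁) = cm u (ι v) := by
    intro u hu
    have h1 : ∀ v : M, ι ((E.act hu.1 - 1 : Module.End ℤ M) v) = cm u (ι v) := by
      intro v
      rw [LinearMap.sub_apply, E.sub, E.act_spec]
      rfl
    have h2 : ∀ v : V₁, ((E.act hu.1 - 1 : Module.End ℤ M).domRestrict V₁) v ∈ W₁ := by
      intro v
      rw [← hW, LinearMap.domRestrict_apply, h1]
      exact hu.2.2 _ ((hV v).2 v.2)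
    refine ⟨((E.act hu.1 - 1 : Module.End ℤ M).domRestrict V₁).codRestrict W₁ h2, ⟨u, hu, ?_⟩, ?_⟩
    · intro v
      exact h1 v
    · intro v
      exact h1 v
  have hXne : X ≠ ⊥ := by
    obtain ⟨φ, hφX, hφ⟩ := hXex s₀ (UG.self hs₀)
    intro h0
    rw [h0, Submodule.mem_bot] at hφX
    -- there is an element of `V₁` which `ν` does not kill
    have hex : ∃ i : ℕ, ν ^ i = 0 := ⟨j, hnil⟩
    classical
    let i := Nat.find hex
    have hi : ν ^ i = 0 := Nat.find_spec hex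
    have hi0 : i ≠ 0 := by
      intro h
      rw [h, pow_zero] at hi
      apply hne
      ext1 y
      have h2 : (1 : Module.End ℤ M) (ν y) = 0 := by rw [hi]; rfl
      exact h2
    have hi1 : i ≠ 1 := by
      intro h
      rw [h, pow_one] at hi
      exact hne hi
    have hlt := Nat.find_min hex (show i - 1 < i by omega)
    apply hlt
    ext1 y
    have h3 : (ν ^ (i - 2)) y ∈ V₁ := by
      show (ν * ν) ((ν ^ (i - 2)) y) = 0
      have : ν * ν * ν ^ (i - 2) = ν ^ i := by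
        rw [← pow_two, ← pow_add]
        congr 1
        omega
      have h4 : (ν * ν * ν ^ (i - 2)) y = 0 := by rw [this, hi]; rfl
      exact h4
    have h4 := hφ ⟨_, h3⟩
    rw [hφX, LinearMap.zero_apply, Submodule.coe_zero, ← hν] at h4
    have h5 : ν ^ (i - 1) = ν * ν ^ (i - 2) := by
      rw [← pow_succ']
      congr 1
      omega
    rw [h5]
    exact (E.inj h4).symm
  have htfW : ∀ (n : ℕ) (y : W₁), n ≠ 0 → n • y = 0 → y = 0 := by
    intro n y hn h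
    apply Subtype.ext
    exact htfM n _ hn (congrArg Subtype.val h)
  obtain ⟨O, i1, i2, i3, x₀, hx₀X, v₁, V, hMO, HD⟩ :=
    caseU2 hs (hMM.sub V₁) (hMM.sub W₁) htfW X hXne
  obtain ⟨Kseg, hKseg⟩ := segProp O s hs hMO
  obtain ⟨u₀, hu₀, hx₀⟩ := (hXmem x₀).1 hx₀X
  -- translation
  have hUX : ∀ (u : G) (x : V₁ →ₗ[ℤ] W₁), UG A s₀ u → (∀ v : V₁, ι (x v : W₁) = cm u (ι v)) →
      (UX A s₀ u₀ u ↔ SubK x₀ x) := by
    intro u x hu hx
    unfold UX SubK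
    rw [and_iff_right hu]
    constructor
    · intro h v hv
      have h1 : cm u₀ (ι v) = 1 := by rw [← hx₀, hv, Submodule.coe_zero, E.zero]
      have h2 := h (ι v) ((hV v).2 v.2) h1
      rw [← hx, ← E.zero] at h2
      exact Subtype.ext (E.inj h2)
    · intro h g hg h1
      obtain ⟨y, rfl⟩ := (E.mem g).1 hg.1
      have hy : y ∈ V₁ := (hV y).1 hg
      have h2 : x₀ ⟨y, hy⟩ = 0 := by
        apply Subtype.ext
        apply E.inj
        rw [hx₀, Submodule.coe_zero, E.zero]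
        exact h1
      have h3 := hx ⟨y, hy⟩
      rw [h _ h2, Submodule.coe_zero, E.zero] at h3
      exact h3.symm
  have hto : ∀ u, UX A s₀ u₀ u → ∃ x ∈ X, SubK x₀ x ∧ ∀ v : V₁, ι (x v : W₁) = cm u (ι v) := by
    intro u hu
    obtain ⟨x, hx, hxu⟩ := hXex u hu.1
    exact ⟨x, hx, (hUX u x hu.1 hxu).1 hu, hxu⟩
  have hfrom : ∀ x ∈ X, SubK x₀ x → ∃ u, UX A s₀ u₀ u ∧ ∀ v : V₁, ι (x v : W₁) = cm u (ι v) := by
    intro x hx hs
    obtain ⟨u, hu, hxu⟩ := (hXmem x).1 hx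
    exact ⟨u, (hUX u x hu hxu).2 hs, hxu⟩
  have hinjW : ∀ w w' : W₁, ι w = ι w' → w = w' := fun w w' h => Subtype.ext (E.inj h)
  have hK0 : ∀ v : V₁, K0G A s₀ u₀ (ι v₁) (ι v) ↔ K0U X x₀ v₁ v := by
    intro v
    unfold K0G K0U
    rw [and_iff_right ((hV v).2 v.2)]
    constructor
    · intro h x hx hs
      obtain ⟨u, hu, hxu⟩ := hfrom x hx hs
      obtain ⟨u', hu', he⟩ := h u hu
      obtain ⟨x', hx', hs', hxu'⟩ := hto u' hu'
      exact ⟨x', hx', hs', hinjW _ _ (by rw [hxu, hxu', he])⟩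
    · intro h u hu
      obtain ⟨x, hx, hs, hxu⟩ := hto u hu
      obtain ⟨x', hx', hs', he⟩ := h x hx hs
      obtain ⟨u', hu', hxu'⟩ := hfrom x' hx' hs'
      exact ⟨u', hu', by rw [← hxu, ← hxu', he]⟩
  have hK0ex : ∀ g, K0G A s₀ u₀ (ι v₁) g → ∃ v : V₁, ι v = g := by
    intro g hg
    obtain ⟨y, rfl⟩ := (E.mem g).1 hg.1.1
    exact ⟨⟨y, (hV y).1 hg.1⟩, rfl⟩
  have hDom : ∀ v : V₁, DomUG A s₀ u₀ (ι v₁) (ι v) ↔ DomU X x₀ v₁ v := by
    intro v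
    unfold DomUG DomU
    rw [hK0]
    refine and_congr Iff.rfl ⟨?_, ?_⟩
    · intro h v' hv' x hx hs
      obtain ⟨u, hu, hxu⟩ := hfrom x hx hs
      obtain ⟨p, hp0, hp1, e1, e2, e3⟩ := h (ι v') ((hK0 v').2 hv') u hu
      obtain ⟨x₂, hx₂, hs₂, hxu₂⟩ := hto _ hp0
      obtain ⟨x₃, hx₃, hs₃, hxu₃⟩ := hto _ hp1
      exact ⟨x₂, hx₂, x₃, hx₃, hs₂, hs₃, hinjW _ _ (by rw [hxu, hxu₂, e1]),
        hinjW _ _ (by rw [hxu, hxu₃, e2]), hinjW _ _ (by rw [hxu₂, hxu₃, e3])⟩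
    · intro h g hg u hu
      obtain ⟨v', rfl⟩ := hK0ex g hg
      obtain ⟨x, hx, hs, hxu⟩ := hto u hu
      obtain ⟨x₂, hx₂, x₃, hx₃, hs₂, hs₃, e1, e2, e3⟩ := h v' ((hK0 v').1 hg) x hx hs
      obtain ⟨u₂, hu₂, hxu₂⟩ := hfrom x₂ hx₂ hs₂
      obtain ⟨u₃, hu₃, hxu₃⟩ := hfrom x₃ hx₃ hs₃
      refine ⟨![u₂, u₃], hu₂, hu₃, ?_, ?_, ?_⟩
      · show cm u (ι v') = cm u₂ (ι v₁)
        rw [← hxu, ← hxu₂, e1]
      · show cm u (ι v) = cm u₃ (ι v₁)
        rw [← hxu, ← hxu₃, e2]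
      · show cm u₂ (ι v) = cm u₃ (ι v')
        rw [← hxu₂, ← hxu₃, e3]
  have hMul : ∀ v v' v'' : V₁, MulUG A s₀ u₀ (ι v₁) (ι v) (ι v') (ι v'') ↔
      MulU X x₀ v₁ v v' v'' := by
    intro v v' v''
    unfold MulUG MulU
    constructor
    · intro h x hx hs
      obtain ⟨u, hu, hxu⟩ := hfrom x hx hs
      obtain ⟨u', hu', he, he'⟩ := h u hu
      obtain ⟨x', hx', hs', hxu'⟩ := hto u' hu'
      exact ⟨x', hx', hs', hinjW _ _ (by rw [hxu, hxu', he]), hinjW _ _ (by rw [hxu, hxu', he'])⟩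
    · intro h u hu
      obtain ⟨x, hx, hs, hxu⟩ := hto u hu
      obtain ⟨x', hx', hs', he, he'⟩ := h x hx hs
      obtain ⟨u', hu', hxu'⟩ := hfrom x' hx' hs'
      exact ⟨u', hu', by rw [← hxu, ← hxu', he], by rw [← hxu, ← hxu', he']⟩
  have hData := HD.toData (fun v : V₁ => ι (v : M)) (fun v v' h => Subtype.ext (E.inj h))
    (fun x y => by
      show ι ((x + y : V₁) : M) = _
      rw [Submodule.coe_add, E.add])
    (fun k x => by
      show ι ((k • x : V₁) : M) = _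
      rw [Submodule.coe_smul_of_tower, E.nsmul])
    (DomUG A s₀ u₀ (ι v₁)) (fun x y => cm u₀ x = cm u₀ y)
    (MulUG A s₀ u₀ (ι v₁))
    (fun g hg => hK0ex g hg.1)
    hDom
    (fun x y _ _ => by
      show cm u₀ (ι x) = cm u₀ (ι y) ↔ _
      rw [← hx₀, ← hx₀]
      exact ⟨fun h => hinjW _ _ h, fun h => by rw [h]⟩)
    (fun x y z _ _ _ => hMul x y z)
  refine Crit2.main hKseg hData (def_DomUG hA _ _ _) ?_ ?_ (def_MulUG hA _ _ _)
  · exact Df.eq (Tm.cm (Tm.const _) (Tm.var 0)) (Tm.cm (Tm.const _) (Tm.var 1))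
  · exact Df.eq ((Tm.var 0).mul (Tm.var 1)) (Tm.var 2)

end main

end Pool.Agent.Helper657_nd.Weyl
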