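import Pool.Agent.Helper657_nd.LemH
import Pool.Agent.Helper657_nd.CommS2
import Pool.Agent.Helper657_nd.WeylU2

set_option autoImplicit false

/-!
# Commensurated minimax abelian subgroups: assembly
-/

namespace Pool.Agent.Helper657_nd.Comm

open Crit Weyl Seg

theorem dichotomy3 {R M : Type} [CommRing R] [AddCommGroup M] [Module R M] (hM : FR M)
    (htf : ∀ (n : ℕ) (y : M), n ≠ 0 → n • y = 0 → y = 0)
    (α β : R) : ∃ e : ℕ, 0 < e ∧ ∃ j : ℕ, ∀ k : ℕ, 0 < k → ∀ y : M,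
      (α ^ k - β ^ k) • (α ^ e - β ^ e) ^ j • y = 0 → (α ^ e - β ^ e) ^ j • y = 0 := by
  let K : ℕ → ℕ → Submodule ℤ M := fun k i =>
    { carrier := {y | (α ^ k - β ^ k) ^ i • y = 0}
      add_mem' := fun {a b} ha hb => by
        show (α ^ k - β ^ k) ^ i • (a + b) = 0
        rw [smul_add, show (α ^ k - β ^ k) ^ i • a = 0 from ha,
          show (α ^ k - β ^ k) ^ i • b = 0 from hb, add_zero]
      zero_mem' := smul_zero _
      smul_mem' := fun c a ha => by
        show (α ^ k - β ^ k) ^ i • c • a = 0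
        rw [smul_comm, show (α ^ k - β ^ k) ^ i • a = 0 from ha, smul_zero] }
  have hK : ∀ k i y, y ∈ K k i ↔ (α ^ k - β ^ k) ^ i • y = 0 := fun k i y => Iff.rfl
  have hdvd : ∀ k l i j : ℕ, i ≤ j → (α ^ k - β ^ k) ^ i ∣ (α ^ (k * l) - β ^ (k * l)) ^ j := by
    intro k l i j hij
    have h1 : α ^ k - β ^ k ∣ α ^ (k * l) - β ^ (k * l) := by
      rw [pow_mul, pow_mul]
      exact sub_dvd_pow_sub_pow (α ^ k) (β ^ k) l
    exact (pow_dvd_pow_of_dvd h1 i).trans (pow_dvd_pow _ hij)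
  have hle : ∀ k l i j : ℕ, i ≤ j → K k i ≤ K (k * l) j := by
    intro k l i j hij y hy
    rw [hK] at hy ⊢
    obtain ⟨r, hr⟩ := hdvd k l i j hij
    rw [hr, mul_comm, mul_smul, hy, smul_zero]
  obtain ⟨_, ⟨e, j, he, rfl⟩, hmax⟩ := hM.exists_max (fun P => ∃ e j : ℕ, 0 < e ∧ P = K e j)
    ⟨_, 1, 0, Nat.one_pos, rfl⟩ (by
      rintro _ ⟨e, j, _, rfl⟩ n y hn hy
      rw [hK, smul_comm] at hy
      exact htf n _ hn hy)
  refine ⟨e, he, j, fun k hk y hy => ?_⟩
  have h1 : y ∈ K (e * k) (j + 1) := by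
    rw [hK, pow_succ']
    obtain ⟨r, hr⟩ := hdvd e k j j le_rfl
    obtain ⟨s, hs⟩ := hdvd k e 1 1 le_rfl
    rw [pow_one, pow_one, mul_comm k e] at hs
    rw [hr, hs]
    have : (α ^ k - β ^ k) * s * ((α ^ e - β ^ e) ^ j * r) =
        (s * r) * ((α ^ k - β ^ k) * (α ^ e - β ^ e) ^ j) := by
      ring
    rw [this, mul_smul, mul_smul (α ^ k - β ^ k), hy, smul_zero]
  have h2 := hmax (K (e * k) (j + 1)) ⟨e * k, j + 1, Nat.mul_pos he hk, rfl⟩
    (hle e k j (j + 1) (by omega)) h1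
  rwa [hK] at h2

/-- torsion-freeness of submodules -/
theorem htf_sub {M : Type} [AddCommGroup M] (htf : ∀ (n : ℕ) (y : M), n ≠ 0 → n • y = 0 → y = 0)
    (K : Submodule ℤ M) : ∀ (n : ℕ) (y : K), n ≠ 0 → n • y = 0 → y = 0 := by
  intro n y hn h
  exact Subtype.ext (htf n _ hn (congrArg Subtype.val h))

section sub
variable {G M : Type} [Group G] [AddCommGroup M] {A : Subgroup G} {ι : M → G} (E : Emb A ι)
include E

/-- The semisimple case. -/
theorem commS2' {s : ℕ} (hs : 0 < s)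
    (htfM : ∀ (n : ℕ) (y : M), n ≠ 0 → n • y = 0 → y = 0) (hMM : MM s M)
    (t : G) (N : ℕ) (φ : Module.End ℤ M) (hQ : QA ι t N φ) (W : Submodule ℤ M) (hW : W ≠ ⊥)
    (hWd : Def1 fun g => ∃ y ∈ W, ι y = g) (hWφ : ∀ y ∈ W, φ y ∈ W)
    (hinj : ∀ k : ℕ, 0 < k → ∀ y ∈ W, (φ ^ k) y = (N ^ k) • y → y = 0) :
    Undec G := by
  classical
  obtain ⟨K, ⟨hK0, hKW, hKd, hKφ⟩, hKmin⟩ := lemH hs htfM hMM
    (fun K => K ≠ ⊥ ∧ K ≤ W ∧ (Def1 fun g => ∃ y ∈ K, ι y = g) ∧ ∀ y ∈ K, φ y ∈ K)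
    ⟨W, hW, le_rfl, hWd, hWφ⟩
  let φK : Module.End ℤ K := φ.restrict hKφ
  have hφK : ∀ y : K, ((φK y : K) : M) = φ y := fun y => rfl
  have hφKpow : ∀ (k : ℕ) (y : K), (((φK ^ k) y : K) : M) = (φ ^ k) y := by
    intro k
    induction k with
    | zero => intro y; rfl
    | succ k ih =>
      intro y
      rw [pow_succ, pow_succ]
      show (((φK ^ k) (φK y) : K) : M) = (φ ^ k) (φ y)
      rw [ih, hφK]
  refine commS2 (emb_sub E K) hs (htf_sub htfM K) (hMM.sub K) (sg_def E K hKd) t N φK ⟨hQ.1, fun y => ?_⟩ ?_ ?_ ?_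
  · show ι (φ y) = t * ι ((N • y : K) : M) * t⁻¹
    rw [hQ.2, Submodule.coe_smul_of_tower]
  · intro k hk y hy
    apply Subtype.ext
    apply hinj k hk y (hKW y.2)
    rw [← hφKpow, hy, Submodule.coe_smul_of_tower]
  · obtain ⟨y, hy, hy0⟩ := (Submodule.ne_bot_iff K).1 hK0
    exact ⟨⟨y, hy⟩, fun h => hy0 (congrArg Subtype.val h)⟩
  · intro L hL hLd hLφ
    have hmem : ∀ g : G, (∃ y ∈ L.map K.subtype, ι y = g) ↔ ∃ y ∈ L, ι ((y : K) : M) = g := by
      intro g
      constructor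
      · rintro ⟨_, ⟨z, hz, rfl⟩, h⟩
        exact ⟨z, hz, h⟩
      · rintro ⟨z, hz, h⟩
        exact ⟨_, ⟨z, hz, rfl⟩, h⟩
    have hL1 : L.map K.subtype ≠ ⊥ := by
      intro h0
      apply hL
      rw [Submodule.eq_bot_iff]
      intro z hz
      apply Subtype.ext
      have h2 : (z : M) ∈ L.map K.subtype := ⟨z, hz, rfl⟩
      rw [h0, Submodule.mem_bot] at h2
      exact h2
    have hL2 : L.map K.subtype ≤ K := by
      rintro _ ⟨z, _, rfl⟩
      exact z.2
    have hL3 : Def1 fun g => ∃ y ∈ L.map K.subtype, ι y = g := hLd.congr fun s => hmem (s 0)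
    have hL4 : ∀ y ∈ L.map K.subtype, φ y ∈ L.map K.subtype := by
      rintro _ ⟨z, hz, rfl⟩
      exact ⟨φK z, hLφ z hz, rfl⟩
    obtain ⟨n, hn, h1⟩ := hKmin (L.map K.subtype) ⟨hL1, hL2.trans hKW, hL3, hL4⟩ hL2
    refine ⟨n, hn, fun y => ?_⟩
    obtain ⟨z, hz, h2⟩ := h1 y y.2
    have h3 : z = n • y := Subtype.ext h2
    rwa [← h3]

end sub

section unip
variable {G M : Type} [Group G] [AddCommGroup M] {A : Subgroup G} {ι : M → G} (E : Emb A ι)
include E

/-- The unipotent case. -/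
theorem commU2 {s : ℕ} (hs : 0 < s)
    (htfM : ∀ (n : ℕ) (y : M), n ≠ 0 → n • y = 0 → y = 0) (hMM : MM s M) (hA : DefinableSet (A : Set G))
    (T : G) (N : ℕ) (ψ : Module.End ℤ M) (hQ : QA ι T N ψ) (j : ℕ)
    (hnil : ∀ y : M, ((ψ - (N : Module.End ℤ M)) ^ (j + 1)) y = 0)
    (hinf : ∀ k : ℕ, 0 < k → ∀ m : ℕ, 0 < m → ∃ y : M, T ^ k * ι (m • y) * (T ^ k)⁻¹ ≠ ι (m • y)) :
    Undec G := by
  classical
  let J := j + 1
  let g : ℕ → Module.End ℤ M := fun i => (N ^ (J - i)) • ψ ^ i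
  have hrep : ∀ i, Rep ι (g i) := fun i => Rep.nsmul E (Rep.pow E (Rep.of_QA E hQ) i) _
  have hstep : ∀ i < J, ∀ y, ι (g (i + 1) y) = T * ι (g i y) * T⁻¹ := by
    intro i hi y
    have h1 : g i y = N • (N ^ (J - (i + 1)) • (ψ ^ i) y) := by
      show (N ^ (J - i)) • (ψ ^ i) y = _
      rw [← mul_smul, ← pow_succ']
      congr 2
      omega
    have h2 : g (i + 1) y = ψ (N ^ (J - (i + 1)) • (ψ ^ i) y) := by
      show (N ^ (J - (i + 1))) • (ψ ^ (i + 1)) y = _
      rw [map_nsmul, pow_succ']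
      rfl
    rw [h1, h2, hQ.2]
  let c : ℕ → ℤ := fun i => (-1) ^ (J - i) * (J.choose i : ℤ)
  have hsum : ∀ y : M, ∑ i ∈ Finset.range (J + 1), c i • g i y = 0 := by
    intro y
    have h1 : (ψ - (N : Module.End ℤ M)) ^ J = ∑ i ∈ Finset.range (J + 1), c i • g i := by
      have hcomm : Commute ψ (-(N : Module.End ℤ M)) := (Commute.neg_right (Nat.cast_commute N ψ).symm)
      rw [sub_eq_add_neg, hcomm.add_pow]
      refine Finset.sum_congr rfl fun i hi => ?_
      rw [neg_pow]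
      show _ = ((-1) ^ (J - i) * (J.choose i : ℤ)) • ((N ^ (J - i)) • ψ ^ i)
      rw [nsmul_eq_mul, zsmul_eq_mul]
      push_cast
      have h2 : Commute (ψ ^ i) ((-1) ^ (J - i) * (N : Module.End ℤ M) ^ (J - i)) := by
        apply Commute.mul_right
        · exact (Commute.neg_one_right _).pow_right _
        · exact ((Nat.cast_commute N (ψ ^ i)).symm).pow_right _
      rw [h2.eq, mul_assoc, mul_assoc, mul_assoc]
      congr 1
      rw [← mul_assoc, ← mul_assoc]
      have h3 : Commute ((N : Module.End ℤ M) ^ (J - i) * ψ ^ i) (J.choose i : Module.End ℤ M) :=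
        (Nat.cast_commute _ _).symm
      rw [h3.eq, mul_assoc]
    have h3 := hnil y
    rw [show j + 1 = J from rfl, h1] at h3
    simpa using h3
  let M' := Ms g J
  have hgM : ∀ i < J, ∀ y, g i y ∈ M' := fun i hi y => range_le_Ms g hi ⟨y, rfl⟩
  have hJ1 : J = j + 1 := rfl
  have hgJ : ∀ y, g J y ∈ M' := by
    intro y
    have h1 := hsum y
    rw [Finset.sum_range_succ] at h1
    have h2 : c J = 1 := by simp [c]
    rw [h2, one_smul] at h1
    rw [eq_neg_of_add_eq_zero_right h1]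
    exact M'.neg_mem (M'.sum_mem fun i hi => M'.smul_mem _ (hgM i (Finset.mem_range.1 hi) y))
  have hfwd : ∀ z ∈ M', ∃ z' ∈ M', ι z' = T * ι z * T⁻¹ := by
    let P : Submodule ℤ M :=
      { carrier := {z | ∃ z' ∈ M', ι z' = T * ι z * T⁻¹}
        add_mem' := by
          rintro a b ⟨a', ha', ha⟩ ⟨b', hb', hb⟩
          exact ⟨a' + b', M'.add_mem ha' hb', rel_add E ha hb⟩
        zero_mem' := ⟨0, M'.zero_mem, rel_zero E T⟩
        smul_mem' := by
          rintro c z ⟨z', hz', hz⟩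
          rcases Int.natAbs_eq c with h1 | h1
          · refine ⟨c.natAbs • z', M'.smul_of_tower_mem _ hz', ?_⟩
            rw [h1, Int.natAbs_natCast, natCast_zsmul]
            exact smul_rel E hz _
          · refine ⟨-(c.natAbs • z'), M'.neg_mem (M'.smul_of_tower_mem _ hz'), ?_⟩
            rw [h1, Int.natAbs_neg, Int.natAbs_natCast, neg_smul, natCast_zsmul]
            exact rel_neg E (smul_rel E hz _) }
    have hle : M' ≤ P := by
      apply Ms_le
      rintro i hi _ ⟨y, rfl⟩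
      refine ⟨g (i + 1) y, ?_, hstep i hi y⟩
      rcases Nat.lt_or_ge (i + 1) J with h | h
      · exact hgM _ h y
      · have : i + 1 = J := by omega
        rw [this]
        exact hgJ y
    exact fun z hz => hle hz
  have hrelinv : ∀ {x y : M}, ι y = T * ι x * T⁻¹ → ι x = T⁻¹ * ι y * T⁻¹⁻¹ := by
    intro x y h
    rw [h]
    group
  have hbwd : ∀ z ∈ M', ∃ z' ∈ M', ι z' = T⁻¹ * ι z * T⁻¹⁻¹ := by
    let P : Submodule ℤ M :=
      { carrier := {z | ∃ z' ∈ M', ι z' = T⁻¹ * ι z * T⁻¹⁻¹}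
        add_mem' := by
          rintro a b ⟨a', ha', ha⟩ ⟨b', hb', hb⟩
          exact ⟨a' + b', M'.add_mem ha' hb', rel_add E ha hb⟩
        zero_mem' := ⟨0, M'.zero_mem, rel_zero E T⁻¹⟩
        smul_mem' := by
          rintro c z ⟨z', hz', hz⟩
          rcases Int.natAbs_eq c with h1 | h1
          · refine ⟨c.natAbs • z', M'.smul_of_tower_mem _ hz', ?_⟩
            rw [h1, Int.natAbs_natCast, natCast_zsmul]
            exact smul_rel E hz _
          · refine ⟨-(c.natAbs • z'), M'.neg_mem (M'.smul_of_tower_mem _ hz'), ?_⟩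
            rw [h1, Int.natAbs_neg, Int.natAbs_natCast, neg_smul, natCast_zsmul]
            exact rel_neg E (smul_rel E hz _) }
    have hsucc : ∀ i, i < J → ∀ y, g (i + 1) y ∈ P := by
      intro i hi y
      exact ⟨g i y, hgM i hi y, hrelinv (hstep i hi y)⟩
    have hle : M' ≤ P := by
      apply Ms_le
      rintro i hi _ ⟨y, rfl⟩
      rcases Nat.eq_zero_or_pos i with h0 | hpos
      · rw [h0]
        have h1 := hsum y
        rw [Finset.sum_range_succ'] at h1
        have h2 : c 0 • g 0 y = -∑ i ∈ Finset.range J, c (i + 1) • g (i + 1) y :=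
          eq_neg_of_add_eq_zero_right h1
        have h3 : c 0 • g 0 y ∈ P := by
          rw [h2]
          exact P.neg_mem (P.sum_mem fun i hi => P.smul_mem _ (hsucc i (Finset.mem_range.1 hi) y))
        have h4 : c 0 * c 0 = 1 := by
          simp only [c, Nat.sub_zero, Nat.choose_zero_right, Nat.cast_one, mul_one]
          rw [← mul_pow]
          norm_num
        have h5 := P.smul_mem (c 0) h3
        rwa [← mul_smul, h4, one_smul] at h5
      · obtain ⟨i', rfl⟩ : ∃ i', i = i' + 1 := ⟨i - 1, by omega⟩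
        exact hsucc i' (by omega) y
    exact fun z hz => hle hz
  have hnorm : T ∈ Subgroup.normalizer ((sg E M' : Subgroup G) : Set G) := by
    rw [Subgroup.mem_normalizer_iff]
    intro x
    constructor
    · rintro ⟨z, hz, rfl⟩
      obtain ⟨z', hz', h⟩ := hfwd z hz
      exact ⟨z', hz', h⟩
    · rintro ⟨z, hz, h⟩
      obtain ⟨z', hz', h'⟩ := hbwd z hz
      refine ⟨z', hz', ?_⟩
      rw [h', h]
      group
  have E' := emb_sub E M'
  let ν : Module.End ℤ M' := E'.act hnorm - 1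
  have hν : ∀ y, ι ((ν y : M') : M) = cm T (ι ((y : M') : M)) := by
    intro y
    have h1 : ι (((E'.act hnorm) y : M') : M) = T * ι ((y : M') : M) * T⁻¹ := E'.act_spec hnorm y
    show ι (((E'.act hnorm) y - y : M') : M) = _
    rw [Submodule.coe_sub, E.sub, h1]
    rfl
  have hact : ∀ y : M', N • (((E'.act hnorm) y : M') : M) = ψ (y : M) := by
    intro y
    apply E.inj
    have h1 : ι (((E'.act hnorm) y : M') : M) = T * ι ((y : M') : M) * T⁻¹ := E'.act_spec hnorm y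
    rw [hQ.2, E.nsmul, h1, E.nsmul, conj_pow]
  have hν1 : ∀ y : M', N • ((ν y : M') : M) = (ψ - (N : Module.End ℤ M)) (y : M) := by
    intro y
    show N • (((E'.act hnorm) y - y : M') : M) = _
    rw [Submodule.coe_sub, smul_sub, hact]
    rfl
  have hνpow : ∀ (i : ℕ) (y : M'), N ^ i • (((ν ^ i) y : M') : M) =
      ((ψ - (N : Module.End ℤ M)) ^ i) (y : M) := by
    intro i
    induction i with
    | zero => intro y; simp
    | succ i ih =>
      intro y
      have h1 : (ν ^ (i + 1)) y = (ν ^ i) (ν y) := by rw [pow_succ]; rfl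
      have h2 : ((ψ - (N : Module.End ℤ M)) ^ (i + 1)) (y : M) =
          ((ψ - (N : Module.End ℤ M)) ^ i) ((ψ - (N : Module.End ℤ M)) (y : M)) := by
        rw [pow_succ]; rfl
      rw [h1, h2, ← hν1, map_nsmul, ← ih, pow_succ', mul_smul]
  have hN0 : N ≠ 0 := by have := hQ.1; omega
  refine weylU2 E' hs (htf_sub htfM M') (hMM.sub M') (sg_def E M' (Ms_def E hA g hrep J)) T hnorm ν
    hν (j + 1) ?_ ?_
  · ext1 y
    apply Subtype.ext
    apply htfM (N ^ (j + 1)) _ (pow_ne_zero _ hN0)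
    rw [hνpow, hnil]
  · intro h0
    obtain ⟨y, hy⟩ := hinf 1 Nat.one_pos (N ^ J) (pow_pos hQ.1 J)
    apply hy
    have h1 : g 0 y = (N ^ J) • y := rfl
    have h2 := hν ⟨g 0 y, hgM 0 (by omega) y⟩
    rw [h0, LinearMap.zero_apply, Submodule.coe_zero, E.zero] at h2
    rw [← h1, pow_one]
    exact cm_eq_one.1 h2.symm

end unip

section final
variable {G M : Type} [Group G] [AddCommGroup M] {A : Subgroup G} {ι : M → G} (E : Emb A ι)
include E

/-- Torsion-free minimax groups. -/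
theorem commM {s : ℕ} (hs : 0 < s)
    (htfM : ∀ (n : ℕ) (y : M), n ≠ 0 → n • y = 0 → y = 0) (hMM : MM s M)
    (hA : DefinableSet (A : Set G)) (t : G) (N : ℕ) (φ : Module.End ℤ M) (hQ : QA ι t N φ)
    (hinf : ∀ k : ℕ, 0 < k → ∀ m : ℕ, 0 < m → ∃ y : M, t ^ k * ι (m • y) * (t ^ k)⁻¹ ≠ ι (m • y)) :
    Undec G := by
  classical
  obtain ⟨R, j1, j2, hMMR, hR1, hR2, hR3, hR4⟩ := exists_ringQ2 E hs htfM hMM t
  obtain ⟨α, hα⟩ := hR1 t N φ (ZC.self t) hQ
  have hαpow : ∀ (i : ℕ) (z : M), α ^ i • z = (φ ^ i) z := by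
    intro i
    induction i with
    | zero => intro z; simp
    | succ i ih =>
      intro z
      rw [pow_succ, pow_succ, mul_smul, ih, hα]
      rfl
  have hcast : ∀ (n : ℕ) (y : M), (n : R) • y = n • y := fun n y => Nat.cast_smul_eq_nsmul R n y
  obtain ⟨e, he, j, hdich⟩ := dichotomy3 (M := M) (hMM.fr hs) htfM α (N : R)
  by_cases hne : ∃ y : M, (α ^ e - (N : R) ^ e) ^ j • y ≠ 0
  · let δ : Module.End ℤ M := (φ ^ e - ((N ^ e : ℕ) : Module.End ℤ M)) ^ j
    have hδ1 : ∀ y, (φ ^ e - ((N ^ e : ℕ) : Module.End ℤ M)) y = (α ^ e - (N : R) ^ e) • y := by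
      intro y
      rw [LinearMap.sub_apply, sub_smul, hαpow, ← Nat.cast_pow, hcast]
      congr 1
    have hδ : ∀ y, δ y = (α ^ e - (N : R) ^ e) ^ j • y := by
      have : ∀ (i : ℕ) (y : M), ((φ ^ e - ((N ^ e : ℕ) : Module.End ℤ M)) ^ i) y =
          (α ^ e - (N : R) ^ e) ^ i • y := by
        intro i
        induction i with
        | zero => intro y; simp
        | succ i ih =>
          intro y
          rw [pow_succ, pow_succ, mul_smul]
          show ((φ ^ e - ((N ^ e : ℕ) : Module.End ℤ M)) ^ i)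
            ((φ ^ e - ((N ^ e : ℕ) : Module.End ℤ M)) y) = _
          rw [ih, hδ1]
      exact this j
    have hrep : Rep ι δ := by
      apply Rep.pow E
      obtain ⟨f₁, hf₁, hf₂⟩ := Rep.pow E (Rep.of_QA E hQ) e
      refine ⟨fun z => f₁ z * (z ^ (N ^ e))⁻¹, fun z hz => (hf₁ z hz).mul (Tm.pow' hz _).inv,
        fun y => ?_⟩
      show _ = f₁ (ι y) * (ι y ^ (N ^ e))⁻¹
      rw [LinearMap.sub_apply, E.sub, hf₂, ← E.nsmul]
      rfl
    have hcommφ : ∀ y, φ (δ y) = δ (φ y) := by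
      intro y
      rw [hδ, hδ, ← hα, ← hα, smul_comm]
    refine commS2' E hs htfM hMM t N φ hQ (LinearMap.range δ) ?_ ?_ ?_ ?_
    · obtain ⟨y, hy⟩ := hne
      intro h0
      apply hy
      have h2 : δ y ∈ LinearMap.range δ := ⟨y, rfl⟩
      rw [h0, Submodule.mem_bot, hδ] at h2
      exact h2
    · obtain ⟨f₁, hf₁, hf₂⟩ := hrep
      have h2 : Df fun s : ℕ → G => ∃ a, a ∈ (A : Set G) ∧
          s 0 = f₁ a := by
        apply Df.exi (R := fun a s => a ∈ (A : Set G) ∧ s 0 = f₁ a)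
        exact (DefinableSet.df hA (Tm.var 0)).and (Df.eq (Tm.var 1) (hf₁ _ (Tm.var 0)))
      refine h2.congr fun s => ?_
      constructor
      · rintro ⟨_, ⟨y, rfl⟩, h⟩
        exact ⟨ι y, E.memι y, by rw [← h, hf₂]⟩
      · rintro ⟨a, ha, h⟩
        obtain ⟨y, rfl⟩ := (E.mem a).1 ha
        exact ⟨δ y, ⟨y, rfl⟩, by rw [h, hf₂]⟩
    · rintro _ ⟨y, rfl⟩
      exact ⟨φ y, (hcommφ y).symm⟩
    · rintro k hk _ ⟨y, rfl⟩ h
      rw [hδ]
      apply hdich k hk
      rw [sub_smul, ← hδ, hαpow, h, ← Nat.cast_pow, hcast, sub_self]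
  · push Not at hne
    have hδ1 : ∀ y, (φ ^ e - ((N ^ e : ℕ) : Module.End ℤ M)) y = (α ^ e - (N : R) ^ e) • y := by
      intro y
      rw [LinearMap.sub_apply, sub_smul, hαpow, ← Nat.cast_pow, hcast]
      congr 1
    have hδ : ∀ (i : ℕ) (y : M), ((φ ^ e - ((N ^ e : ℕ) : Module.End ℤ M)) ^ i) y =
          (α ^ e - (N : R) ^ e) ^ i • y := by
      intro i
      induction i with
      | zero => intro y; simp
      | succ i ih =>
        intro y
        rw [pow_succ, pow_succ, mul_smul]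
        show ((φ ^ e - ((N ^ e : ℕ) : Module.End ℤ M)) ^ i)
          ((φ ^ e - ((N ^ e : ℕ) : Module.End ℤ M)) y) = _
        rw [ih, hδ1]
    refine commU2 E hs htfM hMM hA (t ^ e) (N ^ e) (φ ^ e) (QA.pow E hQ e) j ?_ ?_
    · intro y
      rw [hδ, pow_succ', mul_smul, hne, smul_zero]
    · intro k hk m hm
      obtain ⟨y, hy⟩ := hinf (e * k) (Nat.mul_pos he hk) m hm
      refine ⟨y, ?_⟩
      rw [← pow_mul]
      exact hy

end final

end Pool.Agent.Helper657_nd.Comm
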