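import Pool.Agent.Helper657_nd.J

set_option autoImplicit false

/-!
# Fractions in orders
-/

namespace Pool.Agent.Helper657_nd.Ded

open FractionalIdeal nonZeroDivisors

/-- In the maximal order of a number field, the fractional ideal `(1, q)` is invertible. -/
theorem two_gen (F : Type) [Field F] [NumberField F] (q : F) :
    ∃ g₀ g₁ : F, g₀ + q * g₁ = 1 ∧ IsIntegral ℤ g₀ ∧ IsIntegral ℤ (q * g₀) ∧ IsIntegral ℤ g₁ ∧
      IsIntegral ℤ (q * g₁) := by
  let R := NumberField.RingOfIntegers F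
  have hint : ∀ x : F, x ∈ (1 : FractionalIdeal R⁰ F) ↔ IsIntegral ℤ x := by
    intro x
    rw [FractionalIdeal.mem_one_iff]
    constructor
    · rintro ⟨y, rfl⟩
      exact y.2
    · intro h
      exact ⟨⟨x, h⟩, rfl⟩
  let I : FractionalIdeal R⁰ F := 1 + spanSingleton R⁰ q
  have h1I : (1 : FractionalIdeal R⁰ F) ≤ I := by
    intro x hx
    exact (FractionalIdeal.mem_add _ _ x).2 ⟨x, hx, 0, FractionalIdeal.zero_mem _ , add_zero x⟩
  have hI : I ≠ 0 := by
    intro h0
    rw [h0] at h1I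
    have : (1 : F) ∈ (0 : FractionalIdeal R⁰ F) := h1I (FractionalIdeal.one_mem_one _)
    rw [FractionalIdeal.mem_zero_iff] at this
    exact one_ne_zero this
  let J := I⁻¹
  have hIJ : J + spanSingleton R⁰ q * J = 1 := by
    have : I * J = 1 := mul_inv_cancel₀ hI
    rw [← this]
    show J + spanSingleton R⁰ q * J = (1 + spanSingleton R⁰ q) * J
    ring
  have hJ1 : ∀ x ∈ J, IsIntegral ℤ x := by
    intro x hx
    rw [← hint, ← hIJ]
    exact (FractionalIdeal.mem_add _ _ x).2 ⟨x, hx, 0, FractionalIdeal.zero_mem _, add_zero x⟩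
  have hJ2 : ∀ x ∈ J, IsIntegral ℤ (q * x) := by
    intro x hx
    rw [← hint, ← hIJ]
    exact (FractionalIdeal.mem_add _ _ _).2 ⟨0, FractionalIdeal.zero_mem _, q * x,
      FractionalIdeal.mem_singleton_mul.2 ⟨x, hx, rfl⟩, zero_add _⟩
  have h1 : (1 : F) ∈ J + spanSingleton R⁰ q * J := by
    rw [hIJ]
    exact FractionalIdeal.one_mem_one _
  obtain ⟨g₀, hg₀, y, hy, hsum⟩ := (FractionalIdeal.mem_add _ _ _).1 h1
  obtain ⟨g₁, hg₁, rfl⟩ := FractionalIdeal.mem_singleton_mul.1 hy
  exact ⟨g₀, g₁, hsum, hJ1 _ hg₀, hJ2 _ hg₀, hJ1 _ hg₁, hJ2 _ hg₁⟩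

theorem two_gen_pow (F : Type) [Field F] [NumberField F] (q : F) (i : ℕ) :
    ∃ u v : F, u + q ^ i * v = 1 ∧ ∀ j ≤ i, IsIntegral ℤ (q ^ j * u) ∧ IsIntegral ℤ (q ^ j * v) := by
  obtain ⟨g₀, g₁, h, h1, h2, h3, h4⟩ := two_gen F q
  let O := integralClosure ℤ F
  let G₀ : O := ⟨g₀, h1⟩
  let G₁ : O := ⟨q * g₁, h4⟩
  have hcop : IsCoprime G₀ G₁ := ⟨1, 1, by
    apply Subtype.ext
    show 1 * g₀ + 1 * (q * g₁) = 1
    rw [one_mul, one_mul, h]⟩
  obtain ⟨x, y, hxy⟩ := hcop.pow (m := i) (n := i)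
  have hxy' : (x : F) * g₀ ^ i + y * (q * g₁) ^ i = 1 := by
    have := congrArg (fun z : O => (z : F)) hxy
    simpa using this
  refine ⟨x * g₀ ^ i, y * g₁ ^ i, ?_, ?_⟩
  · rw [← hxy', mul_pow]
    ring
  · intro j hj
    obtain ⟨l, rfl⟩ := Nat.exists_eq_add_of_le hj
    constructor
    · have : q ^ j * (x * g₀ ^ (j + l)) = x * ((q * g₀) ^ j * g₀ ^ l) := by
        rw [pow_add, mul_pow]
        ring
      rw [this]
      exact IsIntegral.mul x.2 ((h2.pow j).mul (h1.pow l))
    · have : q ^ j * (y * g₁ ^ (j + l)) = y * ((q * g₁) ^ j * g₁ ^ l) := by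
        rw [pow_add, mul_pow]
        ring
      rw [this]
      exact IsIntegral.mul y.2 ((h4.pow j).mul (h3.pow l))

variable {R : Type} [CommRing R] [IsDomain R] [CharZero R] [Module.Finite ℤ R]

theorem exists_int_mul (s : R) (hs : s ≠ 0) : ∃ (n : ℕ) (s' : R), n ≠ 0 ∧ s * s' = n := by
  obtain ⟨s', h⟩ := J.dvd_norm s
  have hn : Algebra.norm ℤ s ≠ 0 := by rwa [Ne, Algebra.norm_eq_zero_iff]
  rcases Int.natAbs_eq (Algebra.norm ℤ s) with h1 | h1
  · refine ⟨(Algebra.norm ℤ s).natAbs, s', by simpa using hn, ?_⟩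
    rw [← h]
    conv_lhs => rw [h1]
    simp
  · refine ⟨(Algebra.norm ℤ s).natAbs, -s', by simpa using hn, ?_⟩
    rw [mul_neg, ← h]
    conv_lhs => rw [h1]
    simp

theorem dedR_aux (R F : Type) [CommRing R] [IsDomain R] [CharZero R] [Module.Finite ℤ R]
    [Field F] [CharZero F] [Algebra R F] [IsFractionRing R F] :
    ∃ c : ℕ, 0 < c ∧ ∀ (a : R) (N : ℕ), 0 < N → ∀ i : ℕ, ∃ γ ν : ℕ → R,
      (∀ j < i, (N : R) * γ (j + 1) = a * γ j ∧ (N : R) * ν (j + 1) = a * ν j) ∧
        (c : R) = γ 0 + ν i - ν 0 := by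
  classical
  have hinj := IsFractionRing.injective R F
  have hfrac : ∀ x : F, ∃ (n : ℕ) (r : R), n ≠ 0 ∧ (n : F) * x = algebraMap R F r := by
    intro x
    obtain ⟨r, s, hs, rfl⟩ := IsFractionRing.div_surjective (A := R) x
    have hs0 : s ≠ 0 := nonZeroDivisors.ne_zero hs
    obtain ⟨n, s', hn, hns⟩ := exists_int_mul s hs0
    refine ⟨n, r * s', hn, ?_⟩
    have hs1 : algebraMap R F s ≠ 0 := by
      intro h
      exact hs0 (hinj (h.trans (map_zero _).symm))
    rw [map_mul]
    have h2 : (n : F) = algebraMap R F s * algebraMap R F s' := by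
      rw [← map_mul, hns]
      simp
    rw [h2, mul_div_assoc', div_eq_iff hs1]
    ring
  have hfin : FiniteDimensional ℚ F := by
    obtain ⟨S, hS⟩ := (Module.Finite.fg_top : (⊤ : Submodule ℤ R).FG)
    refine ⟨⟨S.image (algebraMap R F), ?_⟩⟩
    rw [eq_top_iff]
    rintro x -
    obtain ⟨n, r, hn, hx⟩ := hfrac x
    have h1 : ∀ r : R, algebraMap R F r ∈ Submodule.span ℚ
        ((S.image (algebraMap R F) : Finset F) : Set F) := by
      intro r
      have hr : r ∈ Submodule.span ℤ (S : Set R) := by rw [hS]; exact Submodule.mem_top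
      induction hr using Submodule.span_induction with
      | mem y hy =>
        apply Submodule.subset_span
        rw [Finset.coe_image]
        exact ⟨y, hy, rfl⟩
      | zero => rw [map_zero]; exact Submodule.zero_mem _
      | add y z _ _ hy hz => rw [map_add]; exact Submodule.add_mem _ hy hz
      | smul b y _ hy =>
        have : algebraMap R F (b • y) = (b : ℚ) • algebraMap R F y := by
          rw [map_zsmul, zsmul_eq_mul, Algebra.smul_def]
          simp
        rw [this]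
        exact Submodule.smul_mem _ _ hy
    have h2 : x = ((n : ℚ)⁻¹) • algebraMap R F r := by
      rw [← hx, Algebra.smul_def, map_inv₀, map_natCast, inv_mul_cancel_left₀]
      exact_mod_cast hn
    rw [h2]
    exact Submodule.smul_mem _ _ (h1 r)
  have hNF : NumberField F := ⟨⟩
  -- the conductor
  obtain ⟨c, hc, hcO⟩ : ∃ c : ℕ, 0 < c ∧ ∀ x : F, IsIntegral ℤ x → ∃ r : R,
      (c : F) * x = algebraMap R F r := by
    have hO : Module.Finite ℤ (NumberField.RingOfIntegers F) := inferInstance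
    obtain ⟨S, hS⟩ := hO.fg_top
    choose f g hf hg using hfrac
    refine ⟨∏ y ∈ S, f (y : F), ?_, ?_⟩
    · exact Finset.prod_pos fun y _ => Nat.pos_of_ne_zero (hf _)
    · intro x hx
      have h1 : ∀ y : NumberField.RingOfIntegers F, y ∈ Submodule.span ℤ (S : Set _) →
          ∃ r : R, ((∏ y ∈ S, f (y : F) : ℕ) : F) * (y : F) = algebraMap R F r := by
        intro y hy
        induction hy using Submodule.span_induction with
        | mem y hy =>
          obtain ⟨k, hk⟩ := Finset.dvd_prod_of_mem (fun y : NumberField.RingOfIntegers F => f (y : F))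
            (Finset.mem_coe.1 hy)
          refine ⟨k * g (y : F), ?_⟩
          rw [hk, Nat.cast_mul, map_mul, ← hg]
          simp
          ring
        | zero => exact ⟨0, by simp⟩
        | add y z _ _ hy hz =>
          obtain ⟨r, hr⟩ := hy
          obtain ⟨s, hs⟩ := hz
          refine ⟨r + s, ?_⟩
          rw [map_add, ← hr, ← hs]
          simp
          ring
        | smul b y _ hy =>
          obtain ⟨r, hr⟩ := hy
          refine ⟨b • r, ?_⟩
          rw [map_zsmul, ← hr]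
          simp
          ring
      exact h1 ⟨x, hx⟩ (by rw [hS]; exact Submodule.mem_top)
  refine ⟨c, hc, fun a N hN i => ?_⟩
  have hN0 : (N : F) ≠ 0 := by exact_mod_cast (by omega : N ≠ 0)
  obtain ⟨q, hq⟩ : ∃ q : F, q * N = algebraMap R F a := ⟨algebraMap R F a / N, by field_simp⟩
  obtain ⟨u, v, huv, hint⟩ := two_gen_pow F q i
  have h1 : ∀ j, ∃ r : R, j ≤ i → (c : F) * (q ^ j * (u + v)) = algebraMap R F r := by
    intro j
    by_cases hj : j ≤ i
    · obtain ⟨r, hr⟩ := hcO (q ^ j * (u + v)) (by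
        rw [mul_add]
        exact (hint j hj).1.add (hint j hj).2)
      exact ⟨r, fun _ => hr⟩
    · exact ⟨0, fun h => absurd h hj⟩
  have h2 : ∀ j, ∃ r : R, j ≤ i → (c : F) * (q ^ j * v) = algebraMap R F r := by
    intro j
    by_cases hj : j ≤ i
    · obtain ⟨r, hr⟩ := hcO (q ^ j * v) (hint j hj).2
      exact ⟨r, fun _ => hr⟩
    · exact ⟨0, fun h => absurd h hj⟩
  choose γ hγ using h1
  choose ν hν using h2
  refine ⟨γ, ν, fun j hj => ⟨?_, ?_⟩, ?_⟩
  · apply hinj
    rw [map_mul, map_mul, map_natCast, ← hγ (j + 1) (by omega), ← hγ j (by omega), pow_succ, ← hq]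
    ring
  · apply hinj
    rw [map_mul, map_mul, map_natCast, ← hν (j + 1) (by omega), ← hν j (by omega), pow_succ, ← hq]
    ring
  · apply hinj
    rw [map_sub, map_add, map_natCast, ← hγ 0 (by omega), ← hν 0 (by omega), ← hν i le_rfl]
    have : (c : F) = c * (u + q ^ i * v) := by rw [huv, mul_one]
    conv_lhs => rw [this]
    ring

/-- Controlled fractions: for `q = a / N` and `i` there are `γ`, `ν` with
`c = γ + (q ^ i - 1) ν` and `q ^ j γ, q ^ j ν ∈ R` for `j ≤ i`. -/
theorem dedR (R : Type) [CommRing R] [IsDomain R] [CharZero R] [Module.Finite ℤ R] :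
    ∃ c : ℕ, 0 < c ∧ ∀ (a : R) (N : ℕ), 0 < N → ∀ i : ℕ, ∃ γ ν : ℕ → R,
      (∀ j < i, (N : R) * γ (j + 1) = a * γ j ∧ (N : R) * ν (j + 1) = a * ν j) ∧
        (c : R) = γ 0 + ν i - ν 0 := by
  have hcz : CharZero (FractionRing R) :=
    charZero_of_injective_algebraMap (IsFractionRing.injective R (FractionRing R))
  exact dedR_aux R (FractionRing R)

end Pool.Agent.Helper657_nd.Ded
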