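import Mathlib

set_option autoImplicit false

/-!
# Functionals on torsion-free modules
-/

namespace Pool.Agent.Helper657_nd.Func

open nonZeroDivisors

/-- A nonzero element of a finitely generated torsion-free module over a domain is detected by a
functional. -/
theorem exists_functional {R M : Type} [CommRing R] [IsDomain R] [AddCommGroup M] [Module R M]
    [Module.Finite R M] (htf : ∀ (r : R) (y : M), r • y = 0 → r = 0 ∨ y = 0)
    (hint : ∀ s : R, s ≠ 0 → ∃ (n : ℕ) (s' : R), n ≠ 0 ∧ s * s' = n) (x : M) (hx : x ≠ 0) :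
    ∃ (θ : M →ₗ[R] R) (c : ℕ), 0 < c ∧ θ x = c := by
  classical
  let K := FractionRing R
  let V := LocalizedModule R⁰ M
  let mk : M →ₗ[R] V := LocalizedModule.mkLinearMap R⁰ M
  have hmk : mk x ≠ 0 := by
    intro h0
    obtain ⟨s, hs⟩ := (IsLocalizedModule.eq_zero_iff R⁰ mk).1 h0
    rcases htf (s : R) x hs with h | h
    · exact nonZeroDivisors.ne_zero s.2 h
    · exact hx h
  obtain ⟨f, hf⟩ := Module.Projective.exists_dual_ne_zero K hmk
  let f' : M →ₗ[R] K := (f.restrictScalars R).comp mk
  have hinj : Function.Injective (Algebra.linearMap R K) := IsFractionRing.injective R K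
  obtain ⟨S, hS⟩ := (Module.Finite.fg_top : (⊤ : Submodule R M).FG)
  obtain ⟨b, hb⟩ := IsLocalization.exist_integer_multiples_of_finset R⁰ (S.image f')
  have hb0 : (b : R) ≠ 0 := nonZeroDivisors.ne_zero b.2
  have hrange : ∀ y : M, ((b : R) • f') y ∈ LinearMap.range (Algebra.linearMap R K) := by
    intro y
    have hy : y ∈ Submodule.span R (S : Set M) := by rw [hS]; exact Submodule.mem_top
    induction hy using Submodule.span_induction with
    | mem z hz => exact hb (f' z) (Finset.mem_image_of_mem _ (Finset.mem_coe.1 hz))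
    | zero => rw [map_zero]; exact Submodule.zero_mem _
    | add z w _ _ h1 h2 => rw [map_add]; exact Submodule.add_mem _ h1 h2
    | smul r z _ h1 => rw [map_smul]; exact Submodule.smul_mem _ _ h1
  let θ₀ : M →ₗ[R] R := (LinearEquiv.ofInjective (Algebra.linearMap R K) hinj).symm.toLinearMap.comp
    (((b : R) • f').codRestrict _ hrange)
  have hθ₀ : ∀ y, algebraMap R K (θ₀ y) = (b : R) • f' y := by
    intro y
    have h1 := LinearEquiv.apply_symm_apply (LinearEquiv.ofInjective (Algebra.linearMap R K) hinj)
      ((((b : R) • f').codRestrict _ hrange) y)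
    exact congrArg Subtype.val h1
  have hne : θ₀ x ≠ 0 := by
    intro h0
    have h1 := hθ₀ x
    rw [h0, map_zero] at h1
    have h2 : (b : R) • f' x = algebraMap R K b * f' x := Algebra.smul_def _ _
    rw [h2] at h1
    rcases mul_eq_zero.1 h1.symm with h3 | h3
    · exact hb0 (hinj (h3.trans (map_zero _).symm))
    · exact hf h3
  obtain ⟨n, s', hn, hs'⟩ := hint _ hne
  refine ⟨s' • θ₀, n, Nat.pos_of_ne_zero hn, ?_⟩
  rw [LinearMap.smul_apply, smul_eq_mul, mul_comm, hs']

end Pool.Agent.Helper657_nd.Func
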