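import Pool.Agent.Helper657_nd.PCore
import Pool.Agent.Helper657_nd.Ded
import Pool.Agent.Helper657_nd.Func

set_option autoImplicit false

/-!
# Commensurated abelian subgroups: the semisimple case in minimal rank
-/

namespace Pool.Agent.Helper657_nd.Comm

open Crit Weyl

section quasi
variable {G M : Type} [Group G] [AddCommGroup M]

/-- `d` acts on the subgroup identified with `M` with multiplier `N` as `φ`. -/
def QA (ι : M → G) (d : G) (N : ℕ) (φ : Module.End ℤ M) : Prop :=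
  0 < N ∧ ∀ y, ι (φ y) = d * ι (N • y) * d⁻¹

/-- the centre of the centralizer of `t` -/
def ZC (t d : G) : Prop := ∀ y, y * t = t * y → d * y = y * d

theorem ZC.pow {t d : G} (h : ZC t d) (n : ℕ) : ZC t (d ^ n) := by
  intro y hy
  have : Commute d y := h y hy
  exact (this.pow_left n).eq

theorem ZC.self (t : G) : ZC t t := fun _ hy => hy.symm

theorem ZC.comm {t d d' : G} (h : ZC t d) (h' : ZC t d') : d * d' = d' * d :=
  h d' (h' t rfl)

theorem def_ZC (t : G) : Def1 (ZC t) := by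
  apply Df.uni (R := fun y s => y * t = t * y → s 0 * y = y * s 0)
  exact (Df.eq ((Tm.var 0).mul (Tm.const t)) ((Tm.const t).mul (Tm.var 0))).imp
    (Df.eq ((Tm.var 1).mul (Tm.var 0)) ((Tm.var 0).mul (Tm.var 1)))

/-- endomorphisms given by group words -/
def Rep (ι : M → G) (φ : Module.End ℤ M) : Prop :=
  ∃ f : G → G, (∀ g : (ℕ → G) → G, Tm g → Tm fun s => f (g s)) ∧ ∀ y, ι (φ y) = f (ι y)

theorem conj_eq {d a b : G} (h : a = d * b * d⁻¹) : d⁻¹ * a * d = b := by
  rw [h]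
  group

theorem Tm.pow' {f : (ℕ → G) → G} (hf : Tm f) (k : ℕ) : Tm fun s => f s ^ k := by
  induction k with
  | zero => simpa using (Tm.const (1 : G))
  | succ k ih => simpa [pow_succ] using ih.mul hf

variable {A : Subgroup G} {ι : M → G} (E : Emb A ι)
include E

theorem QA.pow {d : G} {N : ℕ} {φ : Module.End ℤ M} (h : QA ι d N φ) (i : ℕ) :
    QA ι (d ^ i) (N ^ i) (φ ^ i) := by
  refine ⟨pow_pos h.1 i, ?_⟩
  induction i with
  | zero => intro y; simp
  | succ i ih =>
    intro y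
    rw [pow_succ]
    show ι ((φ ^ i) (φ y)) = _
    have h1 : ι (N ^ i • φ y) = d * ι (N ^ i • N • y) * d⁻¹ := smul_rel E (h.2 y) (N ^ i)
    rw [ih, h1, ← mul_smul, ← pow_succ, pow_succ d i]
    group

theorem exists_ringQ [Module.Finite ℤ M] (t : G) :
    ∃ (R : Type) (_ : CommRing R) (_ : Module.Finite ℤ R) (_ : Module R M),
      (∀ d N φ, ZC t d → QA ι d N φ → ∃ r : R, ∀ y : M, r • y = φ y) ∧
      (∀ r r' : R, (∀ y : M, r • y = r' • y) → r = r') ∧
      (∀ r : R, ∃ φ : Module.End ℤ M, Rep ι φ ∧ ∀ y, r • y = φ y) ∧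
      (∀ (r : R) (d : G), ZC t d → ∀ x y : M, ι y = d * ι x * d⁻¹ →
        ι (r • y) = d * ι (r • x) * d⁻¹) := by
  let T : Set (Module.End ℤ M) := {φ | ∃ d N, ZC t d ∧ QA ι d N φ}
  let S := Subring.closure T
  let R := Subring.center S
  have hfinR : Module.Finite ℤ R := by
    let g : R →ₗ[ℤ] Module.End ℤ M :=
      { toFun := fun r => ((r : S) : Module.End ℤ M)
        map_add' := fun _ _ => rfl
        map_smul' := fun a r => by simp }
    refine Module.Finite.of_injective g ?_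
    intro a b hab
    exact Subtype.ext (Subtype.ext hab)
  have hS : ∀ σ ∈ S, Rep ι σ ∧ ∀ d, ZC t d → ∀ x y : M, ι y = d * ι x * d⁻¹ →
      ι (σ y) = d * ι (σ x) * d⁻¹ := by
    intro σ hσ
    induction hσ using Subring.closure_induction with
    | mem φ hφ =>
      obtain ⟨d', N, hd', hφ⟩ := hφ
      refine ⟨⟨fun g => d' * g ^ N * d'⁻¹, fun g hg =>
        ((Tm.const d').mul (Tm.pow' hg N)).mul (Tm.const d').inv, fun y => ?_⟩, ?_⟩
      · rw [hφ.2, E.nsmul]
      · intro d hd x y hxy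
        rw [hφ.2, hφ.2, E.nsmul, E.nsmul, hxy, conj_pow]
        have h1 : d' * (d * ι x ^ N * d⁻¹) * d'⁻¹ = (d' * d) * ι x ^ N * (d' * d)⁻¹ := by group
        have h2 : d * (d' * ι x ^ N * d'⁻¹) * d⁻¹ = (d * d') * ι x ^ N * (d * d')⁻¹ := by group
        rw [h1, h2, hd'.comm hd]
    | zero =>
      refine ⟨⟨fun _ => 1, fun g _ => Tm.const 1, fun y => ?_⟩, fun d _ x y _ => ?_⟩
      · rw [LinearMap.zero_apply, E.zero]
      · rw [LinearMap.zero_apply, LinearMap.zero_apply, E.zero]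
        group
    | one => exact ⟨⟨fun g => g, fun g hg => hg, fun y => rfl⟩, fun d _ x y h => h⟩
    | add σ τ _ _ h1 h2 =>
      obtain ⟨⟨f, hf1, hf2⟩, h1⟩ := h1
      obtain ⟨⟨g, hg1, hg2⟩, h2⟩ := h2
      refine ⟨⟨fun z => f z * g z, fun z hz => (hf1 z hz).mul (hg1 z hz), fun y => ?_⟩,
        fun d hd x y hxy => ?_⟩
      · rw [LinearMap.add_apply, E.add, hf2, hg2]
      · rw [LinearMap.add_apply, LinearMap.add_apply, E.add, E.add, h1 d hd x y hxy,
          h2 d hd x y hxy]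
        group
    | neg σ _ h1 =>
      obtain ⟨⟨f, hf1, hf2⟩, h1⟩ := h1
      refine ⟨⟨fun z => (f z)⁻¹, fun z hz => (hf1 z hz).inv, fun y => ?_⟩,
        fun d hd x y hxy => ?_⟩
      · rw [LinearMap.neg_apply, E.neg, hf2]
      · rw [LinearMap.neg_apply, LinearMap.neg_apply, E.neg, E.neg, h1 d hd x y hxy]
        group
    | mul σ τ _ _ h1 h2 =>
      obtain ⟨⟨f, hf1, hf2⟩, h1⟩ := h1
      obtain ⟨⟨g, hg1, hg2⟩, h2⟩ := h2
      refine ⟨⟨fun z => f (g z), fun z hz => hf1 _ (hg1 z hz), fun y => ?_⟩,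
        fun d hd x y hxy => ?_⟩
      · show ι (σ (τ y)) = _
        rw [hf2, hg2]
      · exact h1 d hd _ _ (h2 d hd x y hxy)
  refine ⟨R, inferInstance, hfinR, inferInstance, ?_, ?_, ?_, ?_⟩
  · intro d N φ hd hφ
    have hφT : φ ∈ T := ⟨d, N, hd, hφ⟩
    have hφS : φ ∈ S := Subring.subset_closure hφT
    have hcomm : ∀ τ ∈ T, τ * φ = φ * τ := by
      rintro τ ⟨d', N', hd', hτ⟩
      ext1 y
      apply E.inj
      show ι (τ (φ y)) = ι (φ (τ y))
      rw [hτ.2, hφ.2, E.nsmul, E.nsmul, hφ.2, hτ.2, E.nsmul, E.nsmul, conj_pow, conj_pow,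
        ← pow_mul, ← pow_mul]
      have h3 : d' * (d * ι y ^ (N * N') * d⁻¹) * d'⁻¹ =
          (d' * d) * ι y ^ (N * N') * (d' * d)⁻¹ := by group
      have h4 : d * (d' * ι y ^ (N' * N) * d'⁻¹) * d⁻¹ =
          (d * d') * ι y ^ (N' * N) * (d * d')⁻¹ := by group
      rw [h3, h4, hd'.comm hd, mul_comm N N']
    have hcen : (⟨φ, hφS⟩ : S) ∈ Subring.center S := by
      rw [Subring.mem_center_iff]
      rintro ⟨σ, hσ⟩
      apply Subtype.ext
      show σ * φ = φ * σ
      have hle : S ≤ Subring.centralizer {φ} := by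
        rw [Subring.closure_le]
        intro τ hτ
        rw [SetLike.mem_coe, Subring.mem_centralizer_iff]
        intro g hg
        rw [Set.mem_singleton_iff] at hg
        rw [hg]
        exact (hcomm τ hτ).symm
      exact (Subring.mem_centralizer_iff.1 (hle hσ) φ rfl).symm
    exact ⟨⟨⟨φ, hφS⟩, hcen⟩, fun y => rfl⟩
  · intro r r' h
    exact Subtype.ext (Subtype.ext (LinearMap.ext h))
  · intro r
    exact ⟨((r : S) : Module.End ℤ M), (hS _ (r : S).2).1, fun y => rfl⟩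
  · intro r d hd x y hxy
    exact (hS _ (r : S).2).2 d hd x y hxy

end quasi

theorem exists_pow2 {R : Type} [CommRing R] [Module.Finite ℤ R] (α α' : R) (N n₀ p : ℕ)
    (h : α * α' = n₀) (hp : Nat.Coprime p (n₀ * N)) (hp0 : p ≠ 0) (l : ℕ) :
    ∃ k : ℕ, 0 < k ∧ ∃ r : R, α ^ k = (N : R) ^ k + (p ^ l : ℕ) * r := by
  let I : Ideal R := Ideal.span {((p ^ l : ℕ) : R)}
  have hn : p ^ l ≠ 0 := pow_ne_zero _ hp0
  have hfin : Finite (R ⧸ I) := by
    apply Module.finite_of_fg_torsion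
    intro x
    obtain ⟨y, rfl⟩ := Ideal.Quotient.mk_surjective x
    refine ⟨⟨((p ^ l : ℕ) : ℤ), mem_nonZeroDivisors_of_ne_zero (by exact_mod_cast hn)⟩, ?_⟩
    show ((p ^ l : ℕ) : ℤ) • (Ideal.Quotient.mk I y) = 0
    rw [← map_zsmul, Ideal.Quotient.eq_zero_iff_mem]
    refine Ideal.mem_span_singleton.2 ⟨y, ?_⟩
    simp
  have hunit : ∀ m : ℕ, Nat.Coprime p m → IsUnit (Ideal.Quotient.mk I (m : R)) := by
    intro m hm
    have h1 : Nat.Coprime (p ^ l) m := hm.pow_left l
    have h2 : IsCoprime ((p ^ l : ℕ) : ℤ) (m : ℤ) := Nat.isCoprime_iff_coprime.2 h1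
    obtain ⟨a, b, hab⟩ := h2
    refine IsUnit.of_mul_eq_one (Ideal.Quotient.mk I (b : R)) ?_
    rw [← map_mul, ← map_one (Ideal.Quotient.mk I), Ideal.Quotient.eq, Ideal.mem_span_singleton]
    refine ⟨-(a : R), ?_⟩
    have h3 := congrArg (Int.cast (R := R)) hab
    push_cast at h3
    push_cast
    linear_combination h3
  have hN : IsUnit (Ideal.Quotient.mk I (N : R)) := hunit N (Nat.Coprime.coprime_mul_left_right hp)
  have hα : IsUnit (Ideal.Quotient.mk I α) := by
    have h1 := hunit n₀ (Nat.Coprime.coprime_mul_right_right hp)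
    rw [← h, map_mul] at h1
    exact isUnit_of_mul_isUnit_left h1
  obtain ⟨u, hu⟩ := hN
  obtain ⟨v, hv⟩ := hα
  have hfo := isOfFinOrder_of_finite (v * u⁻¹)
  rw [isOfFinOrder_iff_pow_eq_one] at hfo
  obtain ⟨k, hk, hvk⟩ := hfo
  refine ⟨k, hk, ?_⟩
  have h0 : v ^ k = u ^ k := by
    rw [mul_pow, inv_pow, mul_inv_eq_one] at hvk
    exact hvk
  have h1 : Ideal.Quotient.mk I (α ^ k) = Ideal.Quotient.mk I ((N : R) ^ k) := by
    rw [map_pow, map_pow, ← hv, ← hu, ← Units.val_pow_eq_pow_val, ← Units.val_pow_eq_pow_val, h0]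
  rw [Ideal.Quotient.eq, Ideal.mem_span_singleton] at h1
  obtain ⟨r, hr⟩ := h1
  exact ⟨r, by linear_combination hr⟩

theorem sep_of_free {M : Type} [AddCommGroup M] [Module.Finite ℤ M] [Module.IsTorsionFree ℤ M]
    (p : ℕ) (hp : 1 < p) (m : M) (h : ∀ l : ℕ, ∃ m' : M, m = (p ^ l) • m') : m = 0 := by
  let b := Module.Free.chooseBasis ℤ M
  rw [← b.repr.map_eq_zero_iff]
  ext i
  obtain ⟨q', hq'⟩ := h (b.repr m i).natAbs
  have h1 : b.repr m i = ((p ^ (b.repr m i).natAbs : ℕ) : ℤ) * b.repr q' i := by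
    conv_lhs => rw [hq', map_nsmul]
    simp
  have h2 : ((p ^ (b.repr m i).natAbs : ℕ) : ℤ) ∣ b.repr m i := ⟨_, h1⟩
  have h3 : b.repr m i = 0 := by
    apply Int.eq_zero_of_abs_lt_dvd h2
    rw [Int.abs_eq_natAbs]
    exact_mod_cast Nat.lt_pow_self hp
  simpa using h3

section main
variable {G M : Type} [Group G] [AddCommGroup M]

/-- elements of the form `(d - 1) b` -/
def DD (ι : M → G) (d : G) (m : M) : Prop := ∃ b b' : M, ι b' = d * ι b * d⁻¹ ∧ m = b' - b

variable {A : Subgroup G} {ι : M → G} (E : Emb A ι)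
include E

theorem rel_add {d : G} {x x' y y' : M} (h : ι x' = d * ι x * d⁻¹) (h' : ι y' = d * ι y * d⁻¹) :
    ι (x' + y') = d * ι (x + y) * d⁻¹ := by
  rw [E.add, E.add, h, h']
  group

theorem rel_neg {d : G} {x x' : M} (h : ι x' = d * ι x * d⁻¹) : ι (-x') = d * ι (-x) * d⁻¹ := by
  rw [E.neg, E.neg, h]
  group

theorem rel_zero (d : G) : ι (0 : M) = d * ι 0 * d⁻¹ := by
  rw [E.zero]
  group

theorem rel_sum {d : G} {x x' : ℕ → M} (k : ℕ) (h : ∀ j < k, ι (x' j) = d * ι (x j) * d⁻¹) :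
    ι (∑ j ∈ Finset.range k, x' j) = d * ι (∑ j ∈ Finset.range k, x j) * d⁻¹ := by
  induction k with
  | zero => simpa using rel_zero E d
  | succ k ih =>
    rw [Finset.sum_range_succ, Finset.sum_range_succ]
    exact rel_add E (ih fun j hj => h j (by omega)) (h k (by omega))

theorem DD.add {d : G} {m m' : M} (h : DD ι d m) (h' : DD ι d m') : DD ι d (m + m') := by
  obtain ⟨b, b', hb, rfl⟩ := h
  obtain ⟨a, a', ha, rfl⟩ := h'
  exact ⟨b + a, b' + a', rel_add E hb ha, by abel⟩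

theorem DD.neg {d : G} {m : M} (h : DD ι d m) : DD ι d (-m) := by
  obtain ⟨b, b', hb, rfl⟩ := h
  exact ⟨-b, -b', rel_neg E hb, by abel⟩

theorem DD.nsmul {d : G} {m : M} (h : DD ι d m) (k : ℕ) : DD ι d (k • m) := by
  obtain ⟨b, b', hb, rfl⟩ := h
  exact ⟨k • b, k • b', smul_rel E hb k, smul_sub _ _ _⟩

theorem DD.sum {d : G} {m : ℕ → M} (k : ℕ) (h : ∀ j < k, DD ι d (m j)) :
    DD ι d (∑ j ∈ Finset.range k, m j) := by
  induction k with
  | zero => exact ⟨0, 0, rel_zero E d, by simp⟩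
  | succ k ih =>
    rw [Finset.sum_range_succ]
    exact (ih fun j hj => h j (by omega)).add E (h k (by omega))

/-- The semisimple case in minimal rank. -/
theorem commS [Module.Finite ℤ M] [Module.IsTorsionFree ℤ M] (hA : DefinableSet (A : Set G))
    (t : G) (N : ℕ) (φ : Module.End ℤ M) (hQ : QA ι t N φ)
    (hinj : ∀ k : ℕ, 0 < k → ∀ y, (φ ^ k) y = (N ^ k) • y → y = 0) (hne : ∃ y : M, y ≠ 0)
    (hmin : ∀ K : Submodule ℤ M, K ≠ ⊥ → Def1 (fun g => ∃ y ∈ K, ι y = g) →
      (∀ y ∈ K, φ y ∈ K) → ∀ y : M, ∃ n : ℕ, n ≠ 0 ∧ n • y ∈ K) :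
    Undec G := by
  classical
  obtain ⟨R, i1, i2, i3, hR1, hR2, hR3, hR4⟩ := exists_ringQ E t
  obtain ⟨α, hα⟩ := hR1 t N φ (ZC.self t) hQ
  obtain ⟨y₀, hy₀⟩ := hne
  have htfN : ∀ (n : ℕ) (y : M), n ≠ 0 → n • y = 0 → y = 0 := by
    intro n y hn h
    rw [← natCast_zsmul] at h
    exact (smul_eq_zero.1 h).resolve_left (by exact_mod_cast hn)
  have htfN' : ∀ (n : ℕ) (y z : M), n ≠ 0 → n • y = n • z → y = z := by
    intro n y z hn h
    have h1 : n • (y - z) = 0 := by rw [smul_sub, h, sub_self]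
    exact sub_eq_zero.1 (htfN n _ hn h1)
  have hcast : ∀ (n : ℕ) (y : M), (n : R) • y = n • y := fun n y => Nat.cast_smul_eq_nsmul R n y
  have htf : ∀ (r : R) (y : M), r • y = 0 → r = 0 ∨ y = 0 := by
    intro r y h
    by_contra hcon
    push Not at hcon
    obtain ⟨hr, hy⟩ := hcon
    apply hr
    obtain ⟨σ, ⟨f, hf1, hf2⟩, hσ⟩ := hR3 r
    let K : Submodule ℤ M :=
      { carrier := {z | r • z = 0}
        add_mem' := fun {a b} ha hb => by
          show r • (a + b) = 0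
          rw [smul_add, show r • a = 0 from ha, show r • b = 0 from hb, add_zero]
        zero_mem' := smul_zero r
        smul_mem' := fun c z hz => by
          show r • c • z = 0
          rw [smul_comm, show r • z = 0 from hz, smul_zero] }
    have hK : ∀ z, z ∈ K ↔ r • z = 0 := fun z => Iff.rfl
    have hall := hmin K (by
      intro h0
      apply hy
      rw [← Submodule.mem_bot ℤ, ← h0]
      exact h) (by
      have h1 : Df fun s : ℕ → G => s 0 ∈ (A : Set G) ∧ f (s 0) = 1 :=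
        (DefinableSet.df hA (Tm.var 0)).and (Df.eq (hf1 _ (Tm.var 0)) (Tm.const 1))
      refine h1.congr fun s => ?_
      constructor
      · rintro ⟨z, hz, hzs⟩
        rw [← hzs]
        refine ⟨E.memι z, ?_⟩
        rw [← hf2, ← hσ, (hK z).1 hz, E.zero]
      · rintro ⟨h1, h2⟩
        obtain ⟨z, hz⟩ := (E.mem _).1 h1
        refine ⟨z, ?_, hz⟩
        rw [hK, hσ]
        apply E.inj
        rw [hf2, hz, h2, E.zero]) (by
      intro z hz
      rw [hK] at hz ⊢
      rw [← hα, smul_comm, hz, smul_zero])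
    apply hR2
    intro z
    obtain ⟨n, hn, hz⟩ := hall z
    rw [hK, smul_comm] at hz
    rw [zero_smul]
    exact htfN n _ hn hz
  have hnt : Nontrivial R := by
    refine ⟨⟨1, 0, fun h => hy₀ ?_⟩⟩
    rw [← one_smul R y₀, h, zero_smul]
  have hnzd : NoZeroDivisors R := ⟨fun {a b} hab => by
    by_cases hb : b = 0
    · exact Or.inr hb
    left
    have : ∃ y : M, b • y ≠ 0 := by
      by_contra hcon
      push Not at hcon
      exact hb (hR2 _ _ fun y => by rw [hcon, zero_smul])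
    obtain ⟨y, hy⟩ := this
    have h1 : a • b • y = 0 := by rw [← mul_smul, hab, zero_smul]
    exact (htf _ _ h1).resolve_right hy⟩
  have hdom : IsDomain R := NoZeroDivisors.to_isDomain R
  have hcz : CharZero R := by
    refine charZero_of_inj_zero fun n hn => ?_
    by_contra hne
    have h1 : (n : R) • y₀ = 0 := by rw [hn, zero_smul]
    rw [hcast] at h1
    exact hy₀ (htfN n y₀ hne h1)
  obtain ⟨c₀, hc₀, hded⟩ := Ded.dedR R
  have hN0 : N ≠ 0 := by have := hQ.1; omega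
  -- structure of partial operators
  have hpart : ∀ d, ZC t d → (∃ x y : M, x ≠ 0 ∧ ι y = d * ι x * d⁻¹) →
      ∃ (N' : ℕ) (a : R), 0 < N' ∧ ∀ x y : M, ι y = d * ι x * d⁻¹ → N' • y = a • x := by
    rintro d hd ⟨x₀, z₀, hx₀, hxz₀⟩
    let K : Submodule ℤ M :=
      { carrier := {z | ∃ z' : M, ι z' = d * ι z * d⁻¹}
        add_mem' := by
          rintro a b ⟨a', ha⟩ ⟨b', hb⟩
          exact ⟨a' + b', rel_add E ha hb⟩
        zero_mem' := ⟨0, rel_zero E d⟩
        smul_mem' := by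
          rintro c z ⟨z', hz⟩
          rcases Int.natAbs_eq c with h1 | h1
          · refine ⟨c.natAbs • z', ?_⟩
            rw [h1, Int.natAbs_natCast, natCast_zsmul]
            exact smul_rel E hz _
          · refine ⟨-(c.natAbs • z'), ?_⟩
            rw [h1, Int.natAbs_neg, Int.natAbs_natCast, neg_smul, natCast_zsmul]
            exact rel_neg E (smul_rel E hz _) }
    have hK : ∀ z, z ∈ K ↔ ∃ z' : M, ι z' = d * ι z * d⁻¹ := fun z => Iff.rfl
    have hall := hmin K (by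
      intro h0
      apply hx₀
      rw [← Submodule.mem_bot ℤ, ← h0]
      exact ⟨z₀, hxz₀⟩) (by
      have h1 : Df fun s : ℕ → G => EP A d (s 0) := df_EP hA (Tm.const d) (Tm.var 0)
      refine h1.congr fun s => ?_
      rw [EP_iff E]
      constructor
      · rintro ⟨z, ⟨z', hz⟩, hzs⟩
        exact ⟨z, z', hzs, hz⟩
      · rintro ⟨z, z', hzs, hz⟩
        exact ⟨z, ⟨z', hz⟩, hzs⟩) (by
      rintro z ⟨z', hz⟩
      refine ⟨α • z', ?_⟩
      rw [← hα]
      exact hR4 α d hd _ _ hz)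
    obtain ⟨N', hN', hN''⟩ := uniform (⊤ : Submodule ℤ M) K fun y _ => hall y
    have h1 : ∀ y : M, ∃ y' : M, ι y' = d * ι (N' • y) * d⁻¹ := fun y =>
      hN'' y Submodule.mem_top
    choose g hg using h1
    let g' : M →+ M :=
      { toFun := g
        map_zero' := by
          apply E.inj
          rw [hg, smul_zero, E.zero]
          group
        map_add' := fun x y => by
          apply E.inj
          rw [hg, smul_add]
          exact (rel_add E (hg x) (hg y)).symm }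
    obtain ⟨a, ha⟩ := hR1 d N' g'.toIntLinearMap hd ⟨hN', hg⟩
    refine ⟨N', a, hN', fun x y hxy => ?_⟩
    apply E.inj
    rw [ha]
    show _ = ι (g x)
    rw [hg, smul_rel E hxy N']
  -- the powers of `t`
  have htpow : ∀ (i : ℕ) (x y : M), ι y = t ^ i * ι x * (t ^ i)⁻¹ →
      (N ^ i) • y = α ^ i • x := by
    intro i x y hxy
    have h1 := QA.pow E hQ i
    have h2 : ∀ (i : ℕ) (z : M), α ^ i • z = (φ ^ i) z := by
      intro i
      induction i with
      | zero => intro z; simp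
      | succ i ih =>
        intro z
        rw [pow_succ, pow_succ, mul_smul, ih, hα]
        rfl
    apply E.inj
    rw [h2, h1.2]
    exact smul_rel E hxy (N ^ i)
  have hαne : ∀ k : ℕ, 0 < k → α ^ k ≠ (N : R) ^ k := by
    intro k hk h0
    apply hy₀
    apply hinj k hk
    have h2 : ∀ (i : ℕ) (z : M), α ^ i • z = (φ ^ i) z := by
      intro i
      induction i with
      | zero => intro z; simp
      | succ i ih =>
        intro z
        rw [pow_succ, pow_succ, mul_smul, ih, hα]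
        rfl
    rw [← h2, h0, ← Nat.cast_pow, hcast]
  have hα0 : α ≠ 0 := by
    intro h0
    apply hy₀
    have h1 : φ y₀ = 0 := by rw [← hα, h0, zero_smul]
    have h2 := hQ.2 y₀
    rw [h1, E.zero] at h2
    have h3 : ι (N • y₀) = ι 0 := by
      rw [E.zero, ← conj_eq h2]
      group
    exact htfN N y₀ hN0 (E.inj h3)
  obtain ⟨n₀, α', hn₀, hαα'⟩ : ∃ (n : ℕ) (s' : R), n ≠ 0 ∧ α * s' = n := Ded.exists_int_mul α hα0
  obtain ⟨p, hpbig, hp⟩ := Nat.exists_infinite_primes (n₀ * N + 1)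
  have hpcop : Nat.Coprime p (n₀ * N) := by
    rw [Nat.Prime.coprime_iff_not_dvd hp]
    intro hdvd
    have := Nat.le_of_dvd (Nat.pos_of_ne_zero (mul_ne_zero hn₀ hN0)) hdvd
    omega
  -- choice of the unit
  let b₀ : M := (c₀ * N) • y₀
  have hb₀ : b₀ ≠ 0 := fun h => hy₀ (htfN _ _ (mul_ne_zero (by omega) hN0) h)
  let x₁ : M := c₀ • b₀
  have hx₁ : x₁ ≠ 0 := fun h => hb₀ (htfN _ _ (by omega) h)
  have hfinRM : Module.Finite R M := Module.Finite.of_restrictScalars_finite ℤ R M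
  obtain ⟨θ, c, hc, hθ⟩ := Func.exists_functional htf
    (fun s hs => Ded.exists_int_mul s hs) x₁ hx₁
  -- the good elements
  let Gd : G → Prop := fun d => ZC t d ∧ ∃ e e', EP A d e ∧ EP A d e' ∧ ι b₀ = e * cm d e'
  have hGd : Def1 Gd := by
    refine ((def_ZC t).sub (Tm.var 0)).and ?_
    apply Df.exi (R := fun e s => ∃ e', EP A (s 0) e ∧ EP A (s 0) e' ∧ ι b₀ = e * cm (s 0) e')
    apply Df.exi (R := fun e' s => EP A (s 1) (s 0) ∧ EP A (s 1) e' ∧
      ι b₀ = (s 0) * cm (s 1) e')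
    exact (df_EP hA (Tm.var 2) (Tm.var 1)).and ((df_EP hA (Tm.var 2) (Tm.var 0)).and
      (Df.eq (Tm.const _) ((Tm.var 1).mul (Tm.cm (Tm.var 2) (Tm.var 0)))))
  have hGd_iff : ∀ d, Gd d ↔ ZC t d ∧ ∃ e f e' f' : M, ι f = d * ι e * d⁻¹ ∧
      ι f' = d * ι e' * d⁻¹ ∧ b₀ = e + (f' - e') := by
    intro d
    refine and_congr Iff.rfl ?_
    constructor
    · rintro ⟨e, e', he, he', h⟩
      obtain ⟨e₁, f₁, rfl, hf₁⟩ := (EP_iff E).1 he
      obtain ⟨e₂, f₂, rfl, hf₂⟩ := (EP_iff E).1 he'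
      refine ⟨e₁, f₁, e₂, f₂, hf₁, hf₂, E.inj ?_⟩
      rw [h, E.add, cm_sub E hf₂]
    · rintro ⟨e₁, f₁, e₂, f₂, hf₁, hf₂, h⟩
      refine ⟨ι e₁, ι e₂, (EP_iff E).2 ⟨e₁, f₁, rfl, hf₁⟩, (EP_iff E).2 ⟨e₂, f₂, rfl, hf₂⟩, ?_⟩
      rw [h, E.add, cm_sub E hf₂]
  -- the powers of `t` are good
  have hGt : ∀ i, Gd (t ^ i) := by
    intro i
    rw [hGd_iff]
    refine ⟨(ZC.self t).pow i, ?_⟩
    obtain ⟨γ, ν, hstep, hsum⟩ := hded α N hQ.1 i
    have hchain : ∀ (g : ℕ → R), (∀ j < i, (N : R) * g (j + 1) = α * g j) →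
        ∀ j ≤ i, ι (N • g j • y₀) = t ^ j * ι (N • g 0 • y₀) * (t ^ j)⁻¹ := by
      intro g hg j
      induction j with
      | zero => intro _; simp
      | succ j ih =>
        intro hj
        have h1 := ih (by omega)
        have h2 : ι (N • g (j + 1) • y₀) = t * ι (N • g j • y₀) * t⁻¹ := by
          rw [← hQ.2, ← hα, ← mul_smul, ← hg j (by omega), mul_smul, hcast]
        rw [h2, h1, pow_succ']
        group
    refine ⟨N • γ 0 • y₀, N • γ i • y₀, N • ν 0 • y₀, N • ν i • y₀,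
      hchain γ (fun j hj => (hstep j hj).1) i le_rfl,
      hchain ν (fun j hj => (hstep j hj).2) i le_rfl, ?_⟩
    show (c₀ * N) • y₀ = _
    rw [mul_comm, mul_smul, ← smul_sub, ← smul_add, ← sub_smul, ← add_smul, ← add_sub_assoc,
      ← hsum, hcast]
  have hData := pdata E Gd (ZC t) x₁ htf (AddMonoidHom.id M) Function.injective_id θ c hc hθ p
    (fun m h => sep_of_free p hp.one_lt m h) ?_ ?_
  · refine Crit.main hData (def_DomP hA hGd (def_ZC t) _) ?_ ?_ (def_MulP hA hGd (def_ZC t) _)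
    · exact Df.eq (Tm.var 0) (Tm.var 1)
    · exact Df.eq ((Tm.var 0).mul (Tm.var 1)) (Tm.var 2)
  · intro l
    obtain ⟨k, hk, r, hr⟩ := exists_pow2 α α' N n₀ p hαα' hpcop hp.ne_zero l
    refine ⟨t ^ k, hGt k, ?_, ?_⟩
    · intro x y hxy
      have h1 := htpow k x y hxy
      have h2 : (N ^ k) • (y - x) = (p ^ l) • (r • x) := by
        rw [smul_sub, h1, hr, add_smul, ← Nat.cast_pow, hcast, mul_smul, hcast]
        abel
      have hcop : IsCoprime ((N ^ k : ℕ) : ℤ) ((p ^ l : ℕ) : ℤ) := by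
        apply Nat.isCoprime_iff_coprime.2
        exact (Nat.Coprime.coprime_mul_left_right hpcop).symm.pow _ _
      obtain ⟨u, v, huv⟩ := hcop
      refine ⟨u • (r • x) + v • (y - x), ?_⟩
      rw [smul_add]
      have h3 : (p ^ l) • u • (r • x) = u • (((N ^ k : ℕ) : ℤ) • (y - x)) := by
        rw [smul_comm, ← h2, natCast_zsmul]
      rw [h3, ← mul_smul, smul_comm, ← natCast_zsmul (y - x), ← mul_smul, ← add_smul, huv, one_smul]
    · intro ε x' x'' y' y'' hε hx hy hx0 he z' z'' w' w'' hz hw he'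
      obtain ⟨N', a, hN', ha⟩ := hpart ε hε ⟨x', x'', hx0, hx⟩
      refine ⟨(N : R) ^ k * (a - N'), (N' : R) * (α ^ k - (N : R) ^ k), ?_, ?_, ?_⟩
      · refine mul_ne_zero (by exact_mod_cast (by omega : N' ≠ 0)) ?_
        rw [sub_ne_zero]
        exact hαne k hk
      · have h1 := htpow k y' y'' hy
        have h2 := ha x' x'' hx
        rw [AddMonoidHom.id_apply, AddMonoidHom.id_apply, mul_smul, mul_smul, sub_smul, ← h1,
          sub_smul, ← h2, ← Nat.cast_pow, hcast, hcast, ← smul_sub, ← he, hcast, hcast, ← smul_sub,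
          smul_comm]
      · have h1 := htpow k w' w'' hw
        have h2 := ha z' z'' hz
        rw [AddMonoidHom.id_apply, AddMonoidHom.id_apply, mul_smul, mul_smul, sub_smul, ← h1,
          sub_smul, ← h2, ← Nat.cast_pow, hcast, hcast, ← smul_sub, ← he', hcast, hcast, ← smul_sub,
          smul_comm]
  · intro d hd k
    obtain ⟨hZ, e, f, e', f', hf, hf', hb⟩ := (hGd_iff d).1 hd
    have hnz : ∃ x y : M, x ≠ 0 ∧ ι y = d * ι x * d⁻¹ := by
      by_cases he : e = 0
      · by_cases he' : e' = 0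
        · exfalso
          apply hb₀
          have h1 : f' = 0 := by
            apply E.inj
            rw [hf', he', E.zero]
            group
          rw [hb, he, he', h1]
          simp
        · exact ⟨e', f', he', hf'⟩
      · exact ⟨e, f, he, hf⟩
    obtain ⟨N', a, hN', ha⟩ := hpart d hZ hnz
    obtain ⟨γ, ν, hstep, hsum⟩ := hded a N' hN' k
    have hrel : ∀ (g : ℕ → R), (∀ j < k, (N' : R) * g (j + 1) = a * g j) →
        ∀ j < k, ι (g (j + 1) • e) = d * ι (g j • e) * d⁻¹ := by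
      intro g hg j hj
      have h1 : ι (g j • f) = d * ι (g j • e) * d⁻¹ := hR4 (g j) d hZ _ _ hf
      rw [← h1]
      congr 1
      apply htfN' N' _ _ (by omega)
      rw [smul_comm N' (g j) f, ha e f hf, ← mul_smul, mul_comm (g j) a, ← hg j hj, mul_smul, hcast]
    have hγ := hrel γ fun j hj => (hstep j hj).1
    have hν := hrel ν fun j hj => (hstep j hj).2
    have hpowd : ∀ j ≤ k, ι (γ j • e) = d ^ j * ι (γ 0 • e) * (d ^ j)⁻¹ := by
      intro j
      induction j with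
      | zero => intro _; simp
      | succ j ih =>
        intro hj
        rw [hγ j (by omega), ih (by omega), pow_succ']
        group
    have htel : ∀ (g : ℕ → R) (j : ℕ), g j • e - g 0 • e =
        ∑ l ∈ Finset.range j, (g (l + 1) • e - g l • e) := by
      intro g j
      rw [Finset.sum_range_sub (fun l => g l • e)]
    have hDγ : ∀ j ≤ k, DD ι d (γ j • e - γ 0 • e) := by
      intro j hj
      rw [htel]
      exact DD.sum E j fun l hl => ⟨γ l • e, γ (l + 1) • e, hγ l (by omega), rfl⟩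
    have hDν : DD ι d (ν k • e - ν 0 • e) := by
      rw [htel]
      exact DD.sum E k fun l hl => ⟨ν l • e, ν (l + 1) • e, hν l (by omega), rfl⟩
    have hx₁eq : x₁ = γ 0 • e + (ν k • e - ν 0 • e) + c₀ • (f' - e') := by
      show c₀ • b₀ = _
      rw [hb, smul_add]
      congr 1
      rw [← hcast, hsum, sub_smul, add_smul]
      abel
    have hD1 : DD ι d (γ 0 • e - x₁) := by
      have h1 : γ 0 • e - x₁ = -((ν k • e - ν 0 • e) + c₀ • (f' - e')) := by
        rw [hx₁eq]
        abel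
      rw [h1]
      exact (hDν.add E (DD.nsmul E ⟨e', f', hf', rfl⟩ c₀)).neg E
    have hD2 : DD ι d ((∑ j ∈ Finset.range k, γ j • e) - k • x₁) := by
      have h1 : (∑ j ∈ Finset.range k, γ j • e) - k • x₁ =
          (∑ j ∈ Finset.range k, (γ j • e - γ 0 • e)) + k • (γ 0 • e - x₁) := by
        rw [Finset.sum_sub_distrib, smul_sub]
        simp
      rw [h1]
      exact (DD.sum E k fun j hj => hDγ j (by omega)).add E (hD1.nsmul E k)
    obtain ⟨b, b', hbb', h5⟩ := hD1
    obtain ⟨b₂, b₂', hbb₂', h6⟩ := hD2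
    refine ⟨d ^ k, hZ.pow k, γ 0 • e, γ k • e, ∑ j ∈ Finset.range k, γ j • e,
      ∑ j ∈ Finset.range k, γ (j + 1) • e, b, b', b₂, b₂', hpowd k le_rfl, rel_sum E k hγ, hbb',
      hbb₂', h5, h6, ?_⟩
    rw [htel, Finset.sum_sub_distrib]

end main

end Pool.Agent.Helper657_nd.Comm
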