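import Pool.Agent.Helper657_nd.WeylU

set_option autoImplicit false

/-!
# Definable abelian subgroups: assembly
-/

namespace Pool.Agent.Helper657_nd.Weyl

open Crit

section core
variable {G M : Type} [Group G] [AddCommGroup M]

theorem core {A : Subgroup G} {ι : M → G} (E : Emb A ι) [Module.Finite ℤ M]
    [Module.IsTorsionFree ℤ M] (hA : DefinableSet (A : Set G)) (t : G)
    (ht : t ∈ Subgroup.normalizer (A : Set G))
    (hinf : ∀ k : ℕ, 0 < k → ∃ y : M, t ^ k * ι y * (t ^ k)⁻¹ ≠ ι y) :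
    Undec G := by
  obtain ⟨R, i1, i2, i3, hR1, hR2⟩ := exists_ring E t
  obtain ⟨α, hα⟩ := hR1 t (DG.self ht)
  have hM : IsNoetherian R M := isNoetherian_of_tower ℤ inferInstance
  obtain ⟨e, he, j, hdich⟩ := dichotomy (M := M) α
  by_cases hne : ∃ y : M, (α ^ e - 1) ^ j • y ≠ 0
  · exact weylS E hA t ht hR1 hR2 α hα e j hdich hne
  · push Not at hne
    have hact_pow : ∀ (i : ℕ) (y : M), ι (α ^ i • y) = t ^ i * ι y * (t ^ i)⁻¹ := by
      intro i
      induction i with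
      | zero => intro y; simp
      | succ i ih =>
        intro y
        rw [pow_succ, mul_smul, ih, hα, pow_succ]
        group
    have hte : t ^ e ∈ Subgroup.normalizer (A : Set G) := Subgroup.pow_mem _ ht e
    have hact : ∀ y, (E.act hte - 1 : Module.End ℤ M) y = (α ^ e - 1) • y := by
      intro y
      apply E.inj
      rw [LinearMap.sub_apply, E.sub, E.act_spec, sub_smul, one_smul, E.sub, hact_pow]
      rfl
    have hpow : ∀ (i : ℕ) (y : M), ((E.act hte - 1 : Module.End ℤ M) ^ i) y =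
        (α ^ e - 1) ^ i • y := by
      intro i
      induction i with
      | zero => intro y; simp
      | succ i ih =>
        intro y
        rw [pow_succ, pow_succ, mul_smul]
        show ((E.act hte - 1 : Module.End ℤ M) ^ i) ((E.act hte - 1 : Module.End ℤ M) y) = _
        rw [ih, hact]
    refine weylU E hA (t ^ e) hte (E.act hte - 1) ?_ j ?_ ?_
    · intro y
      rw [LinearMap.sub_apply, E.sub, E.act_spec]
      rfl
    · ext1 y
      rw [hpow, hne]
      rfl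
    · intro h0
      obtain ⟨y, hy⟩ := hinf e he
      apply hy
      rw [← hact_pow]
      congr 1
      have h1 := hact y
      rw [h0, LinearMap.zero_apply, sub_smul, one_smul] at h1
      exact (sub_eq_zero.1 h1.symm)

end core

section minkowski

open Polynomial

theorem pow_poly (c : ℤ) (i : ℕ) : ∃ q : ℤ[X], (1 + C c * X) ^ i = 1 + C (i * c) * X +
    C (c ^ 2) * X ^ 2 * q := by
  induction i with
  | zero => exact ⟨0, by simp⟩
  | succ i ih =>
    obtain ⟨q, hq⟩ := ih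
    refine ⟨q + C (i : ℤ) + C c * X * q, ?_⟩
    rw [pow_succ, hq]
    push_cast
    simp only [map_add, map_mul, map_pow, map_one]
    ring

theorem mink_step {E : Type} [Ring E] [Module.IsTorsionFree ℤ E] : ∀ (i : ℕ), 0 < i →
    ∀ (s : ℕ) (ψ : E), 0 < s → (1 + (3 ^ s : ℤ) • ψ) ^ i = 1 → ∃ ψ' : E, ψ = (3 : ℤ) • ψ' := by
  intro i
  induction i using Nat.strong_induction_on with
  | _ i ih =>
    intro hi s ψ hs h
    have htf : ∀ (a : ℤ) (x y : E), a ≠ 0 → a • x = a • y → x = y := by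
      intro a x y ha hxy
      have h1 : a • (x - y) = 0 := by rw [smul_sub, hxy, sub_self]
      exact sub_eq_zero.1 ((smul_eq_zero.1 h1).resolve_left ha)
    by_cases h3 : 3 ∣ i
    · obtain ⟨i', rfl⟩ := h3
      obtain ⟨s', rfl⟩ : ∃ s', s = s' + 1 := ⟨s - 1, by omega⟩
      let q : ℤ[X] := C (3 ^ s' : ℤ) * X ^ 2 + C (3 ^ (2 * s') : ℤ) * X ^ 3
      have hid : (1 + C (3 ^ (s' + 1) : ℤ) * X) ^ 3 =
          1 + C (3 ^ (s' + 2) : ℤ) * (X + C 3 * q) := by
        have hC3 : (C (3 : ℤ) : ℤ[X]) = 3 := by simp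
        simp only [q, map_pow, hC3]
        ring
      have hid2 := congrArg (aeval ψ) hid
      simp only [map_pow, map_add, map_mul, map_one, aeval_X, aeval_C] at hid2
      have h4 : (1 + (3 ^ (s' + 1) : ℤ) • ψ) ^ 3 =
          1 + (3 ^ (s' + 2) : ℤ) • (ψ + (3 : ℤ) • aeval ψ q) := by
        simpa [zsmul_eq_mul, Algebra.smul_def] using hid2
      rw [pow_mul, h4] at h
      obtain ⟨ψ', hψ'⟩ := ih i' (by omega) (by omega) (s' + 2) _ (by omega) h
      refine ⟨ψ' - aeval ψ q, ?_⟩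
      rw [smul_sub, ← hψ']
      abel
    · obtain ⟨q, hq⟩ := pow_poly (3 ^ s) i
      have hid2 := congrArg (aeval ψ) hq
      simp only [map_pow, map_add, map_mul, map_one, aeval_X, aeval_C] at hid2
      have h4 : (1 + (3 ^ s : ℤ) • ψ) ^ i =
          1 + ((i : ℤ) * 3 ^ s) • ψ + ((3 ^ s) ^ 2 : ℤ) • (ψ ^ 2 * aeval ψ q) := by
        simpa [zsmul_eq_mul, Algebra.smul_def, mul_assoc] using hid2
      rw [h] at h4
      have h5 : (3 ^ s : ℤ) • ((i : ℤ) • ψ) = (3 ^ s : ℤ) • (-((3 ^ s : ℤ) • (ψ ^ 2 * aeval ψ q))) := by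
        rw [smul_neg, ← mul_smul, ← mul_smul, eq_neg_iff_add_eq_zero]
        have h6 : ((i : ℤ) * 3 ^ s) • ψ + ((3 ^ s) ^ 2 : ℤ) • (ψ ^ 2 * aeval ψ q) = 0 := by
          have : (1 : E) = 1 + (((i : ℤ) * 3 ^ s) • ψ + ((3 ^ s) ^ 2 : ℤ) • (ψ ^ 2 * aeval ψ q)) := by
            rw [← add_assoc]
            exact h4
          exact (left_eq_add.1 this)
        rw [mul_comm (3 ^ s : ℤ) (i : ℤ), ← pow_two]
        exact h6
      have h6 := htf _ _ _ (by positivity) h5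
      have hcop : IsCoprime (i : ℤ) 3 := by
        rw [Int.isCoprime_iff_gcd_eq_one]
        have : Nat.Coprime i 3 := ((Nat.Prime.coprime_iff_not_dvd Nat.prime_three).2 h3).symm
        exact_mod_cast this
      obtain ⟨a, b, hab⟩ := hcop
      obtain ⟨s', rfl⟩ : ∃ s', s = s' + 1 := ⟨s - 1, by omega⟩
      refine ⟨a • (-((3 ^ s' : ℤ) • (ψ ^ 2 * aeval ψ q))) + b • ψ, ?_⟩
      have h7 : ψ = a • ((i : ℤ) • ψ) + (3 : ℤ) • b • ψ := by
        conv_lhs => rw [← one_smul ℤ ψ, ← hab]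
        rw [add_smul, mul_smul, mul_smul, smul_comm b (3 : ℤ)]
      have h8 : (3 : ℤ) • (3 ^ s' : ℤ) • (ψ ^ 2 * aeval ψ q) =
          (3 ^ (s' + 1) : ℤ) • (ψ ^ 2 * aeval ψ q) := by
        rw [← mul_smul, ← pow_succ']
      conv_lhs => rw [h7, h6]
      rw [smul_add, smul_comm (3 : ℤ) a, smul_neg (3 : ℤ), h8]

theorem minkowski {E : Type} [Ring E] [Module.IsTorsionFree ℤ E] [Module.Finite ℤ E] {i : ℕ}
    (hi : 0 < i) (ψ : E) (h : (1 + (3 : ℤ) • ψ) ^ i = 1) : ψ = 0 := by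
  have key : ∀ s : ℕ, ∃ ψ' : E, (3 : ℤ) • ψ = (3 ^ (s + 1) : ℤ) • ψ' := by
    intro s
    induction s with
    | zero => exact ⟨ψ, by simp⟩
    | succ s ih =>
      obtain ⟨ψ', hψ'⟩ := ih
      obtain ⟨ψ'', hψ''⟩ := mink_step i hi (s + 1) ψ' (by omega) (by rw [← hψ', h])
      exact ⟨ψ'', by rw [hψ', hψ'', ← mul_smul, ← pow_succ]⟩
  have h0 : (3 : ℤ) • ψ = 0 := by
    let b := Module.Free.chooseBasis ℤ E
    rw [← b.repr.map_eq_zero_iff]
    ext l
    obtain ⟨ψ', hψ'⟩ := key (b.repr ((3 : ℤ) • ψ) l).natAbs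
    have h1 : b.repr ((3 : ℤ) • ψ) l =
        (3 ^ ((b.repr ((3 : ℤ) • ψ) l).natAbs + 1) : ℤ) * b.repr ψ' l := by
      conv_lhs => rw [hψ', map_zsmul]
      simp
    have h2 : (3 ^ ((b.repr ((3 : ℤ) • ψ) l).natAbs + 1) : ℤ) ∣ b.repr ((3 : ℤ) • ψ) l := ⟨_, h1⟩
    have h3 : b.repr ((3 : ℤ) • ψ) l = 0 := by
      apply Int.eq_zero_of_abs_lt_dvd h2
      rw [Int.abs_eq_natAbs]
      have h4 : (b.repr ((3 : ℤ) • ψ) l).natAbs < 3 ^ (b.repr ((3 : ℤ) • ψ) l).natAbs :=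
        Nat.lt_pow_self (by omega)
      have h5 : 3 ^ (b.repr ((3 : ℤ) • ψ) l).natAbs ≤
          3 ^ ((b.repr ((3 : ℤ) • ψ) l).natAbs + 1) := Nat.pow_le_pow_right (by omega) (by omega)
      exact_mod_cast lt_of_lt_of_le h4 h5
    simpa using h3
  exact (smul_eq_zero.1 h0).resolve_left (by norm_num)

end minkowski

end Pool.Agent.Helper657_nd.Weyl
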