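import Pool.Agent.Helper657_nd.MMB
import Pool.Agent.Helper657_nd.WeylMain

set_option autoImplicit false

/-!
# Periodic groups of rational matrices are finite
-/

namespace Pool.Agent.Helper657_nd.Mink

open Polynomial Weyl Seg

theorem mink2_step {E : Type} [Ring E] (htf : ∀ (n : ℕ) (y : E), n ≠ 0 → n • y = 0 → y = 0)
    (p : ℕ) (hp : p.Prime) : ∀ (i : ℕ), 0 < i →
    ∀ (s : ℕ) (ψ : E), (1 + (p ^ (s + 2) : ℤ) • ψ) ^ i = 1 → ∃ ψ' : E, ψ = (p : ℤ) • ψ' := by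
  intro i
  induction i using Nat.strong_induction_on with
  | _ i ih =>
    intro hi s ψ h
    have hp0 : (p : ℤ) ≠ 0 := by exact_mod_cast hp.ne_zero
    have htfZ : ∀ (a : ℤ) (x y : E), a ≠ 0 → a • x = a • y → x = y := by
      intro a x y ha hxy
      have h1 : a • (x - y) = 0 := by rw [smul_sub, hxy, sub_self]
      apply sub_eq_zero.1
      apply htf a.natAbs _ (by simpa using ha)
      rcases Int.natAbs_eq a with h2 | h2
      · rw [h2, natCast_zsmul] at h1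
        exact h1
      · rw [h2, neg_smul, natCast_zsmul, neg_eq_zero] at h1
        exact h1
    by_cases h3 : p ∣ i
    · obtain ⟨i', rfl⟩ := h3
      have hi' : 0 < i' := Nat.pos_of_mul_pos_left hi
      obtain ⟨q, hq⟩ := pow_poly (p ^ (s + 2)) p
      have hid2 := congrArg (aeval ψ) hq
      simp only [map_pow, map_add, map_mul, map_one, aeval_X, aeval_C] at hid2
      have h4 : (1 + (p ^ (s + 2) : ℤ) • ψ) ^ p =
          1 + (p ^ (s + 1 + 2) : ℤ) • (ψ + (p : ℤ) • ((p ^ s : ℤ) • (ψ ^ 2 * aeval ψ q))) := by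
        have h5 : (1 + (p ^ (s + 2) : ℤ) • ψ) ^ p =
            1 + ((p : ℤ) * p ^ (s + 2)) • ψ +
              ((p ^ (s + 2)) ^ 2 : ℤ) • (ψ ^ 2 * aeval ψ q) := by
          simpa [zsmul_eq_mul, Algebra.smul_def, mul_assoc] using hid2
        rw [h5, smul_add, ← add_assoc, ← mul_smul, ← mul_smul]
        congr 3
        · ring
        · ring
      rw [pow_mul, h4] at h
      obtain ⟨ψ', hψ'⟩ := ih i' (by
        have := hp.two_le
        nlinarith) hi' (s + 1) _ h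
      refine ⟨ψ' - (p ^ s : ℤ) • (ψ ^ 2 * aeval ψ q), ?_⟩
      rw [smul_sub, ← hψ']
      abel
    · obtain ⟨q, hq⟩ := pow_poly (p ^ (s + 2)) i
      have hid2 := congrArg (aeval ψ) hq
      simp only [map_pow, map_add, map_mul, map_one, aeval_X, aeval_C] at hid2
      have h4 : (1 + (p ^ (s + 2) : ℤ) • ψ) ^ i =
          1 + ((i : ℤ) * p ^ (s + 2)) • ψ + ((p ^ (s + 2)) ^ 2 : ℤ) • (ψ ^ 2 * aeval ψ q) := by
        simpa [zsmul_eq_mul, Algebra.smul_def, mul_assoc] using hid2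
      rw [h] at h4
      have h5 : (p ^ (s + 2) : ℤ) • ((i : ℤ) • ψ) =
          (p ^ (s + 2) : ℤ) • (-((p ^ (s + 2) : ℤ) • (ψ ^ 2 * aeval ψ q))) := by
        rw [smul_neg, ← mul_smul, ← mul_smul, eq_neg_iff_add_eq_zero]
        have h6 : ((i : ℤ) * p ^ (s + 2)) • ψ +
            ((p ^ (s + 2)) ^ 2 : ℤ) • (ψ ^ 2 * aeval ψ q) = 0 := by
          have : (1 : E) = 1 + (((i : ℤ) * p ^ (s + 2)) • ψ +
              ((p ^ (s + 2)) ^ 2 : ℤ) • (ψ ^ 2 * aeval ψ q)) := by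
            rw [← add_assoc]
            exact h4
          exact (left_eq_add.1 this)
        rw [mul_comm (p ^ (s + 2) : ℤ) (i : ℤ), ← pow_two]
        exact h6
      have h6 := htfZ _ _ _ (pow_ne_zero _ hp0) h5
      have hcop : IsCoprime (i : ℤ) (p : ℤ) :=
        Nat.isCoprime_iff_coprime.2 ((Nat.Prime.coprime_iff_not_dvd hp).2 h3).symm
      obtain ⟨a, b, hab⟩ := hcop
      refine ⟨a • (-((p ^ (s + 1) : ℤ) • (ψ ^ 2 * aeval ψ q))) + b • ψ, ?_⟩
      have h7 : ψ = a • ((i : ℤ) • ψ) + (p : ℤ) • b • ψ := by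
        conv_lhs => rw [← one_smul ℤ ψ, ← hab]
        rw [add_smul, mul_smul, mul_smul, smul_comm b (p : ℤ)]
      have h8 : (p : ℤ) • (p ^ (s + 1) : ℤ) • (ψ ^ 2 * aeval ψ q) =
          (p ^ (s + 2) : ℤ) • (ψ ^ 2 * aeval ψ q) := by
        rw [← mul_smul, ← pow_succ']
      conv_lhs => rw [h7, h6]
      rw [smul_add, smul_comm (p : ℤ) a, smul_neg (p : ℤ), h8]

theorem mink2 {E : Type} [Ring E] (htf : ∀ (n : ℕ) (y : E), n ≠ 0 → n • y = 0 → y = 0)
    (p : ℕ) (hp : p.Prime) (hsep : ∀ y : E, (∀ l : ℕ, ∃ z : E, y = (p ^ l) • z) → y = 0)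
    {i : ℕ} (hi : 0 < i) (ψ : E) (h : (1 + (p ^ 2 : ℤ) • ψ) ^ i = 1) : ψ = 0 := by
  have key : ∀ s : ℕ, ∃ ψ' : E, (p ^ 2 : ℤ) • ψ = (p ^ (s + 2) : ℤ) • ψ' := by
    intro s
    induction s with
    | zero => exact ⟨ψ, by simp⟩
    | succ s ih =>
      obtain ⟨ψ', hψ'⟩ := ih
      obtain ⟨ψ'', hψ''⟩ := mink2_step htf p hp i hi s ψ' (by rw [← hψ', h])
      exact ⟨ψ'', by rw [hψ', hψ'', ← mul_smul, ← pow_succ]⟩
  have h0 : p ^ 2 • ψ = 0 := by
    apply hsep
    intro l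
    obtain ⟨ψ', hψ'⟩ := key l
    refine ⟨p ^ 2 • ψ', ?_⟩
    have h1 : ((p ^ 2 : ℕ) : ℤ) • ψ = ((p ^ (l + 2) : ℕ) : ℤ) • ψ' := by
      push_cast
      exact hψ'
    rw [natCast_zsmul, natCast_zsmul] at h1
    rw [h1, pow_add, mul_smul]
  exact htf _ _ (pow_ne_zero _ hp.ne_zero) h0

section per
variable {Γ : Type} [Group Γ] {ι : Type} [Fintype ι] [DecidableEq ι] (ρ : Γ →* Matrix ι ι ℚ)

theorem MM_ZsR (m : ℕ) : MM m (ZsR m) := by
  refine ⟨{1}, fun y => ?_⟩
  obtain ⟨k, n, hn⟩ := y.2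
  refine ⟨k, ?_⟩
  have h1 : m ^ k • y = n • (1 : ZsR m) := by
    apply Subtype.ext
    have h2 : (((m ^ k • y : ZsR m)) : ℚ) = (m : ℚ) ^ k * (y : ℚ) := by simp
    have h3 : (((n • (1 : ZsR m) : ZsR m)) : ℚ) = n := by simp
    rw [h2, h3, ← hn, mul_comm]
  rw [h1]
  refine AddSubgroup.zsmul_mem _ (AddSubgroup.subset_closure ?_) n
  simp

theorem finite_fg (hper : ∀ g : Γ, ∃ k : ℕ, 0 < k ∧ ρ g ^ k = 1) (F : Finset Γ) :
    (ρ '' (Subgroup.closure (F : Set Γ) : Set Γ)).Finite := by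
  classical
  let m : ℕ := ∏ g ∈ F, ∏ i, ∏ j, ((ρ g i j).den * (ρ g⁻¹ i j).den)
  have hm : 0 < m := by
    apply Finset.prod_pos
    intro g _
    apply Finset.prod_pos
    intro i _
    apply Finset.prod_pos
    intro j _
    exact Nat.mul_pos (Rat.den_pos _) (Rat.den_pos _)
  have hden : ∀ q : ℚ, q.den ∣ m → Zs m q := by
    rintro q ⟨w, hw⟩
    refine ⟨1, q.num * w, ?_⟩
    rw [pow_one, hw]
    push_cast
    rw [← mul_assoc, Rat.mul_den_eq_num]
  let H : Subgroup Γ :=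
    { carrier := {g | (∀ i j, ρ g i j ∈ ZsR m) ∧ ∀ i j, ρ g⁻¹ i j ∈ ZsR m}
      mul_mem' := by
        rintro a b ⟨ha, ha'⟩ ⟨hb, hb'⟩
        refine ⟨fun i j => ?_, fun i j => ?_⟩
        · rw [map_mul, Matrix.mul_apply]
          exact Subring.sum_mem _ fun l _ => Subring.mul_mem _ (ha i l) (hb l j)
        · rw [mul_inv_rev, map_mul, Matrix.mul_apply]
          exact Subring.sum_mem _ fun l _ => Subring.mul_mem _ (hb' i l) (ha' l j)
      one_mem' := by
        refine ⟨fun i j => ?_, fun i j => ?_⟩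
        · rw [map_one, Matrix.one_apply]
          split_ifs
          · exact Subring.one_mem _
          · exact Subring.zero_mem _
        · rw [inv_one, map_one, Matrix.one_apply]
          split_ifs
          · exact Subring.one_mem _
          · exact Subring.zero_mem _
      inv_mem' := by
        rintro a ⟨ha, ha'⟩
        exact ⟨ha', fun i j => by rw [inv_inv]; exact ha i j⟩ }
  have hFH : Subgroup.closure (F : Set Γ) ≤ H := by
    rw [Subgroup.closure_le]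
    intro g hg
    have h1 : ∀ i j, ((ρ g i j).den * (ρ g⁻¹ i j).den) ∣ m := by
      intro i j
      refine Dvd.dvd.trans ?_ (Finset.dvd_prod_of_mem _ (Finset.mem_coe.1 hg))
      refine Dvd.dvd.trans ?_ (Finset.dvd_prod_of_mem _ (Finset.mem_univ i))
      exact Finset.dvd_prod_of_mem (fun j => (ρ g i j).den * (ρ g⁻¹ i j).den) (Finset.mem_univ j)
    exact ⟨fun i j => hden _ ((Dvd.intro _ rfl).trans (h1 i j)),
      fun i j => hden _ ((Dvd.intro_left _ rfl).trans (h1 i j))⟩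
  let E := Matrix ι ι (ZsR m)
  let Ψ : E →+* Matrix ι ι ℚ := (ZsR m).subtype.mapMatrix
  have hΨ : Function.Injective Ψ := by
    intro a b hab
    ext i j
    exact congrFun (congrFun hab i) j
  have htf : ∀ (n : ℕ) (y : E), n ≠ 0 → n • y = 0 → y = 0 := by
    intro n y hn h
    ext i j
    have h1 : (((n • y : E) i j : ZsR m) : ℚ) = 0 := by rw [h]; rfl
    have h0 : ((n • y : E) i j : ZsR m) = n • (y i j) := rfl
    have h2 : (n : ℚ) * ((y i j : ZsR m) : ℚ) = 0 := by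
      rw [← h1, h0]
      simp
    exact (mul_eq_zero.1 h2).resolve_left (by exact_mod_cast hn)
  have hMM : MM m E := by
    have h1 : MM m (ι → ι → ZsR m) := MM.pi (MM.pi (MM_ZsR m))
    exact h1
  obtain ⟨p, hpbig, hp⟩ := Nat.exists_infinite_primes (m + 1)
  have hpm : Nat.Coprime p m := by
    rw [Nat.Prime.coprime_iff_not_dvd hp]
    intro hdvd
    have := Nat.le_of_dvd hm hdvd
    omega
  let P : Submodule ℤ E := LinearMap.range ((((p ^ 2 : ℕ) : ℤ)) • (LinearMap.id : E →ₗ[ℤ] E))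
  have hfinQ : Finite (E ⧸ P) := by
    refine hMM.finite_quot (p ^ 2) (pow_ne_zero _ hp.ne_zero) (hpm.pow_left 2) P fun y => ⟨y, ?_⟩
    rw [LinearMap.smul_apply, natCast_zsmul]
    rfl
  let σ : Matrix ι ι ℚ → E := fun A => fun i j => if h : A i j ∈ ZsR m then ⟨A i j, h⟩ else 0
  have hσ : ∀ g ∈ H, Ψ (σ (ρ g)) = ρ g := by
    rintro g ⟨hg, -⟩
    ext i j
    show ((σ (ρ g) i j : ZsR m) : ℚ) = _
    simp only [σ, hg i j, dif_pos]
  refine Set.Finite.of_finite_image (f := fun A => P.mkQ (σ A)) (Set.toFinite _) ?_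
  rintro _ ⟨g, hg, rfl⟩ _ ⟨h, hh, rfl⟩ hgh
  have hgH := hFH hg
  have hhH := hFH hh
  have h1 : P.mkQ (σ (ρ h) - σ (ρ g)) = 0 := by
    rw [map_sub]
    exact sub_eq_zero.2 hgh.symm
  rw [Submodule.mkQ_apply, Submodule.Quotient.mk_eq_zero] at h1
  obtain ⟨z, hz⟩ := h1
  have hz' : (p ^ 2 : ℕ) • z = σ (ρ h) - σ (ρ g) := by
    rw [← hz, LinearMap.smul_apply, natCast_zsmul]
    rfl
  obtain ⟨k, hk, hk1⟩ := hper (g⁻¹ * h)
  have hΨ1 : Ψ (1 + (p ^ 2 : ℤ) • (σ (ρ g⁻¹) * z)) = ρ (g⁻¹ * h) := by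
    have h2 : (p ^ 2 : ℤ) • (σ (ρ g⁻¹) * z) = σ (ρ g⁻¹) * (σ (ρ h) - σ (ρ g)) := by
      rw [← hz', mul_smul_comm, ← natCast_zsmul]
      push_cast
      rfl
    rw [h2, map_add, map_one, map_mul, map_sub, hσ _ (H.inv_mem hgH), hσ _ hhH, hσ _ hgH, mul_sub,
      ← map_mul, ← map_mul, inv_mul_cancel, map_one]
    abel
  have h3 := mink2 htf p hp (fun y hy => hMM.sep hm htf p hp.one_lt hpm y hy) hk
    (σ (ρ g⁻¹) * z) (hΨ (by rw [map_pow, hΨ1, hk1, map_one]))
  rw [h3, smul_zero, add_zero, map_one] at hΨ1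
  have h4 : ρ h = ρ g * ρ (g⁻¹ * h) := by rw [← map_mul, mul_inv_cancel_left]
  rw [h4, ← hΨ1, mul_one]

theorem card_bound (hper : ∀ g : Γ, ∃ k : ℕ, 0 < k ∧ ρ g ^ k = 1) (F : Finset Γ)
    (hfin : (ρ '' (Subgroup.closure (F : Set Γ) : Set Γ)).Finite) :
    hfin.toFinset.card ≤ 3 ^ (Fintype.card ι * Fintype.card ι) := by
  classical
  let Δ := Subgroup.closure (F : Set Γ)
  let Sg : Set (ι → ℚ) := {v | ∃ g ∈ Δ, ∃ j, v = Matrix.mulVec (ρ g) (Pi.single j 1)}
  have hSg : Sg.Finite := by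
    have h1 : (⋃ j : ι, (fun A : Matrix ι ι ℚ => Matrix.mulVec A (Pi.single j 1)) ''
        (ρ '' (Δ : Set Γ))).Finite := Set.finite_iUnion fun j => hfin.image _
    refine h1.subset ?_
    rintro v ⟨g, hg, j, rfl⟩
    exact Set.mem_iUnion.2 ⟨j, _, ⟨g, hg, rfl⟩, rfl⟩
  let Λ : Submodule ℤ (ι → ℚ) := Submodule.span ℤ Sg
  have hΛfin : Module.Finite ℤ Λ := Module.Finite.span_of_finite ℤ hSg
  have hΛ : ∀ g ∈ Δ, ∀ v ∈ Λ, Matrix.mulVec (ρ g) v ∈ Λ := by
    intro g hg v hv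
    induction hv using Submodule.span_induction with
    | mem x hx =>
      obtain ⟨h, hh, j, rfl⟩ := hx
      apply Submodule.subset_span
      refine ⟨g * h, Δ.mul_mem hg hh, j, ?_⟩
      rw [map_mul, ← Matrix.mulVec_mulVec]
    | zero => rw [Matrix.mulVec_zero]; exact Λ.zero_mem
    | add x y _ _ hx hy => rw [Matrix.mulVec_add]; exact Λ.add_mem hx hy
    | smul a x _ hx => rw [Matrix.mulVec_smul]; exact Λ.smul_mem a hx
  have hsing : ∀ j, (Pi.single j 1 : ι → ℚ) ∈ Λ := by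
    intro j
    apply Submodule.subset_span
    exact ⟨1, Δ.one_mem, j, by rw [map_one, Matrix.one_mulVec]⟩
  let θ : Δ → Module.End ℤ Λ := fun g =>
    ((Matrix.mulVecLin (ρ (g : Γ))).restrictScalars ℤ).restrict (fun v hv => hΛ g g.2 v hv)
  have hθ : ∀ (g : Δ) (v : Λ), ((θ g v : Λ) : ι → ℚ) = Matrix.mulVec (ρ (g : Γ)) v :=
    fun g v => rfl
  have hθmul : ∀ g h : Δ, θ (g * h) = θ g * θ h := by
    intro g h
    ext1 v
    apply Subtype.ext
    show _ = ((θ g (θ h v) : Λ) : ι → ℚ)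
    rw [hθ, hθ, hθ, Subgroup.coe_mul, map_mul, Matrix.mulVec_mulVec]
  have hθone : θ 1 = 1 := by
    ext1 v
    apply Subtype.ext
    rw [hθ, Subgroup.coe_one, map_one, Matrix.one_mulVec]
    rfl
  have hθpow : ∀ (g : Δ) (k : ℕ), θ g ^ k = θ (g ^ k) := by
    intro g k
    induction k with
    | zero => rw [pow_zero, pow_zero, hθone]
    | succ k ih => rw [pow_succ, pow_succ, hθmul, ih]
  let b := Module.Free.chooseBasis ℤ Λ
  let I := Module.Free.ChooseBasisIndex ℤ Λ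
  have hcard : Fintype.card I ≤ Fintype.card ι := by
    have h1 : LinearIndependent ℤ (fun i => ((b i : Λ) : ι → ℚ)) :=
      b.linearIndependent.map' Λ.subtype (Submodule.ker_subtype _)
    have h2 : LinearIndependent ℚ (fun i => ((b i : Λ) : ι → ℚ)) :=
      (LinearIndependent.iff_fractionRing ℤ ℚ).1 h1
    have h3 := h2.fintype_card_le_finrank
    rwa [Module.finrank_fintype_fun_eq_card] at h3
  have hch : ∀ A : hfin.toFinset, ∃ g : Δ, ρ (g : Γ) = A := by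
    rintro ⟨A, hA⟩
    rw [Set.Finite.mem_toFinset] at hA
    obtain ⟨g, hg, h⟩ := hA
    exact ⟨⟨g, hg⟩, h⟩
  choose γ hγ using hch
  let κ : hfin.toFinset → Matrix I I (ZMod 3) := fun A =>
    (LinearMap.toMatrix b b (θ (γ A))).map (Int.castRingHom (ZMod 3))
  have hκ : Function.Injective κ := by
    intro A B hAB
    have h1 : ∃ ψ : Module.End ℤ Λ, θ (γ B) - θ (γ A) = (3 : ℤ) • ψ := by
      have h2 : ∀ i j, ∃ c : ℤ, LinearMap.toMatrix b b (θ (γ B)) i j -
          LinearMap.toMatrix b b (θ (γ A)) i j = 3 * c := by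
        intro i j
        have h3 := congrFun (congrFun hAB i) j
        have h4 : ((LinearMap.toMatrix b b (θ (γ A)) i j : ℤ) : ZMod 3) =
            ((LinearMap.toMatrix b b (θ (γ B)) i j : ℤ) : ZMod 3) := h3
        rw [ZMod.intCast_eq_intCast_iff] at h4
        obtain ⟨c, hc⟩ := h4.dvd
        exact ⟨c, by rw [hc]; simp⟩
      choose c hc using h2
      obtain ⟨C, hC⟩ : ∃ C : Matrix I I ℤ, ∀ i j, LinearMap.toMatrix b b (θ (γ B)) i j -
          LinearMap.toMatrix b b (θ (γ A)) i j = 3 * C i j := ⟨Matrix.of c, hc⟩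
      refine ⟨Matrix.toLin b b C, ?_⟩
      apply (LinearMap.toMatrix b b).injective
      rw [map_sub, map_smul, LinearMap.toMatrix_toLin]
      ext i j
      rw [Matrix.sub_apply, hC]
      rfl
    obtain ⟨ψ, hψ⟩ := h1
    obtain ⟨k, hk, hk1⟩ := hper (((γ A)⁻¹ * γ B : Δ) : Γ)
    have h5 : 1 + (3 : ℤ) • (θ (γ A)⁻¹ * ψ) = θ ((γ A)⁻¹ * γ B) := by
      have h6 : (3 : ℤ) • (θ (γ A)⁻¹ * ψ) = θ (γ A)⁻¹ * (θ (γ B) - θ (γ A)) := by
        rw [hψ, mul_smul_comm]
      rw [h6, mul_sub, ← hθmul, ← hθmul, inv_mul_cancel, hθone]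
      abel
    have h7 : θ (((γ A)⁻¹ * γ B) ^ k) = 1 := by
      ext1 v
      apply Subtype.ext
      rw [hθ, Subgroup.coe_pow, map_pow, hk1, Matrix.one_mulVec]
      rfl
    have h8 := minkowski hk (θ (γ A)⁻¹ * ψ) (by rw [h5, hθpow, h7])
    rw [h8, smul_zero, add_zero] at h5
    have h9 : ρ (((γ A)⁻¹ * γ B : Δ) : Γ) = 1 := by
      apply Matrix.ext_of_mulVec_single
      intro j
      have h10 : ((θ ((γ A)⁻¹ * γ B) ⟨_, hsing j⟩ : Λ) : ι → ℚ) = Pi.single j 1 := by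
        rw [← h5]
        rfl
      rw [hθ] at h10
      rw [Matrix.one_mulVec]
      exact h10
    apply Subtype.ext
    rw [← hγ, ← hγ]
    have h11 : ((γ B : Δ) : Γ) = (γ A : Γ) * (((γ A)⁻¹ * γ B : Δ) : Γ) := by
      rw [← Subgroup.coe_mul, mul_inv_cancel_left]
    rw [h11, map_mul, h9, mul_one]
  have h1 := Fintype.card_le_of_injective κ hκ
  rw [Fintype.card_coe] at h1
  refine h1.trans ?_
  have h2 : Fintype.card (Matrix I I (ZMod 3)) = 3 ^ (Fintype.card I * Fintype.card I) := by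
    show Fintype.card (I → I → ZMod 3) = _
    rw [Fintype.card_fun, Fintype.card_fun, ZMod.card, ← pow_mul]
  rw [h2]
  exact Nat.pow_le_pow_right (by omega) (Nat.mul_le_mul hcard hcard)

/-- Periodic groups of rational matrices are finite. -/
theorem periodic_finite (hper : ∀ g : Γ, ∃ k : ℕ, 0 < k ∧ ρ g ^ k = 1) :
    (Set.range ρ).Finite := by
  classical
  by_contra hinf
  obtain ⟨T, hT, hcard⟩ := Set.Infinite.exists_subset_card_eq hinf
    (3 ^ (Fintype.card ι * Fintype.card ι) + 1)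
  choose! f hf using fun A (hA : A ∈ T) => hT (Finset.mem_coe.2 hA)
  let F : Finset Γ := T.image f
  have h1 := card_bound ρ hper F (finite_fg ρ hper F)
  have h2 : T ⊆ (finite_fg ρ hper F).toFinset := by
    intro A hA
    rw [Set.Finite.mem_toFinset]
    exact ⟨f A, Subgroup.subset_closure (Finset.mem_coe.2 (Finset.mem_image_of_mem f hA)), hf A hA⟩
  have h3 := Finset.card_le_card h2
  omega

end per

end Pool.Agent.Helper657_nd.Mink
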