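import Pool.Agent.Helper657_nd.CommE
import Pool.Agent.Helper657_nd.Mink

set_option autoImplicit false

/-!
# Infinite groups of virtual automorphisms
-/

namespace Pool.Agent.Helper657_nd.Comm

open Crit Weyl Seg

section rho
variable {G M : Type} [Group G] [AddCommGroup M] {A : Subgroup G} {ι : M → G} (E : Emb A ι)
  (htfM : ∀ (n : ℕ) (y : M), n ≠ 0 → n • y = 0 → y = 0) (P : Submodule ℤ M)
include E

/-- `x` maps a multiple of `P` into `P` -/
def Qn (ι : M → G) (P : Submodule ℤ M) (x : G) : Prop :=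
  ∃ N : ℕ, 0 < N ∧ ∀ y ∈ P, ∃ y' ∈ P, ι y' = x * ι (N • y) * x⁻¹

theorem Qn.mul {P : Submodule ℤ M} {x y : G} (hx : Qn ι P x) (hy : Qn ι P y) : Qn ι P (x * y) := by
  obtain ⟨N, hN, hx⟩ := hx
  obtain ⟨K, hK, hy⟩ := hy
  refine ⟨N * K, Nat.mul_pos hN hK, fun v hv => ?_⟩
  obtain ⟨v', hv', h1⟩ := hy v hv
  obtain ⟨w, hw, h2⟩ := hx v' hv'
  refine ⟨w, hw, ?_⟩
  rw [h2, E.nsmul, h1, conj_pow, ← E.nsmul, ← mul_smul]
  group

theorem Qn.end_ {P : Submodule ℤ M} {x : G} (h : Qn ι P x) :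
    ∃ (N : ℕ) (φ : Module.End ℤ P), 0 < N ∧ ∀ y : P, ι (φ y : P) = x * ι (N • (y : M)) * x⁻¹ := by
  obtain ⟨N, hN, h⟩ := h
  have h1 : ∀ y : P, ∃ z : P, ι (z : M) = x * ι (N • (y : M)) * x⁻¹ := by
    intro y
    obtain ⟨y', hy', h2⟩ := h y y.2
    exact ⟨⟨y', hy'⟩, h2⟩
  choose f hf using h1
  refine ⟨N, (AddMonoidHom.toIntLinearMap
    { toFun := f
      map_zero' := by
        apply Subtype.ext
        apply E.inj
        rw [hf, Submodule.coe_zero, smul_zero]
        exact (rel_zero E x).symm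
      map_add' := fun a b => by
        apply Subtype.ext
        apply E.inj
        rw [hf, Submodule.coe_add, smul_add, Submodule.coe_add]
        exact (rel_add E (hf a) (hf b)).symm }), hN, hf⟩

include htfM in
theorem Qn.inv {P : Submodule ℤ M} [Module.Finite ℤ P] {x : G} (h : Qn ι P x) :
    Qn ι P x⁻¹ := by
  obtain ⟨N, φ, hN, hφ⟩ := h.end_ E
  have hinj : Function.Injective φ := by
    intro a b hab
    have h1 := hφ a
    rw [hab, hφ b] at h1
    have h2 : ι (N • (b : M)) = ι (N • (a : M)) := by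
      have h3 := mul_right_cancel h1
      exact mul_left_cancel h3
    have h3 : N • ((b : M) - a) = 0 := by rw [smul_sub, E.inj h2, sub_self]
    exact (Subtype.ext (sub_eq_zero.1 (htfM N _ hN.ne' h3))).symm
  have hrank : Module.finrank ℤ P ≤ Module.finrank ℤ (LinearMap.range φ) := by
    rw [LinearMap.finrank_range_of_inj hinj]
  obtain ⟨n, hn, hn'⟩ := uniform (⊤ : Submodule ℤ P) (LinearMap.range φ)
    fun y _ => finrank_torsion _ hrank y
  refine ⟨n, hn, fun y hy => ?_⟩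
  obtain ⟨w, hw⟩ := hn' ⟨y, hy⟩ Submodule.mem_top
  refine ⟨N • (w : M), P.smul_of_tower_mem _ w.2, ?_⟩
  have h1 := hφ w
  rw [hw] at h1
  have h2 : ι (n • y) = x * ι (N • (w : M)) * x⁻¹ := h1
  rw [h2]
  group

/-- the group of virtual automorphisms -/
def Co (hinv : ∀ x, Qn ι P x → Qn ι P x⁻¹) : Subgroup G where
  carrier := {x | Qn ι P x}
  mul_mem' := fun hx hy => hx.mul E hy
  one_mem' := ⟨1, Nat.one_pos, fun y hy => ⟨y, hy, by simp⟩⟩
  inv_mem' := fun hx => hinv _ hx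

include htfM in
/-- the representation -/
theorem exists_rho [Module.Finite ℤ P] (hinv : ∀ x, Qn ι P x → Qn ι P x⁻¹) :
    ∃ (I : Type) (_ : Fintype I) (_ : DecidableEq I) (ρ : Co E P hinv →* Matrix I I ℚ),
      (∀ (x : Co E P hinv) (m : ℕ), 0 < m →
        (∀ y ∈ P, (x : G) * ι (m • y) * (x : G)⁻¹ = ι (m • y)) → ρ x = 1) ∧
      ∀ x x' : Co E P hinv, ρ x = ρ x' → ∃ m : ℕ, 0 < m ∧ ∀ y ∈ P,
        (x : G) * ι (m • y) * (x : G)⁻¹ = (x' : G) * ι (m • y) * (x' : G)⁻¹ := by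
  classical
  have htfP : Module.IsTorsionFree ℤ P := by
    rw [Module.isTorsionFree_iff_smul_eq_zero]
    rintro a y hy
    by_cases ha : a = 0
    · exact Or.inl ha
    right
    apply Subtype.ext
    apply htfM a.natAbs _ (by simpa using ha)
    have h1 : a • (y : M) = 0 := congrArg Subtype.val hy
    rcases Int.natAbs_eq a with h2 | h2
    · rw [h2, natCast_zsmul] at h1
      exact h1
    · rw [h2, neg_smul, natCast_zsmul, neg_eq_zero] at h1
      exact h1
  let b := Module.Free.chooseBasis ℤ P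
  let I := Module.Free.ChooseBasisIndex ℤ P
  choose N φ hN hφ using fun x : Co E P hinv => Qn.end_ E (x.2 : Qn ι P x)
  let mt : Module.End ℤ P → Matrix I I ℚ := fun ψ =>
    (LinearMap.toMatrix b b ψ).map (Int.castRingHom ℚ)
  have hmt_smul : ∀ (n : ℕ) (ψ : Module.End ℤ P), mt (n • ψ) = (n : ℚ) • mt ψ := by
    intro n ψ
    ext i j
    show ((LinearMap.toMatrix b b (n • ψ) i j : ℤ) : ℚ) =
      (n : ℚ) * ((LinearMap.toMatrix b b ψ i j : ℤ) : ℚ)
    rw [map_nsmul, Matrix.smul_apply]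
    simp
  have hmt_mul : ∀ ψ ψ' : Module.End ℤ P, mt (ψ * ψ') = mt ψ * mt ψ' := by
    intro ψ ψ'
    show (LinearMap.toMatrix b b (ψ * ψ')).map (Int.castRingHom ℚ) = _
    rw [LinearMap.toMatrix_mul, Matrix.map_mul]
  have hmt_one : mt 1 = 1 := by
    show (LinearMap.toMatrix b b 1).map (Int.castRingHom ℚ) = _
    rw [LinearMap.toMatrix_one, Matrix.map_one _ (map_zero _) (map_one _)]
  have hmt_inj : Function.Injective mt := by
    intro ψ ψ' h
    apply (LinearMap.toMatrix b b).injective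
    ext i j
    have := congrFun (congrFun h i) j
    simpa [mt] using this
  have huniq : ∀ (x : Co E P hinv) (n : ℕ) (ψ : Module.End ℤ P), 0 < n →
      (∀ y : P, ι (ψ y : P) = (x : G) * ι (n • (y : M)) * (x : G)⁻¹) →
      ((N x : ℕ) : ℚ)⁻¹ • mt (φ x) = (n : ℚ)⁻¹ • mt ψ := by
    intro x n ψ hn hψ
    have h1 : n • φ x = N x • ψ := by
      ext1 y
      apply Subtype.ext
      apply E.inj
      rw [LinearMap.smul_apply, LinearMap.smul_apply, Submodule.coe_smul_of_tower,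
        Submodule.coe_smul_of_tower, E.nsmul, E.nsmul, hφ, hψ, conj_pow, conj_pow, ← E.nsmul,
        ← E.nsmul, ← mul_smul, ← mul_smul, mul_comm]
    have h2 := congrArg mt h1
    rw [hmt_smul, hmt_smul] at h2
    have hn' : (n : ℚ) ≠ 0 := by exact_mod_cast hn.ne'
    have hN' : ((N x : ℕ) : ℚ) ≠ 0 := by exact_mod_cast (hN x).ne'
    rw [inv_smul_eq_iff₀ hN', smul_comm, ← h2, smul_smul, inv_mul_cancel₀ hn', one_smul]
  let ρ : Co E P hinv →* Matrix I I ℚ :=
    { toFun := fun x => ((N x : ℕ) : ℚ)⁻¹ • mt (φ x)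
      map_one' := by
        rw [huniq 1 1 1 Nat.one_pos (fun y => by simp), hmt_one]
        simp
      map_mul' := fun x y => by
        have h1 := huniq (x * y) (N x * N y) (φ x * φ y) (Nat.mul_pos (hN x) (hN y)) (fun v => by
          show ι ((φ x (φ y v) : P) : M) = _
          rw [hφ, E.nsmul, hφ, conj_pow, ← E.nsmul, ← mul_smul, Subgroup.coe_mul]
          group)
        rw [h1, hmt_mul, Matrix.smul_mul, Matrix.mul_smul, smul_smul]
        congr 1
        push_cast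
        rw [mul_inv] }
  refine ⟨I, inferInstance, inferInstance, ρ, ?_, ?_⟩
  · intro x m hm h
    show ((N x : ℕ) : ℚ)⁻¹ • mt (φ x) = 1
    rw [huniq x m (m • (1 : Module.End ℤ P)) hm (fun y => by
      rw [h y y.2]
      rfl), hmt_smul, hmt_one, smul_smul, inv_mul_cancel₀ (by exact_mod_cast hm.ne'), one_smul]
  · intro x x' h
    refine ⟨N x * N x', Nat.mul_pos (hN x) (hN x'), fun y hy => ?_⟩
    have h1 : ((N x : ℕ) : ℚ)⁻¹ • mt (φ x) = ((N x' : ℕ) : ℚ)⁻¹ • mt (φ x') := h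
    have hN1 : ((N x : ℕ) : ℚ) ≠ 0 := by exact_mod_cast (hN x).ne'
    have hN2 : ((N x' : ℕ) : ℚ) ≠ 0 := by exact_mod_cast (hN x').ne'
    rw [inv_smul_eq_iff₀ hN1, smul_comm, eq_inv_smul_iff₀ hN2, ← hmt_smul, ← hmt_smul] at h1
    have h2 := hmt_inj h1
    have h3 := congrArg (fun ψ : Module.End ℤ P => ι ((ψ ⟨y, hy⟩ : P) : M)) h2
    simp only [LinearMap.smul_apply, Submodule.coe_smul_of_tower, E.nsmul, hφ, conj_pow] at h3
    rw [← pow_mul, ← pow_mul] at h3
    rw [E.nsmul, h3, mul_comm (N x') (N x)]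

end rho

section final
variable {G : Type} [Group G]

/-- Commensurated subgroups of definable minimax abelian groups: infinite groups of virtual
automorphisms. -/
theorem commX (E : Subgroup G) (hc : ∀ a ∈ E, ∀ b ∈ E, a * b = b * a)
    (hE : DefinableSet (E : Set G)) (s : ℕ) (hs : 0 < s) (S : Finset G) (hSE : ∀ a ∈ S, a ∈ E)
    (hS : ∀ a ∈ E, ∃ k : ℕ, a ^ s ^ k ∈ Subgroup.closure (S : Set G)) (e : ℕ) (he : 0 < e)
    (htor : ∀ a ∈ E, ∀ n : ℕ, 0 < n → a ^ n = 1 → a ^ e = 1)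
    (A : Subgroup G) (hAE : A ≤ E) (f : ℕ → G)
    (hf : ∀ i, ∃ N : ℕ, 0 < N ∧ ∀ a ∈ A, f i * a ^ N * (f i)⁻¹ ∈ A)
    (hdiff : ∀ i j, i ≠ j → ∀ m : ℕ, 0 < m → ∃ a ∈ A, f i * a ^ m * (f i)⁻¹ ≠ f j * a ^ m * (f j)⁻¹) :
    Undec G := by
  classical
  obtain ⟨M, i1, ι, htfM, hMM, E'⟩ := exists_torsionfree2 E hc S hSE hS e he htor
  let MA : Submodule ℤ M :=
    { carrier := {y | ι y ∈ A}
      add_mem' := fun {a b} ha hb => by
        show ι (a + b) ∈ A
        rw [E'.add]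
        exact A.mul_mem ha hb
      zero_mem' := by
        show ι 0 ∈ A
        rw [E'.zero]
        exact A.one_mem
      smul_mem' := fun c y hy => by
        show ι (c • y) ∈ A
        have hy' : ι y ∈ A := hy
        rcases Int.natAbs_eq c with h1 | h1
        · rw [h1, natCast_zsmul, E'.nsmul]
          exact A.pow_mem hy' _
        · rw [h1, neg_smul, natCast_zsmul, E'.neg, E'.nsmul]
          exact A.inv_mem (A.pow_mem hy' _) }
  have hMA : ∀ y, y ∈ MA ↔ ι y ∈ A := fun y => Iff.rfl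
  obtain ⟨P', hP'fg, hP'⟩ := (hMM.sub MA).exists_submodule
  let P : Submodule ℤ M := P'.map MA.subtype
  have hPfg : P.FG := hP'fg.map _
  have hPfin : Module.Finite ℤ P := Module.Finite.iff_fg.2 hPfg
  have hPMA : P ≤ MA := by
    rintro _ ⟨y, _, rfl⟩
    exact y.2
  have hPs : ∀ y ∈ MA, ∃ k : ℕ, s ^ k • y ∈ P := by
    intro y hy
    obtain ⟨k, hk⟩ := hP' ⟨y, hy⟩
    exact ⟨k, _, hk, rfl⟩
  have hinv : ∀ x, Qn ι P x → Qn ι P x⁻¹ := fun x hx => hx.inv E' htfM
  -- the elements of the sequence are virtual automorphisms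
  have hAe : ∀ a ∈ A, ∃ y ∈ MA, ι y = a ^ e := by
    intro a ha
    have h1 : a ^ e ∈ powSub E hc e := (mem_powSub hc e).2 ⟨a, hAE ha, rfl⟩
    obtain ⟨y, hy⟩ := (E'.mem _).1 h1
    exact ⟨y, by rw [hMA, hy]; exact A.pow_mem ha e, hy⟩
  have hfQ : ∀ i, Qn ι P (f i) := by
    intro i
    obtain ⟨N, hN, h⟩ := hf i
    have h1 : ∀ y ∈ P, ∃ z ∈ MA, ι z = f i * ι ((N * e) • y) * (f i)⁻¹ := by
      intro y hy
      obtain ⟨z, hz, h2⟩ := hAe _ (h _ (hPMA hy))
      refine ⟨z, hz, ?_⟩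
      rw [h2, conj_pow, E'.nsmul, pow_mul]
    let Q : Submodule ℤ M :=
      { carrier := {y | ∃ z ∈ P, ι z = f i * ι ((N * e) • y) * (f i)⁻¹}
        add_mem' := by
          rintro a b ⟨a', ha', h1⟩ ⟨b', hb', h2⟩
          exact ⟨a' + b', P.add_mem ha' hb', by rw [smul_add]; exact rel_add E' h1 h2⟩
        zero_mem' := ⟨0, P.zero_mem, by rw [smul_zero]; exact rel_zero E' _⟩
        smul_mem' := by
          rintro c y ⟨z', hz', h⟩
          rcases Int.natAbs_eq c with h1 | h1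
          · refine ⟨c.natAbs • z', P.smul_of_tower_mem _ hz', ?_⟩
            rw [h1, Int.natAbs_natCast, natCast_zsmul, smul_comm]
            exact smul_rel E' h _
          · refine ⟨-(c.natAbs • z'), P.neg_mem (P.smul_of_tower_mem _ hz'), ?_⟩
            rw [h1, Int.natAbs_neg, Int.natAbs_natCast, neg_smul, natCast_zsmul, smul_neg, smul_comm]
            exact rel_neg E' (smul_rel E' h _) }
    have h2 : ∃ c : ℕ, 0 < c ∧ ∀ y ∈ P, c • y ∈ Q := by
      obtain ⟨S₁, hS₁⟩ := hPfg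
      have h3 : ∀ y ∈ P, ∃ n : ℕ, n ≠ 0 ∧ n • y ∈ Q := by
        intro y hy
        obtain ⟨z, hz, h4⟩ := h1 y hy
        obtain ⟨k, hk⟩ := hPs z hz
        refine ⟨s ^ k, pow_ne_zero _ hs.ne', s ^ k • z, hk, ?_⟩
        rw [smul_comm]
        exact smul_rel E' h4 _
      choose! g hg using h3
      have hSP : ∀ y ∈ S₁, y ∈ P := fun y hy => by
        rw [← hS₁]
        exact Submodule.subset_span hy
      refine ⟨∏ y ∈ S₁, g y, Finset.prod_pos fun y hy => Nat.pos_of_ne_zero (hg y (hSP y hy)).1, ?_⟩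
      intro y hy
      rw [← hS₁] at hy
      induction hy using Submodule.span_induction with
      | mem x hx =>
        obtain ⟨k, hk⟩ := Finset.dvd_prod_of_mem g (Finset.mem_coe.1 hx)
        rw [hk, mul_comm, mul_smul]
        exact Q.nsmul_mem (hg x (hSP x (Finset.mem_coe.1 hx))).2 k
      | zero => simp
      | add x y _ _ hx hy => rw [smul_add]; exact Q.add_mem hx hy
      | smul a x _ hx => rw [smul_comm]; exact Q.smul_mem a hx
    obtain ⟨c, hc, h3⟩ := h2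
    refine ⟨N * e * c, Nat.mul_pos (Nat.mul_pos hN he) hc, fun y hy => ?_⟩
    obtain ⟨z, hz, h4⟩ := h3 y hy
    exact ⟨z, hz, by rw [h4, ← mul_smul]⟩
  obtain ⟨I, j1, j2, ρ, hρ1, hρ2⟩ := exists_rho E' htfM P hinv
  by_cases hper : ∀ g : Co E' P hinv, ∃ k : ℕ, 0 < k ∧ ρ g ^ k = 1
  · exfalso
    have hfin := Mink.periodic_finite ρ hper
    let F : ℕ → Co E' P hinv := fun i => ⟨f i, hfQ i⟩
    have hninj : ¬ Function.Injective fun i => ρ (F i) := by
      intro hinj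
      exact Set.infinite_range_of_injective hinj (hfin.subset (by
        rintro _ ⟨i, rfl⟩
        exact ⟨_, rfl⟩))
    rw [Function.Injective] at hninj
    push Not at hninj
    obtain ⟨i, j, hij, hne⟩ := hninj
    obtain ⟨m, hm, h⟩ := hρ2 _ _ hij
    obtain ⟨Ni, hNi, hi⟩ := hf i
    obtain ⟨Nj, hNj, hj⟩ := hf j
    obtain ⟨a, ha, hdif⟩ := hdiff i j hne (Ni * Nj * (e * m))
      (Nat.mul_pos (Nat.mul_pos hNi hNj) (Nat.mul_pos he hm))
    apply hdif
    obtain ⟨u, hu, hu'⟩ := hAe _ (A.pow_mem (hi a ha) (Nj * m))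
    obtain ⟨v, hv, hv'⟩ := hAe _ (A.pow_mem (hj a ha) (Ni * m))
    obtain ⟨y, hy, hy'⟩ := hAe a ha
    obtain ⟨k, hk⟩ := hPs y hy
    have h1 : f i * a ^ (Ni * Nj * (e * m)) * (f i)⁻¹ = ι u := by
      rw [hu', ← pow_mul, conj_pow, ← pow_mul]
      congr 3
      ring
    have h2 : f j * a ^ (Ni * Nj * (e * m)) * (f j)⁻¹ = ι v := by
      rw [hv', ← pow_mul, conj_pow, ← pow_mul]
      congr 3
      ring
    rw [h1, h2]
    congr 1
    have h3 : s ^ k • (u - v) = 0 := by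
      rw [smul_sub, sub_eq_zero]
      apply E'.inj
      rw [E'.nsmul, E'.nsmul, ← h1, ← h2]
      have h4 : ∀ x : G, (x * a ^ (Ni * Nj * (e * m)) * x⁻¹) ^ s ^ k =
          x * ι (m • ((Ni * Nj) • (s ^ k • y))) * x⁻¹ := by
        intro x
        rw [E'.nsmul, E'.nsmul, E'.nsmul, hy', conj_pow, ← pow_mul, ← pow_mul, ← pow_mul, ← pow_mul]
        congr 3
        ring
      rw [h4, h4]
      exact h _ (P.smul_of_tower_mem _ hk)
    exact sub_eq_zero.1 (htfM _ _ (pow_ne_zero _ hs.ne') h3)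
  · push Not at hper
    obtain ⟨g, hg⟩ := hper
    obtain ⟨N, hN, h⟩ := (g.2 : Qn ι P g)
    refine commE E hc hE s hs S hSE hS e he htor (sg E' P) ?_ (g : G) N hN ?_ ?_
    · rintro _ ⟨y, hy, rfl⟩
      exact hAE (hPMA hy)
    · rintro _ ⟨y, hy, rfl⟩
      obtain ⟨y', hy', h1⟩ := h y hy
      exact ⟨y', hy', by rw [h1, E'.nsmul]⟩
    · intro k hk m hm
      by_contra hcon
      push Not at hcon
      apply hg k hk
      rw [← map_pow]
      apply hρ1 (g ^ k) m hm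
      intro y hy
      have h1 := hcon (ι y) ⟨y, hy, rfl⟩
      rw [Subgroup.coe_pow, E'.nsmul]
      exact h1

end final

end Pool.Agent.Helper657_nd.Comm
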