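import Pool.Agent.Helper657_nd.SegFT

set_option autoImplicit false

/-!
# Congruence subgroups of linear groups over domains of finite type
-/

namespace Pool.Agent.Helper657_nd.Lin

open Seg SegFT

theorem exists_nonunit (Ω : Type) [CommRing Ω] [IsDomain Ω] [CharZero Ω] [Algebra.FiniteType ℤ Ω] :
    ∃ s : ℕ, 0 < s ∧ ∀ p : ℕ, p.Prime → ¬ p ∣ s → ¬ IsUnit ((p : ℕ) : Ω) := by
  classical
  let F := FractionRing Ω
  have hinj : Function.Injective (algebraMap Ω F) := IsFractionRing.injective Ω F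
  have hcz : CharZero F := charZero_of_injective_algebraMap hinj
  obtain ⟨S, hS⟩ := (inferInstance : Algebra.FiniteType ℤ Ω).out
  let A : Subalgebra ℚ F := Algebra.adjoin ℚ ((S.image (algebraMap Ω F) : Finset F) : Set F)
  have hAft : Algebra.FiniteType ℚ A := A.fg_iff_finiteType.1 ⟨_, rfl⟩
  have hΩA : ∀ x : Ω, algebraMap Ω F x ∈ A := by
    intro x
    have hx : x ∈ Algebra.adjoin ℤ (S : Set Ω) := by rw [hS]; exact Algebra.mem_top
    induction hx using Algebra.adjoin_induction with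
    | mem z hz =>
      apply Algebra.subset_adjoin
      rw [Finset.coe_image]
      exact ⟨z, hz, rfl⟩
    | algebraMap r =>
      have : algebraMap Ω F (algebraMap ℤ Ω r) = ((r : ℤ) : F) := by simp
      rw [this]
      exact intCast_mem A r
    | add a b _ _ ha hb => rw [map_add]; exact A.add_mem ha hb
    | mul a b _ _ ha hb => rw [map_mul]; exact A.mul_mem ha hb
  let φ : Ω →+* A := (algebraMap Ω F).codRestrict A hΩA
  obtain ⟨κ, i1, i2, i3, ⟨ψ⟩⟩ := exists_hom A
  obtain ⟨s, hs, hden⟩ := exists_denom Ω κ (ψ.comp φ)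
  refine ⟨s, hs, fun p hp hps hunit => hps ?_⟩
  obtain ⟨w, hw⟩ := hunit.exists_right_inv
  obtain ⟨k, hk⟩ := hden w
  have hpκ : ((p : ℕ) : κ) ≠ 0 := by exact_mod_cast hp.ne_zero
  have h1 : ((p : ℕ) : κ) * (ψ.comp φ) w = 1 := by
    have := congrArg (ψ.comp φ) hw
    rwa [map_mul, map_natCast, map_one] at this
  have h2 : (s : κ) ^ k * (ψ.comp φ) w = algebraMap ℚ κ ((s : ℚ) ^ k / p) := by
    rw [eq_inv_of_mul_eq_one_right h1, map_div₀, map_pow, map_natCast, map_natCast, div_eq_mul_inv]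
  rw [h2] at hk
  have h3 : IsIntegral ℤ ((s : ℚ) ^ k / p) :=
    (isIntegral_algebraMap_iff (algebraMap ℚ κ).injective).1 hk
  obtain ⟨n, hn⟩ := IsIntegrallyClosed.isIntegral_iff.1 h3
  have hpQ : ((p : ℕ) : ℚ) ≠ 0 := by exact_mod_cast hp.ne_zero
  have h4 : ((n * p : ℤ) : ℚ) = ((s ^ k : ℕ) : ℚ) := by
    have : (n : ℚ) = (s : ℚ) ^ k / p := by simpa using hn
    push_cast
    rw [this]
    field_simp
  have h5 : (n * p : ℤ) = ((s ^ k : ℕ) : ℤ) := by exact_mod_cast h4
  have h6 : (p : ℤ) ∣ ((s ^ k : ℕ) : ℤ) := ⟨n, by rw [← h5]; ring⟩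
  exact hp.dvd_of_dvd_pow (Int.natCast_dvd_natCast.1 h6)

theorem exists_two_maximal (Ω : Type) [CommRing Ω] [IsDomain Ω] [CharZero Ω]
    [Algebra.FiniteType ℤ Ω] : ∃ m₁ m₂ : Ideal Ω, m₁.IsMaximal ∧ m₂.IsMaximal ∧
      ∀ p : ℕ, p.Prime → ((p : ℕ) : Ω) ∉ m₁ ∨ ((p : ℕ) : Ω) ∉ m₂ := by
  obtain ⟨s, hs, hnu⟩ := exists_nonunit Ω
  obtain ⟨p₁, hp₁s, hp₁⟩ := Nat.exists_infinite_primes (s + 1)
  obtain ⟨p₂, hp₂s, hp₂⟩ := Nat.exists_infinite_primes (p₁ + 1)
  have hex : ∀ p : ℕ, p.Prime → s < p → ∃ m : Ideal Ω, m.IsMaximal ∧ ((p : ℕ) : Ω) ∈ m := by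
    intro p hp hsp
    have h1 : ¬ IsUnit ((p : ℕ) : Ω) := hnu p hp fun h => by
      have := Nat.le_of_dvd hs h
      omega
    obtain ⟨m, hm, hpm⟩ := exists_max_ideal_of_mem_nonunits h1
    exact ⟨m, hm, hpm⟩
  obtain ⟨m₁, hm₁, h₁⟩ := hex p₁ hp₁ (by omega)
  obtain ⟨m₂, hm₂, h₂⟩ := hex p₂ hp₂ (by omega)
  refine ⟨m₁, m₂, hm₁, hm₂, fun p hp => ?_⟩
  have huniq : ∀ (m : Ideal Ω), m.IsMaximal → ∀ p q : ℕ, p.Prime → q.Prime → ((p : ℕ) : Ω) ∈ m →
      ((q : ℕ) : Ω) ∈ m → p = q := by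
    intro m hm p q hp hq hpm hqm
    by_contra hne
    have h1 : IsCoprime (p : ℤ) (q : ℤ) :=
      Nat.isCoprime_iff_coprime.2 ((Nat.coprime_primes hp hq).2 hne)
    obtain ⟨a, b, hab⟩ := h1
    apply hm.ne_top
    rw [Ideal.eq_top_iff_one]
    have h2 := congrArg (Int.cast (R := Ω)) hab
    push_cast at h2
    rw [← h2]
    exact m.add_mem (m.mul_mem_left _ hpm) (m.mul_mem_left _ hqm)
  by_contra hcon
  push Not at hcon
  have e1 := huniq m₁ hm₁ p p₁ hp hp₁ hcon.1 h₁
  have e2 := huniq m₂ hm₂ p p₂ hp hp₂ hcon.2 h₂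
  omega

section fix
variable {Ω M : Type} [CommRing Ω] [IsDomain Ω] [IsNoetherianRing Ω] [AddCommGroup M] [Module Ω M]
  [Module.Finite Ω M]

theorem fix_of_pow (htf : ∀ (r : Ω) (v : M), r ≠ 0 → r • v = 0 → v = 0) (m : Ideal Ω)
    (hm : m.IsMaximal) (T : Module.End Ω M) (hT : ∀ v, T v - v ∈ (m • ⊤ : Submodule Ω M)) (p : ℕ)
    (hp : ((p : ℕ) : Ω) ∉ m) (v : M) (h : (T ^ p) v = v) : T v = v := by
  let u : M := T v - v
  have htel : ∑ i ∈ Finset.range p, (T ^ i) u = 0 := by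
    have h1 : ∀ i, (T ^ i) u = (T ^ (i + 1)) v - (T ^ i) v := by
      intro i
      show (T ^ i) (T v - v) = _
      rw [map_sub, pow_succ]
      rfl
    rw [Finset.sum_congr rfl fun i _ => h1 i, Finset.sum_range_sub (fun i => (T ^ i) v), h,
      pow_zero]
    exact sub_self v
  have hstep : ∀ (k : ℕ) (w : M), w ∈ (m ^ k • ⊤ : Submodule Ω M) →
      T w - w ∈ (m ^ (k + 1) • ⊤ : Submodule Ω M) := by
    intro k w hw
    have h1 : (T - 1) w ∈ Submodule.map (T - 1) (m ^ k • ⊤ : Submodule Ω M) := ⟨w, hw, rfl⟩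
    rw [Submodule.map_smul''] at h1
    have h2 : Submodule.map (T - 1) (⊤ : Submodule Ω M) ≤ m • ⊤ := by
      rintro _ ⟨y, -, rfl⟩
      exact hT y
    have h3 := Submodule.smul_mono (le_refl (m ^ k)) h2 h1
    rw [← mul_smul, ← pow_succ] at h3
    exact h3
  have hcl : ∀ k, u ∈ (m ^ k • ⊤ : Submodule Ω M) := by
    intro k
    induction k with
    | zero => simp
    | succ k ih =>
      have hle : (m ^ (k + 1) • ⊤ : Submodule Ω M) ≤ m ^ k • ⊤ :=
        Submodule.smul_mono (Ideal.pow_le_pow_right (Nat.le_succ k)) le_rfl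
      have h1 : ∀ i, (T ^ i) u - u ∈ (m ^ (k + 1) • ⊤ : Submodule Ω M) := by
        intro i
        induction i with
        | zero =>
          rw [pow_zero]
          show u - u ∈ _
          rw [sub_self]
          exact Submodule.zero_mem _
        | succ i ih2 =>
          have h2 : (T ^ i) u ∈ (m ^ k • ⊤ : Submodule Ω M) := by
            have := Submodule.add_mem _ (hle ih2) ih
            rwa [sub_add_cancel] at this
          have h3 := hstep k _ h2
          have h4 : (T ^ (i + 1)) u - u = (T ((T ^ i) u) - (T ^ i) u) + ((T ^ i) u - u) := by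
            rw [pow_succ']
            show T ((T ^ i) u) - u = _
            abel
          rw [h4]
          exact Submodule.add_mem _ h3 ih2
      have h5 : (p : Ω) • u ∈ (m ^ (k + 1) • ⊤ : Submodule Ω M) := by
        have h6 : (p : Ω) • u = -∑ i ∈ Finset.range p, ((T ^ i) u - u) := by
          rw [Finset.sum_sub_distrib, htel, Finset.sum_const, Finset.card_range,
            Nat.cast_smul_eq_nsmul]
          abel
        rw [h6]
        exact Submodule.neg_mem _ (Submodule.sum_mem _ fun i _ => h1 i)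
      -- `p` is invertible modulo `m`
      obtain ⟨a, j, hj, haj⟩ := hm.exists_inv hp
      obtain ⟨c, hc⟩ := sub_dvd_pow_sub_pow (1 : Ω) j (k + 1)
      rw [one_pow] at hc
      have h7 : u = j ^ (k + 1) • u + (c * a) • (p : Ω) • u := by
        rw [← mul_smul, ← add_smul]
        have h8 : j ^ (k + 1) + c * a * (p : Ω) = 1 := by
          have h9 : 1 - j = a * p := by rw [← haj]; ring
          rw [h9] at hc
          linear_combination -hc
        rw [h8, one_smul]
      rw [h7]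
      exact Submodule.add_mem _ (Submodule.smul_mem_smul (Ideal.pow_mem_pow hj _) Submodule.mem_top)
        (Submodule.smul_mem _ _ h5)
  have hmem : u ∈ (⨅ i : ℕ, m ^ i • ⊤ : Submodule Ω M) := by
    rw [Submodule.mem_iInf]
    exact hcl
  obtain ⟨r, hr⟩ := (m.mem_iInf_smul_pow_eq_bot_iff u).1 hmem
  have h1 : (1 - (r : Ω)) • u = 0 := by rw [sub_smul, one_smul, hr, sub_self]
  have h2 : (1 - (r : Ω)) ≠ 0 := by
    intro h0
    apply hm.ne_top
    rw [Ideal.eq_top_iff_one, sub_eq_zero.1 h0]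
    exact r.2
  exact sub_eq_zero.1 (htf _ _ h2 h1)

/-- An automorphism congruent to the identity modulo two maximal ideals of different residue
characteristics has no non-trivial periodic points. -/
theorem fix_of_pow' (htf : ∀ (r : Ω) (v : M), r ≠ 0 → r • v = 0 → v = 0) (m₁ m₂ : Ideal Ω)
    (hm₁ : m₁.IsMaximal) (hm₂ : m₂.IsMaximal)
    (hmm : ∀ p : ℕ, p.Prime → ((p : ℕ) : Ω) ∉ m₁ ∨ ((p : ℕ) : Ω) ∉ m₂) :
    ∀ k : ℕ, 0 < k → ∀ (T : Module.End Ω M), (∀ v, T v - v ∈ (m₁ • ⊤ : Submodule Ω M)) →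
      (∀ v, T v - v ∈ (m₂ • ⊤ : Submodule Ω M)) → ∀ v : M, (T ^ k) v = v → T v = v := by
  intro k
  induction k using Nat.strong_induction_on with
  | _ k ih =>
    intro hk T hT₁ hT₂ v hv
    by_cases hk1 : k = 1
    · rw [hk1, pow_one] at hv
      exact hv
    obtain ⟨p, hp, k', rfl⟩ := Nat.exists_prime_and_dvd hk1
    have hk' : 0 < k' := Nat.pos_of_mul_pos_left hk
    have hpw : ∀ (m : Ideal Ω), (∀ v, T v - v ∈ (m • ⊤ : Submodule Ω M)) → ∀ (i : ℕ) (v : M),
        (T ^ i) v - v ∈ (m • ⊤ : Submodule Ω M) := by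
      intro m hT i
      induction i with
      | zero =>
        intro v
        rw [pow_zero]
        show v - v ∈ _
        rw [sub_self]
        exact Submodule.zero_mem _
      | succ i ih2 =>
        intro v
        have h4 : (T ^ (i + 1)) v - v = (T ((T ^ i) v) - (T ^ i) v) + ((T ^ i) v - v) := by
          rw [pow_succ']
          show T ((T ^ i) v) - v = _
          abel
        rw [h4]
        exact Submodule.add_mem _ (hT _) (ih2 v)
    have h1 : (T ^ k') v = v := by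
      rw [mul_comm, pow_mul] at hv
      rcases hmm p hp with h | h
      · exact fix_of_pow htf m₁ hm₁ (T ^ k') (hpw m₁ hT₁ k') p h v hv
      · exact fix_of_pow htf m₂ hm₂ (T ^ k') (hpw m₂ hT₂ k') p h v hv
    refine ih k' ?_ hk' T hT₁ hT₂ v h1
    have := hp.two_le
    nlinarith

end fix

end Pool.Agent.Helper657_nd.Lin
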