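import Mathlib

set_option autoImplicit false

/-!
# Finite initial segments in orders
-/

namespace Pool.Agent.Helper657_nd.J

open Polynomial

variable {O : Type} [CommRing O] [IsDomain O] [CharZero O] [Module.Finite ℤ O]

/-- matrix of multiplication -/
noncomputable def L (x : O) : Matrix (Module.Free.ChooseBasisIndex ℤ O)
    (Module.Free.ChooseBasisIndex ℤ O) ℤ :=
  Algebra.leftMulMatrix (Module.Free.chooseBasis ℤ O) x

/-- rank of the order -/
noncomputable def rk (O : Type) [CommRing O] [IsDomain O] [CharZero O] [Module.Finite ℤ O] : ℕ :=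
  Fintype.card (Module.Free.ChooseBasisIndex ℤ O)

theorem rk_pos : 0 < rk O := by
  unfold rk
  rw [Fintype.card_pos_iff]
  by_contra hne
  rw [not_nonempty_iff] at hne
  have h1 : (1 : O) = 0 := by
    rw [← (Module.Free.chooseBasis ℤ O).repr.map_eq_zero_iff]
    ext i
    exact hne.elim i
  exact one_ne_zero h1

theorem norm_eq (x : O) : Algebra.norm ℤ x = (L x).det :=
  Algebra.norm_eq_matrix_det _ x

theorem L_add_int (x : O) (s : ℤ) : L (x + s) = L x + Matrix.scalar _ s := by
  unfold L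
  rw [map_add]
  congr 1
  have := (Algebra.leftMulMatrix (Module.Free.chooseBasis ℤ O)).commutes s
  rw [show ((s : ℤ) : O) = algebraMap ℤ O s from rfl, this]
  rw [Matrix.algebraMap_eq_diagonal]
  rfl

theorem L_neg (x : O) : L (-x) = - L x := by
  unfold L
  rw [map_neg]

theorem eval_charpoly (x : O) (s : ℤ) :
    (L (-x)).charpoly.eval s = Algebra.norm ℤ (x + s) := by
  rw [Matrix.eval_charpoly, norm_eq, L_add_int, L_neg]
  congr 1
  abel

theorem aeval_charpoly (x : O) : aeval (-x) (L (-x)).charpoly = 0 := by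
  apply Algebra.leftMulMatrix_injective (Module.Free.chooseBasis ℤ O)
  rw [← Polynomial.aeval_algHom_apply, map_zero]
  exact Matrix.aeval_self_charpoly _

theorem dvd_norm (x : O) : x ∣ ((Algebra.norm ℤ x : ℤ) : O) := by
  have h1 := aeval_charpoly x
  have h2 := eval_charpoly x 0
  rw [Int.cast_zero, add_zero] at h2
  rw [← h2, ← coeff_zero_eq_eval_zero]
  have h3 := Polynomial.divX_mul_X_add (L (-x)).charpoly
  have h4 : aeval (-x) (L (-x)).charpoly =
      aeval (-x) (L (-x)).charpoly.divX * (-x) + ((L (-x)).charpoly.coeff 0 : O) := by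
    conv_lhs => rw [← h3]
    simp
  rw [h1] at h4
  refine ⟨aeval (-x) (L (-x)).charpoly.divX, ?_⟩
  linear_combination -h4

theorem finite_of_norm (c : ℕ) (hc : 0 < c) (H : Set ℤ) (hH : H.Finite) :
    {x : O | ∀ i < rk O, Algebra.norm ℤ (x + ((c * i : ℕ) : ℤ)) ∈ H}.Finite := by
  let v : O → (Fin (rk O) → ℤ) := fun x i => Algebra.norm ℤ (x + ((c * i : ℕ) : ℤ))
  refine Set.Finite.of_finite_fibers v ?_ ?_
  · refine (Set.Finite.pi' (fun _ : Fin (rk O) => hH)).subset ?_
    rintro _ ⟨x, hx, rfl⟩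
    intro i
    exact hx i i.2
  · rintro w ⟨x₀, -, hx₀⟩
    have hne : (L (-x₀)).charpoly.map (algebraMap ℤ O) ≠ 0 := by
      rw [Polynomial.map_ne_zero_iff]
      · exact (Matrix.charpoly_monic _).ne_zero
      · exact Int.cast_injective
    have hfin : {y : O | (((L (-x₀)).charpoly).map (algebraMap ℤ O)).IsRoot y}.Finite :=
      Polynomial.finite_setOfPred_isRoot hne
    refine ((hfin.preimage (neg_injective.injOn)).subset ?_)
    rintro x ⟨-, hx⟩
    have hvx : v x = v x₀ := hx.trans hx₀.symm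
    have hP : (L (-x)).charpoly = (L (-x₀)).charpoly := by
      refine eq_of_degree_sub_lt_of_eval_finset_eq
        ((Finset.range (rk O)).image fun i : ℕ => ((c * i : ℕ) : ℤ)) ?_ ?_
      · rw [Finset.card_image_of_injective, Finset.card_range]
        · have hd : ∀ y : O, (L (-y)).charpoly.degree = (rk O : ℕ) := by
            intro y
            rw [Polynomial.degree_eq_natDegree (Matrix.charpoly_monic _).ne_zero,
              Matrix.charpoly_natDegree_eq_dim]
            rfl
          have := Polynomial.degree_sub_lt_left ((hd x).trans (hd x₀).symm)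
            (Matrix.charpoly_monic _).ne_zero
            ((Matrix.charpoly_monic _).leadingCoeff.trans
              (Matrix.charpoly_monic _).leadingCoeff.symm)
          rwa [hd x] at this
        · intro i j hij
          simp only at hij
          have : c * i = c * j := by exact_mod_cast hij
          exact Nat.eq_of_mul_eq_mul_left hc this
      · intro s hs
        rw [Finset.mem_image] at hs
        obtain ⟨i, hi, rfl⟩ := hs
        rw [Finset.mem_range] at hi
        rw [eval_charpoly, eval_charpoly]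
        exact congrFun hvx ⟨i, hi⟩
    show IsRoot _ (-x)
    rw [← hP, Polynomial.IsRoot, Polynomial.eval_map_algebraMap]
    exact aeval_charpoly x

theorem finite_int_dvd (n : ℤ) (hn : n ≠ 0) : {k : ℤ | k ∣ n}.Finite := by
  refine (Set.finite_Icc (-|n|) |n|).subset fun k hk => ?_
  rw [Set.mem_Icc]
  have h1 := Int.le_of_dvd (abs_pos.2 hn) ((dvd_abs k n).2 hk)
  have h2 := Int.le_of_dvd (abs_pos.2 hn) (neg_dvd.2 ((dvd_abs k n).2 hk))
  omega

theorem finite_unit (x : O) (hx : x ≠ 0) : {f : ℕ | IsUnit (1 + (f : O) * x)}.Finite := by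
  let R := (L (-x)).charpolyRev
  have h0 : (L (-x)).charpoly.coeff 0 ≠ 0 := by
    rw [coeff_zero_eq_eval_zero, eval_charpoly]
    simpa [Algebra.norm_eq_zero_iff] using hx
  have hdeg : R.natDegree = rk O := by
    show ((L (-x)).charpolyRev).natDegree = _
    have h1 : (L (-x)).charpoly.natTrailingDegree = 0 :=
      Polynomial.natTrailingDegree_eq_zero.2 (Or.inr h0)
    rw [← Matrix.reverse_charpoly, Polynomial.reverse_natDegree, h1,
      Matrix.charpoly_natDegree_eq_dim]
    rfl
  have heval : ∀ f : ℕ, R.eval (f : ℤ) = Algebra.norm ℤ (1 + (f : O) * x) := by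
    intro f
    have h1 : ∀ i j, L (1 + (f : O) * x) i j =
        (1 : Matrix (Module.Free.ChooseBasisIndex ℤ O) (Module.Free.ChooseBasisIndex ℤ O) ℤ) i j
          + (f : ℤ) * L x i j := by
      intro i j
      have h2 : (f : O) * x = (f : ℤ) • x := by simp
      rw [h2]
      unfold L
      rw [map_add, map_one, map_zsmul]
      rfl
    rw [norm_eq]
    show Polynomial.eval _ (Matrix.det (1 - (X : ℤ[X]) • (L (-x)).map C)) = _
    rw [← Polynomial.coe_evalRingHom, RingHom.map_det]
    congr 1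
    ext i j
    rw [h1]
    by_cases hij : i = j
    · subst hij
      simp [L_neg]
    · simp [L_neg, hij]
  have hfin : ∀ u : ℤ, {f : ℕ | R.eval (f : ℤ) = u}.Finite := by
    intro u
    have hne : R - C u ≠ 0 := by
      intro h
      have h2 : R = C u := sub_eq_zero.1 h
      have h3 : R.natDegree = 0 := by rw [h2, natDegree_C]
      have := rk_pos (O := O)
      omega
    have h4 : {f : ℤ | (R - C u).IsRoot f}.Finite := Polynomial.finite_setOfPred_isRoot hne
    refine ((h4.preimage (Nat.cast_injective (R := ℤ)).injOn).subset ?_)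
    intro f hf
    simp only [Set.mem_ofPred_eq] at hf
    simp [Polynomial.IsRoot, hf]
  refine ((hfin 1).union (hfin (-1))).subset fun f hf => ?_
  have h5 : IsUnit (Algebra.norm ℤ (1 + (f : O) * x)) := IsUnit.map (Algebra.norm ℤ) hf
  rw [← heval] at h5
  rcases Int.isUnit_iff.1 h5 with h6 | h6
  · exact Or.inl h6
  · exact Or.inr h6

/-- Finite initial segments are given by divisibility conditions. -/
theorem seg (c : ℕ) (hc : 0 < c) (N : ℕ) : ∃ h f g : ℕ,
    (∀ j, 1 ≤ j → j ≤ N → (∀ i < rk O, (j + i) ∣ h) ∧ (1 + f * j) ∣ g) ∧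
    ∀ x : O, (∀ i < rk O, x + ((c * i : ℕ) : O) ∣ ((c ^ 2 * h : ℕ) : O)) →
      ((c : O) + f * x ∣ ((c ^ 2 * g : ℕ) : O)) → ∃ j, 1 ≤ j ∧ j ≤ N ∧ x = ((c * j : ℕ) : O) := by
  classical
  let h := (N + rk O).factorial
  have hh : c ^ 2 * h ≠ 0 := by
    have := Nat.factorial_ne_zero (N + rk O)
    positivity
  let T : Set O := {x | ∀ i < rk O, x + ((c * i : ℕ) : O) ∣ ((c ^ 2 * h : ℕ) : O)}
  have hT : T.Finite := by
    have hN0 : Algebra.norm ℤ ((c ^ 2 * h : ℕ) : O) ≠ 0 := by
      rw [Ne, Algebra.norm_eq_zero_iff]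
      exact_mod_cast hh
    refine (finite_of_norm (O := O) c hc _ (finite_int_dvd _ hN0)).subset fun x hx i hi => ?_
    have h1 := map_dvd (Algebra.norm ℤ) (hx i hi)
    simpa using h1
  let Bad : Finset O := (hT.toFinset).filter fun x => ¬ ∃ j, 1 ≤ j ∧ j ≤ N ∧ x = ((c * j : ℕ) : O)
  have hBad : ∀ x, x ∈ Bad ↔ x ∈ T ∧ ¬ ∃ j, 1 ≤ j ∧ j ≤ N ∧ x = ((c * j : ℕ) : O) := by
    intro x
    simp [Bad]
  have hBad0 : ∀ x ∈ Bad, x ≠ 0 := by
    intro x hx h0
    have h1 := ((hBad x).1 hx).1 0 rk_pos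
    rw [h0] at h1
    simp only [mul_zero, Nat.cast_zero, add_zero, zero_dvd_iff] at h1
    exact hh (by exact_mod_cast h1)
  let K : ℕ := c * ∏ x ∈ Bad, ∏ j ∈ Finset.Icc 1 N,
    (Algebra.norm ℤ (((c * j : ℕ) : O) - x)).natAbs
  have hK0 : K ≠ 0 := by
    refine mul_ne_zero (by omega) ?_
    rw [Finset.prod_ne_zero_iff]
    intro x hx
    rw [Finset.prod_ne_zero_iff]
    intro j hj
    rw [Ne, Int.natAbs_eq_zero, Algebra.norm_eq_zero_iff, sub_eq_zero]
    intro he
    rw [Finset.mem_Icc] at hj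
    exact ((hBad x).1 hx).2 ⟨j, hj.1, hj.2, he.symm⟩
  have hKdvd : ∀ x ∈ Bad, ∀ j, 1 ≤ j → j ≤ N → (((c * j : ℕ) : O) - x) ∣ (K : O) := by
    intro x hx j hj1 hj2
    refine (dvd_norm _).trans ?_
    have h1 : (Algebra.norm ℤ (((c * j : ℕ) : O) - x)) ∣ (K : ℤ) := by
      rw [← Int.natAbs_dvd]
      have h2 : (Algebra.norm ℤ (((c * j : ℕ) : O) - x)).natAbs ∣ K := by
        refine Dvd.dvd.mul_left ?_ c
        refine (Finset.dvd_prod_of_mem (fun j : ℕ =>
          (Algebra.norm ℤ (((c * j : ℕ) : O) - x)).natAbs)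
          (Finset.mem_Icc.2 ⟨hj1, hj2⟩)).trans ?_
        exact Finset.dvd_prod_of_mem (fun x : O => ∏ j ∈ Finset.Icc 1 N,
          (Algebra.norm ℤ (((c * j : ℕ) : O) - x)).natAbs) hx
      exact_mod_cast h2
    have h3 := map_dvd (Int.castRingHom O) h1
    simpa using h3
  have hUfin : {f : ℕ | ∃ x ∈ Bad, IsUnit (1 + (f : O) * x)}.Finite := by
    have : {f : ℕ | ∃ x ∈ Bad, IsUnit (1 + (f : O) * x)} =
        ⋃ x ∈ (Bad : Set O), {f : ℕ | IsUnit (1 + (f : O) * x)} := by
      ext f
      simp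
    rw [this]
    exact Set.Finite.biUnion (Finset.finite_toSet Bad) fun x hx => finite_unit x (hBad0 x hx)
  obtain ⟨k, hk⟩ : ∃ k : ℕ, K * k ∉ {f : ℕ | ∃ x ∈ Bad, IsUnit (1 + (f : O) * x)} := by
    by_contra hcon
    push Not at hcon
    have hinj : Function.Injective fun k : ℕ => K * k := fun a b hab =>
      Nat.eq_of_mul_eq_mul_left (Nat.pos_of_ne_zero hK0) hab
    exact (Set.infinite_range_of_injective hinj) (hUfin.subset (by
      rintro _ ⟨k, rfl⟩
      exact hcon k))
  let f' := K * k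
  refine ⟨h, c * f', ∏ j ∈ Finset.Icc 1 N, (1 + c * f' * j), ?_, ?_⟩
  · intro j hj1 hj2
    refine ⟨fun i hi => Nat.dvd_factorial (by omega) (by omega), ?_⟩
    exact Finset.dvd_prod_of_mem (fun j : ℕ => 1 + c * f' * j) (Finset.mem_Icc.2 ⟨hj1, hj2⟩)
  · intro x hx1 hx2
    by_contra hcon
    have hxB : x ∈ Bad := (hBad x).2 ⟨hx1, hcon⟩
    apply hk
    refine ⟨x, hxB, ?_⟩
    have hc0 : (c : O) ≠ 0 := by exact_mod_cast (by omega : c ≠ 0)
    have hdvd : (1 + (f' : O) * x) ∣ (c : O) * ∏ j ∈ Finset.Icc 1 N, (1 + (c : O) * f' * j) := by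
      obtain ⟨z, hz⟩ := hx2
      refine ⟨z, ?_⟩
      apply mul_left_cancel₀ hc0
      push_cast at hz
      linear_combination hz
    have hcK : c ∣ f' := Dvd.dvd.mul_right (Dvd.intro _ rfl) k
    have hcop1 : IsCoprime (1 + (f' : O) * x) (c : O) := by
      obtain ⟨w, hw⟩ := hcK
      refine ⟨1, -(w * x), ?_⟩
      rw [hw]
      push_cast
      ring
    have hcop2 : ∀ j ∈ Finset.Icc 1 N, IsCoprime (1 + (f' : O) * x) (1 + (c : O) * f' * j) := by
      intro j hj
      rw [Finset.mem_Icc] at hj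
      obtain ⟨w, hw⟩ := hKdvd x hxB j hj.1 hj.2
      have hw' : (f' : O) = (((c * j : ℕ) : O) - x) * (w * k) := by
        show ((K * k : ℕ) : O) = _
        rw [Nat.cast_mul, hw]
        ring
      refine ⟨1 - (w * k) * x * (c * j), (w * k) * x ^ 2, ?_⟩
      have h1 : (((c * j : ℕ) : O) - x) * (w * k) * x = f' * x := by rw [← hw']
      push_cast at h1
      linear_combination (-1 : O) * h1
    have hcop : IsCoprime (1 + (f' : O) * x)
        ((c : O) * ∏ j ∈ Finset.Icc 1 N, (1 + (c : O) * f' * j)) :=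
      IsCoprime.mul_right hcop1 (IsCoprime.prod_right hcop2)
    exact hcop.isUnit_of_dvd' dvd_rfl hdvd

end Pool.Agent.Helper657_nd.J
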