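import Mathlib
import Pool.Agent.Helper948.ProP.F4a

set_option autoImplicit false

/-!
# Computably inseparable sets, atomic constraints with bounded indices
-/

namespace Pool.Agent.Helper657_nd

open Nat.Partrec (Code)

/-- There are disjoint r.e. sets without a computable separator. -/
theorem exists_insep : ∃ A B : ℕ → Prop, REPred A ∧ REPred B ∧ (∀ n, A n → ¬ B n) ∧
    ¬ ∃ C : ℕ → Prop, ComputablePred C ∧ (∀ n, A n → C n) ∧ ∀ n, B n → ¬ C n := by
  let F : ℕ → Part ℕ := fun n => Code.eval (Denumerable.ofNat Code n) n
  have hF : Partrec F := Code.eval_part.comp (Computable.ofNat Code) Computable.id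
  have hre : ∀ m : ℕ, REPred fun n => m ∈ F n := by
    intro m
    have h2 : Partrec fun n => (F n).bind fun v => if v = m then Part.some () else Part.none := by
      refine hF.bind ?_
      have : Partrec fun p : ℕ × ℕ => cond (decide (p.2 = m)) (Part.some ()) Part.none := by
        refine Partrec.cond ?_ (Computable.const ()).partrec Partrec.none
        have : PrimrecPred fun p : ℕ × ℕ => p.2 = m :=
          Primrec.eq.comp Primrec.snd (Primrec.const m)
        exact this.decide.to_comp
      refine this.of_eq fun p => ?_
      by_cases h : p.2 = m <;> simp [h]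
    refine (Partrec.of_eq h2 fun n => ?_)
    apply Part.ext
    intro u
    simp only [Part.mem_bind_iff, Part.mem_assert_iff, Part.mem_some_iff]
    constructor
    · rintro ⟨v, hv, hu⟩
      by_cases h : v = m
      · subst h; exact ⟨hv, trivial⟩
      · simp [h] at hu
    · rintro ⟨hm, _⟩
      exact ⟨m, hm, by simp⟩
  refine ⟨fun n => 0 ∈ F n, fun n => 1 ∈ F n, hre 0, hre 1, ?_, ?_⟩
  · intro n h0 h1
    have := Part.mem_unique h0 h1
    omega
  · rintro ⟨C, ⟨D, hD⟩, hA, hB⟩
    have hf : Computable fun n => cond (decide (C n)) 1 0 :=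
      Computable.cond hD (Computable.const 1) (Computable.const 0)
    have hp : Nat.Partrec fun n => Part.some (cond (decide (C n)) 1 0 : ℕ) :=
      Partrec.nat_iff.1 hf.partrec
    obtain ⟨c, hc⟩ := Code.exists_code.1 hp
    have hev : F (Encodable.encode c) =
        Part.some (cond (decide (C (Encodable.encode c))) 1 0 : ℕ) := by
      show Code.eval (Denumerable.ofNat Code (Encodable.encode c)) (Encodable.encode c) = _
      rw [Denumerable.ofNat_encode, hc]
    by_cases h : C (Encodable.encode c)
    · apply hB (Encodable.encode c) _ h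
      rw [hev]
      simp [h]
    · apply h
      apply hA
      rw [hev]
      simp [h]

open Pool.Agent.Helper948.ProP

/-- the indices of the constraint are below `k` -/
def AtLt (k : ℕ) : At → Prop
  | .one i => i < k
  | .add i j l => i < k ∧ j < k ∧ l < k
  | .mul i j l => i < k ∧ j < k ∧ l < k

theorem exists_atLt (L : List At) : ∃ k, 0 < k ∧ ∀ c ∈ L, AtLt k c := by
  induction L with
  | nil => exact ⟨1, one_pos, by simp⟩
  | cons c L ih =>
    obtain ⟨k, hk, h⟩ := ih
    have mono : ∀ k' c, k ≤ k' → AtLt k c → AtLt k' c := by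
      intro k' c hkk hc
      cases c <;> simp only [AtLt] at hc ⊢ <;> omega
    cases c with
    | one i =>
      refine ⟨max k (i + 1), by omega, fun c hc => ?_⟩
      rcases List.mem_cons.1 hc with rfl | hc
      · simp only [AtLt]; omega
      · exact mono _ _ (by omega) (h c hc)
    | add i j l =>
      refine ⟨k + i + j + l + 1, by omega, fun c hc => ?_⟩
      rcases List.mem_cons.1 hc with rfl | hc
      · simp only [AtLt]; omega
      · exact mono _ _ (by omega) (h c hc)
    | mul i j l =>
      refine ⟨k + i + j + l + 1, by omega, fun c hc => ?_⟩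
      rcases List.mem_cons.1 hc with rfl | hc
      · simp only [AtLt]; omega
      · exact mono _ _ (by omega) (h c hc)

/-- Constraints interpreted by three relations. -/
def AtG {G : Type} (o : G → Prop) (ad mu : G → G → G → Prop) (x : ℕ → G) : At → Prop
  | .one i => o (x i)
  | .add i j k => ad (x i) (x j) (x k)
  | .mul i j k => mu (x i) (x j) (x k)

/-- An r.e. set is given by finitely many constraints on finitely many unknowns. -/
theorem exists_atoms_bdd {S : ℕ → Prop} (hS : REPred S) :
    ∃ (k : ℕ) (L : List At), 0 < k ∧ (∀ c ∈ L, AtLt k c) ∧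
      ∀ n, S n ↔ ∃ x : ℕ → ℕ, x 0 = n ∧ ∀ c ∈ L, At.Holds x c := by
  obtain ⟨L, hL⟩ := F4a.exists_atoms hS
  obtain ⟨k, hk, h⟩ := exists_atLt L
  exact ⟨k, L, hk, h, hL⟩

end Pool.Agent.Helper657_nd
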