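import Mathlib

set_option autoImplicit false

/-!
# Computable copies of groups, `Σ_n`-diagrams and decidability

Formulas of the language of groups with parameters are given in prenex form with a matrix in
disjunctive normal form. Every first-order formula can be brought into this form effectively.
-/

namespace Pool.Agent.Helper657_nd

/-- `cons g s` is the sequence `g, s 0, s 1, ...`. -/
def cons {G : Type} (g : G) (s : ℕ → G) : ℕ → G
  | 0 => g
  | n + 1 => s n

/-- A word over the parameter set `P`, i.e. a term of the language of groups with parameters.
The letter `(inl i, b)` is the variable with de Bruijn index `i` (the variable bound by the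
quantifier number `i`, counted from the innermost quantifier outwards, starting with `0`), the
letter `(inr a, b)` is the parameter `a`; the flag `b = false` marks an inverse. -/
abbrev Word (P : Type) : Type := List ((ℕ ⊕ P) × Bool)

/-- A quantifier-free formula: a disjunction of conjunctions of literals. The literal `(w, true)`
is the equation `w = 1`, the literal `(w, false)` is the inequation `w ≠ 1`. -/
abbrev QF (P : Type) : Type := List (List (Word P × Bool))

/-- A prenex formula with parameters from the universe `ω` of a copy: the list of the
quantifiers, outermost first (`true` is `∃`, `false` is `∀`), and the matrix. -/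
abbrev Fml : Type := List Bool × QF ℕ

section
variable {G P : Type} [Group G]

/-- The value of a letter: `ν a` is the element of `G` denoted by the parameter `a`, `s i` is
the value of the variable with index `i`. -/
def letterVal (ν : P → G) (s : ℕ → G) (l : (ℕ ⊕ P) × Bool) : G :=
  if l.2 then Sum.elim s ν l.1 else (Sum.elim s ν l.1)⁻¹

/-- The value of a word: the product of the values of its letters. -/
def wordVal (ν : P → G) (s : ℕ → G) (w : Word P) : G := (w.map (letterVal ν s)).prod

/-- Truth of a quantifier-free formula. -/
def QFHolds (ν : P → G) (M : QF P) (s : ℕ → G) : Prop :=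
  ∃ c ∈ M, ∀ l ∈ c, (wordVal ν s l.1 = 1 ↔ l.2 = true)

/-- Truth of a formula with quantifiers `q` and matrix `M` when the free variables have the
values `s`. -/
def Sat (ν : P → G) (M : QF P) : List Bool → (ℕ → G) → Prop
  | [], s => QFHolds ν M s
  | true :: q, s => ∃ g : G, Sat ν M q (cons g s)
  | false :: q, s => ∀ g : G, Sat ν M q (cons g s)

/-- Truth in `G` of a prenex sentence with parameters (should a variable be free, then it is
given the value `1`). -/
def Holds (ν : ℕ → G) (φ : Fml) : Prop := Sat ν φ.2 φ.1 (fun _ => 1)

/-- A set `K` of elements of `G` is definable with parameters: it is the set of all `x` that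
satisfy some prenex formula with parameters from `G` (all free variables get the value `x`). -/
def DefinableSet (K : Set G) : Prop :=
  ∃ (q : List Bool) (M : QF G), ∀ x : G, x ∈ K ↔ Sat (fun g : G => g) M q (fun _ => x)

end

/-- `Blocks n b q`: the list `q` of quantifiers consists of `n` alternating blocks, the first one
of quantifiers `∃` if `b = true` and `∀` if `b = false` (blocks may be empty). So the prenex
formulas with `Blocks n true q` are the `Σ_n` formulas, those with `Blocks n false q` are the
`Π_n` formulas. -/
def Blocks : ℕ → Bool → List Bool → Prop
  | 0, _, q => q = []
  | n + 1, b, q => ∃ (k : ℕ) (q' : List Bool), q = List.replicate k b ++ q' ∧ Blocks n (!b) q'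

/-- A computable copy of the group `G` with universe `ω`: a bijection of `ω` with `G` for which
multiplication and inversion become computable. -/
def IsCopy {G : Type} [Group G] (e : ℕ ≃ G) : Prop :=
  Computable₂ (fun a b : ℕ => e.symm (e a * e b)) ∧ Computable (fun a : ℕ => e.symm (e a)⁻¹)

/-- The `Σ_n`-diagram of the copy is computable. -/
def SigmaDec {G : Type} [Group G] (n : ℕ) (e : ℕ ≃ G) : Prop :=
  ComputablePred fun φ : Fml => Blocks n true φ.1 ∧ Holds e φ

/-- The elementary diagram of the copy is computable. -/
def FullDec {G : Type} [Group G] (e : ℕ ≃ G) : Prop :=
  ComputablePred fun φ : Fml => Holds e φ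

/-- The group `G` is `n`-decidable: it has a computable copy with computable `Σ_n`-diagram. -/
def NDecidable (n : ℕ) (G : Type) [Group G] : Prop :=
  ∃ e : ℕ ≃ G, IsCopy e ∧ SigmaDec n e

/-- The group `G` is decidable: it has a computable copy with computable elementary diagram. -/
def DecidableGroup (G : Type) [Group G] : Prop :=
  ∃ e : ℕ ≃ G, IsCopy e ∧ FullDec e

end Pool.Agent.Helper657_nd
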