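import Pool.Agent.Helper657_nd.Solv

set_option autoImplicit false

/-!
# Solvable groups in which abelian subgroups have finite Weyl groups
-/

namespace Pool.Agent.Helper657_nd.Solv

open Subgroup
open scoped commutatorElement

variable {G : Type} [Group G]

theorem relIndex_of_conj {D C C' : Subgroup G} {x : G}
    (hD : ∀ h ∈ D, x⁻¹ * h * x ∈ D) (hC : ∀ g ∈ C, x * g * x⁻¹ ∈ C')
    (h : C.relIndex D ≠ 0) : C'.relIndex D ≠ 0 := by
  have hfin : Finite (D ⧸ C.subgroupOf D) := by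
    have : (C.subgroupOf D).FiniteIndex := ⟨h⟩
    infer_instance
  refine relIndex_of_map (L := D) (X := D ⧸ C.subgroupOf D)
    (fun d : D => ((⟨x⁻¹ * d * x, hD d d.2⟩ : D) : D ⧸ C.subgroupOf D)) ?_
  intro a b hab
  rw [QuotientGroup.eq] at hab
  have h1 : (x⁻¹ * a * x)⁻¹ * (x⁻¹ * b * x) ∈ C := hab
  have h2 := hC _ h1
  have h3 : x * ((x⁻¹ * a * x)⁻¹ * (x⁻¹ * b * x)) * x⁻¹ = (a : G)⁻¹ * b := by group
  rwa [h3] at h2

theorem step2 (H : Subgroup G)
    (hW : ∀ A : Subgroup G, A ≤ H → IsAb A →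
      (centralizer (A : Set G)).relIndex (normalizer (A : Set G) ⊓ H) ≠ 0)
    (hD : VAb ⁅H, H⁆) : VAb H := by
  obtain ⟨A₀, hA₀D, hidx, hA₀⟩ := hD
  have hDH : ⁅H, H⁆ ≤ H := by
    rw [commutator_le]
    intro x hx y hy
    rw [commutatorElement_def]
    exact H.mul_mem (H.mul_mem (H.mul_mem hx hy) (H.inv_mem hx)) (H.inv_mem hy)
  have hDn : ∀ x ∈ H, ∀ h ∈ ⁅H, H⁆, x * h * x⁻¹ ∈ ⁅H, H⁆ := by
    intro x hx h hh
    have : x * h * x⁻¹ = ⁅x, h⁆ * h := by
      rw [commutatorElement_def]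
      group
    rw [this]
    exact mul_mem (commutator_mem_commutator hx (hDH hh)) hh
  -- the elements with centralizers of finite index
  have hconjC : ∀ x ∈ H, ∀ d : G, (centralizer {d}).relIndex ⁅H, H⁆ ≠ 0 →
      (centralizer {x * d * x⁻¹}).relIndex ⁅H, H⁆ ≠ 0 := by
    intro x hx d hd
    have h1 := relIndex_of_conj (D := ⁅H, H⁆) (x := x) (C := centralizer {d})
      (C' := centralizer {x * d * x⁻¹}) (fun h hh => by
        have := hDn x⁻¹ (H.inv_mem hx) h hh
        rwa [inv_inv] at this) (fun g hg => by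
        rw [mem_centralizer_singleton_iff] at hg ⊢
        have h2 : x * g * x⁻¹ * (x * d * x⁻¹) = x * (g * d) * x⁻¹ := by group
        rw [h2, hg]
        group) hd
    exact h1
  let FC : Subgroup G :=
    { carrier := {d | d ∈ ⁅H, H⁆ ∧ (centralizer {d}).relIndex ⁅H, H⁆ ≠ 0}
      mul_mem' := by
        rintro a b ⟨ha, ha'⟩ ⟨hb, hb'⟩
        refine ⟨mul_mem ha hb, ?_⟩
        refine relIndex_mono_left (H := centralizer {a} ⊓ centralizer {b}) ?_
          (relIndex_inf_ne_zero ha' hb')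
        rintro g ⟨hg1, hg2⟩
        have hg1' := mem_centralizer_singleton_iff.1 (show g ∈ centralizer {a} from hg1)
        have hg2' := mem_centralizer_singleton_iff.1 (show g ∈ centralizer {b} from hg2)
        rw [mem_centralizer_singleton_iff]
        rw [← mul_assoc, hg1', mul_assoc, hg2', mul_assoc]
      one_mem' := by
        refine ⟨one_mem _, ?_⟩
        refine relIndex_mono_left (H := ⁅H, H⁆) ?_ (by rw [relIndex_self]; exact one_ne_zero)
        intro g _
        rw [mem_centralizer_singleton_iff, mul_one, one_mul]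
      inv_mem' := by
        rintro a ⟨ha, ha'⟩
        refine ⟨inv_mem ha, relIndex_mono_left ?_ ha'⟩
        intro g hg
        rw [mem_centralizer_singleton_iff] at hg ⊢
        exact (Commute.inv_right (show Commute g a from hg)).eq }
  have hA₀FC : A₀ ≤ FC := by
    intro a ha
    refine ⟨hA₀D ha, relIndex_mono_left ?_ hidx⟩
    intro g hg
    rw [mem_centralizer_singleton_iff]
    exact hA₀ g hg a ha
  let B : Subgroup G := FC ⊓ centralizer (FC : Set G)
  have hBab : IsAb B := fun a ha b hb => (mem_centralizer_iff.1 ha.2 b hb.1).symm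
  have hBD : B ≤ ⁅H, H⁆ := fun b hb => hb.1.1
  have hFCn : ∀ x ∈ H, ∀ d ∈ FC, x * d * x⁻¹ ∈ FC := fun x hx d hd =>
    ⟨hDn x hx d hd.1, hconjC x hx d hd.2⟩
  have hBn : H ≤ normalizer (B : Set G) := by
    have key : ∀ x ∈ H, ∀ g ∈ B, x * g * x⁻¹ ∈ B := by
      rintro x hx g ⟨hg1, hg2⟩
      refine ⟨hFCn x hx g hg1, mem_centralizer_iff.2 fun d hd => ?_⟩
      have h1 := hFCn x⁻¹ (H.inv_mem hx) d hd
      rw [inv_inv] at h1
      have h2 := mem_centralizer_iff.1 hg2 _ h1
      have h3 : d * (x * g * x⁻¹) = x * ((x⁻¹ * d * x) * g) * x⁻¹ := by group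
      rw [h3, h2]
      group
    intro x hx
    rw [mem_normalizer_iff]
    intro g
    refine ⟨key x hx g, fun hg => ?_⟩
    have h1 := key x⁻¹ (H.inv_mem hx) _ hg
    have h2 : x⁻¹ * (x * g * x⁻¹) * x⁻¹⁻¹ = g := by group
    rwa [h2] at h1
  have hBidxD : B.relIndex ⁅H, H⁆ ≠ 0 := by
    have hfinQ : Finite (FC ⧸ A₀.subgroupOf FC) := by
      have : (A₀.subgroupOf FC).FiniteIndex := ⟨relIndex_mono_right (fun d hd => hd.1) hidx⟩
      infer_instance
    have h1 : (⨅ q : FC ⧸ A₀.subgroupOf FC, centralizer {((Quotient.out q : FC) : G)}).relIndex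
        ⁅H, H⁆ ≠ 0 := relIndex_iInf_ne_zero fun q => (Quotient.out q).2.2
    refine relIndex_mono_left ?_ (relIndex_inf_ne_zero h1 hidx)
    rintro x ⟨hx1, hx2⟩
    refine ⟨hA₀FC hx2, mem_centralizer_iff.2 fun g hg => ?_⟩
    let q : FC ⧸ A₀.subgroupOf FC := ((⟨g, hg⟩ : FC) : FC ⧸ A₀.subgroupOf FC)
    have h3 : (Quotient.out q)⁻¹ * (⟨g, hg⟩ : FC) ∈ A₀.subgroupOf FC := by
      rw [← QuotientGroup.eq]
      exact Quotient.out_eq q
    have h4 : ((Quotient.out q : FC) : G)⁻¹ * g ∈ A₀ := h3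
    have h5 := mem_centralizer_singleton_iff.1 ((mem_iInf.1 hx1) q)
    have h6 := hA₀ _ h4 x hx2
    have h7 : g = ((Quotient.out q : FC) : G) * (((Quotient.out q : FC) : G)⁻¹ * g) := by group
    calc g * x = ((Quotient.out q : FC) : G) * ((((Quotient.out q : FC) : G)⁻¹ * g) * x) := by group
      _ = ((Quotient.out q : FC) : G) * (x * (((Quotient.out q : FC) : G)⁻¹ * g)) := by rw [h6]
      _ = (((Quotient.out q : FC) : G) * x) * (((Quotient.out q : FC) : G)⁻¹ * g) := by group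
      _ = (x * ((Quotient.out q : FC) : G)) * (((Quotient.out q : FC) : G)⁻¹ * g) := by rw [h5]
      _ = x * g := by group
  let H₁ : Subgroup G := centralizer (B : Set G) ⊓ H
  have hH₁ : H₁.relIndex H ≠ 0 := by
    rw [inf_relIndex_right]
    exact relIndex_mono_right (le_inf hBn le_rfl) (hW B (hBD.trans hDH) hBab)
  have hH₁H : H₁ ≤ H := inf_le_right
  have hH₁B : ∀ x ∈ H₁, ∀ b ∈ B, b * x = x * b := fun x hx b hb =>
    mem_centralizer_iff.1 hx.1 b hb
  let F : Subgroup G := H₁ ⊓ ⁅H, H⁆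
  have hBH₁ : B ≤ H₁ := by
    refine le_inf ?_ (hBD.trans hDH)
    intro b hb
    rw [mem_centralizer_iff]
    exact fun c hc => hBab c hc b hb
  have hBF : B ≤ F := le_inf hBH₁ hBD
  have hBidxF : B.relIndex F ≠ 0 := relIndex_mono_right inf_le_right hBidxD
  have hFn : ∀ x ∈ H₁, ∀ f ∈ F, x * f * x⁻¹ ∈ F := fun x hx f hf =>
    ⟨H₁.mul_mem (H₁.mul_mem hx hf.1) (H₁.inv_mem hx), hDn x (hH₁H hx) f hf.2⟩
  have hfinF : Finite (F ⧸ B.subgroupOf F) := by
    have : (B.subgroupOf F).FiniteIndex := ⟨hBidxF⟩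
    infer_instance
  -- each element of `F` has a centralizer of finite index in `H₁`
  have hcent : ∀ f ∈ F, (centralizer {f}).relIndex H₁ ≠ 0 := by
    intro f hf
    have hfB : ∀ b ∈ B, f * b = b * f := fun b hb => (hH₁B f hf.1 b hb).symm
    let Af := closure ((B : Set G) ∪ {f})
    have hAf : IsAb Af := isAb_adjoin hBab hfB
    have hBAf : B ≤ Af := fun b hb => subset_closure (Or.inl hb)
    have hfAf : f ∈ Af := subset_closure (Or.inr rfl)
    have hN : (normalizer (Af : Set G)).relIndex H₁ ≠ 0 := by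
      refine relIndex_of_map (L := H₁) (X := F ⧸ B.subgroupOf F)
        (fun x : H₁ => ((⟨(x : G) * f * (x : G)⁻¹, hFn x x.2 f hf⟩ : F) : F ⧸ B.subgroupOf F)) ?_
      intro x y hxy
      rw [QuotientGroup.eq] at hxy
      have hc : ((x : G) * f * (x : G)⁻¹)⁻¹ * ((y : G) * f * (y : G)⁻¹) ∈ B := hxy
      set c := ((x : G) * f * (x : G)⁻¹)⁻¹ * ((y : G) * f * (y : G)⁻¹) with hcdef
      have hz : ((x : G)⁻¹ * y) ∈ H₁ := H₁.mul_mem (H₁.inv_mem x.2) y.2
      set z := ((x : G)⁻¹ * y) with hzdef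
      have hxc : c * x = x * c := hH₁B x x.2 c hc
      have h1 : z * f * z⁻¹ = f * c := by
        have h2 : z * f * z⁻¹ = (x : G)⁻¹ * ((y : G) * f * (y : G)⁻¹) * x := by
          rw [hzdef]
          group
        have h3 : (y : G) * f * (y : G)⁻¹ = ((x : G) * f * (x : G)⁻¹) * c := by
          rw [hcdef]
          group
        rw [h2, h3]
        have h4 : (x : G)⁻¹ * ((x : G) * f * (x : G)⁻¹ * c) * x = f * ((x : G)⁻¹ * (c * x)) := by
          group
        rw [h4, hxc, inv_mul_cancel_left]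
      have h5 : z⁻¹ * f * z⁻¹⁻¹ = f * c⁻¹ := by
        have hzc : c * z = z * c := hH₁B z hz c hc
        have h6 : f = z⁻¹ * (f * c) * z := by
          rw [← h1]
          group
        have h7 : z⁻¹ * f * z⁻¹⁻¹ = z⁻¹ * (f * c) * z * (z⁻¹ * c⁻¹ * z) := by group
        have h8 : z⁻¹ * c⁻¹ * z = c⁻¹ := by
          have : c⁻¹ * z = z * c⁻¹ := by
            rw [inv_mul_eq_iff_eq_mul, ← mul_assoc, hzc, mul_inv_cancel_right]
          rw [mul_assoc, this, inv_mul_cancel_left]
        rw [h7, h8, ← h6]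
      have hmap : ∀ w ∈ H₁, w * f * w⁻¹ ∈ Af → ∀ g ∈ Af, w * g * w⁻¹ ∈ Af := by
        intro w hw hwf g hg
        have hle : Af ≤ Af.comap (MulAut.conj w).toMonoidHom := by
          rw [closure_le]
          rintro b (hb | hb)
          · show w * b * w⁻¹ ∈ Af
            rw [← hH₁B w hw b hb, mul_inv_cancel_right]
            exact hBAf hb
          · rw [Set.mem_singleton_iff] at hb
            rw [hb]
            exact hwf
        exact hle hg
      rw [mem_normalizer_iff]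
      intro g
      refine ⟨hmap z hz (by rw [h1]; exact mul_mem hfAf (hBAf hc)) g, fun hg => ?_⟩
      have h9 := hmap z⁻¹ (H₁.inv_mem hz) (by
        rw [h5]; exact mul_mem hfAf (hBAf (B.inv_mem hc))) _ hg
      have h10 : z⁻¹ * (z * g * z⁻¹) * z⁻¹⁻¹ = g := by group
      rwa [h10] at h9
    have hAfH : Af ≤ H := by
      rw [closure_le]
      rintro b (hb | hb)
      · exact hDH (hBD hb)
      · rw [Set.mem_singleton_iff] at hb
        rw [hb]
        exact hDH hf.2
    have hN' : (normalizer (Af : Set G) ⊓ H).relIndex H₁ ≠ 0 :=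
      relIndex_inf_ne_zero hN (by rw [relIndex_eq_one.2 hH₁H]; exact one_ne_zero)
    have h11 := relIndex_ne_zero_trans (hW Af hAfH hAf) hN'
    refine relIndex_mono_left ?_ h11
    exact centralizer_le (Set.singleton_subset_iff.2 hfAf)
  have hcF : (centralizer (F : Set G)).relIndex H₁ ≠ 0 := by
    have h1 : (⨅ q : F ⧸ B.subgroupOf F, centralizer {((Quotient.out q : F) : G)}).relIndex H₁ ≠ 0 :=
      relIndex_iInf_ne_zero fun q => hcent _ (Quotient.out q).2
    have h2 : ((⨅ q : F ⧸ B.subgroupOf F, centralizer {((Quotient.out q : F) : G)}) ⊓ H₁).relIndex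
        H₁ ≠ 0 := by
      rw [inf_relIndex_right]
      exact h1
    refine relIndex_mono_left ?_ h2
    rintro x ⟨hx1, hx2⟩
    rw [mem_centralizer_iff]
    intro g hg
    let q : F ⧸ B.subgroupOf F := ((⟨g, hg⟩ : F) : F ⧸ B.subgroupOf F)
    have h3 : (Quotient.out q)⁻¹ * (⟨g, hg⟩ : F) ∈ B.subgroupOf F := by
      rw [← QuotientGroup.eq]
      exact Quotient.out_eq q
    have h4 : ((Quotient.out q : F) : G)⁻¹ * g ∈ B := h3
    have h5 := mem_centralizer_singleton_iff.1 ((mem_iInf.1 hx1) q)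
    have h6 := hH₁B x hx2 _ h4
    have h7 : g = ((Quotient.out q : F) : G) * (((Quotient.out q : F) : G)⁻¹ * g) := by group
    calc g * x = ((Quotient.out q : F) : G) * ((((Quotient.out q : F) : G)⁻¹ * g) * x) := by group
      _ = ((Quotient.out q : F) : G) * (x * (((Quotient.out q : F) : G)⁻¹ * g)) := by rw [h6]
      _ = (((Quotient.out q : F) : G) * x) * (((Quotient.out q : F) : G)⁻¹ * g) := by group
      _ = (x * ((Quotient.out q : F) : G)) * (((Quotient.out q : F) : G)⁻¹ * g) := by rw [h5]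
      _ = x * g := by group
  let H₃ : Subgroup G := centralizer (F : Set G) ⊓ H₁
  have hH₃ : H₃.relIndex H₁ ≠ 0 := by
    rw [inf_relIndex_right]
    exact hcF
  have hH₃H₁ : H₃ ≤ H₁ := inf_le_right
  -- a maximal abelian subgroup of `H₃`
  obtain ⟨A, hAmax⟩ : ∃ A, Maximal (fun x => x ∈ {A : Subgroup G | A ≤ H₃ ∧ IsAb A}) A := by
    apply zorn_le₀
    intro c hc hchain
    by_cases hne : c.Nonempty
    · refine ⟨sSup c, ⟨sSup_le fun A hA => (hc hA).1, ?_⟩, fun z hz => le_sSup hz⟩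
      intro a ha b hb
      rw [mem_sSup_of_directedOn hne hchain.directedOn] at ha hb
      obtain ⟨K, hK, haK⟩ := ha
      obtain ⟨L, hL, hbL⟩ := hb
      rcases hchain.total hK hL with h | h
      · exact (hc hL).2 a (h haK) b hbL
      · exact (hc hK).2 a haK b (h hbL)
    · rw [Set.not_nonempty_iff_eq_empty] at hne
      refine ⟨⊥, ⟨bot_le, ?_⟩, ?_⟩
      · intro a ha b hb
        rw [mem_bot] at ha hb
        rw [ha, hb]
      · intro z hz
        rw [hne] at hz
        exact absurd hz (Set.notMem_empty z)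
  have hA3 : A ≤ H₃ := hAmax.prop.1
  have hAab : IsAb A := hAmax.prop.2
  have hself : ∀ x ∈ H₃, (∀ a ∈ A, x * a = a * x) → x ∈ A := by
    intro x hx hxa
    have h1 : closure ((A : Set G) ∪ {x}) ∈ {A : Subgroup G | A ≤ H₃ ∧ IsAb A} := by
      refine ⟨?_, isAb_adjoin hAab hxa⟩
      rw [closure_le]
      rintro b (hb | hb)
      · exact hA3 hb
      · rw [Set.mem_singleton_iff] at hb
        rw [hb]
        exact hx
    have h2 : A ≤ closure ((A : Set G) ∪ {x}) := fun a ha => subset_closure (Or.inl ha)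
    exact hAmax.le_of_ge h1 h2 (subset_closure (Or.inr rfl))
  have hcomm : ∀ x ∈ H₃, ∀ y ∈ H₃, ⁅x, y⁆ ∈ A := by
    intro x hx y hy
    have h1 : ⁅x, y⁆ ∈ H₃ := by
      rw [commutatorElement_def]
      exact H₃.mul_mem (H₃.mul_mem (H₃.mul_mem hx hy) (H₃.inv_mem hx)) (H₃.inv_mem hy)
    have h2 : ⁅x, y⁆ ∈ F :=
      ⟨hH₃H₁ h1, commutator_mem_commutator (hH₁H (hH₃H₁ hx)) (hH₁H (hH₃H₁ hy))⟩
    refine hself _ h1 fun a ha => ?_
    exact mem_centralizer_iff.1 (hA3 ha).1 _ h2
  have hAn : H₃ ≤ normalizer (A : Set G) :=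
    normal_of_comm hA3 fun x hx a ha => hcomm x hx a (hA3 ha)
  have hAidx : A.relIndex H₃ ≠ 0 := by
    have h1 : (centralizer (A : Set G)).relIndex H₃ ≠ 0 := relIndex_mono_right
      (le_inf hAn (hH₃H₁.trans hH₁H)) (hW A (hA3.trans (hH₃H₁.trans hH₁H)) hAab)
    rw [← inf_relIndex_right] at h1
    refine relIndex_mono_left ?_ h1
    rintro x ⟨hx1, hx2⟩
    exact hself x hx2 fun a ha => (mem_centralizer_iff.1 hx1 a ha).symm
  exact ⟨A, hA3.trans (hH₃H₁.trans hH₁H), relIndex_ne_zero_trans (relIndex_ne_zero_trans hAidx hH₃) hH₁,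
    hAab⟩

theorem vab_of_solvable2 (H : Subgroup G)
    (hW : ∀ A : Subgroup G, A ≤ H → IsAb A →
      (centralizer (A : Set G)).relIndex (normalizer (A : Set G) ⊓ H) ≠ 0)
    (hH : Group.IsSolvable H) : VAb H := by
  have key : ∀ n, ∀ K : Subgroup G, K ≤ H → dsr n K = ⊥ → VAb K := by
    intro n
    induction n with
    | zero =>
      intro K _ hK
      have hK' : K = ⊥ := hK
      refine ⟨K, le_rfl, by rw [relIndex_self]; exact one_ne_zero, ?_⟩
      intro a ha b hb
      rw [hK', mem_bot] at ha hb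
      rw [ha, hb]
    | succ n ih =>
      intro K hKH hK
      have hc : ⁅K, K⁆ ≤ K := by
        rw [commutator_le]
        intro x hx y hy
        rw [commutatorElement_def]
        exact K.mul_mem (K.mul_mem (K.mul_mem hx hy) (K.inv_mem hx)) (K.inv_mem hy)
      refine step2 K (fun A hA hAb => ?_) (ih _ (hc.trans hKH) hK)
      exact relIndex_mono_right (inf_le_inf le_rfl hKH) (hW A (hA.trans hKH) hAb)
  obtain ⟨n, hn⟩ := (Group.isSolvable_def H).1 hH
  refine key n H le_rfl ?_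
  rw [dsr_eq, hn, Subgroup.map_bot]

end Pool.Agent.Helper657_nd.Solv
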