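import Mathlib

set_option autoImplicit false

/-!
# Solvable subgroups when all abelian subgroups are finitely generated with finite Weyl groups
-/

namespace Pool.Agent.Helper657_nd.Solv

open Subgroup
open scoped commutatorElement

variable {G : Type} [Group G]

def IsAb (A : Subgroup G) : Prop := ∀ a ∈ A, ∀ b ∈ A, a * b = b * a

/-- virtually abelian -/
def VAb (H : Subgroup G) : Prop := ∃ B : Subgroup G, B ≤ H ∧ B.relIndex H ≠ 0 ∧ IsAb B

theorem isAb_closure {S : Set G} (h : ∀ a ∈ S, ∀ b ∈ S, a * b = b * a) :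
    IsAb (closure S) := by
  have h1 : ∀ s ∈ S, closure S ≤ centralizer {s} := by
    intro s hs
    rw [closure_le]
    intro t ht
    rw [SetLike.mem_coe, mem_centralizer_singleton_iff]
    exact h t ht s hs
  intro a ha b hb
  have h2 : closure S ≤ centralizer {a} := by
    rw [closure_le]
    intro t ht
    rw [SetLike.mem_coe, mem_centralizer_singleton_iff]
    exact (mem_centralizer_singleton_iff.1 (h1 t ht ha)).symm
  exact (mem_centralizer_singleton_iff.1 (h2 hb)).symm

theorem isAb_adjoin {A : Subgroup G} (hA : IsAb A) {x : G} (hx : ∀ a ∈ A, x * a = a * x) :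
    IsAb (closure ((A : Set G) ∪ {x})) := by
  apply isAb_closure
  rintro a (ha | ha) b (hb | hb)
  · exact hA a ha b hb
  · rw [Set.mem_singleton_iff] at hb
    rw [hb]
    exact (hx a ha).symm
  · rw [Set.mem_singleton_iff] at ha
    rw [ha]
    exact hx b hb
  · rw [Set.mem_singleton_iff] at ha hb
    rw [ha, hb]

theorem relIndex_mono_left {H K L : Subgroup G} (h : H ≤ K) (hH : H.relIndex L ≠ 0) :
    K.relIndex L ≠ 0 := fun h0 => hH (relIndex_eq_zero_of_le_left h h0)

theorem relIndex_mono_right {H K L : Subgroup G} (h : K ≤ L) (hH : H.relIndex L ≠ 0) :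
    H.relIndex K ≠ 0 := fun h0 => hH (relIndex_eq_zero_of_le_right h h0)

/-- a map to a finite quotient with small fibres gives finite index -/
theorem relIndex_of_map {H K L : Subgroup G} {X : Type} [Finite X] (f : K → X)
    (hf : ∀ x y : K, f x = f y → ((x : G)⁻¹ * y) ∈ H) : H.relIndex K ≠ 0 := by
  have hfin : Finite (K ⧸ H.subgroupOf K) := by
    refine Finite.of_injective (fun q => f (Quotient.out q)) ?_
    intro q q' h
    have h1 := hf _ _ h
    have h2 : (Quotient.out q)⁻¹ * (Quotient.out q') ∈ H.subgroupOf K := h1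
    rw [← QuotientGroup.eq] at h2
    simpa using h2
  exact index_ne_zero_of_finite

theorem normal_of_comm {A H : Subgroup G} (hAH : A ≤ H) (h : ∀ x ∈ H, ∀ a ∈ A, ⁅x, a⁆ ∈ A) :
    H ≤ normalizer (A : Set G) := by
  have key : ∀ x ∈ H, ∀ a ∈ A, x * a * x⁻¹ ∈ A := by
    intro x hx a ha
    have : x * a * x⁻¹ = ⁅x, a⁆ * a := by
      rw [commutatorElement_def]
      group
    rw [this]
    exact A.mul_mem (h x hx a ha) ha
  intro x hx
  rw [mem_normalizer_iff]
  intro g
  refine ⟨key x hx g, fun hg => ?_⟩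
  have h1 := key x⁻¹ (H.inv_mem hx) _ hg
  have h2 : x⁻¹ * (x * g * x⁻¹) * x⁻¹⁻¹ = g := by group
  rwa [h2] at h1

theorem powers_index {A B : Subgroup G} (hA : IsAb A) (hfg : A.FG) {m : ℕ} (hm : 0 < m)
    (hB : ∀ a ∈ A, a ^ m ∈ B) : B.relIndex A ≠ 0 := by
  let _ : CommGroup A := { (inferInstance : Group A) with
    mul_comm := fun a b => Subtype.ext (hA a a.2 b b.2) }
  have hfgA : Group.FG A := (Group.fg_iff_subgroup_fg A).2 hfg
  have hfin : Finite (A ⧸ B.subgroupOf A) := by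
    have h1 : Group.FG (A ⧸ B.subgroupOf A) := inferInstance
    apply CommGroup.finite_of_fg_isMulTorsion
    intro q
    obtain ⟨x, rfl⟩ := QuotientGroup.mk_surjective q
    rw [isOfFinOrder_iff_pow_eq_one]
    refine ⟨m, hm, ?_⟩
    rw [← QuotientGroup.mk_pow, QuotientGroup.eq_one_iff]
    exact hB x x.2
  exact index_ne_zero_of_finite

theorem step (hab : ∀ A : Subgroup G, IsAb A → A.FG)
    (hW : ∀ A : Subgroup G, IsAb A →
      (centralizer (A : Set G)).relIndex (normalizer (A : Set G)) ≠ 0)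
    (H : Subgroup G) (hD : VAb ⁅H, H⁆) : VAb H := by
  obtain ⟨A₀, hA₀D, hidx, hA₀⟩ := hD
  have hDH : ⁅H, H⁆ ≤ H := by
    rw [commutator_le]
    intro x hx y hy
    rw [commutatorElement_def]
    exact H.mul_mem (H.mul_mem (H.mul_mem hx hy) (H.inv_mem hx)) (H.inv_mem hy)
  have hDn : ∀ x ∈ H, ∀ h ∈ ⁅H, H⁆, x * h * x⁻¹ ∈ ⁅H, H⁆ := by
    intro x hx h hh
    have : x * h * x⁻¹ = ⁅x, h⁆ * h := by
      rw [commutatorElement_def]
      group
    rw [this]
    exact mul_mem (commutator_mem_commutator hx (hDH hh)) hh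
  let m := (A₀.relIndex ⁅H, H⁆).factorial
  have hm : 0 < m := Nat.factorial_pos _
  have hpow : ∀ h ∈ ⁅H, H⁆, h ^ m ∈ A₀ := by
    intro h hh
    exact (pow_mem_of_relIndex_ne_zero_of_dvd hidx hh fun k hk hk' => Nat.dvd_factorial hk hk').1
  let B : Subgroup G := closure {g | ∃ h ∈ ⁅H, H⁆, h ^ m = g}
  have hBA₀ : B ≤ A₀ := by
    rw [closure_le]
    rintro _ ⟨h, hh, rfl⟩
    exact hpow h hh
  have hBab : IsAb B := fun a ha b hb => hA₀ a (hBA₀ ha) b (hBA₀ hb)
  have hBD : B ≤ ⁅H, H⁆ := hBA₀.trans hA₀D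
  have hBn : H ≤ normalizer (B : Set G) := by
    have key : ∀ x ∈ H, ∀ g ∈ B, x * g * x⁻¹ ∈ B := by
      intro x hx g hg
      have hle : B ≤ B.comap (MulAut.conj x).toMonoidHom := by
        rw [closure_le]
        rintro _ ⟨h, hh, rfl⟩
        show x * h ^ m * x⁻¹ ∈ B
        rw [← conj_pow]
        exact subset_closure ⟨_, hDn x hx h hh, rfl⟩
      exact hle hg
    intro x hx
    rw [mem_normalizer_iff]
    intro g
    refine ⟨key x hx g, fun hg => ?_⟩
    have h1 := key x⁻¹ (H.inv_mem hx) _ hg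
    have h2 : x⁻¹ * (x * g * x⁻¹) * x⁻¹⁻¹ = g := by group
    rwa [h2] at h1
  have hBidxD : B.relIndex ⁅H, H⁆ ≠ 0 := by
    refine relIndex_ne_zero_trans (K := A₀) ?_ hidx
    exact powers_index hA₀ (hab A₀ hA₀) hm fun a ha => subset_closure ⟨a, hA₀D ha, rfl⟩
  let H₁ : Subgroup G := centralizer (B : Set G) ⊓ H
  have hH₁ : H₁.relIndex H ≠ 0 := by
    rw [inf_relIndex_right]
    exact relIndex_mono_right hBn (hW B hBab)
  have hH₁H : H₁ ≤ H := inf_le_right
  have hH₁B : ∀ x ∈ H₁, ∀ b ∈ B, b * x = x * b := fun x hx b hb =>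
    mem_centralizer_iff.1 hx.1 b hb
  let F : Subgroup G := H₁ ⊓ ⁅H, H⁆
  have hBH₁ : B ≤ H₁ := by
    refine le_inf ?_ (hBD.trans hDH)
    intro b hb
    rw [mem_centralizer_iff]
    exact fun c hc => hBab c hc b hb
  have hBF : B ≤ F := le_inf hBH₁ hBD
  have hBidxF : B.relIndex F ≠ 0 := relIndex_mono_right inf_le_right hBidxD
  have hFn : ∀ x ∈ H₁, ∀ f ∈ F, x * f * x⁻¹ ∈ F := fun x hx f hf =>
    ⟨H₁.mul_mem (H₁.mul_mem hx hf.1) (H₁.inv_mem hx), hDn x (hH₁H hx) f hf.2⟩
  have hfinF : Finite (F ⧸ B.subgroupOf F) := by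
    have : (B.subgroupOf F).FiniteIndex := ⟨hBidxF⟩
    infer_instance
  -- each element of `F` has a centralizer of finite index in `H₁`
  have hcent : ∀ f ∈ F, (centralizer {f}).relIndex H₁ ≠ 0 := by
    intro f hf
    have hfB : ∀ b ∈ B, f * b = b * f := fun b hb => (hH₁B f hf.1 b hb).symm
    let Af := closure ((B : Set G) ∪ {f})
    have hAf : IsAb Af := isAb_adjoin hBab hfB
    have hBAf : B ≤ Af := fun b hb => subset_closure (Or.inl hb)
    have hfAf : f ∈ Af := subset_closure (Or.inr rfl)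
    have hN : (normalizer (Af : Set G)).relIndex H₁ ≠ 0 := by
      refine relIndex_of_map (L := H₁) (X := F ⧸ B.subgroupOf F)
        (fun x : H₁ => ((⟨(x : G) * f * (x : G)⁻¹, hFn x x.2 f hf⟩ : F) : F ⧸ B.subgroupOf F)) ?_
      intro x y hxy
      rw [QuotientGroup.eq] at hxy
      have hc : ((x : G) * f * (x : G)⁻¹)⁻¹ * ((y : G) * f * (y : G)⁻¹) ∈ B := hxy
      set c := ((x : G) * f * (x : G)⁻¹)⁻¹ * ((y : G) * f * (y : G)⁻¹) with hcdef
      have hz : ((x : G)⁻¹ * y) ∈ H₁ := H₁.mul_mem (H₁.inv_mem x.2) y.2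
      set z := ((x : G)⁻¹ * y) with hzdef
      have hxc : c * x = x * c := hH₁B x x.2 c hc
      have h1 : z * f * z⁻¹ = f * c := by
        have h2 : z * f * z⁻¹ = (x : G)⁻¹ * ((y : G) * f * (y : G)⁻¹) * x := by
          rw [hzdef]
          group
        have h3 : (y : G) * f * (y : G)⁻¹ = ((x : G) * f * (x : G)⁻¹) * c := by
          rw [hcdef]
          group
        rw [h2, h3]
        have h4 : (x : G)⁻¹ * ((x : G) * f * (x : G)⁻¹ * c) * x = f * ((x : G)⁻¹ * (c * x)) := by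
          group
        rw [h4, hxc, inv_mul_cancel_left]
      have h5 : z⁻¹ * f * z⁻¹⁻¹ = f * c⁻¹ := by
        have hzc : c * z = z * c := hH₁B z hz c hc
        have h6 : f = z⁻¹ * (f * c) * z := by
          rw [← h1]
          group
        have h7 : z⁻¹ * f * z⁻¹⁻¹ = z⁻¹ * (f * c) * z * (z⁻¹ * c⁻¹ * z) := by group
        have h8 : z⁻¹ * c⁻¹ * z = c⁻¹ := by
          have : c⁻¹ * z = z * c⁻¹ := by
            rw [inv_mul_eq_iff_eq_mul, ← mul_assoc, hzc, mul_inv_cancel_right]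
          rw [mul_assoc, this, inv_mul_cancel_left]
        rw [h7, h8, ← h6]
      have hmap : ∀ w ∈ H₁, w * f * w⁻¹ ∈ Af → ∀ g ∈ Af, w * g * w⁻¹ ∈ Af := by
        intro w hw hwf g hg
        have hle : Af ≤ Af.comap (MulAut.conj w).toMonoidHom := by
          rw [closure_le]
          rintro b (hb | hb)
          · show w * b * w⁻¹ ∈ Af
            rw [← hH₁B w hw b hb, mul_inv_cancel_right]
            exact hBAf hb
          · rw [Set.mem_singleton_iff] at hb
            rw [hb]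
            exact hwf
        exact hle hg
      rw [mem_normalizer_iff]
      intro g
      refine ⟨hmap z hz (by rw [h1]; exact mul_mem hfAf (hBAf hc)) g, fun hg => ?_⟩
      have h9 := hmap z⁻¹ (H₁.inv_mem hz) (by
        rw [h5]; exact mul_mem hfAf (hBAf (B.inv_mem hc))) _ hg
      have h10 : z⁻¹ * (z * g * z⁻¹) * z⁻¹⁻¹ = g := by group
      rwa [h10] at h9
    have h11 := relIndex_ne_zero_trans (hW Af hAf) hN
    refine relIndex_mono_left ?_ h11
    exact centralizer_le (Set.singleton_subset_iff.2 hfAf)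
  have hcF : (centralizer (F : Set G)).relIndex H₁ ≠ 0 := by
    have h1 : (⨅ q : F ⧸ B.subgroupOf F, centralizer {((Quotient.out q : F) : G)}).relIndex H₁ ≠ 0 :=
      relIndex_iInf_ne_zero fun q => hcent _ (Quotient.out q).2
    have h2 : ((⨅ q : F ⧸ B.subgroupOf F, centralizer {((Quotient.out q : F) : G)}) ⊓ H₁).relIndex
        H₁ ≠ 0 := by
      rw [inf_relIndex_right]
      exact h1
    refine relIndex_mono_left ?_ h2
    rintro x ⟨hx1, hx2⟩
    rw [mem_centralizer_iff]
    intro g hg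
    let q : F ⧸ B.subgroupOf F := ((⟨g, hg⟩ : F) : F ⧸ B.subgroupOf F)
    have h3 : (Quotient.out q)⁻¹ * (⟨g, hg⟩ : F) ∈ B.subgroupOf F := by
      rw [← QuotientGroup.eq]
      exact Quotient.out_eq q
    have h4 : ((Quotient.out q : F) : G)⁻¹ * g ∈ B := h3
    have h5 := mem_centralizer_singleton_iff.1 ((mem_iInf.1 hx1) q)
    have h6 := hH₁B x hx2 _ h4
    have h7 : g = ((Quotient.out q : F) : G) * (((Quotient.out q : F) : G)⁻¹ * g) := by group
    calc g * x = ((Quotient.out q : F) : G) * ((((Quotient.out q : F) : G)⁻¹ * g) * x) := by group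
      _ = ((Quotient.out q : F) : G) * (x * (((Quotient.out q : F) : G)⁻¹ * g)) := by rw [h6]
      _ = (((Quotient.out q : F) : G) * x) * (((Quotient.out q : F) : G)⁻¹ * g) := by group
      _ = (x * ((Quotient.out q : F) : G)) * (((Quotient.out q : F) : G)⁻¹ * g) := by rw [h5]
      _ = x * g := by group
  let H₃ : Subgroup G := centralizer (F : Set G) ⊓ H₁
  have hH₃ : H₃.relIndex H₁ ≠ 0 := by
    rw [inf_relIndex_right]
    exact hcF
  have hH₃H₁ : H₃ ≤ H₁ := inf_le_right
  -- a maximal abelian subgroup of `H₃`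
  obtain ⟨A, hAmax⟩ : ∃ A, Maximal (fun x => x ∈ {A : Subgroup G | A ≤ H₃ ∧ IsAb A}) A := by
    apply zorn_le₀
    intro c hc hchain
    by_cases hne : c.Nonempty
    · refine ⟨sSup c, ⟨sSup_le fun A hA => (hc hA).1, ?_⟩, fun z hz => le_sSup hz⟩
      intro a ha b hb
      rw [mem_sSup_of_directedOn hne hchain.directedOn] at ha hb
      obtain ⟨K, hK, haK⟩ := ha
      obtain ⟨L, hL, hbL⟩ := hb
      rcases hchain.total hK hL with h | h
      · exact (hc hL).2 a (h haK) b hbL
      · exact (hc hK).2 a haK b (h hbL)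
    · rw [Set.not_nonempty_iff_eq_empty] at hne
      refine ⟨⊥, ⟨bot_le, ?_⟩, ?_⟩
      · intro a ha b hb
        rw [mem_bot] at ha hb
        rw [ha, hb]
      · intro z hz
        rw [hne] at hz
        exact absurd hz (Set.notMem_empty z)
  have hA3 : A ≤ H₃ := hAmax.prop.1
  have hAab : IsAb A := hAmax.prop.2
  have hself : ∀ x ∈ H₃, (∀ a ∈ A, x * a = a * x) → x ∈ A := by
    intro x hx hxa
    have h1 : closure ((A : Set G) ∪ {x}) ∈ {A : Subgroup G | A ≤ H₃ ∧ IsAb A} := by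
      refine ⟨?_, isAb_adjoin hAab hxa⟩
      rw [closure_le]
      rintro b (hb | hb)
      · exact hA3 hb
      · rw [Set.mem_singleton_iff] at hb
        rw [hb]
        exact hx
    have h2 : A ≤ closure ((A : Set G) ∪ {x}) := fun a ha => subset_closure (Or.inl ha)
    exact hAmax.le_of_ge h1 h2 (subset_closure (Or.inr rfl))
  have hcomm : ∀ x ∈ H₃, ∀ y ∈ H₃, ⁅x, y⁆ ∈ A := by
    intro x hx y hy
    have h1 : ⁅x, y⁆ ∈ H₃ := by
      rw [commutatorElement_def]
      exact H₃.mul_mem (H₃.mul_mem (H₃.mul_mem hx hy) (H₃.inv_mem hx)) (H₃.inv_mem hy)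
    have h2 : ⁅x, y⁆ ∈ F :=
      ⟨hH₃H₁ h1, commutator_mem_commutator (hH₁H (hH₃H₁ hx)) (hH₁H (hH₃H₁ hy))⟩
    refine hself _ h1 fun a ha => ?_
    exact mem_centralizer_iff.1 (hA3 ha).1 _ h2
  have hAn : H₃ ≤ normalizer (A : Set G) :=
    normal_of_comm hA3 fun x hx a ha => hcomm x hx a (hA3 ha)
  have hAidx : A.relIndex H₃ ≠ 0 := by
    have h1 : (centralizer (A : Set G)).relIndex H₃ ≠ 0 := relIndex_mono_right hAn (hW A hAab)
    rw [← inf_relIndex_right] at h1
    refine relIndex_mono_left ?_ h1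
    rintro x ⟨hx1, hx2⟩
    exact hself x hx2 fun a ha => (mem_centralizer_iff.1 hx1 a ha).symm
  exact ⟨A, hA3.trans (hH₃H₁.trans hH₁H), relIndex_ne_zero_trans (relIndex_ne_zero_trans hAidx hH₃) hH₁,
    hAab⟩

/-- iterated commutator subgroups -/
def dsr : ℕ → Subgroup G → Subgroup G
  | 0, H => H
  | n + 1, H => dsr n ⁅H, H⁆

theorem dsr_succ (n : ℕ) : ∀ H : Subgroup G, dsr (n + 1) H = ⁅dsr n H, dsr n H⁆ := by
  induction n with
  | zero => intro H; rfl
  | succ n ih => intro H; exact ih ⁅H, H⁆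

theorem dsr_eq (H : Subgroup G) (n : ℕ) : dsr n H = (derivedSeries H n).map H.subtype := by
  induction n with
  | zero => simp [dsr, derivedSeries_zero, ← MonoidHom.range_eq_map]
  | succ n ih => rw [dsr_succ, ih, derivedSeries_succ, map_commutator]

theorem vab_of_solvable (hab : ∀ A : Subgroup G, IsAb A → A.FG)
    (hW : ∀ A : Subgroup G, IsAb A →
      (centralizer (A : Set G)).relIndex (normalizer (A : Set G)) ≠ 0)
    (H : Subgroup G) (hH : Group.IsSolvable H) : VAb H := by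
  have key : ∀ n, ∀ H : Subgroup G, dsr n H = ⊥ → VAb H := by
    intro n
    induction n with
    | zero =>
      intro H hH
      have hH' : H = ⊥ := hH
      refine ⟨H, le_rfl, by rw [relIndex_self]; exact one_ne_zero, ?_⟩
      intro a ha b hb
      rw [hH', mem_bot] at ha hb
      rw [ha, hb]
    | succ n ih => intro H hH; exact step hab hW H (ih _ hH)
  obtain ⟨n, hn⟩ := (Group.isSolvable_def H).1 hH
  refine key n H ?_
  rw [dsr_eq, hn, Subgroup.map_bot]

end Pool.Agent.Helper657_nd.Solv
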