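import Pool.Agent.Helper657_nd.WeylFinal
import Pool.Agent.Helper657_nd.Solv

set_option autoImplicit false

/-!
# Groups all of whose abelian subgroups are finitely generated
-/

namespace Pool.Agent.Helper657_nd.Solv

open Subgroup

variable {G : Type} [Group G]

/-- The centralizer of a finitely generated subgroup is definable with parameters. -/
theorem centralizer_def {H : Subgroup G} (hfg : H.FG) :
    DefinableSet (centralizer (H : Set G) : Set G) := by
  obtain ⟨T, hT⟩ := hfg
  apply Df.definableSet
  have h1 : Df fun s : ℕ → G => ∀ b ∈ T.toList, s 0 * b = b * s 0 :=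
    Df.forallList T.toList fun b _ => Df.eq ((Tm.var 0).mul (Tm.const b))
      ((Tm.const b).mul (Tm.var 0))
  refine h1.congr fun s => ?_
  rw [← hT]
  constructor
  · intro h2 b hb
    have := Subgroup.mem_centralizer_iff.1 h2 b
      (Subgroup.subset_closure (Finset.mem_toList.1 hb))
    exact this.symm
  · intro h2
    have h3 : Subgroup.closure (T : Set G) ≤ Subgroup.centralizer {s 0} := by
      rw [Subgroup.closure_le]
      intro b hb
      rw [SetLike.mem_coe, Subgroup.mem_centralizer_singleton_iff]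
      exact (h2 b (Finset.mem_toList.2 hb)).symm
    rw [SetLike.mem_coe, Subgroup.mem_centralizer_iff]
    intro b hb
    exact Subgroup.mem_centralizer_singleton_iff.1 (h3 hb)

/-- The centre of the centralizer of a set. -/
def cc (A : Subgroup G) : Subgroup G :=
  centralizer (A : Set G) ⊓ centralizer (centralizer (A : Set G) : Set G)

theorem isAb_cc (A : Subgroup G) : IsAb (cc A) := by
  intro a ha b hb
  exact (Subgroup.mem_centralizer_iff.1 ha.2 b hb.1).symm

theorem cc_def {A : Subgroup G} (hA : DefinableSet (centralizer (A : Set G) : Set G)) :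
    DefinableSet (cc A : Set G) := by
  apply Df.definableSet
  have h1 : Df fun s : ℕ → G => s 0 ∈ (centralizer (A : Set G) : Set G) ∧
      ∀ y, y ∈ (centralizer (A : Set G) : Set G) → y * s 0 = s 0 * y := by
    refine (DefinableSet.df hA (Tm.var 0)).and ?_
    apply Df.uni (R := fun y s => y ∈ (centralizer (A : Set G) : Set G) → y * s 0 = s 0 * y)
    exact (DefinableSet.df hA (Tm.var 0)).imp
      (Df.eq ((Tm.var 0).mul (Tm.var 1)) ((Tm.var 1).mul (Tm.var 0)))
  refine h1.congr fun s => ?_
  rw [SetLike.mem_coe, cc, Subgroup.mem_inf, Subgroup.mem_centralizer_iff (G := G)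
    (s := (centralizer (A : Set G) : Set G))]
  rfl

theorem le_cc {A : Subgroup G} (hA : IsAb A) : A ≤ cc A := by
  intro a ha
  refine ⟨?_, ?_⟩
  · exact Subgroup.mem_centralizer_iff.2 fun b hb => hA b hb a ha
  · exact Subgroup.mem_centralizer_iff.2 fun y hy =>
      (Subgroup.mem_centralizer_iff.1 hy a ha).symm

theorem centralizer_normal_aux {S : Subgroup G} {x : G} (hx : x ∈ normalizer (S : Set G)) {g : G}
    (hg : g ∈ centralizer (S : Set G)) : x * g * x⁻¹ ∈ centralizer (S : Set G) := by
  rw [Subgroup.mem_centralizer_iff]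
  intro a ha
  have h1 : x⁻¹ * a * x ∈ S := by
    have := (Subgroup.mem_normalizer_iff.1 hx (x⁻¹ * a * x)).2
    apply this
    have h2 : x * (x⁻¹ * a * x) * x⁻¹ = a := by group
    rw [h2]
    exact ha
  have h2 := Subgroup.mem_centralizer_iff.1 hg _ h1
  have h3 : a * (x * g * x⁻¹) = x * ((x⁻¹ * a * x) * g) * x⁻¹ := by group
  rw [h3, h2]
  group

theorem mem_normalizer_of_conj {S : Subgroup G} {x : G} (h1 : ∀ g ∈ S, x * g * x⁻¹ ∈ S)
    (h2 : ∀ g ∈ S, x⁻¹ * g * x⁻¹⁻¹ ∈ S) : x ∈ normalizer (S : Set G) := by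
  rw [Subgroup.mem_normalizer_iff]
  intro g
  refine ⟨h1 g, fun h => ?_⟩
  have h3 := h2 _ h
  have h4 : x⁻¹ * (x * g * x⁻¹) * x⁻¹⁻¹ = g := by group
  rwa [h4] at h3

theorem normalizer_le_centralizer (S : Subgroup G) :
    normalizer (S : Set G) ≤ normalizer (centralizer (S : Set G) : Set G) := by
  intro x hx
  refine mem_normalizer_of_conj (fun g hg => centralizer_normal_aux hx hg) fun g hg =>
    centralizer_normal_aux (Subgroup.inv_mem _ hx) hg

theorem normalizer_le_cc (S : Subgroup G) :
    normalizer (S : Set G) ≤ normalizer (cc S : Set G) := by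
  intro x hx
  have h1 := normalizer_le_centralizer S hx
  have h2 := normalizer_le_centralizer _ h1
  refine mem_normalizer_of_conj (fun g hg => ?_) fun g hg => ?_
  · exact ⟨(Subgroup.mem_normalizer_iff.1 h1 g).1 hg.1, (Subgroup.mem_normalizer_iff.1 h2 g).1 hg.2⟩
  · exact ⟨(Subgroup.mem_normalizer_iff.1 (Subgroup.inv_mem _ h1) g).1 hg.1,
      (Subgroup.mem_normalizer_iff.1 (Subgroup.inv_mem _ h2) g).1 hg.2⟩

/-- Local form: an abelian subgroup with infinite Weyl group. -/
theorem weyl_of_fg (hab : ∀ A : Subgroup G, IsAb A → A.FG) (A : Subgroup G) (hA : IsAb A)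
    (hidx : (centralizer (A : Set G)).relIndex (normalizer (A : Set G)) = 0) :
    Undec G := by
  refine Weyl.finiteWeyl (cc A) (hab _ (isAb_cc A)) (isAb_cc A)
    (cc_def (centralizer_def (hab A hA))) ?_
  by_contra hne
  have h1 : (centralizer (cc A : Set G)).relIndex (normalizer (A : Set G)) ≠ 0 :=
    relIndex_mono_right (normalizer_le_cc A) hne
  exact relIndex_mono_left (Subgroup.centralizer_le (le_cc hA)) h1 hidx

theorem main (hab : ∀ A : Subgroup G, IsAb A → A.FG) (H : Subgroup G)
    (hH : Group.IsSolvable H) (hV : ¬ VAb H) : Undec G := by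
  by_contra hcon
  refine hV (vab_of_solvable hab (fun A hA h0 => hcon ?_) H hH)
  exact weyl_of_fg hab A hA h0

end Pool.Agent.Helper657_nd.Solv
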