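import Pool.Agent.Helper657_nd.CommX
import Pool.Agent.Helper657_nd.Solv2
import Pool.Agent.Helper657_nd.SolvFinal

set_option autoImplicit false

/-!
# Minimax groups with finite torsion: finiteness of `M / κ M`
-/

namespace Pool.Agent.Helper657_nd.Seg

theorem finite_mod_fg {P : Type} [AddCommGroup P] [Module.Finite ℤ P] (κ : ℕ) (hκ : 0 < κ) :
    ∃ F : Finset P, ∀ y : P, ∃ f ∈ F, ∃ z : P, y = f + κ • z := by
  classical
  let R : Submodule ℤ P := LinearMap.range ((κ : ℤ) • LinearMap.id : P →ₗ[ℤ] P)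
  have hRfin : Finite (P ⧸ R) := by
    apply Module.finite_of_fg_torsion
    intro q
    obtain ⟨y, rfl⟩ := Submodule.mkQ_surjective R q
    refine ⟨⟨(κ : ℤ), mem_nonZeroDivisors_of_ne_zero (by exact_mod_cast hκ.ne')⟩, ?_⟩
    show (κ : ℤ) • R.mkQ y = 0
    rw [← map_smul, Submodule.mkQ_apply, Submodule.Quotient.mk_eq_zero]
    exact ⟨y, rfl⟩
  have := Fintype.ofFinite (P ⧸ R)
  refine ⟨Finset.univ.image (fun q : P ⧸ R => Quotient.out q), fun y => ?_⟩
  refine ⟨Quotient.out (R.mkQ y), Finset.mem_image_of_mem _ (Finset.mem_univ _), ?_⟩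
  have h1 : y - Quotient.out (R.mkQ y) ∈ R := by
    rw [← Submodule.Quotient.mk_eq_zero, ← Submodule.mkQ_apply, map_sub, sub_eq_zero]
    exact (Quotient.out_eq (R.mkQ y)).symm
  obtain ⟨z, hz⟩ := h1
  refine ⟨z, ?_⟩
  have h2 : κ • z = y - Quotient.out (R.mkQ y) := by
    rw [← hz, LinearMap.smul_apply, natCast_zsmul]
    rfl
  rw [h2]
  abel

theorem MM.finite_mod {M : Type} [AddCommGroup M] {s : ℕ} (hs : 0 < s)
    (hT : {y : M | ∃ n : ℕ, n ≠ 0 ∧ n • y = 0}.Finite) (h : MM s M) (κ : ℕ) (hκ : 0 < κ) :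
    ∃ F : Set M, F.Finite ∧ ∀ y : M, ∃ f ∈ F, ∃ z : M, y = f + κ • z := by
  classical
  obtain ⟨P, hP, hS⟩ := h.exists_submodule
  have hPfin : Module.Finite ℤ P := Module.Finite.iff_fg.2 hP
  let s' := s * κ
  have hs' : 0 < s' := Nat.mul_pos hs hκ
  have hS' : ∀ y : M, ∃ k : ℕ, s' ^ k • y ∈ P := by
    intro y
    obtain ⟨k, hk⟩ := hS y
    refine ⟨k, ?_⟩
    rw [mul_pow, mul_comm, mul_smul]
    exact P.smul_of_tower_mem _ hk
  have htor : ∀ x : M ⧸ P, ∃ i : ℕ, s' ^ i • x = 0 := by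
    intro x
    obtain ⟨y, rfl⟩ := Submodule.mkQ_surjective P x
    obtain ⟨k, hk⟩ := hS' y
    refine ⟨k, ?_⟩
    rw [← map_nsmul, Submodule.mkQ_apply, Submodule.Quotient.mk_eq_zero]
    exact hk
  have hfin : {x : M ⧸ P | s' • x = 0}.Finite := by
    obtain ⟨F₁, hF₁⟩ := finite_mod_fg (P := P) s' hs'
    have hch : ∀ x : M ⧸ P, s' • x = 0 → ∃ f ∈ F₁, ∃ y : M, P.mkQ y = x ∧ s' • y = f := by
      intro x hx
      obtain ⟨y, rfl⟩ := Submodule.mkQ_surjective P x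
      have h1 : s' • P.mkQ y = 0 := hx
      rw [← map_nsmul, Submodule.mkQ_apply, Submodule.Quotient.mk_eq_zero] at h1
      obtain ⟨f, hf, z, hz⟩ := hF₁ ⟨_, h1⟩
      refine ⟨f, hf, y - z, ?_, ?_⟩
      · rw [map_sub, sub_eq_self, Submodule.mkQ_apply, Submodule.Quotient.mk_eq_zero]
        exact z.2
      · have h2 := congrArg (fun w : P => (w : M)) hz
        have h3 : s' • y = (f : M) + s' • (z : M) := h2
        rw [smul_sub, h3]
        abel
    have h1 : {x : M ⧸ P | s' • x = 0} ⊆ ⋃ f ∈ (F₁ : Set P), P.mkQ '' {y : M | s' • y = f} := by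
      intro x hx
      obtain ⟨f, hf, y, hy, hy'⟩ := hch x hx
      rw [Set.mem_iUnion₂]
      exact ⟨f, hf, y, hy', hy⟩
    refine (Set.Finite.biUnion (Finset.finite_toSet F₁) fun f _ => ?_).subset h1
    apply Set.Finite.image
    by_cases hne : ∃ y₀ : M, s' • y₀ = f
    · obtain ⟨y₀, hy₀⟩ := hne
      refine (hT.image (fun t => y₀ + t)).subset ?_
      intro y hy
      refine ⟨y - y₀, ⟨s', hs'.ne', ?_⟩, by abel⟩
      rw [smul_sub, hy₀]
      exact sub_eq_zero.2 hy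
    · push Not at hne
      have : {y : M | s' • y = f} = ∅ := by
        ext y
        simp [hne y]
      rw [this]
      exact Set.finite_empty
  have hfinj : ∀ j : ℕ, {x : M ⧸ P | s' ^ j • x = 0}.Finite := by
    intro j
    induction j with
    | zero =>
      refine (Set.finite_singleton (0 : M ⧸ P)).subset ?_
      intro x hx
      have : s' ^ 0 • x = 0 := hx
      rwa [pow_zero, one_smul] at this
    | succ j ih =>
      refine Set.Finite.of_finite_fibers (fun x => s' • x) (ih.subset ?_) ?_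
      · rintro _ ⟨x, hx, rfl⟩
        show s' ^ j • s' • x = 0
        rw [← mul_smul, ← pow_succ]
        exact hx
      · rintro _ ⟨x₀, -, rfl⟩
        refine (hfin.image (fun t => x₀ + t)).subset ?_
        rintro x ⟨-, hx⟩
        refine ⟨x - x₀, ?_, by abel⟩
        show s' • (x - x₀) = 0
        rw [smul_sub]
        exact sub_eq_zero.2 hx
  obtain ⟨j₀, hj₀⟩ := exists_stab htor hfin (⊤ : Submodule ℤ (M ⧸ P))
  obtain ⟨F₁, hF₁⟩ := finite_mod_fg (P := P) κ hκ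
  let F₂ : Set M := (fun x : M ⧸ P => Quotient.out x) '' {x : M ⧸ P | s' ^ j₀ • x = 0}
  have hF₂ : F₂.Finite := (hfinj j₀).image _
  refine ⟨Set.image2 (fun (f₁ : P) (f₂ : M) => (f₁ : M) + f₂) F₁ F₂,
    (Finset.finite_toSet F₁).image2 _ hF₂, fun y => ?_⟩
  obtain ⟨d, -, hd⟩ := DivP_div htor hfin ⊤ _ (hj₀ (P.mkQ y) Submodule.mem_top) (j₀ + 1)
  obtain ⟨d', rfl⟩ := Submodule.mkQ_surjective P d
  have h1 : s' ^ j₀ • (P.mkQ y - s' • P.mkQ d') = 0 := by
    rw [smul_sub, hd, pow_succ, mul_smul, sub_self]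
  set f₂ := Quotient.out (P.mkQ y - s' • P.mkQ d') with hf₂
  have h2 : P.mkQ f₂ = P.mkQ y - s' • P.mkQ d' := Quotient.out_eq (P.mkQ y - s' • P.mkQ d')
  have h3 : y - s' • d' - f₂ ∈ P := by
    rw [← Submodule.Quotient.mk_eq_zero, ← Submodule.mkQ_apply, map_sub, map_sub, map_nsmul, h2,
      sub_self]
  obtain ⟨f₁, hf₁, z, hz⟩ := hF₁ ⟨_, h3⟩
  refine ⟨(f₁ : M) + f₂, ⟨f₁, hf₁, f₂, ⟨_, h1, rfl⟩, rfl⟩, (z : M) + s • d', ?_⟩
  have h4 := congrArg (fun w : P => (w : M)) hz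
  have h5 : y - s' • d' - f₂ = (f₁ : M) + κ • (z : M) := h4
  have h6 : κ • s • d' = s' • d' := by
    rw [← mul_smul, mul_comm]
  rw [smul_add, h6]
  have h7 : y = (y - s' • d' - f₂) + s' • d' + f₂ := by abel
  rw [h7, h5]
  abel

end Pool.Agent.Helper657_nd.Seg
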