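import Mathlib

set_option autoImplicit false

/-!
# Elements of free groups that are not proper powers, in cosets of normal subgroups
-/

namespace Pool.Agent.Helper657_nd.FreeL

open FreeGroup List

section center
variable {α : Type}

theorem isReduced_append {L₁ L₂ : List (α × Bool)} (h1 : IsReduced L₁) (h2 : IsReduced L₂)
    (h : ∀ p ∈ L₁.getLast?, ∀ q ∈ L₂.head?, p.1 = q.1 → p.2 = q.2) : IsReduced (L₁ ++ L₂) :=
  List.isChain_append.2 ⟨h1, h2, h⟩

theorem center_trivial {a b : α} (hab : a ≠ b) (z : FreeGroup α) (hz : ∀ y, y * z = z * y) :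
    z = 1 := by
  classical
  by_contra hz1
  have hne : z.toWord ≠ [] := fun h => hz1 (toWord_eq_nil_iff.1 h)
  obtain ⟨p, L', hL⟩ := List.exists_cons_of_ne_nil hne
  let q := z.toWord.getLast hne
  have hq : z.toWord.getLast? = some q := List.getLast?_eq_getLast_of_ne_nil hne
  let c : α × Bool := (if p.1 = a then b else a, q.2)
  have hcp : c.1 ≠ p.1 := by
    show (if p.1 = a then b else a) ≠ p.1
    split_ifs with h
    · rw [h]; exact hab.symm
    · exact fun h2 => h h2.symm
  have hred : IsReduced z.toWord := isReduced_toWord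
  have h1 : IsReduced ([c] ++ z.toWord) := by
    refine isReduced_append IsReduced.singleton hred ?_
    intro p' hp' q' hq' h
    rw [hL] at hq'
    simp only [List.getLast?_singleton, Option.mem_def, Option.some.injEq, List.head?_cons]
      at hp' hq'
    subst hp'
    subst hq'
    exact absurd h hcp
  have h2 : IsReduced (z.toWord ++ [c]) := by
    refine isReduced_append hred IsReduced.singleton ?_
    intro p' hp' q' hq' _
    rw [hq] at hp'
    simp only [Option.mem_def, Option.some.injEq, List.head?_cons] at hp' hq'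
    subst hp'
    subst hq'
    rfl
  have h3 : (mk [c] * z).toWord = [c] ++ z.toWord := by
    conv_lhs => rw [← mk_toWord (x := z), mul_mk]
    rw [toWord_mk, h1.reduce_eq]
  have h4 : (z * mk [c]).toWord = z.toWord ++ [c] := by
    conv_lhs => rw [← mk_toWord (x := z), mul_mk]
    rw [toWord_mk, h2.reduce_eq]
  have h5 : [c] ++ z.toWord = z.toWord ++ [c] := by rw [← h3, ← h4, hz]
  rw [hL] at h5
  have h6 : c = p := by
    have := congrArg List.head? h5
    simpa using this
  exact hcp (by rw [h6])

theorem cyclic_of_subsingleton (h : ∀ a b : α, a = b) :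
    ∃ z : FreeGroup α, ∀ y : FreeGroup α, ∃ k : ℤ, y = z ^ k := by
  by_cases hne : Nonempty α
  · obtain ⟨a₀⟩ := hne
    refine ⟨of a₀, fun y => ?_⟩
    induction y using FreeGroup.induction_on with
    | C1 => exact ⟨0, by rw [zpow_zero]⟩
    | of a => exact ⟨1, by rw [zpow_one, h a a₀]⟩
    | inv_of a _ => exact ⟨-1, by rw [zpow_neg_one, h a a₀]⟩
    | mul x y hx hy =>
      obtain ⟨k, hk⟩ := hx
      obtain ⟨l, hl⟩ := hy
      exact ⟨k + l, by rw [zpow_add, hk, hl]⟩
  · refine ⟨1, fun y => ⟨0, ?_⟩⟩
    have : IsEmpty α := not_nonempty_iff.1 hne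
    exact Subsingleton.elim _ _

theorem cyclic_of_central {C : Type} [Group C] [IsFreeGroup C] (g : C) (hg : g ≠ 1)
    (hz : ∀ y, y * g = g * y) : ∃ z : C, ∀ y, ∃ k : ℤ, y = z ^ k := by
  let e := IsFreeGroup.toFreeGroup C
  by_cases h : ∀ a b : IsFreeGroup.Generators C, a = b
  · obtain ⟨z, hz'⟩ := cyclic_of_subsingleton h
    refine ⟨e.symm z, fun y => ?_⟩
    obtain ⟨k, hk⟩ := hz' (e y)
    refine ⟨k, ?_⟩
    rw [← map_zpow, ← hk, e.symm_apply_apply]
  · push Not at h
    obtain ⟨a, b, hab⟩ := h
    exfalso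
    apply hg
    have h1 := center_trivial hab (e g) (fun y => by
      have h2 := congrArg e (hz (e.symm y))
      rwa [_root_.map_mul, _root_.map_mul, e.apply_symm_apply] at h2)
    exact (map_eq_one_iff e e.injective).1 h1

theorem centralizer_cyclic {F : Type} [Group F] [IsFreeGroup F] (g : F) (hg : g ≠ 1) :
    ∃ z : F, ∀ y, y * g = g * y → ∃ k : ℤ, y = z ^ k := by
  let C := Subgroup.centralizer ({g} : Set F)
  have hgC : g ∈ C := Subgroup.mem_centralizer_singleton_iff.2 rfl
  obtain ⟨z, hz⟩ := cyclic_of_central (C := C) ⟨g, hgC⟩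
    (fun h => hg (congrArg Subtype.val h)) (fun y => Subtype.ext
      (Subgroup.mem_centralizer_singleton_iff.1 y.2))
  refine ⟨z, fun y hy => ?_⟩
  obtain ⟨k, hk⟩ := hz ⟨y, Subgroup.mem_centralizer_singleton_iff.2 hy⟩
  exact ⟨k, congrArg Subtype.val hk⟩

end center

section count
variable {α : Type}

/-- the inverse letter -/
def iv (p : α × Bool) : α × Bool := (p.1, !p.2)

theorem invRev_eq (L : List (α × Bool)) : invRev L = (L.map iv).reverse := rfl

theorem exists_letter {x y : α} (hxy : x ≠ y) (p q : α × Bool) :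
    ∃ v : α × Bool, v ≠ p ∧ v ≠ q := by
  by_contra hcon
  push Not at hcon
  have h1 := hcon (x, true)
  have h2 := hcon (x, false)
  have h3 := hcon (y, true)
  have e1 : ((x, true) : α × Bool) ≠ (x, false) := by simp
  have e2 : ((x, true) : α × Bool) ≠ (y, true) := by
    intro h; exact hxy (congrArg Prod.fst h)
  have e3 : ((x, false) : α × Bool) ≠ (y, true) := by simp
  by_cases a1 : ((x, true) : α × Bool) = p
  · by_cases a2 : ((x, false) : α × Bool) = p
    · exact e1 (a1.trans a2.symm)
    · have b2 := h2 a2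
      by_cases a3 : ((y, true) : α × Bool) = p
      · exact e2 (a1.trans a3.symm)
      · exact e3 (b2.trans (h3 a3).symm)
  · have b1 := h1 a1
    by_cases a2 : ((x, false) : α × Bool) = p
    · by_cases a3 : ((y, true) : α × Bool) = p
      · exact e3 (a2.trans a3.symm)
      · exact e2 (b1.trans (h3 a3).symm)
    · exact e1 (b1.trans (h2 a2).symm)

/-- the inserted word -/
def VW (x y : α) (v1 v2 : α × Bool) (M : ℕ) : List (α × Bool) :=
  (v1 :: (y, v1.2) :: (replicate M (x, true) ++ [(y, v2.2)])) ++ [v2]

theorem VW_red {x y : α} (hxy : x ≠ y) (v1 v2 : α × Bool) {M : ℕ} (hM : 0 < M) :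
    IsReduced (VW x y v1 v2 M) := by
  obtain ⟨K, rfl⟩ : ∃ K, M = K + 1 := ⟨M - 1, by omega⟩
  have h0 : IsReduced (replicate (K + 1) ((x, true) : α × Bool)) :=
    List.isChain_replicate_of_rel _ (fun _ => rfl)
  have h1 : IsReduced (replicate (K + 1) ((x, true) : α × Bool) ++ [(y, v2.2)]) := by
    refine isReduced_append h0 IsReduced.singleton ?_
    intro p hp q hq h
    rw [List.getLast?_replicate] at hp
    simp only [Nat.add_eq_zero_iff, one_ne_zero, and_false, if_false, Option.mem_def,
      Option.some.injEq, List.head?_cons] at hp hq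
    subst hp
    subst hq
    exact absurd h hxy
  have h2 : IsReduced ((y, v1.2) :: (replicate (K + 1) ((x, true) : α × Bool) ++
      [(y, v2.2)])) := by
    rw [List.replicate_succ, List.cons_append] at h1 ⊢
    exact (isReduced_cons_cons).2 ⟨fun h => absurd h hxy.symm, h1⟩
  have h3 : IsReduced (v1 :: (y, v1.2) :: (replicate (K + 1) ((x, true) : α × Bool) ++
      [(y, v2.2)])) := (isReduced_cons_cons).2 ⟨fun _ => rfl, h2⟩
  refine isReduced_append h3 IsReduced.singleton ?_
  intro p hp q hq _
  have e : (v1 :: (y, v1.2) :: (replicate (K + 1) ((x, true) : α × Bool) ++ [(y, v2.2)])) =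
      (v1 :: (y, v1.2) :: replicate (K + 1) ((x, true) : α × Bool)) ++ [(y, v2.2)] := rfl
  rw [e, List.getLast?_concat] at hp
  simp only [Option.mem_def, Option.some.injEq, List.head?_cons] at hp hq
  subst hp
  subst hq
  rfl

variable [DecidableEq α]

theorem isReduced_invRev {L : List (α × Bool)} (h : IsReduced L) : IsReduced (invRev L) := by
  apply IsReduced.of_reduce_eq
  rw [reduce_invRev, h.reduce_eq]

theorem exists_cyc {x y : α} (hxy : x ≠ y) (U R : List (α × Bool)) (hU : IsReduced U)
    (hU0 : U ≠ []) (hR : IsCyclicallyReduced R) (hR0 : R ≠ []) :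
    ∃ v1 v2 : α × Bool, ∀ M, 0 < M →
      IsCyclicallyReduced (U ++ VW x y v1 v2 M ++ R ++ invRev (VW x y v1 v2 M)) := by
  obtain ⟨uf, U', hUf⟩ := List.exists_cons_of_ne_nil hU0
  obtain ⟨rf, R', hRf⟩ := List.exists_cons_of_ne_nil hR0
  let ul := U.getLast hU0
  let rl := R.getLast hR0
  have hul : U.getLast? = some ul := List.getLast?_eq_getLast_of_ne_nil hU0
  have hrl : R.getLast? = some rl := List.getLast?_eq_getLast_of_ne_nil hR0
  obtain ⟨v1, hv1, hv1'⟩ := exists_letter hxy (iv ul) uf
  obtain ⟨v2, hv2, hv2'⟩ := exists_letter hxy (iv rf) rl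
  refine ⟨v1, v2, fun M hM => ?_⟩
  have hV := VW_red hxy v1 v2 hM
  have hVl : (VW x y v1 v2 M).getLast? = some v2 := by
    rw [VW, List.getLast?_concat]
  have hVf : (VW x y v1 v2 M).head? = some v1 := rfl
  have hVn : VW x y v1 v2 M ≠ [] := by
    intro h
    rw [h] at hVf
    simp at hVf
  have hIf : (invRev (VW x y v1 v2 M)).head? = some (iv v2) := by
    rw [invRev_eq, List.head?_reverse, List.getLast?_map, hVl]
    rfl
  have hIl : (invRev (VW x y v1 v2 M)).getLast? = some (iv v1) := by
    rw [invRev_eq, List.getLast?_reverse, List.head?_map, hVf]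
    rfl
  have hIn : invRev (VW x y v1 v2 M) ≠ [] := by
    intro h
    rw [h] at hIf
    simp at hIf
  have key : ∀ p q : α × Bool, q ≠ iv p → p.1 = q.1 → p.2 = q.2 := by
    rintro ⟨a, b⟩ ⟨c, d⟩ h (rfl : a = c)
    by_contra hne
    apply h
    have hne' : b ≠ d := hne
    cases b <;> cases d <;> simp_all [iv]
  have key2 : ∀ p q : α × Bool, p ≠ q → p.1 = q.1 → p.2 = !q.2 := by
    rintro ⟨a, b⟩ ⟨c, d⟩ h (rfl : a = c)
    cases b <;> cases d <;> simp_all
  have h1 : IsReduced (U ++ VW x y v1 v2 M) := by
    refine isReduced_append hU hV ?_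
    intro p hp q hq
    rw [hul] at hp
    rw [hVf] at hq
    simp only [Option.mem_def, Option.some.injEq] at hp hq
    subst hp
    subst hq
    exact key _ _ hv1
  have h2 : IsReduced (U ++ VW x y v1 v2 M ++ R) := by
    refine isReduced_append h1 hR.isReduced ?_
    intro p hp q hq
    rw [List.getLast?_append_of_ne_nil _ hVn, hVl] at hp
    rw [hRf] at hq
    simp only [Option.mem_def, Option.some.injEq, List.head?_cons] at hp hq
    subst hp
    subst hq
    intro h
    exact (key rf v2 hv2 h.symm).symm
  have h3 : IsReduced (U ++ VW x y v1 v2 M ++ R ++ invRev (VW x y v1 v2 M)) := by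
    refine isReduced_append h2 (isReduced_invRev hV) ?_
    intro p hp q hq
    rw [List.getLast?_append_of_ne_nil _ hR0, hrl] at hp
    rw [hIf] at hq
    simp only [Option.mem_def, Option.some.injEq] at hp hq
    subst hp
    subst hq
    intro h
    exact key2 rl v2 hv2'.symm h
  refine ⟨h3, ?_⟩
  intro p hp q hq
  rw [List.getLast?_append_of_ne_nil _ hIn, hIl] at hp
  have hhd : (U ++ VW x y v1 v2 M ++ R ++ invRev (VW x y v1 v2 M)).head? = some uf := by
    rw [hUf]
    rfl
  rw [hhd] at hq
  simp only [Option.mem_def, Option.some.injEq] at hp hq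
  subst hp
  subst hq
  intro h
  have := key2 v1 uf hv1' h
  show (!v1.2) = uf.2
  rw [this, Bool.not_not]

/-- a cyclically reduced power is the power of a cyclically reduced word -/
theorem eq_flatten {W : List (α × Bool)} (hW : IsCyclicallyReduced W) (hW0 : W ≠ [])
    (z : FreeGroup α) (e : ℕ) (h : mk W = z ^ e) :
    ∃ Z : List (α × Bool), W = (replicate e Z).flatten := by
  have h1 : W = reduce (replicate e z.toWord).flatten := by
    rw [← toWord_pow, ← h, toWord_mk, hW.isReduced.reduce_eq]
  rw [reduceCyclically.reduce_flatten_replicate isReduced_toWord] at h1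
  by_cases he : e = 0
  · rw [if_pos he] at h1
    exact absurd h1 hW0
  · rw [if_neg he] at h1
    by_cases hC : reduceCyclically.conjugator z.toWord = []
    · rw [hC] at h1
      simp only [List.nil_append, invRev_empty, List.append_nil] at h1
      exact ⟨_, h1⟩
    · exfalso
      obtain ⟨c, C', hC'⟩ := List.exists_cons_of_ne_nil hC
      rw [hC'] at h1
      have hhd : W.head? = some c := by rw [h1]; rfl
      have hIn : invRev (c :: C') ≠ [] := by
        rw [invRev_eq]
        simp
      have hlast : W.getLast? = some (iv c) := by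
        rw [h1, List.getLast?_append_of_ne_nil _ hIn, invRev_eq, List.getLast?_reverse,
          List.head?_map]
        rfl
      have h2 := hW.2 (iv c) (by rw [hlast]; rfl) c (by rw [hhd]; rfl) rfl
      cases c with
      | mk a b => cases b <;> simp [iv] at h2

theorem count_flatten (p : α × Bool → Bool) (Z : List (α × Bool)) (e : ℕ) :
    (replicate e Z).flatten.countP p = e * Z.countP p := by
  induction e with
  | zero => simp
  | succ e ih =>
    rw [List.replicate_succ, List.flatten_cons, List.countP_append, ih]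
    ring

/-- Each coset of a non-trivial normal subgroup of a free group of rank at least two contains an
element that is not a proper power. -/
theorem exists_not_power {x y : α} (hxy : x ≠ y) (N : Subgroup (FreeGroup α)) (hN : N.Normal)
    (r : FreeGroup α) (hr : r ∈ N) (hr1 : r ≠ 1) (u : FreeGroup α) :
    ∃ g : FreeGroup α, g ≠ 1 ∧ g * u⁻¹ ∈ N ∧ ∀ (z : FreeGroup α) (e : ℕ), g = z ^ e → e = 1 := by
  -- we may assume that `u` is not trivial
  wlog hu : u ≠ 1 generalizing u
  · push Not at hu
    subst hu
    obtain ⟨g, h1, h2, h3⟩ := this r hr1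
    refine ⟨g, h1, ?_, h3⟩
    rw [inv_one, mul_one]
    have := N.mul_mem h2 hr
    rwa [inv_mul_cancel_right] at this
  have hU0 : u.toWord ≠ [] := fun h => hu (toWord_eq_nil_iff.1 h)
  have hR : IsCyclicallyReduced (reduceCyclically r.toWord) :=
    reduceCyclically.isCyclicallyReduced isReduced_toWord
  have hrc := reduceCyclically.conj_conjugator_reduceCyclically r.toWord
  have hrN : mk (reduceCyclically r.toWord) ∈ N := by
    obtain ⟨c, hc⟩ : ∃ c : FreeGroup α, c * mk (reduceCyclically r.toWord) * c⁻¹ = r :=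
      ⟨mk (reduceCyclically.conjugator r.toWord), by rw [inv_mk, mul_mk, mul_mk, hrc, mk_toWord]⟩
    generalize mk (reduceCyclically r.toWord) = r' at hc
    rw [← hc] at hr
    have h2 := hN.conj_mem _ hr c⁻¹
    have h3 : c⁻¹ * (c * r' * c⁻¹) * c⁻¹⁻¹ = r' := by group
    rwa [h3] at h2
  have hR0 : reduceCyclically r.toWord ≠ [] := by
    intro h
    rw [h, List.append_nil] at hrc
    apply hr1
    rw [← mk_toWord (x := r), ← hrc, ← mul_mk, ← inv_mk, mul_inv_cancel]
  obtain ⟨v1, v2, hcyc⟩ := exists_cyc hxy u.toWord (reduceCyclically r.toWord) isReduced_toWord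
    hU0 hR hR0
  set R := reduceCyclically r.toWord with hRdef
  let W : ℕ → List (α × Bool) := fun M =>
    u.toWord ++ VW x y v1 v2 M ++ R ++ invRev (VW x y v1 v2 M)
  have hgN : ∀ M, mk (W M) * u⁻¹ ∈ N := by
    intro M
    have h1 : mk (W M) * u⁻¹ = (u * mk (VW x y v1 v2 M)) * mk R *
        (u * mk (VW x y v1 v2 M))⁻¹ := by
      show mk (u.toWord ++ VW x y v1 v2 M ++ R ++ invRev (VW x y v1 v2 M)) * u⁻¹ = _
      rw [← mul_mk, ← mul_mk, ← mul_mk, mk_toWord, ← inv_mk]
      group
    rw [h1]
    exact hN.conj_mem _ hrN _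
  -- counting letters
  let px : α × Bool → Bool := fun p => decide (p = (x, true))
  let py : α × Bool → Bool := fun p => decide (p.1 = y)
  let cx : ℕ := u.toWord.countP px + ([v1, (y, v1.2)] : List (α × Bool)).countP px +
    ([(y, v2.2), v2] : List (α × Bool)).countP px + R.countP px +
    (invRev ([(y, v2.2), v2] : List (α × Bool))).countP px +
    (invRev ([v1, (y, v1.2)] : List (α × Bool))).countP px
  let cy : ℕ := u.toWord.countP py + ([v1, (y, v1.2)] : List (α × Bool)).countP py +
    ([(y, v2.2), v2] : List (α × Bool)).countP py + R.countP py +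
    (invRev ([(y, v2.2), v2] : List (α × Bool))).countP py +
    (invRev ([v1, (y, v1.2)] : List (α × Bool))).countP py
  have hVW : ∀ M, VW x y v1 v2 M = ([v1, (y, v1.2)] : List (α × Bool)) ++
      replicate M ((x, true) : α × Bool) ++ [(y, v2.2), v2] := by
    intro M
    simp [VW]
  have hinv : ∀ M, invRev (VW x y v1 v2 M) = invRev ([(y, v2.2), v2] : List (α × Bool)) ++
      replicate M ((x, false) : α × Bool) ++ invRev ([v1, (y, v1.2)] : List (α × Bool)) := by
    intro M
    rw [hVW, invRev_append, invRev_append, ← List.append_assoc]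
    congr 2
    rw [invRev_eq, List.map_replicate, List.reverse_replicate]
    rfl
  have hWx : ∀ M, (W M).countP px = M + cx := by
    intro M
    show (u.toWord ++ VW x y v1 v2 M ++ R ++ invRev (VW x y v1 v2 M)).countP px = _
    rw [hinv, hVW]
    simp only [List.countP_append, cx]
    have e1 : (replicate M ((x, true) : α × Bool)).countP px = M := by
      rw [List.countP_replicate]
      simp [px]
    have e2 : (replicate M ((x, false) : α × Bool)).countP px = 0 := by
      rw [List.countP_replicate]
      simp [px]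
    rw [e1, e2]
    ring
  have hWy : ∀ M, (W M).countP py = cy := by
    intro M
    show (u.toWord ++ VW x y v1 v2 M ++ R ++ invRev (VW x y v1 v2 M)).countP py = _
    rw [hinv, hVW]
    simp only [List.countP_append, cy]
    have e1 : (replicate M ((x, true) : α × Bool)).countP py = 0 := by
      rw [List.countP_replicate]
      simp [py, hxy]
    have e2 : (replicate M ((x, false) : α × Bool)).countP py = 0 := by
      rw [List.countP_replicate]
      simp [py, hxy]
    rw [e1, e2]
    ring
  let M := cy * (cx + 1) + 1 - cx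
  have hcy : 0 < cy := by
    have h1 : 0 < ([v1, (y, v1.2)] : List (α × Bool)).countP py := by
      rw [List.countP_pos_iff]
      exact ⟨(y, v1.2), by simp, by simp [py]⟩
    omega
  have hM : M + cx = cy * (cx + 1) + 1 := by
    have h1 : cx + 1 ≤ cy * (cx + 1) := Nat.le_mul_of_pos_left _ hcy
    omega
  have hM0 : 0 < M := by
    have h1 : cx + 1 ≤ cy * (cx + 1) := Nat.le_mul_of_pos_left _ hcy
    omega
  have hW0 : W M ≠ [] := by
    intro h
    have h1 := hWy M
    rw [h] at h1
    simp only [List.countP_nil] at h1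
    omega
  refine ⟨mk (W M), ?_, hgN M, fun z e he => ?_⟩
  · intro h
    apply hW0
    have h1 : (mk (W M)).toWord = [] := by rw [h, toWord_one]
    rwa [toWord_mk, (hcyc M hM0).isReduced.reduce_eq] at h1
  · obtain ⟨Z, hZ⟩ := eq_flatten (hcyc M hM0) hW0 z e he
    have h1 := hWx M
    have h2 := hWy M
    have hZ' : W M = (replicate e Z).flatten := hZ
    rw [hZ', count_flatten] at h1 h2
    have h3 : e ∣ cy * (cx + 1) + 1 := ⟨_, by rw [← hM, ← h1]⟩
    have h4 : e ∣ cy * (cx + 1) := Dvd.dvd.mul_right ⟨_, h2.symm⟩ _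
    exact Nat.dvd_one.1 ((Nat.dvd_add_right h4).1 h3)

end count

end Pool.Agent.Helper657_nd.FreeL
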