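import Pool.Agent.Helper657_nd.PowD

set_option autoImplicit false

/-!
# Definable free quotients
-/

namespace Pool.Agent.Helper657_nd.FreeL

open Crit

theorem exists_self {Γ : Type} [Group Γ] [IsFreeGroup Γ] (hna : ∃ a b : Γ, a * b ≠ b * a)
    (N : Subgroup Γ) (hN : N.Normal) (r : Γ) (hr : r ∈ N) (hr1 : r ≠ 1) (u : Γ) :
    ∃ g : Γ, g * u⁻¹ ∈ N ∧ ∀ y, y * g = g * y → ∃ k : ℤ, y = g ^ k := by
  classical
  let e := IsFreeGroup.toFreeGroup Γ
  obtain ⟨x, y, hxy⟩ : ∃ x y : IsFreeGroup.Generators Γ, x ≠ y := by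
    by_contra hcon
    push Not at hcon
    obtain ⟨z, hz⟩ := cyclic_of_subsingleton hcon
    obtain ⟨a, b, hab⟩ := hna
    apply hab
    apply e.injective
    rw [map_mul, map_mul]
    obtain ⟨k, hk⟩ := hz (e a)
    obtain ⟨l, hl⟩ := hz (e b)
    rw [hk, hl, ← zpow_add, ← zpow_add, add_comm]
  have hN' : (N.map e.toMonoidHom).Normal := hN.map _ e.surjective
  obtain ⟨g', h1, h2, h3⟩ := exists_not_power hxy (N.map e.toMonoidHom) hN' (e r)
    ⟨r, hr, rfl⟩ (fun h => hr1 ((map_eq_one_iff e e.injective).1 h)) (e u)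
  obtain ⟨g, rfl⟩ := e.surjective g'
  have hg1 : g ≠ 1 := by
    rintro rfl
    exact h1 (map_one e)
  refine ⟨g, ?_, ?_⟩
  · obtain ⟨n, hn, hn'⟩ := h2
    have h4 : e n = e (g * u⁻¹) := by
      rw [map_mul, map_inv]
      exact hn'
    rw [← e.injective h4]
    exact hn
  · obtain ⟨z, hz⟩ := centralizer_cyclic g hg1
    obtain ⟨j, hj⟩ := hz g rfl
    have hpow : ∀ (w : Γ) (n : ℕ), g = w ^ n → n = 1 := by
      intro w n h
      apply h3 (e w) n
      rw [h, map_pow]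
    intro y hy
    obtain ⟨k, hk⟩ := hz y hy
    rcases Int.eq_nat_or_neg j with ⟨n, rfl | rfl⟩
    · have := hpow z n (by rw [hj, zpow_natCast])
      subst this
      refine ⟨k, ?_⟩
      rw [hj, Nat.cast_one, zpow_one]
      exact hk
    · have := hpow z⁻¹ n (by rw [hj, zpow_neg, zpow_natCast, inv_pow])
      subst this
      refine ⟨-k, ?_⟩
      rw [hj, Nat.cast_one, zpow_neg_one, inv_zpow', neg_neg]
      exact hk

/-- A definable subgroup `S` with a homomorphism `φ` to a free group with non-abelian image, and a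
definable normal subgroup `N` of `S` that contains the kernel of `φ` properly and whose quotient is
not torsion. -/
theorem freeQuotient {G Γ : Type} [Group G] [Group Γ] [IsFreeGroup Γ] (S N : Subgroup G)
    (hS : DefinableSet (S : Set G)) (hN : DefinableSet (N : Set G)) (hNS : N ≤ S)
    (hn : ∀ s ∈ S, ∀ x ∈ N, s * x * s⁻¹ ∈ N) (φ : S →* Γ)
    (hna : ∃ a b, φ a * φ b ≠ φ b * φ a) (hker : ∀ s : S, φ s = 1 → (s : G) ∈ N)
    (r : S) (hr : (r : G) ∈ N) (hr1 : φ r ≠ 1) (t : G) (ht : t ∈ S)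
    (hinf : ∀ k : ℕ, 0 < k → t ^ k ∉ N) : Undec G := by
  refine PowD.main S N hS hN hNS hn t ht hinf fun k hk => ?_
  let p : S →* φ.range := φ.rangeRestrict
  have hp : Function.Surjective p := φ.rangeRestrict_surjective
  have hpv : ∀ a, (p a : Γ) = φ a := fun a => rfl
  let N' : Subgroup S := N.subgroupOf S
  have hN' : N'.Normal := ⟨fun x hx g => by
    rw [Subgroup.mem_subgroupOf] at hx ⊢
    exact hn g g.2 x hx⟩
  let t' : S := ⟨t, ht⟩
  obtain ⟨gb, h1, h2⟩ := exists_self (Γ := φ.range) (by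
      obtain ⟨a, b, hab⟩ := hna
      exact ⟨p a, p b, fun h => hab (congrArg Subtype.val h)⟩)
    (N'.map p) (hN'.map _ hp) (p r) ⟨r, hr, rfl⟩ (fun h => hr1 (congrArg Subtype.val h))
    (p (t' ^ k))
  obtain ⟨g, rfl⟩ := hp gb
  have hkerN : ∀ a : S, p a = 1 → (a : G) ∈ N := fun a ha => hker a (congrArg Subtype.val ha)
  have hgN : (g : G) * (t ^ k)⁻¹ ∈ N := by
    obtain ⟨n, hn0, hn'⟩ := h1
    have h3 : p (g * (t' ^ k)⁻¹ * n⁻¹) = 1 := by
      rw [map_mul, map_mul, map_inv, map_inv, hn', mul_inv_cancel]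
    have h4 := N.mul_mem (hkerN _ h3) hn0
    have h5 : ((g * (t' ^ k)⁻¹ * n⁻¹ : S) : G) * (S.subtype n) = (g : G) * (t ^ k)⁻¹ := by
      show (g : G) * (t ^ k)⁻¹ * (n : G)⁻¹ * (n : G) = _
      rw [inv_mul_cancel_right]
    rwa [h5] at h4
  refine ⟨g, hgN, fun y hyS hy => ?_⟩
  obtain ⟨j, hj⟩ := h2 (p ⟨y, hyS⟩) (by
    rw [← map_mul, ← map_mul]
    exact congrArg p (Subtype.ext hy))
  refine ⟨j, ?_⟩
  have h3 : p (⟨y, hyS⟩ * (g ^ j)⁻¹) = 1 := by
    rw [map_mul, map_inv, map_zpow, hj, mul_inv_cancel]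
  have h4 : y * ((g : G) ^ j)⁻¹ ∈ N := hkerN _ h3
  -- `g ^ j` and `t ^ (k * j)` lie in the same coset
  have key : ∀ n : ℕ, (g : G) ^ n * ((t ^ k) ^ n)⁻¹ ∈ N := by
    intro n
    induction n with
    | zero => rw [pow_zero, pow_zero, inv_one, mul_one]; exact N.one_mem
    | succ n ih =>
      have h5 : (g : G) ^ (n + 1) * ((t ^ k) ^ (n + 1))⁻¹ =
          ((g : G) ^ n * (g * (t ^ k)⁻¹) * ((g : G) ^ n)⁻¹) * ((g : G) ^ n * ((t ^ k) ^ n)⁻¹) := by
        rw [pow_succ, pow_succ]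
        group
      rw [h5]
      exact N.mul_mem (hn _ (S.pow_mem g.2 n) _ hgN) ih
  have key' : (g : G) ^ j * ((t ^ k) ^ j)⁻¹ ∈ N := by
    rcases Int.eq_nat_or_neg j with ⟨n, rfl | rfl⟩
    · rw [zpow_natCast, zpow_natCast]
      exact key n
    · have h5 := hn _ (S.inv_mem (S.pow_mem g.2 n)) _ (N.inv_mem (key n))
      have h6 : ((g : G) ^ n)⁻¹ * ((g : G) ^ n * ((t ^ k) ^ n)⁻¹)⁻¹ * ((g : G) ^ n)⁻¹⁻¹ =
          (g : G) ^ (-(n : ℤ)) * ((t ^ k) ^ (-(n : ℤ)))⁻¹ := by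
        rw [zpow_neg, zpow_neg, zpow_natCast, zpow_natCast]
        group
      rwa [h6] at h5
  have h7 := N.mul_mem h4 key'
  have h8 : y * ((g : G) ^ j)⁻¹ * ((g : G) ^ j * ((t ^ k) ^ j)⁻¹) =
      y * (t ^ ((k : ℤ) * j))⁻¹ := by
    rw [zpow_mul, zpow_natCast]
    group
  rwa [h8] at h7

end Pool.Agent.Helper657_nd.FreeL
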