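import Pool.Agent.Helper657_nd.MMB
import Pool.Agent.Helper657_nd.CommMain

set_option autoImplicit false

/-!
# Minimal members of families of subgroups
-/

namespace Pool.Agent.Helper657_nd.Seg

section stab
variable {Q : Type} [AddCommGroup Q] {s : ℕ}

/-- the elements divisible in `B` by all powers of `s` -/
def DivP (s : ℕ) (B : Submodule ℤ Q) : Submodule ℤ Q where
  carrier := {x | ∀ j : ℕ, ∃ b ∈ B, x = s ^ j • b}
  add_mem' := by
    intro x y hx hy j
    obtain ⟨a, ha, rfl⟩ := hx j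
    obtain ⟨b, hb, rfl⟩ := hy j
    exact ⟨a + b, B.add_mem ha hb, (smul_add _ _ _).symm⟩
  zero_mem' := fun j => ⟨0, B.zero_mem, (smul_zero _).symm⟩
  smul_mem' := by
    intro c x hx j
    obtain ⟨a, ha, rfl⟩ := hx j
    exact ⟨c • a, B.smul_mem c ha, smul_comm _ _ _⟩

theorem mem_DivP {B : Submodule ℤ Q} {x : Q} : x ∈ DivP s B ↔ ∀ j : ℕ, ∃ b ∈ B, x = s ^ j • b :=
  Iff.rfl

theorem DivP_le (B : Submodule ℤ Q) : DivP s B ≤ B := by
  intro x hx
  obtain ⟨b, hb, h⟩ := hx 0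
  rw [h, pow_zero, one_smul]
  exact hb

theorem DivP_mono {B B' : Submodule ℤ Q} (h : B' ≤ B) : DivP s B' ≤ DivP s B := by
  intro x hx j
  obtain ⟨b, hb, e⟩ := hx j
  exact ⟨b, h hb, e⟩

variable (htor : ∀ x : Q, ∃ i : ℕ, s ^ i • x = 0) (hfin : {x : Q | s • x = 0}.Finite)
include htor hfin

theorem exists_stab (B : Submodule ℤ Q) : ∃ j₀ : ℕ, ∀ b ∈ B, s ^ j₀ • b ∈ DivP s B := by
  classical
  let T : ℕ → Set Q := fun j => {x | s • x = 0 ∧ ∃ b ∈ B, x = s ^ j • b}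
  have hT : ∀ j, (T j).Finite := fun j => hfin.subset fun x hx => hx.1
  have hanti : ∀ i j, i ≤ j → T j ⊆ T i := by
    rintro i j hij x ⟨hx, b, hb, rfl⟩
    obtain ⟨l, rfl⟩ := Nat.exists_eq_add_of_le hij
    exact ⟨hx, s ^ l • b, B.smul_of_tower_mem _ hb, by rw [← mul_smul, ← pow_add]⟩
  have hex : ∃ n, ∃ j, (hT j).toFinset.card = n := ⟨_, 0, rfl⟩
  obtain ⟨j₀, hj₀⟩ := Nat.find_spec hex
  have hmin : ∀ j, (hT j₀).toFinset.card ≤ (hT j).toFinset.card := fun j => by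
    rw [hj₀]
    exact Nat.find_min' hex ⟨j, rfl⟩
  have heq : ∀ j, j₀ ≤ j → T j₀ ⊆ T j := by
    intro j hj x hx
    have h1 : (hT j).toFinset ⊆ (hT j₀).toFinset := by
      intro y hy
      rw [Set.Finite.mem_toFinset] at hy ⊢
      exact hanti j₀ j hj hy
    have h2 := Finset.eq_of_subset_of_card_le h1 (hmin j)
    rw [← Set.Finite.mem_toFinset (hT j), h2, Set.Finite.mem_toFinset]
    exact hx
  have key : ∀ (i : ℕ) (x : Q), s ^ i • x = 0 → (∃ b ∈ B, x = s ^ j₀ • b) →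
      ∀ l : ℕ, ∃ b ∈ B, x = s ^ (j₀ + l) • b := by
    intro i
    induction i with
    | zero =>
      intro x hx _ l
      rw [pow_zero, one_smul] at hx
      exact ⟨0, B.zero_mem, by rw [hx, smul_zero]⟩
    | succ i ih =>
      rintro x hx ⟨b₀, hb₀, hxb₀⟩ l
      have h1 : s ^ i • x ∈ T j₀ := by
        refine ⟨by rw [← mul_smul, ← pow_succ', hx], s ^ i • b₀, B.smul_of_tower_mem _ hb₀, ?_⟩
        rw [hxb₀, smul_comm]
      obtain ⟨-, b, hb, h2⟩ := heq (i + (j₀ + l)) (by omega) h1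
      rw [pow_add, mul_smul] at h2
      obtain ⟨b₁, hb₁, h3⟩ := ih (x - s ^ (j₀ + l) • b) (by rw [smul_sub, h2, sub_self]) (by
        refine ⟨b₀ - s ^ l • b, B.sub_mem hb₀ (B.smul_of_tower_mem _ hb), ?_⟩
        rw [smul_sub, ← mul_smul, ← pow_add, ← hxb₀]) l
      refine ⟨b₁ + b, B.add_mem hb₁ hb, ?_⟩
      rw [smul_add, ← h3, sub_add_cancel]
  refine ⟨j₀, fun b hb j => ?_⟩
  obtain ⟨i, hi⟩ := htor (s ^ j₀ • b)
  obtain ⟨b', hb', h⟩ := key i _ hi ⟨b, hb, rfl⟩ j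
  exact ⟨s ^ j₀ • b', B.smul_of_tower_mem _ hb', by rw [h, add_comm, pow_add, mul_smul]⟩

theorem DivP_div (B : Submodule ℤ Q) (x : Q) (hx : x ∈ DivP s B) (i : ℕ) :
    ∃ y ∈ DivP s B, x = s ^ i • y := by
  obtain ⟨j₀, hj₀⟩ := exists_stab htor hfin B
  obtain ⟨b, hb, h⟩ := hx (i + j₀)
  exact ⟨s ^ j₀ • b, hj₀ b hb, by rw [h, pow_add, mul_smul]⟩

theorem DivP_eq {B B' : Submodule ℤ Q} (hle : B' ≤ B)
    (h : ∀ x ∈ DivP s B, s • x = 0 → x ∈ DivP s B') : DivP s B ≤ DivP s B' := by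
  have key : ∀ (i : ℕ), ∀ x ∈ DivP s B, s ^ i • x = 0 → x ∈ DivP s B' := by
    intro i
    induction i with
    | zero =>
      intro x _ hx
      rw [pow_zero, one_smul] at hx
      rw [hx]
      exact Submodule.zero_mem _
    | succ i ih =>
      intro x hx hx0
      have h1 : s ^ i • x ∈ DivP s B' := by
        apply h _ ((DivP s B).smul_of_tower_mem _ hx)
        rw [← mul_smul, ← pow_succ', hx0]
      obtain ⟨y, hy, h2⟩ := DivP_div htor hfin B' _ h1 i
      have h3 := ih (x - y) ((DivP s B).sub_mem hx (DivP_mono hle hy)) (by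
        rw [smul_sub, h2, sub_self])
      have h4 := (DivP s B').add_mem h3 hy
      rwa [sub_add_cancel] at h4
  intro x hx
  obtain ⟨i, hi⟩ := htor x
  exact key i x hx hi

end stab

/-- In a family of subgroups there is one which is minimal up to bounded index. -/
theorem lemH {M : Type} [AddCommGroup M] {s : ℕ} (hs : 0 < s)
    (htf : ∀ (n : ℕ) (y : M), n ≠ 0 → n • y = 0 → y = 0) (h : MM s M)
    (Pr : Submodule ℤ M → Prop) (hPr : ∃ K, Pr K) :
    ∃ K, Pr K ∧ ∀ K', Pr K' → K' ≤ K → ∃ n : ℕ, n ≠ 0 ∧ ∀ y ∈ K, n • y ∈ K' := by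
  classical
  obtain ⟨P, hP, hS⟩ := h.exists_submodule
  have hPfin : Module.Finite ℤ P := Module.Finite.iff_fg.2 hP
  have htor : ∀ x : M ⧸ P, ∃ i : ℕ, s ^ i • x = 0 := by
    intro x
    obtain ⟨y, rfl⟩ := Submodule.mkQ_surjective P x
    obtain ⟨k, hk⟩ := hS y
    refine ⟨k, ?_⟩
    rw [← map_nsmul, Submodule.mkQ_apply, Submodule.Quotient.mk_eq_zero]
    exact hk
  have hfin : {x : M ⧸ P | s • x = 0}.Finite := by
    let R : Submodule ℤ P := LinearMap.range ((s : ℤ) • LinearMap.id : P →ₗ[ℤ] P)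
    have hRfin : Finite (P ⧸ R) := by
      apply Module.finite_of_fg_torsion
      intro q
      obtain ⟨y, rfl⟩ := Submodule.mkQ_surjective R q
      refine ⟨⟨(s : ℤ), mem_nonZeroDivisors_of_ne_zero (by exact_mod_cast hs.ne')⟩, ?_⟩
      show (s : ℤ) • R.mkQ y = 0
      rw [← map_smul, Submodule.mkQ_apply, Submodule.Quotient.mk_eq_zero]
      exact ⟨y, rfl⟩
    have hch : ∀ x : {x : M ⧸ P | s • x = 0}, ∃ y : M, P.mkQ y = x ∧ s • y ∈ P := by
      rintro ⟨x, hx⟩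
      obtain ⟨y, rfl⟩ := Submodule.mkQ_surjective P x
      refine ⟨y, rfl, ?_⟩
      have h1 : s • P.mkQ y = 0 := hx
      rw [← map_nsmul, Submodule.mkQ_apply, Submodule.Quotient.mk_eq_zero] at h1
      exact h1
    choose f hf1 hf2 using hch
    have hinj : Function.Injective fun x => R.mkQ ⟨s • f x, hf2 x⟩ := by
      intro x x' hxx
      have h1 : R.mkQ (⟨s • f x, hf2 x⟩ - ⟨s • f x', hf2 x'⟩) = 0 := by
        rw [map_sub]
        exact sub_eq_zero.2 hxx
      rw [Submodule.mkQ_apply, Submodule.Quotient.mk_eq_zero] at h1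
      obtain ⟨z, hz⟩ := h1
      have h2 : s • (f x - f x' - z) = 0 := by
        have h3 := congrArg (fun w : P => (w : M)) hz
        have h4 : (s : ℤ) • (z : M) = s • f x - s • f x' := h3
        rw [natCast_zsmul] at h4
        rw [smul_sub, smul_sub, h4, sub_self]
      have h3 := sub_eq_zero.1 (htf s _ hs.ne' h2)
      apply Subtype.ext
      rw [← hf1, ← hf1, ← sub_eq_zero, ← map_sub, h3, Submodule.mkQ_apply,
        Submodule.Quotient.mk_eq_zero]
      exact z.2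
    have : Finite {x : M ⧸ P | s • x = 0} := Finite.of_injective _ hinj
    exact Set.toFinite _
  let bar : Submodule ℤ M → Submodule ℤ (M ⧸ P) := fun K => K.map P.mkQ
  let Tk : Submodule ℤ M → Finset (M ⧸ P) := fun K =>
    hfin.toFinset.filter fun x => x ∈ DivP s (bar K)
  let μ : Submodule ℤ M → ℕ := fun K => Module.finrank ℤ (K.comap P.subtype) + (Tk K).card
  have hex : ∃ n, ∃ K, Pr K ∧ μ K = n := by
    obtain ⟨K, hK⟩ := hPr
    exact ⟨_, K, hK, rfl⟩
  obtain ⟨K, hK, hKn⟩ := Nat.find_spec hex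
  refine ⟨K, hK, fun K' hK' hle => ?_⟩
  have h0 : μ K ≤ μ K' := by
    rw [hKn]
    exact Nat.find_min' hex ⟨K', hK', rfl⟩
  have hbar : bar K' ≤ bar K := Submodule.map_mono hle
  have hle0 : K'.comap P.subtype ≤ K.comap P.subtype := Submodule.comap_mono hle
  have h1 : Module.finrank ℤ (K'.comap P.subtype) ≤ Module.finrank ℤ (K.comap P.subtype) :=
    Submodule.finrank_mono hle0
  have hsub : Tk K' ⊆ Tk K := by
    intro x hx
    rw [Finset.mem_filter] at hx ⊢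
    exact ⟨hx.1, DivP_mono hbar hx.2⟩
  have h2 : (Tk K').card ≤ (Tk K).card := Finset.card_le_card hsub
  have h3 : Module.finrank ℤ (K.comap P.subtype) ≤ Module.finrank ℤ (K'.comap P.subtype) := by
    have : Module.finrank ℤ (K.comap P.subtype) + (Tk K).card ≤
      Module.finrank ℤ (K'.comap P.subtype) + (Tk K').card := h0
    omega
  have h4 : (Tk K).card ≤ (Tk K').card := by
    have : Module.finrank ℤ (K.comap P.subtype) + (Tk K).card ≤
      Module.finrank ℤ (K'.comap P.subtype) + (Tk K').card := h0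
    omega
  have h5 : Tk K' = Tk K := Finset.eq_of_subset_of_card_le hsub h4
  have h6 : DivP s (bar K) ≤ DivP s (bar K') := by
    apply DivP_eq htor hfin hbar
    intro x hx hx0
    have h7 : x ∈ Tk K := Finset.mem_filter.2 ⟨(Set.Finite.mem_toFinset _).2 hx0, hx⟩
    rw [← h5] at h7
    exact (Finset.mem_filter.1 h7).2
  obtain ⟨n, hn, hn'⟩ := Weyl.uniform (K.comap P.subtype) (K'.comap P.subtype) (by
    intro y hy
    have h7 : Module.finrank ℤ (K.comap P.subtype) ≤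
        Module.finrank ℤ ((K'.comap P.subtype).comap (K.comap P.subtype).subtype) := by
      rw [(Submodule.comapSubtypeEquivOfLe hle0).finrank_eq]
      exact h3
    obtain ⟨n, hn, h8⟩ := Comm.finrank_torsion _ h7 ⟨y, hy⟩
    exact ⟨n, hn, h8⟩)
  obtain ⟨j₀, hj₀⟩ := exists_stab htor hfin (bar K)
  refine ⟨n * s ^ j₀, mul_ne_zero hn.ne' (pow_ne_zero _ hs.ne'), fun y hy => ?_⟩
  have h7 : s ^ j₀ • P.mkQ y ∈ DivP s (bar K) := hj₀ _ ⟨y, hy, rfl⟩
  obtain ⟨k', hk', h8⟩ := DivP_le _ (h6 h7)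
  rw [← map_nsmul] at h8
  have h9 : s ^ j₀ • y - k' ∈ P := by
    rw [← Submodule.Quotient.mk_eq_zero, ← Submodule.mkQ_apply, map_sub, h8, sub_self]
  have h10 : s ^ j₀ • y - k' ∈ K := K.sub_mem (K.smul_of_tower_mem _ hy) (hle hk')
  have h11 : n • (s ^ j₀ • y - k') ∈ K' := hn' ⟨_, h9⟩ h10
  rw [smul_sub] at h11
  have h12 := K'.add_mem h11 (K'.smul_of_tower_mem n hk')
  rw [sub_add_cancel] at h12
  rwa [mul_smul]

end Pool.Agent.Helper657_nd.Seg
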