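import Pool.Agent.Helper657_nd.WeylG

set_option autoImplicit false

/-!
# Definable abelian subgroups: semisimple case
-/

namespace Pool.Agent.Helper657_nd.Weyl

open Crit

section ring
variable {G M : Type} [Group G] [AddCommGroup M]

/-- the commuting family of elements used in the semisimple case -/
def DG (A : Subgroup G) (t : G) (d : G) : Prop :=
  d ∈ Subgroup.normalizer (A : Set G) ∧ ∀ y, y * t = t * y → d * y = y * d

theorem DG.pow {A : Subgroup G} {t d : G} (h : DG A t d) (n : ℕ) : DG A t (d ^ n) := by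
  refine ⟨Subgroup.pow_mem _ h.1 n, fun y hy => ?_⟩
  have : Commute d y := h.2 y hy
  exact (this.pow_left n).eq

theorem DG.self {A : Subgroup G} {t : G} (ht : t ∈ Subgroup.normalizer (A : Set G)) :
    DG A t t := ⟨ht, fun _ hy => hy.symm⟩

theorem DG.inv {A : Subgroup G} {t d : G} (h : DG A t d) : DG A t d⁻¹ := by
  refine ⟨Subgroup.inv_mem _ h.1, fun y hy => ?_⟩
  have : Commute d y := h.2 y hy
  exact this.inv_left.eq

/-- a commutative ring through which the family acts -/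
theorem exists_ring {A : Subgroup G} {ι : M → G} (E : Emb A ι) [Module.Finite ℤ M] (t : G) :
    ∃ (R : Type) (_ : CommRing R) (_ : Module.Finite ℤ R) (_ : Module R M),
      (∀ d, DG A t d → ∃ r : R, ∀ y : M, ι (r • y) = d * ι y * d⁻¹) ∧
      ∀ r r' : R, (∀ y : M, r • y = r' • y) → r = r' := by
  let T : Set (Module.End ℤ M) := {φ | ∃ d, DG A t d ∧ ∀ y, ι (φ y) = d * ι y * d⁻¹}
  let S := Subring.closure T
  let R := Subring.center S
  have hfinR : Module.Finite ℤ R := by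
    let g : R →ₗ[ℤ] Module.End ℤ M :=
      { toFun := fun r => ((r : S) : Module.End ℤ M)
        map_add' := fun _ _ => rfl
        map_smul' := fun a r => by simp }
    refine Module.Finite.of_injective g ?_
    intro a b hab
    exact Subtype.ext (Subtype.ext hab)
  refine ⟨R, inferInstance, hfinR, inferInstance, ?_, ?_⟩
  · intro d hd
    have hθT : E.act hd.1 ∈ T := ⟨d, hd, E.act_spec hd.1⟩
    have hθS : E.act hd.1 ∈ S := Subring.subset_closure hθT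
    have hcomm : ∀ τ ∈ T, τ * E.act hd.1 = E.act hd.1 * τ := by
      rintro τ ⟨d', hd', hτ⟩
      have h1 : d' * t = t * d' := hd'.2 t rfl
      have h2 : d * d' = d' * d := hd.2 d' h1
      ext1 y
      apply E.inj
      show ι (τ (E.act hd.1 y)) = ι (E.act hd.1 (τ y))
      rw [hτ, E.act_spec, E.act_spec, hτ]
      have h3 : d' * (d * ι y * d⁻¹) * d'⁻¹ = (d' * d) * ι y * (d' * d)⁻¹ := by group
      have h4 : d * (d' * ι y * d'⁻¹) * d⁻¹ = (d * d') * ι y * (d * d')⁻¹ := by group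
      rw [h3, h4, h2]
    have hcen : (⟨E.act hd.1, hθS⟩ : S) ∈ Subring.center S := by
      rw [Subring.mem_center_iff]
      rintro ⟨σ, hσ⟩
      apply Subtype.ext
      show σ * E.act hd.1 = E.act hd.1 * σ
      have hle : S ≤ Subring.centralizer {E.act hd.1} := by
        rw [Subring.closure_le]
        intro τ hτ
        rw [SetLike.mem_coe, Subring.mem_centralizer_iff]
        intro g hg
        rw [Set.mem_singleton_iff] at hg
        rw [hg]
        exact (hcomm τ hτ).symm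
      exact (Subring.mem_centralizer_iff.1 (hle hσ) (E.act hd.1) rfl).symm
    exact ⟨⟨⟨E.act hd.1, hθS⟩, hcen⟩, fun y => E.act_spec hd.1 y⟩
  · intro r r' h
    exact Subtype.ext (Subtype.ext (LinearMap.ext h))

end ring

section defs
variable {G : Type} [Group G]

/-- iterated commutator map -/
def cmI (s : G) : ℕ → G → G
  | 0, a => a
  | j + 1, a => cm s (cmI s j a)

def BG (A : Subgroup G) (s : G) (j : ℕ) (b : G) : Prop := ∃ a, a ∈ A ∧ b = cmI s j a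

def InjG (B : G → Prop) (d : G) : Prop := ∀ b, B b → d * b * d⁻¹ = b → b = 1

def DomG (D B : G → Prop) (x₁ y : G) : Prop :=
  B y ∧ ∀ d, D d → InjG B d → ∃ e, D e ∧ ∃ b, B b ∧ cm e x₁ = cm d y * cm d (cm d b)

def MulG (D B : G → Prop) (x₁ y z w : G) : Prop :=
  ∀ d, D d → InjG B d → ∃ v : Fin 3 → G, D (v 0) ∧ B (v 1) ∧ B (v 2) ∧
    cm (v 0) x₁ = cm d y * cm d (cm d (v 1)) ∧ cm (v 0) z = cm d w * cm d (cm d (v 2))

theorem Tm.cm {f g : (ℕ → G) → G} (hf : Tm f) (hg : Tm g) : Tm fun s => Weyl.cm (f s) (g s) :=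
  ((hf.mul hg).mul hf.inv).mul hg.inv

theorem Tm.cmI {s₀ : G} (j : ℕ) {f : (ℕ → G) → G} (hf : Tm f) :
    Tm fun s => Weyl.cmI s₀ j (f s) := by
  induction j with
  | zero => exact hf
  | succ j ih => exact Tm.cm (Tm.const s₀) ih

theorem df_normalizer {A : Subgroup G} (hA : DefinableSet (A : Set G)) {f : (ℕ → G) → G}
    (hf : Tm f) : Df fun s => f s ∈ Subgroup.normalizer (A : Set G) := by
  have h1 : Df fun s => ∀ h, h ∈ (A : Set G) ↔ f s * h * (f s)⁻¹ ∈ (A : Set G) := by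
    apply Df.uni (R := fun h s => h ∈ (A : Set G) ↔ f s * h * (f s)⁻¹ ∈ (A : Set G))
    exact (DefinableSet.df hA (Tm.var 0)).iff
      (DefinableSet.df hA (((hf.ren _).mul (Tm.var 0)).mul (hf.ren _).inv))
  exact h1.congr fun s => Subgroup.mem_normalizer_iff

theorem def_DG {A : Subgroup G} (hA : DefinableSet (A : Set G)) (t : G) : Def1 (DG A t) := by
  refine (df_normalizer hA (Tm.var 0)).and ?_
  apply Df.uni (R := fun y s => y * t = t * y → s 0 * y = y * s 0)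
  exact (Df.eq ((Tm.var 0).mul (Tm.const t)) ((Tm.const t).mul (Tm.var 0))).imp
    (Df.eq ((Tm.var 1).mul (Tm.var 0)) ((Tm.var 0).mul (Tm.var 1)))

theorem def_BG {A : Subgroup G} (hA : DefinableSet (A : Set G)) (s₀ : G) (j : ℕ) :
    Def1 (BG A s₀ j) := by
  apply Df.exi (R := fun a s => a ∈ (A : Set G) ∧ s 0 = cmI s₀ j a)
  exact (DefinableSet.df hA (Tm.var 0)).and (Df.eq (Tm.var 1) (Tm.cmI j (Tm.var 0)))

theorem df_InjG {B : G → Prop} (hB : Def1 B) {f : (ℕ → G) → G} (hf : Tm f) :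
    Df fun s => InjG B (f s) := by
  apply Df.uni (R := fun b s => B b → f s * b * (f s)⁻¹ = b → b = 1)
  exact (hB.sub (Tm.var 0)).imp ((Df.eq (((hf.ren _).mul (Tm.var 0)).mul (hf.ren _).inv)
    (Tm.var 0)).imp (Df.eq (Tm.var 0) (Tm.const 1)))

theorem def_DomG {D B : G → Prop} (hD : Def1 D) (hB : Def1 B) (x₁ : G) :
    Def1 (DomG D B x₁) := by
  refine (hB.sub (Tm.var 0)).and ?_
  apply Df.uni (R := fun d s => D d → InjG B d → ∃ e, D e ∧ ∃ b, B b ∧
    cm e x₁ = cm d (s 0) * cm d (cm d b))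
  refine (hD.sub (Tm.var 0)).imp ((df_InjG hB (Tm.var 0)).imp ?_)
  apply Df.exi (R := fun e s => D e ∧ ∃ b, B b ∧ cm e x₁ = cm (s 0) (s 1) * cm (s 0) (cm (s 0) b))
  refine (hD.sub (Tm.var 0)).and ?_
  apply Df.exi (R := fun b s => B b ∧ cm (s 0) x₁ = cm (s 1) (s 2) * cm (s 1) (cm (s 1) b))
  exact (hB.sub (Tm.var 0)).and (Df.eq (Tm.cm (Tm.var 1) (Tm.const x₁))
    ((Tm.cm (Tm.var 2) (Tm.var 3)).mul (Tm.cm (Tm.var 2) (Tm.cm (Tm.var 2) (Tm.var 0)))))

theorem def_MulG {D B : G → Prop} (hD : Def1 D) (hB : Def1 B) (x₁ : G) :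
    Def3 (MulG D B x₁) := by
  apply Df.uni (R := fun d s => D d → InjG B d → ∃ v : Fin 3 → G, D (v 0) ∧ B (v 1) ∧ B (v 2) ∧
    cm (v 0) x₁ = cm d (s 0) * cm d (cm d (v 1)) ∧ cm (v 0) (s 1) = cm d (s 2) * cm d (cm d (v 2)))
  refine (hD.sub (Tm.var 0)).imp ((df_InjG hB (Tm.var 0)).imp ?_)
  apply Df.exiTuple
  exact (hD.sub (Tm.var 0)).and ((hB.sub (Tm.var 1)).and ((hB.sub (Tm.var 2)).and
    ((Df.eq (Tm.cm (Tm.var 0) (Tm.const x₁))
    ((Tm.cm (Tm.var 3) (Tm.var 4)).mul (Tm.cm (Tm.var 3) (Tm.cm (Tm.var 3) (Tm.var 1))))).and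
    (Df.eq (Tm.cm (Tm.var 0) (Tm.var 5))
    ((Tm.cm (Tm.var 3) (Tm.var 6)).mul (Tm.cm (Tm.var 3) (Tm.cm (Tm.var 3) (Tm.var 2))))))))

end defs

section main
variable {G M : Type} [Group G] [AddCommGroup M]

theorem weylS {A : Subgroup G} {ι : M → G} (E : Emb A ι) [Module.Finite ℤ M]
    [Module.IsTorsionFree ℤ M] (hA : DefinableSet (A : Set G)) (t : G)
    (ht : t ∈ Subgroup.normalizer (A : Set G))
    {R : Type} [CommRing R] [Module.Finite ℤ R] [Module R M]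
    (hR1 : ∀ d, DG A t d → ∃ r : R, ∀ y : M, ι (r • y) = d * ι y * d⁻¹)
    (hR2 : ∀ r r' : R, (∀ y : M, r • y = r' • y) → r = r')
    (α : R) (hα : ∀ y : M, ι (α • y) = t * ι y * t⁻¹) (e j : ℕ)
    (hdich : ∀ k : ℕ, 0 < k → ∀ y : M,
      (α ^ k - 1) • (α ^ e - 1) ^ j • y = 0 → (α ^ e - 1) ^ j • y = 0)
    (hne : ∃ y : M, (α ^ e - 1) ^ j • y ≠ 0) : Undec G := by
  let D : Set R := {r | ∃ d, DG A t d ∧ ∀ y : M, ι (r • y) = d * ι y * d⁻¹}
  have hact_pow : ∀ (r : R) (d : G), (∀ y : M, ι (r • y) = d * ι y * d⁻¹) →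
      ∀ (i : ℕ) (y : M), ι (r ^ i • y) = d ^ i * ι y * (d ^ i)⁻¹ := by
    intro r d h i
    induction i with
    | zero => intro y; simp
    | succ i ih =>
      intro y
      rw [pow_succ, mul_smul, ih, h, pow_succ]
      group
  have hpow : ∀ δ ∈ D, ∀ i : ℕ, δ ^ i ∈ D := by
    rintro δ ⟨d, hd, h⟩ i
    exact ⟨d ^ i, hd.pow i, hact_pow δ d h i⟩
  let B : Submodule R M := LinearMap.range (LinearMap.lsmul R M ((α ^ e - 1) ^ j))
  have hBmem : ∀ y, y ∈ B ↔ ∃ z : M, (α ^ e - 1) ^ j • z = y := fun y => Iff.rfl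
  have hBne : B ≠ ⊥ := by
    obtain ⟨y, hy⟩ := hne
    intro h0
    apply hy
    have h1 : (α ^ e - 1) ^ j • y ∈ B := ⟨y, rfl⟩
    rw [h0, Submodule.mem_bot] at h1
    exact h1
  have hαD : α ∈ D := ⟨t, DG.self ht, hα⟩
  have hunit : IsUnit α := by
    obtain ⟨β, hβ⟩ := hR1 t⁻¹ (DG.self ht).inv
    refine IsUnit.of_mul_eq_one β ?_
    apply hR2
    intro y
    apply E.inj
    rw [mul_smul, hα, hβ, one_smul]
    group
  have hinj : ∀ k : ℕ, 0 < k → InjOn' B (α ^ k) := by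
    intro k hk b hb h
    obtain ⟨z, rfl⟩ := hb
    apply hdich k hk
    rw [sub_smul, one_smul, sub_eq_zero]
    exact h
  obtain ⟨O, i1, i2, i3, i4, x₁, c, V, hx₁, HD⟩ := caseS D hpow B hBne α hαD hunit hinj
  -- translation
  have hcm : ∀ (r : R) (d : G), (∀ y : M, ι (r • y) = d * ι y * d⁻¹) → ∀ y : M,
      ι ((r - 1) • y) = cm d (ι y) := by
    intro r d h y
    rw [sub_smul, one_smul, E.sub, h]
    rfl
  have hcmI : ∀ (i : ℕ) (y : M), ι ((α ^ e - 1) ^ i • y) = cmI (t ^ e) i (ι y) := by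
    intro i
    induction i with
    | zero => intro y; simp [cmI]
    | succ i ih =>
      intro y
      rw [pow_succ', mul_smul, hcm (α ^ e) (t ^ e) (hact_pow α t hα e), ih]
      rfl
  have hBG : ∀ g, BG A (t ^ e) j g ↔ ∃ y ∈ B, ι y = g := by
    intro g
    constructor
    · rintro ⟨a, ha, rfl⟩
      obtain ⟨z, rfl⟩ := (E.mem a).1 ha
      exact ⟨(α ^ e - 1) ^ j • z, ⟨z, rfl⟩, hcmI j z⟩
    · rintro ⟨y, ⟨z, rfl⟩, rfl⟩
      exact ⟨ι z, E.memι z, hcmI j z⟩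
  have hBG' : ∀ y, BG A (t ^ e) j (ι y) ↔ y ∈ B := by
    intro y
    rw [hBG]
    constructor
    · rintro ⟨z, hz, h⟩
      rwa [← E.inj h]
    · intro h
      exact ⟨y, h, rfl⟩
  have hInj : ∀ (r : R) (d : G), (∀ y : M, ι (r • y) = d * ι y * d⁻¹) →
      (InjG (BG A (t ^ e) j) d ↔ InjOn' B r) := by
    intro r d h
    constructor
    · intro hi b hb hrb
      apply E.inj
      rw [E.zero]
      apply hi (ι b) ((hBG' b).2 hb)
      rw [← h, hrb]
    · intro hi g hg hdg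
      obtain ⟨b, hb, rfl⟩ := (hBG g).1 hg
      rw [← h] at hdg
      rw [hi b hb (E.inj hdg), E.zero]
  have hexp : ∀ (r : R) (d : G), (∀ y : M, ι (r • y) = d * ι y * d⁻¹) → ∀ y b : M,
      ι ((r - 1) • y + (r - 1) • (r - 1) • b) = cm d (ι y) * cm d (cm d (ι b)) := by
    intro r d h y b
    rw [E.add, hcm r d h, hcm r d h, hcm r d h]
  have hDom : ∀ y, DomG (DG A t) (BG A (t ^ e) j) (ι x₁) (ι y) ↔ DomS D B x₁ y := by
    intro y
    unfold DomG DomS
    rw [hBG']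
    refine and_congr Iff.rfl ⟨?_, ?_⟩
    · rintro h δ ⟨d, hd, hδ⟩ hi
      obtain ⟨d', hd', g, hg, hE⟩ := h d hd ((hInj δ d hδ).2 hi)
      obtain ⟨ε, hε⟩ := hR1 d' hd'
      obtain ⟨b, hb, rfl⟩ := (hBG g).1 hg
      refine ⟨ε, ⟨d', hd', hε⟩, b, hb, ?_⟩
      apply E.inj
      rw [hcm ε d' hε, hexp δ d hδ, hE]
    · intro h d hd hi
      obtain ⟨δ, hδ⟩ := hR1 d hd
      obtain ⟨ε, ⟨d', hd', hε⟩, b, hb, hE⟩ := h δ ⟨d, hd, hδ⟩ ((hInj δ d hδ).1 hi)
      refine ⟨d', hd', ι b, (hBG' b).2 hb, ?_⟩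
      rw [← hcm ε d' hε, ← hexp δ d hδ, hE]
  have hMul : ∀ y z w, MulG (DG A t) (BG A (t ^ e) j) (ι x₁) (ι y) (ι z) (ι w) ↔
      MulS D B x₁ y z w := by
    intro y z w
    unfold MulG MulS
    constructor
    · rintro h δ ⟨d, hd, hδ⟩ hi
      obtain ⟨v, hd', hg, hg', hE, hE'⟩ := h d hd ((hInj δ d hδ).2 hi)
      obtain ⟨ε, hε⟩ := hR1 _ hd'
      obtain ⟨b, hb, hb1⟩ := (hBG _).1 hg
      obtain ⟨b', hb', hb1'⟩ := (hBG _).1 hg'
      rw [← hb1] at hE
      rw [← hb1'] at hE'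
      refine ⟨ε, ⟨_, hd', hε⟩, b, hb, b', hb', ?_, ?_⟩
      · apply E.inj
        rw [hcm ε _ hε, hexp δ d hδ, hE]
      · apply E.inj
        rw [hcm ε _ hε, hexp δ d hδ, hE']
    · intro h d hd hi
      obtain ⟨δ, hδ⟩ := hR1 d hd
      obtain ⟨ε, ⟨d', hd', hε⟩, b, hb, b', hb', hE, hE'⟩ :=
        h δ ⟨d, hd, hδ⟩ ((hInj δ d hδ).1 hi)
      refine ⟨![d', ι b, ι b'], hd', (hBG' b).2 hb, (hBG' b').2 hb', ?_, ?_⟩
      · show cm d' (ι x₁) = cm d (ι y) * cm d (cm d (ι b))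
        rw [← hcm ε d' hε, ← hexp δ d hδ, hE]
      · show cm d' (ι z) = cm d (ι w) * cm d (cm d (ι b'))
        rw [← hcm ε d' hε, ← hexp δ d hδ, hE']
  have hData := HD.toData ι E.inj E.add (fun k x => E.nsmul k x)
    (DomG (DG A t) (BG A (t ^ e) j) (ι x₁)) (fun x y => x = y)
    (MulG (DG A t) (BG A (t ^ e) j) (ι x₁))
    (fun g hg => by
      obtain ⟨y, _, hy⟩ := (hBG g).1 hg.1
      exact ⟨y, hy⟩)
    hDom (fun x y _ _ => E.inj.eq_iff) (fun x y z _ _ _ => hMul x y z)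
  refine Crit.main hData (def_DomG (def_DG hA t) (def_BG hA _ j) _) ?_ ?_
    (def_MulG (def_DG hA t) (def_BG hA _ j) _)
  · exact Df.eq (Tm.var 0) (Tm.var 1)
  · exact Df.eq ((Tm.var 0).mul (Tm.var 1)) (Tm.var 2)

end main

end Pool.Agent.Helper657_nd.Weyl
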