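import Pool.Agent.Helper657_nd.Log
import Pool.Agent.Helper657_nd.Cong
import Pool.Agent.Helper657_nd.WeylS

set_option autoImplicit false

/-!
# Linear groups: commutative subalgebras, characters and logarithms
-/

namespace Pool.Agent.Helper657_nd.Lin

open Crit Weyl Seg SegFT

open scoped IsMulCommutative in
theorem exists_comm (F : Type) {B : Type} [Field F] [Ring B] [Algebra F B] (s : Set B)
    (hs : ∀ a ∈ s, ∀ b ∈ s, a * b = b * a) :
    ∃ (C : Type) (_ : CommRing C) (_ : Algebra F C) (j : C →ₐ[F] B), Function.Injective j ∧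
      ∀ x, (∃ c, j c = x) ↔ x ∈ Algebra.adjoin F s :=
  have := Algebra.isMulCommutative_adjoin F hs
  ⟨Algebra.adjoin F s, inferInstance, inferInstance,
    (Algebra.adjoin F s).val, Subtype.val_injective,
    fun x => ⟨by rintro ⟨c, rfl⟩; exact c.2, fun h => ⟨⟨x, h⟩, rfl⟩⟩⟩

theorem nil_of_char {F C : Type} [Field F] [IsAlgClosed F] [CommRing C] [Algebra F C]
    [FiniteDimensional F C] (c : C) (h : ∀ χ : C →ₐ[F] F, χ c = 0) : IsNilpotent c := by
  rw [← mem_nilradical, nilradical_eq_sInf, Ideal.mem_sInf]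
  intro P hP
  have hPp : P.IsPrime := hP
  have hint : Algebra.IsIntegral F (C ⧸ P) := inferInstance
  have hbij : Function.Bijective (algebraMap F (C ⧸ P)) :=
    IsAlgClosed.algebraMap_bijective_of_isIntegral
  let e : F ≃ₐ[F] (C ⧸ P) := AlgEquiv.ofBijective (Algebra.ofId F (C ⧸ P)) hbij
  let χ : C →ₐ[F] F := e.symm.toAlgHom.comp (Ideal.Quotient.mkₐ F P)
  have h1 : e.symm (Ideal.Quotient.mk P c) = 0 := h χ
  rw [map_eq_zero_iff _ e.symm.injective, Ideal.Quotient.eq_zero_iff_mem] at h1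
  exact h1

section expo

theorem exists_exponent (F : Type) {G B : Type} [Group G] [Field F] [IsAlgClosed F] [Ring B]
    [Algebra F B] [FiniteDimensional F B]
    (ρ : G →* B) (E : Subgroup G) (hc : ∀ a ∈ E, ∀ b ∈ E, a * b = b * a) :
    ∃ m : ℕ, 0 < m ∧ ∀ x ∈ Subgroup.normalizer (E : Set G), ∀ e ∈ E,
      IsNilpotent (ρ (cm (x ^ m) e) - 1) := by
  obtain ⟨C, i1, i2, j, hj, hrange⟩ := exists_comm F (ρ '' (E : Set G)) (by
    rintro _ ⟨a, ha, rfl⟩ _ ⟨b, hb, rfl⟩
    rw [← map_mul, ← map_mul, hc a ha b hb])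
  have hfd : FiniteDimensional F C := FiniteDimensional.of_injective j.toLinearMap hj
  have hinv : ∀ x : G, ρ x⁻¹ * ρ x = 1 := fun x => by rw [← map_mul, inv_mul_cancel, map_one]
  have hinv' : ∀ x : G, ρ x * ρ x⁻¹ = 1 := fun x => by rw [← map_mul, mul_inv_cancel, map_one]
  have hconj : ∀ (x : Subgroup.normalizer (E : Set G)) (c : C),
      ∃ c', j c' = ρ x * j c * ρ (x : G)⁻¹ := by
    intro x c
    rw [hrange]
    have hcmem : j c ∈ Algebra.adjoin F (ρ '' (E : Set G)) := (hrange _).1 ⟨c, rfl⟩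
    generalize j c = z at hcmem
    induction hcmem using Algebra.adjoin_induction with
    | mem z hz =>
      obtain ⟨e, he, rfl⟩ := hz
      apply Algebra.subset_adjoin
      exact ⟨(x : G) * e * (x : G)⁻¹, (Subgroup.mem_normalizer_iff.1 x.2 e).1 he, by
        rw [map_mul, map_mul]⟩
    | algebraMap r =>
      rw [← Algebra.commutes, mul_assoc, hinv', mul_one]
      exact Subalgebra.algebraMap_mem _ r
    | add a b _ _ ha hb =>
      rw [mul_add, add_mul]
      exact Subalgebra.add_mem _ ha hb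
    | mul a b _ _ ha hb =>
      have h1 : ρ x * (a * b) * ρ (x : G)⁻¹ =
          (ρ x * a * ρ (x : G)⁻¹) * (ρ x * b * ρ (x : G)⁻¹) := by
        have h2 : (ρ x * a * ρ (x : G)⁻¹) * (ρ x * b * ρ (x : G)⁻¹) =
          ρ x * a * (ρ (x : G)⁻¹ * ρ x) * b * ρ (x : G)⁻¹ := by simp only [mul_assoc]
        rw [h2, hinv, mul_one]
        simp only [mul_assoc]
      rw [h1]
      exact Subalgebra.mul_mem _ ha hb
  choose Φ hΦ using hconj
  have hex : ∀ x : Subgroup.normalizer (E : Set G), ∃ Ψ : C →ₐ[F] C, ∀ c, Ψ c = Φ x c := by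
    intro x
    refine ⟨{ toFun := Φ x, map_one' := ?_, map_mul' := ?_, map_zero' := ?_, map_add' := ?_,
              commutes' := ?_ }, fun c => rfl⟩
    · apply hj
      rw [hΦ, map_one, mul_one, hinv']
    · intro a b
      apply hj
      rw [hΦ, map_mul, map_mul, hΦ, hΦ]
      have h2 : (ρ x * j a * ρ (x : G)⁻¹) * (ρ x * j b * ρ (x : G)⁻¹) =
        ρ x * j a * (ρ (x : G)⁻¹ * ρ x) * j b * ρ (x : G)⁻¹ := by simp only [mul_assoc]
      rw [h2, hinv, mul_one]
      simp only [mul_assoc]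
    · apply hj
      rw [hΦ, map_zero, mul_zero, zero_mul]
    · intro a b
      apply hj
      rw [hΦ, map_add, map_add, hΦ, hΦ, mul_add, add_mul]
    · intro r
      apply hj
      rw [hΦ, AlgHom.commutes, ← Algebra.commutes, mul_assoc, hinv', mul_one]
  choose Ψ hΨ using hex
  have hfinX : Finite (C →ₐ[F] F) := inferInstance
  let σ : Subgroup.normalizer (E : Set G) → (C →ₐ[F] F) → (C →ₐ[F] F) := fun x χ => χ.comp (Ψ x)
  have hσ : ∀ x, Function.Injective (σ x) := by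
    intro x χ χ' h
    apply AlgHom.ext
    intro c
    have h1 : Ψ x (Φ x⁻¹ c) = c := by
      apply hj
      rw [hΨ, hΦ, hΦ]
      have h2 : ρ x * (ρ ((x⁻¹ : Subgroup.normalizer (E : Set G)) : G) * j c *
          ρ ((x⁻¹ : Subgroup.normalizer (E : Set G)) : G)⁻¹) * ρ (x : G)⁻¹ =
          (ρ x * ρ (x : G)⁻¹) * j c * (ρ x * ρ (x : G)⁻¹) := by
        simp only [mul_assoc, Subgroup.coe_inv, inv_inv]
      rw [h2, hinv', mul_one, one_mul]
    have h2 := DFunLike.congr_fun h (Φ x⁻¹ c)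
    have h3 : χ (Ψ x (Φ x⁻¹ c)) = χ' (Ψ x (Φ x⁻¹ c)) := h2
    rwa [h1] at h3
  let π : Subgroup.normalizer (E : Set G) → Equiv.Perm (C →ₐ[F] F) := fun x =>
    Equiv.ofBijective (σ x) (Finite.injective_iff_bijective.1 (hσ x))
  have hπ : ∀ x χ c, (π x χ) c = χ (Φ x c) := by
    intro x χ c
    show χ (Ψ x c) = _
    rw [hΨ]
  have hπk : ∀ x (k : ℕ) χ c, ((π x ^ k) χ) c = χ ((Φ x)^[k] c) := by
    intro x k
    induction k with
    | zero => intro χ c; rfl
    | succ k ih =>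
      intro χ c
      rw [pow_succ', Equiv.Perm.mul_apply, hπ, ih, Function.iterate_succ_apply]
  have hΦk : ∀ x (k : ℕ) c, j ((Φ x)^[k] c) = ρ ((x : G) ^ k) * j c * ρ ((x : G) ^ k)⁻¹ := by
    intro x k
    induction k with
    | zero => intro c; simp
    | succ k ih =>
      intro c
      rw [Function.iterate_succ_apply', hΦ, ih, pow_succ', mul_inv_rev, map_mul, map_mul]
      simp only [mul_assoc]
  refine ⟨Nat.card (Equiv.Perm (C →ₐ[F] F)), Nat.card_pos, fun x hx e he => ?_⟩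
  set m := Nat.card (Equiv.Perm (C →ₐ[F] F)) with hm
  obtain ⟨c, hc'⟩ : ∃ c, j c = ρ e := (hrange _).2 (Algebra.subset_adjoin ⟨e, he, rfl⟩)
  obtain ⟨c2, hc2⟩ : ∃ c, j c = ρ e⁻¹ :=
    (hrange _).2 (Algebra.subset_adjoin ⟨e⁻¹, E.inv_mem he, rfl⟩)
  have h1 : IsNilpotent ((Φ ⟨x, hx⟩)^[m] c - c) := by
    apply nil_of_char (F := F)
    intro χ
    rw [map_sub, ← hπk, hm, pow_card_eq_one', sub_eq_zero]
    rfl
  have h2 : IsNilpotent (((Φ ⟨x, hx⟩)^[m] c - c) * c2) := (Commute.all _ _).isNilpotent_mul_right h1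
  have h3 := h2.map j
  have h4 : j (((Φ ⟨x, hx⟩)^[m] c - c) * c2) = ρ (cm (x ^ m) e) - 1 := by
    rw [map_mul, map_sub, hΦk, hc', hc2, sub_mul, hinv']
    unfold cm
    rw [map_mul, map_mul, map_mul]
  rwa [h4] at h3

end expo

section logs
variable {B : Type} [Ring B] [Algebra ℚ B]

theorem logD_add' (n m : B) (hc : n * m = m * n) (d D : ℕ) (hn : n ^ d = 0) (hm : m ^ d = 0)
    (hD : 2 * d ≤ D) : logD D (n + m + n * m) = logD D n + logD D m := by
  obtain ⟨C, i1, i2, j, hj, hrange⟩ := exists_comm ℚ ({n, m} : Set B) (by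
    rintro a (rfl | rfl) b (rfl | rfl)
    · rfl
    · exact hc
    · exact hc.symm
    · rfl)
  obtain ⟨x, hx⟩ : ∃ c, j c = n := (hrange _).2 (Algebra.subset_adjoin (Or.inl rfl))
  obtain ⟨y, hy⟩ : ∃ c, j c = m := (hrange _).2 (Algebra.subset_adjoin (Or.inr rfl))
  have hxd : x ^ d = 0 := by
    apply hj
    rw [map_pow, hx, hn, map_zero]
  have hyd : y ^ d = 0 := by
    apply hj
    rw [map_pow, hy, hm, map_zero]
  have h1 := congrArg j (logD_add x y d D hxd hyd hD)
  rw [map_add] at h1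
  have h2 : ∀ z : C, j (logD D z) = logD D (j z) := fun z => logD_map j.toRingHom D z
  rw [h2, h2, h2, map_add, map_add, map_mul, hx, hy] at h1
  exact h1

theorem logD_inj' (n : B) (hn : IsNilpotent n) (D : ℕ) (hD : 0 < D) (h : logD D n = 0) :
    n = 0 := by
  obtain ⟨C, i1, i2, j, hj, hrange⟩ := exists_comm ℚ ({n} : Set B) (by
    rintro a rfl b rfl
    rfl)
  obtain ⟨x, hx⟩ : ∃ c, j c = n := (hrange _).2 (Algebra.subset_adjoin rfl)
  have h2 : ∀ z : C, j (logD D z) = logD D (j z) := fun z => logD_map j.toRingHom D z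
  have h3 : IsNilpotent x := by
    rw [← hx] at hn
    exact (IsNilpotent.map_iff hj).1 hn
  have h4 : logD D x = 0 := by
    apply hj
    rw [h2, hx, h, map_zero]
  rw [← hx, logD_inj x h3 D hD h4, map_zero]

theorem logD_mem {R₁ : Type} [CommRing R₁] [Algebra R₁ B] (D : ℕ)
    (hden : ∀ k < D, ∃ r : R₁, ∀ a : B, r • a = ((-1 : ℚ) ^ k / ((k : ℚ) + 1)) • a)
    (P : Submodule R₁ B) (x : B) (hx : x ∈ P) :
    logD D x ∈ ⨆ k ∈ Finset.range D, P ^ (k + 1) := by
  rw [logD]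
  refine Submodule.sum_mem _ fun k hk => ?_
  obtain ⟨r, hr⟩ := hden k (Finset.mem_range.1 hk)
  rw [← hr]
  refine Submodule.smul_mem _ r ?_
  have h1 : P ^ (k + 1) ≤ ⨆ k ∈ Finset.range D, P ^ (k + 1) :=
    le_iSup₂_of_le k hk le_rfl
  exact h1 (Submodule.pow_mem_pow P hx (k + 1))

end logs

section nilp
variable {F : Type} [Field F]

theorem matrix_nil {d : ℕ} (M : Matrix (Fin d) (Fin d) F) (h : IsNilpotent M) : M ^ d = 0 := by
  have h1 := Matrix.isNilpotent_charpoly_sub_pow_of_isNilpotent h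
  have h2 := h1.eq_zero
  rw [sub_eq_zero, Fintype.card_fin] at h2
  have h3 := Matrix.aeval_self_charpoly M
  rw [h2] at h3
  simpa using h3

end nilp

end Pool.Agent.Helper657_nd.Lin
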