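import Pool.Agent.Helper657_nd.FinMod

set_option autoImplicit false

/-!
# Solvable subgroups whose abelian subgroups have minimax hulls
-/

namespace Pool.Agent.Helper657_nd.Solv

open Subgroup Weyl Seg Comm

variable {G : Type} [Group G]

/-- Minimax with finite torsion (for abelian groups): every element has a power with exponent
a power of `s` in a fixed finitely generated subgroup, and there are only finitely many elements
of finite order. -/
def MFT (A : Subgroup G) : Prop :=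
  ∃ (s : ℕ) (S : Finset G), 0 < s ∧ (∀ a ∈ S, a ∈ A) ∧
    (∀ a ∈ A, ∃ k : ℕ, a ^ s ^ k ∈ Subgroup.closure (S : Set G)) ∧
    {a : G | a ∈ A ∧ IsOfFinOrder a}.Finite

theorem exists_emb (A : Subgroup G) (hc : IsAb A) :
    ∃ (M : Type) (_ : AddCommGroup M) (ι : M → G), Emb A ι := by
  let _ : CommGroup A := { (inferInstance : Group A) with
    mul_comm := fun a b => Subtype.ext (hc a a.2 b b.2) }
  exact ⟨Additive A, inferInstance, fun x => ((Additive.toMul x : A) : G),
    { inj := fun x y h => by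
        have : (Additive.toMul x : A) = Additive.toMul y := Subtype.ext h
        exact Additive.toMul.injective this
      add := fun x y => rfl
      mem := fun g => ⟨fun hg => ⟨Additive.ofMul ⟨g, hg⟩, rfl⟩,
        by rintro ⟨y, rfl⟩; exact (Additive.toMul y).2⟩ }⟩

section emb
variable {M : Type} [AddCommGroup M] {A : Subgroup G} {ι : M → G} (E : Emb A ι)
include E

theorem MM_of_emb {s : ℕ} (S : Finset G) (hSA : ∀ a ∈ S, a ∈ A)
    (hS : ∀ a ∈ A, ∃ k : ℕ, a ^ s ^ k ∈ Subgroup.closure (S : Set G)) : MM s M := by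
  classical
  choose! g hg using fun a (ha : a ∈ S) => (E.mem a).1 (hSA a ha)
  refine ⟨S.image g, fun y => ?_⟩
  obtain ⟨k, hk⟩ := hS (ι y) (E.memι y)
  refine ⟨k, ?_⟩
  let H : Subgroup G :=
    { carrier := {x | ∃ y ∈ AddSubgroup.closure ((S.image g : Finset M) : Set M), ι y = x}
      mul_mem' := by
        rintro _ _ ⟨a, ha, rfl⟩ ⟨b, hb, rfl⟩
        exact ⟨a + b, AddSubgroup.add_mem _ ha hb, E.add a b⟩
      one_mem' := ⟨0, AddSubgroup.zero_mem _, E.zero⟩
      inv_mem' := by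
        rintro _ ⟨a, ha, rfl⟩
        exact ⟨-a, AddSubgroup.neg_mem _ ha, E.neg a⟩ }
  have h1 : Subgroup.closure (S : Set G) ≤ H := by
    rw [Subgroup.closure_le]
    intro a ha
    exact ⟨g a, AddSubgroup.subset_closure (Finset.mem_coe.2 (Finset.mem_image_of_mem g ha)),
      hg a ha⟩
  obtain ⟨y', hy', h2⟩ := h1 hk
  rw [← E.nsmul] at h2
  rwa [← E.inj h2]

theorem of_MM {s : ℕ} (h : MM s M) : ∃ S : Finset G, (∀ a ∈ S, a ∈ A) ∧
    ∀ a ∈ A, ∃ k : ℕ, a ^ s ^ k ∈ Subgroup.closure (S : Set G) := by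
  classical
  obtain ⟨S, hS⟩ := h
  refine ⟨S.image ι, ?_, ?_⟩
  · intro a ha
    obtain ⟨y, _, rfl⟩ := Finset.mem_image.1 ha
    exact E.memι y
  · intro a ha
    obtain ⟨y, rfl⟩ := (E.mem a).1 ha
    obtain ⟨k, hk⟩ := hS y
    refine ⟨k, ?_⟩
    rw [← E.nsmul]
    have key : ∀ x ∈ AddSubgroup.closure (S : Set M),
        ι x ∈ Subgroup.closure ((S.image ι : Finset G) : Set G) := by
      intro x hx
      induction hx using AddSubgroup.closure_induction with
      | mem z hz => exact Subgroup.subset_closure (Finset.mem_coe.2 (Finset.mem_image_of_mem ι hz))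
      | zero => rw [E.zero]; exact Subgroup.one_mem _
      | add x z _ _ hx hz => rw [E.add]; exact Subgroup.mul_mem _ hx hz
      | neg x _ hx => rw [E.neg]; exact Subgroup.inv_mem _ hx
    exact key _ hk

end emb

theorem MFT.sub {E A : Subgroup G} (h : MFT E) (hc : IsAb E) (hAE : A ≤ E) : MFT A := by
  obtain ⟨s, S, hs, hSE, hS, hT⟩ := h
  obtain ⟨M, _, ι, Em⟩ := exists_emb E hc
  have hMM := MM_of_emb Em S hSE hS
  obtain ⟨M', _, ι', Em'⟩ := exists_emb A fun a ha b hb => hc a (hAE ha) b (hAE hb)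
  choose f hf using fun y : M' => (Em.mem (ι' y)).1 (hAE (Em'.memι y))
  let f' : M' →+ M :=
    { toFun := f
      map_zero' := by
        apply Em.inj
        rw [hf, Em'.zero, Em.zero]
      map_add' := fun x y => by
        apply Em.inj
        rw [hf, Em'.add, Em.add, hf, hf] }
  have hinj : Function.Injective f' := by
    intro x y hxy
    apply Em'.inj
    rw [← hf, ← hf]
    exact congrArg ι hxy
  obtain ⟨S', h1, h2⟩ := of_MM Em' (hMM.of_injective f' hinj)
  exact ⟨s, S', hs, h1, h2, hT.subset fun a ha => ⟨hAE ha.1, ha.2⟩⟩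

theorem exists_exponent {A : Subgroup G} (hT : {a : G | a ∈ A ∧ IsOfFinOrder a}.Finite) :
    ∃ e : ℕ, 0 < e ∧ ∀ a ∈ A, ∀ n : ℕ, 0 < n → a ^ n = 1 → a ^ e = 1 := by
  classical
  refine ⟨∏ a ∈ hT.toFinset, orderOf a, ?_, ?_⟩
  · apply Finset.prod_pos
    intro a ha
    exact ((Set.Finite.mem_toFinset hT).1 ha).2.orderOf_pos
  · intro a ha n hn h
    have h1 : a ∈ hT.toFinset :=
      (Set.Finite.mem_toFinset hT).2 ⟨ha, isOfFinOrder_iff_pow_eq_one.2 ⟨n, hn, h⟩⟩
    exact orderOf_dvd_iff_pow_eq_one.1 (Finset.dvd_prod_of_mem _ h1)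

/-- Local form: an abelian subgroup with infinite Weyl group and minimax hull. -/
theorem weyl_of_mft (A H : Subgroup G) (hA : IsAb A) (hm : MFT (cc A))
    (hidx : (centralizer (A : Set G)).relIndex (normalizer (A : Set G) ⊓ H) = 0) :
    Undec G := by
  classical
  obtain ⟨s, S, hs, hSA, hS, hT⟩ := hm.sub (isAb_cc A) (le_cc hA)
  obtain ⟨κ, hκ, hκT⟩ := exists_exponent hT
  obtain ⟨M, _, ι, Em⟩ := exists_emb A hA
  have hMM := MM_of_emb Em S hSA hS
  let A₀ : Subgroup G := closure (S : Set G)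
  have hA₀fg : A₀.FG := ⟨S, rfl⟩
  have hA₀A : A₀ ≤ A := by
    rw [closure_le]
    exact fun a ha => hSA a ha
  have hA₀ : IsAb A₀ := fun a ha b hb => hA a (hA₀A ha) b (hA₀A hb)
  have hEle : cc A₀ ≤ cc A := by
    rintro z ⟨-, hz⟩
    have h1 : centralizer (A : Set G) ≤ centralizer (A₀ : Set G) := centralizer_le hA₀A
    refine ⟨mem_centralizer_iff.2 fun a ha => ?_, mem_centralizer_iff.2 fun y hy => ?_⟩
    · exact mem_centralizer_iff.1 hz a (mem_centralizer_iff.2 fun b hb => hA b (hA₀A hb) a ha)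
    · exact mem_centralizer_iff.1 hz y (h1 hy)
  obtain ⟨sE, SE, hsE, hSE1, hSE2, hTE⟩ := hm.sub (isAb_cc A) hEle
  obtain ⟨e, he, heT⟩ := exists_exponent hTE
  -- the virtual centralizer
  let N := normalizer (A : Set G) ⊓ H
  let C' : Subgroup G :=
    { carrier := {x | x ∈ N ∧ ∃ m : ℕ, 0 < m ∧ ∀ a ∈ A₀, x * a ^ m * x⁻¹ = a ^ m}
      mul_mem' := by
        rintro x y ⟨hx, m, hm, h1⟩ ⟨hy, l, hl, h2⟩
        refine ⟨N.mul_mem hx hy, m * l, Nat.mul_pos hm hl, fun a ha => ?_⟩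
        have h3 : y * a ^ (m * l) * y⁻¹ = a ^ (m * l) := by
          rw [pow_mul]
          exact h2 _ (A₀.pow_mem ha m)
        have h4 : x * a ^ (m * l) * x⁻¹ = a ^ (m * l) := by
          rw [mul_comm m l, pow_mul]
          exact h1 _ (A₀.pow_mem ha l)
        have h5 : x * y * a ^ (m * l) * (x * y)⁻¹ = x * (y * a ^ (m * l) * y⁻¹) * x⁻¹ := by group
        rw [h5, h3, h4]
      one_mem' := ⟨N.one_mem, 1, Nat.one_pos, fun a _ => by simp⟩
      inv_mem' := by
        rintro x ⟨hx, m, hm, h1⟩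
        refine ⟨N.inv_mem hx, m, hm, fun a ha => ?_⟩
        conv_lhs => rw [← h1 a ha]
        group }
  have hCC : (centralizer (A : Set G)).relIndex C' ≠ 0 := by
    have hTM : {y : M | ∃ n : ℕ, n ≠ 0 ∧ n • y = 0}.Finite := by
      refine Set.Finite.of_finite_image (f := ι) (hT.subset ?_) Em.inj.injOn
      rintro _ ⟨y, ⟨n, hn, hy⟩, rfl⟩
      refine ⟨Em.memι y, isOfFinOrder_iff_pow_eq_one.2 ⟨n, Nat.pos_of_ne_zero hn, ?_⟩⟩
      rw [← Em.nsmul, hy, Em.zero]
    obtain ⟨F, hF, hFy⟩ := hMM.finite_mod hs hTM κ hκ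
    have hfinF : Finite F := hF
    have hfinT : Finite {a : G | a ∈ A ∧ IsOfFinOrder a} := hT
    have hmemA : ∀ x ∈ N, ∀ a ∈ A, x * a * x⁻¹ ∈ A := fun x hx a ha =>
      (mem_normalizer_iff.1 hx.1 a).1 ha
    have hτ : ∀ (x : C') (y : M), ((x : G) * ι y * (x : G)⁻¹ * (ι y)⁻¹) ∈
        {a : G | a ∈ A ∧ IsOfFinOrder a} := by
      rintro ⟨x, hx, m, hm, h1⟩ y
      have h2 := hmemA x hx _ (Em.memι y)
      refine ⟨A.mul_mem h2 (A.inv_mem (Em.memι y)), ?_⟩
      obtain ⟨k, hk⟩ := hS _ (Em.memι y)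
      rw [isOfFinOrder_iff_pow_eq_one]
      refine ⟨s ^ k * m, Nat.mul_pos (pow_pos hs k) hm, ?_⟩
      have hcomm : Commute (x * ι y * x⁻¹) (ι y)⁻¹ := hA _ h2 _ (A.inv_mem (Em.memι y))
      show (x * ι y * x⁻¹ * (ι y)⁻¹) ^ (s ^ k * m) = 1
      rw [hcomm.mul_pow, inv_pow, mul_inv_eq_one, conj_pow, pow_mul]
      exact h1 _ hk
    refine relIndex_of_map (L := C') (X := F → {a : G | a ∈ A ∧ IsOfFinOrder a})
      (fun x f => ⟨_, hτ x f⟩) ?_
    intro x y hxy
    have h1 : ∀ f ∈ F, (x : G) * ι f * (x : G)⁻¹ = (y : G) * ι f * (y : G)⁻¹ := by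
      intro f hf
      have h2 := congrArg Subtype.val (congrFun hxy ⟨f, hf⟩)
      exact mul_right_cancel h2
    have h2 : ∀ (x : C') (z : M), (x : G) * ι (κ • z) * (x : G)⁻¹ = ι (κ • z) := by
      intro x z
      obtain ⟨h3, h4⟩ := hτ x z
      obtain ⟨n, hn, h5⟩ := isOfFinOrder_iff_pow_eq_one.1 h4
      have h6 := hκT _ h3 n hn h5
      have h7 := hmemA x x.2.1 _ (Em.memι z)
      have hcomm : Commute ((x : G) * ι z * (x : G)⁻¹) (ι z)⁻¹ :=
        hA _ h7 _ (A.inv_mem (Em.memι z))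
      rw [hcomm.mul_pow, inv_pow, mul_inv_eq_one, conj_pow] at h6
      rw [Em.nsmul]
      exact h6
    rw [mem_centralizer_iff]
    intro a ha
    obtain ⟨w, rfl⟩ := (Em.mem a).1 ha
    obtain ⟨f, hf, z, rfl⟩ := hFy w
    have h3 : (x : G) * ι (f + κ • z) * (x : G)⁻¹ = (y : G) * ι (f + κ • z) * (y : G)⁻¹ := by
      have h4 : ∀ g : G, g * ι (f + κ • z) * g⁻¹ = (g * ι f * g⁻¹) * (g * ι (κ • z) * g⁻¹) := by
        intro g
        rw [Em.add]
        group
      rw [h4, h4, h1 f hf, h2, h2]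
    have h4 : ι (f + κ • z) * ((x : G)⁻¹ * y) =
        (x : G)⁻¹ * ((x : G) * ι (f + κ • z) * (x : G)⁻¹) * y := by group
    rw [h4, h3]
    group
  have hC'N : C'.relIndex N = 0 := by
    by_contra hne
    exact relIndex_ne_zero_trans hCC hne hidx
  have hinf : Infinite (N ⧸ C'.subgroupOf N) := by
    by_contra hfin
    rw [not_infinite_iff_finite] at hfin
    exact (index_ne_zero_of_finite (H := C'.subgroupOf N)) hC'N
  let q := Infinite.natEmbedding (N ⧸ C'.subgroupOf N)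
  let f : ℕ → G := fun i => ((Quotient.out (q i) : N) : G)
  have hfN : ∀ i, f i ∈ N := fun i => (Quotient.out (q i)).2
  refine commX (cc A₀) (isAb_cc A₀) (cc_def (centralizer_def hA₀fg)) sE hsE SE hSE1 hSE2 e he heT
    A₀ (le_cc hA₀) f (fun i => ?_) (fun i j hij m hm => ?_)
  · have hx := hfN i
    have h1 : ∀ a ∈ S, ∃ k : ℕ, (f i * a * (f i)⁻¹) ^ s ^ k ∈ A₀ := fun a ha =>
      hS _ ((mem_normalizer_iff.1 hx.1 a).1 (hSA a ha))
    choose! k hk using h1
    let K := ∑ a ∈ S, k a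
    have hK : ∀ a ∈ S, k a ≤ K := fun a ha =>
      Finset.single_le_sum (f := k) (fun _ _ => Nat.zero_le _) ha
    refine ⟨s ^ K, pow_pos hs K, ?_⟩
    intro a ha
    induction ha using Subgroup.closure_induction with
    | mem a ha =>
      obtain ⟨l, hl⟩ := Nat.exists_eq_add_of_le (hK a ha)
      rw [← conj_pow, hl, pow_add, pow_mul]
      exact A₀.pow_mem (hk a ha) _
    | one => simp
    | mul a b ha hb iha ihb =>
      have hcomm : Commute a b := hA₀ a ha b hb
      have h2 : f i * (a * b) ^ s ^ K * (f i)⁻¹ =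
          (f i * a ^ s ^ K * (f i)⁻¹) * (f i * b ^ s ^ K * (f i)⁻¹) := by
        rw [hcomm.mul_pow]
        group
      rw [h2]
      exact A₀.mul_mem iha ihb
    | inv a ha iha =>
      have h2 : f i * a⁻¹ ^ s ^ K * (f i)⁻¹ = (f i * a ^ s ^ K * (f i)⁻¹)⁻¹ := by
        rw [inv_pow]
        group
      rw [h2]
      exact A₀.inv_mem iha
  · by_contra hcon
    push Not at hcon
    have h1 : (f i)⁻¹ * f j ∈ C' := by
      refine ⟨N.mul_mem (N.inv_mem (hfN i)) (hfN j), m, hm, fun a ha => ?_⟩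
      have h2 : (f i)⁻¹ * f j * a ^ m * ((f i)⁻¹ * f j)⁻¹ =
          (f i)⁻¹ * (f j * a ^ m * (f j)⁻¹) * f i := by group
      rw [h2, ← hcon a ha]
      group
    have h2 : (Quotient.out (q i))⁻¹ * Quotient.out (q j) ∈ C'.subgroupOf N := h1
    rw [← QuotientGroup.eq] at h2
    have h3 : q i = q j := by simpa using h2
    exact hij (q.injective h3)

/-- Solvable subgroups. -/
theorem main2 (H : Subgroup G) (hm : ∀ A : Subgroup G, A ≤ H → IsAb A → MFT (cc A))
    (hH : Group.IsSolvable H) (hV : ¬ VAb H) : Undec G := by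
  by_contra hcon
  refine hV (vab_of_solvable2 H (fun A hAH hA h0 => hcon ?_) hH)
  exact weyl_of_mft A H hA (hm A hAH hA) h0

end Pool.Agent.Helper657_nd.Solv
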