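import Pool.Agent.Helper657_nd.LinA
import Pool.Agent.Helper657_nd.SolvMM

set_option autoImplicit false

/-!
# Linear groups: congruence subgroups and unipotent elements
-/

namespace Pool.Agent.Helper657_nd.Lin

open Crit Weyl Seg SegFT Solv

section cong
variable {G R₁ B₁ : Type} [Group G] [CommRing R₁] [Ring B₁] [Algebra R₁ B₁] {m : Ideal R₁}

theorem mulL {a : B₁} (b : B₁) (ha : a ∈ (m • ⊤ : Submodule R₁ B₁)) :
    b * a ∈ (m • ⊤ : Submodule R₁ B₁) := by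
  have h : (LinearMap.mulLeft R₁ b) a ∈ Submodule.map (LinearMap.mulLeft R₁ b) (m • ⊤) :=
    ⟨a, ha, rfl⟩
  rw [Submodule.map_smul''] at h
  exact Submodule.smul_mono le_rfl le_top h

theorem mulR {a : B₁} (b : B₁) (ha : a ∈ (m • ⊤ : Submodule R₁ B₁)) :
    a * b ∈ (m • ⊤ : Submodule R₁ B₁) := by
  have h : (LinearMap.mulRight R₁ b) a ∈ Submodule.map (LinearMap.mulRight R₁ b) (m • ⊤) :=
    ⟨a, ha, rfl⟩
  rw [Submodule.map_smul''] at h
  exact Submodule.smul_mono le_rfl le_top h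

/-- congruence subgroup -/
def CG (ρ₁ : G →* B₁) (m : Ideal R₁) : Subgroup G where
  carrier := {x | ρ₁ x - 1 ∈ (m • ⊤ : Submodule R₁ B₁)}
  mul_mem' := by
    intro x y hx hy
    show ρ₁ (x * y) - 1 ∈ (m • ⊤ : Submodule R₁ B₁)
    have h : ρ₁ (x * y) - 1 = ρ₁ x * (ρ₁ y - 1) + (ρ₁ x - 1) := by
      rw [map_mul]
      noncomm_ring
    rw [h]
    exact Submodule.add_mem _ (mulL _ hy) hx
  one_mem' := by
    show ρ₁ 1 - 1 ∈ (m • ⊤ : Submodule R₁ B₁)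
    rw [map_one, sub_self]
    exact Submodule.zero_mem _
  inv_mem' := by
    intro x hx
    show ρ₁ x⁻¹ - 1 ∈ (m • ⊤ : Submodule R₁ B₁)
    have h : ρ₁ x⁻¹ - 1 = -(ρ₁ x⁻¹ * (ρ₁ x - 1)) := by
      rw [mul_sub, ← map_mul, inv_mul_cancel, map_one, mul_one, neg_sub]
    rw [h]
    exact Submodule.neg_mem _ (mulL _ hx)

theorem CG.conj {ρ₁ : G →* B₁} {x : G} (hx : x ∈ CG ρ₁ m) (v : B₁) :
    ρ₁ x * v * ρ₁ x⁻¹ - v ∈ (m • ⊤ : Submodule R₁ B₁) := by
  have h1 : ρ₁ x - 1 ∈ (m • ⊤ : Submodule R₁ B₁) := hx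
  have h2 : ρ₁ x⁻¹ - 1 ∈ (m • ⊤ : Submodule R₁ B₁) := (CG ρ₁ m).inv_mem hx
  have h : ρ₁ x * v * ρ₁ x⁻¹ - v = (ρ₁ x - 1) * (v * ρ₁ x⁻¹) + v * (ρ₁ x⁻¹ - 1) := by
    noncomm_ring
  rw [h]
  exact Submodule.add_mem _ (mulR _ h1) (mulL _ h2)

theorem CG.index [Algebra.FiniteType ℤ R₁] [Module.Finite R₁ B₁] (ρ₁ : G →* B₁)
    (hm : m.IsMaximal) (K : Subgroup G) : (CG ρ₁ m).relIndex K ≠ 0 := by
  have hfin0 : Finite (R₁ ⧸ m) := by
    have := Krull.finite_quot m 1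
    rwa [pow_one] at this
  have hfin1 : Module.Finite (R₁ ⧸ m) (B₁ ⧸ (m • ⊤ : Submodule R₁ B₁)) :=
    Module.Finite.of_restrictScalars_finite R₁ (R₁ ⧸ m) _
  have hfin : Finite (B₁ ⧸ (m • ⊤ : Submodule R₁ B₁)) := Module.finite_of_finite (R₁ ⧸ m)
  refine relIndex_of_map (L := K) (X := B₁ ⧸ (m • ⊤ : Submodule R₁ B₁))
    (fun x : K => Submodule.Quotient.mk (ρ₁ (x : G))) ?_
  intro x y hxy
  rw [Submodule.Quotient.eq] at hxy
  show ρ₁ ((x : G)⁻¹ * y) - 1 ∈ (m • ⊤ : Submodule R₁ B₁)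
  have h : ρ₁ ((x : G)⁻¹ * y) - 1 = -(ρ₁ (x : G)⁻¹ * (ρ₁ (x : G) - ρ₁ (y : G))) := by
    rw [mul_sub, ← map_mul, ← map_mul, inv_mul_cancel, map_one, neg_sub]
  rw [h]
  exact Submodule.neg_mem _ (mulL _ hxy)

theorem CG.fix [IsDomain R₁] [IsNoetherianRing R₁] [Module.Finite R₁ B₁]
    (htf : ∀ (r : R₁) (v : B₁), r ≠ 0 → r • v = 0 → v = 0) (m₁ m₂ : Ideal R₁)
    (hm₁ : m₁.IsMaximal) (hm₂ : m₂.IsMaximal)
    (hmm : ∀ p : ℕ, p.Prime → ((p : ℕ) : R₁) ∉ m₁ ∨ ((p : ℕ) : R₁) ∉ m₂) (ρ₁ : G →* B₁)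
    (hρ₁ : Function.Injective ρ₁) {x : G} (h₁ : x ∈ CG ρ₁ m₁) (h₂ : x ∈ CG ρ₁ m₂) (k : ℕ)
    (hk : 0 < k) (g : G) (h : x ^ k * g * (x ^ k)⁻¹ = g) : x * g * x⁻¹ = g := by
  let T : Module.End R₁ B₁ := (LinearMap.mulLeft R₁ (ρ₁ x)).comp (LinearMap.mulRight R₁ (ρ₁ x⁻¹))
  have hT : ∀ v, T v = ρ₁ x * v * ρ₁ x⁻¹ := fun v => by
    show ρ₁ x * (v * ρ₁ x⁻¹) = _
    rw [mul_assoc]
  have hTk : ∀ (i : ℕ) (v : B₁), (T ^ i) v = ρ₁ (x ^ i) * v * ρ₁ (x ^ i)⁻¹ := by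
    intro i
    induction i with
    | zero => intro v; simp
    | succ i ih =>
      intro v
      rw [pow_succ']
      show T ((T ^ i) v) = _
      rw [ih, hT, pow_succ', mul_inv_rev, map_mul, map_mul]
      simp only [mul_assoc]
  have h3 := fix_of_pow' htf m₁ m₂ hm₁ hm₂ hmm k hk T (fun v => by rw [hT]; exact CG.conj h₁ v)
    (fun v => by rw [hT]; exact CG.conj h₂ v) (ρ₁ g) (by
      rw [hTk, ← map_mul, ← map_mul, h])
  apply hρ₁
  rw [map_mul, map_mul, ← hT, h3]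

end cong

section cmE
variable {G : Type} [Group G] {E : Subgroup G} (hc : ∀ a ∈ E, ∀ b ∈ E, a * b = b * a)

theorem conj_mem {u : G} (hu : u ∈ Subgroup.normalizer (E : Set G)) {a : G} (ha : a ∈ E) :
    u * a * u⁻¹ ∈ E := (Subgroup.mem_normalizer_iff.1 hu a).1 ha

theorem cm_mem {u : G} (hu : u ∈ Subgroup.normalizer (E : Set G)) {a : G} (ha : a ∈ E) :
    cm u a ∈ E := E.mul_mem (conj_mem hu ha) (E.inv_mem ha)

theorem cmI_mem {u : G} (hu : u ∈ Subgroup.normalizer (E : Set G)) (j : ℕ) {a : G} (ha : a ∈ E) :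
    cmI u j a ∈ E := by
  induction j with
  | zero => exact ha
  | succ j ih => exact cm_mem hu ih

include hc

theorem cm_hom {u : G} (hu : u ∈ Subgroup.normalizer (E : Set G)) {a b : G} (ha : a ∈ E)
    (hb : b ∈ E) : cm u (a * b) = cm u a * cm u b := by
  have h1 := conj_mem hu hb
  have h2 : cm u (a * b) = (u * a * u⁻¹) * ((u * b * u⁻¹) * b⁻¹) * a⁻¹ := by
    unfold cm
    group
  have h3 : cm u a * cm u b = (u * a * u⁻¹) * (a⁻¹ * ((u * b * u⁻¹) * b⁻¹)) := by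
    unfold cm
    group
  rw [h2, h3, mul_assoc, hc _ (E.mul_mem h1 (E.inv_mem hb)) _ (E.inv_mem ha)]

theorem cm_inv' {u : G} (hu : u ∈ Subgroup.normalizer (E : Set G)) {a : G} (ha : a ∈ E) :
    cm u a⁻¹ = (cm u a)⁻¹ := by
  apply eq_inv_of_mul_eq_one_left
  rw [← cm_hom hc hu (E.inv_mem ha) ha, inv_mul_cancel]
  simp [cm]

theorem cmI_hom {u : G} (hu : u ∈ Subgroup.normalizer (E : Set G)) (j : ℕ) {a b : G}
    (ha : a ∈ E) (hb : b ∈ E) : cmI u j (a * b) = cmI u j a * cmI u j b := by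
  induction j with
  | zero => rfl
  | succ j ih =>
    show cm u (cmI u j (a * b)) = cm u (cmI u j a) * cm u (cmI u j b)
    rw [ih, cm_hom hc hu (cmI_mem hu j ha) (cmI_mem hu j hb)]

theorem cmI_inv' {u : G} (hu : u ∈ Subgroup.normalizer (E : Set G)) (j : ℕ) {a : G}
    (ha : a ∈ E) : cmI u j a⁻¹ = (cmI u j a)⁻¹ := by
  apply eq_inv_of_mul_eq_one_left
  rw [← cmI_hom hc hu j (E.inv_mem ha) ha, inv_mul_cancel]
  induction j with
  | zero => rfl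
  | succ j ih =>
    show cm u (cmI u j 1) = 1
    rw [ih]
    simp [cm]

omit hc in
theorem cmI_one (u : G) (j : ℕ) : cmI u j 1 = 1 := by
  induction j with
  | zero => rfl
  | succ j ih =>
    show cm u (cmI u j 1) = 1
    rw [ih]
    simp [cm]

omit hc in
theorem cmI_conj {u d : G} (h : d * u = u * d) (j : ℕ) (a : G) :
    d * cmI u j a * d⁻¹ = cmI u j (d * a * d⁻¹) := by
  induction j with
  | zero => rfl
  | succ j ih =>
    show d * cm u (cmI u j a) * d⁻¹ = cm u (cmI u j (d * a * d⁻¹))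
    rw [← ih]
    have h1 : d * u * d⁻¹ = u := by rw [h, mul_inv_cancel_right]
    have h2 : d * cm u (cmI u j a) * d⁻¹ = cm (d * u * d⁻¹) (d * cmI u j a * d⁻¹) := by
      unfold cm
      group
    rw [h2, h1]

/-- the image of the iterated commutator map -/
def BS {u : G} (hu : u ∈ Subgroup.normalizer (E : Set G)) (j : ℕ) : Subgroup G where
  carrier := {b | BG E u j b}
  mul_mem' := by
    rintro _ _ ⟨a, ha, rfl⟩ ⟨b, hb, rfl⟩
    exact ⟨a * b, E.mul_mem ha hb, (cmI_hom hc hu j ha hb).symm⟩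
  one_mem' := ⟨1, E.one_mem, (cmI_one u j).symm⟩
  inv_mem' := by
    rintro _ ⟨a, ha, rfl⟩
    exact ⟨a⁻¹, E.inv_mem ha, (cmI_inv' hc hu j ha).symm⟩

omit hc in
theorem cmI_comm (u : G) (j : ℕ) (a : G) : cmI u j (cm u a) = cm u (cmI u j a) := by
  induction j with
  | zero => rfl
  | succ j ih =>
    show cm u (cmI u j (cm u a)) = _
    rw [ih]
    rfl

/-- the elements killed by the square of the commutator map -/
def VS {u : G} (hu : u ∈ Subgroup.normalizer (E : Set G)) : Subgroup G where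
  carrier := {v | VG E u v}
  mul_mem' := by
    rintro a b ⟨ha, ha'⟩ ⟨hb, hb'⟩
    refine ⟨E.mul_mem ha hb, ?_⟩
    rw [cm_hom hc hu ha hb, cm_hom hc hu (cm_mem hu ha) (cm_mem hu hb), ha', hb', mul_one]
  one_mem' := ⟨E.one_mem, by simp [cm]⟩
  inv_mem' := by
    rintro a ⟨ha, ha'⟩
    refine ⟨E.inv_mem ha, ?_⟩
    rw [cm_inv' hc hu ha, cm_inv' hc hu (cm_mem hu ha), ha', inv_one]

end cmE

section unip
variable {G F B : Type} [Group G] [Field F] [Ring B] [Algebra F B] [Algebra ℚ B]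
  (ρ : G →* B)

/-- conjugation -/
def conjR (g : G) : B →+* B where
  toFun v := ρ g * v * ρ g⁻¹
  map_one' := by rw [mul_one, ← map_mul, mul_inv_cancel, map_one]
  map_mul' a b := by
    have h2 : (ρ g * a * ρ g⁻¹) * (ρ g * b * ρ g⁻¹) = ρ g * a * (ρ g⁻¹ * ρ g) * b * ρ g⁻¹ := by
      simp only [mul_assoc]
    rw [h2, ← map_mul, inv_mul_cancel, map_one, mul_one]
    simp only [mul_assoc]
  map_zero' := by rw [mul_zero, zero_mul]
  map_add' a b := by rw [mul_add, add_mul]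

variable (F) in
/-- conjugation as a linear map -/
def conjF (g : G) : B →ₗ[F] B :=
  (LinearMap.mulLeft F (ρ g)).comp (LinearMap.mulRight F (ρ g⁻¹))

theorem conjF_apply (g : G) (v : B) : conjF F ρ g v = ρ g * v * ρ g⁻¹ := by
  show ρ g * (v * ρ g⁻¹) = _
  rw [mul_assoc]

/-- unipotent elements -/
def Un (g : G) : Prop := IsNilpotent (ρ g - 1)

noncomputable def lam (d : ℕ) (g : G) : B := logD (2 * d) (ρ g - 1)

theorem Un.one : Un ρ 1 := by
  unfold Un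
  rw [map_one, sub_self]
  exact IsNilpotent.zero

theorem Un.mul {a b : G} (ha : Un ρ a) (hb : Un ρ b) (h : a * b = b * a) : Un ρ (a * b) := by
  unfold Un at *
  have hcm : Commute (ρ a) (ρ b) := by
    show ρ a * ρ b = ρ b * ρ a
    rw [← map_mul, h, map_mul]
  have h1 : ρ (a * b) - 1 = ρ a * (ρ b - 1) + (ρ a - 1) := by
    rw [map_mul]
    noncomm_ring
  rw [h1]
  have c1 : Commute (ρ a) (ρ b - 1) := hcm.sub_right (Commute.one_right _)
  have c2 : Commute (ρ a) (ρ a - 1) := (Commute.refl _).sub_right (Commute.one_right _)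
  have c3 : Commute (ρ b - 1) (ρ a - 1) := by
    apply Commute.sub_left
    · exact hcm.symm.sub_right (Commute.one_right _)
    · exact Commute.one_left _
  exact Commute.isNilpotent_add (c2.mul_left c3) (c1.isNilpotent_mul_left hb) ha

theorem Un.inv {a : G} (ha : Un ρ a) : Un ρ a⁻¹ := by
  unfold Un at *
  have h1 : ρ a⁻¹ - 1 = -(ρ a⁻¹ * (ρ a - 1)) := by
    rw [mul_sub, ← map_mul, inv_mul_cancel, map_one, mul_one, neg_sub]
  rw [h1]
  apply IsNilpotent.neg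
  have hcm : Commute (ρ a⁻¹) (ρ a) := by
    show ρ a⁻¹ * ρ a = ρ a * ρ a⁻¹
    rw [← map_mul, ← map_mul, inv_mul_cancel, mul_inv_cancel]
  exact (hcm.sub_right (Commute.one_right _)).isNilpotent_mul_left ha

theorem Un.conj {a : G} (g : G) (ha : Un ρ a) : Un ρ (g * a * g⁻¹) := by
  unfold Un at *
  have h1 : ρ (g * a * g⁻¹) - 1 = conjR ρ g (ρ a - 1) := by
    rw [map_sub, map_one]
    show _ = ρ g * ρ a * ρ g⁻¹ - 1
    rw [map_mul, map_mul]
  rw [h1]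
  exact ha.map _

theorem lam_one (d : ℕ) : lam ρ d 1 = 0 := by
  rw [lam, map_one, sub_self, logD_zero]

theorem lam_conj (d : ℕ) (g a : G) : lam ρ d (g * a * g⁻¹) = ρ g * lam ρ d a * ρ g⁻¹ := by
  have h1 : ρ (g * a * g⁻¹) - 1 = conjR ρ g (ρ a - 1) := by
    rw [map_sub, map_one]
    show _ = ρ g * ρ a * ρ g⁻¹ - 1
    rw [map_mul, map_mul]
  rw [lam, h1, ← logD_map]
  rfl

variable {ρ} in
theorem lam_mul {d : ℕ} (hd : ∀ x : B, IsNilpotent x → x ^ d = 0) {a b : G} (ha : Un ρ a)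
    (hb : Un ρ b) (h : a * b = b * a) : lam ρ d (a * b) = lam ρ d a + lam ρ d b := by
  have hcm : ρ a * ρ b = ρ b * ρ a := by rw [← map_mul, h, map_mul]
  have h1 := logD_add' (ρ a - 1) (ρ b - 1) (by
    have e1 : (ρ a - 1) * (ρ b - 1) = ρ a * ρ b - ρ a - ρ b + 1 := by noncomm_ring
    have e2 : (ρ b - 1) * (ρ a - 1) = ρ b * ρ a - ρ a - ρ b + 1 := by noncomm_ring
    rw [e1, e2, hcm]) d (2 * d) (hd _ ha) (hd _ hb) le_rfl
  rw [lam, lam, lam, ← h1, map_mul]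
  congr 1
  noncomm_ring

theorem lam_inv {d : ℕ} (hd : ∀ x : B, IsNilpotent x → x ^ d = 0) {a : G} (ha : Un ρ a) :
    lam ρ d a⁻¹ = -lam ρ d a := by
  have h := lam_mul hd (Un.inv ρ ha) ha (by rw [inv_mul_cancel, mul_inv_cancel])
  rw [inv_mul_cancel, lam_one] at h
  exact eq_neg_of_add_eq_zero_left h.symm

variable {ρ} in
theorem lam_inj {d : ℕ} (hd0 : 0 < d) (hρ : Function.Injective ρ) {a : G} (ha : Un ρ a)
    (h : lam ρ d a = 0) : a = 1 := by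
  have h1 := logD_inj' (ρ a - 1) ha (2 * d) (by omega) h
  apply hρ
  rw [map_one]
  exact sub_eq_zero.1 h1

/-- the subgroup of the unipotent elements of an abelian subgroup -/
def WS (E : Subgroup G) (hc : ∀ a ∈ E, ∀ b ∈ E, a * b = b * a) : Subgroup G where
  carrier := {w | w ∈ E ∧ Un ρ w}
  mul_mem' := by
    rintro a b ⟨ha, ha'⟩ ⟨hb, hb'⟩
    exact ⟨E.mul_mem ha hb, Un.mul ρ ha' hb' (hc a ha b hb)⟩
  one_mem' := ⟨E.one_mem, Un.one ρ⟩
  inv_mem' := by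
    rintro a ⟨ha, ha'⟩
    exact ⟨E.inv_mem ha, Un.inv ρ ha'⟩

end unip

end Pool.Agent.Helper657_nd.Lin
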