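import Pool.Agent.Helper657_nd.CaseN
import Pool.Agent.Helper657_nd.WeylS
import Pool.Agent.Helper657_nd.Crit2

set_option autoImplicit false

/-!
# The semisimple case for definable abelian subgroups of Noetherian type
-/

namespace Pool.Agent.Helper657_nd.Noeth

open Crit Weyl Seg

section alg
variable {R M : Type} [CommRing R] [AddCommGroup M] [Module R M]

def InjM (M : Type) [AddCommGroup M] [Module R M] (δ : R) : Prop := ∀ b : M, δ • b = b → b = 0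

/-- the set of approximate scalars -/
def DomM (D : Set R) (x₁ y : M) : Prop :=
  ∀ δ ∈ D, InjM M δ → ∃ ε ∈ D, ∃ b : M, (ε - 1) • x₁ = (δ - 1) • y + (δ - 1) • (δ - 1) • b

/-- the multiplication of approximate scalars -/
def MulM (D : Set R) (x₁ y z w : M) : Prop :=
  ∀ δ ∈ D, InjM M δ → ∃ ε ∈ D, ∃ b b' : M,
    (ε - 1) • x₁ = (δ - 1) • y + (δ - 1) • (δ - 1) • b ∧
      (ε - 1) • z = (δ - 1) • w + (δ - 1) • (δ - 1) • b'

theorem caseM [IsDomain R] [CharZero R] (P N : Type) [CommRing P] [Algebra R P] [AddCommGroup N]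
    [Module R N]
    [Module P N] [IsScalarTower R P N] [Algebra.FiniteType ℤ P] [Module.Finite P N]
    (j : M →ₗ[R] N) (hj : Function.Injective j)
    (D : Set R) (hpow : ∀ δ ∈ D, ∀ i : ℕ, δ ^ i ∈ D)
    (htf : ∀ r : R, r ≠ 0 → ∀ b : M, r • b = 0 → b = 0)
    (α : R) (hα : α ∈ D) (hunit : IsUnit α) (hα1 : ∀ k : ℕ, 0 < k → α ^ k - 1 ≠ 0)
    (x₁ : M) (hx₁ : x₁ ≠ 0) :
    ∃ (O : Type) (_ : CommRing O) (_ : IsDomain O) (_ : CharZero O) (V : M → O → Prop),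
      (∃ K, SegProp O K) ∧ DataM O x₁ 1 (DomM D x₁) (fun x y => x = y) (MulM D x₁) V := by
  let B : Submodule R N := LinearMap.range j
  have hB : ∀ m, j m ∈ B := fun m => ⟨m, rfl⟩
  have hj0 : ∀ m, j m = 0 → m = 0 := fun m h => hj (h.trans (map_zero j).symm)
  have htfB : ∀ r : R, r ≠ 0 → ∀ b ∈ B, r • b = 0 → b = 0 := by
    rintro r hr _ ⟨m, rfl⟩ h
    rw [← map_smul] at h
    rw [htf r hr m (hj0 _ h), map_zero]
  obtain ⟨O, i1, i2, i3, V, hseg, HD⟩ := caseN P D hpow B htfB α hα hunit hα1 (j x₁) (hB _)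
    (fun h => hx₁ (hj0 _ h))
  have hInj : ∀ δ : R, InjN B δ ↔ InjM M δ := by
    intro δ
    constructor
    · intro h b hb
      exact hj0 _ (h (j b) (hB b) (by rw [← map_smul, hb]))
    · rintro h _ ⟨m, rfl⟩ hb
      rw [← map_smul] at hb
      rw [h m (hj hb), map_zero]
  have hrel : ∀ (ε δ : R) (x y b : M), ((ε - 1) • x = (δ - 1) • y + (δ - 1) • (δ - 1) • b ↔
      (ε - 1) • j x = (δ - 1) • j y + (δ - 1) • (δ - 1) • j b) := by
    intro ε δ x y b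
    rw [← map_smul, ← map_smul, ← map_smul, ← map_smul, ← map_add, hj.eq_iff]
  have hDom : ∀ y, DomM D x₁ y ↔ DomN D B (j x₁) (j y) := by
    intro y
    unfold DomM DomN
    rw [and_iff_right (hB y)]
    constructor
    · intro h δ hδ hi
      obtain ⟨ε, hε, b, hb⟩ := h δ hδ ((hInj δ).1 hi)
      exact ⟨ε, hε, j b, hB b, (hrel _ _ _ _ _).1 hb⟩
    · intro h δ hδ hi
      obtain ⟨ε, hε, _, ⟨b, rfl⟩, hb⟩ := h δ hδ ((hInj δ).2 hi)
      exact ⟨ε, hε, b, (hrel _ _ _ _ _).2 hb⟩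
  have hMul : ∀ x y z, MulM D x₁ x y z ↔ MulN D B (j x₁) (j x) (j y) (j z) := by
    intro x y z
    unfold MulM MulN
    constructor
    · intro h δ hδ hi
      obtain ⟨ε, hε, b, b', hb, hb'⟩ := h δ hδ ((hInj δ).1 hi)
      exact ⟨ε, hε, j b, hB b, j b', hB b', (hrel _ _ _ _ _).1 hb, (hrel _ _ _ _ _).1 hb'⟩
    · intro h δ hδ hi
      obtain ⟨ε, hε, _, ⟨b, rfl⟩, _, ⟨b', rfl⟩, hb, hb'⟩ := h δ hδ ((hInj δ).2 hi)
      exact ⟨ε, hε, b, b', (hrel _ _ _ _ _).2 hb, (hrel _ _ _ _ _).2 hb'⟩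
  refine ⟨O, i1, i2, i3, fun x o => V (j x) o, hseg, ?_⟩
  refine { hc := HD.hc, dom := ?_, eq := ?_, fn := ?_, dom_pow := ?_, V_pow := ?_, add := ?_,
           mul := ?_, mul_pow := ?_ }
  · intro x hx
    exact HD.dom _ ((hDom x).1 hx)
  · intro x y o o' hx hy h h'
    rw [← HD.eq (j x) (j y) o o' ((hDom x).1 hx) ((hDom y).1 hy) h h', hj.eq_iff]
  · intro x o o' hx h h'
    exact HD.fn _ _ _ ((hDom x).1 hx) h h'
  · intro k
    rw [hDom, map_nsmul]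
    exact HD.dom_pow k
  · intro k
    rw [map_nsmul]
    exact HD.V_pow k
  · intro x y z a b d hx hy hz h1 h2 h3 h
    exact HD.add _ _ _ a b d ((hDom x).1 hx) ((hDom y).1 hy) ((hDom z).1 hz) h1 h2 h3
      (by rw [← map_add, h])
  · intro x y z a b d hx hy hz h1 h2 h3 h
    exact HD.mul _ _ _ a b d ((hDom x).1 hx) ((hDom y).1 hy) ((hDom z).1 hz) h1 h2 h3
      ((hMul _ _ _).1 h)
  · intro i k
    rw [hMul, map_nsmul, map_nsmul, map_nsmul]
    exact HD.mul_pow i k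

end alg

section main
variable {G M : Type} [Group G] [AddCommGroup M]

/-- The semisimple case. -/
theorem weylN {A : Subgroup G} {ι : M → G} (E : Emb A ι)
    (hA : DefinableSet (A : Set G)) (t : G) (DD : G → Prop) (hDD : Def1 DD) (hDt : DD t)
    (hDpow : ∀ d, DD d → ∀ n : ℕ, DD (d ^ n))
    {R : Type} [CommRing R] [IsDomain R] [CharZero R] [Module R M]
    (hR1 : ∀ d, DD d → ∃ r : R, ∀ y : M, ι (r • y) = d * ι y * d⁻¹)
    (htf : ∀ r : R, r ≠ 0 → ∀ b : M, r • b = 0 → b = 0)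
    (P N : Type) [CommRing P] [Algebra R P] [AddCommGroup N] [Module R N]
    [Module P N] [IsScalarTower R P N] [Algebra.FiniteType ℤ P] [Module.Finite P N]
    (j : M →ₗ[R] N) (hj : Function.Injective j)
    (α : R) (hα : ∀ y : M, ι (α • y) = t * ι y * t⁻¹) (hunit : IsUnit α)
    (hα1 : ∀ k : ℕ, 0 < k → α ^ k - 1 ≠ 0)
    (hne : ∃ y : M, y ≠ 0) : Undec G := by
  let D : Set R := {r | ∃ d, DD d ∧ ∀ y : M, ι (r • y) = d * ι y * d⁻¹}
  have hact_pow : ∀ (r : R) (d : G), (∀ y : M, ι (r • y) = d * ι y * d⁻¹) →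
      ∀ (i : ℕ) (y : M), ι (r ^ i • y) = d ^ i * ι y * (d ^ i)⁻¹ := by
    intro r d h i
    induction i with
    | zero => intro y; simp
    | succ i ih =>
      intro y
      rw [pow_succ, mul_smul, ih, h, pow_succ]
      group
  have hpow : ∀ δ ∈ D, ∀ i : ℕ, δ ^ i ∈ D := by
    rintro δ ⟨d, hd, h⟩ i
    exact ⟨d ^ i, hDpow d hd i, hact_pow δ d h i⟩
  obtain ⟨x₁, hx₁⟩ := hne
  obtain ⟨O, i1, i2, i3, V, ⟨K, hK⟩, HD⟩ :=
    caseM P N j hj D hpow htf α ⟨t, hDt, hα⟩ hunit hα1 x₁ hx₁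
  have hcm : ∀ (r : R) (d : G), (∀ y : M, ι (r • y) = d * ι y * d⁻¹) → ∀ y : M,
      ι ((r - 1) • y) = cm d (ι y) := by
    intro r d h y
    rw [sub_smul, one_smul, E.sub, h]
    rfl
  let BB : G → Prop := fun g => g ∈ (A : Set G)
  have hBG : ∀ g, BB g ↔ ∃ y, ι y = g := fun g => E.mem g
  have hBι : ∀ y, BB (ι y) := fun y => (hBG _).2 ⟨y, rfl⟩
  have hInj : ∀ (r : R) (d : G), (∀ y : M, ι (r • y) = d * ι y * d⁻¹) →
      (InjG BB d ↔ InjM M r) := by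
    intro r d h
    constructor
    · intro hi b hrb
      apply E.inj
      rw [E.zero]
      apply hi (ι b) (hBι b)
      rw [← h, hrb]
    · intro hi g hg hdg
      obtain ⟨b, rfl⟩ := (hBG g).1 hg
      rw [← h] at hdg
      rw [hi b (E.inj hdg), E.zero]
  have hexp : ∀ (r : R) (d : G), (∀ y : M, ι (r • y) = d * ι y * d⁻¹) → ∀ y b : M,
      ι ((r - 1) • y + (r - 1) • (r - 1) • b) = cm d (ι y) * cm d (cm d (ι b)) := by
    intro r d h y b
    rw [E.add, hcm r d h, hcm r d h, hcm r d h]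
  have hDom : ∀ y, DomG DD BB (ι x₁) (ι y) ↔ DomM D x₁ y := by
    intro y
    unfold DomG DomM
    rw [and_iff_right (hBι y)]
    constructor
    · rintro h δ ⟨d, hd, hδ⟩ hi
      obtain ⟨d', hd', g, hg, hE⟩ := h d hd ((hInj δ d hδ).2 hi)
      obtain ⟨ε, hε⟩ := hR1 d' hd'
      obtain ⟨b, rfl⟩ := (hBG g).1 hg
      refine ⟨ε, ⟨d', hd', hε⟩, b, ?_⟩
      apply E.inj
      rw [hcm ε d' hε, hexp δ d hδ, hE]
    · intro h d hd hi
      obtain ⟨δ, hδ⟩ := hR1 d hd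
      obtain ⟨ε, ⟨d', hd', hε⟩, b, hE⟩ := h δ ⟨d, hd, hδ⟩ ((hInj δ d hδ).1 hi)
      refine ⟨d', hd', ι b, hBι b, ?_⟩
      rw [← hcm ε d' hε, ← hexp δ d hδ, hE]
  have hMul : ∀ y z w, MulG DD BB (ι x₁) (ι y) (ι z) (ι w) ↔ MulM D x₁ y z w := by
    intro y z w
    unfold MulG MulM
    constructor
    · rintro h δ ⟨d, hd, hδ⟩ hi
      obtain ⟨v, hd', hg, hg', hE, hE'⟩ := h d hd ((hInj δ d hδ).2 hi)
      obtain ⟨ε, hε⟩ := hR1 _ hd'
      obtain ⟨b, hb1⟩ := (hBG _).1 hg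
      obtain ⟨b', hb1'⟩ := (hBG _).1 hg'
      rw [← hb1] at hE
      rw [← hb1'] at hE'
      refine ⟨ε, ⟨_, hd', hε⟩, b, b', ?_, ?_⟩
      · apply E.inj
        rw [hcm ε _ hε, hexp δ d hδ, hE]
      · apply E.inj
        rw [hcm ε _ hε, hexp δ d hδ, hE']
    · intro h d hd hi
      obtain ⟨δ, hδ⟩ := hR1 d hd
      obtain ⟨ε, ⟨d', hd', hε⟩, b, b', hE, hE'⟩ := h δ ⟨d, hd, hδ⟩ ((hInj δ d hδ).1 hi)
      refine ⟨![d', ι b, ι b'], hd', hBι b, hBι b', ?_, ?_⟩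
      · show cm d' (ι x₁) = cm d (ι y) * cm d (cm d (ι b))
        rw [← hcm ε d' hε, ← hexp δ d hδ, hE]
      · show cm d' (ι z) = cm d (ι w) * cm d (cm d (ι b'))
        rw [← hcm ε d' hε, ← hexp δ d hδ, hE']
  have hBdef : Def1 BB := DefinableSet.df hA (Tm.var 0)
  have hData := HD.toData ι E.inj E.add (fun k x => E.nsmul k x)
    (DomG DD BB (ι x₁)) (fun x y => x = y) (MulG DD BB (ι x₁))
    (fun g hg => (hBG g).1 hg.1)
    hDom (fun x y _ _ => E.inj.eq_iff) (fun x y z _ _ _ => hMul x y z)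
  refine Crit2.main hK hData (def_DomG hDD hBdef _) ?_ ?_ (def_MulG hDD hBdef _)
  · exact Df.eq (Tm.var 0) (Tm.var 1)
  · exact Df.eq ((Tm.var 0).mul (Tm.var 1)) (Tm.var 2)

end main

end Pool.Agent.Helper657_nd.Noeth
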