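import Pool.Agent.Helper657_nd.Rings
import Pool.Agent.Helper657_nd.WeylN
import Pool.Agent.Helper657_nd.CommS

set_option autoImplicit false

/-!
# The semisimple case for definable abelian subgroups with a linear structure
-/

namespace Pool.Agent.Helper657_nd.Noeth

open Crit Weyl Seg Comm

/-- maps given by group words -/
def TmF {G : Type} [Group G] (f : G → G) : Prop :=
  ∀ g : (ℕ → G) → G, Tm g → Tm fun s => f (g s)

section lin
variable {G F V : Type} [Group G] [Field F] [CharZero F] [AddCommGroup V] [Module F V]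
  [FiniteDimensional F V]

theorem linS (R₁ : Type) [CommRing R₁] [Algebra.FiniteType ℤ R₁] [Algebra R₁ F] [Module R₁ V]
    [IsScalarTower R₁ F V] (Λ : Submodule R₁ V) (hΛ : Λ.FG)
    (A₀ : Subgroup G) (hA₀ : DefinableSet (A₀ : Set G)) (lam : G → V)
    (hlam : ∀ a ∈ A₀, ∀ b ∈ A₀, lam (a * b) = lam a + lam b)
    (hinj : ∀ a ∈ A₀, lam a = 0 → a = 1) (hmem : ∀ a ∈ A₀, lam a ∈ Λ)
    (DD : G → Prop) (hDD : Def1 DD) (t : G) (hDt : DD t)
    (hDmul : ∀ d e, DD d → DD e → DD (d * e)) (hDinv : ∀ d, DD d → DD d⁻¹)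
    (hDcomm : ∀ d e, DD d → DD e → d * e = e * d)
    (T : G → V →ₗ[F] V)
    (hT : ∀ d, DD d → ∀ a ∈ A₀, d * a * d⁻¹ ∈ A₀ ∧ lam (d * a * d⁻¹) = T d (lam a))
    (hpow : ∀ k : ℕ, 0 < k → ∀ a ∈ A₀, t ^ k * a * (t ^ k)⁻¹ = a → a = 1)
    (hne : ∃ a ∈ A₀, a ≠ 1) : Undec G := by
  classical
  have hD1 : DD 1 := by
    have := hDmul t t⁻¹ hDt (hDinv t hDt)
    rwa [mul_inv_cancel] at this
  have hDpow : ∀ d, DD d → ∀ n : ℕ, DD (d ^ n) := by
    intro d hd n
    induction n with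
    | zero => rw [pow_zero]; exact hD1
    | succ n ih => rw [pow_succ]; exact hDmul _ _ ih hd
  have hlam1 : lam 1 = 0 := by
    have h := hlam 1 A₀.one_mem 1 A₀.one_mem
    rw [mul_one] at h
    exact left_eq_add.1 h
  have hlaminv : ∀ a ∈ A₀, lam a⁻¹ = -lam a := by
    intro a ha
    have h := hlam a⁻¹ (A₀.inv_mem ha) a ha
    rw [inv_mul_cancel, hlam1] at h
    exact eq_neg_of_add_eq_zero_left h.symm
  have hlaminj : ∀ a ∈ A₀, ∀ b ∈ A₀, lam a = lam b → a = b := by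
    intro a ha b hb h
    have h1 : lam (a * b⁻¹) = 0 := by
      rw [hlam a ha _ (A₀.inv_mem hb), hlaminv b hb, h, add_neg_cancel]
    have h2 := hinj _ (A₀.mul_mem ha (A₀.inv_mem hb)) h1
    exact mul_inv_eq_one.1 h2
  -- a minimal subgroup
  let good : Subgroup G → Prop := fun A => A ≤ A₀ ∧ DefinableSet (A : Set G) ∧
    (∀ d, DD d → ∀ a ∈ A, d * a * d⁻¹ ∈ A) ∧ ∃ a ∈ A, a ≠ 1
  let rk : Subgroup G → ℕ := fun A => Module.finrank F (Submodule.span F (lam '' (A : Set G)))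
  have hex : ∃ n : ℕ, ∃ A, good A ∧ rk A = n :=
    ⟨rk A₀, A₀, ⟨le_rfl, hA₀, fun d hd a ha => (hT d hd a ha).1, hne⟩, rfl⟩
  obtain ⟨A, ⟨hAA₀, hA, hAinv, hAne⟩, hrk⟩ := Nat.find_spec hex
  have hmin : ∀ K : Subgroup G, K ≤ A → DefinableSet (K : Set G) →
      (∀ d, DD d → ∀ a ∈ K, d * a * d⁻¹ ∈ K) → (∃ a ∈ K, a ≠ 1) →
      Submodule.span F (lam '' (K : Set G)) = Submodule.span F (lam '' (A : Set G)) := by
    intro K hKA hK hKinv hKne
    apply Submodule.eq_of_le_of_finrank_le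
    · exact Submodule.span_mono (Set.image_mono hKA)
    · show rk A ≤ rk K
      rw [hrk]
      exact Nat.find_min' hex ⟨K, ⟨hKA.trans hAA₀, hK, hKinv, hKne⟩, rfl⟩
  -- the lattice
  have hnoeth : IsNoetherianRing R₁ := Algebra.FiniteType.isNoetherianRing ℤ R₁
  let N : Submodule R₁ V := Submodule.span R₁ (lam '' (A : Set G))
  have hNΛ : N ≤ Λ := by
    rw [Submodule.span_le]
    rintro _ ⟨a, ha, rfl⟩
    exact hmem a (hAA₀ ha)
  have hNfin : Module.Finite R₁ N := by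
    have h1 : IsNoetherian R₁ Λ := isNoetherian_of_fg_of_noetherian Λ hΛ
    have h2 : IsNoetherian R₁ N := isNoetherian_of_le hNΛ
    infer_instance
  have hlN : ∀ a ∈ A, lam a ∈ N := fun a ha => Submodule.subset_span ⟨a, ha, rfl⟩
  have hTN : ∀ d, DD d → ∀ v ∈ N, T d v ∈ N := by
    intro d hd v hv
    induction hv using Submodule.span_induction with
    | mem x hx =>
      obtain ⟨a, ha, rfl⟩ := hx
      rw [← (hT d hd a (hAA₀ ha)).2]
      exact hlN _ (hAinv d hd a ha)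
    | zero => rw [map_zero]; exact N.zero_mem
    | add x y _ _ hx hy => rw [map_add]; exact N.add_mem hx hy
    | smul c x _ hx =>
      have h1 : T d (c • x) = c • T d x := by
        rw [← algebraMap_smul F c x, map_smul, algebraMap_smul]
      rw [h1]
      exact N.smul_mem c hx
  let S : Set (Module.End R₁ N) := {φ | ∃ d, DD d ∧ ∀ n : N, ((φ n : N) : V) = T d n}
  have hTS : ∀ d, DD d → ∃ φ ∈ S, ∀ n : N, ((φ n : N) : V) = T d n := by
    intro d hd
    let φ : Module.End R₁ N := LinearMap.restrict ((T d).restrictScalars R₁) (hTN d hd)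
    exact ⟨φ, ⟨d, hd, fun n => rfl⟩, fun n => rfl⟩
  have hTcomm : ∀ d e, DD d → DD e → ∀ v ∈ N, T d (T e v) = T e (T d v) := by
    intro d e hd he v hv
    induction hv using Submodule.span_induction with
    | mem x hx =>
      obtain ⟨a, ha, rfl⟩ := hx
      rw [← (hT d hd a (hAA₀ ha)).2, ← (hT e he a (hAA₀ ha)).2,
        ← (hT d hd _ (hT e he a (hAA₀ ha)).1).2, ← (hT e he _ (hT d hd a (hAA₀ ha)).1).2]
      congr 1
      have h1 : d * (e * a * e⁻¹) * d⁻¹ = (d * e) * a * (d * e)⁻¹ := by group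
      have h2 : e * (d * a * d⁻¹) * e⁻¹ = (e * d) * a * (e * d)⁻¹ := by group
      rw [h1, h2, hDcomm d e hd he]
    | zero => simp
    | add x y _ _ hx hy => rw [map_add, map_add, map_add, map_add, hx, hy]
    | smul c x _ hx =>
      have h1 : ∀ (d : G) (x : V), T d (c • x) = c • T d x := fun d x => by
        rw [← algebraMap_smul F c x, map_smul, algebraMap_smul]
      rw [h1, h1, h1, h1, hx]
  have hScomm : ∀ a ∈ S, ∀ b ∈ S, a * b = b * a := by
    rintro φ ⟨d, hd, hφ⟩ ψ ⟨e, he, hψ⟩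
    apply LinearMap.ext
    intro n
    apply Subtype.ext
    show ((φ (ψ n) : N) : V) = ((ψ (φ n) : N) : V)
    rw [hφ, hψ, hψ, hφ]
    exact hTcomm d e hd he n n.2
  obtain ⟨P, R, i1, i2, i3, i4, i5, i6, i7, i8, e, he, heinj, heS, hSe⟩ := exists_rings R₁ N S hScomm
  -- the elements of `R` are given by words and extend to `V`
  have hgood : ∀ φ ∈ Subring.closure S, (∃ f : G → G, TmF f ∧ ∀ a ∈ A, f a ∈ A ∧
      ∀ n : N, (n : V) = lam a → ((φ n : N) : V) = lam (f a)) ∧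
      ∃ Φ : V →ₗ[F] V, ∀ n : N, ((φ n : N) : V) = Φ n := by
    intro φ hφ
    induction hφ using Subring.closure_induction with
    | mem φ hφ =>
      obtain ⟨d, hd, hφ⟩ := hφ
      refine ⟨⟨fun g => d * g * d⁻¹, fun g hg => ((Tm.const d).mul hg).mul (Tm.const d).inv,
        fun a ha => ⟨hAinv d hd a ha, fun n hn => ?_⟩⟩, T d, hφ⟩
      rw [hφ, hn, (hT d hd a (hAA₀ ha)).2]
    | zero =>
      refine ⟨⟨fun _ => 1, fun g _ => Tm.const 1, fun a _ => ⟨A.one_mem, fun n _ => ?_⟩⟩, 0,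
        fun n => rfl⟩
      rw [LinearMap.zero_apply, hlam1]
      rfl
    | one => exact ⟨⟨fun g => g, fun g hg => hg, fun a ha => ⟨ha, fun n hn => hn⟩⟩, LinearMap.id,
        fun n => rfl⟩
    | add σ τ _ _ h1 h2 =>
      obtain ⟨⟨f, hf, hf'⟩, Φ, hΦ⟩ := h1
      obtain ⟨⟨g, hg, hg'⟩, Ψ, hΨ⟩ := h2
      refine ⟨⟨fun z => f z * g z, fun z hz => (hf z hz).mul (hg z hz), fun a ha =>
        ⟨A.mul_mem (hf' a ha).1 (hg' a ha).1, fun n hn => ?_⟩⟩, Φ + Ψ, fun n => ?_⟩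
      · rw [hlam _ (hAA₀ (hf' a ha).1) _ (hAA₀ (hg' a ha).1), LinearMap.add_apply,
          Submodule.coe_add, (hf' a ha).2 n hn, (hg' a ha).2 n hn]
      · rw [LinearMap.add_apply, Submodule.coe_add, hΦ, hΨ, LinearMap.add_apply]
    | neg σ _ h1 =>
      obtain ⟨⟨f, hf, hf'⟩, Φ, hΦ⟩ := h1
      refine ⟨⟨fun z => (f z)⁻¹, fun z hz => (hf z hz).inv, fun a ha =>
        ⟨A.inv_mem (hf' a ha).1, fun n hn => ?_⟩⟩, -Φ, fun n => ?_⟩
      · rw [hlaminv _ (hAA₀ (hf' a ha).1), LinearMap.neg_apply, Submodule.coe_neg,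
          (hf' a ha).2 n hn]
      · rw [LinearMap.neg_apply, Submodule.coe_neg, hΦ, LinearMap.neg_apply]
    | mul σ τ _ _ h1 h2 =>
      obtain ⟨⟨f, hf, hf'⟩, Φ, hΦ⟩ := h1
      obtain ⟨⟨g, hg, hg'⟩, Ψ, hΨ⟩ := h2
      refine ⟨⟨fun z => f (g z), fun z hz => hf _ (hg z hz), fun a ha =>
        ⟨(hf' _ (hg' a ha).1).1, fun n hn => ?_⟩⟩, Φ.comp Ψ, fun n => ?_⟩
      · exact (hf' _ (hg' a ha).1).2 (τ n) ((hg' a ha).2 n hn)
      · show ((σ (τ n) : N) : V) = Φ (Ψ n)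
        rw [hΦ, hΨ]
  -- the group as a module
  have hact : ∀ (r : R) (n : N), (∃ a ∈ A, lam a = n) → ∃ a ∈ A, lam a = ((r • n : N) : V) := by
    rintro r n ⟨a, ha, hn⟩
    obtain ⟨⟨f, -, hf⟩, -⟩ := hgood (e r) (heS r)
    refine ⟨f a, (hf a ha).1, ?_⟩
    rw [he, (hf a ha).2 n hn.symm]
  let B : Submodule R N :=
    { carrier := {n | ∃ a ∈ A, lam a = n}
      add_mem' := by
        rintro x y ⟨a, ha, hx⟩ ⟨b, hb, hy⟩
        refine ⟨a * b, A.mul_mem ha hb, ?_⟩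
        rw [hlam a (hAA₀ ha) b (hAA₀ hb), hx, hy]
        rfl
      zero_mem' := ⟨1, A.one_mem, hlam1⟩
      smul_mem' := fun r n hn => hact r n hn }
  have hBmem : ∀ n : N, n ∈ B ↔ ∃ a ∈ A, lam a = n := fun n => Iff.rfl
  have hι : ∀ b : B, ∃ a ∈ A, lam a = ((b : N) : V) := fun b => b.2
  choose ι hιA hιl using hι
  have E : Emb A ι := by
    refine ⟨fun x y h => ?_, fun x y => ?_, fun g => ⟨fun hg => ?_, ?_⟩⟩
    · apply Subtype.ext
      apply Subtype.ext
      rw [← hιl, ← hιl, h]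
    · apply hlaminj _ (hAA₀ (hιA _)) _ (A₀.mul_mem (hAA₀ (hιA _)) (hAA₀ (hιA _)))
      rw [hlam _ (hAA₀ (hιA _)) _ (hAA₀ (hιA _)), hιl, hιl, hιl]
      rfl
    · refine ⟨⟨⟨lam g, hlN g hg⟩, g, hg, rfl⟩, ?_⟩
      apply hlaminj _ (hAA₀ (hιA _)) _ (hAA₀ hg)
      rw [hιl]
    · rintro ⟨y, rfl⟩
      exact hιA y
  have hR1' : ∀ d, DD d → ∃ r : R, (∀ n : N, ((r • n : N) : V) = T d n) ∧
      ∀ y : B, ι (r • y) = d * ι y * d⁻¹ := by
    intro d hd
    obtain ⟨φ, hφS, hφ⟩ := hTS d hd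
    obtain ⟨r, hr⟩ := hSe φ (Subring.subset_closure hφS)
    have h1 : ∀ n : N, ((r • n : N) : V) = T d n := fun n => by rw [he, hr, hφ]
    refine ⟨r, h1, fun y => ?_⟩
    have h2 := hT d hd _ (hAA₀ (hιA y))
    apply hlaminj _ (hAA₀ (hιA _)) _ h2.1
    rw [h2.2, hιl, hιl, ← h1]
    rfl
  -- torsion-freeness
  have htf : ∀ r : R, r ≠ 0 → ∀ b : B, r • b = 0 → b = 0 := by
    intro r hr b hb
    by_contra hb0
    apply hr
    obtain ⟨⟨f, hf1, hf2⟩, Φ, hΦ⟩ := hgood (e r) (heS r)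
    have hfl : ∀ a ∈ A, lam (f a) = Φ (lam a) := by
      intro a ha
      rw [← (hf2 a ha).2 ⟨lam a, hlN a ha⟩ rfl, hΦ]
    let K : Subgroup G :=
      { carrier := {a | a ∈ A ∧ Φ (lam a) = 0}
        mul_mem' := by
          rintro a b ⟨ha, ha'⟩ ⟨hb, hb'⟩
          refine ⟨A.mul_mem ha hb, ?_⟩
          rw [hlam a (hAA₀ ha) b (hAA₀ hb), map_add, ha', hb', add_zero]
        one_mem' := ⟨A.one_mem, by rw [hlam1, map_zero]⟩
        inv_mem' := by
          rintro a ⟨ha, ha'⟩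
          refine ⟨A.inv_mem ha, ?_⟩
          rw [hlaminv a (hAA₀ ha), map_neg, ha', neg_zero] }
    have hK : ∀ a, a ∈ K ↔ a ∈ A ∧ Φ (lam a) = 0 := fun a => Iff.rfl
    have hspan := hmin K (fun a ha => ha.1) (by
      apply Df.definableSet
      have h1 : Df fun s : ℕ → G => s 0 ∈ (A : Set G) ∧ f (s 0) = 1 :=
        (DefinableSet.df hA (Tm.var 0)).and (Df.eq (hf1 _ (Tm.var 0)) (Tm.const 1))
      refine h1.congr fun s => ?_
      rw [SetLike.mem_coe, hK]
      refine and_congr_right fun ha => ?_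
      rw [← hfl _ ha]
      constructor
      · intro h
        exact hinj _ (hAA₀ (hf2 _ ha).1) h
      · intro h
        rw [h, hlam1]) (by
      rintro d hd a ⟨ha, ha'⟩
      refine ⟨hAinv d hd a ha, ?_⟩
      obtain ⟨rd, hrd, -⟩ := hR1' d hd
      have h1 : r • (rd • (⟨lam a, hlN a ha⟩ : N)) = rd • (r • (⟨lam a, hlN a ha⟩ : N)) :=
        smul_comm _ _ _
      have h2 := congrArg (Subtype.val) h1
      rw [he r, hΦ, hrd, hrd, he r, hΦ] at h2
      rw [(hT d hd a (hAA₀ ha)).2, h2, ha', map_zero]) (by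
      refine ⟨ι b, ⟨hιA b, ?_⟩, ?_⟩
      · rw [hιl, ← hΦ, ← he]
        have h3 := congrArg (fun z : B => ((z : N) : V)) hb
        exact h3
      · intro h
        apply hb0
        apply E.inj
        rw [h, E.zero])
    have hkill : ∀ a ∈ A, Φ (lam a) = 0 := by
      intro a ha
      have h1 : lam a ∈ Submodule.span F (lam '' (K : Set G)) := by
        rw [hspan]
        exact Submodule.subset_span ⟨a, ha, rfl⟩
      have h2 : Submodule.span F (lam '' (K : Set G)) ≤ LinearMap.ker Φ := by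
        rw [Submodule.span_le]
        rintro _ ⟨c, hc, rfl⟩
        exact hc.2
      exact h2 h1
    apply heinj
    rw [map_zero]
    apply LinearMap.ext
    intro n
    apply Subtype.ext
    rw [hΦ]
    show Φ n = 0
    have h3 : ∀ v ∈ N, Φ v = 0 := by
      intro v hv
      induction hv using Submodule.span_induction with
      | mem x hx =>
        obtain ⟨a, ha, rfl⟩ := hx
        exact hkill a ha
      | zero => rw [map_zero]
      | add x y _ _ hx hy => rw [map_add, hx, hy, add_zero]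
      | smul c x _ hx =>
        rw [← algebraMap_smul F c x, map_smul, hx, smul_zero]
    exact h3 n n.2
  obtain ⟨a₀, ha₀, ha₀1⟩ := hAne
  obtain ⟨b₀, hb₀⟩ := (E.mem a₀).1 ha₀
  have hb₀0 : b₀ ≠ 0 := by
    intro h
    apply ha₀1
    rw [← hb₀, h, E.zero]
  have hnt : Nontrivial R := by
    refine ⟨⟨1, 0, fun h => hb₀0 ?_⟩⟩
    rw [← one_smul R b₀, h, zero_smul]
  have hnzd : NoZeroDivisors R := ⟨fun {a b} hab => by
    by_contra hcon
    push Not at hcon
    have h1 : a • b • b₀ = 0 := by rw [← mul_smul, hab, zero_smul]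
    exact hb₀0 (htf b hcon.2 _ (htf a hcon.1 _ h1))⟩
  have hdom : IsDomain R := NoZeroDivisors.to_isDomain R
  have hcz : CharZero R := by
    refine charZero_of_inj_zero fun n hn => ?_
    by_contra hne
    have h1 : (n : R) • b₀ = 0 := by rw [hn, zero_smul]
    rw [Nat.cast_smul_eq_nsmul] at h1
    have h2 := congrArg (fun z : B => ((z : N) : V)) h1
    have h3 : n • ((b₀ : N) : V) = 0 := h2
    rw [← Nat.cast_smul_eq_nsmul F] at h3
    rcases smul_eq_zero.1 h3 with h4 | h4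
    · exact hne (by exact_mod_cast h4)
    · exact hb₀0 (Subtype.ext (Subtype.ext h4))
  obtain ⟨α, hα1, hα2⟩ := hR1' t hDt
  obtain ⟨β, hβ1, hβ2⟩ := hR1' t⁻¹ (hDinv t hDt)
  refine weylN E hA t DD hDD hDt hDpow (fun d hd => ?_) htf P N B.subtype Subtype.val_injective α
    hα2 ?_ ?_ ⟨b₀, hb₀0⟩
  · obtain ⟨r, -, hr⟩ := hR1' d hd
    exact ⟨r, hr⟩
  · refine IsUnit.of_mul_eq_one β ?_
    by_contra hne
    apply hb₀0
    apply htf (α * β - 1) (sub_ne_zero.2 hne)
    rw [sub_smul, one_smul, sub_eq_zero]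
    apply E.inj
    rw [mul_smul, hα2, hβ2]
    group
  · intro k hk h0
    have hact_pow : ∀ (i : ℕ) (y : B), ι (α ^ i • y) = t ^ i * ι y * (t ^ i)⁻¹ := by
      intro i
      induction i with
      | zero => intro y; simp
      | succ i ih =>
        intro y
        rw [pow_succ, mul_smul, ih, hα2, pow_succ]
        group
    apply ha₀1
    rw [← hb₀]
    apply hpow k hk _ (hAA₀ (hιA _))
    rw [← hact_pow, sub_eq_zero.1 h0, one_smul]

end lin

end Pool.Agent.Helper657_nd.Noeth
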