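import Pool.Agent.Helper657_nd.CaseUN
import Pool.Agent.Helper657_nd.WeylS
import Pool.Agent.Helper657_nd.Crit2

set_option autoImplicit false

/-!
# The unipotent case for definable bilinear families of Noetherian type
-/

namespace Pool.Agent.Helper657_nd.Noeth

open Crit Weyl Seg

section defs
variable {G : Type} [Group G] (A : Subgroup G) (UU : G → Prop) (u₀ v₁ : G)

def UXN (u : G) : Prop := UU u ∧ ∀ v, v ∈ (A : Set G) → cm u₀ v = 1 → cm u v = 1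

def K0GN (v : G) : Prop := v ∈ (A : Set G) ∧ ∀ u, UXN A UU u₀ u → ∃ u', UXN A UU u₀ u' ∧
  cm u' v₁ = cm u v

def DomGN (v : G) : Prop := K0GN A UU u₀ v₁ v ∧ ∀ v', K0GN A UU u₀ v₁ v' →
  ∃ w, w ∈ (A : Set G) ∧ ∀ u, UXN A UU u₀ u → ∃ p : Fin 2 → G, UXN A UU u₀ (p 0) ∧
    UXN A UU u₀ (p 1) ∧ cm (p 0) v₁ = cm u v' ∧ cm (p 1) v₁ = cm u v ∧ cm (p 0) v = cm u w ∧
      cm (p 1) v' = cm u w

def MulGN (y z w : G) : Prop := ∀ u, UXN A UU u₀ u → ∃ u', UXN A UU u₀ u' ∧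
  cm u' v₁ = cm u z ∧ cm u' y = cm u w

variable {A} {UU} (hA : DefinableSet (A : Set G)) (hU : Def1 UU)
include hA hU

theorem def_UXN : Def1 (UXN A UU u₀) := by
  refine (hU.sub (Tm.var 0)).and ?_
  apply Df.uni (R := fun v s => v ∈ (A : Set G) → cm u₀ v = 1 → cm (s 0) v = 1)
  exact (DefinableSet.df hA (Tm.var 0)).imp ((Df.eq (Tm.cm (Tm.const _) (Tm.var 0))
    (Tm.const 1)).imp (Df.eq (Tm.cm (Tm.var 1) (Tm.var 0)) (Tm.const 1)))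

theorem def_K0GN : Def1 (K0GN A UU u₀ v₁) := by
  refine (DefinableSet.df hA (Tm.var 0)).and ?_
  apply Df.uni (R := fun u s => UXN A UU u₀ u → ∃ u', UXN A UU u₀ u' ∧ cm u' v₁ = cm u (s 0))
  refine ((def_UXN u₀ hA hU).sub (Tm.var 0)).imp ?_
  apply Df.exi (R := fun u' s => UXN A UU u₀ u' ∧ cm u' v₁ = cm (s 0) (s 1))
  exact ((def_UXN u₀ hA hU).sub (Tm.var 0)).and (Df.eq (Tm.cm (Tm.var 0) (Tm.const _))
    (Tm.cm (Tm.var 1) (Tm.var 2)))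

theorem def_DomGN : Def1 (DomGN A UU u₀ v₁) := by
  refine ((def_K0GN u₀ v₁ hA hU).sub (Tm.var 0)).and ?_
  apply Df.uni (R := fun v' s => K0GN A UU u₀ v₁ v' → ∃ w, w ∈ (A : Set G) ∧
    ∀ u, UXN A UU u₀ u → ∃ p : Fin 2 → G, UXN A UU u₀ (p 0) ∧ UXN A UU u₀ (p 1) ∧
      cm (p 0) v₁ = cm u v' ∧ cm (p 1) v₁ = cm u (s 0) ∧ cm (p 0) (s 0) = cm u w ∧
      cm (p 1) v' = cm u w)
  refine ((def_K0GN u₀ v₁ hA hU).sub (Tm.var 0)).imp ?_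
  apply Df.exi (R := fun w s => w ∈ (A : Set G) ∧
    ∀ u, UXN A UU u₀ u → ∃ p : Fin 2 → G, UXN A UU u₀ (p 0) ∧ UXN A UU u₀ (p 1) ∧
      cm (p 0) v₁ = cm u (s 0) ∧ cm (p 1) v₁ = cm u (s 1) ∧ cm (p 0) (s 1) = cm u w ∧
      cm (p 1) (s 0) = cm u w)
  refine (DefinableSet.df hA (Tm.var 0)).and ?_
  apply Df.uni (R := fun u s => UXN A UU u₀ u → ∃ p : Fin 2 → G, UXN A UU u₀ (p 0) ∧
      UXN A UU u₀ (p 1) ∧ cm (p 0) v₁ = cm u (s 1) ∧ cm (p 1) v₁ = cm u (s 2) ∧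
      cm (p 0) (s 2) = cm u (s 0) ∧ cm (p 1) (s 1) = cm u (s 0))
  refine ((def_UXN u₀ hA hU).sub (Tm.var 0)).imp ?_
  apply Df.exiTuple
  exact ((def_UXN u₀ hA hU).sub (Tm.var 0)).and (((def_UXN u₀ hA hU).sub (Tm.var 1)).and
    ((Df.eq (Tm.cm (Tm.var 0) (Tm.const _)) (Tm.cm (Tm.var 2) (Tm.var 4))).and
    ((Df.eq (Tm.cm (Tm.var 1) (Tm.const _)) (Tm.cm (Tm.var 2) (Tm.var 5))).and
    ((Df.eq (Tm.cm (Tm.var 0) (Tm.var 5)) (Tm.cm (Tm.var 2) (Tm.var 3))).and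
    (Df.eq (Tm.cm (Tm.var 1) (Tm.var 4)) (Tm.cm (Tm.var 2) (Tm.var 3)))))))

theorem def_MulGN : Def3 (MulGN A UU u₀ v₁) := by
  apply Df.uni (R := fun u s => UXN A UU u₀ u → ∃ u', UXN A UU u₀ u' ∧ cm u' v₁ = cm u (s 1) ∧
    cm u' (s 0) = cm u (s 2))
  refine ((def_UXN u₀ hA hU).sub (Tm.var 0)).imp ?_
  apply Df.exi (R := fun u' s => UXN A UU u₀ u' ∧ cm u' v₁ = cm (s 0) (s 2) ∧
    cm u' (s 1) = cm (s 0) (s 3))
  exact ((def_UXN u₀ hA hU).sub (Tm.var 0)).and ((Df.eq (Tm.cm (Tm.var 0) (Tm.const _))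
    (Tm.cm (Tm.var 1) (Tm.var 3))).and (Df.eq (Tm.cm (Tm.var 0) (Tm.var 2))
    (Tm.cm (Tm.var 1) (Tm.var 4))))

end defs

section main
variable {G M L : Type} [Group G] [AddCommGroup M] [AddCommGroup L]

theorem linU {A : Subgroup G} {ι : M → G} (E : Emb A ι) (hA : DefinableSet (A : Set G))
    (UU : G → Prop) (hU : Def1 UU)
    (R₁ : Type) [CommRing R₁] [Algebra.FiniteType ℤ R₁] [Module R₁ L]
    (htfL : ∀ (n : ℕ) (x : L), n ≠ 0 → n • x = 0 → x = 0)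
    (W : Subgroup G) (lam : G → L) (hUW : ∀ u, UU u → ∀ v ∈ A, cm u v ∈ W)
    (hlam : ∀ a ∈ W, ∀ b ∈ W, lam (a * b) = lam a + lam b)
    (hlinj : ∀ a ∈ W, lam a = 0 → a = 1)
    (hUv : ∀ u, UU u → ∀ v ∈ A, ∀ v' ∈ A, cm u (v * v') = cm u v * cm u v')
    (hUadd : ∀ u u', UU u → UU u' → ∃ u'', UU u'' ∧ ∀ v ∈ A, cm u'' v = cm u v * cm u' v)
    (hUneg : ∀ u, UU u → ∃ u', UU u' ∧ ∀ v ∈ A, cm u' v = (cm u v)⁻¹)
    (u₀ : G) (hu₀ : UU u₀) (hu₀ne : ∃ v ∈ A, cm u₀ v ≠ 1)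
    (hu₀max : ∀ u, UU u → (∃ v ∈ A, cm u v ≠ 1) → (∀ v ∈ A, cm u₀ v = 1 → cm u v = 1) →
      ∀ v ∈ A, cm u v = 1 → cm u₀ v = 1)
    (Γ : Submodule R₁ (G → L)) (hΓ : Γ.FG)
    (hΓmem : ∀ v ∈ A, ∃ f ∈ Γ, ∀ u, UU u → f u = lam (cm u v)) :
    Undec G := by
  classical
  have hlam1 : lam 1 = 0 := by
    have h := hlam 1 W.one_mem 1 W.one_mem
    rw [mul_one] at h
    exact left_eq_add.1 h
  have hlaminv : ∀ a ∈ W, lam a⁻¹ = -lam a := by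
    intro a ha
    have h := hlam a⁻¹ (W.inv_mem ha) a ha
    rw [inv_mul_cancel, hlam1] at h
    exact eq_neg_of_add_eq_zero_left h.symm
  have hlaminj : ∀ a ∈ W, ∀ b ∈ W, lam a = lam b → a = b := by
    intro a ha b hb h
    have h1 : lam (a * b⁻¹) = 0 := by
      rw [hlam a ha _ (W.inv_mem hb), hlaminv b hb, h, add_neg_cancel]
    have h2 := hlinj _ (W.mul_mem ha (W.inv_mem hb)) h1
    exact mul_inv_eq_one.1 h2
  have hlam0 : ∀ a ∈ W, (lam a = 0 ↔ a = 1) := fun a ha =>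
    ⟨hlinj a ha, fun h => by rw [h, hlam1]⟩
  have hφ : ∀ u, UU u → ∃ x : M →+ L, ∀ v, x v = lam (cm u (ι v)) := by
    intro u hu
    refine ⟨{ toFun := fun v => lam (cm u (ι v)), map_zero' := ?_, map_add' := ?_ }, fun v => rfl⟩
    · rw [E.zero]
      have : cm u (1 : G) = 1 := by simp [cm]
      rw [this, hlam1]
    · intro v v'
      rw [E.add, hUv u hu _ (E.memι v) _ (E.memι v'),
        hlam _ (hUW u hu _ (E.memι v)) _ (hUW u hu _ (E.memι v'))]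
  let X : AddSubgroup (M →+ L) :=
    { carrier := {x | ∃ u, UU u ∧ ∀ v, x v = lam (cm u (ι v))}
      add_mem' := by
        rintro x y ⟨u, hu, hx⟩ ⟨u', hu', hy⟩
        obtain ⟨u'', hu'', h⟩ := hUadd u u' hu hu'
        refine ⟨u'', hu'', fun v => ?_⟩
        rw [AddMonoidHom.add_apply, hx, hy, h _ (E.memι v),
          hlam _ (hUW u hu _ (E.memι v)) _ (hUW u' hu' _ (E.memι v))]
      zero_mem' := by
        obtain ⟨u', hu', h'⟩ := hUneg u₀ hu₀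
        obtain ⟨u'', hu'', h⟩ := hUadd u₀ u' hu₀ hu'
        refine ⟨u'', hu'', fun v => ?_⟩
        rw [h _ (E.memι v), h' _ (E.memι v), mul_inv_cancel, hlam1]
        rfl
      neg_mem' := by
        rintro x ⟨u, hu, hx⟩
        obtain ⟨u', hu', h⟩ := hUneg u hu
        refine ⟨u', hu', fun v => ?_⟩
        rw [AddMonoidHom.neg_apply, hx, h _ (E.memι v), hlaminv _ (hUW u hu _ (E.memι v))] }
  have hXmem : ∀ x, x ∈ X ↔ ∃ u, UU u ∧ ∀ v, x v = lam (cm u (ι v)) := fun x => Iff.rfl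
  obtain ⟨x₀, hx₀⟩ := hφ u₀ hu₀
  have hx₀X : x₀ ∈ X := ⟨u₀, hu₀, hx₀⟩
  obtain ⟨g₁, hg₁A, hg₁⟩ := hu₀ne
  obtain ⟨v₁, rfl⟩ := (E.mem g₁).1 hg₁A
  have hx₀v₁ : x₀ v₁ ≠ 0 := by
    rw [hx₀, Ne, hlam0 _ (hUW u₀ hu₀ _ hg₁A)]
    exact hg₁
  have hval : ∀ (u : G) (x : M →+ L), UU u → (∀ v, x v = lam (cm u (ι v))) → ∀ v,
      (x v = 0 ↔ cm u (ι v) = 1) := by
    intro u x hu hx v
    rw [hx, hlam0 _ (hUW u hu _ (E.memι v))]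
  have hval2 : ∀ (u u' : G) (x x' : M →+ L), UU u → (∀ v, x v = lam (cm u (ι v))) → UU u' →
      (∀ v, x' v = lam (cm u' (ι v))) → ∀ v v', (x v = x' v' ↔ cm u (ι v) = cm u' (ι v')) := by
    intro u u' x x' hu hx hu' hx' v v'
    rw [hx, hx']
    exact ⟨hlaminj _ (hUW u hu _ (E.memι v)) _ (hUW u' hu' _ (E.memι v')), fun h => by rw [h]⟩
  have hUX : ∀ (u : G) (x : M →+ L), UU u → (∀ v, x v = lam (cm u (ι v))) →
      (UXN A UU u₀ u ↔ SubKN x₀ x) := by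
    intro u x hu hx
    unfold UXN SubKN
    rw [and_iff_right hu]
    constructor
    · intro h v hv
      rw [hval u x hu hx]
      exact h _ (E.memι v) ((hval u₀ x₀ hu₀ hx₀ v).1 hv)
    · intro h g hg h1
      obtain ⟨v, rfl⟩ := (E.mem g).1 hg
      rw [← hval u x hu hx]
      exact h v ((hval u₀ x₀ hu₀ hx₀ v).2 h1)
  have hto : ∀ u, UXN A UU u₀ u → ∃ x ∈ X, SubKN x₀ x ∧ ∀ v, x v = lam (cm u (ι v)) := by
    intro u hu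
    obtain ⟨x, hx⟩ := hφ u hu.1
    exact ⟨x, ⟨u, hu.1, hx⟩, (hUX u x hu.1 hx).1 hu, hx⟩
  have hfrom : ∀ x ∈ X, SubKN x₀ x → ∃ u, UXN A UU u₀ u ∧ ∀ v, x v = lam (cm u (ι v)) := by
    rintro x ⟨u, hu, hx⟩ hs
    exact ⟨u, (hUX u x hu hx).2 hs, hx⟩
  -- finiteness
  let Xs := {x : M →+ L // x ∈ X ∧ SubKN x₀ x}
  have hσ : ∀ x : Xs, ∃ u, UU u ∧ ∀ v, x.1 v = lam (cm u (ι v)) := fun x => x.2.1
  choose σ hσU hσ using hσ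
  let Γ' : Submodule R₁ (Xs → L) := Γ.map (LinearMap.funLeft R₁ L σ)
  have hΓ' : Γ'.FG := hΓ.map _
  have hΓ'mem : ∀ v, (fun x : Xs => x.1 v) ∈ Γ' := by
    intro v
    obtain ⟨f, hf, hfu⟩ := hΓmem (ι v) (E.memι v)
    refine ⟨f, hf, ?_⟩
    funext x
    show f (σ x) = x.1 v
    rw [hfu _ (hσU x), hσ]
  obtain ⟨O, i1, i2, i3, V, ⟨K, hK⟩, HD⟩ := caseUN R₁ htfL X x₀ hx₀X v₁ hx₀v₁ (by
    rintro x ⟨u, hu, hx⟩ hx0 hs v hv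
    rw [hval u x hu hx] at hv
    rw [hval u₀ x₀ hu₀ hx₀]
    refine hu₀max u hu ?_ (fun g hg h => ?_) _ (E.memι v) hv
    · by_contra hcon
      push Not at hcon
      apply hx0
      ext w
      rw [AddMonoidHom.zero_apply, hval u x hu hx]
      exact hcon _ (E.memι w)
    · obtain ⟨w, rfl⟩ := (E.mem g).1 hg
      rw [← hval u x hu hx]
      exact hs w ((hval u₀ x₀ hu₀ hx₀ w).2 h)) Γ' hΓ' hΓ'mem
  have hK0 : ∀ v : M, K0GN A UU u₀ (ι v₁) (ι v) ↔ K0N X x₀ v₁ v := by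
    intro v
    unfold K0GN K0N
    rw [and_iff_right (show ι v ∈ (A : Set G) from E.memι v)]
    constructor
    · intro h x hx hs
      obtain ⟨u, hu, hxu⟩ := hfrom x hx hs
      obtain ⟨u', hu', he⟩ := h u hu
      obtain ⟨x', hx', hs', hxu'⟩ := hto u' hu'
      exact ⟨x', hx', hs', (hval2 _ _ _ _ hu'.1 hxu' hu.1 hxu _ _).2 he⟩
    · intro h u hu
      obtain ⟨x, hx, hs, hxu⟩ := hto u hu
      obtain ⟨x', hx', hs', he⟩ := h x hx hs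
      obtain ⟨u', hu', hxu'⟩ := hfrom x' hx' hs'
      exact ⟨u', hu', (hval2 _ _ _ _ hu'.1 hxu' hu.1 hxu _ _).1 he⟩
  have hDom : ∀ v : M, DomGN A UU u₀ (ι v₁) (ι v) ↔ DomUN X x₀ v₁ v := by
    intro v
    unfold DomGN DomUN
    rw [hK0]
    refine and_congr Iff.rfl ⟨?_, ?_⟩
    · intro h v' hv'
      obtain ⟨g, hg, hw⟩ := h (ι v') ((hK0 v').2 hv')
      obtain ⟨w, rfl⟩ := (E.mem g).1 hg
      refine ⟨w, fun x hx hs => ?_⟩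
      obtain ⟨u, hu, hxu⟩ := hfrom x hx hs
      obtain ⟨p, hp0, hp1, e1, e2, e3, e4⟩ := hw u hu
      obtain ⟨x₂, hx₂, hs₂, hxu₂⟩ := hto _ hp0
      obtain ⟨x₃, hx₃, hs₃, hxu₃⟩ := hto _ hp1
      exact ⟨x₂, hx₂, x₃, hx₃, hs₂, hs₃, (hval2 _ _ _ _ hp0.1 hxu₂ hu.1 hxu _ _).2 e1,
        (hval2 _ _ _ _ hp1.1 hxu₃ hu.1 hxu _ _).2 e2, (hval2 _ _ _ _ hp0.1 hxu₂ hu.1 hxu _ _).2 e3,
        (hval2 _ _ _ _ hp1.1 hxu₃ hu.1 hxu _ _).2 e4⟩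
    · intro h g hg
      obtain ⟨v', rfl⟩ := (E.mem g).1 hg.1
      obtain ⟨w, hw⟩ := h v' ((hK0 v').1 hg)
      refine ⟨ι w, E.memι w, fun u hu => ?_⟩
      obtain ⟨x, hx, hs, hxu⟩ := hto u hu
      obtain ⟨x₂, hx₂, x₃, hx₃, hs₂, hs₃, e1, e2, e3, e4⟩ := hw x hx hs
      obtain ⟨u₂, hu₂, hxu₂⟩ := hfrom x₂ hx₂ hs₂
      obtain ⟨u₃, hu₃, hxu₃⟩ := hfrom x₃ hx₃ hs₃
      refine ⟨![u₂, u₃], hu₂, hu₃, ?_, ?_, ?_, ?_⟩
      · exact (hval2 _ _ _ _ hu₂.1 hxu₂ hu.1 hxu _ _).1 e1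
      · exact (hval2 _ _ _ _ hu₃.1 hxu₃ hu.1 hxu _ _).1 e2
      · exact (hval2 _ _ _ _ hu₂.1 hxu₂ hu.1 hxu _ _).1 e3
      · exact (hval2 _ _ _ _ hu₃.1 hxu₃ hu.1 hxu _ _).1 e4
  have hMul : ∀ y z w : M, MulGN A UU u₀ (ι v₁) (ι y) (ι z) (ι w) ↔ MulUN X x₀ v₁ y z w := by
    intro y z w
    unfold MulGN MulUN
    constructor
    · intro h x hx hs
      obtain ⟨u, hu, hxu⟩ := hfrom x hx hs
      obtain ⟨u', hu', he, he'⟩ := h u hu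
      obtain ⟨x', hx', hs', hxu'⟩ := hto u' hu'
      exact ⟨x', hx', hs', (hval2 _ _ _ _ hu'.1 hxu' hu.1 hxu _ _).2 he,
        (hval2 _ _ _ _ hu'.1 hxu' hu.1 hxu _ _).2 he'⟩
    · intro h u hu
      obtain ⟨x, hx, hs, hxu⟩ := hto u hu
      obtain ⟨x', hx', hs', he, he'⟩ := h x hx hs
      obtain ⟨u', hu', hxu'⟩ := hfrom x' hx' hs'
      exact ⟨u', hu', (hval2 _ _ _ _ hu'.1 hxu' hu.1 hxu _ _).1 he,
        (hval2 _ _ _ _ hu'.1 hxu' hu.1 hxu _ _).1 he'⟩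
  have hData := HD.toData ι E.inj E.add (fun k x => E.nsmul k x)
    (DomGN A UU u₀ (ι v₁)) (fun x y => cm u₀ x = cm u₀ y) (MulGN A UU u₀ (ι v₁))
    (fun g hg => (E.mem g).1 hg.1.1)
    hDom
    (fun x y _ _ => (hval2 _ _ _ _ hu₀ hx₀ hu₀ hx₀ _ _).symm)
    (fun x y z _ _ _ => hMul x y z)
  refine Crit2.main hK hData (def_DomGN _ _ hA hU) ?_ ?_ (def_MulGN _ _ hA hU)
  · exact Df.eq (Tm.cm (Tm.const _) (Tm.var 0)) (Tm.cm (Tm.const _) (Tm.var 1))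
  · exact Df.eq ((Tm.var 0).mul (Tm.var 1)) (Tm.var 2)

end main

end Pool.Agent.Helper657_nd.Noeth
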