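import Pool.Agent.Helper657_nd.LinB
import Pool.Agent.Helper657_nd.LinS
import Pool.Agent.Helper657_nd.LinU

set_option autoImplicit false

/-!
# Linear groups: definable abelian subgroups with infinite Weyl group
-/

namespace Pool.Agent.Helper657_nd.Lin

open Crit Weyl Seg SegFT Solv Noeth

/-- The data of a linear group over a domain of finite type. -/
structure LinData (G F B R₁ B₁ : Type) [Group G] [Field F] [Ring B] [Algebra F B] [Algebra ℚ B]
    [CommRing R₁] [Algebra R₁ F] [Algebra R₁ B] [Ring B₁] [Algebra R₁ B₁] (d : ℕ)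
    (φ : B₁ →ₐ[R₁] B) (ρ₁ : G →* B₁) (ρ : G →* B) : Prop where
  hd0 : 0 < d
  hd : ∀ x : B, IsNilpotent x → x ^ d = 0
  hden : ∀ k < 2 * d, ∃ r : R₁, ∀ a : B, r • a = ((-1 : ℚ) ^ k / ((k : ℚ) + 1)) • a
  htf : ∀ (r : R₁) (v : B₁), r ≠ 0 → r • v = 0 → v = 0
  hφ : Function.Injective φ
  hρ₁ : Function.Injective ρ₁
  hρ : ∀ g, ρ g = φ (ρ₁ g)

section main
variable {G F B R₁ B₁ : Type} [Group G] [Field F] [CharZero F] [Ring B] [Algebra F B]
  [FiniteDimensional F B] [Algebra ℚ B] [CommRing R₁] [Algebra.FiniteType ℤ R₁]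
  [Algebra R₁ F] [Algebra R₁ B] [IsScalarTower R₁ F B] [Ring B₁] [Algebra R₁ B₁]
  [Module.Finite R₁ B₁] {d : ℕ} {φ : B₁ →ₐ[R₁] B} {ρ₁ : G →* B₁} {ρ : G →* B}

omit [CharZero F] [FiniteDimensional F B] [Algebra.FiniteType ℤ R₁] [IsScalarTower R₁ F B]
  [Module.Finite R₁ B₁] in
theorem LinData.inj (L : LinData G F B R₁ B₁ d φ ρ₁ ρ) : Function.Injective ρ := by
  intro a b h
  apply L.hρ₁
  apply L.hφ
  rw [← L.hρ, ← L.hρ, h]

omit [CharZero F] [FiniteDimensional F B] [Algebra.FiniteType ℤ R₁] [IsScalarTower R₁ F B]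
  [Module.Finite R₁ B₁] in
theorem LinData.lam_mem (L : LinData G F B R₁ B₁ d φ ρ₁ ρ) (a : G) :
    lam ρ d a ∈ LinearMap.range φ.toLinearMap := by
  have h1 := logD_mem (2 * d) L.hden (LinearMap.range φ.toLinearMap) (ρ a - 1)
    ⟨ρ₁ a - 1, by
      show φ (ρ₁ a - 1) = _
      rw [map_sub, map_one, L.hρ]⟩
  have h2 : ∀ k : ℕ, (LinearMap.range φ.toLinearMap) ^ (k + 1) ≤ LinearMap.range φ.toLinearMap := by
    intro k
    induction k with
    | zero => rw [zero_add, pow_one]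
    | succ k ih =>
      rw [pow_succ]
      refine (mul_le_mul' ih le_rfl).trans ?_
      rw [Submodule.mul_le]
      rintro _ ⟨x, rfl⟩ _ ⟨y, rfl⟩
      exact ⟨x * y, map_mul φ x y⟩
  exact (iSup₂_le fun k _ => h2 k) h1

/-- The semisimple case. -/
theorem linSS (L : LinData G F B R₁ B₁ d φ ρ₁ ρ) (E : Subgroup G)
    (hE : DefinableSet (E : Set G)) (hc : ∀ a ∈ E, ∀ b ∈ E, a * b = b * a) (t : G)
    (ht : t ∈ Subgroup.normalizer (E : Set G)) (j : ℕ)
    (hun : ∀ e ∈ E, Un ρ (cmI t j e))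
    (hfix : ∀ k : ℕ, 0 < k → ∀ g : G, t ^ k * g * (t ^ k)⁻¹ = g → t * g * t⁻¹ = g)
    (hinj : ∀ e ∈ E, cm t (cmI t j e) = 1 → cmI t j e = 1)
    (hne : ∃ e ∈ E, cmI t j e ≠ 1) : Undec G := by
  have hunB : ∀ b ∈ BS hc ht j, Un ρ b := by
    rintro _ ⟨e, he, rfl⟩
    exact hun e he
  have hBE : ∀ b ∈ BS hc ht j, b ∈ E := by
    rintro _ ⟨e, he, rfl⟩
    exact cmI_mem ht j he
  refine linS (F := F) R₁ (LinearMap.range φ.toLinearMap) ?_ (BS hc ht j) ?_ (lam ρ d) ?_ ?_ ?_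
    (DG E t) (def_DG hE t) t (DG.self ht) ?_ (fun _ h => h.inv) ?_ (conjF F ρ) ?_ ?_ ?_
  · rw [LinearMap.range_eq_map]
    exact (Module.finite_def.1 inferInstance).map _
  · exact Df.definableSet (def_BG hE t j)
  · intro a ha b hb
    exact lam_mul L.hd (hunB a ha) (hunB b hb) (hc a (hBE a ha) b (hBE b hb))
  · intro a ha h
    exact lam_inj L.hd0 L.inj (hunB a ha) h
  · intro a _
    exact L.lam_mem a
  · intro a b ha hb
    refine ⟨Subgroup.mul_mem _ ha.1 hb.1, fun y hy => ?_⟩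
    have h1 : Commute a y := ha.2 y hy
    have h2 : Commute b y := hb.2 y hy
    exact (h1.mul_left h2).eq
  · intro a b ha hb
    exact ha.2 b (hb.2 t rfl)
  · rintro a ha _ ⟨e, he, rfl⟩
    refine ⟨?_, ?_⟩
    · rw [cmI_conj (ha.2 t rfl)]
      exact ⟨_, conj_mem ha.1 he, rfl⟩
    · rw [lam_conj, conjF_apply]
  · rintro k hk _ ⟨e, he, rfl⟩ h
    exact hinj e he (cm_eq_one.2 (hfix k hk _ h))
  · obtain ⟨e, he, h⟩ := hne
    exact ⟨cmI t j e, ⟨e, he, rfl⟩, h⟩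

omit [CharZero F] [FiniteDimensional F B] [Algebra.FiniteType ℤ R₁] [IsScalarTower R₁ F B]
  [Module.Finite R₁ B₁] in
theorem LinData.lam_pow (L : LinData G F B R₁ B₁ d φ ρ₁ ρ) {a : G} (ha : Un ρ a) (k : ℕ) :
    Un ρ (a ^ k) ∧ lam ρ d (a ^ k) = k • lam ρ d a := by
  induction k with
  | zero => exact ⟨by rw [pow_zero]; exact Un.one ρ, by rw [pow_zero, lam_one, zero_smul]⟩
  | succ k ih =>
    have hcm : a ^ k * a = a * a ^ k := (pow_mul_comm' a k)
    refine ⟨by rw [pow_succ]; exact Un.mul ρ ih.1 ha hcm, ?_⟩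
    rw [pow_succ, lam_mul L.hd ih.1 ha hcm, ih.2, succ_nsmul]

omit [FiniteDimensional F B] [Algebra.FiniteType ℤ R₁] [IsScalarTower R₁ F B]
  [Module.Finite R₁ B₁] in
theorem tfB (n : ℕ) (x : B) (hn : n ≠ 0) (h : n • x = 0) : x = 0 := by
  have h1 : (n : ℚ) • x = 0 := by rw [Nat.cast_smul_eq_nsmul, h]
  have h2 : ((n : ℚ)⁻¹ * (n : ℚ)) • x = 0 := by rw [mul_smul, h1, smul_zero]
  rwa [inv_mul_cancel₀ (by exact_mod_cast hn), one_smul] at h2

theorem UG_pow {E : Subgroup G} (hc : ∀ a ∈ E, ∀ b ∈ E, a * b = b * a) {t u : G}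
    (hu : UG E t u) (k : ℕ) : UG E t (u ^ k) ∧ ∀ v, VG E t v → cm (u ^ k) v = (cm u v) ^ k := by
  induction k with
  | zero => exact ⟨by rw [pow_zero]; exact UG.one, fun v _ => by simp [cm]⟩
  | succ k ih =>
    refine ⟨by rw [pow_succ]; exact ih.1.mul hc hu, fun v hv => ?_⟩
    rw [pow_succ, UG.cm_mul hc ih.1 hu hv, ih.2 v hv, pow_succ]

/-- The unipotent case. -/
theorem linUU (L : LinData G F B R₁ B₁ d φ ρ₁ ρ) (E : Subgroup G)
    (hE : DefinableSet (E : Set G)) (hc : ∀ a ∈ E, ∀ b ∈ E, a * b = b * a) (t : G)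
    (ht : t ∈ Subgroup.normalizer (E : Set G)) (hunt : ∀ e ∈ E, Un ρ (cm t e)) (m : ℕ)
    (hm : 0 < m)
    (hexp : ∀ x ∈ Subgroup.normalizer (E : Set G), ∀ e ∈ E, Un ρ (cm (x ^ m) e))
    (hne : ∃ v ∈ E, cm t v ≠ 1 ∧ cm t (cm t v) = 1) : Undec G := by
  classical
  obtain ⟨M, iM, ι, hEmb⟩ := exists_emb (VS hc ht) (fun a ha b hb => hc a ha.1 b hb.1)
  let UU : G → Prop := fun u => ∃ a, UG E t a ∧ u = a ^ m
  have hUUdef : Def1 UU := by
    apply Df.exi (R := fun a s => UG E t a ∧ s 0 = a ^ m)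
    exact ((def_UG hE t).sub (Tm.var 0)).and (Df.eq (Tm.var 1) (Tm.pow (Tm.var 0) m))
  have hUUN : ∀ u, UU u → u ∈ Subgroup.normalizer (E : Set G) := by
    rintro u ⟨a, ha, rfl⟩
    exact Subgroup.pow_mem _ ha.1 m
  -- the maximal kernel
  let ker : G → Set G := fun u => {v | v ∈ VS hc ht ∧ cm u v = 1}
  let K : G → Submodule F B := fun u => Submodule.span F (ρ '' ker u)
  have hK : ∀ u v, ρ v ∈ K u → cm u v = 1 := by
    intro u v hv
    have h1 : ∀ x ∈ K u, ρ u * x = x * ρ u := by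
      intro x hx
      induction hx using Submodule.span_induction with
      | mem x hx =>
        obtain ⟨w, ⟨-, hw⟩, rfl⟩ := hx
        rw [← map_mul, ← map_mul]
        congr 1
        have h2 := cm_eq_one.1 hw
        rw [mul_inv_eq_iff_eq_mul] at h2
        exact h2
      | zero => rw [mul_zero, zero_mul]
      | add x y _ _ hx hy => rw [mul_add, add_mul, hx, hy]
      | smul c x _ hx => rw [mul_smul_comm, smul_mul_assoc, hx]
    have h2 := h1 _ hv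
    rw [← map_mul, ← map_mul] at h2
    rw [cm_eq_one, L.inj h2, mul_inv_cancel_right]
  obtain ⟨v₀, hv₀E, hv₀, hv₀'⟩ := hne
  have hv₀V : v₀ ∈ VS hc ht := ⟨hv₀E, hv₀'⟩
  have htUG : UG E t t := UG.self ht
  have hex : ∃ n : ℕ, ∃ u, (UU u ∧ ∃ v ∈ VS hc ht, cm u v ≠ 1) ∧
      Module.finrank F B - Module.finrank F (K u) = n := by
    refine ⟨_, t ^ m, ⟨⟨t, htUG, rfl⟩, v₀, hv₀V, ?_⟩, rfl⟩
    rw [(UG_pow hc htUG m).2 v₀ hv₀V]
    intro h
    have h1 := (L.lam_pow (hunt v₀ hv₀E) m).2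
    rw [h, lam_one] at h1
    exact hv₀ (lam_inj L.hd0 L.inj (hunt v₀ hv₀E) (tfB m _ hm.ne' h1.symm))
  obtain ⟨u₀, ⟨hu₀, hu₀ne⟩, hu₀f⟩ := Nat.find_spec hex
  -- the family of bilinear functions
  let P1 : B₁ →ₗ[R₁] (G → B) :=
    { toFun := fun b u => ρ u * φ b * ρ u⁻¹
      map_add' := fun a b => by
        funext u
        rw [Pi.add_apply, map_add, mul_add, add_mul]
      map_smul' := fun r a => by
        funext u
        rw [map_smul, mul_smul_comm, smul_mul_assoc]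
        rfl }
  let P2 : B₁ →ₗ[R₁] (G → B) :=
    { toFun := fun b u => φ b
      map_add' := fun a b => by
        funext u
        rw [Pi.add_apply, map_add]
      map_smul' := fun r a => by
        funext u
        rw [map_smul]
        rfl }
  let P : Submodule R₁ (G → B) := LinearMap.range P1 * LinearMap.range P2 ⊔ LinearMap.range P2
  have hfg1 : (LinearMap.range P1).FG := by
    rw [LinearMap.range_eq_map]
    exact (Module.finite_def.1 inferInstance).map _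
  have hfg2 : (LinearMap.range P2).FG := by
    rw [LinearMap.range_eq_map]
    exact (Module.finite_def.1 inferInstance).map _
  have hPfg : P.FG := (hfg1.mul hfg2).sup hfg2
  let Γ : Submodule R₁ (G → B) := ⨆ k ∈ Finset.range (2 * d), P ^ (k + 1)
  have hΓ : Γ.FG := Submodule.fg_biSup _ _ fun k _ => hPfg.pow (k + 1)
  have hden' : ∀ k < 2 * d, ∃ r : R₁, ∀ a : G → B,
      r • a = ((-1 : ℚ) ^ k / ((k : ℚ) + 1)) • a := by
    intro k hk
    obtain ⟨r, hr⟩ := L.hden k hk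
    exact ⟨r, fun a => funext fun u => hr (a u)⟩
  refine linU hEmb (Df.definableSet (def_VG hE t)) UU hUUdef R₁ (L := B) (fun n x => tfB n x)
    (WS ρ E hc) (lam ρ d) ?_ ?_ ?_ ?_ ?_ ?_ u₀ hu₀ hu₀ne ?_ Γ hΓ ?_
  · rintro u ⟨a, ha, rfl⟩ v hv
    exact ⟨cm_mem (Subgroup.pow_mem _ ha.1 m) hv.1, hexp a ha.1 v hv.1⟩
  · intro a ha b hb
    exact lam_mul L.hd ha.2 hb.2 (hc a ha.1 b hb.1)
  · intro a ha h
    exact lam_inj L.hd0 L.inj ha.2 h
  · intro u hu v hv v' hv'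
    exact cm_hom hc (hUUN u hu) hv.1 hv'.1
  · rintro u u' ⟨a, ha, rfl⟩ ⟨b, hb, rfl⟩
    refine ⟨(a * b) ^ m, ⟨a * b, ha.mul hc hb, rfl⟩, fun v hv => ?_⟩
    rw [(UG_pow hc (ha.mul hc hb) m).2 v hv, (UG_pow hc ha m).2 v hv, (UG_pow hc hb m).2 v hv,
      UG.cm_mul hc ha hb hv]
    have h1 : Commute (cm a v) (cm b v) := hc _ (cm_mem ha.1 hv.1) _ (cm_mem hb.1 hv.1)
    exact h1.mul_pow m
  · rintro u ⟨a, ha, rfl⟩
    refine ⟨(a⁻¹) ^ m, ⟨a⁻¹, ha.inv, rfl⟩, fun v hv => ?_⟩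
    rw [(UG_pow hc ha.inv m).2 v hv, (UG_pow hc ha m).2 v hv, UG.cm_inv ha hv, inv_pow]
  · intro u hu hune hle v hv hcv
    have h1 : K u₀ ≤ K u := Submodule.span_mono (Set.image_mono fun w hw => ⟨hw.1, hle w hw.1 hw.2⟩)
    have h2 : Module.finrank F B - Module.finrank F (K u₀) ≤
        Module.finrank F B - Module.finrank F (K u) := by
      rw [hu₀f]
      exact Nat.find_min' hex ⟨u, ⟨hu, hune⟩, rfl⟩
    have h3 := Submodule.finrank_le (K u)
    have h4 := Submodule.finrank_le (K u₀)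
    have h5 : K u₀ = K u := Submodule.eq_of_le_of_finrank_le h1 (by omega)
    apply hK
    rw [h5]
    exact Submodule.subset_span ⟨v, ⟨hv, hcv⟩, rfl⟩
  · intro v hv
    let h : G → B := P1 (ρ₁ v) * P2 (ρ₁ v⁻¹) - P2 1
    have hh : ∀ u, h u = ρ (cm u v) - 1 := by
      intro u
      show ρ u * φ (ρ₁ v) * ρ u⁻¹ * φ (ρ₁ v⁻¹) - φ 1 = _
      rw [map_one, ← L.hρ, ← L.hρ, ← map_mul, ← map_mul, ← map_mul]
      rfl
    have hhP : h ∈ P := by
      apply Submodule.sub_mem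
      · exact Submodule.mem_sup_left (Submodule.mul_mem_mul ⟨_, rfl⟩ ⟨_, rfl⟩)
      · exact Submodule.mem_sup_right ⟨_, rfl⟩
    refine ⟨logD (2 * d) h, logD_mem (2 * d) hden' P h hhP, fun u _ => ?_⟩
    have h1 := logD_map (Pi.evalRingHom (fun _ : G => B) u) (2 * d) h
    rw [lam, ← hh u]
    exact h1

/-- Definable abelian subgroups with infinite Weyl group. -/
theorem linE [IsAlgClosed F] [IsDomain R₁] [CharZero R₁] (L : LinData G F B R₁ B₁ d φ ρ₁ ρ)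
    (E : Subgroup G) (hE : DefinableSet (E : Set G)) (hc : ∀ a ∈ E, ∀ b ∈ E, a * b = b * a)
    (hidx : (Subgroup.centralizer (E : Set G)).relIndex (Subgroup.normalizer (E : Set G)) = 0) :
    Undec G := by
  classical
  have hN : IsNoetherianRing R₁ := Algebra.FiniteType.isNoetherianRing ℤ R₁
  obtain ⟨m₁, m₂, hm₁, hm₂, hmm⟩ := exists_two_maximal R₁
  obtain ⟨x, hxΓ, hxN, hxC⟩ : ∃ x, x ∈ CG ρ₁ m₁ ⊓ CG ρ₁ m₂ ∧
      x ∈ Subgroup.normalizer (E : Set G) ∧ x ∉ Subgroup.centralizer (E : Set G) := by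
    by_contra hcon
    push Not at hcon
    have h1 : (CG ρ₁ m₁ ⊓ CG ρ₁ m₂).relIndex (Subgroup.normalizer (E : Set G)) ≠ 0 :=
      Subgroup.relIndex_inf_ne_zero (CG.index ρ₁ hm₁ _) (CG.index ρ₁ hm₂ _)
    rw [← Subgroup.inf_relIndex_right] at h1
    exact relIndex_mono_left (H := (CG ρ₁ m₁ ⊓ CG ρ₁ m₂) ⊓ Subgroup.normalizer (E : Set G))
      (fun y hy => hcon y hy.1 hy.2) h1 hidx
  obtain ⟨m, hm, hexp⟩ := exists_exponent F ρ E hc
  have hfix : ∀ y ∈ CG ρ₁ m₁ ⊓ CG ρ₁ m₂, ∀ k : ℕ, 0 < k → ∀ g : G,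
      y ^ k * g * (y ^ k)⁻¹ = g → y * g * y⁻¹ = g := fun y hy k hk g h =>
    CG.fix L.htf m₁ m₂ hm₁ hm₂ hmm ρ₁ L.hρ₁ hy.1 hy.2 k hk g h
  obtain ⟨t, htN, htΓ, htC, hunt⟩ : ∃ t, t ∈ Subgroup.normalizer (E : Set G) ∧
      t ∈ CG ρ₁ m₁ ⊓ CG ρ₁ m₂ ∧ (∃ e ∈ E, cm t e ≠ 1) ∧ ∀ e ∈ E, Un ρ (cm t e) := by
    refine ⟨x ^ m, Subgroup.pow_mem _ hxN m, Subgroup.pow_mem _ hxΓ m, ?_, hexp x hxN⟩
    by_contra hcon
    push Not at hcon
    apply hxC
    rw [Subgroup.mem_centralizer_iff]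
    intro e he
    have h1 := hfix x hxΓ m hm e (cm_eq_one.1 (hcon e he))
    rw [mul_inv_eq_iff_eq_mul] at h1
    exact h1.symm
  have hun : ∀ j, ∀ e ∈ E, Un ρ (cmI t (j + 1) e) := fun j e he => hunt _ (cmI_mem htN j he)
  -- the additive map
  let T1 : B →ₗ[F] B := conjF F ρ t - LinearMap.id
  have hT1 : ∀ b ∈ E, Un ρ b → lam ρ d (cm t b) = T1 (lam ρ d b) := by
    intro b hb hub
    have h1 : cm t b = (t * b * t⁻¹) * b⁻¹ := rfl
    rw [h1, lam_mul L.hd (Un.conj ρ t hub) (Un.inv ρ hub)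
      (hc _ (conj_mem htN hb) _ (E.inv_mem hb)), lam_conj, lam_inv ρ L.hd hub]
    show _ = conjF F ρ t (lam ρ d b) - lam ρ d b
    rw [conjF_apply, sub_eq_add_neg]
  let V : ℕ → Submodule F B := fun j =>
    Submodule.span F (lam ρ d '' (BS hc htN (j + 1) : Set G))
  have hex : ∃ n : ℕ, ∃ j, Module.finrank F (V j) = n := ⟨_, 0, rfl⟩
  obtain ⟨j, hj⟩ := Nat.find_spec hex
  have hVle : V (j + 1) ≤ V j := by
    refine Submodule.span_mono (Set.image_mono ?_)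
    rintro _ ⟨e, he, rfl⟩
    exact ⟨cm t e, cm_mem htN he, (cmI_comm t (j + 1) e).symm⟩
  have hVeq : V (j + 1) = V j := by
    refine Submodule.eq_of_le_of_finrank_le hVle ?_
    rw [hj]
    exact Nat.find_min' hex ⟨j + 1, rfl⟩
  have hVmap : V j ≤ Submodule.map T1 (V j) := by
    rw [← hVeq]
    conv_rhs => rw [hVeq]
    rw [Submodule.span_le]
    rintro _ ⟨_, ⟨e, he, rfl⟩, rfl⟩
    refine ⟨lam ρ d (cmI t (j + 1) e), Submodule.subset_span ⟨_, ⟨e, he, rfl⟩, rfl⟩, ?_⟩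
    exact (hT1 _ (cmI_mem htN (j + 1) he) (hun j e he)).symm
  have hinj : ∀ v ∈ V j, T1 v = 0 → v = 0 := by
    let T2 : V j →ₗ[F] B := T1.domRestrict (V j)
    have h1 := LinearMap.finrank_range_add_finrank_ker T2
    have h2 : LinearMap.range T2 = Submodule.map T1 (V j) := LinearMap.range_domRestrict _ _
    have h3 := Submodule.finrank_mono hVmap
    rw [h2] at h1
    have h4 : Module.finrank F (LinearMap.ker T2) = 0 := by omega
    have h5 : LinearMap.ker T2 = ⊥ := Submodule.finrank_eq_zero.1 h4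
    intro v hv hTv
    have h6 : (⟨v, hv⟩ : V j) ∈ LinearMap.ker T2 := hTv
    rw [h5, Submodule.mem_bot] at h6
    exact congrArg Subtype.val h6
  by_cases hall : ∀ e ∈ E, cmI t (j + 1) e = 1
  · -- unipotent case
    have hex2 : ∃ i : ℕ, ∀ e ∈ E, cmI t i e = 1 := ⟨j + 1, hall⟩
    have hi := Nat.find_spec hex2
    have hmin : ∀ i < Nat.find hex2, ∃ e ∈ E, cmI t i e ≠ 1 := by
      intro i hi'
      have := Nat.find_min hex2 hi'
      push Not at this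
      exact this
    generalize Nat.find hex2 = i at hi hmin
    obtain ⟨e₀, he₀, he₀'⟩ := htC
    match i, hi, hmin with
    | 0, hi, _ =>
      exfalso
      have h1 : e₀ = 1 := hi e₀ he₀
      apply he₀'
      rw [h1]
      simp [cm]
    | 1, hi, _ => exact absurd (hi e₀ he₀) he₀'
    | i + 2, hi, hmin =>
      obtain ⟨e, he, hne⟩ := hmin (i + 1) (by omega)
      exact linUU L E hE hc t htN hunt m hm hexp ⟨cmI t i e, cmI_mem htN i he, hne, hi e he⟩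
  · push Not at hall
    refine linSS L E hE hc t htN (j + 1) (hun j) (hfix t htΓ) ?_ hall
    intro e he h
    have h1 := hT1 _ (cmI_mem htN (j + 1) he) (hun j e he)
    rw [h, lam_one] at h1
    exact lam_inj L.hd0 L.inj (hun j e he)
      (hinj _ (Submodule.subset_span ⟨_, ⟨e, he, rfl⟩, rfl⟩) h1.symm)

end main

end Pool.Agent.Helper657_nd.Lin
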