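import Pool.Agent.Helper657_nd.LinC

set_option autoImplicit false

/-!
# Finitely generated linear groups of characteristic zero
-/

namespace Pool.Agent.Helper657_nd.Lin

open Crit Weyl Seg SegFT Solv Noeth Subgroup

theorem centralizer_def' (F : Type) {G B : Type} [Group G] [Field F] [Ring B] [Algebra F B]
    [FiniteDimensional F B] (ρ : G →* B) (hρ : Function.Injective ρ) (A : Subgroup G) :
    DefinableSet (centralizer (A : Set G) : Set G) := by
  classical
  have h1 : (Submodule.span F (ρ '' (A : Set G))).FG := IsNoetherian.noetherian _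
  rw [Submodule.fg_span_iff_fg_span_finset_subset] at h1
  obtain ⟨T, hT, hTs⟩ := h1
  obtain ⟨S, hSA, rfl⟩ := (Finset.subset_set_image_iff).1 hT
  have h2 : centralizer ((closure (S : Set G) : Subgroup G) : Set G) =
      centralizer (A : Set G) := by
    apply le_antisymm
    · intro x hx
      rw [mem_centralizer_iff]
      intro a ha
      have h3 : ∀ y ∈ Submodule.span F (ρ '' (A : Set G)), y * ρ x = ρ x * y := by
        intro y hy
        rw [hTs] at hy
        induction hy using Submodule.span_induction with
        | mem y hy =>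
          rw [Finset.coe_image] at hy
          obtain ⟨s, hs, rfl⟩ := hy
          rw [← map_mul, ← map_mul]
          congr 1
          exact mem_centralizer_iff.1 hx s (subset_closure hs)
        | zero => rw [mul_zero, zero_mul]
        | add u v _ _ hu hv => rw [mul_add, add_mul, hu, hv]
        | smul c u _ hu => rw [mul_smul_comm, smul_mul_assoc, hu]
      apply hρ
      rw [map_mul, map_mul]
      exact h3 _ (Submodule.subset_span ⟨a, ha, rfl⟩)
    · apply centralizer_le
      rw [SetLike.coe_subset_coe, closure_le]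
      exact hSA
  rw [← h2]
  exact centralizer_def ⟨S, rfl⟩

section main
variable {G F B R₁ B₁ : Type} [Group G] [Field F] [CharZero F] [IsAlgClosed F] [Ring B]
  [Algebra F B] [FiniteDimensional F B] [Algebra ℚ B] [CommRing R₁] [IsDomain R₁] [CharZero R₁]
  [Algebra.FiniteType ℤ R₁]
  [Algebra R₁ F] [Algebra R₁ B] [IsScalarTower R₁ F B] [Ring B₁] [Algebra R₁ B₁]
  [Module.Finite R₁ B₁] {d : ℕ} {φ : B₁ →ₐ[R₁] B} {ρ₁ : G →* B₁} {ρ : G →* B}

theorem linMain (L : LinData G F B R₁ B₁ d φ ρ₁ ρ) (H : Subgroup G) (hH : Group.IsSolvable H)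
    (hV : ¬ VAb H) : Undec G := by
  by_contra hcon
  refine hV (vab_of_solvable2 H (fun A _ hA h0 => hcon ?_) hH)
  refine linE L (cc A) (cc_def (centralizer_def' F ρ L.inj A)) (isAb_cc A) ?_
  by_contra hne
  have h1 : (centralizer (cc A : Set G)).relIndex (normalizer (A : Set G) ⊓ H) ≠ 0 :=
    relIndex_mono_right (inf_le_left.trans (normalizer_le_cc A)) hne
  exact relIndex_mono_left (centralizer_le (le_cc hA)) h1 h0

end main

section field
variable {G K : Type} [Group G] [Field K] [CharZero K] {d : ℕ}

theorem linear (ρ : G →* GL (Fin d) K) (hρ : Function.Injective ρ) (S : Finset K)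
    (hS : ∀ (g : G) (i j : Fin d), (ρ g : Matrix (Fin d) (Fin d) K) i j ∈
      Subring.closure (S : Set K))
    (H : Subgroup G) (hH : Group.IsSolvable H) (hV : ¬ VAb H) :
    Undec G := by
  classical
  let D := 2 * (d + 1)
  let R₁ : Subalgebra ℤ K := Algebra.adjoin ℤ ((insert ((D.factorial : K)⁻¹) S : Finset K) : Set K)
  have i1 : Algebra.FiniteType ℤ R₁ := R₁.fg_iff_finiteType.1 ⟨_, rfl⟩
  have hSR : ∀ x ∈ Subring.closure (S : Set K), x ∈ R₁ := by
    intro x hx
    have h1 : Subring.closure (S : Set K) ≤ R₁.toSubring := by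
      rw [Subring.closure_le]
      intro s hs
      exact Algebra.subset_adjoin (by rw [Finset.coe_insert]; exact Or.inr hs)
    exact h1 hx
  have hcz : CharZero R₁ := charZero_of_injective_algebraMap (R := ℤ) (by
    intro a b hab
    have h1 := congrArg (Subtype.val) hab
    simpa using h1)
  let F := AlgebraicClosure K
  have hczF : CharZero F := charZero_of_injective_algebraMap (algebraMap K F).injective
  let B := Matrix (Fin d) (Fin d) F
  let B₁ := Matrix (Fin d) (Fin d) R₁
  let φ : B₁ →ₐ[R₁] B := (Algebra.ofId R₁ F).mapMatrix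
  have hφ : Function.Injective φ := by
    intro a b hab
    ext i j
    have h1 := congrFun (congrFun hab i) j
    have h2 : algebraMap K F (a i j : K) = algebraMap K F (b i j : K) := h1
    exact (algebraMap K F).injective h2
  let ψ : Matrix (Fin d) (Fin d) K →+* B := (algebraMap K F).mapMatrix
  have hψ : Function.Injective ψ := by
    intro a b hab
    ext i j
    have h1 := congrFun (congrFun hab i) j
    exact (algebraMap K F).injective h1
  let r₁ : G → B₁ := fun g => Matrix.of fun i j =>
    ⟨(ρ g : Matrix (Fin d) (Fin d) K) i j, hSR _ (hS g i j)⟩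
  have hr₁ : ∀ g, φ (r₁ g) = ψ (ρ g : Matrix (Fin d) (Fin d) K) := by
    intro g
    ext i j
    rfl
  let ρ₁ : G →* B₁ :=
    { toFun := r₁
      map_one' := by
        apply hφ
        rw [hr₁, map_one, map_one, Units.val_one, map_one]
      map_mul' := fun a b => by
        apply hφ
        rw [hr₁, map_mul, map_mul, hr₁, hr₁, Units.val_mul, map_mul] }
  let ρ' : G →* B := (φ : B₁ →* B).comp ρ₁
  have L : LinData G F B R₁ B₁ (d + 1) φ ρ₁ ρ' :=
    { hd0 := Nat.succ_pos d
      hd := fun x hx => by rw [pow_succ, matrix_nil x hx, zero_mul]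
      hden := by
        intro k hk
        have hmem : (((-1 : ℚ) ^ k / ((k : ℚ) + 1) : ℚ) : K) ∈ R₁ := by
          have h1 : (((-1 : ℚ) ^ k / ((k : ℚ) + 1) : ℚ) : K) =
              (((-1) ^ k * ((D.factorial / (k + 1) : ℕ) : ℤ) : ℤ) : K) * (D.factorial : K)⁻¹ := by
            have h2 : (k + 1) ∣ D.factorial := Nat.dvd_factorial (Nat.succ_pos k) hk
            have h3 : ((D.factorial : ℕ) : K) ≠ 0 := by exact_mod_cast Nat.factorial_ne_zero D
            have h4 : ((k : K) + 1) ≠ 0 := by exact_mod_cast Nat.succ_ne_zero k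
            obtain ⟨q, hq⟩ := h2
            rw [hq, Nat.mul_div_cancel_left _ (Nat.succ_pos k)]
            rw [hq] at h3
            push_cast at h3 ⊢
            have h5 : (q : K) ≠ 0 := right_ne_zero_of_mul h3
            field_simp
          rw [h1]
          exact R₁.mul_mem (intCast_mem R₁ _) (Algebra.subset_adjoin (by
            rw [Finset.coe_insert]; exact Or.inl rfl))
        refine ⟨⟨_, hmem⟩, fun a => ?_⟩
        rw [← algebraMap_smul F (⟨_, hmem⟩ : R₁) a]
        have h6 : algebraMap R₁ F ⟨_, hmem⟩ = (((-1 : ℚ) ^ k / ((k : ℚ) + 1) : ℚ) : F) := by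
          exact map_ratCast (algebraMap K F) ((-1 : ℚ) ^ k / ((k : ℚ) + 1))
        rw [h6, Rat.cast_smul_eq_qsmul]
      htf := by
        intro r v hr h
        ext i j
        have h1 := congrFun (congrFun h i) j
        have h2 : r * v i j = 0 := h1
        rcases mul_eq_zero.1 h2 with h3 | h3
        · exact absurd h3 hr
        · rw [h3]
          rfl
      hφ := hφ
      hρ₁ := by
        intro a b hab
        apply hρ
        apply Units.ext
        apply hψ
        rw [← hr₁, ← hr₁]
        exact congrArg φ hab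
      hρ := fun g => rfl }
  exact linMain L H hH hV

/-- The entries of a finitely generated linear group lie in a finitely generated ring. -/
theorem exists_entries (hG : Group.FG G) (ρ : G →* GL (Fin d) K) : ∃ S : Finset K,
    ∀ (g : G) (i j : Fin d), (ρ g : Matrix (Fin d) (Fin d) K) i j ∈
      Subring.closure (S : Set K) := by
  classical
  obtain ⟨T, hT⟩ := (Group.fg_def.1 hG)
  let S : Finset K := (T.biUnion fun g => Finset.univ.image fun p : Fin d × Fin d =>
      (ρ g : Matrix (Fin d) (Fin d) K) p.1 p.2) ∪
    (T.biUnion fun g => Finset.univ.image fun p : Fin d × Fin d =>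
      (ρ g⁻¹ : Matrix (Fin d) (Fin d) K) p.1 p.2)
  refine ⟨S, ?_⟩
  let P : Subgroup G :=
    { carrier := {g | ∀ i j, (ρ g : Matrix (Fin d) (Fin d) K) i j ∈ Subring.closure (S : Set K) ∧
        (ρ g⁻¹ : Matrix (Fin d) (Fin d) K) i j ∈ Subring.closure (S : Set K)}
      mul_mem' := by
        intro a b ha hb i j
        rw [mul_inv_rev, map_mul, map_mul, Units.val_mul, Units.val_mul, Matrix.mul_apply,
          Matrix.mul_apply]
        exact ⟨Subring.sum_mem _ fun k _ => Subring.mul_mem _ (ha i k).1 (hb k j).1,
          Subring.sum_mem _ fun k _ => Subring.mul_mem _ (hb i k).2 (ha k j).2⟩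
      one_mem' := by
        intro i j
        rw [inv_one, map_one, Units.val_one, Matrix.one_apply]
        split_ifs
        · exact ⟨Subring.one_mem _, Subring.one_mem _⟩
        · exact ⟨Subring.zero_mem _, Subring.zero_mem _⟩
      inv_mem' := by
        intro a ha i j
        rw [inv_inv]
        exact ⟨(ha i j).2, (ha i j).1⟩ }
  have hP : P = ⊤ := by
    rw [eq_top_iff, ← hT, closure_le]
    intro g hg i j
    refine ⟨Subring.subset_closure ?_, Subring.subset_closure ?_⟩
    · rw [Finset.mem_coe, Finset.mem_union]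
      left
      exact Finset.mem_biUnion.2 ⟨g, hg, Finset.mem_image.2 ⟨(i, j), Finset.mem_univ _, rfl⟩⟩
    · rw [Finset.mem_coe, Finset.mem_union]
      right
      exact Finset.mem_biUnion.2 ⟨g, hg, Finset.mem_image.2 ⟨(i, j), Finset.mem_univ _, rfl⟩⟩
  intro g i j
  have hg : g ∈ P := by rw [hP]; exact mem_top g
  exact (hg i j).1

end field

end Pool.Agent.Helper657_nd.Lin
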