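import Pool.Agent.Helper657_nd.LinC

set_option autoImplicit false

/-!
# Linear subgroups of arbitrary groups: definable abelian subgroups
-/

namespace Pool.Agent.Helper657_nd.Lin

open Crit Weyl Seg SegFT Solv Noeth

section partial_
variable {G F B : Type} [Group G] [Field F] [Ring B] [Algebra F B] [Algebra ℚ B]
  {L : Subgroup G} (ρ : L →* B)

open Classical in
/-- the representation extended by zero -/
noncomputable def rhoG (g : G) : B := if h : g ∈ L then ρ ⟨g, h⟩ else 0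

theorem rhoG_of {g : G} (h : g ∈ L) : rhoG ρ g = ρ ⟨g, h⟩ := dif_pos h

theorem rhoG_mul {a b : G} (ha : a ∈ L) (hb : b ∈ L) :
    rhoG ρ (a * b) = rhoG ρ a * rhoG ρ b := by
  rw [rhoG_of ρ ha, rhoG_of ρ hb, rhoG_of ρ (L.mul_mem ha hb), ← map_mul]
  rfl

theorem rhoG_one : rhoG ρ 1 = 1 := by
  rw [rhoG_of ρ L.one_mem]
  exact map_one ρ

def UnG (g : G) : Prop := g ∈ L ∧ IsNilpotent (rhoG ρ g - 1)

noncomputable def lamG (d : ℕ) (g : G) : B := logD (2 * d) (rhoG ρ g - 1)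

theorem UnG_iff {g : G} (h : g ∈ L) : UnG ρ g ↔ Un ρ ⟨g, h⟩ := by
  unfold UnG Un
  rw [and_iff_right h, rhoG_of ρ h]

theorem lamG_of (d : ℕ) {g : G} (h : g ∈ L) : lamG ρ d g = lam ρ d ⟨g, h⟩ := by
  rw [lamG, lam, rhoG_of ρ h]

theorem UnG.one : UnG ρ (1 : G) := (UnG_iff ρ L.one_mem).2 (Un.one ρ)

theorem UnG.mul {a b : G} (ha : UnG ρ a) (hb : UnG ρ b) (h : a * b = b * a) :
    UnG ρ (a * b) :=
  (UnG_iff ρ (L.mul_mem ha.1 hb.1)).2
    (Un.mul ρ ((UnG_iff ρ ha.1).1 ha) ((UnG_iff ρ hb.1).1 hb) (Subtype.ext h))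

theorem UnG.inv {a : G} (ha : UnG ρ a) : UnG ρ a⁻¹ :=
  (UnG_iff ρ (L.inv_mem ha.1)).2 (Un.inv ρ ((UnG_iff ρ ha.1).1 ha))

theorem UnG.conj {a g : G} (hg : g ∈ L) (ha : UnG ρ a) : UnG ρ (g * a * g⁻¹) :=
  (UnG_iff ρ (L.mul_mem (L.mul_mem hg ha.1) (L.inv_mem hg))).2
    (Un.conj ρ ⟨g, hg⟩ ((UnG_iff ρ ha.1).1 ha))

theorem lamG_one (d : ℕ) : lamG ρ d (1 : G) = 0 := by
  rw [lamG_of ρ d L.one_mem]
  exact lam_one ρ d

variable (F) in
open Classical in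
/-- conjugation as a linear map -/
noncomputable def TG (g : G) : B →ₗ[F] B := if h : g ∈ L then conjF F ρ ⟨g, h⟩ else 0

theorem TG_of {g : G} (h : g ∈ L) (v : B) : TG F ρ g v = rhoG ρ g * v * rhoG ρ g⁻¹ := by
  rw [TG, dif_pos h, conjF_apply, rhoG_of ρ h, rhoG_of ρ (L.inv_mem h)]
  rfl

theorem lamG_conj (d : ℕ) {g a : G} (hg : g ∈ L) (ha : a ∈ L) :
    lamG ρ d (g * a * g⁻¹) = TG F ρ g (lamG ρ d a) := by
  rw [lamG_of ρ d (L.mul_mem (L.mul_mem hg ha) (L.inv_mem hg)), lamG_of ρ d ha, TG, dif_pos hg,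
    conjF_apply, ← lam_conj]
  rfl

variable {ρ} in
theorem lamG_mul {d : ℕ} (hd : ∀ x : B, IsNilpotent x → x ^ d = 0) {a b : G} (ha : UnG ρ a)
    (hb : UnG ρ b) (h : a * b = b * a) : lamG ρ d (a * b) = lamG ρ d a + lamG ρ d b := by
  rw [lamG_of ρ d ha.1, lamG_of ρ d hb.1, lamG_of ρ d (L.mul_mem ha.1 hb.1)]
  exact lam_mul hd ((UnG_iff ρ ha.1).1 ha) ((UnG_iff ρ hb.1).1 hb) (Subtype.ext h)

theorem lamG_inv {d : ℕ} (hd : ∀ x : B, IsNilpotent x → x ^ d = 0) {a : G} (ha : UnG ρ a) :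
    lamG ρ d a⁻¹ = -lamG ρ d a := by
  rw [lamG_of ρ d ha.1, lamG_of ρ d (L.inv_mem ha.1)]
  exact lam_inv ρ hd ((UnG_iff ρ ha.1).1 ha)

variable {ρ} in
theorem lamG_inj {d : ℕ} (hd0 : 0 < d) (hρ : Function.Injective ρ) {a : G} (ha : UnG ρ a)
    (h : lamG ρ d a = 0) : a = 1 := by
  rw [lamG_of ρ d ha.1] at h
  exact congrArg Subtype.val (lam_inj hd0 hρ ((UnG_iff ρ ha.1).1 ha) h)

/-- the subgroup of the unipotent elements of an abelian subgroup -/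
def WSG (E : Subgroup G) (hc : ∀ a ∈ E, ∀ b ∈ E, a * b = b * a) : Subgroup G where
  carrier := {w | w ∈ E ∧ UnG ρ w}
  mul_mem' := by
    rintro a b ⟨ha, ha'⟩ ⟨hb, hb'⟩
    exact ⟨E.mul_mem ha hb, UnG.mul ρ ha' hb' (hc a ha b hb)⟩
  one_mem' := ⟨E.one_mem, UnG.one ρ⟩
  inv_mem' := by
    rintro a ⟨ha, ha'⟩
    exact ⟨E.inv_mem ha, UnG.inv ρ ha'⟩

end partial_

section main
variable {G F B R₁ B₁ : Type} [Group G] {L : Subgroup G} [Field F] [CharZero F] [Ring B]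
  [Algebra F B] [FiniteDimensional F B] [Algebra ℚ B] [CommRing R₁] [Algebra.FiniteType ℤ R₁]
  [Algebra R₁ F] [Algebra R₁ B] [IsScalarTower R₁ F B] [Ring B₁] [Algebra R₁ B₁]
  [Module.Finite R₁ B₁] {d : ℕ} {φ : B₁ →ₐ[R₁] B} {ρ₁ : L →* B₁} {ρ : L →* B}

omit [CharZero F] [FiniteDimensional F B] [Algebra.FiniteType ℤ R₁] [IsScalarTower R₁ F B]
  [Module.Finite R₁ B₁] in
theorem LinData.lamG_mem (LD : LinData L F B R₁ B₁ d φ ρ₁ ρ) {a : G} (ha : a ∈ L) :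
    lamG ρ d a ∈ LinearMap.range φ.toLinearMap := by
  rw [lamG_of ρ d ha]
  exact LD.lam_mem _

omit [CharZero F] [FiniteDimensional F B] [Algebra.FiniteType ℤ R₁] [IsScalarTower R₁ F B]
  [Module.Finite R₁ B₁] in
theorem LinData.lamG_pow (LD : LinData L F B R₁ B₁ d φ ρ₁ ρ) {a : G} (ha : UnG ρ a) (k : ℕ) :
    lamG ρ d (a ^ k) = k • lamG ρ d a := by
  rw [lamG_of ρ d (L.pow_mem ha.1 k), lamG_of ρ d ha.1]
  exact (LD.lam_pow ((UnG_iff ρ ha.1).1 ha) k).2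

/-- The semisimple case. -/
theorem linSSG (LD : LinData L F B R₁ B₁ d φ ρ₁ ρ) (E : Subgroup G)
    (hE : DefinableSet (E : Set G)) (hc : ∀ a ∈ E, ∀ b ∈ E, a * b = b * a) (t : G)
    (ht : t ∈ Subgroup.normalizer (E : Set G)) (hDL : ∀ d, DG E t d → d ∈ L) (j : ℕ)
    (hun : ∀ e ∈ E, UnG ρ (cmI t j e))
    (hfix : ∀ k : ℕ, 0 < k → ∀ g ∈ E, t ^ k * g * (t ^ k)⁻¹ = g → t * g * t⁻¹ = g)
    (hinj : ∀ e ∈ E, cm t (cmI t j e) = 1 → cmI t j e = 1)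
    (hne : ∃ e ∈ E, cmI t j e ≠ 1) : Undec G := by
  have hunB : ∀ b ∈ BS hc ht j, UnG ρ b := by
    rintro _ ⟨e, he, rfl⟩
    exact hun e he
  have hBE : ∀ b ∈ BS hc ht j, b ∈ E := by
    rintro _ ⟨e, he, rfl⟩
    exact cmI_mem ht j he
  refine linS (F := F) R₁ (LinearMap.range φ.toLinearMap) ?_ (BS hc ht j) ?_ (lamG ρ d) ?_ ?_ ?_
    (DG E t) (def_DG hE t) t (DG.self ht) ?_ (fun _ h => h.inv) ?_ (TG F ρ) ?_ ?_ ?_
  · rw [LinearMap.range_eq_map]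
    exact (Module.finite_def.1 inferInstance).map _
  · exact Df.definableSet (def_BG hE t j)
  · intro a ha b hb
    exact lamG_mul LD.hd (hunB a ha) (hunB b hb) (hc a (hBE a ha) b (hBE b hb))
  · intro a ha h
    exact lamG_inj LD.hd0 LD.inj (hunB a ha) h
  · intro a ha
    exact LD.lamG_mem (hunB a ha).1
  · intro a b ha hb
    refine ⟨Subgroup.mul_mem _ ha.1 hb.1, fun y hy => ?_⟩
    have h1 : Commute a y := ha.2 y hy
    have h2 : Commute b y := hb.2 y hy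
    exact (h1.mul_left h2).eq
  · intro a b ha hb
    exact ha.2 b (hb.2 t rfl)
  · rintro a ha _ ⟨e, he, rfl⟩
    refine ⟨?_, ?_⟩
    · rw [cmI_conj (ha.2 t rfl)]
      exact ⟨_, conj_mem ha.1 he, rfl⟩
    · exact lamG_conj ρ d (hDL a ha) (hun e he).1
  · rintro k hk _ ⟨e, he, rfl⟩ h
    exact hinj e he (cm_eq_one.2 (hfix k hk _ (cmI_mem ht j he) h))
  · obtain ⟨e, he, h⟩ := hne
    exact ⟨cmI t j e, ⟨e, he, rfl⟩, h⟩

/-- The unipotent case. -/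
theorem linUUG (LD : LinData L F B R₁ B₁ d φ ρ₁ ρ) (E : Subgroup G) (hEL : E ≤ L)
    (hE : DefinableSet (E : Set G)) (hc : ∀ a ∈ E, ∀ b ∈ E, a * b = b * a) (t : G)
    (ht : t ∈ Subgroup.normalizer (E : Set G)) (hUL : ∀ u, UG E t u → u ∈ L)
    (hunt : ∀ e ∈ E, UnG ρ (cm t e)) (m : ℕ) (hm : 0 < m)
    (hexp : ∀ x ∈ Subgroup.normalizer (E : Set G), x ∈ L → ∀ e ∈ E, UnG ρ (cm (x ^ m) e))
    (hne : ∃ v ∈ E, cm t v ≠ 1 ∧ cm t (cm t v) = 1) : Undec G := by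
  classical
  obtain ⟨M, iM, ι, hEmb⟩ := exists_emb (VS hc ht) (fun a ha b hb => hc a ha.1 b hb.1)
  let UU : G → Prop := fun u => ∃ a, UG E t a ∧ u = a ^ m
  have hUUdef : Def1 UU := by
    apply Df.exi (R := fun a s => UG E t a ∧ s 0 = a ^ m)
    exact ((def_UG hE t).sub (Tm.var 0)).and (Df.eq (Tm.var 1) (Tm.pow (Tm.var 0) m))
  have hUUN : ∀ u, UU u → u ∈ Subgroup.normalizer (E : Set G) := by
    rintro u ⟨a, ha, rfl⟩
    exact Subgroup.pow_mem _ ha.1 m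
  have hUUL : ∀ u, UU u → u ∈ L := by
    rintro u ⟨a, ha, rfl⟩
    exact L.pow_mem (hUL a ha) m
  have hVL : ∀ v ∈ VS hc ht, v ∈ L := fun v hv => hEL hv.1
  -- the maximal kernel
  let ker : G → Set G := fun u => {v | v ∈ VS hc ht ∧ cm u v = 1}
  let K : G → Submodule F B := fun u => Submodule.span F (rhoG ρ '' ker u)
  have hK : ∀ u ∈ L, ∀ v ∈ L, rhoG ρ v ∈ K u → cm u v = 1 := by
    intro u hu v hvL hv
    have h1 : ∀ x ∈ K u, rhoG ρ u * x = x * rhoG ρ u := by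
      intro x hx
      induction hx using Submodule.span_induction with
      | mem x hx =>
        obtain ⟨w, ⟨hwV, hw⟩, rfl⟩ := hx
        rw [← rhoG_mul ρ hu (hVL w hwV), ← rhoG_mul ρ (hVL w hwV) hu]
        congr 1
        have h2 := cm_eq_one.1 hw
        rw [mul_inv_eq_iff_eq_mul] at h2
        exact h2
      | zero => rw [mul_zero, zero_mul]
      | add x y _ _ hx hy => rw [mul_add, add_mul, hx, hy]
      | smul c x _ hx => rw [mul_smul_comm, smul_mul_assoc, hx]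
    have h2 := h1 _ hv
    rw [← rhoG_mul ρ hu hvL, ← rhoG_mul ρ hvL hu, rhoG_of ρ (L.mul_mem hu hvL),
      rhoG_of ρ (L.mul_mem hvL hu)] at h2
    have h3 : u * v = v * u := congrArg Subtype.val (LD.inj h2)
    rw [cm_eq_one, h3, mul_inv_cancel_right]
  obtain ⟨v₀, hv₀E, hv₀, hv₀'⟩ := hne
  have hv₀V : v₀ ∈ VS hc ht := ⟨hv₀E, hv₀'⟩
  have htUG : UG E t t := UG.self ht
  have hex : ∃ n : ℕ, ∃ u, (UU u ∧ ∃ v ∈ VS hc ht, cm u v ≠ 1) ∧
      Module.finrank F B - Module.finrank F (K u) = n := by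
    refine ⟨_, t ^ m, ⟨⟨t, htUG, rfl⟩, v₀, hv₀V, ?_⟩, rfl⟩
    rw [(UG_pow hc htUG m).2 v₀ hv₀V]
    intro h
    have h1 := LD.lamG_pow (hunt v₀ hv₀E) m
    rw [h, lamG_one] at h1
    exact hv₀ (lamG_inj LD.hd0 LD.inj (hunt v₀ hv₀E) (tfB m _ hm.ne' h1.symm))
  obtain ⟨u₀, ⟨hu₀, hu₀ne⟩, hu₀f⟩ := Nat.find_spec hex
  -- the family of bilinear functions
  let P1 : B₁ →ₗ[R₁] (G → B) :=
    { toFun := fun b u => rhoG ρ u * φ b * rhoG ρ u⁻¹
      map_add' := fun a b => by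
        funext u
        rw [Pi.add_apply, map_add, mul_add, add_mul]
      map_smul' := fun r a => by
        funext u
        rw [map_smul, mul_smul_comm, smul_mul_assoc]
        rfl }
  let P2 : B₁ →ₗ[R₁] (G → B) :=
    { toFun := fun b u => φ b
      map_add' := fun a b => by
        funext u
        rw [Pi.add_apply, map_add]
      map_smul' := fun r a => by
        funext u
        rw [map_smul]
        rfl }
  let P : Submodule R₁ (G → B) := LinearMap.range P1 * LinearMap.range P2 ⊔ LinearMap.range P2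
  have hfg1 : (LinearMap.range P1).FG := by
    rw [LinearMap.range_eq_map]
    exact (Module.finite_def.1 inferInstance).map _
  have hfg2 : (LinearMap.range P2).FG := by
    rw [LinearMap.range_eq_map]
    exact (Module.finite_def.1 inferInstance).map _
  have hPfg : P.FG := (hfg1.mul hfg2).sup hfg2
  let Γ : Submodule R₁ (G → B) := ⨆ k ∈ Finset.range (2 * d), P ^ (k + 1)
  have hΓ : Γ.FG := Submodule.fg_biSup _ _ fun k _ => hPfg.pow (k + 1)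
  have hden' : ∀ k < 2 * d, ∃ r : R₁, ∀ a : G → B,
      r • a = ((-1 : ℚ) ^ k / ((k : ℚ) + 1)) • a := by
    intro k hk
    obtain ⟨r, hr⟩ := LD.hden k hk
    exact ⟨r, fun a => funext fun u => hr (a u)⟩
  refine linU hEmb (Df.definableSet (def_VG hE t)) UU hUUdef R₁ (L := B) (fun n x => tfB n x)
    (WSG ρ E hc) (lamG ρ d) ?_ ?_ ?_ ?_ ?_ ?_ u₀ hu₀ hu₀ne ?_ Γ hΓ ?_
  · rintro u ⟨a, ha, rfl⟩ v hv
    exact ⟨cm_mem (Subgroup.pow_mem _ ha.1 m) hv.1, hexp a ha.1 (hUL a ha) v hv.1⟩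
  · intro a ha b hb
    exact lamG_mul LD.hd ha.2 hb.2 (hc a ha.1 b hb.1)
  · intro a ha h
    exact lamG_inj LD.hd0 LD.inj ha.2 h
  · intro u hu v hv v' hv'
    exact cm_hom hc (hUUN u hu) hv.1 hv'.1
  · rintro u u' ⟨a, ha, rfl⟩ ⟨b, hb, rfl⟩
    refine ⟨(a * b) ^ m, ⟨a * b, ha.mul hc hb, rfl⟩, fun v hv => ?_⟩
    rw [(UG_pow hc (ha.mul hc hb) m).2 v hv, (UG_pow hc ha m).2 v hv, (UG_pow hc hb m).2 v hv,
      UG.cm_mul hc ha hb hv]
    have h1 : Commute (cm a v) (cm b v) := hc _ (cm_mem ha.1 hv.1) _ (cm_mem hb.1 hv.1)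
    exact h1.mul_pow m
  · rintro u ⟨a, ha, rfl⟩
    refine ⟨(a⁻¹) ^ m, ⟨a⁻¹, ha.inv, rfl⟩, fun v hv => ?_⟩
    rw [(UG_pow hc ha.inv m).2 v hv, (UG_pow hc ha m).2 v hv, UG.cm_inv ha hv, inv_pow]
  · intro u hu hune hle v hv hcv
    have h1 : K u₀ ≤ K u := Submodule.span_mono (Set.image_mono fun w hw => ⟨hw.1, hle w hw.1 hw.2⟩)
    have h2 : Module.finrank F B - Module.finrank F (K u₀) ≤
        Module.finrank F B - Module.finrank F (K u) := by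
      rw [hu₀f]
      exact Nat.find_min' hex ⟨u, ⟨hu, hune⟩, rfl⟩
    have h3 := Submodule.finrank_le (K u)
    have h4 := Submodule.finrank_le (K u₀)
    have h5 : K u₀ = K u := Submodule.eq_of_le_of_finrank_le h1 (by omega)
    apply hK _ (hUUL u₀ hu₀) _ (hVL v hv)
    rw [h5]
    exact Submodule.subset_span ⟨v, ⟨hv, hcv⟩, rfl⟩
  · intro v hv
    have hvL := hVL v hv
    let h : G → B := P1 (ρ₁ ⟨v, hvL⟩) * P2 (ρ₁ ⟨v, hvL⟩⁻¹) - P2 1
    have hh : ∀ u ∈ L, h u = rhoG ρ (cm u v) - 1 := by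
      intro u hu
      show rhoG ρ u * φ (ρ₁ ⟨v, hvL⟩) * rhoG ρ u⁻¹ * φ (ρ₁ ⟨v, hvL⟩⁻¹) - φ 1 = _
      have e1 : φ (ρ₁ ⟨v, hvL⟩) = rhoG ρ v := by rw [rhoG_of ρ hvL, LD.hρ]
      have e2 : φ (ρ₁ ⟨v, hvL⟩⁻¹) = rhoG ρ v⁻¹ := by
        rw [rhoG_of ρ (L.inv_mem hvL), LD.hρ]
        rfl
      have e3 : cm u v = u * v * u⁻¹ * v⁻¹ := rfl
      rw [map_one, e1, e2, e3, ← rhoG_mul ρ hu hvL, ← rhoG_mul ρ (L.mul_mem hu hvL) (L.inv_mem hu),
        ← rhoG_mul ρ (L.mul_mem (L.mul_mem hu hvL) (L.inv_mem hu)) (L.inv_mem hvL)]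
    have hhP : h ∈ P := by
      apply Submodule.sub_mem
      · exact Submodule.mem_sup_left (Submodule.mul_mem_mul ⟨_, rfl⟩ ⟨_, rfl⟩)
      · exact Submodule.mem_sup_right ⟨_, rfl⟩
    refine ⟨logD (2 * d) h, logD_mem (2 * d) hden' P h hhP, fun u hu => ?_⟩
    have h1 := logD_map (Pi.evalRingHom (fun _ : G => B) u) (2 * d) h
    rw [lamG, ← hh u (hUUL u hu)]
    exact h1

end main

end Pool.Agent.Helper657_nd.Lin
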