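import Pool.Agent.Helper657_nd.LinE

set_option autoImplicit false

/-!
# Linear subgroups of arbitrary groups: main theorem
-/

namespace Pool.Agent.Helper657_nd.Lin

open Crit Weyl Seg SegFT Solv Noeth

section cong
variable {G R₁ B₁ : Type} [Group G] [CommRing R₁] [Ring B₁] [Algebra R₁ B₁]

theorem CG.torsion [IsDomain R₁] [IsNoetherianRing R₁] [Module.Finite R₁ B₁]
    (htf : ∀ (r : R₁) (v : B₁), r ≠ 0 → r • v = 0 → v = 0) (m₁ m₂ : Ideal R₁)
    (hm₁ : m₁.IsMaximal) (hm₂ : m₂.IsMaximal)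
    (hmm : ∀ p : ℕ, p.Prime → ((p : ℕ) : R₁) ∉ m₁ ∨ ((p : ℕ) : R₁) ∉ m₂) (ρ₁ : G →* B₁)
    (hρ₁ : Function.Injective ρ₁) {x : G} (h₁ : x ∈ CG ρ₁ m₁) (h₂ : x ∈ CG ρ₁ m₂)
    (hx : IsOfFinOrder x) : x = 1 := by
  obtain ⟨k, hk, h⟩ := isOfFinOrder_iff_pow_eq_one.1 hx
  let T : Module.End R₁ B₁ := LinearMap.mulLeft R₁ (ρ₁ x)
  have hTk : ∀ (i : ℕ) (v : B₁), (T ^ i) v = ρ₁ (x ^ i) * v := by
    intro i
    induction i with
    | zero => intro v; simp
    | succ i ih =>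
      intro v
      rw [pow_succ']
      show T ((T ^ i) v) = _
      rw [ih, pow_succ', map_mul ρ₁, mul_assoc]
      rfl
  have hT : ∀ m : Ideal R₁, x ∈ CG ρ₁ m → ∀ v, T v - v ∈ (m • ⊤ : Submodule R₁ B₁) := by
    intro m hm v
    have h1 : ρ₁ x - 1 ∈ (m • ⊤ : Submodule R₁ B₁) := hm
    have h2 : T v - v = (ρ₁ x - 1) * v := by
      show ρ₁ x * v - v = _
      rw [sub_mul, one_mul]
    rw [h2]
    exact mulR _ h1
  have h3 := fix_of_pow' htf m₁ m₂ hm₁ hm₂ hmm k hk T (hT m₁ h₁) (hT m₂ h₂) 1 (by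
    rw [hTk, h, map_one, one_mul])
  apply hρ₁
  rw [map_one]
  have h4 : ρ₁ x * 1 = 1 := h3
  rwa [mul_one] at h4

end cong

section main
variable {G F B R₁ B₁ : Type} [Group G] {L : Subgroup G} [Field F] [CharZero F]
  [IsAlgClosed F] [Ring B]
  [Algebra F B] [FiniteDimensional F B] [Algebra ℚ B] [CommRing R₁] [IsDomain R₁] [CharZero R₁]
  [Algebra.FiniteType ℤ R₁]
  [Algebra R₁ F] [Algebra R₁ B] [IsScalarTower R₁ F B] [Ring B₁] [Algebra R₁ B₁]
  [Module.Finite R₁ B₁] {d : ℕ} {φ : B₁ →ₐ[R₁] B} {ρ₁ : L →* B₁} {ρ : L →* B}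

omit [IsAlgClosed F] in
/-- a torsion-free subgroup of finite index without periodic commutation -/
theorem exists_gamma (LD : LinData L F B R₁ B₁ d φ ρ₁ ρ) : ∃ Γ₀ : Subgroup L,
    Finite (L ⧸ Γ₀) ∧ (∀ x ∈ Γ₀, IsOfFinOrder x → x = 1) ∧
    ∀ y ∈ Γ₀, ∀ k : ℕ, 0 < k → ∀ g : L, y ^ k * g * (y ^ k)⁻¹ = g → y * g * y⁻¹ = g := by
  have hN : IsNoetherianRing R₁ := Algebra.FiniteType.isNoetherianRing ℤ R₁
  obtain ⟨m₁, m₂, hm₁, hm₂, hmm⟩ := exists_two_maximal R₁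
  refine ⟨CG ρ₁ m₁ ⊓ CG ρ₁ m₂, ?_, fun x hx h => CG.torsion LD.htf m₁ m₂ hm₁ hm₂ hmm ρ₁
    LD.hρ₁ hx.1 hx.2 h, fun y hy k hk g h => CG.fix LD.htf m₁ m₂ hm₁ hm₂ hmm ρ₁ LD.hρ₁
    hy.1 hy.2 k hk g h⟩
  have h1 : (CG ρ₁ m₁ ⊓ CG ρ₁ m₂).relIndex (⊤ : Subgroup L) ≠ 0 :=
    Subgroup.relIndex_inf_ne_zero (CG.index ρ₁ hm₁ _) (CG.index ρ₁ hm₂ _)
  rw [Subgroup.relIndex_top_right] at h1
  have : (CG ρ₁ m₁ ⊓ CG ρ₁ m₂).FiniteIndex := ⟨h1⟩
  infer_instance

/-- Definable abelian subgroups with infinite Weyl group. -/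
theorem linEG (LD : LinData L F B R₁ B₁ d φ ρ₁ ρ) (H A : Subgroup G) (hHL : H ≤ L) (hAH : A ≤ H)
    (hcent : ∀ a ∈ H, ¬ IsOfFinOrder a → ∀ x : G, x * a = a * x → x ∈ L)
    (E : Subgroup G) (hEL : E ≤ L) (hE : DefinableSet (E : Set G))
    (hc : ∀ a ∈ E, ∀ b ∈ E, a * b = b * a) (hAE : A ≤ E)
    (hNE : Subgroup.normalizer (A : Set G) ≤ Subgroup.normalizer (E : Set G))
    (hidx : (Subgroup.centralizer (A : Set G)).relIndex
      (Subgroup.normalizer (A : Set G) ⊓ H) = 0) :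
    Undec G := by
  classical
  obtain ⟨Γ₀, hΓfin, hΓtor, hΓfix⟩ := exists_gamma LD
  obtain ⟨x, hxH, hxΓ, hxA, hxC⟩ : ∃ (x : G) (hx : x ∈ H), (⟨x, hHL hx⟩ : L) ∈ Γ₀ ∧
      x ∈ Subgroup.normalizer (A : Set G) ∧ x ∉ Subgroup.centralizer (A : Set G) := by
    by_contra hcon
    push Not at hcon
    refine relIndex_of_map (L := L) (X := L ⧸ Γ₀) (K := Subgroup.normalizer (A : Set G) ⊓ H)
      (H := Subgroup.centralizer (A : Set G))
      (fun x => ((⟨x, hHL x.2.2⟩ : L) : L ⧸ Γ₀)) ?_ hidx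
    intro x y hxy
    rw [QuotientGroup.eq] at hxy
    exact hcon ((x : G)⁻¹ * y) (H.mul_mem (H.inv_mem x.2.2) y.2.2) hxy
      (Subgroup.mul_mem _ (Subgroup.inv_mem _ x.2.1) y.2.1)
  have hxL : x ∈ L := hHL hxH
  have hxN : x ∈ Subgroup.normalizer (E : Set G) := hNE hxA
  obtain ⟨m, hm, hexp0⟩ := exists_exponent F ρ (E.subgroupOf L) (fun a ha b hb =>
    Subtype.ext (hc a ha b hb))
  have hexp : ∀ x ∈ Subgroup.normalizer (E : Set G), x ∈ L → ∀ e ∈ E,
      UnG ρ (cm (x ^ m) e) := by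
    intro x hx hxL e he
    have h1 : (⟨x, hxL⟩ : L) ∈ Subgroup.normalizer (E.subgroupOf L : Set L) := by
      rw [Subgroup.mem_normalizer_iff]
      intro g
      exact Subgroup.mem_normalizer_iff.1 hx (g : G)
    have h2 := hexp0 _ h1 (⟨e, hEL he⟩ : L) he
    have h3 : cm (x ^ m) e ∈ L := hEL (cm_mem (Subgroup.pow_mem _ hx m) he)
    rw [UnG_iff ρ h3]
    exact h2
  have hfix : ∀ (y : G) (hy : y ∈ L), (⟨y, hy⟩ : L) ∈ Γ₀ → ∀ k : ℕ, 0 < k → ∀ g ∈ E,
      y ^ k * g * (y ^ k)⁻¹ = g → y * g * y⁻¹ = g := by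
    intro y hy hyΓ k hk g hg h
    exact congrArg Subtype.val (hΓfix ⟨y, hy⟩ hyΓ k hk ⟨g, hEL hg⟩ (Subtype.ext h))
  obtain ⟨t, htN, htA, htH, htL, htΓ, htC, hunt⟩ : ∃ t, t ∈ Subgroup.normalizer (E : Set G) ∧
      t ∈ Subgroup.normalizer (A : Set G) ∧ t ∈ H ∧
      ∃ ht : t ∈ L, (⟨t, ht⟩ : L) ∈ Γ₀ ∧ (∃ e ∈ A, cm t e ≠ 1) ∧ ∀ e ∈ E, UnG ρ (cm t e) := by
    refine ⟨x ^ m, Subgroup.pow_mem _ hxN m, Subgroup.pow_mem _ hxA m, H.pow_mem hxH m,
      L.pow_mem hxL m, ?_, ?_, hexp x hxN hxL⟩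
    · exact Γ₀.pow_mem hxΓ m
    by_contra hcon
    push Not at hcon
    apply hxC
    rw [Subgroup.mem_centralizer_iff]
    intro e he
    have h1 := hfix x hxL hxΓ m hm e (hAE he) (cm_eq_one.1 (hcon e he))
    rw [mul_inv_eq_iff_eq_mul] at h1
    exact h1.symm
  have htinf : ¬ IsOfFinOrder t := by
    intro h
    have h1 : IsOfFinOrder (⟨t, htL⟩ : L) := by
      rw [isOfFinOrder_iff_pow_eq_one] at h ⊢
      obtain ⟨k, hk, hk'⟩ := h
      exact ⟨k, hk, Subtype.ext hk'⟩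
    have h2 := congrArg Subtype.val (hΓtor _ htΓ h1)
    obtain ⟨e, _, he⟩ := htC
    apply he
    have h3 : t = 1 := h2
    rw [h3]
    simp [cm]
  have hDL : ∀ d, DG E t d → d ∈ L := fun d hd => hcent t htH htinf d (hd.2 t rfl)
  have hun : ∀ j, ∀ e ∈ E, UnG ρ (cmI t (j + 1) e) := fun j e he => hunt _ (cmI_mem htN j he)
  -- the additive map
  let T1 : B →ₗ[F] B := TG F ρ t - LinearMap.id
  have hT1 : ∀ b ∈ E, UnG ρ b → lamG ρ d (cm t b) = T1 (lamG ρ d b) := by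
    intro b hb hub
    have h1 : cm t b = (t * b * t⁻¹) * b⁻¹ := rfl
    rw [h1, lamG_mul LD.hd (UnG.conj ρ htL hub) (UnG.inv ρ hub)
      (hc _ (conj_mem htN hb) _ (E.inv_mem hb)), lamG_conj (F := F) ρ d htL hub.1,
      lamG_inv ρ LD.hd hub]
    show _ = TG F ρ t (lamG ρ d b) - lamG ρ d b
    rw [sub_eq_add_neg]
  let V : ℕ → Submodule F B := fun j =>
    Submodule.span F (lamG ρ d '' (BS hc htN (j + 1) : Set G))
  have hex : ∃ n : ℕ, ∃ j, Module.finrank F (V j) = n := ⟨_, 0, rfl⟩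
  obtain ⟨j, hj⟩ := Nat.find_spec hex
  have hVle : V (j + 1) ≤ V j := by
    refine Submodule.span_mono (Set.image_mono ?_)
    rintro _ ⟨e, he, rfl⟩
    exact ⟨cm t e, cm_mem htN he, (cmI_comm t (j + 1) e).symm⟩
  have hVeq : V (j + 1) = V j := by
    refine Submodule.eq_of_le_of_finrank_le hVle ?_
    rw [hj]
    exact Nat.find_min' hex ⟨j + 1, rfl⟩
  have hVmap : V j ≤ Submodule.map T1 (V j) := by
    rw [← hVeq]
    conv_rhs => rw [hVeq]
    rw [Submodule.span_le]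
    rintro _ ⟨_, ⟨e, he, rfl⟩, rfl⟩
    refine ⟨lamG ρ d (cmI t (j + 1) e), Submodule.subset_span ⟨_, ⟨e, he, rfl⟩, rfl⟩, ?_⟩
    exact (hT1 _ (cmI_mem htN (j + 1) he) (hun j e he)).symm
  have hinj : ∀ v ∈ V j, T1 v = 0 → v = 0 := by
    let T2 : V j →ₗ[F] B := T1.domRestrict (V j)
    have h1 := LinearMap.finrank_range_add_finrank_ker T2
    have h2 : LinearMap.range T2 = Submodule.map T1 (V j) := LinearMap.range_domRestrict _ _
    have h3 := Submodule.finrank_mono hVmap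
    rw [h2] at h1
    have h4 : Module.finrank F (LinearMap.ker T2) = 0 := by omega
    have h5 : LinearMap.ker T2 = ⊥ := Submodule.finrank_eq_zero.1 h4
    intro v hv hTv
    have h6 : (⟨v, hv⟩ : V j) ∈ LinearMap.ker T2 := hTv
    rw [h5, Submodule.mem_bot] at h6
    exact congrArg Subtype.val h6
  by_cases hall : ∀ e ∈ E, cmI t (j + 1) e = 1
  · -- unipotent case
    have hex2 : ∃ i : ℕ, ∀ e ∈ A, cmI t i e = 1 := ⟨j + 1, fun e he => hall e (hAE he)⟩
    have hi := Nat.find_spec hex2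
    have hmin : ∀ i < Nat.find hex2, ∃ e ∈ A, cmI t i e ≠ 1 := by
      intro i hi'
      have := Nat.find_min hex2 hi'
      push Not at this
      exact this
    generalize Nat.find hex2 = i at hi hmin
    obtain ⟨e₀, he₀, he₀'⟩ := htC
    match i, hi, hmin with
    | 0, hi, _ =>
      exfalso
      have h1 : e₀ = 1 := hi e₀ he₀
      apply he₀'
      rw [h1]
      simp [cm]
    | 1, hi, _ => exact absurd (hi e₀ he₀) he₀'
    | i + 2, hi, hmin =>
      obtain ⟨e, he, hne⟩ := hmin (i + 1) (by omega)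
      have hvE : cmI t i e ∈ E := cmI_mem htN i (hAE he)
      have hw1 : cm t (cmI t i e) ≠ 1 := hne
      have hw2 : cm t (cm t (cmI t i e)) = 1 := hi e he
      have hwU : UnG ρ (cm t (cmI t i e)) := hunt _ hvE
      have hwinf : ¬ IsOfFinOrder (cm t (cmI t i e)) := by
        intro h
        obtain ⟨k, hk, hk'⟩ := isOfFinOrder_iff_pow_eq_one.1 h
        have h1 := LD.lamG_pow hwU k
        rw [hk', lamG_one] at h1
        exact hw1 (lamG_inj LD.hd0 LD.inj hwU (tfB k _ hk.ne' h1.symm))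
      have hUL : ∀ u, UG E t u → u ∈ L := by
        intro u hu
        have h1 := hu.2.1 _ ⟨cm_mem htN hvE, hw2⟩
        refine hcent _ (hAH (cm_mem htA (cmI_mem htA i he))) hwinf u ?_
        have h2 := cm_eq_one.1 h1
        rw [mul_inv_eq_iff_eq_mul] at h2
        exact h2
      exact linUUG LD E hEL hE hc t htN hUL hunt m hm hexp ⟨cmI t i e, hvE, hw1, hw2⟩
  · push Not at hall
    refine linSSG LD E hE hc t htN hDL (j + 1) (hun j) (hfix t htL htΓ) ?_ hall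
    intro e he h
    have h1 := hT1 _ (cmI_mem htN (j + 1) he) (hun j e he)
    rw [h, lamG_one] at h1
    exact lamG_inj LD.hd0 LD.inj (hun j e he)
      (hinj _ (Submodule.subset_span ⟨_, ⟨e, he, rfl⟩, rfl⟩) h1.symm)

omit [CharZero F] [IsAlgClosed F] [IsDomain R₁] [CharZero R₁] [Algebra.FiniteType ℤ R₁]
  [IsScalarTower R₁ F B] [Module.Finite R₁ B₁] in
theorem centralizer_defG (LD : LinData L F B R₁ B₁ d φ ρ₁ ρ)
    (A : Subgroup G) (hAL : A ≤ L) (a : G) (ha : a ∈ A)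
    (hcent : ∀ x : G, x * a = a * x → x ∈ L) :
    DefinableSet (Subgroup.centralizer (A : Set G) : Set G) := by
  classical
  have h1 : (Submodule.span F (rhoG ρ '' (A : Set G))).FG := IsNoetherian.noetherian _
  rw [Submodule.fg_span_iff_fg_span_finset_subset] at h1
  obtain ⟨T, hT, hTs⟩ := h1
  obtain ⟨S, hSA, rfl⟩ := (Finset.subset_set_image_iff).1 hT
  have h2 : Subgroup.centralizer ((Subgroup.closure ((insert a S : Finset G) : Set G) :
      Subgroup G) : Set G) = Subgroup.centralizer (A : Set G) := by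
    apply le_antisymm
    · intro x hx
      have hx' : ∀ s ∈ insert a S, s * x = x * s := fun s hs =>
        Subgroup.mem_centralizer_iff.1 hx s (Subgroup.subset_closure hs)
      have hxL : x ∈ L := hcent x (hx' a (Finset.mem_insert_self a S)).symm
      rw [Subgroup.mem_centralizer_iff]
      intro b hb
      have h3 : ∀ y ∈ Submodule.span F (rhoG ρ '' (A : Set G)),
          y * rhoG ρ x = rhoG ρ x * y := by
        intro y hy
        rw [hTs] at hy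
        induction hy using Submodule.span_induction with
        | mem y hy =>
          rw [Finset.coe_image] at hy
          obtain ⟨s, hs, rfl⟩ := hy
          have hsL : s ∈ L := hAL (hSA hs)
          rw [← rhoG_mul ρ hsL hxL, ← rhoG_mul ρ hxL hsL,
            hx' s (Finset.mem_insert_of_mem hs)]
        | zero => rw [mul_zero, zero_mul]
        | add u v _ _ hu hv => rw [mul_add, add_mul, hu, hv]
        | smul c u _ hu => rw [mul_smul_comm, smul_mul_assoc, hu]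
      have hbL : b ∈ L := hAL hb
      have h4 := h3 _ (Submodule.subset_span ⟨b, hb, rfl⟩)
      rw [← rhoG_mul ρ hbL hxL, ← rhoG_mul ρ hxL hbL, rhoG_of ρ (L.mul_mem hbL hxL),
        rhoG_of ρ (L.mul_mem hxL hbL)] at h4
      exact congrArg Subtype.val (LD.inj h4)
    · apply Subgroup.centralizer_le
      rw [SetLike.coe_subset_coe, Subgroup.closure_le]
      intro s hs
      rw [Finset.coe_insert] at hs
      rcases hs with rfl | hs
      · exact ha
      · exact hSA hs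
  rw [← h2]
  exact centralizer_def ⟨insert a S, rfl⟩

omit [IsAlgClosed F] in
theorem exists_inf (LD : LinData L F B R₁ B₁ d φ ρ₁ ρ) (A H : Subgroup G) (hAL : A ≤ L)
    (hidx : (Subgroup.centralizer (A : Set G)).relIndex
      (Subgroup.normalizer (A : Set G) ⊓ H) = 0) : ∃ a ∈ A, ¬ IsOfFinOrder a := by
  obtain ⟨Γ₀, hΓfin, hΓtor, -⟩ := exists_gamma LD
  by_contra hcon
  push Not at hcon
  have hfinA : Finite A := by
    refine Finite.of_injective (fun a : A => ((⟨a, hAL a.2⟩ : L) : L ⧸ Γ₀)) ?_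
    intro a b hab
    have h1 := QuotientGroup.eq.1 hab
    have h2 : IsOfFinOrder ((⟨a, hAL a.2⟩ : L)⁻¹ * (⟨b, hAL b.2⟩ : L)) := by
      obtain ⟨k, hk, h⟩ := isOfFinOrder_iff_pow_eq_one.1
        (hcon ((a : G)⁻¹ * b) (A.mul_mem (A.inv_mem a.2) b.2))
      exact isOfFinOrder_iff_pow_eq_one.2 ⟨k, hk, Subtype.ext h⟩
    have h3 := congrArg Subtype.val (hΓtor _ h1 h2)
    have h4 : (a : G)⁻¹ * b = 1 := h3
    exact Subtype.ext (inv_mul_eq_one.1 h4)
  refine relIndex_of_map (L := A) (X := A → A) (K := Subgroup.normalizer (A : Set G) ⊓ H)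
    (H := Subgroup.centralizer (A : Set G))
    (fun x a => ⟨(x : G) * a * (x : G)⁻¹, (Subgroup.mem_normalizer_iff.1 x.2.1 a).1 a.2⟩) ?_ hidx
  intro x y hxy
  rw [Subgroup.mem_centralizer_iff]
  intro a ha
  have h1 := congrArg Subtype.val (congrFun hxy ⟨a, ha⟩)
  have h2 : (x : G) * a * (x : G)⁻¹ = (y : G) * a * (y : G)⁻¹ := h1
  have h3 : a = ((x : G)⁻¹ * y) * a * ((x : G)⁻¹ * y)⁻¹ := by
    calc a = (x : G)⁻¹ * ((x : G) * a * (x : G)⁻¹) * x := by group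
      _ = (x : G)⁻¹ * ((y : G) * a * (y : G)⁻¹) * x := by rw [h2]
      _ = _ := by group
  rw [eq_mul_inv_iff_mul_eq] at h3
  exact h3

theorem linMainG (LD : LinData L F B R₁ B₁ d φ ρ₁ ρ) (H : Subgroup G) (hHL : H ≤ L)
    (hcent : ∀ a ∈ H, ¬ IsOfFinOrder a → ∀ x : G, x * a = a * x → x ∈ L)
    (hH : Group.IsSolvable H) (hV : ¬ VAb H) : Undec G := by
  by_contra hcon
  refine hV (vab_of_solvable2 H (fun A hAH hA h0 => hcon ?_) hH)
  have hAL : A ≤ L := hAH.trans hHL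
  obtain ⟨a, ha, hainf⟩ := exists_inf LD A H hAL h0
  have hCa : ∀ x : G, x * a = a * x → x ∈ L := hcent a (hAH ha) hainf
  have hCL : Subgroup.centralizer (A : Set G) ≤ L := by
    intro x hx
    exact hCa x (Subgroup.mem_centralizer_iff.1 hx a ha).symm
  have hEL : cc A ≤ L := inf_le_left.trans hCL
  exact linEG LD H A hHL hAH hcent (cc A) hEL (cc_def (centralizer_defG LD A hAL a ha hCa))
    (isAb_cc A) (le_cc hA) (normalizer_le_cc A) h0

end main

end Pool.Agent.Helper657_nd.Lin
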