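import Pool.Agent.Helper657_nd.LinD
import Pool.Agent.Helper657_nd.LinF

set_option autoImplicit false

/-!
# Linear subgroups of characteristic zero of arbitrary groups
-/

namespace Pool.Agent.Helper657_nd.Lin

open Crit Weyl Seg SegFT Solv Noeth Subgroup

section field
variable {G K : Type} [Group G] [Field K] [CharZero K] {d : ℕ}

theorem linearG {L : Subgroup G} (ρ : L →* GL (Fin d) K) (hρ : Function.Injective ρ)
    (S : Finset K) (hS : ∀ (g : L) (i j : Fin d), (ρ g : Matrix (Fin d) (Fin d) K) i j ∈
      Subring.closure (S : Set K))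
    (H : Subgroup G) (hHL : H ≤ L)
    (hcent : ∀ a ∈ H, ¬ IsOfFinOrder a → ∀ x : G, x * a = a * x → x ∈ L)
    (hH : Group.IsSolvable H) (hV : ¬ VAb H) :
    Undec G := by
  classical
  let D := 2 * (d + 1)
  let R₁ : Subalgebra ℤ K := Algebra.adjoin ℤ ((insert ((D.factorial : K)⁻¹) S : Finset K) : Set K)
  have i1 : Algebra.FiniteType ℤ R₁ := R₁.fg_iff_finiteType.1 ⟨_, rfl⟩
  have hSR : ∀ x ∈ Subring.closure (S : Set K), x ∈ R₁ := by
    intro x hx
    have h1 : Subring.closure (S : Set K) ≤ R₁.toSubring := by
      rw [Subring.closure_le]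
      intro s hs
      exact Algebra.subset_adjoin (by rw [Finset.coe_insert]; exact Or.inr hs)
    exact h1 hx
  have hcz : CharZero R₁ := charZero_of_injective_algebraMap (R := ℤ) (by
    intro a b hab
    have h1 := congrArg (Subtype.val) hab
    simpa using h1)
  let F := AlgebraicClosure K
  have hczF : CharZero F := charZero_of_injective_algebraMap (algebraMap K F).injective
  let B := Matrix (Fin d) (Fin d) F
  let B₁ := Matrix (Fin d) (Fin d) R₁
  let φ : B₁ →ₐ[R₁] B := (Algebra.ofId R₁ F).mapMatrix
  have hφ : Function.Injective φ := by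
    intro a b hab
    ext i j
    have h1 := congrFun (congrFun hab i) j
    have h2 : algebraMap K F (a i j : K) = algebraMap K F (b i j : K) := h1
    exact (algebraMap K F).injective h2
  let ψ : Matrix (Fin d) (Fin d) K →+* B := (algebraMap K F).mapMatrix
  have hψ : Function.Injective ψ := by
    intro a b hab
    ext i j
    have h1 := congrFun (congrFun hab i) j
    exact (algebraMap K F).injective h1
  let r₁ : L → B₁ := fun g => Matrix.of fun i j =>
    ⟨(ρ g : Matrix (Fin d) (Fin d) K) i j, hSR _ (hS g i j)⟩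
  have hr₁ : ∀ g, φ (r₁ g) = ψ (ρ g : Matrix (Fin d) (Fin d) K) := by
    intro g
    ext i j
    rfl
  let ρ₁ : L →* B₁ :=
    { toFun := r₁
      map_one' := by
        apply hφ
        rw [hr₁, map_one, map_one, Units.val_one, map_one]
      map_mul' := fun a b => by
        apply hφ
        rw [hr₁, map_mul, map_mul, hr₁, hr₁, Units.val_mul, map_mul] }
  let ρ' : L →* B := (φ : B₁ →* B).comp ρ₁
  have LD : LinData L F B R₁ B₁ (d + 1) φ ρ₁ ρ' :=
    { hd0 := Nat.succ_pos d
      hd := fun x hx => by rw [pow_succ, matrix_nil x hx, zero_mul]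
      hden := by
        intro k hk
        have hmem : (((-1 : ℚ) ^ k / ((k : ℚ) + 1) : ℚ) : K) ∈ R₁ := by
          have h1 : (((-1 : ℚ) ^ k / ((k : ℚ) + 1) : ℚ) : K) =
              (((-1) ^ k * ((D.factorial / (k + 1) : ℕ) : ℤ) : ℤ) : K) * (D.factorial : K)⁻¹ := by
            have h2 : (k + 1) ∣ D.factorial := Nat.dvd_factorial (Nat.succ_pos k) hk
            have h3 : ((D.factorial : ℕ) : K) ≠ 0 := by exact_mod_cast Nat.factorial_ne_zero D
            have h4 : ((k : K) + 1) ≠ 0 := by exact_mod_cast Nat.succ_ne_zero k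
            obtain ⟨q, hq⟩ := h2
            rw [hq, Nat.mul_div_cancel_left _ (Nat.succ_pos k)]
            rw [hq] at h3
            push_cast at h3 ⊢
            have h5 : (q : K) ≠ 0 := right_ne_zero_of_mul h3
            field_simp
          rw [h1]
          exact R₁.mul_mem (intCast_mem R₁ _) (Algebra.subset_adjoin (by
            rw [Finset.coe_insert]; exact Or.inl rfl))
        refine ⟨⟨_, hmem⟩, fun a => ?_⟩
        rw [← algebraMap_smul F (⟨_, hmem⟩ : R₁) a]
        have h6 : algebraMap R₁ F ⟨_, hmem⟩ = (((-1 : ℚ) ^ k / ((k : ℚ) + 1) : ℚ) : F) := by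
          exact map_ratCast (algebraMap K F) ((-1 : ℚ) ^ k / ((k : ℚ) + 1))
        rw [h6, Rat.cast_smul_eq_qsmul]
      htf := by
        intro r v hr h
        ext i j
        have h1 := congrFun (congrFun h i) j
        have h2 : r * v i j = 0 := h1
        rcases mul_eq_zero.1 h2 with h3 | h3
        · exact absurd h3 hr
        · rw [h3]
          rfl
      hφ := hφ
      hρ₁ := by
        intro a b hab
        apply hρ
        apply Units.ext
        apply hψ
        rw [← hr₁, ← hr₁]
        exact congrArg φ hab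
      hρ := fun g => rfl }
  exact linMainG LD H hHL hcent hH hV

end field

end Pool.Agent.Helper657_nd.Lin
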