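import Mathlib

set_option autoImplicit false

/-!
# The logarithm of unipotent elements
-/

namespace Pool.Agent.Helper657_nd.Lin

open Polynomial

section def_
variable {A : Type} [Ring A] [Algebra ℚ A]

/-- the truncated logarithm of `1 + n` -/
noncomputable def logD (D : ℕ) (n : A) : A :=
  ∑ k ∈ Finset.range D, ((-1 : ℚ) ^ k / ((k : ℚ) + 1)) • n ^ (k + 1)

theorem logD_map {B : Type} [Ring B] [Algebra ℚ B] (f : A →+* B) (D : ℕ) (n : A) :
    f (logD D n) = logD D (f n) := by
  have hf : ∀ (q : ℚ) (a : A), f (q • a) = q • f a := fun q a =>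
    map_rat_smul f q a
  simp only [logD, map_sum, hf, map_pow]

theorem logD_zero (D : ℕ) : logD D (0 : A) = 0 := by
  simp [logD]

end def_

section comm
variable {C : Type} [CommRing C] [Algebra ℚ C]

theorem eq_const_of_derivative (f : C[X]) (h : derivative f = 0) : f = Polynomial.C (f.coeff 0) := by
  ext n
  cases n with
  | zero => simp
  | succ n =>
    rw [coeff_C_succ]
    have h1 : (derivative f).coeff n = 0 := by rw [h, coeff_zero]
    rw [coeff_derivative] at h1
    have h2 : IsUnit ((n : C) + 1) := by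
      have h3 : ((n : C) + 1) = algebraMap ℚ C ((n : ℚ) + 1) := by simp
      rw [h3]
      exact (isUnit_iff_ne_zero.2 (by positivity)).map _
    exact (h2.mul_left_eq_zero).1 h1

theorem logD_add (n m : C) (d D : ℕ) (hn : n ^ d = 0) (hm : m ^ d = 0) (hD : 2 * d ≤ D) :
    logD D (n + m + n * m) = logD D n + logD D m := by
  let w : C[X] := Polynomial.C m + Polynomial.C (n * (1 + m)) * X
  let y : C[X] := Polynomial.C n * X
  have hy : y ^ D = 0 := by
    have h1 : y ^ d = 0 := by
      show (Polynomial.C n * X) ^ d = 0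
      rw [mul_pow, ← C_pow, hn, C_0, zero_mul]
    obtain ⟨k, hk⟩ := Nat.exists_eq_add_of_le (show d ≤ D by omega)
    rw [hk, pow_add, h1, zero_mul]
  have hw : w ^ D = 0 := by
    have h1 : (Polynomial.C m : C[X]) ^ d = 0 := by rw [← C_pow, hm, C_0]
    have h2 : (Polynomial.C (n * (1 + m)) * X : C[X]) ^ d = 0 := by
      rw [mul_pow, ← C_pow, mul_pow, hn, zero_mul, C_0, zero_mul]
    have h3 := (Commute.all (Polynomial.C m : C[X]) (Polynomial.C (n * (1 + m)) * X)).add_pow_add_eq_zero_of_pow_eq_zero h1 h2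
    obtain ⟨k, hk⟩ := Nat.exists_eq_add_of_le (show d + d - 1 ≤ D by omega)
    rw [hk, pow_add]
    show (Polynomial.C m + Polynomial.C (n * (1 + m)) * X) ^ (d + d - 1) * _ = 0
    rw [h3, zero_mul]
  let S : C[X] → C[X] := fun z => ∑ k ∈ Finset.range D, (-z) ^ k
  have hS : ∀ z : C[X], z ^ D = 0 → (1 + z) * S z = 1 := by
    intro z hz
    have h1 := mul_neg_geom_sum (-z) D
    rw [sub_neg_eq_add, neg_pow, hz, mul_zero, sub_zero] at h1
    exact h1
  have hder : ∀ z : C[X], derivative (logD D z) = derivative z * S z := by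
    intro z
    simp only [logD, derivative_sum, S, Finset.mul_sum]
    refine Finset.sum_congr rfl fun k _ => ?_
    rw [derivative_smul, derivative_pow, Nat.add_sub_cancel, neg_pow z k]
    have h1 : ((-1 : ℚ) ^ k / ((k : ℚ) + 1)) • (Polynomial.C ((k + 1 : ℕ) : C) * z ^ k * derivative z) =
        ((-1 : ℚ) ^ k) • (z ^ k * derivative z) := by
      have h2 : (Polynomial.C ((k + 1 : ℕ) : C) : C[X]) = algebraMap ℚ C[X] ((k : ℚ) + 1) := by
        simp
      rw [mul_assoc, h2, ← Algebra.smul_def, smul_smul]
      congr 1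
      field_simp
    rw [h1, Algebra.smul_def, map_pow, map_neg, map_one]
    ring
  let f : C[X] := logD D w - logD D y
  have hf : derivative f = 0 := by
    have h1 : derivative f = derivative w * S w - derivative y * S y := by
      rw [← hder, ← hder, ← derivative_sub]
    have hw' : derivative w = Polynomial.C (n * (1 + m)) := by
      simp [w]
    have hy' : derivative y = Polynomial.C n := by
      simp [y]
    have h2 := hS w hw
    have h3 := hS y hy
    have h4 : (1 + w : C[X]) = (1 + Polynomial.C m) * (1 + y) := by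
      simp only [w, y, C_mul, C_add, C_1]
      ring
    have h5 : derivative f = derivative f * (((1 + w) * S w) * ((1 + y) * S y)) := by
      rw [h2, h3, mul_one, mul_one]
    rw [h5, h1, hw', hy']
    have h6 : (Polynomial.C (n * (1 + m)) * S w - Polynomial.C n * S y) *
        ((1 + w) * S w * ((1 + y) * S y)) =
        (Polynomial.C (n * (1 + m)) * ((1 + w) * S w) * (1 + y) -
          Polynomial.C n * ((1 + y) * S y) * (1 + w)) * (S w * S y) := by ring
    rw [h6, h2, h3, h4]
    simp only [C_mul, C_add, C_1]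
    ring
  have h1 := eq_const_of_derivative f hf
  have h2 : f.eval 1 = f.eval 0 := by
    rw [h1, eval_C, eval_C]
  have hev : ∀ c : C, f.eval c = logD D (w.eval c) - logD D (y.eval c) := by
    intro c
    have h3 := logD_map (evalRingHom c) D w
    have h4 := logD_map (evalRingHom c) D y
    rw [coe_evalRingHom] at h3 h4
    rw [← h3, ← h4, ← eval_sub]
  rw [hev, hev] at h2
  have e1 : w.eval 1 = n + m + n * m := by simp [w]; ring
  have e2 : y.eval 1 = n := by simp [y]
  have e3 : w.eval 0 = m := by simp [w]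
  have e4 : y.eval 0 = 0 := by simp [y]
  rw [e1, e2, e3, e4, logD_zero, sub_zero] at h2
  rw [← h2]
  ring

theorem logD_inj (n : C) (hn : IsNilpotent n) (D : ℕ) (hD : 0 < D) (h : logD D n = 0) : n = 0 := by
  obtain ⟨D', rfl⟩ : ∃ D', D = D' + 1 := ⟨D - 1, by omega⟩
  have h1 : logD (D' + 1) n = n * (1 + n * ∑ k ∈ Finset.range D',
      ((-1 : ℚ) ^ (k + 1) / (((k + 1 : ℕ) : ℚ) + 1)) • n ^ k) := by
    rw [logD, Finset.sum_range_succ', mul_add, mul_one, add_comm]
    congr 1
    · simp
    · rw [Finset.mul_sum, Finset.mul_sum]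
      refine Finset.sum_congr rfl fun k _ => ?_
      rw [mul_smul_comm, mul_smul_comm]
      congr 1
      ring
  rw [h1] at h
  have h2 : IsUnit (1 + n * ∑ k ∈ Finset.range D',
      ((-1 : ℚ) ^ (k + 1) / (((k + 1 : ℕ) : ℚ) + 1)) • n ^ k) := by
    apply IsNilpotent.isUnit_one_add
    exact (Commute.all _ _).isNilpotent_mul_right hn
  exact (h2.mul_left_eq_zero).1 h

end comm

end Pool.Agent.Helper657_nd.Lin
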