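import Pool.Agent.Helper657_nd.WeylS

set_option autoImplicit false

/-!
# Partial operators on a definable abelian subgroup
-/

namespace Pool.Agent.Helper657_nd.Comm

open Crit Weyl

section defs
variable {G : Type} [Group G]

/-- `x` lies in the domain of the partial operator `d` on `A` -/
def EP (A : Subgroup G) (d x : G) : Prop := x ∈ A ∧ d * x * d⁻¹ ∈ A

/-- the image of `d - 1` -/
def BP (A : Subgroup G) (d b : G) : Prop := ∃ x, EP A d x ∧ b = cm d x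

def DomP (A : Subgroup G) (Gd Zc : G → Prop) (x₁ y : G) : Prop :=
  y ∈ A ∧ ∀ d, Gd d → ∃ v : Fin 3 → G, Zc (v 0) ∧ EP A (v 0) (v 1) ∧ EP A d (v 2) ∧
    BP A d (v 1 * x₁⁻¹) ∧ BP A d (v 2 * y⁻¹) ∧ cm (v 0) (v 1) = cm d (v 2)

def MulP (A : Subgroup G) (Gd Zc : G → Prop) (x₁ y z w : G) : Prop :=
  ∀ d, Gd d → ∃ v : Fin 5 → G, Zc (v 0) ∧ EP A (v 0) (v 1) ∧ EP A d (v 2) ∧
    EP A (v 0) (v 3) ∧ EP A d (v 4) ∧
    BP A d (v 1 * x₁⁻¹) ∧ BP A d (v 2 * y⁻¹) ∧ BP A d (v 3 * z⁻¹) ∧ BP A d (v 4 * w⁻¹) ∧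
    cm (v 0) (v 1) = cm d (v 2) ∧ cm (v 0) (v 3) = cm d (v 4)

variable {A : Subgroup G} (hA : DefinableSet (A : Set G))
include hA

theorem df_EP {f g : (ℕ → G) → G} (hf : Tm f) (hg : Tm g) : Df fun s => EP A (f s) (g s) :=
  (DefinableSet.df hA hg).and (DefinableSet.df hA ((hf.mul hg).mul hf.inv))

theorem df_BP {f g : (ℕ → G) → G} (hf : Tm f) (hg : Tm g) : Df fun s => BP A (f s) (g s) := by
  apply Df.exi (R := fun x s => EP A (f s) x ∧ g s = cm (f s) x)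
  exact (df_EP hA (hf.ren _) (Tm.var 0)).and (Df.eq (hg.ren _) (Tm.cm (hf.ren _) (Tm.var 0)))

theorem def_DomP {Gd Zc : G → Prop} (hG : Def1 Gd) (hZ : Def1 Zc) (x₁ : G) :
    Def1 (DomP A Gd Zc x₁) := by
  refine (DefinableSet.df hA (Tm.var 0)).and ?_
  apply Df.uni (R := fun d s => Gd d → ∃ v : Fin 3 → G, Zc (v 0) ∧ EP A (v 0) (v 1) ∧
    EP A d (v 2) ∧ BP A d (v 1 * x₁⁻¹) ∧ BP A d (v 2 * (s 0)⁻¹) ∧ cm (v 0) (v 1) = cm d (v 2))
  refine (hG.sub (Tm.var 0)).imp ?_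
  apply Df.exiTuple
  exact (hZ.sub (Tm.var 0)).and ((df_EP hA (Tm.var 0) (Tm.var 1)).and
    ((df_EP hA (Tm.var 3) (Tm.var 2)).and
    ((df_BP hA (Tm.var 3) ((Tm.var 1).mul (Tm.const _))).and
    ((df_BP hA (Tm.var 3) ((Tm.var 2).mul (Tm.var 4).inv)).and
    (Df.eq (Tm.cm (Tm.var 0) (Tm.var 1)) (Tm.cm (Tm.var 3) (Tm.var 2)))))))

theorem def_MulP {Gd Zc : G → Prop} (hG : Def1 Gd) (hZ : Def1 Zc) (x₁ : G) :
    Def3 (MulP A Gd Zc x₁) := by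
  apply Df.uni (R := fun d s => Gd d → ∃ v : Fin 5 → G, Zc (v 0) ∧ EP A (v 0) (v 1) ∧
    EP A d (v 2) ∧ EP A (v 0) (v 3) ∧ EP A d (v 4) ∧
    BP A d (v 1 * x₁⁻¹) ∧ BP A d (v 2 * (s 0)⁻¹) ∧ BP A d (v 3 * (s 1)⁻¹) ∧
    BP A d (v 4 * (s 2)⁻¹) ∧ cm (v 0) (v 1) = cm d (v 2) ∧ cm (v 0) (v 3) = cm d (v 4))
  refine (hG.sub (Tm.var 0)).imp ?_
  apply Df.exiTuple
  exact (hZ.sub (Tm.var 0)).and ((df_EP hA (Tm.var 0) (Tm.var 1)).and
    ((df_EP hA (Tm.var 5) (Tm.var 2)).and ((df_EP hA (Tm.var 0) (Tm.var 3)).and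
    ((df_EP hA (Tm.var 5) (Tm.var 4)).and
    ((df_BP hA (Tm.var 5) ((Tm.var 1).mul (Tm.const _))).and
    ((df_BP hA (Tm.var 5) ((Tm.var 2).mul (Tm.var 6).inv)).and
    ((df_BP hA (Tm.var 5) ((Tm.var 3).mul (Tm.var 7).inv)).and
    ((df_BP hA (Tm.var 5) ((Tm.var 4).mul (Tm.var 8).inv)).and
    ((Df.eq (Tm.cm (Tm.var 0) (Tm.var 1)) (Tm.cm (Tm.var 5) (Tm.var 2))).and
    (Df.eq (Tm.cm (Tm.var 0) (Tm.var 3)) (Tm.cm (Tm.var 5) (Tm.var 4))))))))))))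

end defs

section data
variable {G M : Type} [Group G] [AddCommGroup M] {A : Subgroup G} {ι : M → G} (E : Emb A ι)
include E

theorem EP_iff {d x : G} : EP A d x ↔ ∃ y y' : M, ι y = x ∧ ι y' = d * ι y * d⁻¹ := by
  constructor
  · rintro ⟨h1, h2⟩
    obtain ⟨y, rfl⟩ := (E.mem _).1 h1
    obtain ⟨y', h⟩ := (E.mem _).1 h2
    exact ⟨y, y', rfl, h⟩
  · rintro ⟨y, y', rfl, h⟩
    exact ⟨E.memι y, by rw [← h]; exact E.memι y'⟩

theorem cm_sub {d : G} {y y' : M} (h : ι y' = d * ι y * d⁻¹) : ι (y' - y) = cm d (ι y) := by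
  rw [E.sub, h]
  rfl

theorem BP_iff {d : G} {m : M} : BP A d (ι m) ↔ ∃ y y' : M, ι y' = d * ι y * d⁻¹ ∧ m = y' - y := by
  constructor
  · rintro ⟨x, hx, h⟩
    obtain ⟨y, y', rfl, h'⟩ := (EP_iff E).1 hx
    refine ⟨y, y', h', E.inj ?_⟩
    rw [h, cm_sub E h']
  · rintro ⟨y, y', h, rfl⟩
    exact ⟨ι y, (EP_iff E).2 ⟨y, y', rfl, h⟩, cm_sub E h⟩

theorem smul_rel {d : G} {y y' : M} (h : ι y' = d * ι y * d⁻¹) (k : ℕ) :
    ι (k • y') = d * ι (k • y) * d⁻¹ := by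
  rw [E.nsmul, E.nsmul, h, conj_pow]

/-- The abstract form of the construction. -/
theorem pdata (Gd Zc : G → Prop) (x₁ : M) {O L : Type} [CommRing O] [IsDomain O] [CharZero O]
    [AddCommGroup L] [Module O L] (htf : ∀ (o : O) (m : L), o • m = 0 → o = 0 ∨ m = 0)
    (j : M →+ L) (hj : Function.Injective j) (θ : L →ₗ[O] O) (c : ℕ) (hc : 0 < c)
    (hθ : θ (j x₁) = c) (p : ℕ) (hsep : ∀ m : L, (∀ l : ℕ, ∃ m' : L, m = (p ^ l) • m') → m = 0)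
    (hS : ∀ l : ℕ, ∃ d, Gd d ∧ (∀ x y, ι y = d * ι x * d⁻¹ → ∃ m : M, y - x = (p ^ l) • m) ∧
      ∀ ε x' x'' y' y'', Zc ε → ι x'' = ε * ι x' * ε⁻¹ → ι y'' = d * ι y' * d⁻¹ → x' ≠ 0 →
        x'' - x' = y'' - y' →
        ∀ z' z'' w' w'', ι z'' = ε * ι z' * ε⁻¹ → ι w'' = d * ι w' * d⁻¹ → z'' - z' = w'' - w' →
          ∃ r s : O, s ≠ 0 ∧ s • j y' = r • j x' ∧ s • j w' = r • j z')
    (hC : ∀ d, Gd d → ∀ k : ℕ, ∃ ε, Zc ε ∧ ∃ x' x'' y' y'' b b' b₂ b₂' : M,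
      ι x'' = ε * ι x' * ε⁻¹ ∧ ι y'' = d * ι y' * d⁻¹ ∧ ι b' = d * ι b * d⁻¹ ∧
      ι b₂' = d * ι b₂ * d⁻¹ ∧ x' - x₁ = b' - b ∧ y' - k • x₁ = b₂' - b₂ ∧
      x'' - x' = y'' - y') :
    Data O (ι x₁) c (DomP A Gd Zc (ι x₁)) (fun x y => x = y) (fun x y z => x * y = z)
      (MulP A Gd Zc (ι x₁)) (fun g o => ∃ y, ι y = g ∧ (c : O) • j y = o • j x₁) := by
  have hc0 : (c : O) ≠ 0 := by exact_mod_cast (by omega : c ≠ 0)
  have hjx₁ : j x₁ ≠ 0 := by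
    intro h
    rw [h, map_zero] at hθ
    exact hc0 hθ.symm
  obtain ⟨l₀, hl₀⟩ : ∃ l₀ : ℕ, ∀ m' : L, j x₁ ≠ (p ^ l₀) • m' := by
    by_contra hcon
    push Not at hcon
    exact hjx₁ (hsep _ hcon)
  have hnz : ∀ (l : ℕ) (x' m : M), x' - x₁ = (p ^ (l + l₀)) • m → x' ≠ 0 := by
    intro l x' m h h0
    rw [h0, zero_sub] at h
    apply hl₀ ((p ^ l) • (-j m))
    have h1 := congrArg j h
    rw [map_neg, map_nsmul] at h1
    rw [← mul_smul, ← pow_add, add_comm l₀ l, smul_neg, ← h1, neg_neg]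
  have hsepO : ∀ o : O, (∀ l : ℕ, ∃ o' : O, o = (p : O) ^ l * o') → o = 0 := by
    intro o ho
    have h1 : o • j x₁ = 0 := by
      apply hsep
      intro l
      obtain ⟨o', h⟩ := ho l
      refine ⟨o' • j x₁, ?_⟩
      rw [h, mul_smul, ← Nat.cast_pow, Nat.cast_smul_eq_nsmul]
    exact (htf _ _ h1).resolve_right hjx₁
  have hcancel : ∀ (s : O) (m m' : L), s ≠ 0 → s • m = s • m' → m = m' := by
    intro s m m' hs h
    have h1 : s • (m - m') = 0 := by rw [smul_sub, h, sub_self]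
    exact sub_eq_zero.1 ((htf _ _ h1).resolve_left hs)
  -- soundness of the domain
  have hdom : ∀ y : M, DomP A Gd Zc (ι x₁) (ι y) → (c : O) • j y = θ (j y) • j x₁ := by
    intro y hy
    rw [← sub_eq_zero]
    apply hsep
    intro l
    obtain ⟨d, hd, hdiv, hrat⟩ := hS (l + l₀)
    obtain ⟨v, hε, hv1, hv2, hb1, hb2, he⟩ := hy.2 d hd
    obtain ⟨x', x'', hx', hx''⟩ := (EP_iff E).1 hv1
    obtain ⟨y', y'', hy', hy''⟩ := (EP_iff E).1 hv2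
    rw [← hx', ← hy', ← cm_sub E hx'', ← cm_sub E hy''] at he
    have he' := E.inj he
    rw [← hx', ← E.sub] at hb1
    rw [← hy', ← E.sub] at hb2
    obtain ⟨b, b', hb, hbe⟩ := (BP_iff E).1 hb1
    obtain ⟨b₂, b₂', hb₂, hbe₂⟩ := (BP_iff E).1 hb2
    obtain ⟨m₁, hm₁⟩ := hdiv _ _ hb
    obtain ⟨m₂, hm₂⟩ := hdiv _ _ hb₂
    rw [hm₁] at hbe
    rw [hm₂] at hbe₂
    obtain ⟨r, s, hs, h1, -⟩ := hrat (v 0) x' x'' y' y'' hε hx'' hy'' (hnz l x' m₁ hbe) he'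
      x' x'' y' y'' hx'' hy'' he'
    have h2 : s * θ (j y') = r * θ (j x') := by
      have := congrArg θ h1
      rwa [map_smul, map_smul, smul_eq_mul, smul_eq_mul] at this
    have h3 : θ (j x') • j y' = θ (j y') • j x' := by
      apply hcancel s _ _ hs
      rw [smul_comm, h1, ← mul_smul, ← mul_smul, h2, mul_comm]
    have hx1 : j x' = j x₁ + (p ^ (l + l₀) : ℕ) • j m₁ := by
      rw [← map_nsmul, ← hbe, ← map_add]
      congr 1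
      abel
    have hy1 : j y' = j y + (p ^ (l + l₀) : ℕ) • j m₂ := by
      rw [← map_nsmul, ← hbe₂, ← map_add]
      congr 1
      abel
    have ht1 : θ (j x') = c + (p ^ (l + l₀) : ℕ) • θ (j m₁) := by rw [hx1, map_add, hθ, map_nsmul]
    have ht2 : θ (j y') = θ (j y) + (p ^ (l + l₀) : ℕ) • θ (j m₂) := by rw [hy1, map_add, map_nsmul]
    refine ⟨(p ^ l₀ : ℕ) • (θ (j y) • j m₁ + θ (j m₂) • j x' - (c : O) • j m₂ -
      θ (j m₁) • j y'), ?_⟩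
    rw [← mul_smul, ← pow_add]
    have h4 : θ (j x') • j y' = (c : O) • j y + (p ^ (l + l₀) : ℕ) • ((c : O) • j m₂ +
        θ (j m₁) • j y') := by
      rw [ht1, add_smul, smul_assoc, smul_add]
      conv_lhs => rw [show (c : O) • j y' = (c : O) • (j y + (p ^ (l + l₀) : ℕ) • j m₂) from by
        rw [← hy1]]
      rw [smul_add, smul_comm (c : O) (p ^ (l + l₀) : ℕ)]
      abel
    have h5 : θ (j y') • j x' = θ (j y) • j x₁ + (p ^ (l + l₀) : ℕ) • (θ (j y) • j m₁ +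
        θ (j m₂) • j x') := by
      rw [ht2, add_smul, smul_assoc, smul_add]
      conv_lhs => rw [show θ (j y) • j x' = θ (j y) • (j x₁ + (p ^ (l + l₀) : ℕ) • j m₁) from by
        rw [← hx1]]
      rw [smul_add, smul_comm (θ (j y)) (p ^ (l + l₀) : ℕ)]
      abel
    have h6 : (c : O) • j y - θ (j y) • j x₁ = (p ^ (l + l₀) : ℕ) • (θ (j y) • j m₁ +
        θ (j m₂) • j x') - (p ^ (l + l₀) : ℕ) • ((c : O) • j m₂ + θ (j m₁) • j y') := by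
      rw [h4, h5] at h3
      rw [sub_eq_sub_iff_add_eq_add]
      rw [h3]
      abel
    rw [h6, ← smul_sub]
    congr 1
    abel
  -- soundness of multiplication
  have hmul : ∀ y z w : M, MulP A Gd Zc (ι x₁) (ι y) (ι z) (ι w) →
      θ (j y) * θ (j z) = c * θ (j w) := by
    intro y z w h
    rw [← sub_eq_zero]
    apply hsepO
    intro l
    obtain ⟨d, hd, hdiv, hrat⟩ := hS (l + l₀)
    obtain ⟨v, hε, hv1, hv2, hv3, hv4, hb1, hb2, hb3, hb4, he, he₂⟩ := h d hd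
    obtain ⟨x', x'', hx', hx''⟩ := (EP_iff E).1 hv1
    obtain ⟨y', y'', hy', hy''⟩ := (EP_iff E).1 hv2
    obtain ⟨z', z'', hz', hz''⟩ := (EP_iff E).1 hv3
    obtain ⟨w', w'', hw', hw''⟩ := (EP_iff E).1 hv4
    rw [← hx', ← hy', ← cm_sub E hx'', ← cm_sub E hy''] at he
    rw [← hz', ← hw', ← cm_sub E hz'', ← cm_sub E hw''] at he₂
    have he' := E.inj he
    have he₂' := E.inj he₂
    rw [← hx', ← E.sub] at hb1
    rw [← hy', ← E.sub] at hb2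
    rw [← hz', ← E.sub] at hb3
    rw [← hw', ← E.sub] at hb4
    obtain ⟨b, b', hb, hbe⟩ := (BP_iff E).1 hb1
    obtain ⟨b₂, b₂', hb₂, hbe₂⟩ := (BP_iff E).1 hb2
    obtain ⟨b₃, b₃', hb₃, hbe₃⟩ := (BP_iff E).1 hb3
    obtain ⟨b₄, b₄', hb₄, hbe₄⟩ := (BP_iff E).1 hb4
    obtain ⟨m₁, hm₁⟩ := hdiv _ _ hb
    obtain ⟨m₂, hm₂⟩ := hdiv _ _ hb₂
    obtain ⟨m₃, hm₃⟩ := hdiv _ _ hb₃
    obtain ⟨m₄, hm₄⟩ := hdiv _ _ hb₄
    rw [hm₁] at hbe
    rw [hm₂] at hbe₂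
    rw [hm₃] at hbe₃
    rw [hm₄] at hbe₄
    obtain ⟨r, s, hs, h1, h2⟩ := hrat (v 0) x' x'' y' y'' hε hx'' hy'' (hnz l x' m₁ hbe) he'
      z' z'' w' w'' hz'' hw'' he₂'
    have h3 : s * θ (j y') = r * θ (j x') := by
      have := congrArg θ h1
      rwa [map_smul, map_smul, smul_eq_mul, smul_eq_mul] at this
    have h4 : s * θ (j w') = r * θ (j z') := by
      have := congrArg θ h2
      rwa [map_smul, map_smul, smul_eq_mul, smul_eq_mul] at this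
    have h5 : θ (j y') * θ (j z') = θ (j x') * θ (j w') := by
      apply mul_left_cancel₀ hs
      linear_combination θ (j z') * h3 - θ (j x') * h4
    have hxyz : ∀ a a' m : M, a' - a = (p ^ (l + l₀)) • m →
        θ (j a') = θ (j a) + (p : O) ^ (l + l₀) * θ (j m) := by
      intro a a' m ham
      have h6 : a' = a + (p ^ (l + l₀)) • m := by
        rw [← ham]
        abel
      rw [h6, map_add, map_add, map_nsmul, map_nsmul, nsmul_eq_mul]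
      push_cast
      ring
    rw [hxyz _ _ _ hbe, hxyz _ _ _ hbe₂, hxyz _ _ _ hbe₃, hxyz _ _ _ hbe₄, hθ] at h5
    refine ⟨(p : O) ^ l₀ * (c * θ (j m₄) + θ (j m₁) * θ (j w) + (p : O) ^ (l + l₀) * θ (j m₁) *
      θ (j m₄) - θ (j y) * θ (j m₃) - θ (j m₂) * θ (j z) - (p : O) ^ (l + l₀) * θ (j m₂) *
      θ (j m₃)), ?_⟩
    have h7 : (p : O) ^ (l + l₀) = (p : O) ^ l * (p : O) ^ l₀ := pow_add _ _ _
    rw [h7] at h5 ⊢
    linear_combination h5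
  have hVeq : ∀ x y : M, ∀ o o' : O, (c : O) • j x = o • j x₁ → (c : O) • j y = o' • j x₁ →
      (x = y ↔ o = o') := by
    intro x y o o' hx hy
    constructor
    · rintro rfl
      rw [hx] at hy
      have h1 : (o - o') • j x₁ = 0 := by rw [sub_smul, hy, sub_self]
      exact sub_eq_zero.1 ((htf _ _ h1).resolve_right hjx₁)
    · rintro rfl
      apply hj
      exact hcancel _ _ _ hc0 (hx.trans hy.symm)
  have hVθ : ∀ (y : M) (o : O), (c : O) • j y = o • j x₁ → o = θ (j y) := by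
    intro y o h
    have h1 := congrArg θ h
    rw [map_smul, map_smul, hθ, smul_eq_mul, smul_eq_mul] at h1
    apply mul_left_cancel₀ hc0
    rw [h1, mul_comm]
  -- completeness
  have hBP : ∀ (d : G) (a m : M), BP A d (ι a * (ι m)⁻¹) ↔
      ∃ y y' : M, ι y' = d * ι y * d⁻¹ ∧ a - m = y' - y := by
    intro d a m
    rw [← E.sub, BP_iff E]
  refine { hc := hc, dom := ?_, eq := ?_, fn := ?_, dom_pow := ?_, V_pow := ?_, add := ?_,
           add_pow := ?_, mul := ?_, mul_pow := ?_ }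
  · intro g hg
    obtain ⟨y, rfl⟩ := (E.mem g).1 hg.1
    exact ⟨θ (j y), y, rfl, hdom y hg⟩
  · rintro g g' o o' hg hg' ⟨y, rfl, hy⟩ ⟨y', rfl, hy'⟩
    rw [E.inj.eq_iff]
    exact hVeq y y' o o' hy hy'
  · rintro g o o' hg ⟨y, rfl, hy⟩ ⟨y', hyy', hy'⟩
    have := E.inj hyy'
    subst this
    exact (hVeq _ _ o o' hy hy').1 rfl
  · intro k
    rw [← E.nsmul]
    refine ⟨E.memι _, fun d hd => ?_⟩
    obtain ⟨ε, hε, x', x'', y', y'', b, b', b₂, b₂', h1, h2, h3, h4, h5, h6, h7⟩ := hC d hd k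
    refine ⟨![ε, ι x', ι y'], hε, (EP_iff E).2 ⟨x', x'', rfl, h1⟩,
      (EP_iff E).2 ⟨y', y'', rfl, h2⟩, (hBP _ _ _).2 ⟨b, b', h3, h5⟩,
      (hBP _ _ _).2 ⟨b₂, b₂', h4, h6⟩, ?_⟩
    show cm ε (ι x') = cm d (ι y')
    rw [← cm_sub E h1, ← cm_sub E h2, h7]
  · intro k
    refine ⟨k • x₁, E.nsmul k x₁, ?_⟩
    rw [map_nsmul, Nat.cast_mul, mul_smul, Nat.cast_smul_eq_nsmul O k]
  · rintro _ _ _ a b d hx hy hz ⟨x, rfl, hx'⟩ ⟨y, rfl, hy'⟩ ⟨z, rfl, hz'⟩ h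
    rw [← E.add] at h
    have h1 := E.inj h
    subst h1
    rw [hVθ _ _ hx', hVθ _ _ hy', hVθ _ _ hz', map_add, map_add]
  · intro i k
    exact (pow_add _ _ _).symm
  · rintro _ _ _ a b d hx hy hz ⟨x, rfl, hx'⟩ ⟨y, rfl, hy'⟩ ⟨z, rfl, hz'⟩ h
    rw [hVθ _ _ hx', hVθ _ _ hy', hVθ _ _ hz']
    exact hmul x y z h
  · intro i k d hd
    obtain ⟨ε, hε, x', x'', y', y'', b, b', b₂, b₂', h1, h2, h3, h4, h5, h6, h7⟩ := hC d hd i
    rw [← E.nsmul, ← E.nsmul, ← E.nsmul]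
    refine ⟨![ε, ι x', ι y', ι (k • x'), ι (k • y')], hε, (EP_iff E).2 ⟨x', x'', rfl, h1⟩,
      (EP_iff E).2 ⟨y', y'', rfl, h2⟩, (EP_iff E).2 ⟨k • x', k • x'', rfl, smul_rel E h1 k⟩,
      (EP_iff E).2 ⟨k • y', k • y'', rfl, smul_rel E h2 k⟩, (hBP _ _ _).2 ⟨b, b', h3, h5⟩,
      (hBP _ _ _).2 ⟨b₂, b₂', h4, h6⟩,
      (hBP _ _ _).2 ⟨k • b, k • b', smul_rel E h3 k, ?_⟩,
      (hBP _ _ _).2 ⟨k • b₂, k • b₂', smul_rel E h4 k, ?_⟩, ?_, ?_⟩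
    · rw [← smul_sub, ← smul_sub, h5]
    · rw [← smul_sub, ← h6, smul_sub, mul_comm i k, mul_smul]
    · show cm ε (ι x') = cm d (ι y')
      rw [← cm_sub E h1, ← cm_sub E h2, h7]
    · show cm ε (ι (k • x')) = cm d (ι (k • y'))
      rw [← cm_sub E (smul_rel E h1 k), ← cm_sub E (smul_rel E h2 k), ← smul_sub, ← smul_sub, h7]

end data

end Pool.Agent.Helper657_nd.Comm
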