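import Pool.Agent.Helper657_nd.Crit
import Pool.Agent.Helper657_nd.WeylS

set_option autoImplicit false

/-!
# The power criterion

Let `M ≤ N` be definable normal subgroups of a definable subgroup `S` and let `t` be an element of
`S` of infinite order modulo `N`. If for all `k > 0` the cosets of `N` in `S` that meet the
centralizer modulo `M` of each element of `t ^ k N` are those of the powers of `t ^ k`, then
`(ℤ, +, ∣)` is interpretable.
-/

namespace Pool.Agent.Helper657_nd.PowC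

open Crit

section defs
variable {G : Type} [Group G] (S M N : Subgroup G) (t : G)

/-- the coset of `x` meets all centralizers modulo `M` of elements of the coset of `q` -/
def Pw (x q : G) : Prop :=
  ∀ g, g * q⁻¹ ∈ (N : Set G) → ∃ y, y * x⁻¹ ∈ (N : Set G) ∧ y * g * (g * y)⁻¹ ∈ (M : Set G)

/-- divisibility -/
def Dd (x y : G) : Prop := ¬ x ∈ (N : Set G) ∧ Pw M N y x

def Cst (i : ℤ) (x : G) : Prop := x * (t ^ i)⁻¹ ∈ (N : Set G)

def excl : List ℤ := [-6, -5, -4, -3, -2, -1, 0, 1, 2, 3]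

theorem mem_excl (i : ℤ) : i ∈ excl ↔ -6 ≤ i ∧ i ≤ 3 := by
  constructor
  · intro hi
    simp only [excl, List.mem_cons, List.not_mem_nil, or_false] at hi
    rcases hi with h | h | h | h | h | h | h | h | h | h <;> omega
  · rintro ⟨h1, h2⟩
    simp only [excl, List.mem_cons, List.not_mem_nil, or_false]
    omega

/-- `z = x (x + 1)` -/
def Pr (x z : G) : Prop :=
  (¬ ∀ i ∈ excl, ¬ (Cst N t i x ∧ Cst N t (i * (i + 1)) z)) ∨
    ((∀ i ∈ excl, ¬ Cst N t i x) ∧ Dd M N x z ∧ Dd M N (x * t) z ∧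
      (∀ w, w ∈ (S : Set G) → Pw M N w t → Dd M N x w → Dd M N (x * t) w → Dd M N z w) ∧
      Dd M N (x * (t * t)) (z * (t * t)⁻¹))

def Ml (x y z : G) : Prop :=
  ∃ p : Fin 3 → G, (p 0 ∈ (S : Set G) ∧ Pw M N (p 0) t) ∧ (p 1 ∈ (S : Set G) ∧ Pw M N (p 1) t) ∧
    (p 2 ∈ (S : Set G) ∧ Pw M N (p 2) t) ∧ Pr S M N t x (p 0) ∧ Pr S M N t y (p 1) ∧
    Pr S M N t (x * y) (p 2) ∧ p 2 * (p 0 * p 1 * (z * z))⁻¹ ∈ (N : Set G)

variable {S M N} (hS : DefinableSet (S : Set G)) (hM : DefinableSet (M : Set G))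
  (hN : DefinableSet (N : Set G))
include hM hN

theorem def_Pw : Def2 (Pw M N) := by
  apply Df.uni (R := fun g s => g * (s 1)⁻¹ ∈ (N : Set G) → ∃ y, y * (s 0)⁻¹ ∈ (N : Set G) ∧
    y * g * (g * y)⁻¹ ∈ (M : Set G))
  refine (DefinableSet.df hN ((Tm.var 0).mul (Tm.var 2).inv)).imp ?_
  apply Df.exi (R := fun y s => y * (s 1)⁻¹ ∈ (N : Set G) ∧
    y * (s 0) * ((s 0) * y)⁻¹ ∈ (M : Set G))
  exact (DefinableSet.df hN ((Tm.var 0).mul (Tm.var 2).inv)).and
    (DefinableSet.df hM (((Tm.var 0).mul (Tm.var 1)).mul ((Tm.var 1).mul (Tm.var 0)).inv))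

theorem def_Dd : Def2 (Dd M N) :=
  (DefinableSet.df hN (Tm.var 0)).not.and ((def_Pw hM hN).sub (Tm.var 1) (Tm.var 0))

omit hM in
theorem def_Cst (i : ℤ) : Def1 (Cst N t i) :=
  DefinableSet.df hN ((Tm.var 0).mul (Tm.const (t ^ i)).inv)

include hS in
theorem def_Pr : Def2 (Pr S M N t) := by
  refine Df.or ?_ ?_
  · refine Df.not ?_
    exact Df.forallList excl fun i _ =>
      (((def_Cst t hN i).sub (Tm.var 0)).and ((def_Cst t hN _).sub (Tm.var 1))).not
  · refine (Df.forallList excl fun i _ => ((def_Cst t hN i).sub (Tm.var 0)).not).and ?_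
    refine ((def_Dd hM hN).sub (Tm.var 0) (Tm.var 1)).and ?_
    refine ((def_Dd hM hN).sub ((Tm.var 0).mul (Tm.const t)) (Tm.var 1)).and ?_
    refine Df.and ?_ ?_
    · apply Df.uni (R := fun w s => w ∈ (S : Set G) → Pw M N w t → Dd M N (s 0) w →
        Dd M N (s 0 * t) w → Dd M N (s 1) w)
      refine (DefinableSet.df hS (Tm.var 0)).imp ?_
      refine ((def_Pw hM hN).sub (Tm.var 0) (Tm.const t)).imp ?_
      refine ((def_Dd hM hN).sub (Tm.var 1) (Tm.var 0)).imp ?_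
      refine ((def_Dd hM hN).sub ((Tm.var 1).mul (Tm.const t)) (Tm.var 0)).imp ?_
      exact (def_Dd hM hN).sub (Tm.var 2) (Tm.var 0)
    · exact (def_Dd hM hN).sub ((Tm.var 0).mul (Tm.const (t * t)))
        ((Tm.var 1).mul (Tm.const (t * t)).inv)

include hS in
theorem def_Ml : Def3 (Ml S M N t) := by
  apply Df.exiTuple
  refine ((DefinableSet.df hS (Tm.var 0)).and ((def_Pw hM hN).sub (Tm.var 0) (Tm.const t))).and ?_
  refine ((DefinableSet.df hS (Tm.var 1)).and ((def_Pw hM hN).sub (Tm.var 1) (Tm.const t))).and ?_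
  refine ((DefinableSet.df hS (Tm.var 2)).and ((def_Pw hM hN).sub (Tm.var 2) (Tm.const t))).and ?_
  refine ((def_Pr t hS hM hN).sub (Tm.var 3) (Tm.var 0)).and ?_
  refine ((def_Pr t hS hM hN).sub (Tm.var 4) (Tm.var 1)).and ?_
  refine ((def_Pr t hS hM hN).sub ((Tm.var 3).mul (Tm.var 4)) (Tm.var 2)).and ?_
  exact DefinableSet.df hN ((Tm.var 2).mul (((Tm.var 0).mul (Tm.var 1)).mul
    ((Tm.var 5).mul (Tm.var 5))).inv)

end defs

section sem
variable {G : Type} [Group G] {S M N : Subgroup G} {t : G}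

/-- the hypotheses -/
structure Hyp (S M N : Subgroup G) (t : G) : Prop where
  le : N ≤ S
  mem : t ∈ S
  normalM : ∀ s ∈ S, ∀ x ∈ M, s * x * s⁻¹ ∈ M
  normal : ∀ s ∈ S, ∀ x ∈ N, s * x * s⁻¹ ∈ N
  inf : ∀ k : ℕ, 0 < k → t ^ k ∉ N
  pow : ∀ k : ℕ, 0 < k → ∀ x ∈ S, Pw M N x (t ^ k) → ∃ j : ℤ, x * (t ^ ((k : ℤ) * j))⁻¹ ∈ N

variable (H : Hyp S M N t)
include H

def CC (N : Subgroup G) (t : G) (a : ℤ) (x : G) : Prop := x * (t ^ a)⁻¹ ∈ N

theorem CC.memS {a : ℤ} {x : G} (hx : CC N t a x) : x ∈ S := by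
  have h1 := S.mul_mem (H.le hx) (S.zpow_mem H.mem a)
  rwa [inv_mul_cancel_right] at h1

omit H in
theorem CC.self (a : ℤ) : CC N t a (t ^ a) := by
  unfold CC
  rw [mul_inv_cancel]
  exact N.one_mem

theorem CC.mul {a b : ℤ} {x y : G} (hx : CC N t a x) (hy : CC N t b y) :
    CC N t (a + b) (x * y) := by
  unfold CC at *
  have h1 : x * y * (t ^ (a + b))⁻¹ =
      (x * (t ^ a)⁻¹) * (t ^ a * (y * (t ^ b)⁻¹) * (t ^ a)⁻¹) := by
    rw [zpow_add]
    group
  rw [h1]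
  exact N.mul_mem hx (H.normal _ (S.zpow_mem H.mem a) _ hy)

theorem CC.inv {a : ℤ} {x : G} (hx : CC N t a x) : CC N t (-a) x⁻¹ := by
  have hxS := CC.memS H hx
  unfold CC at *
  have h1 : x⁻¹ * (t ^ (-a))⁻¹ = x⁻¹ * (x * (t ^ a)⁻¹)⁻¹ * x⁻¹⁻¹ := by
    rw [zpow_neg]
    group
  rw [h1]
  exact H.normal _ (S.inv_mem hxS) _ (N.inv_mem hx)

omit H in
theorem CC.zero_iff {x : G} : CC N t 0 x ↔ x ∈ N := by
  unfold CC
  rw [zpow_zero, inv_one, mul_one]

theorem CC.unique {a b : ℤ} {x : G} (hx : CC N t a x) (hy : CC N t b x) : a = b := by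
  by_contra hne
  have key : ∀ a b : ℤ, a < b → CC N t a x → CC N t b x → False := by
    intro a b hab ha hb
    have h1 := CC.mul H (CC.inv H ha) hb
    rw [inv_mul_cancel] at h1
    obtain ⟨k, hk⟩ := Int.eq_ofNat_of_zero_le (sub_nonneg.2 hab.le)
    have hk0 : 0 < k := by omega
    apply H.inf k hk0
    have h2 : CC N t (k : ℤ) 1 := by
      rw [← hk]
      have : b - a = -a + b := by ring
      rw [this]
      exact h1
    unfold CC at h2
    rw [one_mul, zpow_natCast] at h2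
    simpa using N.inv_mem h2
  rcases lt_or_gt_of_ne hne with h | h
  · exact key a b h hx hy
  · exact key b a h hy hx

/-- the cosets are determined by their index -/
theorem CC.eq {a : ℤ} {x y : G} (hx : CC N t a x) : CC N t a y ↔ y * x⁻¹ ∈ N := by
  constructor
  · intro hy
    have h1 := CC.mul H hy (CC.inv H hx)
    rw [add_neg_cancel] at h1
    exact CC.zero_iff.1 h1
  · intro h
    have h1 := CC.mul H (CC.zero_iff (t := t).2 h) hx
    rw [inv_mul_cancel_right, zero_add] at h1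
    exact h1

theorem Pw_iff {b : ℤ} {q : G} (hq : CC N t b q) (hb : b ≠ 0) (x : G) (hxS : x ∈ S) :
    Pw M N x q ↔ ∃ j : ℤ, CC N t (b * j) x := by
  -- positive case first
  have hpos : ∀ (k : ℕ), 0 < k → ∀ q, CC N t (k : ℤ) q → ∀ x ∈ S,
      (Pw M N x q ↔ ∃ j : ℤ, CC N t (k * j) x) := by
    intro k hk q hq x hxS
    have hcos : ∀ g, g * q⁻¹ ∈ (N : Set G) ↔ g * (t ^ k)⁻¹ ∈ (N : Set G) := by
      intro g
      have h1 : g * q⁻¹ ∈ N ↔ CC N t (k : ℤ) g := (CC.eq H hq).symm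
      have h2 : g * (t ^ k)⁻¹ ∈ N ↔ CC N t (k : ℤ) g := by
        unfold CC
        rw [zpow_natCast]
      exact h1.trans h2.symm
    constructor
    · intro h
      exact H.pow k hk x hxS fun g hg => h g ((hcos g).2 hg)
    · rintro ⟨j, hj⟩ g hg
      refine ⟨g ^ j, ?_, ?_⟩
      · have hgk : CC N t (k : ℤ) g := (CC.eq H hq).2 hg
        have hpowj : ∀ n : ℕ, CC N t ((k : ℤ) * n) (g ^ n) := by
          intro n
          induction n with
          | zero =>
            rw [Nat.cast_zero, mul_zero, pow_zero]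
            exact CC.zero_iff.2 N.one_mem
          | succ n ih =>
            have h2 := CC.mul H ih hgk
            rw [pow_succ]
            have h3 : (k : ℤ) * ((n + 1 : ℕ) : ℤ) = (k : ℤ) * n + k := by push_cast; ring
            rw [h3]
            exact h2
        have hall : CC N t ((k : ℤ) * j) (g ^ j) := by
          rcases Int.eq_nat_or_neg j with ⟨n, rfl | rfl⟩
          · rw [zpow_natCast]
            exact hpowj n
          · rw [zpow_neg, zpow_natCast, mul_neg]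
            exact CC.inv H (hpowj n)
        exact (CC.eq H hj).1 hall
      · rw [((Commute.refl g).zpow_left j).eq, mul_inv_cancel]
        exact M.one_mem
  rcases lt_trichotomy b 0 with h | h | h
  · obtain ⟨k, hk⟩ := Int.eq_ofNat_of_zero_le (show 0 ≤ -b by omega)
    have hk0 : 0 < k := by omega
    have hq' : CC N t (k : ℤ) q⁻¹ := by
      rw [← hk]
      exact CC.inv H hq
    have hqS : q ∈ S := CC.memS H hq
    have hcomm : ∀ y g : G, g ∈ S → y * g⁻¹ * (g⁻¹ * y)⁻¹ ∈ (M : Set G) →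
        y * g * (g * y)⁻¹ ∈ (M : Set G) := by
      intro y g hgS h
      have h4 := H.normalM g hgS _ (M.inv_mem h)
      have h5 : g * (y * g⁻¹ * (g⁻¹ * y)⁻¹)⁻¹ * g⁻¹ = y * g * (g * y)⁻¹ := by group
      rw [h5] at h4
      exact h4
    have h1 : Pw M N x q ↔ Pw M N x q⁻¹ := by
      unfold Pw
      constructor
      · intro h g hg
        have hgS : g ∈ S := by
          have h8 := S.mul_mem (H.le hg) (S.inv_mem hqS)
          rwa [inv_mul_cancel_right] at h8
        have h3 : g⁻¹ * q⁻¹ ∈ (N : Set G) := by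
          have h4 := H.normal g⁻¹ (S.inv_mem hgS) _ (N.inv_mem hg)
          have h5 : g⁻¹ * (g * q⁻¹⁻¹)⁻¹ * g⁻¹⁻¹ = g⁻¹ * q⁻¹ := by group
          rw [h5] at h4
          exact h4
        obtain ⟨y, hy, hy2⟩ := h g⁻¹ h3
        exact ⟨y, hy, hcomm y g hgS hy2⟩
      · intro h g hg
        have hgS : g ∈ S := by
          have h8 := S.mul_mem (H.le hg) hqS
          rwa [inv_mul_cancel_right] at h8
        have h3 : g⁻¹ * q⁻¹⁻¹ ∈ (N : Set G) := by
          have h4 := H.normal g⁻¹ (S.inv_mem hgS) _ (N.inv_mem hg)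
          have h5 : g⁻¹ * (g * q⁻¹)⁻¹ * g⁻¹⁻¹ = g⁻¹ * q⁻¹⁻¹ := by group
          rw [h5] at h4
          exact h4
        obtain ⟨y, hy, hy2⟩ := h g⁻¹ h3
        exact ⟨y, hy, hcomm y g hgS hy2⟩
    rw [h1, hpos k hk0 _ hq' x hxS]
    constructor
    · rintro ⟨j, hj⟩
      refine ⟨-j, ?_⟩
      have : b * -j = (k : ℤ) * j := by rw [← hk]; ring
      rwa [this]
    · rintro ⟨j, hj⟩
      refine ⟨-j, ?_⟩
      have : (k : ℤ) * -j = b * j := by rw [← hk]; ring
      rwa [this]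
  · exact absurd h hb
  · obtain ⟨k, rfl⟩ := Int.eq_ofNat_of_zero_le h.le
    exact hpos k (by omega) q hq x hxS

theorem Dom_iff (x : G) : (x ∈ (S : Set G) ∧ Pw M N x t) ↔ ∃ j : ℤ, CC N t j x := by
  have h1 : CC N t 1 t := by
    have := CC.self (N := N) (t := t) 1
    rwa [zpow_one] at this
  constructor
  · rintro ⟨hxS, h⟩
    obtain ⟨j, hj⟩ := (Pw_iff H h1 one_ne_zero x hxS).1 h
    exact ⟨j, by rwa [one_mul] at hj⟩
  · rintro ⟨j, hj⟩
    have hxS : x ∈ S := CC.memS H hj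
    exact ⟨hxS, (Pw_iff H h1 one_ne_zero x hxS).2 ⟨j, by rwa [one_mul]⟩⟩

theorem Dd_iff {a b : ℤ} {x y : G} (hx : CC N t a x) (hy : CC N t b y) :
    Dd M N x y ↔ a ≠ 0 ∧ a ∣ b := by
  unfold Dd
  have h0 : x ∈ (N : Set G) ↔ a = 0 := by
    constructor
    · intro h
      exact CC.unique H hx (CC.zero_iff.2 h)
    · rintro rfl
      exact CC.zero_iff.1 hx
  rw [h0]
  refine and_congr_right fun ha => ?_
  rw [Pw_iff H hx ha y (CC.memS H hy)]
  constructor
  · rintro ⟨j, hj⟩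
    exact ⟨j, CC.unique H hy hj⟩
  · rintro ⟨j, rfl⟩
    exact ⟨j, hy⟩

theorem Cst_iff {a : ℤ} (i : ℤ) {x : G} (hx : CC N t a x) : Cst N t i x ↔ a = i := by
  constructor
  · intro h
    exact CC.unique H hx h
  · rintro rfl
    exact hx

theorem Pr_iff {a b : ℤ} {x y : G} (hx : CC N t a x) (hy : CC N t b y) :
    Pr S M N t x y ↔ b = a * (a + 1) := by
  have h1t : CC N t 1 t := by
    have := CC.self (N := N) (t := t) 1
    rwa [zpow_one] at this
  have h2t : CC N t 2 (t * t) := CC.mul H h1t h1t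
  have hxt : CC N t (a + 1) (x * t) := CC.mul H hx h1t
  have hxtt : CC N t (a + 2) (x * (t * t)) := CC.mul H hx h2t
  have hytt : CC N t (b - 2) (y * (t * t)⁻¹) := by
    have := CC.mul H hy (CC.inv H h2t)
    rwa [← sub_eq_add_neg] at this
  have e1 : (∀ w, w ∈ (S : Set G) → Pw M N w t → Dd M N x w → Dd M N (x * t) w →
      Dd M N y w) ↔
      ∀ c : ℤ, (a ≠ 0 ∧ a ∣ c) → (a + 1 ≠ 0 ∧ (a + 1) ∣ c) → (b ≠ 0 ∧ b ∣ c) := by
    constructor
    · intro h c h2 h3
      have h4 := CC.self (N := N) (t := t) c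
      have h6 := (Dom_iff H _).2 ⟨c, h4⟩
      have h5 := h (t ^ c) h6.1 h6.2 ((Dd_iff H hx h4).2 h2) ((Dd_iff H hxt h4).2 h3)
      exact (Dd_iff H hy h4).1 h5
    · intro h w hwS hw h2 h3
      obtain ⟨c, hc⟩ := (Dom_iff H w).1 ⟨hwS, hw⟩
      exact (Dd_iff H hy hc).2 (h c ((Dd_iff H hx hc).1 h2) ((Dd_iff H hxt hc).1 h3))
  unfold Pr
  rw [Dd_iff H hx hy, Dd_iff H hxt hy, Dd_iff H hxtt hytt, e1]
  have e2 : (∀ i ∈ excl, ¬ Cst N t i x) ↔ (a < -6 ∨ 3 < a) := by
    constructor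
    · intro h
      by_contra hcon
      push Not at hcon
      have hmem : a ∈ excl := (mem_excl a).2 (by omega)
      exact h a hmem ((Cst_iff H a hx).2 rfl)
    · intro h i hi hc
      have := (Cst_iff H i hx).1 hc
      rw [mem_excl] at hi
      omega
  have e3 : (¬ ∀ i ∈ excl, ¬ (Cst N t i x ∧ Cst N t (i * (i + 1)) y)) ↔
      (¬ (a < -6 ∨ 3 < a) ∧ b = a * (a + 1)) := by
    constructor
    · intro h
      push Not at h
      obtain ⟨i, hi, h1, h2⟩ := h
      have h3 := (Cst_iff H i hx).1 h1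
      have h4 := (Cst_iff H _ hy).1 h2
      subst h3
      refine ⟨?_, h4⟩
      rw [mem_excl] at hi
      omega
    · rintro ⟨h1, h2⟩ h
      have hmem : a ∈ excl := (mem_excl a).2 (by omega)
      exact h a hmem ⟨(Cst_iff H a hx).2 rfl, (Cst_iff H _ hy).2 h2⟩
  rw [e2, e3]
  constructor
  · rintro (⟨-, h⟩ | ⟨h0, ⟨ha, h1⟩, ⟨ha1, h2⟩, h3, ha2, h4⟩)
    · exact h
    · have hcop : IsCoprime a (a + 1) := ⟨-1, 1, by ring⟩
      have h5 : a * (a + 1) ∣ b := hcop.mul_dvd h1 h2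
      have h6 := h3 (a * (a + 1)) ⟨ha, Dvd.intro _ rfl⟩ ⟨ha1, Dvd.intro_left _ rfl⟩
      rcases Int.associated_iff.1 (associated_of_dvd_dvd h6.2 h5) with h7 | h7
      · exact h7
      · exfalso
        have h8 : (a + 2) ∣ 4 := by
          have h9 : (4 : ℤ) = -(b - 2) - (a + 2) * (a - 1) := by rw [h7]; ring
          rw [h9]
          exact dvd_sub (dvd_neg.2 h4) (Dvd.intro _ rfl)
        have h10 := Int.le_of_dvd (by norm_num) h8
        have h11 : -(a + 2) ∣ 4 := (neg_dvd).2 h8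
        have h12 := Int.le_of_dvd (by norm_num) h11
        omega
  · rintro rfl
    by_cases h0 : a < -6 ∨ 3 < a
    · right
      have ha : a ≠ 0 := by omega
      have ha1 : a + 1 ≠ 0 := by omega
      have ha2 : a + 2 ≠ 0 := by omega
      have hcop : IsCoprime a (a + 1) := ⟨-1, 1, by ring⟩
      refine ⟨h0, ⟨ha, Dvd.intro _ rfl⟩, ⟨ha1, Dvd.intro_left _ rfl⟩, fun c h1 h2 =>
        ⟨mul_ne_zero ha ha1, hcop.mul_dvd h1.2 h2.2⟩, ha2, ⟨a - 1, by ring⟩⟩
    · left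
      exact ⟨h0, rfl⟩

theorem Ml_iff {a b c : ℤ} {x y z : G} (hx : CC N t a x) (hy : CC N t b y) (hz : CC N t c z) :
    Ml S M N t x y z ↔ a * b = c := by
  have hxy : CC N t (a + b) (x * y) := CC.mul H hx hy
  have hzz : CC N t (c + c) (z * z) := CC.mul H hz hz
  constructor
  · rintro ⟨p, h0, h1, h2, h3, h4, h5, h6⟩
    obtain ⟨p0, hp0⟩ := (Dom_iff H _).1 h0
    obtain ⟨p1, hp1⟩ := (Dom_iff H _).1 h1
    obtain ⟨p2, hp2⟩ := (Dom_iff H _).1 h2
    have e0 := (Pr_iff H hx hp0).1 h3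
    have e1 := (Pr_iff H hy hp1).1 h4
    have e2 := (Pr_iff H hxy hp2).1 h5
    have hprod := CC.mul H (CC.mul H hp0 hp1) hzz
    have h7 := (CC.eq H hprod).2 h6
    have e3 := CC.unique H hp2 h7
    have : 2 * (a * b) = 2 * c := by
      rw [e0, e1, e2] at e3
      linarith
    linarith
  · rintro rfl
    refine ⟨![t ^ (a * (a + 1)), t ^ (b * (b + 1)), t ^ ((a + b) * (a + b + 1))],
      (Dom_iff H _).2 ⟨_, CC.self _⟩, (Dom_iff H _).2 ⟨_, CC.self _⟩,
      (Dom_iff H _).2 ⟨_, CC.self _⟩, (Pr_iff H hx (CC.self _)).2 rfl,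
      (Pr_iff H hy (CC.self _)).2 rfl, (Pr_iff H hxy (CC.self _)).2 rfl, ?_⟩
    show t ^ ((a + b) * (a + b + 1)) * (t ^ (a * (a + 1)) * t ^ (b * (b + 1)) * (z * z))⁻¹ ∈ N
    have hprod := CC.mul H (CC.mul H (CC.self (N := N) (t := t) (a * (a + 1)))
      (CC.self (N := N) (t := t) (b * (b + 1)))) hzz
    rw [← CC.eq H hprod]
    have h8 : a * (a + 1) + b * (b + 1) + (a * b + a * b) = (a + b) * (a + b + 1) := by ring
    rw [h8]
    exact CC.self _

theorem data : Data ℤ t 1 (fun x => x ∈ (S : Set G) ∧ Pw M N x t)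
    (fun x y => x * y⁻¹ ∈ (N : Set G))
    (fun x y z => x * y * z⁻¹ ∈ (N : Set G)) (Ml S M N t) (fun x a => CC N t a x) where
  hc := one_pos
  dom x hx := (Dom_iff H x).1 hx
  eq x y a b _ _ ha hb := by
    constructor
    · intro h
      exact CC.unique H ha ((CC.eq H hb).2 h)
    · rintro rfl
      exact (CC.eq H hb).1 ha
  fn x a b _ ha hb := CC.unique H ha hb
  dom_pow k := (Dom_iff H _).2 ⟨(k : ℤ), by rw [← zpow_natCast]; exact CC.self _⟩
  V_pow k := by
    rw [one_mul, ← zpow_natCast]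
    exact CC.self _
  add x y z a b c _ _ _ ha hb hc h := by
    exact CC.unique H ((CC.eq H hc).2 h |> fun h' => CC.mul H ha hb) ((CC.eq H hc).2 h)
  add_pow i j := by
    show t ^ i * t ^ j * (t ^ (i + j))⁻¹ ∈ N
    rw [← pow_add, mul_inv_cancel]
    exact N.one_mem
  mul x y z a b c _ _ _ ha hb hc h := by
    rw [Nat.cast_one, one_mul]
    exact (Ml_iff H ha hb hc).1 h
  mul_pow i j := by
    have h1 := CC.self (N := N) (t := t) (i : ℤ)
    have h2 := CC.self (N := N) (t := t) (j : ℤ)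
    have h3 := CC.self (N := N) (t := t) ((i * j : ℕ) : ℤ)
    rw [zpow_natCast] at h1 h2 h3
    exact (Ml_iff H h1 h2 h3).2 (by push_cast; ring)

theorem main (hS : DefinableSet (S : Set G)) (hM : DefinableSet (M : Set G))
    (hN : DefinableSet (N : Set G)) : Undec G := by
  refine Crit.main (data H) ?_ ?_ ?_ (def_Ml t hS hM hN)
  · exact (DefinableSet.df hS (Tm.var 0)).and ((def_Pw hM hN).sub (Tm.var 0) (Tm.const t))
  · exact DefinableSet.df hN ((Tm.var 0).mul (Tm.var 1).inv)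
  · exact DefinableSet.df hN (((Tm.var 0).mul (Tm.var 1)).mul (Tm.var 2).inv)

end sem

end Pool.Agent.Helper657_nd.PowC
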