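import Pool.Agent.Helper657_nd.FreeL
import Pool.Agent.Helper657_nd.PowC

set_option autoImplicit false

/-!
# The power criterion with small centralizers

Let `N` be a definable normal subgroup of a definable subgroup `S` and let `t` be an element of
`S` of infinite order modulo `N`. If for all `k > 0` the coset `t ^ k N` contains an element whose
centralizer in `S` is contained in the union of the cosets of the powers of `t ^ k`, then
`(ℤ, +, ∣)` is interpretable.
-/

namespace Pool.Agent.Helper657_nd.PowD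

open PowC

theorem main {G : Type} [Group G] (S N : Subgroup G) (hS : DefinableSet (S : Set G))
    (hN : DefinableSet (N : Set G)) (hNS : N ≤ S)
    (hn : ∀ s ∈ S, ∀ x ∈ N, s * x * s⁻¹ ∈ N) (t : G) (ht : t ∈ S)
    (hinf : ∀ k : ℕ, 0 < k → t ^ k ∉ N)
    (hc : ∀ k : ℕ, 0 < k → ∃ g, g * (t ^ k)⁻¹ ∈ N ∧
      ∀ y ∈ S, y * g = g * y → ∃ j : ℤ, y * (t ^ ((k : ℤ) * j))⁻¹ ∈ N) :
    Undec G := by
  have hb : DefinableSet ((⊥ : Subgroup G) : Set G) := by
    apply Df.definableSet
    refine (Df.eq (Tm.var 0) (Tm.const (1 : G))).congr fun s => ?_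
    rw [SetLike.mem_coe, Subgroup.mem_bot]
  refine PowC.main (S := S) (M := ⊥) (N := N) (t := t) ⟨hNS, ht, fun s _ x hx => ?_, hn, hinf,
    fun k hk x hxS hx => ?_⟩ hS hb hN
  · rw [Subgroup.mem_bot] at hx ⊢
    rw [hx, mul_one, mul_inv_cancel]
  · obtain ⟨g, hg, hgc⟩ := hc k hk
    obtain ⟨y, hy1, hy2⟩ := hx g hg
    have hyS : y ∈ S := by
      have := S.mul_mem (hNS hy1) hxS
      rwa [inv_mul_cancel_right] at this
    have hcomm : y * g = g * y := by
      rw [SetLike.mem_coe, Subgroup.mem_bot, mul_inv_eq_one] at hy2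
      exact hy2
    obtain ⟨j, hj⟩ := hgc y hyS hcomm
    refine ⟨j, ?_⟩
    have h1 := N.mul_mem (N.inv_mem hy1) hj
    have h2 : (y * x⁻¹)⁻¹ * (y * (t ^ ((k : ℤ) * j))⁻¹) = x * (t ^ ((k : ℤ) * j))⁻¹ := by group
    rwa [h2] at h1

end Pool.Agent.Helper657_nd.PowD
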