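import Pool.Agent.Helper657_nd.Tens

set_option autoImplicit false

/-!
# Rings generated by commuting endomorphisms of Noetherian modules
-/

namespace Pool.Agent.Helper657_nd.Noeth

open scoped IsMulCommutative in
theorem exists_P (R₁ N : Type) [CommRing R₁] [AddCommGroup N] [Module R₁ N]
    [Algebra.FiniteType ℤ R₁] [Module.Finite R₁ N] (s : Set (Module.End R₁ N))
    (hc : ∀ a ∈ s, ∀ b ∈ s, a * b = b * a) :
    ∃ (P : Type) (_ : CommRing P) (_ : Module P N) (_ : Algebra.FiniteType ℤ P)
      (_ : Module.Finite P N) (e : P →+* Module.End R₁ N), (∀ r n, r • n = e r n) ∧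
      Function.Injective e ∧ (∀ φ ∈ Subring.closure s, ∃ r, e r = φ) := by
  have hnoeth : IsNoetherianRing R₁ := Algebra.FiniteType.isNoetherianRing ℤ R₁
  have i1 := Algebra.isMulCommutative_adjoin R₁ hc
  let P := Algebra.adjoin R₁ s
  have i5 : Module.Finite R₁ P :=
    Module.Finite.of_injective P.val.toLinearMap Subtype.val_injective
  have i7 : Algebra.FiniteType R₁ P := inferInstance
  have i8 := ft_of_any P _ (Algebra.FiniteType.trans (R := ℤ) (S := R₁) (A := P) inferInstance i7)
  have i9 : Module.Finite P N := Module.Finite.of_restrictScalars_finite R₁ P N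
  refine ⟨P, inferInstance, inferInstance, i8, i9, P.val.toRingHom, fun r n => rfl,
    Subtype.val_injective, fun φ hφ => ?_⟩
  have hle : Subring.closure s ≤ P.toSubring := by
    rw [Subring.closure_le]
    exact Algebra.subset_adjoin
  exact ⟨⟨φ, hle hφ⟩, rfl⟩

theorem exists_rings (R₁ N : Type) [CommRing R₁] [AddCommGroup N] [Module R₁ N]
    [Algebra.FiniteType ℤ R₁] [Module.Finite R₁ N] (s : Set (Module.End R₁ N))
    (hc : ∀ a ∈ s, ∀ b ∈ s, a * b = b * a) :
    ∃ (P R : Type) (_ : CommRing P) (_ : CommRing R) (_ : Algebra R P) (_ : Module P N)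
      (_ : Module R N) (_ : IsScalarTower R P N) (_ : Algebra.FiniteType ℤ P)
      (_ : Module.Finite P N) (e : R →+* Module.End R₁ N), (∀ r n, r • n = e r n) ∧
      Function.Injective e ∧ (∀ r, e r ∈ Subring.closure s) ∧
      (∀ φ ∈ Subring.closure s, ∃ r, e r = φ) := by
  obtain ⟨P, i1, i2, i3, i4, e, he, hinj, hcl⟩ := exists_P R₁ N s hc
  let R : Subring P := (Subring.closure s).comap e
  have hR : ∀ p : P, p ∈ R ↔ e p ∈ Subring.closure s := fun p => Iff.rfl
  refine ⟨P, R, i1, inferInstance, inferInstance, i2, inferInstance, inferInstance, i3, i4,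
    e.comp R.subtype, fun r n => he r n, ?_, fun r => (hR r).1 r.2, fun φ hφ => ?_⟩
  · intro a b hab
    exact Subtype.ext (hinj hab)
  · obtain ⟨r, hr⟩ := hcl φ hφ
    exact ⟨⟨r, (hR r).2 (hr ▸ hφ)⟩, hr⟩

end Pool.Agent.Helper657_nd.Noeth
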