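import Mathlib

set_option autoImplicit false

/-!
# Monic polynomials with values of bounded size away from finitely many primes
-/

namespace Pool.Agent.Helper657_nd.Seg

open Polynomial

/-- the product of all differences -/
noncomputable def Del (I : Finset ℤ) : ℤ := ∏ x ∈ I, ∏ y ∈ I.erase x, (x - y)

theorem Del_ne_zero (I : Finset ℤ) : Del I ≠ 0 := by
  unfold Del
  rw [Finset.prod_ne_zero_iff]
  intro x _
  rw [Finset.prod_ne_zero_iff]
  intro y hy
  rw [Finset.mem_erase] at hy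
  exact sub_ne_zero.2 hy.1.symm

theorem interp_dvd (I : Finset ℤ) (P : ℤ[X]) (hdeg : P.degree < I.card) (m : ℤ)
    (h : ∀ x ∈ I, m ∣ P.eval x) : C m ∣ C (Del I) * P := by
  classical
  let D : ℤ → ℤ := fun x => ∏ z ∈ I.erase x, ∏ y ∈ I.erase z, (z - y)
  let L : ℤ → ℤ[X] := fun x => ∏ y ∈ I.erase x, (X - C y)
  have hD : ∀ x ∈ I, D x * ∏ y ∈ I.erase x, (x - y) = Del I := by
    intro x hx
    show (∏ z ∈ I.erase x, ∏ y ∈ I.erase z, (z - y)) * _ = _
    rw [mul_comm]
    exact Finset.mul_prod_erase I (fun z => ∏ y ∈ I.erase z, (z - y)) hx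
  have hL1 : ∀ x ∈ I, (L x).eval x = ∏ y ∈ I.erase x, (x - y) := by
    intro x _
    simp [L, eval_prod]
  have hL2 : ∀ x ∈ I, ∀ z ∈ I, z ≠ x → (L x).eval z = 0 := by
    intro x _ z hz hzx
    simp only [L, eval_prod]
    apply Finset.prod_eq_zero (Finset.mem_erase.2 ⟨hzx, hz⟩)
    simp
  have hLdeg : ∀ x ∈ I, (L x).degree < I.card := by
    intro x hx
    have h1 : (L x).degree = ((I.erase x).card : ℕ) := by
      show (∏ y ∈ I.erase x, (X - C y)).degree = _
      rw [degree_prod, Finset.sum_congr rfl fun y _ => degree_X_sub_C y]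
      simp
    rw [h1, Finset.card_erase_of_mem hx]
    have := Finset.card_pos.2 ⟨x, hx⟩
    exact_mod_cast (by omega : I.card - 1 < I.card)
  have hCdeg : ∀ (a : ℤ) (q : ℤ[X]), (C a * q).degree ≤ q.degree := by
    intro a q
    rw [← smul_eq_C_mul]
    exact degree_smul_le a q
  let Q : ℤ[X] := ∑ x ∈ I, C (P.eval x * D x) * L x
  have hQ : Q = C (Del I) * P := by
    rw [← sub_eq_zero]
    apply eq_zero_of_degree_lt_of_eval_finset_eq_zero I
    · refine lt_of_le_of_lt (degree_sub_le _ _) (max_lt ?_ ?_)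
      · refine lt_of_le_of_lt (degree_sum_le _ _) ?_
        rw [Finset.sup_lt_iff (WithBot.bot_lt_coe _)]
        intro x hx
        exact lt_of_le_of_lt (hCdeg _ _) (hLdeg x hx)
      · exact lt_of_le_of_lt (hCdeg _ _) hdeg
    · intro z hz
      rw [eval_sub, eval_mul, eval_C, eval_finsetSum]
      rw [Finset.sum_eq_single z]
      · rw [eval_mul, eval_C, hL1 z hz, mul_assoc, hD z hz]
        ring
      · intro x hx hxz
        rw [eval_mul, hL2 x hx z hz hxz.symm, mul_zero]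
      · intro hz'
        exact absurd hz hz'
  rw [← hQ]
  apply Finset.dvd_sum
  intro x hx
  rw [C_mul]
  exact Dvd.dvd.mul_right (Dvd.dvd.mul_right (map_dvd C (h x hx)) _) _

theorem finite_interp (I : Finset ℤ) (T : Set ℤ) (hT : T.Finite) :
    {P : ℤ[X] | P.degree < I.card ∧ ∀ x ∈ I, P.eval x ∈ T}.Finite := by
  classical
  let v : ℤ[X] → (I → ℤ) := fun P x => P.eval (x : ℤ)
  have hfin : (Set.pi Set.univ fun _ : I => T).Finite := Set.Finite.pi fun _ => hT
  refine Set.Finite.of_finite_image (f := v) (hfin.subset ?_) ?_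
  · rintro _ ⟨P, hP, rfl⟩ x _
    exact hP.2 x x.2
  · intro P hP Q hQ h
    exact eq_of_degrees_lt_of_eval_finset_eq I hP.1 hQ.1 fun x hx => congrFun h ⟨x, hx⟩

theorem finite_dvd (n : ℤ) (hn : n ≠ 0) : {k : ℤ | k ∣ n}.Finite := by
  refine (Set.finite_Icc (-|n|) |n|).subset fun k hk => ?_
  rw [Set.mem_Icc]
  have h1 := Int.le_of_dvd (abs_pos.2 hn) ((dvd_abs k n).2 hk)
  have h2 := Int.le_of_dvd (abs_pos.2 hn) (neg_dvd.2 ((dvd_abs k n).2 hk))
  omega

/-- `q` is a fraction whose denominator divides a power of `s` -/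
def Zs (s : ℕ) (q : ℚ) : Prop := ∃ (k : ℕ) (n : ℤ), q * (s : ℚ) ^ k = n

theorem nat_dvd_of (s E m n H : ℕ) (hs : s ≠ 0) (hn : n ≠ 0) (hH : H ≠ 0)
    (h : n ∣ s ^ m * H) (hp : ∀ p ∈ s.primeFactors, ¬ p ^ E ∣ n) : n ∣ s ^ E * H := by
  have h0 : s ^ E * H ≠ 0 := mul_ne_zero (pow_ne_zero _ hs) hH
  rw [← Nat.factorization_prime_le_iff_dvd hn h0]
  intro q hq
  rw [Nat.factorization_mul (pow_ne_zero _ hs) hH, Nat.factorization_pow]
  simp only [Finsupp.add_apply, Finsupp.smul_apply, smul_eq_mul]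
  by_cases hqs : q ∣ s
  · have h1 : n.factorization q < E := by
      by_contra hcon
      push Not at hcon
      apply hp q (Nat.mem_primeFactors.2 ⟨hq, hqs, hs⟩)
      exact (hq.pow_dvd_iff_le_factorization hn).2 hcon
    have h2 : 0 < s.factorization q := hq.factorization_pos_of_dvd hs hqs
    nlinarith
  · have h1 : s.factorization q = 0 := Nat.factorization_eq_zero_of_not_dvd hqs
    have h2 := (Nat.factorization_prime_le_iff_dvd hn (mul_ne_zero (pow_ne_zero _ hs) hH)).2 h q hq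
    rw [Nat.factorization_mul (pow_ne_zero _ hs) hH, Nat.factorization_pow] at h2
    simp only [Finsupp.add_apply, Finsupp.smul_apply, smul_eq_mul] at h2
    rw [h1] at h2 ⊢
    omega

theorem finite_poly (s d : ℕ) (hs : 0 < s) (H : ℤ) (hH : H ≠ 0) (c : ℕ) (hc : 0 < c) (K : ℕ)
    (hK : (s.primeFactors.card + 1) * d + 1 ≤ K) :
    {P : ℚ[X] | P.Monic ∧ P.natDegree = d ∧ (∀ i, Zs s (P.coeff i)) ∧
      ∀ i < K, ∃ w, Zs s w ∧ P.eval ((c * i : ℕ) : ℚ) * w = H}.Finite := by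
  classical
  let node : ℕ → ℤ := fun i => ((c * i : ℕ) : ℤ)
  have hnode : Function.Injective node := by
    intro i j hij
    have : c * i = c * j := Int.ofNat_inj.1 hij
    exact Nat.eq_of_mul_eq_mul_left hc this
  let Nd : Finset ℤ := (Finset.range K).image node
  have hNd : Nd.card = K := by
    rw [Finset.card_image_of_injective _ hnode, Finset.card_range]
  let 𝓘 := Finset.powersetCard (d + 1) Nd
  let E : ℕ := ∑ I ∈ 𝓘, (Del I).natAbs
  have hE : ∀ I ∈ 𝓘, (Del I).natAbs < 2 ^ E := by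
    intro I hI
    refine lt_of_le_of_lt ?_ (Nat.lt_two_pow_self (n := E))
    exact Finset.single_le_sum (f := fun I => (Del I).natAbs) (fun _ _ => Nat.zero_le _) hI
  let T : Set ℤ := {k : ℤ | k ∣ (s : ℤ) ^ E * H}
  have hs0 : (s : ℤ) ≠ 0 := by exact_mod_cast hs.ne'
  have hT : T.Finite := finite_dvd _ (mul_ne_zero (pow_ne_zero _ hs0) hH)
  let 𝒬 : Set ℤ[X] := ⋃ I ∈ (𝓘 : Set (Finset ℤ)),
    {Q : ℤ[X] | Q.degree < I.card ∧ ∀ x ∈ I, Q.eval x ∈ T}
  have h𝒬 : 𝒬.Finite := Set.Finite.biUnion (Finset.finite_toSet _) fun I _ => finite_interp I T hT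
  refine (h𝒬.image fun Q : ℤ[X] => C ((Q.leadingCoeff : ℚ)⁻¹) * Q.map (Int.castRingHom ℚ)).subset ?_
  rintro P ⟨hmon, hdeg, hcoef, hval⟩
  -- an integral multiple
  choose k n hkn using hcoef
  let kk := ∑ i ∈ Finset.range (d + 1), k i
  have hkk : ∀ i, i ≤ d → k i ≤ kk := fun i hi =>
    Finset.single_le_sum (f := k) (fun _ _ => Nat.zero_le _) (Finset.mem_range.2 (by omega))
  obtain ⟨P₁, hP₁⟩ : ∃ P₁ : ℤ[X], P₁.map (Int.castRingHom ℚ) = C ((s : ℚ) ^ kk) * P := by
    have h1 : C ((s : ℚ) ^ kk) * P ∈ Polynomial.lifts (Int.castRingHom ℚ) := by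
      rw [Polynomial.lifts_iff_coeff_lifts]
      intro i
      rw [coeff_C_mul]
      by_cases hi : i ≤ d
      · refine ⟨n i * s ^ (kk - k i), ?_⟩
        have h2 : (s : ℚ) ^ kk = (s : ℚ) ^ k i * (s : ℚ) ^ (kk - k i) := by
          rw [← pow_add]
          congr 1
          have := hkk i hi
          omega
        rw [h2]
        simp only [eq_intCast, Int.cast_mul, Int.cast_pow, Int.cast_natCast]
        rw [← hkn i]
        ring
      · refine ⟨0, ?_⟩
        rw [coeff_eq_zero_of_natDegree_lt (by omega)]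
        simp
    obtain ⟨Q, hQ⟩ := (Polynomial.mem_lifts _).1 h1
    exact ⟨Q, hQ⟩
  have hsQ : (s : ℚ) ≠ 0 := by exact_mod_cast hs.ne'
  have hP₁0 : P₁ ≠ 0 := by
    intro h0
    rw [h0, Polynomial.map_zero] at hP₁
    have h1 : C ((s : ℚ) ^ kk) * P ≠ 0 :=
      mul_ne_zero (by rw [Ne, C_eq_zero]; exact pow_ne_zero _ hsQ) hmon.ne_zero
    exact h1 hP₁.symm
  let g := P₁.content
  have hg : g ≠ 0 := by rwa [Ne, content_eq_zero_iff]
  let Pt := P₁.primPart
  have hPt : Pt.IsPrimitive := isPrimitive_primPart P₁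
  have hfac : P₁ = C g * Pt := P₁.eq_C_content_mul_primPart
  have hmap : C (g : ℚ) * Pt.map (Int.castRingHom ℚ) = C ((s : ℚ) ^ kk) * P := by
    rw [← hP₁]
    conv_rhs => rw [hfac]
    simp
  have hgQ : (g : ℚ) ≠ 0 := by exact_mod_cast hg
  have hPtdeg : Pt.natDegree = d := by
    have h1 := congrArg natDegree hmap
    rw [natDegree_C_mul hgQ, natDegree_C_mul (pow_ne_zero _ hsQ), hdeg,
      natDegree_map_eq_of_injective (Int.castRingHom ℚ).injective_int] at h1
    exact h1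
  have hPt0 : Pt ≠ 0 := by
    intro h0
    rw [h0, mul_zero] at hfac
    exact hP₁0 hfac
  have hPtdeg' : Pt.degree < ((d + 1 : ℕ) : WithBot ℕ) := by
    rw [degree_eq_natDegree hPt0, hPtdeg]
    exact_mod_cast Nat.lt_succ_self d
  have heval : ∀ x : ℤ, (g : ℚ) * (Pt.eval x : ℤ) = (s : ℚ) ^ kk * P.eval (x : ℚ) := by
    intro x
    have h1 := congrArg (eval (x : ℚ)) hmap
    rw [eval_mul, eval_C, eval_mul, eval_C] at h1
    rw [← h1]
    congr 1
    have h2 := Polynomial.eval_intCast_map (Int.castRingHom ℚ) Pt x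
    exact h2.symm
  have hdvd : ∀ i < K, ∃ m : ℕ, Pt.eval (node i) ∣ (s : ℤ) ^ m * H := by
    intro i hi
    obtain ⟨w, ⟨l, u, hu⟩, hw⟩ := hval i hi
    refine ⟨kk + l, g * u, ?_⟩
    have h1 := heval (node i)
    have h2 : ((node i : ℤ) : ℚ) = ((c * i : ℕ) : ℚ) := by simp [node]
    rw [h2] at h1
    have h3 : (((s : ℤ) ^ (kk + l) * H : ℤ) : ℚ) = ((Pt.eval (node i) * (g * u) : ℤ) : ℚ) := by
      push_cast
      rw [← hu, ← hw, pow_add]
      linear_combination (-(w * (s : ℚ) ^ l)) * h1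
    exact_mod_cast h3
  have hne : ∀ i < K, Pt.eval (node i) ≠ 0 := by
    intro i hi h0
    obtain ⟨m, hm⟩ := hdvd i hi
    rw [h0, zero_dvd_iff] at hm
    exact (mul_ne_zero (pow_ne_zero _ hs0) hH) hm
  -- bad nodes
  let Bad : ℕ → Finset ℤ := fun p => Nd.filter fun x => ((p : ℤ) ^ E) ∣ Pt.eval x
  have hBad : ∀ p ∈ s.primeFactors, (Bad p).card ≤ d := by
    intro p hp
    by_contra hcon
    push Not at hcon
    obtain ⟨I, hIsub, hIcard⟩ := Finset.exists_subset_card_eq (show d + 1 ≤ (Bad p).card by omega)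
    have hI𝓘 : I ∈ 𝓘 := Finset.mem_powersetCard.2 ⟨hIsub.trans (Finset.filter_subset _ _), hIcard⟩
    have h1 : C ((p : ℤ) ^ E) ∣ C (Del I) * Pt := by
      apply interp_dvd
      · rw [hIcard]
        exact hPtdeg'
      · intro x hx
        exact (Finset.mem_filter.1 (hIsub hx)).2
    rw [← dvd_content_iff_C_dvd, content_C_mul, hPt.content_eq_one, mul_one] at h1
    have h2 : (p : ℤ) ^ E ∣ Del I := dvd_normalize_iff.1 h1
    have h3 : p ^ E ∣ (Del I).natAbs := by
      have := Int.natAbs_dvd_natAbs.2 h2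
      rwa [Int.natAbs_pow, Int.natAbs_natCast] at this
    have h4 := Nat.le_of_dvd (Int.natAbs_pos.2 (Del_ne_zero I)) h3
    have h5 := hE I hI𝓘
    have h6 : 2 ^ E ≤ p ^ E := Nat.pow_le_pow_left (Nat.prime_of_mem_primeFactors hp).two_le E
    omega
  let Good : Finset ℤ := Nd \ s.primeFactors.biUnion Bad
  have hGood : d + 1 ≤ Good.card := by
    have h1 : (s.primeFactors.biUnion Bad).card ≤ s.primeFactors.card * d :=
      Finset.card_biUnion_le_card_mul _ _ _ hBad
    have h2 := Finset.le_card_sdiff (s.primeFactors.biUnion Bad) Nd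
    rw [hNd] at h2
    have h3 : (s.primeFactors.card + 1) * d = s.primeFactors.card * d + d := by ring
    show d + 1 ≤ (Nd \ s.primeFactors.biUnion Bad).card
    omega
  obtain ⟨I, hIsub, hIcard⟩ := Finset.exists_subset_card_eq hGood
  refine ⟨Pt, ?_, ?_⟩
  · refine Set.mem_biUnion (x := I) ?_ ⟨?_, ?_⟩
    · exact Finset.mem_powersetCard.2 ⟨hIsub.trans Finset.sdiff_subset, hIcard⟩
    · rw [hIcard]
      exact hPtdeg'
    · intro x hx
      have hxG := Finset.mem_sdiff.1 (hIsub hx)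
      obtain ⟨i, hi, rfl⟩ := Finset.mem_image.1 hxG.1
      rw [Finset.mem_range] at hi
      obtain ⟨m, hm⟩ := hdvd i hi
      show Pt.eval (node i) ∣ (s : ℤ) ^ E * H
      rw [← Int.natAbs_dvd_natAbs, Int.natAbs_mul, Int.natAbs_pow, Int.natAbs_natCast] at hm ⊢
      refine nat_dvd_of s E m _ _ hs.ne' (Int.natAbs_ne_zero.2 (hne i hi))
        (Int.natAbs_ne_zero.2 hH) hm ?_
      intro p hp hcon
      apply hxG.2
      rw [Finset.mem_biUnion]
      refine ⟨p, hp, Finset.mem_filter.2 ⟨hxG.1, ?_⟩⟩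
      rw [← Int.natAbs_dvd_natAbs, Int.natAbs_pow, Int.natAbs_natCast]
      exact hcon
  · -- recover `P`
    show C ((Pt.leadingCoeff : ℚ)⁻¹) * Pt.map (Int.castRingHom ℚ) = P
    have hlc : (Pt.leadingCoeff : ℚ) ≠ 0 := by
      rw [Ne, Int.cast_eq_zero, leadingCoeff_eq_zero]
      exact hPt0
    have h1 : (g : ℚ) * Pt.leadingCoeff = (s : ℚ) ^ kk := by
      have h2 := congrArg (fun q : ℚ[X] => q.coeff d) hmap
      simp only [coeff_C_mul, coeff_map] at h2
      have h3 : P.coeff d = 1 := by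
        rw [← hdeg]
        exact hmon.coeff_natDegree
      rw [h3, mul_one] at h2
      rw [leadingCoeff, hPtdeg]
      simpa using h2
    have h4 : C (g : ℚ) * (C ((Pt.leadingCoeff : ℚ)⁻¹) * Pt.map (Int.castRingHom ℚ)) =
        C (g : ℚ) * P := by
      rw [mul_left_comm, hmap, ← h1, C_mul, mul_assoc, mul_left_comm, ← mul_assoc (C _) (C _) P,
        ← C_mul, inv_mul_cancel₀ hlc, C_1, one_mul]
    exact mul_left_cancel₀ (by rwa [Ne, C_eq_zero]) h4

end Pool.Agent.Helper657_nd.Seg
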