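import Pool.Agent.Helper657_nd.FreeQ

set_option autoImplicit false

/-!
# Full subdirect products of free groups
-/

namespace Pool.Agent.Helper657_nd.FreeL

section free
variable {F : Type} [Group F] [IsFreeGroup F]

/-- no torsion -/
theorem pow_ne_one' {x : F} (hx : x ≠ 1) {n : ℕ} (hn : 0 < n) : x ^ n ≠ 1 := by
  intro h
  let e := IsFreeGroup.toFreeGroup F
  have h1 : e x ^ n = 1 := by rw [← map_pow, h, map_one]
  have h2 : e x ≠ 1 := fun h' => hx ((map_eq_one_iff e e.injective).1 h')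
  exact h2 ((pow_eq_one_iff_left hn.ne').1 h1)

/-- commuting is transitive on non-trivial elements -/
theorem comm_trans {x y z : F} (hy : y ≠ 1) (h1 : x * y = y * x) (h2 : z * y = y * z) :
    x * z = z * x := by
  obtain ⟨w, hw⟩ := centralizer_cyclic y hy
  obtain ⟨k, rfl⟩ := hw x h1
  obtain ⟨l, rfl⟩ := hw z h2
  rw [← zpow_add, ← zpow_add, add_comm]

theorem not_comm_conj {x n : F} (hn : n ≠ 1) (h : x * n ≠ n * x) :
    (x * n * x⁻¹) * n ≠ n * (x * n * x⁻¹) := by
  intro h1
  obtain ⟨z, hz⟩ := centralizer_cyclic n hn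
  obtain ⟨k, hk⟩ := hz n rfl
  have hxn : x * n * x⁻¹ ≠ 1 := by
    intro h2
    apply hn
    have h3 : n = x⁻¹ * (x * n * x⁻¹) * x := by group
    rw [h3, h2, mul_one, inv_mul_cancel]
  have hzn : z * n = n * z := by
    conv_lhs => rw [hk]
    conv_rhs => rw [hk]
    rw [← zpow_one_add, ← zpow_add_one, add_comm]
  -- `x z x⁻¹` commutes with `x n x⁻¹` and hence with `n`
  have h2 : (x * z * x⁻¹) * (x * n * x⁻¹) = (x * n * x⁻¹) * (x * z * x⁻¹) := by
    calc (x * z * x⁻¹) * (x * n * x⁻¹) = x * (z * n) * x⁻¹ := by group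
      _ = x * (n * z) * x⁻¹ := by rw [hzn]
      _ = _ := by group
  have h3 : (x * z * x⁻¹) * n = n * (x * z * x⁻¹) := comm_trans hxn h2 h1.symm
  obtain ⟨l, hl⟩ := hz _ h3
  have h4 : (x⁻¹ * z * x) * n = n * (x⁻¹ * z * x) := by
    have h5 : (x⁻¹ * n * x) * n = n * (x⁻¹ * n * x) := by
      have h6 := congrArg (fun u => x⁻¹ * u * x) h1
      beta_reduce at h6
      have h7 : x⁻¹ * ((x * n * x⁻¹) * n) * x = n * (x⁻¹ * n * x) := by group
      have h8 : x⁻¹ * (n * (x * n * x⁻¹)) * x = (x⁻¹ * n * x) * n := by group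
      rw [h7, h8] at h6
      exact h6.symm
    have hxn' : x⁻¹ * n * x ≠ 1 := by
      intro h2
      apply hn
      have h3 : n = x * (x⁻¹ * n * x) * x⁻¹ := by group
      rw [h3, h2, mul_one, mul_inv_cancel]
    refine comm_trans hxn' ?_ h5.symm
    calc (x⁻¹ * z * x) * (x⁻¹ * n * x) = x⁻¹ * (z * n) * x := by group
      _ = x⁻¹ * (n * z) * x := by rw [hzn]
      _ = _ := by group
  obtain ⟨m, hm⟩ := hz _ h4
  have hz1 : z ≠ 1 := by
    rintro rfl
    rw [one_zpow] at hk
    exact hn hk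
  -- `l * m = 1`
  have h5 : z ^ (l * m) = z := by
    have h6 : x * z ^ m * x⁻¹ = z := by
      rw [← hm]
      group
    have h7 : x * z ^ m * x⁻¹ = (x * z * x⁻¹) ^ m := by rw [conj_zpow]
    rw [h7, hl, ← zpow_mul] at h6
    exact h6
  have h6 : l * m = 1 := by
    by_contra hne
    have h7 : z ^ (l * m - 1) = 1 := by
      rw [zpow_sub_one, h5, mul_inv_cancel]
    rcases Int.eq_nat_or_neg (l * m - 1) with ⟨c, hc | hc⟩
    · rw [hc, zpow_natCast] at h7
      exact pow_ne_one' hz1 (by omega) h7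
    · rw [hc, zpow_neg, inv_eq_one, zpow_natCast] at h7
      exact pow_ne_one' hz1 (by omega) h7
  rcases Int.isUnit_iff.1 (isUnit_iff_exists_inv.2 ⟨m, h6⟩) with hl1 | hl1
  · rw [hl1, zpow_one] at hl
    apply h
    have h8 : x * z = z * x := by
      calc x * z = (x * z * x⁻¹) * x := by group
        _ = z * x := by rw [hl]
    have h9 : Commute x z := h8
    rw [hk]
    exact (h9.zpow_right k).eq
  · rw [hl1, zpow_neg_one] at hl
    -- `x ^ 2` commutes with `z`
    have hx1 : x ≠ 1 := by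
      rintro rfl
      apply h
      rw [one_mul, mul_one]
    have hx2 : x ^ 2 ≠ 1 := pow_ne_one' hx1 (by norm_num)
    have h8 : z * x ^ 2 = x ^ 2 * z := by
      have h9 : x ^ 2 * z * (x ^ 2)⁻¹ = z := by
        calc x ^ 2 * z * (x ^ 2)⁻¹ = x * (x * z * x⁻¹) * x⁻¹ := by rw [pow_two]; group
          _ = (x * z * x⁻¹)⁻¹ := by rw [hl, ← conj_inv, hl]
          _ = z := by rw [hl, inv_inv]
      rw [mul_inv_eq_iff_eq_mul] at h9
      exact h9.symm
    have h9 : x * z = z * x := by
      apply comm_trans hx2 _ h8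
      rw [← pow_succ, ← pow_succ']
    apply h
    have h10 : Commute x z := h9
    rw [hk]
    exact (h10.zpow_right k).eq

end free

/-- Full subdirect products of non-abelian free groups. -/
theorem subdirect {G ι : Type} [Group G] (F : ι → Type) [∀ i, Group (F i)]
    [∀ i, IsFreeGroup (F i)] (p : ∀ i, G →* F i) (hinj : ∀ g, (∀ i, p i g = 1) → g = 1)
    (hna : ∀ i, ∃ a b, p i a * p i b ≠ p i b * p i a)
    (hfull : ∀ i, ∃ g, p i g ≠ 1 ∧ ∀ j, j ≠ i → p j g = 1) (i : ι) (t : G)
    (ht : ∀ k : ℕ, 0 < k → ∀ g, (∀ j, j ≠ i → p j g = 1) → p i g ≠ p i t ^ k) : Undec G := by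
  classical
  -- non-commuting elements in the factor
  have key : ∀ i, ∃ n x : G, (∀ j, j ≠ i → p j n = 1) ∧ (∀ j, j ≠ i → p j (x * n * x⁻¹) = 1) ∧
      p i (x * n * x⁻¹) * p i n ≠ p i n * p i (x * n * x⁻¹) := by
    intro i
    obtain ⟨n, hn, hn'⟩ := hfull i
    obtain ⟨x, hx⟩ : ∃ x, p i x * p i n ≠ p i n * p i x := by
      by_contra hcon
      push Not at hcon
      obtain ⟨a, b, hab⟩ := hna i
      exact hab (comm_trans hn (hcon a) (hcon b))
    refine ⟨n, x, hn', fun j hj => ?_, ?_⟩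
    · rw [map_mul, map_mul, map_inv, hn' j hj, mul_one, mul_inv_cancel]
    · rw [map_mul, map_mul, map_inv]
      exact not_comm_conj hn hx
  -- the kernel of `p i`
  have hkerd : DefinableSet (((p i).ker : Subgroup G) : Set G) := by
    obtain ⟨n, x, hn, hx, hne⟩ := key i
    apply Df.definableSet
    have h1 : Df fun s : ℕ → G => s 0 * n = n * s 0 ∧ s 0 * (x * n * x⁻¹) = (x * n * x⁻¹) * s 0 :=
      (Df.eq ((Tm.var 0).mul (Tm.const _)) ((Tm.const _).mul (Tm.var 0))).and
        (Df.eq ((Tm.var 0).mul (Tm.const _)) ((Tm.const _).mul (Tm.var 0)))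
    refine h1.congr fun s => ?_
    rw [SetLike.mem_coe, MonoidHom.mem_ker]
    have hcomm : ∀ y m : G, (∀ j, j ≠ i → p j m = 1) → p i y = 1 → y * m = m * y := by
      intro y m hm hy
      have h2 : y * m * (m * y)⁻¹ = 1 := by
        apply hinj
        intro j
        rw [map_mul, map_inv, map_mul, map_mul]
        by_cases hj : j = i
        · subst hj
          rw [hy, one_mul, mul_one, mul_inv_cancel]
        · rw [hm j hj, one_mul, mul_one, mul_inv_cancel]
      rwa [mul_inv_eq_one] at h2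
    constructor
    · intro h
      exact ⟨hcomm _ _ hn h, hcomm _ _ hx h⟩
    · rintro ⟨h2, h3⟩
      by_contra hne1
      apply hne
      have h4 := congrArg (p i) h2
      have h5 := congrArg (p i) h3
      rw [map_mul, map_mul] at h4
      rw [map_mul (p i) (s 0), map_mul (p i) (x * n * x⁻¹) (s 0)] at h5
      exact comm_trans hne1 h5.symm h4.symm
  -- the `i`-th factor
  let A : Subgroup G := ⨅ j : {j : ι // j ≠ i}, (p j).ker
  have memA : ∀ g, g ∈ A ↔ ∀ j, j ≠ i → p j g = 1 := by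
    intro g
    rw [Subgroup.mem_iInf]
    constructor
    · intro h j hj
      exact h ⟨j, hj⟩
    · rintro h ⟨j, hj⟩
      exact h j hj
  have hAd : DefinableSet (A : Set G) := by
    apply Df.definableSet
    have h1 : Df fun s : ℕ → G => ∀ y, y ∈ (((p i).ker : Subgroup G) : Set G) →
        s 0 * y = y * s 0 := by
      apply Df.uni (R := fun y s => y ∈ (((p i).ker : Subgroup G) : Set G) → s 0 * y = y * s 0)
      exact (DefinableSet.df hkerd (Tm.var 0)).imp
        (Df.eq ((Tm.var 1).mul (Tm.var 0)) ((Tm.var 0).mul (Tm.var 1)))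
    refine h1.congr fun s => ?_
    rw [SetLike.mem_coe, memA]
    constructor
    · intro h y hy
      rw [SetLike.mem_coe, MonoidHom.mem_ker] at hy
      have h2 : s 0 * y * (y * s 0)⁻¹ = 1 := by
        apply hinj
        intro j
        rw [map_mul, map_inv, map_mul, map_mul]
        by_cases hj : j = i
        · subst hj
          rw [hy, one_mul, mul_one, mul_inv_cancel]
        · rw [h j hj, one_mul, mul_one, mul_inv_cancel]
      rwa [mul_inv_eq_one] at h2
    · intro h j hj
      by_contra hne1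
      obtain ⟨n, x, hn, hx, hne⟩ := key j
      apply hne
      have h2 := congrArg (p j) (h n (MonoidHom.mem_ker.2 (hn i (Ne.symm hj))))
      have h3 := congrArg (p j) (h _ (MonoidHom.mem_ker.2 (hx i (Ne.symm hj))))
      rw [map_mul, map_mul] at h2
      rw [map_mul (p j) (s 0), map_mul (p j) (x * n * x⁻¹) (s 0)] at h3
      exact comm_trans hne1 h3.symm h2.symm
  -- the normal subgroup
  have hAn : A.Normal := ⟨fun a ha g => by
    rw [memA] at ha ⊢
    intro j hj
    rw [map_mul, map_mul, map_inv, ha j hj, mul_one, mul_inv_cancel]⟩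
  let N : Subgroup G := A ⊔ (p i).ker
  have memN : ∀ g, g ∈ N ↔ ∃ a ∈ A, p i g = p i a := by
    intro g
    rw [Subgroup.mem_sup_of_normal_right]
    constructor
    · rintro ⟨a, ha, k, hk, rfl⟩
      rw [MonoidHom.mem_ker] at hk
      exact ⟨a, ha, by rw [map_mul, hk, mul_one]⟩
    · rintro ⟨a, ha, h⟩
      refine ⟨a, ha, a⁻¹ * g, ?_, by group⟩
      rw [MonoidHom.mem_ker, map_mul, map_inv, h, inv_mul_cancel]
  have hNd : DefinableSet (N : Set G) := by
    apply Df.definableSet
    have h1 : Df fun s : ℕ → G => ∃ a, a ∈ (A : Set G) ∧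
        a⁻¹ * s 0 ∈ (((p i).ker : Subgroup G) : Set G) := by
      apply Df.exi (R := fun a s => a ∈ (A : Set G) ∧
        a⁻¹ * s 0 ∈ (((p i).ker : Subgroup G) : Set G))
      exact (DefinableSet.df hAd (Tm.var 0)).and
        (DefinableSet.df hkerd ((Tm.var 0).inv.mul (Tm.var 1)))
    refine h1.congr fun s => ?_
    rw [SetLike.mem_coe, memN]
    refine exists_congr fun a => and_congr_right fun _ => ?_
    rw [SetLike.mem_coe, MonoidHom.mem_ker, map_mul, map_inv, inv_mul_eq_one]
    exact eq_comm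
  have hNn : N.Normal := Subgroup.sup_normal _ _
  have hTd : DefinableSet ((⊤ : Subgroup G) : Set G) := by
    apply Df.definableSet
    exact (Df.const True).congr fun s => by simp
  obtain ⟨r, hr, hr'⟩ := hfull i
  refine freeQuotient (⊤ : Subgroup G) N hTd hNd le_top (fun s _ x hx => hNn.conj_mem x hx s)
    ((p i).comp (⊤ : Subgroup G).subtype) ?_ ?_ ⟨r, Subgroup.mem_top r⟩ ?_ hr t
    (Subgroup.mem_top t) ?_
  · obtain ⟨a, b, hab⟩ := hna i
    exact ⟨⟨a, Subgroup.mem_top a⟩, ⟨b, Subgroup.mem_top b⟩, hab⟩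
  · intro s hs
    exact (memN _).2 ⟨1, A.one_mem, by rw [map_one]; exact hs⟩
  · exact (memN _).2 ⟨r, (memA r).2 hr', rfl⟩
  · intro k hk h
    obtain ⟨a, ha, h'⟩ := (memN _).1 h
    rw [map_pow] at h'
    exact ht k hk a ((memA a).1 ha) h'.symm

end Pool.Agent.Helper657_nd.FreeL
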