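import Pool.Agent.Helper657_nd.Krull

set_option autoImplicit false

/-!
# Linear dependence from approximations: the tensor square trick
-/

namespace Pool.Agent.Helper657_nd.Noeth

open TensorProduct nonZeroDivisors

theorem ft_of_any (Q : Type) [CommRing Q] (inst : Algebra ℤ Q)
    (h : @Algebra.FiniteType ℤ Q _ _ inst) :
    @Algebra.FiniteType ℤ Q _ _ (Ring.toIntAlgebra Q) := by
  have h1 : inst = Ring.toIntAlgebra Q := Subsingleton.elim _ _
  subst h1
  exact h

theorem ft_tensor (R P' : Type) [CommRing R] [CommRing P'] [Algebra R P']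
    [Algebra.FiniteType ℤ P'] :
    @Algebra.FiniteType ℤ (P' ⊗[R] P') _ _ (Ring.toIntAlgebra (P' ⊗[R] P')) := by
  have h1 : Algebra.FiniteType R P' := Algebra.FiniteType.of_restrictScalars_finiteType ℤ R P'
  have h2 : Algebra.FiniteType P' (P' ⊗[R] P') := inferInstance
  exact ft_of_any _ _ (Algebra.FiniteType.trans (R := ℤ) (S := P') (A := P' ⊗[R] P')
    inferInstance h2)

theorem ft_quot (Q : Type) [CommRing Q] (h : @Algebra.FiniteType ℤ Q _ _ (Ring.toIntAlgebra Q))
    (T : Ideal Q) : @Algebra.FiniteType ℤ (Q ⧸ T) _ _ (Ring.toIntAlgebra (Q ⧸ T)) :=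
  Algebra.FiniteType.of_surjective (Ideal.Quotient.mk T).toIntAlgHom Ideal.Quotient.mk_surjective

section ring
variable (R P M : Type) [CommRing R] [CommRing P] [Algebra R P] [AddCommGroup M] [Module R M]
  [Module P M] [IsScalarTower R P M]

/-- a finitely generated module over a ring of finite type embeds in a ring of finite type -/
theorem exists_ring [Algebra.FiniteType ℤ P] [Module.Finite P M] :
    ∃ (P' : Type) (_ : CommRing P') (_ : Algebra R P') (_ : Algebra.FiniteType ℤ P')
      (i : M →ₗ[R] P') (p : P' →ₗ[R] M), ∀ m, p (i m) = m := by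
  let i1 : Module Pᵐᵒᵖ M := Module.compHom M ((RingHom.id P).fromOpposite mul_comm)
  have i2 : IsCentralScalar P M := ⟨fun p m => rfl⟩
  have i3 : IsScalarTower R Pᵐᵒᵖ M := ⟨fun r p m => by
    show ((r • p).unop : P) • m = r • ((p.unop : P) • m)
    rw [MulOpposite.unop_smul, smul_assoc]⟩
  let P' := TrivSqZeroExt P M
  have i4 : Module.Finite P P' := inferInstanceAs (Module.Finite P (P × M))
  have i5 : Algebra.FiniteType P P' := inferInstance
  have i6 : Algebra.FiniteType ℤ P' := by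
    have h := Algebra.FiniteType.trans (R := ℤ) (S := P) (A := P') inferInstance i5
    exact h
  refine ⟨P', inferInstance, inferInstance, i6, ?_, ?_, ?_⟩
  · exact
      { toFun := fun m => TrivSqZeroExt.inr m
        map_add' := fun a b => TrivSqZeroExt.inr_add P a b
        map_smul' := fun r a => TrivSqZeroExt.inr_smul P r a }
  · exact
      { toFun := fun x => TrivSqZeroExt.snd x
        map_add' := fun a b => TrivSqZeroExt.snd_add a b
        map_smul' := fun r a => TrivSqZeroExt.snd_smul r a }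
  · intro m
    rfl

end ring

section func
variable {R M : Type} [CommRing R] [IsDomain R] [AddCommGroup M] [Module R M]

/-- functionals to the fraction field separate independent elements -/
theorem exists_func (B : Submodule R M)
    (htf : ∀ r : R, r ≠ 0 → ∀ b ∈ B, r • b = 0 → b = 0) (x y : M) (hx : x ∈ B) (hy : y ∈ B)
    (hne : ∀ r s : R, r ≠ 0 → r • y ≠ s • x) :
    ∃ φ : M →ₗ[R] FractionRing R, φ x = 0 ∧ φ y ≠ 0 := by
  let V := LocalizedModule R⁰ M
  let L := FractionRing R
  let j : M →ₗ[R] V := LocalizedModule.mkLinearMap R⁰ M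
  have hj : ∀ m : M, j m = 0 → ∃ u : R, u ≠ 0 ∧ u • m = 0 := by
    intro m hm
    have h1 : (LocalizedModule.mk m 1 : V) = LocalizedModule.mk 0 1 := by
      rw [LocalizedModule.zero_mk]
      exact hm
    rw [LocalizedModule.mk_eq] at h1
    obtain ⟨u, hu⟩ := h1
    refine ⟨u, nonZeroDivisors.ne_zero u.2, ?_⟩
    rw [one_smul, one_smul, smul_zero] at hu
    exact hu
  have hmem : j y ∉ Submodule.span L {j x} := by
    intro h
    rw [Submodule.mem_span_singleton] at h
    obtain ⟨l, hl⟩ := h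
    obtain ⟨s, r, hr, rfl⟩ := IsFractionRing.div_surjective (A := R) l
    have hr0 := nonZeroDivisors.ne_zero hr
    have h1 : r • j y = s • j x := by
      rw [← hl, ← algebraMap_smul L r, ← algebraMap_smul L s, ← mul_smul]
      congr 1
      rw [mul_div_cancel₀]
      rw [Ne, map_eq_zero_iff _ (IsFractionRing.injective R L)]
      exact hr0
    have h2 : j (r • y - s • x) = 0 := by
      rw [map_sub, map_smul, map_smul, h1, sub_self]
    obtain ⟨u, hu, hu2⟩ := hj _ h2
    have h3 := htf u hu _ (B.sub_mem (B.smul_mem _ hy) (B.smul_mem _ hx)) hu2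
    exact hne r s hr0 (sub_eq_zero.1 h3)
  obtain ⟨f, hf1, hf2⟩ := Submodule.exists_le_ker_of_notMem hmem
  refine ⟨(f.restrictScalars R).comp j, ?_, hf1⟩
  exact hf2 (Submodule.mem_span_singleton_self _)

end func

section main
variable {R M : Type} [CommRing R] [IsDomain R] [AddCommGroup M] [Module R M]

theorem dep_of_approx (P : Type) [CommRing P] [Algebra R P]
    [Module P M] [IsScalarTower R P M] [Algebra.FiniteType ℤ P] [Module.Finite P M] (B : Submodule R M)
    (htf : ∀ r : R, r ≠ 0 → ∀ b ∈ B, r • b = 0 → b = 0) (α : R) (hα : IsUnit α)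
    (hα1 : ∀ k : ℕ, 0 < k → α ^ k - 1 ≠ 0) (x y : M) (hx : x ∈ B) (hy : y ∈ B) (hx0 : x ≠ 0)
    (h : ∀ k : ℕ, 0 < k → ∃ ω : R, ∃ b ∈ B,
      (α ^ k - 1) • y = ω • x + (α ^ k - 1) • (α ^ k - 1) • b) :
    ∃ r s : R, r ≠ 0 ∧ r • y = s • x := by
  by_contra hcon
  push Not at hcon
  obtain ⟨P', i1, i2, i3, i, p, hip⟩ := exists_ring R P M
  let Q := P' ⊗[R] P'
  -- the torsion ideal
  let T : Ideal Q :=
    { carrier := {t | ∃ r : R, r ≠ 0 ∧ r • t = 0}
      add_mem' := by
        rintro a b ⟨r, hr, ha⟩ ⟨s, hs, hb⟩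
        refine ⟨r * s, mul_ne_zero hr hs, ?_⟩
        rw [smul_add, mul_smul, mul_smul, hb, smul_comm, ha, smul_zero, smul_zero, add_zero]
      zero_mem' := ⟨1, one_ne_zero, smul_zero _⟩
      smul_mem' := by
        rintro c a ⟨r, hr, ha⟩
        refine ⟨r, hr, ?_⟩
        rw [smul_comm, ha, smul_zero] }
  have hT : ∀ t, t ∈ T ↔ ∃ r : R, r ≠ 0 ∧ r • t = 0 := fun t => Iff.rfl
  let ξ : Q := i y ⊗ₜ i x - i x ⊗ₜ i y
  have hQft := ft_tensor R P'
  have hQTft := ft_quot Q hQft T
  have hξ : Ideal.Quotient.mk T ξ = 0 := by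
    refine Krull.eq_zero (P := Q ⧸ T) (T := Q ⧸ T) (Ideal.Quotient.mk T (algebraMap R Q α))
      ((hα.map (algebraMap R Q)).map _) _ fun k hk => ?_
    obtain ⟨ω, b, hb, hrel⟩ := h k hk
    let ζ : Q := i b ⊗ₜ i x - i x ⊗ₜ i b
    refine ⟨Ideal.Quotient.mk T ζ, ?_⟩
    have h1 : (Ideal.Quotient.mk T (algebraMap R Q α)) ^ k - 1 =
        Ideal.Quotient.mk T (algebraMap R Q (α ^ k - 1)) := by
      rw [map_sub, map_one, map_pow, map_sub, map_pow, map_one]
    rw [h1, smul_eq_mul, ← map_mul, ← Algebra.smul_def, Ideal.Quotient.eq, hT]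
    refine ⟨α ^ k - 1, hα1 k hk, ?_⟩
    have h2 : (α ^ k - 1) • i y = ω • i x + (α ^ k - 1) • (α ^ k - 1) • i b := by
      rw [← map_smul, hrel, map_add, map_smul, map_smul, map_smul]
    have h3 : (α ^ k - 1) • ξ = (α ^ k - 1) • (α ^ k - 1) • ζ := by
      show (α ^ k - 1) • (i y ⊗ₜ i x - i x ⊗ₜ i y) =
        (α ^ k - 1) • (α ^ k - 1) • (i b ⊗ₜ i x - i x ⊗ₜ i b)
      rw [smul_sub, TensorProduct.smul_tmul', ← TensorProduct.tmul_smul, h2,
        TensorProduct.add_tmul, TensorProduct.tmul_add, ← TensorProduct.smul_tmul',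
        ← TensorProduct.smul_tmul', ← TensorProduct.smul_tmul', TensorProduct.tmul_smul,
        TensorProduct.tmul_smul, TensorProduct.tmul_smul, smul_sub, smul_sub]
      abel
    rw [smul_sub, h3, sub_self]
  rw [Ideal.Quotient.eq_zero_iff_mem, hT] at hξ
  obtain ⟨r, hr, hrξ⟩ := hξ
  obtain ⟨φ, hφ1, hφ2⟩ := exists_func B htf x y hx hy hcon
  obtain ⟨ψ, -, hψ2⟩ := exists_func B htf (0 : M) x B.zero_mem hx (fun u s hu h0 => by
    rw [smul_zero] at h0
    exact hx0 (htf u hu x hx h0))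
  let β : Q →ₗ[R] FractionRing R :=
    (LinearMap.mul' R (FractionRing R)).comp (TensorProduct.map (φ.comp p) (ψ.comp p))
  have hβ : β ξ = φ y * ψ x := by
    show (LinearMap.mul' R (FractionRing R)) (TensorProduct.map (φ.comp p) (ψ.comp p)
      (i y ⊗ₜ i x - i x ⊗ₜ i y)) = _
    rw [map_sub, map_sub, TensorProduct.map_tmul, TensorProduct.map_tmul, LinearMap.mul'_apply,
      LinearMap.mul'_apply, LinearMap.comp_apply, LinearMap.comp_apply, LinearMap.comp_apply,
      LinearMap.comp_apply, hip, hip, hφ1, zero_mul, sub_zero]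
  have h4 : r • β ξ = 0 := by rw [← map_smul, hrξ, map_zero]
  rw [hβ, Algebra.smul_def] at h4
  have h5 : algebraMap R (FractionRing R) r ≠ 0 := by
    rw [Ne, map_eq_zero_iff _ (IsFractionRing.injective R (FractionRing R))]
    exact hr
  exact (mul_ne_zero h5 (mul_ne_zero hφ2 hψ2)) h4

end main

end Pool.Agent.Helper657_nd.Noeth
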