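import Pool.Agent.Helper657_nd.Base

set_option autoImplicit false

/-!
# Definable separation of computably inseparable sets, and definable sections
-/

namespace Pool.Agent.Helper657_nd

/-- Some definable property of the powers of some element separates two computably inseparable
sets. -/
def Undec (G : Type) [Group G] : Prop :=
  ∃ (R : (ℕ → G) → Prop) (t : G) (A B : ℕ → Prop), Df R ∧
    (¬ ∃ C : ℕ → Prop, ComputablePred C ∧ (∀ n, A n → C n) ∧ ∀ n, B n → ¬ C n) ∧
    (∀ n, A n → R (cons (t ^ n) (fun _ => 1))) ∧ (∀ n, B n → ¬ R (cons (t ^ n) (fun _ => 1)))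

theorem Undec.of_sep {G : Type} [Group G] {R : (ℕ → G) → Prop} (hR : Df R) (t : G)
    (A B : ℕ → Prop)
    (hAB : ¬ ∃ C : ℕ → Prop, ComputablePred C ∧ (∀ n, A n → C n) ∧ ∀ n, B n → ¬ C n)
    (hA : ∀ n, A n → R (cons (t ^ n) (fun _ => 1)))
    (hB : ∀ n, B n → ¬ R (cons (t ^ n) (fun _ => 1))) : Undec G :=
  ⟨R, t, A, B, hR, hAB, hA, hB⟩

theorem Undec.main {G : Type} [Group G] (h : Undec G) : ∃ N, ∀ n ≥ N, ¬ NDecidable n G := by
  obtain ⟨R, t, A, B, hR, hAB, hA, hB⟩ := h
  exact not_nDecidable_of_sep hR t A B hAB hA hB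

section sec
variable {G Q : Type} [Group G] [Group Q] {S : Subgroup G} (π : S →* Q)

/-- the word in `G` obtained by replacing the parameters by preimages -/
theorem exists_word (hπ : Function.Surjective π) (w : Word Q) :
    ∃ w' : Word G, ∀ s : ℕ → S, ∃ v : S, (v : G) = wordVal (fun g : G => g) (fun n => (s n : G)) w' ∧
      π v = wordVal (fun g : Q => g) (fun n => π (s n)) w := by
  induction w with
  | nil => exact ⟨[], fun s => ⟨1, rfl, map_one π⟩⟩
  | cons l w ih =>
    obtain ⟨w', hw'⟩ := ih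
    rcases l with ⟨x, b⟩
    obtain ⟨l', hl'⟩ : ∃ l' : (ℕ ⊕ G) × Bool, ∀ s : ℕ → S, ∃ v : S,
        (v : G) = letterVal (fun g : G => g) (fun n => (s n : G)) l' ∧
        π v = letterVal (fun g : Q => g) (fun n => π (s n)) (x, b) := by
      rcases x with i | a
      · refine ⟨(Sum.inl i, b), fun s => ?_⟩
        cases b
        · exact ⟨(s i)⁻¹, rfl, map_inv π _⟩
        · exact ⟨s i, rfl, rfl⟩
      · obtain ⟨a', ha'⟩ := hπ a
        refine ⟨(Sum.inr (a' : G), b), fun s => ?_⟩
        cases b
        · exact ⟨a'⁻¹, rfl, by rw [map_inv, ha']; rfl⟩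
        · exact ⟨a', rfl, ha'⟩
    refine ⟨l' :: w', fun s => ?_⟩
    obtain ⟨v, hv, hv'⟩ := hw' s
    obtain ⟨u, hu, hu'⟩ := hl' s
    refine ⟨u * v, ?_, ?_⟩
    · rw [Subgroup.coe_mul, hv, hu]
      unfold wordVal
      rw [List.map_cons, List.prod_cons]
    · rw [map_mul, hv', hu']
      unfold wordVal
      rw [List.map_cons, List.prod_cons]

variable (hS : DefinableSet (S : Set G)) (hπ : Function.Surjective π)
  (hK : DefinableSet ((π.ker.map S.subtype : Subgroup G) : Set G))
include hS hπ hK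

theorem Df.pull (q : List Bool) : ∀ M : QF Q, ∃ R' : (ℕ → G) → Prop, Df R' ∧ ∀ s : ℕ → S,
    (R' (fun n => (s n : G)) ↔ Sat (fun g : Q => g) M q (fun n => π (s n))) := by
  induction q with
  | nil =>
    intro M
    have hlit : ∀ l : Word Q × Bool, ∃ R' : (ℕ → G) → Prop, Df R' ∧ ∀ s : ℕ → S,
        (R' (fun n => (s n : G)) ↔
          (wordVal (fun g : Q => g) (fun n => π (s n)) l.1 = 1 ↔ l.2 = true)) := by
      intro l
      obtain ⟨w', hw'⟩ := exists_word π hπ l.1
      refine ⟨fun s => (wordVal (fun g : G => g) s w' ∈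
        ((π.ker.map S.subtype : Subgroup G) : Set G) ↔ l.2 = true),
        (DefinableSet.df hK ⟨w', fun _ => rfl⟩).iff (Df.const _), fun s => ?_⟩
      obtain ⟨v, hv, hv'⟩ := hw' s
      beta_reduce
      rw [← hv, ← hv']
      refine iff_congr ?_ Iff.rfl
      rw [SetLike.mem_coe, Subgroup.mem_map]
      constructor
      · rintro ⟨x, hx, hxv⟩
        have : x = v := Subtype.ext hxv
        rw [← this]
        exact hx
      · intro h
        exact ⟨v, h, rfl⟩
    choose RL hRL hRL' using hlit
    refine ⟨fun s => ¬ ∀ c ∈ M, ¬ ∀ l ∈ c, RL l s, ?_, fun s => ?_⟩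
    · refine Df.not (Df.forallList M fun c _ => Df.not (Df.forallList c fun l _ => hRL l))
    · show _ ↔ QFHolds _ M _
      unfold QFHolds
      push Not
      refine exists_congr fun c => and_congr_right fun _ => forall₂_congr fun l _ => ?_
      exact hRL' l s
  | cons b q ih =>
    intro M
    obtain ⟨R', hR', h⟩ := ih M
    have hc : ∀ (g : S) (s : ℕ → S), (fun n => ((cons g s n : S) : G)) =
        cons (g : G) (fun n => (s n : G)) := by
      intro g s
      funext n
      cases n <;> rfl
    have hc' : ∀ (g : S) (s : ℕ → S), (fun n => π (cons g s n)) =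
        cons (π g) (fun n => π (s n)) := by
      intro g s
      funext n
      cases n <;> rfl
    cases b
    · refine ⟨fun s => ∀ g, g ∈ (S : Set G) → R' (cons g s), ?_, fun s => ?_⟩
      · exact Df.all (R := fun s => s 0 ∈ (S : Set G) → R' s) ((DefinableSet.df hS (Tm.var 0)).imp hR')
      · show _ ↔ ∀ g : Q, Sat _ M q (cons g _)
        constructor
        · intro h1 g
          obtain ⟨g', rfl⟩ := hπ g
          have h2 := h1 g' g'.2
          rw [← hc, h, hc'] at h2
          exact h2
        · intro h1 g hg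
          have h2 := h1 (π ⟨g, hg⟩)
          rw [← hc', ← h, hc] at h2
          exact h2
    · refine ⟨fun s => ∃ g, g ∈ (S : Set G) ∧ R' (cons g s), ?_, fun s => ?_⟩
      · exact Df.ex (R := fun s => s 0 ∈ (S : Set G) ∧ R' s) ((DefinableSet.df hS (Tm.var 0)).and hR')
      · show _ ↔ ∃ g : Q, Sat _ M q (cons g _)
        constructor
        · rintro ⟨g, hg, h1⟩
          refine ⟨π ⟨g, hg⟩, ?_⟩
          rw [← hc', ← h, hc]
          exact h1
        · rintro ⟨g, h1⟩
          obtain ⟨g', rfl⟩ := hπ g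
          refine ⟨g', g'.2, ?_⟩
          rw [← hc', ← h, hc] at h1
          exact h1

/-- Definable sections: `S` is a definable subgroup, `π` maps `S` onto `Q` and has definable
kernel. -/
theorem Undec.of_section (h : Undec Q) : Undec G := by
  obtain ⟨R, t, A, B, ⟨q, M, hM⟩, hAB, hA, hB⟩ := h
  obtain ⟨R', hR', h'⟩ := Df.pull π hS hπ hK q M
  obtain ⟨t', rfl⟩ := hπ t
  have key : ∀ n : ℕ, R' (cons ((t' : G) ^ n) (fun _ => 1)) ↔ R (cons (π t' ^ n) (fun _ => 1)) := by
    intro n
    rw [hM]
    have h1 := h' (cons (t' ^ n) (fun _ => 1))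
    have h2 : (fun m => ((cons (t' ^ n) (fun _ => 1) m : S) : G)) =
        cons ((t' : G) ^ n) (fun _ => 1) := by
      funext m
      cases m <;> rfl
    have h3 : (fun m => π (cons (t' ^ n) (fun _ => 1) m)) = cons (π t' ^ n) (fun _ => 1) := by
      funext m
      cases m
      · exact map_pow π t' n
      · exact map_one π
    rw [h2, h3] at h1
    exact h1
  exact ⟨R', t', A, B, hR', hAB, fun n hn => (key n).2 (hA n hn), fun n hn hn' =>
    hB n hn ((key n).1 hn')⟩

end sec

end Pool.Agent.Helper657_nd
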