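import Pool.Agent.Helper657_nd.Und
import Pool.Agent.Helper657_nd.Sep

set_option autoImplicit false

/-!
# Commuting conjugates: arithmetic of initial segments
-/

namespace Pool.Agent.Helper657_nd.W

open Pool.Agent.Helper948.ProP (At)

variable {G : Type} [Group G]

/-- the elements that centralize the conjugate of `H` by `x`, where `C` is the centralizer
of `H`, are those `g` with `x⁻¹ * g * x ∈ C`; `E C x y` says that these sets agree for `x`
and `y` -/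
def E (C : Subgroup G) (x y : G) : Prop := ∀ g, x⁻¹ * g * x ∈ C ↔ y⁻¹ * g * y ∈ C

/-- membership of `x` in the set coded by `p` -/
def S (C : Subgroup G) (p : G) (x : G) : Prop := ¬ (x⁻¹ * p * x ∈ C)

/-- The hypotheses; `K` is the subgroup of allowed elements, `z₀` is a non-central element of
`H`. -/
structure Hyp (t z₀ : G) (H C K : Subgroup G) : Prop where
  cent : ∀ g, g ∈ C ↔ ∀ b ∈ H, g * b = b * g
  mem : t ∈ K
  comm : ∀ x ∈ K, x * t = t * x
  pow : ∀ i : ℕ, i ≠ 0 → ¬ t ^ i ∈ Subgroup.normalizer (H : Set G)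
  dich : ∀ x ∈ K, x ∈ Subgroup.normalizer (H : Set G) ∨
    ∀ b ∈ H, ∀ c ∈ H, b * (x * c * x⁻¹) = (x * c * x⁻¹) * b
  mema : z₀ ∈ H
  na : ¬ z₀ ∈ C

section basic
variable {t z₀ : G} {H C K : Subgroup G}

theorem E.refl (C : Subgroup G) (x : G) : E C x x := fun _ => Iff.rfl
theorem E.symm {x y : G} (e : E C x y) : E C y x := fun g => (e g).symm
theorem E.trans {x y z : G} (e : E C x y) (e' : E C y z) : E C x z :=
  fun g => (e g).trans (e' g)

theorem S_congr {p : G} {x y : G} (e : E C x y) : S C p x ↔ S C p y := not_congr (e p)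

theorem conj_C (Hy : Hyp t z₀ H C K) {z : G} (hz : z ∈ Subgroup.normalizer (H : Set G)) {g : G}
    (hg : g ∈ C) : z * g * z⁻¹ ∈ C := by
  rw [Hy.cent] at hg ⊢
  intro b hb
  have h1 : z⁻¹ * b * z ∈ H := by
    have := (Subgroup.mem_normalizer_iff.1 (Subgroup.inv_mem _ hz) b).1 hb
    simpa using this
  have h2 := hg _ h1
  have h3 : z * g * z⁻¹ * b = z * (g * (z⁻¹ * b * z)) * z⁻¹ := by group
  have h4 : b * (z * g * z⁻¹) = z * ((z⁻¹ * b * z) * g) * z⁻¹ := by group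
  rw [h3, h4, h2]

theorem E_iff (Hy : Hyp t z₀ H C K) {x y : G} (hx : x ∈ K) (hy' : y ∈ K) :
    E C x y ↔ x⁻¹ * y ∈ Subgroup.normalizer (H : Set G) := by
  constructor
  · intro e
    rcases Hy.dich (x⁻¹ * y) (K.mul_mem (K.inv_mem hx) hy') with h1 | h1
    · exact h1
    · exfalso
      have h2 : ¬ x⁻¹ * (x * z₀ * x⁻¹) * x ∈ C := by
        have : x⁻¹ * (x * z₀ * x⁻¹) * x = z₀ := by group
        rw [this]
        exact Hy.na
      apply h2
      rw [e]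
      rw [Hy.cent]
      intro b hb
      have h3 := h1 z₀ Hy.mema b hb
      have h4 : y⁻¹ * (x * z₀ * x⁻¹) * y * b =
          (x⁻¹ * y)⁻¹ * (z₀ * (x⁻¹ * y * b * (x⁻¹ * y)⁻¹)) * (x⁻¹ * y) := by group
      have h5 : b * (y⁻¹ * (x * z₀ * x⁻¹) * y) =
          (x⁻¹ * y)⁻¹ * ((x⁻¹ * y * b * (x⁻¹ * y)⁻¹) * z₀) * (x⁻¹ * y) := by group
      rw [h4, h5, h3]
  · intro hz g
    constructor
    · intro h1
      have h2 := conj_C Hy (Subgroup.inv_mem _ hz) h1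
      have h3 : (x⁻¹ * y)⁻¹ * (x⁻¹ * g * x) * ((x⁻¹ * y)⁻¹)⁻¹ = y⁻¹ * g * y := by group
      rwa [h3] at h2
    · intro h1
      have h2 := conj_C Hy hz h1
      have h3 : (x⁻¹ * y) * (y⁻¹ * g * y) * (x⁻¹ * y)⁻¹ = x⁻¹ * g * x := by group
      rwa [h3] at h2

/-- `x` is `t ^ i` up to `E`. -/
def V (t : G) (C : Subgroup G) (K : Subgroup G) (x : G) (i : ℕ) : Prop :=
  x ∈ K ∧ E C x (t ^ i)

theorem V_pow (Hy : Hyp t z₀ H C K) (i : ℕ) : V t C K (t ^ i) i :=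
  ⟨K.pow_mem Hy.mem i, E.refl C _⟩

theorem comm_pow (Hy : Hyp t z₀ H C K) {x : G} (hx : x ∈ K) (i : ℕ) :
    x * t ^ i = t ^ i * x := by
  have : Commute x t := Hy.comm x hx
  exact (this.pow_right i).eq

theorem V_mul (Hy : Hyp t z₀ H C K) {x y : G} {i j : ℕ} (hx : V t C K x i) (hy' : V t C K y j) :
    V t C K (x * y) (i + j) := by
  refine ⟨K.mul_mem hx.1 hy'.1, ?_⟩
  have h1 := (E_iff Hy hx.1 (K.pow_mem Hy.mem i)).1 hx.2
  have h2 := (E_iff Hy hy'.1 (K.pow_mem Hy.mem j)).1 hy'.2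
  rw [E_iff Hy (K.mul_mem hx.1 hy'.1) (K.pow_mem Hy.mem _)]
  have h3 := comm_pow Hy (K.mul_mem (K.inv_mem hx.1) (K.pow_mem Hy.mem i)) j
  have h4 : (x * y)⁻¹ * t ^ (i + j) = (y⁻¹ * t ^ j) * (x⁻¹ * t ^ i) := by
    rw [pow_add, mul_inv_rev]
    calc y⁻¹ * x⁻¹ * (t ^ i * t ^ j) = y⁻¹ * (x⁻¹ * t ^ i * t ^ j) := by group
      _ = y⁻¹ * (t ^ j * (x⁻¹ * t ^ i)) := by rw [h3]
      _ = _ := by group
  rw [h4]
  exact Subgroup.mul_mem _ h2 h1

theorem E_pow_iff (Hy : Hyp t z₀ H C K) (i j : ℕ) : E C (t ^ i) (t ^ j) ↔ i = j := by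
  constructor
  · suffices key : ∀ i j : ℕ, i < j → ¬ E C (t ^ i) (t ^ j) by
      intro e
      rcases lt_trichotomy i j with hij | hij | hij
      · exact absurd e (key i j hij)
      · exact hij
      · exact absurd e.symm (key j i hij)
    intro i j hij e
    obtain ⟨d, rfl⟩ := Nat.exists_eq_add_of_lt hij
    apply Hy.pow (d + 1) (by omega)
    rw [E_iff Hy (K.pow_mem Hy.mem _) (K.pow_mem Hy.mem _)] at e
    have h1 : (t ^ i)⁻¹ * t ^ (i + d + 1) = t ^ (d + 1) := by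
      rw [show i + d + 1 = i + (d + 1) by ring, pow_add, inv_mul_cancel_left]
    rwa [h1] at e
  · rintro rfl
    exact E.refl C _

theorem V_E (Hy : Hyp t z₀ H C K) {x y : G} {i j : ℕ} (hx : V t C K x i) (hy' : V t C K y j) :
    E C x y ↔ i = j := by
  rw [← E_pow_iff Hy i j]
  exact ⟨fun e => hx.2.symm.trans (e.trans hy'.2), fun e => hx.2.trans (e.trans hy'.2.symm)⟩

theorem V_unique (Hy : Hyp t z₀ H C K) {x : G} {i j : ℕ} (hx : V t C K x i)
    (hx' : V t C K x j) : i = j := (V_E Hy hx hx').1 (E.refl C x)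

theorem V_one (Hy : Hyp t z₀ H C K) : V t C K 1 0 := by simpa using V_pow Hy 0
theorem V_t (Hy : Hyp t z₀ H C K) : V t C K t 1 := by simpa using V_pow Hy 1

/-- the code of a finite set -/
def code (t z₀ : G) (l : List ℕ) : G := (l.map fun i => t ^ i * z₀ * (t ^ i)⁻¹).prod

theorem mem_of_not_E (Hy : Hyp t z₀ H C K) {x : G} (hx : x ∈ K) {i : ℕ}
    (hE : ¬ E C x (t ^ i)) : x⁻¹ * (t ^ i * z₀ * (t ^ i)⁻¹) * x ∈ C := by
  rw [E_iff Hy hx (K.pow_mem Hy.mem i)] at hE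
  rcases Hy.dich (x⁻¹ * t ^ i) (K.mul_mem (K.inv_mem hx) (K.pow_mem Hy.mem i)) with h1 | h1
  · exact absurd h1 hE
  · rw [Hy.cent]
    intro b hb
    have h2 := h1 b hb z₀ Hy.mema
    have h3 : x⁻¹ * (t ^ i * z₀ * (t ^ i)⁻¹) * x = x⁻¹ * t ^ i * z₀ * (x⁻¹ * t ^ i)⁻¹ := by group
    rw [h3, h2]

theorem not_mem_of_E (Hy : Hyp t z₀ H C K) {x : G} (hx : x ∈ K) {i : ℕ}
    (hE : E C x (t ^ i)) : ¬ x⁻¹ * (t ^ i * z₀ * (t ^ i)⁻¹) * x ∈ C := by
  rw [hE]
  have : (t ^ i)⁻¹ * (t ^ i * z₀ * (t ^ i)⁻¹) * t ^ i = z₀ := by group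
  rw [this]
  exact Hy.na

theorem S_code (Hy : Hyp t z₀ H C K) {l : List ℕ} (hl : l.Nodup) {x : G} (hx : x ∈ K) :
    S C (code t z₀ l) x ↔ ∃ i ∈ l, E C x (t ^ i) := by
  have hcons : ∀ i l, x⁻¹ * code t z₀ (i :: l) * x =
      (x⁻¹ * (t ^ i * z₀ * (t ^ i)⁻¹) * x) * (x⁻¹ * code t z₀ l * x) := by
    intro i l
    have : code t z₀ (i :: l) = (t ^ i * z₀ * (t ^ i)⁻¹) * code t z₀ l := by simp [code]
    rw [this]
    group
  have hnil : x⁻¹ * code t z₀ [] * x ∈ C := by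
    have : x⁻¹ * code t z₀ [] * x = 1 := by simp [code]
    rw [this]
    exact C.one_mem
  have hnone : ∀ l : List ℕ, (∀ i ∈ l, ¬ E C x (t ^ i)) → x⁻¹ * code t z₀ l * x ∈ C := by
    intro l
    induction l with
    | nil => intro _; exact hnil
    | cons i l ih =>
      intro h1
      rw [hcons]
      exact C.mul_mem (mem_of_not_E Hy hx (h1 i (by simp))) (ih fun j hj => h1 j (by simp [hj]))
  constructor
  · intro hS
    by_contra hcon
    push Not at hcon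
    exact hS (hnone l hcon)
  · rintro ⟨i, hi, e⟩
    unfold S
    induction l with
    | nil => simp at hi
    | cons b l ih =>
      rw [List.nodup_cons] at hl
      rw [hcons]
      by_cases hbi : b = i
      · subst hbi
        have h1 : x⁻¹ * code t z₀ l * x ∈ C := by
          apply hnone
          intro j hj hE
          have : b = j := (E_pow_iff Hy b j).1 (e.symm.trans hE)
          exact hl.1 (this ▸ hj)
        intro hmem
        exact not_mem_of_E Hy hx e ((Subgroup.mul_mem_cancel_right C h1).1 hmem)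
      · have hil : i ∈ l := by
          rcases List.mem_cons.1 hi with h1 | h1
          · exact absurd h1.symm hbi
          · exact h1
        have h2 : x⁻¹ * (t ^ b * z₀ * (t ^ b)⁻¹) * x ∈ C := by
          apply mem_of_not_E Hy hx
          intro hE
          exact hbi ((E_pow_iff Hy b i).1 (hE.symm.trans e))
        intro hmem
        exact ih hl.2 hil ((Subgroup.mul_mem_cancel_left C h2).1 hmem)

end basic

section model
variable (t : G) (C K : Subgroup G)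

/-- the set coded by `p` inside `K` -/
def X (p : G) (x : G) : Prop := x ∈ K ∧ S C p x

/-- strict order of initial segment given by `p` -/
def Lt (p : G) (a b : G) : Prop := ∃ e, X C K p e ∧ ¬ E C e 1 ∧ E C (a * e) b

/-- consecutive elements of the set coded by `q` -/
def Cons (p q : G) (a b : G) : Prop :=
  X C K p a ∧ X C K p b ∧ X C K q a ∧ X C K q b ∧ Lt C K p a b ∧
    ∀ w, X C K p w → X C K q w → ¬ (Lt C K p a w ∧ Lt C K p w b)

/-- `b` is the square of `k` -/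
def Sqr (p q : G) (k b : G) : Prop :=
  (E C k 1 ∧ E C b 1) ∨ ∃ a e, Cons C K p q a b ∧ X C K p e ∧ E C (a * e) b ∧ E C (e * t) (k * k)

/-- `z` is the product of `x` and `y` -/
def Mul (p q : G) (x y z : G) : Prop :=
  ∃ a b c, X C K p a ∧ X C K p b ∧ X C K p c ∧ Sqr t C K p q x a ∧ Sqr t C K p q y b ∧
    Sqr t C K p q (x * y) c ∧ E C c (a * b * z * z)

/-- axioms -/
structure Ax (p q : G) : Prop where
  one : X C K p 1
  tt : X C K p t
  ind : ∀ r : G, (S C r 1 ∧ ∀ y, X C K p y → S C r y → X C K p (t * y) → S C r (t * y)) →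
    ∀ x, X C K p x → S C r x
  q0 : Cons C K p q 1 t
  q1 : ∀ a b e c, Cons C K p q a b → X C K p e → E C (a * e) b → X C K p c →
    E C (b * e * t * t) c → Cons C K p q b c
  q2 : ∀ b, X C K p b → X C K q b → E C b 1 ∨ E C b t ∨ ∃ a a' e e', Cons C K p q a b ∧
    Cons C K p q a' a ∧ X C K p e ∧ X C K p e' ∧ E C (a * e) b ∧ E C (a' * e') a ∧
    E C (e' * t * t) e

/-- constraints -/
def Hold (p q : G) (x : ℕ → G) (c : At) : Prop :=
  AtG (fun x => E C x t) (fun x y z => E C (x * y) z) (Mul t C K p q) x c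

/-- extension of a tuple to a sequence -/
def ext {k : ℕ} (x : Fin k → G) (i : ℕ) : G := if h : i < k then x ⟨i, h⟩ else 1

/-- a solution of a system of constraints -/
def Sol (p q : G) (k : ℕ) (L : List At) (u : G) : Prop :=
  ∃ x : Fin k → G, (∀ i, X C K p (x i)) ∧ E C (ext x 0) u ∧ ∀ c ∈ L, Hold t C K p q (ext x) c

/-- the separating formula -/
def Theta (kA : ℕ) (LA : List At) (kB : ℕ) (LB : List At) (u : G) : Prop :=
  ∃ p q : G, Ax t C K p q ∧ Sol t C K p q kA LA u ∧ ¬ Sol t C K p q kB LB u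

end model

section positive
variable {t z₀ : G} {H C K : Subgroup G}

/-- the facts that hold as long as there is room -/
theorem cons_pos {p q : G} {N : ℕ} (hX : ∀ i ≤ N, X C K p (t ^ i))
    (hA : Ax t C K p q) (k : ℕ) (hk : (k + 1) ^ 2 ≤ N) :
    Cons C K p q (t ^ (k ^ 2)) (t ^ ((k + 1) ^ 2)) := by
  induction k with
  | zero => simpa using hA.q0
  | succ k ih =>
    have h1 := ih (le_trans (Nat.pow_le_pow_left (by omega) 2) hk)
    refine hA.q1 _ _ (t ^ (2 * k + 1)) _ h1 (hX _ ?_) ?_ (hX _ hk) ?_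
    · nlinarith
    · rw [← pow_add]
      have : k ^ 2 + (2 * k + 1) = (k + 1) ^ 2 := by ring
      rw [this]
      exact E.refl C _
    · have : t ^ (k + 1) ^ 2 * t ^ (2 * k + 1) * t * t = t ^ ((k + 1 + 1) ^ 2) := by
        rw [← pow_add, ← pow_succ, ← pow_succ]
        congr 1
        ring
      rw [this]
      exact E.refl C _

theorem sqr_pos {p q : G} {N : ℕ} (hX : ∀ i ≤ N, X C K p (t ^ i))
    (hA : Ax t C K p q) (k : ℕ) (hk : k ^ 2 ≤ N) :
    Sqr t C K p q (t ^ k) (t ^ (k ^ 2)) := by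
  cases k with
  | zero => exact Or.inl ⟨by simpa using E.refl C 1, by simpa using E.refl C 1⟩
  | succ k =>
    refine Or.inr ⟨t ^ (k ^ 2), t ^ (2 * k + 1), cons_pos hX hA k hk, hX _ (by nlinarith), ?_, ?_⟩
    · have : t ^ k ^ 2 * t ^ (2 * k + 1) = t ^ ((k + 1) ^ 2) := by
        rw [← pow_add]
        congr 1
        ring
      rw [this]
      exact E.refl C _
    · have : t ^ (2 * k + 1) * t = t ^ (k + 1) * t ^ (k + 1) := by
        rw [← pow_add, ← pow_succ]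
        congr 1
        ring
      rw [this]
      exact E.refl C _

theorem mul_pos' {p q : G} {N : ℕ} (hX : ∀ i ≤ N, X C K p (t ^ i))
    (hA : Ax t C K p q) (i j : ℕ) (hij : (i + j) ^ 2 ≤ N) :
    Mul t C K p q (t ^ i) (t ^ j) (t ^ (i * j)) := by
  have hi : i ^ 2 ≤ N := le_trans (Nat.pow_le_pow_left (by omega) 2) hij
  have hj : j ^ 2 ≤ N := le_trans (Nat.pow_le_pow_left (by omega) 2) hij
  refine ⟨t ^ (i ^ 2), t ^ (j ^ 2), t ^ ((i + j) ^ 2), hX _ hi, hX _ hj, hX _ hij,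
    sqr_pos hX hA i hi, sqr_pos hX hA j hj, ?_, ?_⟩
  · rw [← pow_add]
    exact sqr_pos hX hA (i + j) hij
  · have : t ^ i ^ 2 * t ^ j ^ 2 * t ^ (i * j) * t ^ (i * j) = t ^ ((i + j) ^ 2) := by
      rw [← pow_add, ← pow_add, ← pow_add]
      congr 1
      ring
    rw [this]
    exact E.refl C _

theorem sol_pos {p q : G} {N : ℕ} (hX : ∀ i ≤ N, X C K p (t ^ i))
    (hA : Ax t C K p q) {k : ℕ} (hk : 0 < k) {L : List At} (hL : ∀ c ∈ L, AtLt k c)
    (x : ℕ → ℕ) (hx : ∀ c ∈ L, At.Holds x c)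
    (hN : ∀ i < k, ∀ j < k, (x i + x j) ^ 2 ≤ N) :
    Sol t C K p q k L (t ^ x 0) := by
  have hext : ∀ i < k, ext (fun i : Fin k => t ^ x i) i = t ^ x i := by
    intro i hi
    simp [ext, hi]
  refine ⟨fun i => t ^ x i, fun i => hX _ ?_, ?_, fun c hc => ?_⟩
  · refine le_trans ?_ (hN i i.2 i i.2)
    nlinarith
  · rw [hext 0 hk]
    exact E.refl C _
  · have h1 := hx c hc
    have h2 := hL c hc
    cases c with
    | one i =>
      simp only [AtLt] at h2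
      simp only [At.Holds] at h1
      simp only [Hold, AtG]
      rw [hext i h2, h1, pow_one]
      exact E.refl C _
    | add i j l =>
      simp only [AtLt] at h2
      simp only [At.Holds] at h1
      simp only [Hold, AtG]
      rw [hext i h2.1, hext j h2.2.1, hext l h2.2.2, ← h1, pow_add]
      exact E.refl C _
    | mul i j l =>
      simp only [AtLt] at h2
      simp only [At.Holds] at h1
      simp only [Hold, AtG]
      rw [hext i h2.1, hext j h2.2.1, hext l h2.2.2, ← h1]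
      exact mul_pos' hX hA _ _ (hN i h2.1 j h2.2.1)

end positive

/-- purely arithmetical lemma about consecutive elements -/
theorem squares_of_chain (N : ℕ) (Q : ℕ → Prop)
    (Cn : ℕ → ℕ → Prop)
    (hCn : ∀ i j, Cn i j ↔ (i ≤ N ∧ j ≤ N ∧ Q i ∧ Q j ∧ i < j ∧ ∀ w, Q w → ¬ (i < w ∧ w < j)))
    (h2 : ∀ b, b ≤ N → Q b → b = 0 ∨ b = 1 ∨ ∃ a a' e e', Cn a b ∧ Cn a' a ∧ a + e = b ∧
      a' + e' = a ∧ e' + 1 + 1 = e) :
    ∀ j i, Cn i j → ∃ k, i = k ^ 2 ∧ j = (k + 1) ^ 2 := by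
  intro j
  induction j using Nat.strong_induction_on with
  | _ j ih =>
    intro i hij
    have h3 := (hCn i j).1 hij
    obtain ⟨hiN, hjN, hQi, hQj, hlt, hmid⟩ := h3
    rcases h2 j hjN hQj with h0 | h0 | ⟨a, a', e, e', h4, h5, h6, h7, h8⟩
    · omega
    · exact ⟨0, by simp; omega, by simp [h0]⟩
    · have h9 := (hCn a j).1 h4
      have hai : a = i := by
        rcases lt_trichotomy a i with hh | hh | hh
        · exact absurd ⟨hh, hlt⟩ (h9.2.2.2.2.2 i hQi)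
        · exact hh
        · exact absurd ⟨hh, h9.2.2.2.2.1⟩ (hmid a h9.2.2.1)
      subst hai
      obtain ⟨k, hk1, hk2⟩ := ih a hlt a' h5
      refine ⟨k + 1, hk2, ?_⟩
      have h10 : e' = 2 * k + 1 := by
        have : a' + e' = (k + 1) ^ 2 := by rw [h7, hk2]
        rw [hk1] at this
        nlinarith
      rw [← h6, ← h8, h10, hk2]
      ring

section finite
variable {t z₀ : G} {H C K : Subgroup G}

/-- the segment coded by `p` is finite of length `N` -/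
def Fin' (t : G) (C K : Subgroup G) (p : G) (N : ℕ) : Prop :=
  ∀ x, X C K p x ↔ ∃ i ≤ N, V t C K x i

theorem X_of_V {q : G} {x : G} {i : ℕ} (hx : V t C K x i) :
    X C K q x ↔ S C q (t ^ i) := by
  unfold X
  rw [and_iff_right hx.1]
  exact S_congr hx.2

theorem fin_X (Hy : Hyp t z₀ H C K) {p : G} {N : ℕ} (hf : Fin' t C K p N) {x : G} {i : ℕ}
    (hx : V t C K x i) : X C K p x ↔ i ≤ N := by
  rw [hf x]
  constructor
  · rintro ⟨j, hj, hxj⟩
    rw [V_unique Hy hx hxj]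
    exact hj
  · intro hi
    exact ⟨i, hi, hx⟩

theorem fin_Lt (Hy : Hyp t z₀ H C K) {p : G} {N : ℕ} (hf : Fin' t C K p N) {a b : G} {i j : ℕ}
    (ha : V t C K a i) (hb : V t C K b j) : Lt C K p a b ↔ (i < j ∧ j - i ≤ N) := by
  constructor
  · rintro ⟨e, he, hne, hab⟩
    obtain ⟨l, hl, hel⟩ := (hf e).1 he
    have h1 := (V_E Hy (V_mul Hy ha hel) hb).1 hab
    have h2 : l ≠ 0 := fun h0 => hne ((V_E Hy hel (V_one Hy)).2 h0)
    omega
  · rintro ⟨hij, hN⟩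
    refine ⟨t ^ (j - i), (fin_X Hy hf (V_pow Hy _)).2 hN, fun e => ?_, ?_⟩
    · have := (V_E Hy (V_pow Hy (j - i)) (V_one Hy)).1 e
      omega
    · rw [V_E Hy (V_mul Hy ha (V_pow Hy _)) hb]
      omega

theorem fin_Cons (Hy : Hyp t z₀ H C K) {p q : G} {N : ℕ} (hf : Fin' t C K p N) {a b : G}
    {i j : ℕ} (ha : V t C K a i) (hb : V t C K b j) : Cons C K p q a b ↔
      (i ≤ N ∧ j ≤ N ∧ S C q (t ^ i) ∧ S C q (t ^ j) ∧ i < j ∧
        ∀ w, S C q (t ^ w) → ¬ (i < w ∧ w < j)) := by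
  unfold Cons
  rw [fin_X Hy hf ha, fin_X Hy hf hb, X_of_V ha, X_of_V hb, fin_Lt Hy hf ha hb]
  constructor
  · rintro ⟨h1, h2, h3, h4, h5, h6⟩
    refine ⟨h1, h2, h3, h4, h5.1, fun w hw hiw => ?_⟩
    refine h6 (t ^ w) ((fin_X Hy hf (V_pow Hy w)).2 (by omega)) ((X_of_V (V_pow Hy w)).2 hw) ?_
    rw [fin_Lt Hy hf ha (V_pow Hy w), fin_Lt Hy hf (V_pow Hy w) hb]
    omega
  · rintro ⟨h1, h2, h3, h4, h5, h6⟩
    refine ⟨h1, h2, h3, h4, ⟨h5, by omega⟩, fun w hw hqw hlt => ?_⟩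
    obtain ⟨l, hl, hwl⟩ := (hf w).1 hw
    rw [fin_Lt Hy hf ha hwl, fin_Lt Hy hf hwl hb] at hlt
    exact h6 l ((X_of_V hwl).1 hqw) ⟨hlt.1.1, hlt.2.1⟩

theorem fin_chain (Hy : Hyp t z₀ H C K) {p q : G} {N : ℕ} (hf : Fin' t C K p N)
    (hA : Ax t C K p q) {a b : G} {i j : ℕ} (ha : V t C K a i) (hb : V t C K b j)
    (hab : Cons C K p q a b) : ∃ k, i = k ^ 2 ∧ j = (k + 1) ^ 2 := by
  refine squares_of_chain N (fun i => S C q (t ^ i))
    (fun i j => i ≤ N ∧ j ≤ N ∧ S C q (t ^ i) ∧ S C q (t ^ j) ∧ i < j ∧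
        ∀ w, S C q (t ^ w) → ¬ (i < w ∧ w < j)) (fun i j => Iff.rfl) ?_ j i
        ((fin_Cons Hy hf ha hb).1 hab)
  intro b hb hQ
  rcases hA.q2 (t ^ b) ((fin_X Hy hf (V_pow Hy b)).2 hb) ((X_of_V (V_pow Hy b)).2 hQ) with
    h1 | h1 | ⟨a, a', e, e', h1, h2, h3, h4, h5, h6, h7⟩
  · exact Or.inl ((V_E Hy (V_pow Hy b) (V_one Hy)).1 h1)
  · exact Or.inr (Or.inl ((V_E Hy (V_pow Hy b) (V_t Hy)).1 h1))
  · right; right
    obtain ⟨α, -, hα⟩ := (hf a).1 h1.1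
    obtain ⟨α', -, hα'⟩ := (hf a').1 h2.1
    obtain ⟨ε, -, hε⟩ := (hf e).1 h3
    obtain ⟨ε', -, hε'⟩ := (hf e').1 h4
    refine ⟨α, α', ε, ε', (fin_Cons Hy hf hα (V_pow Hy b)).1 h1, (fin_Cons Hy hf hα' hα).1 h2,
      (V_E Hy (V_mul Hy hα hε) (V_pow Hy b)).1 h5, (V_E Hy (V_mul Hy hα' hε') hα).1 h6,
      (V_E Hy (V_mul Hy (V_mul Hy hε' (V_t Hy)) (V_t Hy)) hε).1 h7⟩

theorem fin_Sqr (Hy : Hyp t z₀ H C K) {p q : G} {N : ℕ} (hf : Fin' t C K p N)
    (hA : Ax t C K p q) {k b : G} {i j : ℕ} (hk : V t C K k i) (hb : V t C K b j)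
    (hs : Sqr t C K p q k b) : j = i ^ 2 := by
  rcases hs with ⟨h1, h2⟩ | ⟨a, e, h1, h2, h3, h4⟩
  · have e1 := (V_E Hy hk (V_one Hy)).1 h1
    have e2 := (V_E Hy hb (V_one Hy)).1 h2
    simp [e1, e2]
  · obtain ⟨α, -, hα⟩ := (hf a).1 h1.1
    obtain ⟨ε, -, hε⟩ := (hf e).1 h2
    obtain ⟨l, hl1, hl2⟩ := fin_chain Hy hf hA hα hb h1
    have e1 := (V_E Hy (V_mul Hy hα hε) hb).1 h3
    have e2 := (V_E Hy (V_mul Hy hε (V_t Hy)) (V_mul Hy hk hk)).1 h4
    have e3 : ε = 2 * l + 1 := by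
      rw [hl1, hl2] at e1
      nlinarith
    have e4 : i = l + 1 := by omega
    rw [hl2, e4]

theorem fin_Mul (Hy : Hyp t z₀ H C K) {p q : G} {N : ℕ} (hf : Fin' t C K p N)
    (hA : Ax t C K p q) {x y z : G} {i j k : ℕ} (hx : V t C K x i) (hy : V t C K y j)
    (hz : V t C K z k) (hm : Mul t C K p q x y z) : i * j = k := by
  obtain ⟨a, b, c, h1, h2, h3, h4, h5, h6, h7⟩ := hm
  obtain ⟨α, -, hα⟩ := (hf a).1 h1
  obtain ⟨β, -, hβ⟩ := (hf b).1 h2
  obtain ⟨γ, -, hγ⟩ := (hf c).1 h3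
  have e1 := fin_Sqr Hy hf hA hx hα h4
  have e2 := fin_Sqr Hy hf hA hy hβ h5
  have e3 := fin_Sqr Hy hf hA (V_mul Hy hx hy) hγ h6
  have e4 := (V_E Hy hγ (V_mul Hy (V_mul Hy (V_mul Hy hα hβ) hz) hz)).1 h7
  rw [e1, e2, e3] at e4
  nlinarith

theorem fin_Sol (Hy : Hyp t z₀ H C K) {p q : G} {N : ℕ} (hf : Fin' t C K p N)
    (hA : Ax t C K p q) {k : ℕ} (hk : 0 < k) {L : List At} (hL : ∀ c ∈ L, AtLt k c) {n : ℕ}
    (hs : Sol t C K p q k L (t ^ n)) : ∃ x : ℕ → ℕ, x 0 = n ∧ ∀ c ∈ L, At.Holds x c := by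
  obtain ⟨x, hx1, hx2, hx3⟩ := hs
  choose v hv1 hv2 using fun i => (hf (x i)).1 (hx1 i)
  have hext : ∀ i < k, V t C K (ext x i) (if hi : i < k then v ⟨i, hi⟩ else 0) := by
    intro i hi
    simp only [ext, hi, dif_pos]
    exact hv2 _
  refine ⟨fun i => if hi : i < k then v ⟨i, hi⟩ else 0, ?_, fun c hc => ?_⟩
  · exact (V_E Hy (hext 0 hk) (V_pow Hy n)).1 hx2
  · have h1 := hx3 c hc
    have h2 := hL c hc
    cases c with
    | one i =>
      simp only [AtLt] at h2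
      exact (V_E Hy (hext i h2) (V_t Hy)).1 h1
    | add i j l =>
      simp only [AtLt] at h2
      exact (V_E Hy (V_mul Hy (hext i h2.1) (hext j h2.2.1)) (hext l h2.2.2)).1 h1
    | mul i j l =>
      simp only [AtLt] at h2
      exact fin_Mul Hy hf hA (hext i h2.1) (hext j h2.2.1) (hext l h2.2.2) h1

/-- a model of the axioms is either infinite or standard -/
theorem fin_or_inf (Hy : Hyp t z₀ H C K) {p q : G} (hA : Ax t C K p q) :
    (∀ i : ℕ, X C K p (t ^ i)) ∨ ∃ N, Fin' t C K p N := by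
  by_cases hall : ∀ i : ℕ, X C K p (t ^ i)
  · exact Or.inl hall
  right
  push Not at hall
  classical
  have hex : ∃ i : ℕ, ¬ X C K p (t ^ i) := hall
  let M := Nat.find hex
  have hM : ¬ X C K p (t ^ M) := Nat.find_spec hex
  have hlt : ∀ i < M, X C K p (t ^ i) := fun i hi => by
    have := Nat.find_min hex hi
    push Not at this
    exact this
  have hM0 : M ≠ 0 := by
    intro h0
    rw [h0, pow_zero] at hM
    exact hM hA.one
  obtain ⟨N, hN⟩ : ∃ N, M = N + 1 := ⟨M - 1, by omega⟩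
  refine ⟨N, fun x => ⟨fun hx => ?_, ?_⟩⟩
  · have hS : ∀ y ∈ K, (S C (code t z₀ (List.range (N + 1))) y ↔ ∃ i ∈ List.range (N + 1),
        E C y (t ^ i)) := fun y hy => S_code Hy List.nodup_range hy
    have h1 := hA.ind (code t z₀ (List.range (N + 1))) ⟨?_, ?_⟩ x hx
    · rw [hS x hx.1] at h1
      obtain ⟨i, hi, e⟩ := h1
      exact ⟨i, by rw [List.mem_range] at hi; omega, hx.1, e⟩
    · rw [hS 1 K.one_mem]
      exact ⟨0, by simp, by simpa using E.refl C 1⟩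
    · intro y hy hSy hty
      rw [hS y hy.1] at hSy
      obtain ⟨i, hi, e⟩ := hSy
      rw [List.mem_range] at hi
      have hV : V t C K (t * y) (1 + i) := V_mul Hy (V_t Hy) ⟨hy.1, e⟩
      rw [hS _ hV.1]
      refine ⟨1 + i, ?_, hV.2⟩
      rw [List.mem_range]
      by_contra hcon
      have : 1 + i = M := by omega
      rw [this] at hV
      apply hM
      have h3 := (X_of_V (q := p) hV).1 hty
      exact ⟨K.pow_mem Hy.mem _, h3⟩
  · rintro ⟨i, hi, hV⟩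
    rw [X_of_V hV]
    exact (hlt i (by omega)).2

end finite

section exact
variable {t z₀ : G} {H C K : Subgroup G}

/-- the squares up to `N` -/
def sqs (N : ℕ) : List ℕ := (List.range (N + 1)).filter fun i => i = Nat.sqrt i ^ 2

theorem mem_sqs {N i : ℕ} : i ∈ sqs N ↔ i ≤ N ∧ ∃ k, i = k ^ 2 := by
  unfold sqs
  rw [List.mem_filter, List.mem_range]
  simp only [decide_eq_true_eq]
  constructor
  · rintro ⟨h1, h2⟩
    exact ⟨by omega, _, h2⟩
  · rintro ⟨h1, k, h2⟩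
    refine ⟨by omega, ?_⟩
    rw [h2, Nat.sqrt_eq']

theorem fin_code (Hy : Hyp t z₀ H C K) (N : ℕ) : Fin' t C K (code t z₀ (List.range (N + 1))) N := by
  intro x
  unfold X
  constructor
  · rintro ⟨hx, hS⟩
    rw [S_code Hy List.nodup_range hx] at hS
    obtain ⟨i, hi, e⟩ := hS
    rw [List.mem_range] at hi
    exact ⟨i, by omega, hx, e⟩
  · rintro ⟨i, hi, hx, e⟩
    refine ⟨hx, ?_⟩
    rw [S_code Hy List.nodup_range hx]
    exact ⟨i, by rw [List.mem_range]; omega, e⟩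

theorem S_sqs (Hy : Hyp t z₀ H C K) (N i : ℕ) :
    S C (code t z₀ (sqs N)) (t ^ i) ↔ i ≤ N ∧ ∃ k, i = k ^ 2 := by
  rw [S_code Hy (show (sqs N).Nodup from List.nodup_range.filter _) (K.pow_mem Hy.mem i),
    ← mem_sqs]
  constructor
  · rintro ⟨j, hj, e⟩
    rwa [(E_pow_iff Hy i j).1 e]
  · intro hi
    exact ⟨i, hi, E.refl C _⟩

theorem no_square_between {k w l : ℕ} (h1 : k ^ 2 < w ^ 2) (h2 : w ^ 2 < l ^ 2)
    (h3 : l ≤ k + 1) : False := by
  have a1 : k < w := lt_of_pow_lt_pow_left₀ 2 (by omega) h1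
  have a2 : w < l := lt_of_pow_lt_pow_left₀ 2 (by omega) h2
  omega

theorem cons_code (Hy : Hyp t z₀ H C K) {N : ℕ} {a b : G} {i j : ℕ} (ha : V t C K a i)
    (hb : V t C K b j) :
    Cons C K (code t z₀ (List.range (N + 1))) (code t z₀ (sqs N)) a b ↔
      ∃ k, i = k ^ 2 ∧ j = (k + 1) ^ 2 ∧ j ≤ N := by
  rw [fin_Cons Hy (fin_code Hy N) ha hb]
  simp only [S_sqs Hy]
  constructor
  · rintro ⟨h1, h2, ⟨-, k, hk⟩, ⟨-, l, hl⟩, h5, h6⟩
    refine ⟨k, hk, ?_, h2⟩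
    rw [hk, hl] at h5
    have h7 : k < l := lt_of_pow_lt_pow_left₀ 2 (by omega) h5
    rcases Nat.lt_or_ge (k + 1) l with h8 | h8
    · exfalso
      have h9 : (k + 1) ^ 2 < l ^ 2 := Nat.pow_lt_pow_left h8 (by omega)
      refine h6 ((k + 1) ^ 2) ⟨by omega, _, rfl⟩ ⟨?_, by omega⟩
      rw [hk]
      exact Nat.pow_lt_pow_left (by omega) (by omega)
    · have : l = k + 1 := by omega
      rw [hl, this]
  · rintro ⟨k, rfl, rfl, h3⟩
    have h4 : k ^ 2 < (k + 1) ^ 2 := Nat.pow_lt_pow_left (by omega) (by omega)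
    refine ⟨by omega, h3, ⟨by omega, _, rfl⟩, ⟨h3, _, rfl⟩, h4, ?_⟩
    rintro w ⟨-, l, rfl⟩ ⟨h5, h6⟩
    exact no_square_between h5 h6 le_rfl

theorem ax_code (Hy : Hyp t z₀ H C K) {N : ℕ} (hN : 1 ≤ N) :
    Ax t C K (code t z₀ (List.range (N + 1))) (code t z₀ (sqs N)) where
  one := (fin_X Hy (fin_code Hy N) (V_one Hy)).2 (by omega)
  tt := (fin_X Hy (fin_code Hy N) (V_t Hy)).2 hN
  ind := by
    rintro r ⟨h0, hs⟩ x hx
    obtain ⟨i, hi, hxi⟩ := (fin_code Hy N x).1 hx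
    rw [S_congr hxi.2]
    clear hxi hx x
    induction i with
    | zero => simpa using h0
    | succ i ih =>
      have h1 := ih (by omega)
      have h2 := hs (t ^ i) ((fin_X Hy (fin_code Hy N) (V_pow Hy i)).2 (by omega)) h1
      rw [← pow_succ'] at h2
      exact h2 ((fin_X Hy (fin_code Hy N) (V_pow Hy (i + 1))).2 hi)
  q0 := (cons_code Hy (V_one Hy) (V_t Hy)).2 ⟨0, by simp, by simp, hN⟩
  q1 := by
    intro a b e c hab he hE hc hE2
    obtain ⟨α, -, hα⟩ := (fin_code Hy N a).1 hab.1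
    obtain ⟨β, -, hβ⟩ := (fin_code Hy N b).1 hab.2.1
    obtain ⟨ε, -, hε⟩ := (fin_code Hy N e).1 he
    obtain ⟨γ, hγN, hγ⟩ := (fin_code Hy N c).1 hc
    obtain ⟨k, hk1, hk2, hk3⟩ := (cons_code Hy hα hβ).1 hab
    have e1 := (V_E Hy (V_mul Hy hα hε) hβ).1 hE
    have e2 := (V_E Hy (V_mul Hy (V_mul Hy (V_mul Hy hβ hε) (V_t Hy)) (V_t Hy)) hγ).1 hE2
    refine (cons_code Hy hβ hγ).2 ⟨k + 1, hk2, ?_, hγN⟩
    have e3 : ε = 2 * k + 1 := by
      rw [hk1, hk2] at e1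
      nlinarith
    rw [← e2, e3, hk2]
    ring
  q2 := by
    intro b hb hQ
    obtain ⟨β, hβN, hβ⟩ := (fin_code Hy N b).1 hb
    obtain ⟨-, k, hk⟩ := (S_sqs Hy N β).1 ((X_of_V hβ).1 hQ)
    rcases k with _ | _ | k
    · left
      rw [V_E Hy hβ (V_one Hy), hk]
      simp
    · right; left
      rw [V_E Hy hβ (V_t Hy), hk]
      simp
    · right; right
      have e1 : (k + 1) ^ 2 ≤ (k + 1 + 1) ^ 2 := Nat.pow_le_pow_left (by omega) _
      have e2 : 2 * (k + 1) + 1 ≤ (k + 1 + 1) ^ 2 := by nlinarith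
      have e3 : 2 * k + 1 ≤ (k + 1) ^ 2 := by nlinarith
      refine ⟨t ^ ((k + 1) ^ 2), t ^ (k ^ 2), t ^ (2 * (k + 1) + 1), t ^ (2 * k + 1),
        (cons_code Hy (V_pow Hy _) hβ).2 ⟨k + 1, rfl, hk, hβN⟩,
        (cons_code Hy (V_pow Hy _) (V_pow Hy _)).2 ⟨k, rfl, rfl, by omega⟩,
        (fin_X Hy (fin_code Hy N) (V_pow Hy _)).2 (by omega),
        (fin_X Hy (fin_code Hy N) (V_pow Hy _)).2 (by omega), ?_, ?_, ?_⟩
      · rw [V_E Hy (V_mul Hy (V_pow Hy _) (V_pow Hy _)) hβ, hk]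
        ring
      · rw [V_E Hy (V_mul Hy (V_pow Hy _) (V_pow Hy _)) (V_pow Hy _)]
        ring
      · rw [V_E Hy (V_mul Hy (V_mul Hy (V_pow Hy _) (V_t Hy)) (V_t Hy)) (V_pow Hy _)]
        ring

end exact

section theta
variable {t z₀ : G} {H C K : Subgroup G}

theorem theta_pos (Hy : Hyp t z₀ H C K) {A B : ℕ → Prop} {kA kB : ℕ} {LA LB : List At}
    (hkA : 0 < kA) (hkB : 0 < kB) (hLA : ∀ c ∈ LA, AtLt kA c) (hLB : ∀ c ∈ LB, AtLt kB c)
    (hA : ∀ n, A n ↔ ∃ x : ℕ → ℕ, x 0 = n ∧ ∀ c ∈ LA, At.Holds x c)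
    (hB : ∀ n, B n ↔ ∃ x : ℕ → ℕ, x 0 = n ∧ ∀ c ∈ LB, At.Holds x c)
    (hAB : ∀ n, A n → ¬ B n) (n : ℕ) (hn : A n) : Theta t C K kA LA kB LB (t ^ n) := by
  obtain ⟨x, hx0, hx⟩ := (hA n).1 hn
  let N := (2 * ∑ i ∈ Finset.range kA, x i) ^ 2 + 1
  have hle : ∀ i < kA, x i ≤ ∑ i ∈ Finset.range kA, x i := fun i hi =>
    Finset.single_le_sum (f := x) (fun _ _ => Nat.zero_le _) (Finset.mem_range.2 hi)
  have hN : ∀ i < kA, ∀ j < kA, (x i + x j) ^ 2 ≤ N := by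
    intro i hi j hj
    have h1 := hle i hi
    have h2 := hle j hj
    have h3 : x i + x j ≤ 2 * ∑ i ∈ Finset.range kA, x i := by omega
    exact le_trans (Nat.pow_le_pow_left h3 2) (Nat.le_succ _)
  have hax := ax_code Hy (N := N) (by omega)
  refine ⟨_, _, hax, ?_, ?_⟩
  · rw [← hx0]
    exact sol_pos (fun i hi => (fin_X Hy (fin_code Hy N) (V_pow Hy i)).2 hi) hax hkA hLA x hx hN
  · intro hs
    exact hAB n hn ((hB n).2 (fin_Sol Hy (fin_code Hy N) hax hkB hLB hs))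

theorem theta_neg (Hy : Hyp t z₀ H C K) {A B : ℕ → Prop} {kA kB : ℕ} {LA LB : List At}
    (hkA : 0 < kA) (hkB : 0 < kB) (hLA : ∀ c ∈ LA, AtLt kA c) (hLB : ∀ c ∈ LB, AtLt kB c)
    (hA : ∀ n, A n ↔ ∃ x : ℕ → ℕ, x 0 = n ∧ ∀ c ∈ LA, At.Holds x c)
    (hB : ∀ n, B n ↔ ∃ x : ℕ → ℕ, x 0 = n ∧ ∀ c ∈ LB, At.Holds x c)
    (hAB : ∀ n, A n → ¬ B n) (n : ℕ) (hn : B n) : ¬ Theta t C K kA LA kB LB (t ^ n) := by
  rintro ⟨p, q, hax, hsA, hsB⟩
  rcases fin_or_inf Hy hax with hinf | ⟨N, hfin⟩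
  · apply hsB
    obtain ⟨x, hx0, hx⟩ := (hB n).1 hn
    rw [← hx0]
    let N := (2 * ∑ i ∈ Finset.range kB, x i) ^ 2 + 1
    have hle : ∀ i < kB, x i ≤ ∑ i ∈ Finset.range kB, x i := fun i hi =>
      Finset.single_le_sum (f := x) (fun _ _ => Nat.zero_le _) (Finset.mem_range.2 hi)
    have hN : ∀ i < kB, ∀ j < kB, (x i + x j) ^ 2 ≤ N := by
      intro i hi j hj
      have h1 := hle i hi
      have h2 := hle j hj
      have h3 : x i + x j ≤ 2 * ∑ i ∈ Finset.range kB, x i := by omega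
      exact le_trans (Nat.pow_le_pow_left h3 2) (Nat.le_succ _)
    exact sol_pos (N := N) (fun i _ => hinf i) hax hkB hLB x hx hN
  · exact hAB n ((hA n).2 (fin_Sol Hy hfin hax hkA hLA hsA)) hn

end theta

end Pool.Agent.Helper657_nd.W
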