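import Pool.Agent.Helper657_nd.W

set_option autoImplicit false

/-!
# Commuting conjugates: definability of the separating formula
-/

namespace Pool.Agent.Helper657_nd.W

open Pool.Agent.Helper948.ProP (At)

variable {G : Type} [Group G]

/-- a tuple of terms -/
def Tms {m : ℕ} (p : (ℕ → G) → Fin m → G) : Prop := ∀ j, Tm fun s => p s j

theorem Tms.ren {m : ℕ} {p : (ℕ → G) → Fin m → G} (hp : Tms p) (r : ℕ → ℕ) :
    Tms fun s => p fun n => s (r n) := fun j => Tm.ren (hp j) r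

variable (t : G) {C K : Subgroup G} (hC : DefinableSet (C : Set G))
  (hK : DefinableSet (K : Set G))

include hC in
theorem df_E {f g : (ℕ → G) → G} (hf : Tm f) (hg : Tm g) : Df fun s => E C (f s) (g s) := by
  unfold E
  apply Df.uni (R := fun x s => (f s)⁻¹ * x * f s ∈ C ↔ (g s)⁻¹ * x * g s ∈ C)
  have hf2 := hf.ren (fun n => n + 1)
  have hg2 := hg.ren (fun n => n + 1)
  exact (DefinableSet.df hC ((hf2.inv.mul (Tm.var 0)).mul hf2)).iff
    (DefinableSet.df hC ((hg2.inv.mul (Tm.var 0)).mul hg2))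

include hC in
theorem df_S {p : (ℕ → G) → G} {f : (ℕ → G) → G} (hp : Tm p) (hf : Tm f) :
    Df fun s => S C (p s) (f s) :=
  (DefinableSet.df hC ((hf.inv.mul hp).mul hf)).not

include hC hK in
theorem df_X {p : (ℕ → G) → G} {f : (ℕ → G) → G} (hp : Tm p) (hf : Tm f) :
    Df fun s => X C K (p s) (f s) := (DefinableSet.df hK hf).and (df_S hC hp hf)

include hC hK in
theorem df_Lt {p : (ℕ → G) → G} {a b : (ℕ → G) → G} (hp : Tm p) (ha : Tm a)
    (hb : Tm b) : Df fun s => Lt C K (p s) (a s) (b s) := by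
  unfold Lt
  apply Df.exi (R := fun g s => X C K (p s) g ∧ ¬ E C g 1 ∧ E C (a s * g) (b s))
  exact (df_X hC hK (hp.ren _) (Tm.var 0)).and ((df_E hC (Tm.var 0) (Tm.const 1)).not.and
    (df_E hC ((ha.ren _).mul (Tm.var 0)) (hb.ren _)))

include hC hK in
theorem df_Cons {p q : (ℕ → G) → G} {a b : (ℕ → G) → G} (hp : Tm p) (hq : Tm q)
    (ha : Tm a) (hb : Tm b) : Df fun s => Cons C K (p s) (q s) (a s) (b s) := by
  unfold Cons
  refine (df_X hC hK hp ha).and ((df_X hC hK hp hb).and ((df_X hC hK hq ha).and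
    ((df_X hC hK hq hb).and ((df_Lt hC hK hp ha hb).and ?_))))
  apply Df.uni (R := fun w s => X C K (p s) w → X C K (q s) w →
    ¬ (Lt C K (p s) (a s) w ∧ Lt C K (p s) w (b s)))
  exact (df_X hC hK (hp.ren _) (Tm.var 0)).imp ((df_X hC hK (hq.ren _) (Tm.var 0)).imp
    ((df_Lt hC hK (hp.ren _) (ha.ren _) (Tm.var 0)).and
      (df_Lt hC hK (hp.ren _) (Tm.var 0) (hb.ren _))).not)

include hC hK in
theorem df_Sqr {p q : (ℕ → G) → G} {a b : (ℕ → G) → G} (hp : Tm p) (hq : Tm q)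
    (ha : Tm a) (hb : Tm b) : Df fun s => Sqr t C K (p s) (q s) (a s) (b s) := by
  unfold Sqr
  refine ((df_E hC ha (Tm.const 1)).and (df_E hC hb (Tm.const 1))).or ?_
  apply Df.exi (R := fun x s => ∃ e, Cons C K (p s) (q s) x (b s) ∧ X C K (p s) e ∧
    E C (x * e) (b s) ∧ E C (e * t) (a s * a s))
  apply Df.exi (R := fun e s => Cons C K (p fun n => s (n + 1)) (q fun n => s (n + 1)) (s 0)
    (b fun n => s (n + 1)) ∧ X C K (p fun n => s (n + 1)) e ∧
    E C (s 0 * e) (b fun n => s (n + 1)) ∧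
      E C (e * t) ((a fun n => s (n + 1)) * a fun n => s (n + 1)))
  have hp2 := (hp.ren (fun n => n + 1)).ren (fun n => n + 1)
  have hq2 := (hq.ren (fun n => n + 1)).ren (fun n => n + 1)
  have ha2 := (ha.ren (fun n => n + 1)).ren (fun n => n + 1)
  have hb2 := (hb.ren (fun n => n + 1)).ren (fun n => n + 1)
  exact (df_Cons hC hK hp2 hq2 (Tm.var 1) hb2).and ((df_X hC hK hp2 (Tm.var 0)).and
    ((df_E hC ((Tm.var 1).mul (Tm.var 0)) hb2).and
      (df_E hC ((Tm.var 0).mul (Tm.const t)) (ha2.mul ha2))))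

include hC hK in
theorem df_Mul {p q : (ℕ → G) → G} {x y z : (ℕ → G) → G} (hp : Tm p) (hq : Tm q)
    (hx : Tm x) (hy : Tm y) (hz : Tm z) :
    Df fun s => Mul t C K (p s) (q s) (x s) (y s) (z s) := by
  unfold Mul
  refine Df.congr (R := fun s => ∃ v : Fin 3 → G, X C K (p s) (v 0) ∧ X C K (p s) (v 1) ∧
    X C K (p s) (v 2) ∧ Sqr t C K (p s) (q s) (x s) (v 0) ∧ Sqr t C K (p s) (q s) (y s) (v 1) ∧
    Sqr t C K (p s) (q s) (x s * y s) (v 2) ∧ E C (v 2) (v 0 * v 1 * z s * z s)) ?_ ?_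
  · apply Df.exiTuple
    have hp2 := hp.ren (fun n => n + 3)
    have hq2 := hq.ren (fun n => n + 3)
    have hx2 := hx.ren (fun n => n + 3)
    have hy2 := hy.ren (fun n => n + 3)
    have hz2 := hz.ren (fun n => n + 3)
    exact (df_X hC hK hp2 (Tm.var 0)).and ((df_X hC hK hp2 (Tm.var 1)).and
      ((df_X hC hK hp2 (Tm.var 2)).and ((df_Sqr t hC hK hp2 hq2 hx2 (Tm.var 0)).and
      ((df_Sqr t hC hK hp2 hq2 hy2 (Tm.var 1)).and
      ((df_Sqr t hC hK hp2 hq2 (hx2.mul hy2) (Tm.var 2)).and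
      (df_E hC (Tm.var 2) ((((Tm.var 0).mul (Tm.var 1)).mul hz2).mul hz2)))))))
  · intro s
    constructor
    · rintro ⟨a, b, c, hh⟩
      exact ⟨![a, b, c], hh⟩
    · rintro ⟨v, hh⟩
      exact ⟨v 0, v 1, v 2, hh⟩

include hC hK in
theorem df_Ax {p q : (ℕ → G) → G} (hp : Tm p) (hq : Tm q) :
    Df fun s => Ax t C K (p s) (q s) := by
  have h1 : Df fun s => X C K (p s) 1 := df_X hC hK hp (Tm.const 1)
  have h2 : Df fun s => X C K (p s) t := df_X hC hK hp (Tm.const t)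
  have h3 : Df fun s => ∀ r : G, (S C r 1 ∧ ∀ y, X C K (p s) y → S C r y →
      X C K (p s) (t * y) → S C r (t * y)) → ∀ x, X C K (p s) x → S C r x := by
    apply Df.uni (R := fun r s => (S C r 1 ∧ ∀ y, X C K (p s) y → S C r y →
      X C K (p s) (t * y) → S C r (t * y)) → ∀ x, X C K (p s) x → S C r x)
    have hp2 := hp.ren (fun n => n + 1)
    have hp3 := hp2.ren (fun n => n + 1)
    refine Df.imp (Df.and (df_S hC (Tm.var 0) (Tm.const 1)) ?_) ?_
    · apply Df.uni (R := fun y s => X C K (p fun n => s (n + 1)) y → S C (s 0) y →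
        X C K (p fun n => s (n + 1)) (t * y) → S C (s 0) (t * y))
      exact (df_X hC hK hp3 (Tm.var 0)).imp ((df_S hC (Tm.var 1) (Tm.var 0)).imp
        ((df_X hC hK hp3 ((Tm.const t).mul (Tm.var 0))).imp
          (df_S hC (Tm.var 1) ((Tm.const t).mul (Tm.var 0)))))
    · apply Df.uni (R := fun y s => X C K (p fun n => s (n + 1)) y → S C (s 0) y)
      exact (df_X hC hK hp3 (Tm.var 0)).imp (df_S hC (Tm.var 1) (Tm.var 0))
  have h4 : Df fun s => Cons C K (p s) (q s) 1 t := df_Cons hC hK hp hq (Tm.const 1) (Tm.const t)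
  have h5 : Df fun s => ∀ v : Fin 4 → G, Cons C K (p s) (q s) (v 0) (v 1) → X C K (p s) (v 2) →
      E C (v 0 * v 2) (v 1) → X C K (p s) (v 3) → E C (v 1 * v 2 * t * t) (v 3) →
        Cons C K (p s) (q s) (v 1) (v 3) := by
    apply Df.uniTuple
    have hp2 := hp.ren (fun n => n + 4)
    have hq2 := hq.ren (fun n => n + 4)
    exact (df_Cons hC hK hp2 hq2 (Tm.var 0) (Tm.var 1)).imp ((df_X hC hK hp2 (Tm.var 2)).imp
      ((df_E hC ((Tm.var 0).mul (Tm.var 2)) (Tm.var 1)).imp ((df_X hC hK hp2 (Tm.var 3)).imp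
      ((df_E hC ((((Tm.var 1).mul (Tm.var 2)).mul (Tm.const t)).mul (Tm.const t)) (Tm.var 3)).imp
      (df_Cons hC hK hp2 hq2 (Tm.var 1) (Tm.var 3))))))
  have h6 : Df fun s => ∀ b, X C K (p s) b → X C K (q s) b → E C b 1 ∨ E C b t ∨
      ∃ v : Fin 4 → G, Cons C K (p s) (q s) (v 0) b ∧ Cons C K (p s) (q s) (v 1) (v 0) ∧
      X C K (p s) (v 2) ∧ X C K (p s) (v 3) ∧ E C (v 0 * v 2) b ∧ E C (v 1 * v 3) (v 0) ∧
      E C (v 3 * t * t) (v 2) := by
    apply Df.uni (R := fun b s => X C K (p s) b → X C K (q s) b → E C b 1 ∨ E C b t ∨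
      ∃ v : Fin 4 → G, Cons C K (p s) (q s) (v 0) b ∧ Cons C K (p s) (q s) (v 1) (v 0) ∧
      X C K (p s) (v 2) ∧ X C K (p s) (v 3) ∧ E C (v 0 * v 2) b ∧ E C (v 1 * v 3) (v 0) ∧
      E C (v 3 * t * t) (v 2))
    have hp1 := hp.ren (fun n => n + 1)
    have hq1 := hq.ren (fun n => n + 1)
    refine (df_X hC hK hp1 (Tm.var 0)).imp ((df_X hC hK hq1 (Tm.var 0)).imp
      ((df_E hC (Tm.var 0) (Tm.const 1)).or ((df_E hC (Tm.var 0) (Tm.const t)).or ?_)))
    apply Df.exiTuple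
    have hp2 := hp1.ren (fun n => n + 4)
    have hq2 := hq1.ren (fun n => n + 4)
    exact (df_Cons hC hK hp2 hq2 (Tm.var 0) (Tm.var 4)).and
      ((df_Cons hC hK hp2 hq2 (Tm.var 1) (Tm.var 0)).and ((df_X hC hK hp2 (Tm.var 2)).and
      ((df_X hC hK hp2 (Tm.var 3)).and ((df_E hC ((Tm.var 0).mul (Tm.var 2)) (Tm.var 4)).and
      ((df_E hC ((Tm.var 1).mul (Tm.var 3)) (Tm.var 0)).and
      (df_E hC (((Tm.var 3).mul (Tm.const t)).mul (Tm.const t)) (Tm.var 2)))))))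
  refine (h1.and (h2.and (h3.and (h4.and (h5.and h6))))).congr fun s => ?_
  constructor
  · intro hA
    refine ⟨hA.one, hA.tt, hA.ind, hA.q0, fun v => hA.q1 _ _ _ _, fun b hb hb' => ?_⟩
    rcases hA.q2 b hb hb' with h7 | h7 | ⟨a, a', e, e', h7⟩
    · exact Or.inl h7
    · exact Or.inr (Or.inl h7)
    · exact Or.inr (Or.inr ⟨![a, a', e, e'], h7⟩)
  · rintro ⟨g1, g2, g3, g4, g5, g6⟩
    refine ⟨g1, g2, g3, g4, fun a b e c => g5 ![a, b, e, c], fun b hb hb' => ?_⟩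
    rcases g6 b hb hb' with h7 | h7 | ⟨v, h7⟩
    · exact Or.inl h7
    · exact Or.inr (Or.inl h7)
    · exact Or.inr (Or.inr ⟨v 0, v 1, v 2, v 3, h7⟩)

theorem tm_ext {k : ℕ} {x : (ℕ → G) → Fin k → G} (hx : Tms x) (i : ℕ) :
    Tm fun s => ext (x s) i := by
  unfold ext
  by_cases hi : i < k
  · simp only [hi, dif_pos]
    exact hx _
  · simp only [hi, dif_neg, not_false_eq_true]
    exact Tm.const 1

include hC hK in
theorem df_Hold {p q : (ℕ → G) → G} (hp : Tm p) (hq : Tm q) {k : ℕ}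
    {x : (ℕ → G) → Fin k → G} (hx : Tms x) (c : At) :
    Df fun s => Hold t C K (p s) (q s) (ext (x s)) c := by
  cases c with
  | one i => exact df_E hC (tm_ext hx i) (Tm.const t)
  | add i j l => exact df_E hC ((tm_ext hx i).mul (tm_ext hx j)) (tm_ext hx l)
  | mul i j l => exact df_Mul t hC hK hp hq (tm_ext hx i) (tm_ext hx j) (tm_ext hx l)

include hC hK in
theorem df_Sol {p q : (ℕ → G) → G} (hp : Tm p) (hq : Tm q) (k : ℕ) (L : List At)
    {u : (ℕ → G) → G} (hu : Tm u) : Df fun s => Sol t C K (p s) (q s) k L (u s) := by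
  unfold Sol
  apply Df.exiTuple
  have hp2 := hp.ren (fun n => n + k)
  have hq2 := hq.ren (fun n => n + k)
  have hx : Tms fun (s : ℕ → G) (i : Fin k) => s i := fun i => Tm.var i
  refine Df.and (Df.forallFin fun i => df_X hC hK hp2 (Tm.var i)) ((df_E hC (tm_ext hx 0)
    (hu.ren _)).and ?_)
  exact Df.forallList L fun c _ => df_Hold t hC hK hp2 hq2 hx c

include hC hK in
theorem df_Theta (kA : ℕ) (LA : List At) (kB : ℕ) (LB : List At) :
    Df fun s => Theta t C K kA LA kB LB (s 0) := by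
  unfold Theta
  apply Df.exi (R := fun p s => ∃ q : G, Ax t C K p q ∧
    Sol t C K p q kA LA (s 0) ∧ ¬ Sol t C K p q kB LB (s 0))
  apply Df.exi (R := fun q s => Ax t C K (s 0) q ∧
    Sol t C K (s 0) q kA LA (s 1) ∧ ¬ Sol t C K (s 0) q kB LB (s 1))
  exact (df_Ax t hC hK (Tm.var 1) (Tm.var 0)).and ((df_Sol t hC hK (Tm.var 1) (Tm.var 0) kA LA
    (Tm.var 2)).and (df_Sol t hC hK (Tm.var 1) (Tm.var 0) kB LB (Tm.var 2)).not)

/-- Groups with commuting conjugates are not `n`-decidable for some `n`. -/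
theorem main {t z₀ : G} {H C K : Subgroup G} (Hy : Hyp t z₀ H C K)
    (hC : DefinableSet (C : Set G)) (hK : DefinableSet (K : Set G)) :
    Undec G := by
  obtain ⟨A, B, hA, hB, hAB, hsep⟩ := exists_insep
  obtain ⟨kA, LA, hkA, hLA, hA'⟩ := exists_atoms_bdd hA
  obtain ⟨kB, LB, hkB, hLB, hB'⟩ := exists_atoms_bdd hB
  refine Undec.of_sep (df_Theta t hC hK kA LA kB LB) t A B hsep ?_ ?_
  · exact fun n hn => theta_pos Hy hkA hkB hLA hLB hA' hB' hAB n hn
  · exact fun n hn => theta_neg Hy hkA hkB hLA hLB hA' hB' hAB n hn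

end Pool.Agent.Helper657_nd.W
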