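import Pool.Agent.Helper657_nd.CaseU

set_option autoImplicit false

/-!
# Definable abelian subgroups and the action of the normalizer
-/

namespace Pool.Agent.Helper657_nd.Weyl

open Crit

section emb
variable {G M : Type} [Group G] [AddCommGroup M]

/-- `ι` identifies the additive group `M` with the subgroup `A`. -/
structure Emb (A : Subgroup G) (ι : M → G) : Prop where
  inj : Function.Injective ι
  add : ∀ x y, ι (x + y) = ι x * ι y
  mem : ∀ g, g ∈ A ↔ ∃ y, ι y = g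

variable {A : Subgroup G} {ι : M → G} (E : Emb A ι)
include E

theorem Emb.zero : ι 0 = 1 := by
  have h := E.add 0 0
  rw [add_zero] at h
  have h2 : ι 0 * 1 = ι 0 * ι 0 := by rw [mul_one]; exact h
  exact (mul_left_cancel h2).symm

theorem Emb.neg (x : M) : ι (-x) = (ι x)⁻¹ := by
  apply eq_inv_of_mul_eq_one_left
  rw [← E.add, neg_add_cancel, E.zero]

theorem Emb.sub (x y : M) : ι (x - y) = ι x * (ι y)⁻¹ := by
  rw [sub_eq_add_neg, E.add, E.neg]

theorem Emb.nsmul (n : ℕ) (x : M) : ι (n • x) = ι x ^ n := by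
  induction n with
  | zero => rw [zero_smul, pow_zero, E.zero]
  | succ n ih => rw [succ_nsmul, E.add, ih, pow_succ]

theorem Emb.memι (x : M) : ι x ∈ A := (E.mem _).2 ⟨x, rfl⟩

theorem Emb.comm {a b : G} (ha : a ∈ A) (hb : b ∈ A) : a * b = b * a := by
  obtain ⟨x, rfl⟩ := (E.mem a).1 ha
  obtain ⟨y, rfl⟩ := (E.mem b).1 hb
  rw [← E.add, ← E.add, add_comm]

theorem Emb.exists_act {d : G} (hd : d ∈ Subgroup.normalizer (A : Set G)) :
    ∃ φ : Module.End ℤ M, ∀ y, ι (φ y) = d * ι y * d⁻¹ := by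
  have h1 : ∀ y : M, ∃ z, ι z = d * ι y * d⁻¹ := fun y =>
    (E.mem _).1 ((Subgroup.mem_normalizer_iff.1 hd _).1 (E.memι y))
  choose f hf using h1
  let g : M →+ M :=
    { toFun := f
      map_zero' := by
        apply E.inj
        rw [hf, E.zero]
        group
      map_add' := fun x y => by
        apply E.inj
        rw [hf, E.add, E.add, hf, hf]
        group }
  exact ⟨g.toIntLinearMap, hf⟩

/-- action of the normalizer -/
noncomputable def Emb.act {d : G} (hd : d ∈ Subgroup.normalizer (A : Set G)) :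
    Module.End ℤ M := (E.exists_act hd).choose

theorem Emb.act_spec {d : G} (hd : d ∈ Subgroup.normalizer (A : Set G)) (y : M) :
    ι (E.act hd y) = d * ι y * d⁻¹ := (E.exists_act hd).choose_spec y

theorem Emb.act_unique {d : G} (hd : d ∈ Subgroup.normalizer (A : Set G)) (φ : Module.End ℤ M)
    (h : ∀ y, ι (φ y) = d * ι y * d⁻¹) : φ = E.act hd := by
  ext1 y
  apply E.inj
  rw [h, E.act_spec]

theorem Emb.act_one : E.act (Subgroup.one_mem _) = 1 := by
  symm
  apply E.act_unique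
  intro y
  simp

theorem Emb.act_mul {d e : G} (hd : d ∈ Subgroup.normalizer (A : Set G))
    (he : e ∈ Subgroup.normalizer (A : Set G)) :
    E.act (Subgroup.mul_mem _ hd he) = E.act hd * E.act he := by
  symm
  apply E.act_unique
  intro y
  show ι (E.act hd (E.act he y)) = _
  rw [E.act_spec, E.act_spec]
  group

theorem Emb.act_pow {d : G} (hd : d ∈ Subgroup.normalizer (A : Set G)) (n : ℕ) :
    E.act (Subgroup.pow_mem _ hd n) = E.act hd ^ n := by
  induction n with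
  | zero =>
    symm
    apply E.act_unique
    intro y
    simp
  | succ n ih =>
    symm
    apply E.act_unique
    intro y
    rw [pow_succ]
    show ι ((E.act hd ^ n) (E.act hd y)) = _
    rw [← ih, E.act_spec, E.act_spec, pow_succ]
    group

theorem Emb.act_inv {d : G} (hd : d ∈ Subgroup.normalizer (A : Set G)) :
    E.act hd * E.act (Subgroup.inv_mem _ hd) = 1 := by
  ext1 y
  apply E.inj
  show ι (E.act hd (E.act (Subgroup.inv_mem _ hd) y)) = ι y
  rw [E.act_spec, E.act_spec]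
  group

end emb

/-- `d a d⁻¹ a⁻¹` -/
def cm {G : Type} [Group G] (d a : G) : G := d * a * d⁻¹ * a⁻¹

section transport
variable {G M : Type} [Group G] [AddCommGroup M]

/-- transport of data along an embedding of the additive group `M` into `G` -/
theorem DataM.toData {O : Type} [CommRing O] {x₁ : M} {c : ℕ} {Dom : M → Prop}
    {Eq : M → M → Prop} {Mul : M → M → M → Prop} {V : M → O → Prop}
    (H : DataM O x₁ c Dom Eq Mul V) (ι : M → G) (hinj : Function.Injective ι)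
    (hadd : ∀ x y, ι (x + y) = ι x * ι y) (hpow : ∀ (k : ℕ) (x : M), ι (k • x) = ι x ^ k)
    (Dom' : G → Prop) (Eq' : G → G → Prop) (Mul' : G → G → G → Prop)
    (hDom : ∀ g, Dom' g → ∃ y, ι y = g) (hDom' : ∀ y, Dom' (ι y) ↔ Dom y)
    (hEq : ∀ x y, Dom x → Dom y → (Eq' (ι x) (ι y) ↔ Eq x y))
    (hMul : ∀ x y z, Dom x → Dom y → Dom z → (Mul' (ι x) (ι y) (ι z) ↔ Mul x y z)) :
    Data O (ι x₁) c Dom' Eq' (fun x y z => x * y = z) Mul' (fun g o => ∃ y, ι y = g ∧ V y o) where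
  hc := H.hc
  dom := by
    intro g hg
    obtain ⟨y, rfl⟩ := hDom g hg
    obtain ⟨o, ho⟩ := H.dom y ((hDom' y).1 hg)
    exact ⟨o, y, rfl, ho⟩
  eq := by
    rintro g g' o o' hg hg' ⟨y, rfl, hy⟩ ⟨y', rfl, hy'⟩
    rw [hEq y y' ((hDom' y).1 hg) ((hDom' y').1 hg')]
    exact H.eq y y' o o' ((hDom' y).1 hg) ((hDom' y').1 hg') hy hy'
  fn := by
    rintro g o o' hg ⟨y, rfl, hy⟩ ⟨y', hyy', hy'⟩
    have := hinj hyy'
    subst this
    exact H.fn y' o o' ((hDom' y').1 hg) hy hy'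
  dom_pow := by
    intro k
    rw [← hpow, hDom']
    exact H.dom_pow k
  V_pow := fun k => ⟨k • x₁, hpow k x₁, H.V_pow k⟩
  add := by
    rintro x y z a b d hx hy hz ⟨x', rfl, hx'⟩ ⟨y', rfl, hy'⟩ ⟨z', rfl, hz'⟩ h
    rw [← hadd] at h
    exact H.add x' y' z' a b d ((hDom' x').1 hx) ((hDom' y').1 hy) ((hDom' z').1 hz) hx' hy' hz'
      (hinj h)
  add_pow := fun i j => (pow_add _ _ _).symm
  mul := by
    rintro x y z a b d hx hy hz ⟨x', rfl, hx'⟩ ⟨y', rfl, hy'⟩ ⟨z', rfl, hz'⟩ h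
    exact H.mul x' y' z' a b d ((hDom' x').1 hx) ((hDom' y').1 hy) ((hDom' z').1 hz) hx' hy' hz'
      ((hMul x' y' z' ((hDom' x').1 hx) ((hDom' y').1 hy) ((hDom' z').1 hz)).1 h)
  mul_pow := by
    intro i j
    rw [← hpow, ← hpow, ← hpow, hMul _ _ _ (H.dom_pow i) (H.dom_pow j) (H.dom_pow (i * j))]
    exact H.mul_pow i j

end transport

/-- dichotomy: for a suitable power `α ^ e` and exponent `j` no power of `α` has a non-trivial
fixed point on the image of `(α ^ e - 1) ^ j` -/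
theorem dichotomy {R M : Type} [CommRing R] [AddCommGroup M] [Module R M] [IsNoetherian R M]
    (α : R) : ∃ e : ℕ, 0 < e ∧ ∃ j : ℕ, ∀ k : ℕ, 0 < k → ∀ y : M,
      (α ^ k - 1) • (α ^ e - 1) ^ j • y = 0 → (α ^ e - 1) ^ j • y = 0 := by
  let K : ℕ → ℕ → Submodule R M := fun k i => LinearMap.ker (LinearMap.lsmul R M ((α ^ k - 1) ^ i))
  have hK : ∀ k i y, y ∈ K k i ↔ (α ^ k - 1) ^ i • y = 0 := by
    intro k i y
    simp [K]
  have hdvd : ∀ k l i j : ℕ, i ≤ j → (α ^ k - 1) ^ i ∣ (α ^ (k * l) - 1) ^ j := by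
    intro k l i j hij
    have h1 : α ^ k - 1 ∣ α ^ (k * l) - 1 := by
      rw [pow_mul]
      exact sub_one_dvd_pow_sub_one (α ^ k) l
    exact (pow_dvd_pow_of_dvd h1 i).trans (pow_dvd_pow _ hij)
  have hle : ∀ k l i j : ℕ, i ≤ j → K k i ≤ K (k * l) j := by
    intro k l i j hij y hy
    rw [hK] at hy ⊢
    obtain ⟨r, hr⟩ := hdvd k l i j hij
    rw [hr, mul_comm, mul_smul, hy, smul_zero]
  obtain ⟨K₀, ⟨⟨e, j⟩, he, rfl⟩, hmax⟩ :=
    (set_has_maximal_iff_noetherian (R := R) (M := M)).2 inferInstance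
      ((fun p : ℕ × ℕ => K p.1 p.2) '' {p | 0 < p.1}) ⟨_, (1, 0), Nat.one_pos, rfl⟩
  have he' : 0 < e := he
  refine ⟨e, he', j, fun k hk y hy => ?_⟩
  have h1 : y ∈ K (e * k) (j + 1) := by
    rw [hK, pow_succ']
    obtain ⟨r, hr⟩ := hdvd e k j j le_rfl
    obtain ⟨s, hs⟩ := hdvd k e 1 1 le_rfl
    rw [pow_one, pow_one, mul_comm k e] at hs
    rw [hr, hs]
    have : (α ^ k - 1) * s * ((α ^ e - 1) ^ j * r) = (s * r) * ((α ^ k - 1) * (α ^ e - 1) ^ j) := by
      ring
    rw [this, mul_smul, mul_smul (α ^ k - 1), hy, smul_zero]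
  have h2 : K e j = K (e * k) (j + 1) := by
    by_contra hne
    exact hmax _ ⟨(e * k, j + 1), Nat.mul_pos he' hk, rfl⟩
      (lt_of_le_of_ne (hle e k j (j + 1) (by omega)) hne)
  rw [← h2, hK] at h1
  exact h1

end Pool.Agent.Helper657_nd.Weyl
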