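import Pool.Agent.Helper657_nd.WeylS

set_option autoImplicit false

/-!
# Definable abelian subgroups: unipotent case
-/

namespace Pool.Agent.Helper657_nd.Weyl

open Crit

section defs
variable {G : Type} [Group G]

def WG (A : Subgroup G) (s : G) (w : G) : Prop := w ∈ A ∧ cm s w = 1
def VG (A : Subgroup G) (s : G) (v : G) : Prop := v ∈ A ∧ cm s (cm s v) = 1

def UG (A : Subgroup G) (s : G) (u : G) : Prop :=
  u ∈ Subgroup.normalizer (A : Set G) ∧ (∀ w, WG A s w → cm u w = 1) ∧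
    ∀ v, VG A s v → WG A s (cm u v)

def UX (A : Subgroup G) (s u₀ : G) (u : G) : Prop :=
  UG A s u ∧ ∀ v, VG A s v → cm u₀ v = 1 → cm u v = 1

def K0G (A : Subgroup G) (s u₀ v₁ : G) (v : G) : Prop :=
  VG A s v ∧ ∀ u, UX A s u₀ u → ∃ u', UX A s u₀ u' ∧ cm u v = cm u' v₁

def DomUG (A : Subgroup G) (s u₀ v₁ : G) (v : G) : Prop :=
  K0G A s u₀ v₁ v ∧ ∀ v', K0G A s u₀ v₁ v' → ∀ u, UX A s u₀ u → ∃ p : Fin 2 → G,
    UX A s u₀ (p 0) ∧ UX A s u₀ (p 1) ∧ cm u v' = cm (p 0) v₁ ∧ cm u v = cm (p 1) v₁ ∧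
      cm (p 0) v = cm (p 1) v'

def MulUG (A : Subgroup G) (s u₀ v₁ : G) (v v' v'' : G) : Prop :=
  ∀ u, UX A s u₀ u → ∃ u₂, UX A s u₀ u₂ ∧ cm u v' = cm u₂ v₁ ∧ cm u₂ v = cm u v''

variable {A : Subgroup G} (hA : DefinableSet (A : Set G)) (s₀ u₀ v₁ : G)
include hA

theorem def_WG : Def1 (WG A s₀) :=
  (DefinableSet.df hA (Tm.var 0)).and (Df.eq (Tm.cm (Tm.const _) (Tm.var 0)) (Tm.const 1))

theorem def_VG : Def1 (VG A s₀) :=
  (DefinableSet.df hA (Tm.var 0)).and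
    (Df.eq (Tm.cm (Tm.const _) (Tm.cm (Tm.const _) (Tm.var 0))) (Tm.const 1))

theorem def_UG : Def1 (UG A s₀) := by
  refine (df_normalizer hA (Tm.var 0)).and (Df.and ?_ ?_)
  · apply Df.uni (R := fun w s => WG A s₀ w → cm (s 0) w = 1)
    exact ((def_WG hA s₀).sub (Tm.var 0)).imp (Df.eq (Tm.cm (Tm.var 1) (Tm.var 0)) (Tm.const 1))
  · apply Df.uni (R := fun v s => VG A s₀ v → WG A s₀ (cm (s 0) v))
    exact ((def_VG hA s₀).sub (Tm.var 0)).imp ((def_WG hA s₀).sub (Tm.cm (Tm.var 1) (Tm.var 0)))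

theorem def_UX : Def1 (UX A s₀ u₀) := by
  refine ((def_UG hA s₀).sub (Tm.var 0)).and ?_
  apply Df.uni (R := fun v s => VG A s₀ v → cm u₀ v = 1 → cm (s 0) v = 1)
  exact ((def_VG hA s₀).sub (Tm.var 0)).imp ((Df.eq (Tm.cm (Tm.const _) (Tm.var 0))
    (Tm.const 1)).imp (Df.eq (Tm.cm (Tm.var 1) (Tm.var 0)) (Tm.const 1)))

theorem def_K0G : Def1 (K0G A s₀ u₀ v₁) := by
  refine ((def_VG hA s₀).sub (Tm.var 0)).and ?_
  apply Df.uni (R := fun u s => UX A s₀ u₀ u → ∃ u', UX A s₀ u₀ u' ∧ cm u (s 0) = cm u' v₁)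
  refine ((def_UX hA s₀ u₀).sub (Tm.var 0)).imp ?_
  apply Df.exi (R := fun u' s => UX A s₀ u₀ u' ∧ cm (s 0) (s 1) = cm u' v₁)
  exact ((def_UX hA s₀ u₀).sub (Tm.var 0)).and (Df.eq (Tm.cm (Tm.var 1) (Tm.var 2))
    (Tm.cm (Tm.var 0) (Tm.const _)))

theorem def_DomUG : Def1 (DomUG A s₀ u₀ v₁) := by
  refine ((def_K0G hA s₀ u₀ v₁).sub (Tm.var 0)).and ?_
  apply Df.uni (R := fun v' s => K0G A s₀ u₀ v₁ v' → ∀ u, UX A s₀ u₀ u → ∃ p : Fin 2 → G,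
    UX A s₀ u₀ (p 0) ∧ UX A s₀ u₀ (p 1) ∧ cm u v' = cm (p 0) v₁ ∧ cm u (s 0) = cm (p 1) v₁ ∧
      cm (p 0) (s 0) = cm (p 1) v')
  refine ((def_K0G hA s₀ u₀ v₁).sub (Tm.var 0)).imp ?_
  apply Df.uni (R := fun u s => UX A s₀ u₀ u → ∃ p : Fin 2 → G,
    UX A s₀ u₀ (p 0) ∧ UX A s₀ u₀ (p 1) ∧ cm u (s 0) = cm (p 0) v₁ ∧ cm u (s 1) = cm (p 1) v₁ ∧
      cm (p 0) (s 1) = cm (p 1) (s 0))
  refine ((def_UX hA s₀ u₀).sub (Tm.var 0)).imp ?_
  apply Df.exiTuple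
  exact ((def_UX hA s₀ u₀).sub (Tm.var 0)).and (((def_UX hA s₀ u₀).sub (Tm.var 1)).and
    ((Df.eq (Tm.cm (Tm.var 2) (Tm.var 3)) (Tm.cm (Tm.var 0) (Tm.const _))).and
    ((Df.eq (Tm.cm (Tm.var 2) (Tm.var 4)) (Tm.cm (Tm.var 1) (Tm.const _))).and
    (Df.eq (Tm.cm (Tm.var 0) (Tm.var 4)) (Tm.cm (Tm.var 1) (Tm.var 3))))))

theorem def_MulUG : Def3 (MulUG A s₀ u₀ v₁) := by
  apply Df.uni (R := fun u s => UX A s₀ u₀ u → ∃ u₂, UX A s₀ u₀ u₂ ∧ cm u (s 1) = cm u₂ v₁ ∧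
    cm u₂ (s 0) = cm u (s 2))
  refine ((def_UX hA s₀ u₀).sub (Tm.var 0)).imp ?_
  apply Df.exi (R := fun u₂ s => UX A s₀ u₀ u₂ ∧ cm (s 0) (s 2) = cm u₂ v₁ ∧
    cm u₂ (s 1) = cm (s 0) (s 3))
  exact ((def_UX hA s₀ u₀).sub (Tm.var 0)).and ((Df.eq (Tm.cm (Tm.var 1) (Tm.var 3))
    (Tm.cm (Tm.var 0) (Tm.const _))).and (Df.eq (Tm.cm (Tm.var 0) (Tm.var 2))
    (Tm.cm (Tm.var 1) (Tm.var 4))))

end defs

section group
variable {G : Type} [Group G] {A : Subgroup G} {s₀ : G}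

theorem UG.one : UG A s₀ 1 := by
  refine ⟨Subgroup.one_mem _, fun w _ => by simp [cm], fun v _ => ?_⟩
  have : cm 1 v = 1 := by simp [cm]
  rw [this]
  exact ⟨A.one_mem, by simp [cm]⟩

theorem cm_eq_one {u w : G} : cm u w = 1 ↔ u * w * u⁻¹ = w := by
  unfold cm
  rw [mul_inv_eq_one]

theorem UG.cm_mul (hc : ∀ a ∈ A, ∀ b ∈ A, a * b = b * a) {u u' v : G} (hu : UG A s₀ u)
    (hu' : UG A s₀ u') (hv : VG A s₀ v) : cm (u * u') v = cm u v * cm u' v := by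
  have h1 := hu'.2.2 v hv
  have h2 := cm_eq_one.1 (hu.2.1 _ h1)
  have h3 := (hu.2.2 v hv).1
  have h4 : cm (u * u') v = (u * cm u' v * u⁻¹) * cm u v := by
    unfold cm
    group
  rw [h4, h2]
  exact hc _ h1.1 _ h3

theorem UG.mul (hc : ∀ a ∈ A, ∀ b ∈ A, a * b = b * a) {u u' : G} (hu : UG A s₀ u)
    (hu' : UG A s₀ u') : UG A s₀ (u * u') := by
  refine ⟨Subgroup.mul_mem _ hu.1 hu'.1, fun w hw => ?_, fun v hv => ?_⟩
  · rw [cm_eq_one]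
    have h1 := cm_eq_one.1 (hu'.2.1 w hw)
    have h2 := cm_eq_one.1 (hu.2.1 w hw)
    have h3 : u * u' * w * (u * u')⁻¹ = u * (u' * w * u'⁻¹) * u⁻¹ := by group
    rw [h3, h1, h2]
  · rw [UG.cm_mul hc hu hu' hv]
    have h1 := hu.2.2 v hv
    have h2 := hu'.2.2 v hv
    refine ⟨A.mul_mem h1.1 h2.1, ?_⟩
    rw [cm_eq_one]
    have h3 := cm_eq_one.1 h1.2
    have h4 := cm_eq_one.1 h2.2
    have h5 : s₀ * (cm u v * cm u' v) * s₀⁻¹ = (s₀ * cm u v * s₀⁻¹) * (s₀ * cm u' v * s₀⁻¹) := by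
      group
    rw [h5, h3, h4]

theorem UG.cm_inv {u v : G} (hu : UG A s₀ u) (hv : VG A s₀ v) :
    cm u⁻¹ v = (cm u v)⁻¹ := by
  have h1 := cm_eq_one.1 (hu.2.1 _ (hu.2.2 v hv))
  have h2 : u⁻¹ * cm u v * u = cm u v := by
    conv_lhs => rw [← h1]
    group
  have h3 : cm u⁻¹ v = (u⁻¹ * cm u v * u)⁻¹ := by
    unfold cm
    group
  rw [h3, h2]

theorem UG.inv {u : G} (hu : UG A s₀ u) : UG A s₀ u⁻¹ := by
  refine ⟨Subgroup.inv_mem _ hu.1, fun w hw => ?_, fun v hv => ?_⟩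
  · rw [cm_eq_one]
    have h1 := cm_eq_one.1 (hu.2.1 w hw)
    conv_lhs => rw [← h1]
    group
  · rw [UG.cm_inv hu hv]
    have h1 := hu.2.2 v hv
    refine ⟨A.inv_mem h1.1, ?_⟩
    rw [cm_eq_one]
    have h3 := cm_eq_one.1 h1.2
    have h4 : s₀ * (cm u v)⁻¹ * s₀⁻¹ = (s₀ * cm u v * s₀⁻¹)⁻¹ := by group
    rw [h4, h3]

theorem UG.self (h : s₀ ∈ Subgroup.normalizer (A : Set G)) : UG A s₀ s₀ := by
  refine ⟨h, fun w hw => hw.2, fun v hv => ⟨?_, hv.2⟩⟩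
  exact A.mul_mem ((Subgroup.mem_normalizer_iff.1 h v).1 hv.1) (A.inv_mem hv.1)

end group

section main
variable {G M : Type} [Group G] [AddCommGroup M]

theorem weylU {A : Subgroup G} {ι : M → G} (E : Emb A ι) [Module.Finite ℤ M]
    [Module.IsTorsionFree ℤ M] (hA : DefinableSet (A : Set G)) (s₀ : G)
    (hs₀ : s₀ ∈ Subgroup.normalizer (A : Set G)) (ν : Module.End ℤ M)
    (hν : ∀ y, ι (ν y) = cm s₀ (ι y)) (j : ℕ) (hnil : ν ^ j = 0) (hne : ν ≠ 0) :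
    Undec G := by
  have hc : ∀ a ∈ A, ∀ b ∈ A, a * b = b * a := fun a ha b hb => E.comm ha hb
  let V₁ : Submodule ℤ M := LinearMap.ker (ν * ν)
  let W₁ : Submodule ℤ M := LinearMap.ker ν
  have hV : ∀ y, VG A s₀ (ι y) ↔ y ∈ V₁ := by
    intro y
    unfold VG
    rw [← hν, ← hν, and_iff_right (E.memι y), ← E.zero, E.inj.eq_iff]
    rfl
  have hW : ∀ y, WG A s₀ (ι y) ↔ y ∈ W₁ := by
    intro y
    unfold WG
    rw [← hν, and_iff_right (E.memι y), ← E.zero, E.inj.eq_iff]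
    rfl
  let X₀ : AddSubgroup (V₁ →ₗ[ℤ] W₁) :=
    { carrier := {φ | ∃ u, UG A s₀ u ∧ ∀ v : V₁, ι (φ v : W₁) = cm u (ι v)}
      zero_mem' := ⟨1, UG.one, fun v => by
        rw [LinearMap.zero_apply, Submodule.coe_zero, E.zero]
        simp [cm]⟩
      add_mem' := by
        rintro φ ψ ⟨u, hu, hφ⟩ ⟨u', hu', hψ⟩
        refine ⟨u * u', hu.mul hc hu', fun v => ?_⟩
        rw [UG.cm_mul hc hu hu' ((hV v).2 v.2), LinearMap.add_apply, Submodule.coe_add, E.add,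
          hφ, hψ]
      neg_mem' := by
        rintro φ ⟨u, hu, hφ⟩
        refine ⟨u⁻¹, hu.inv, fun v => ?_⟩
        rw [UG.cm_inv hu ((hV v).2 v.2), LinearMap.neg_apply, Submodule.coe_neg, E.neg, hφ] }
  let X : Submodule ℤ (V₁ →ₗ[ℤ] W₁) := AddSubgroup.toIntSubmodule X₀
  have hXmem : ∀ φ, φ ∈ X ↔ ∃ u, UG A s₀ u ∧ ∀ v : V₁, ι (φ v : W₁) = cm u (ι v) :=
    fun φ => Iff.rfl
  have hXex : ∀ u, UG A s₀ u → ∃ φ ∈ X, ∀ v : V₁, ι (φ v : W₁) = cm u (ι v) := by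
    intro u hu
    have h1 : ∀ v : M, ι ((E.act hu.1 - 1 : Module.End ℤ M) v) = cm u (ι v) := by
      intro v
      rw [LinearMap.sub_apply, E.sub, E.act_spec]
      rfl
    have h2 : ∀ v : V₁, ((E.act hu.1 - 1 : Module.End ℤ M).domRestrict V₁) v ∈ W₁ := by
      intro v
      rw [← hW, LinearMap.domRestrict_apply, h1]
      exact hu.2.2 _ ((hV v).2 v.2)
    refine ⟨((E.act hu.1 - 1 : Module.End ℤ M).domRestrict V₁).codRestrict W₁ h2, ⟨u, hu, ?_⟩, ?_⟩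
    · intro v
      exact h1 v
    · intro v
      exact h1 v
  have hXne : X ≠ ⊥ := by
    obtain ⟨φ, hφX, hφ⟩ := hXex s₀ (UG.self hs₀)
    intro h0
    rw [h0, Submodule.mem_bot] at hφX
    -- there is an element of `V₁` which `ν` does not kill
    have hex : ∃ i : ℕ, ν ^ i = 0 := ⟨j, hnil⟩
    classical
    let i := Nat.find hex
    have hi : ν ^ i = 0 := Nat.find_spec hex
    have hi0 : i ≠ 0 := by
      intro h
      rw [h, pow_zero] at hi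
      apply hne
      ext1 y
      have h2 : (1 : Module.End ℤ M) (ν y) = 0 := by rw [hi]; rfl
      exact h2
    have hi1 : i ≠ 1 := by
      intro h
      rw [h, pow_one] at hi
      exact hne hi
    have hlt := Nat.find_min hex (show i - 1 < i by omega)
    apply hlt
    ext1 y
    have h3 : (ν ^ (i - 2)) y ∈ V₁ := by
      show (ν * ν) ((ν ^ (i - 2)) y) = 0
      have : ν * ν * ν ^ (i - 2) = ν ^ i := by
        rw [← pow_two, ← pow_add]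
        congr 1
        omega
      have h4 : (ν * ν * ν ^ (i - 2)) y = 0 := by rw [this, hi]; rfl
      exact h4
    have h4 := hφ ⟨_, h3⟩
    rw [hφX, LinearMap.zero_apply, Submodule.coe_zero, ← hν] at h4
    have h5 : ν ^ (i - 1) = ν * ν ^ (i - 2) := by
      rw [← pow_succ']
      congr 1
      omega
    rw [h5]
    exact (E.inj h4).symm
  have hfW : Module.IsTorsionFree ℤ W₁ := inferInstance
  obtain ⟨O, i1, i2, i3, i4, x₀, hx₀X, v₁, V, HD⟩ := caseU X hXne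
  obtain ⟨u₀, hu₀, hx₀⟩ := (hXmem x₀).1 hx₀X
  -- translation
  have hUX : ∀ (u : G) (x : V₁ →ₗ[ℤ] W₁), UG A s₀ u → (∀ v : V₁, ι (x v : W₁) = cm u (ι v)) →
      (UX A s₀ u₀ u ↔ SubK x₀ x) := by
    intro u x hu hx
    unfold UX SubK
    rw [and_iff_right hu]
    constructor
    · intro h v hv
      have h1 : cm u₀ (ι v) = 1 := by rw [← hx₀, hv, Submodule.coe_zero, E.zero]
      have h2 := h (ι v) ((hV v).2 v.2) h1
      rw [← hx, ← E.zero] at h2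
      exact Subtype.ext (E.inj h2)
    · intro h g hg h1
      obtain ⟨y, rfl⟩ := (E.mem g).1 hg.1
      have hy : y ∈ V₁ := (hV y).1 hg
      have h2 : x₀ ⟨y, hy⟩ = 0 := by
        apply Subtype.ext
        apply E.inj
        rw [hx₀, Submodule.coe_zero, E.zero]
        exact h1
      have h3 := hx ⟨y, hy⟩
      rw [h _ h2, Submodule.coe_zero, E.zero] at h3
      exact h3.symm
  have hto : ∀ u, UX A s₀ u₀ u → ∃ x ∈ X, SubK x₀ x ∧ ∀ v : V₁, ι (x v : W₁) = cm u (ι v) := by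
    intro u hu
    obtain ⟨x, hx, hxu⟩ := hXex u hu.1
    exact ⟨x, hx, (hUX u x hu.1 hxu).1 hu, hxu⟩
  have hfrom : ∀ x ∈ X, SubK x₀ x → ∃ u, UX A s₀ u₀ u ∧ ∀ v : V₁, ι (x v : W₁) = cm u (ι v) := by
    intro x hx hs
    obtain ⟨u, hu, hxu⟩ := (hXmem x).1 hx
    exact ⟨u, (hUX u x hu hxu).2 hs, hxu⟩
  have hinjW : ∀ w w' : W₁, ι w = ι w' → w = w' := fun w w' h => Subtype.ext (E.inj h)
  have hK0 : ∀ v : V₁, K0G A s₀ u₀ (ι v₁) (ι v) ↔ K0U X x₀ v₁ v := by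
    intro v
    unfold K0G K0U
    rw [and_iff_right ((hV v).2 v.2)]
    constructor
    · intro h x hx hs
      obtain ⟨u, hu, hxu⟩ := hfrom x hx hs
      obtain ⟨u', hu', he⟩ := h u hu
      obtain ⟨x', hx', hs', hxu'⟩ := hto u' hu'
      exact ⟨x', hx', hs', hinjW _ _ (by rw [hxu, hxu', he])⟩
    · intro h u hu
      obtain ⟨x, hx, hs, hxu⟩ := hto u hu
      obtain ⟨x', hx', hs', he⟩ := h x hx hs
      obtain ⟨u', hu', hxu'⟩ := hfrom x' hx' hs'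
      exact ⟨u', hu', by rw [← hxu, ← hxu', he]⟩
  have hK0ex : ∀ g, K0G A s₀ u₀ (ι v₁) g → ∃ v : V₁, ι v = g := by
    intro g hg
    obtain ⟨y, rfl⟩ := (E.mem g).1 hg.1.1
    exact ⟨⟨y, (hV y).1 hg.1⟩, rfl⟩
  have hDom : ∀ v : V₁, DomUG A s₀ u₀ (ι v₁) (ι v) ↔ DomU X x₀ v₁ v := by
    intro v
    unfold DomUG DomU
    rw [hK0]
    refine and_congr Iff.rfl ⟨?_, ?_⟩
    · intro h v' hv' x hx hs
      obtain ⟨u, hu, hxu⟩ := hfrom x hx hs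
      obtain ⟨p, hp0, hp1, e1, e2, e3⟩ := h (ι v') ((hK0 v').2 hv') u hu
      obtain ⟨x₂, hx₂, hs₂, hxu₂⟩ := hto _ hp0
      obtain ⟨x₃, hx₃, hs₃, hxu₃⟩ := hto _ hp1
      exact ⟨x₂, hx₂, x₃, hx₃, hs₂, hs₃, hinjW _ _ (by rw [hxu, hxu₂, e1]),
        hinjW _ _ (by rw [hxu, hxu₃, e2]), hinjW _ _ (by rw [hxu₂, hxu₃, e3])⟩
    · intro h g hg u hu
      obtain ⟨v', rfl⟩ := hK0ex g hg
      obtain ⟨x, hx, hs, hxu⟩ := hto u hu
      obtain ⟨x₂, hx₂, x₃, hx₃, hs₂, hs₃, e1, e2, e3⟩ := h v' ((hK0 v').1 hg) x hx hs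
      obtain ⟨u₂, hu₂, hxu₂⟩ := hfrom x₂ hx₂ hs₂
      obtain ⟨u₃, hu₃, hxu₃⟩ := hfrom x₃ hx₃ hs₃
      refine ⟨![u₂, u₃], hu₂, hu₃, ?_, ?_, ?_⟩
      · show cm u (ι v') = cm u₂ (ι v₁)
        rw [← hxu, ← hxu₂, e1]
      · show cm u (ι v) = cm u₃ (ι v₁)
        rw [← hxu, ← hxu₃, e2]
      · show cm u₂ (ι v) = cm u₃ (ι v')
        rw [← hxu₂, ← hxu₃, e3]
  have hMul : ∀ v v' v'' : V₁, MulUG A s₀ u₀ (ι v₁) (ι v) (ι v') (ι v'') ↔
      MulU X x₀ v₁ v v' v'' := by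
    intro v v' v''
    unfold MulUG MulU
    constructor
    · intro h x hx hs
      obtain ⟨u, hu, hxu⟩ := hfrom x hx hs
      obtain ⟨u', hu', he, he'⟩ := h u hu
      obtain ⟨x', hx', hs', hxu'⟩ := hto u' hu'
      exact ⟨x', hx', hs', hinjW _ _ (by rw [hxu, hxu', he]), hinjW _ _ (by rw [hxu, hxu', he'])⟩
    · intro h u hu
      obtain ⟨x, hx, hs, hxu⟩ := hto u hu
      obtain ⟨x', hx', hs', he, he'⟩ := h x hx hs
      obtain ⟨u', hu', hxu'⟩ := hfrom x' hx' hs'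
      exact ⟨u', hu', by rw [← hxu, ← hxu', he], by rw [← hxu, ← hxu', he']⟩
  have hData := HD.toData (fun v : V₁ => ι (v : M)) (fun v v' h => Subtype.ext (E.inj h))
    (fun x y => by
      show ι ((x + y : V₁) : M) = _
      rw [Submodule.coe_add, E.add])
    (fun k x => by
      show ι ((k • x : V₁) : M) = _
      rw [Submodule.coe_smul_of_tower, E.nsmul])
    (DomUG A s₀ u₀ (ι v₁)) (fun x y => cm u₀ x = cm u₀ y)
    (MulUG A s₀ u₀ (ι v₁))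
    (fun g hg => hK0ex g hg.1)
    hDom
    (fun x y _ _ => by
      show cm u₀ (ι x) = cm u₀ (ι y) ↔ _
      rw [← hx₀, ← hx₀]
      exact ⟨fun h => hinjW _ _ h, fun h => by rw [h]⟩)
    (fun x y z _ _ _ => hMul x y z)
  refine Crit.main hData (def_DomUG hA _ _ _) ?_ ?_ (def_MulUG hA _ _ _)
  · exact Df.eq (Tm.cm (Tm.const _) (Tm.var 0)) (Tm.cm (Tm.const _) (Tm.var 1))
  · exact Df.eq ((Tm.var 0).mul (Tm.var 1)) (Tm.var 2)

end main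

end Pool.Agent.Helper657_nd.Weyl
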